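import Pool.Agent.RS69.Defs
import Pool.Agent.SRig.Alg

/-!
# RS69.Arith : the concrete data (section 0), from `SRig/Alg.lean`

`P = SRig.P`, `Q = SRig.Pi`, `l v = ll (re v)`, `c v = cc (re v)`, `z v = zz (re v)`;
`f ∝ (t0, t0^3 - 1, 1, t0^2)` normalised by `∑ f_a l_a = 1`.
`w0_pow_ne`: if `w0^n = 1` then `z (P^n v - v) = 0`, so `P^n v = v` by the norm form, contradiction with `l`.
`iso`: `exists_C1` for `v - l(v) f` (`z(f) = c(f) = 0`, `l(f) = 1`).
`P_prim`: `P^6` positive (`decide`), no zero rows.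
-/

set_option autoImplicit false

namespace Pool.Agent.RS69

open SRig

namespace ArithAux

lemma re_add (v w : Vec) : re (v + w) = re v + re w := by
  funext i; simp [re]

lemma re_zero : re (0 : Vec) = 0 := by
  funext i; simp [re]

lemma ll_add (v w : Fin 4 → ℝ) : ll (v + w) = ll v + ll w :=
  congrArg Prod.fst (map_add Lam v w)

lemma zz_add (v w : Fin 4 → ℝ) : zz (v + w) = zz v + zz w :=
  congrArg (fun p => p.2.1) (map_add Lam v w)

lemma cc_add (v w : Fin 4 → ℝ) : cc (v + w) = cc v + cc w :=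
  congrArg (fun p => p.2.2) (map_add Lam v w)

lemma ll_zero : ll 0 = 0 := congrArg Prod.fst (map_zero Lam)
lemma zz_zero : zz 0 = 0 := congrArg (fun p => p.2.1) (map_zero Lam)
lemma cc_zero : cc 0 = 0 := congrArg (fun p => p.2.2) (map_zero Lam)

lemma ll_smul (a : ℝ) (v : Fin 4 → ℝ) : ll (a • v) = a * ll v :=
  congrArg Prod.fst (map_smul Lam a v)

lemma zz_smul (a : ℝ) (v : Fin 4 → ℝ) : zz (a • v) = a * zz v := by
  have h := congrArg (fun p => p.2.1) (map_smul Lam a v)
  have h' : zz (a • v) = a • zz v := h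
  rw [h', Complex.real_smul]

lemma cc_smul (a : ℝ) (v : Fin 4 → ℝ) : cc (a • v) = a * cc v :=
  congrArg (fun p => p.2.2) (map_smul Lam a v)

/-- expanding functional -/
noncomputable def lA : Vec →+ ℝ where
  toFun v := ll (re v)
  map_zero' := by rw [re_zero, ll_zero]
  map_add' v w := by rw [re_add, ll_add]

/-- contracting functional -/
noncomputable def cA : Vec →+ ℝ where
  toFun v := cc (re v)
  map_zero' := by rw [re_zero, cc_zero]
  map_add' v w := by rw [re_add, cc_add]

/-- neutral functional -/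
noncomputable def zA : Vec →+ ℂ where
  toFun v := zz (re v)
  map_zero' := by rw [re_zero, zz_zero]
  map_add' v w := by rw [re_add, zz_add]

/-- right Perron vector, not normalised -/
noncomputable def f0 : Fin 4 → ℝ := ![t0, t0 ^ 3 - 1, 1, t0 ^ 2]

lemma t0_cube : (5 : ℝ) < t0 ^ 3 := by
  have h := t0_lo
  have h2 : (2.95 : ℝ) < t0 ^ 2 := by nlinarith
  have : t0 ^ 3 = t0 ^ 2 * t0 := by ring
  rw [this]; nlinarith

lemma f0_pos (a : Fin 4) : 0 < f0 a := by
  have h := t0_pos
  have h3 := t0_cube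
  fin_cases a
  · exact h
  · change 0 < t0 ^ 3 - 1; linarith
  · exact one_pos
  · change 0 < t0 ^ 2; positivity

lemma P_f0 : (P.map (Int.cast : ℤ → ℝ)).mulVec f0 = t0 • f0 := by
  have h := t0_quartic
  funext a
  fin_cases a <;>
    simp [Matrix.mulVec, dotProduct, Fin.sum_univ_four, P, f0]
  · ring
  · linarith
  · ring

lemma norm_sum : 1 ≤ ll f0 := by
  have h := t0_lo
  have h3 := t0_cube
  unfold ll yy f0
  simp
  nlinarith [sq_nonneg (t0 ^ 3 - 1), sq_nonneg (t0 ^ 2)]

lemma cc_f0 : cc f0 = 0 := by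
  have h := yy_P t1_quartic f0
  rw [P_f0] at h
  have h2 : cc (t0 • f0) = t1 * cc f0 := h
  rw [cc_smul] at h2
  have h3 : (t0 - t1) * cc f0 = 0 := by linear_combination h2
  rcases mul_eq_zero.1 h3 with h4 | h4
  · linarith [one_lt_t0, t1_lt_one]
  · exact h4

lemma zz_f0 : zz f0 = 0 := by
  have h := yy_P w0_quartic (fun i => (f0 i : ℂ))
  have e : ((P.map (Int.cast : ℤ → ℂ)).mulVec fun i => (f0 i : ℂ)) =
      fun i => (((t0 • f0) i : ℝ) : ℂ) := by
    rw [← P_f0]
    funext i
    simp [Matrix.mulVec, dotProduct]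
  rw [e] at h
  have h2 : zz (t0 • f0) = w0 * zz f0 := h
  rw [zz_smul] at h2
  have h3 : ((t0 : ℂ) - w0) * zz f0 = 0 := by linear_combination h2
  rcases mul_eq_zero.1 h3 with h4 | h4
  · exfalso
    have h5 : (t0 : ℂ) = w0 := sub_eq_zero.1 h4
    have h6 := congrArg norm h5
    rw [w0_norm, Complex.norm_real, Real.norm_of_nonneg t0_pos.le] at h6
    linarith [one_lt_t0]
  · exact h4

/-- right Perron vector -/
noncomputable def fA : Fin 4 → ℝ := (ll f0)⁻¹ • f0

lemma ll_fA : ll fA = 1 := by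
  unfold fA
  rw [ll_smul]
  exact inv_mul_cancel₀ (by linarith [norm_sum])

lemma cc_fA : cc fA = 0 := by
  unfold fA
  rw [cc_smul, cc_f0, mul_zero]

lemma zz_fA : zz fA = 0 := by
  unfold fA
  rw [zz_smul, zz_f0, mul_zero]

lemma w0_pow_ne (n : ℕ) (hn : 1 ≤ n) : w0 ^ n ≠ 1 := by
  intro h
  set v : Vec := ev 0 with hv
  have hl : ll (re v) = 1 := by
    rw [hv]; unfold ll yy re ev; simp
  have h1 : (P ^ n).mulVec v - v = 0 := by
    by_contra hne
    have h2 := norm_form hne
    have h3 : zz (re ((P ^ n).mulVec v - v)) = 0 := by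
      rw [re_sub, zz_sub, zz_Pn, h, one_mul, sub_self]
    rw [h3] at h2
    norm_num at h2
  have h4 : ll (re ((P ^ n).mulVec v)) = ll (re v) := by
    rw [sub_eq_zero.1 h1]
  rw [ll_Pn, hl, mul_one] at h4
  have h5 : 1 < t0 ^ n := one_lt_pow₀ one_lt_t0 (by omega)
  linarith

lemma P_six : P ^ 6 = !![2, 6, 2, 5; 4, 15, 6, 11; 1, 4, 2, 2; 2, 11, 5, 8] := by decide

lemma P_nonneg (a b : Fin 4) : (0 : ℤ) ≤ P a b := by
  fin_cases a <;> fin_cases b <;> simp [P]

lemma P_col (b : Fin 4) : ∃ c, (0 : ℤ) < P c b := by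
  fin_cases b
  · exact ⟨2, by simp [P]⟩
  · exact ⟨1, by simp [P]⟩
  · exact ⟨3, by simp [P]⟩
  · exact ⟨0, by simp [P]⟩

lemma P_prim (n : ℕ) (hn : 6 ≤ n) : ∀ a b, (0 : ℤ) < (P ^ n) a b := by
  induction n, hn using Nat.le_induction with
  | base =>
    intro a b
    rw [P_six]
    fin_cases a <;> fin_cases b <;> simp
  | succ n _ ih =>
    intro a b
    rw [pow_succ, Matrix.mul_apply]
    have h0 := P_nonneg
    obtain ⟨c, hc⟩ := P_col b
    exact Finset.sum_pos' (fun c _ => mul_nonneg (ih a c).le (h0 c b))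
      ⟨c, Finset.mem_univ _, mul_pos (ih a c) hc⟩

end ArithAux

open ArithAux in
theorem exists_base : ∃ B : Base, True := by
  obtain ⟨C1, hC1, hiso⟩ := exists_C1
  refine ⟨{
    P := P
    Q := Pi
    PQ := P_mul_Pi
    QP := Pi_mul_P
    P_nonneg := ArithAux.P_nonneg
    P_prim := ⟨6, ArithAux.P_prim⟩
    t0 := t0
    one_lt_t0 := SRig.one_lt_t0
    w0 := w0
    norm_w0 := w0_norm
    w0_pow_ne := ArithAux.w0_pow_ne
    l := lA
    c := cA
    z := zA
    l_P := ll_P
    c_P := fun v => by rw [← t1_eq]; exact cc_P v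
    z_P := zz_P
    l_ge := ?_
    f := fA
    f_pos := ?_
    f_P := ?_
    f_l := ?_
    norm_form := fun v hv => SRig.norm_form hv
    Ciso := C1
    iso := ?_
    g := gC
    one_le_g := one_le_gC
    cover := SRig.cover }, trivial⟩
  · intro a
    have h := t0_lo
    have h3 := t0_cube
    change 1 ≤ ll (re (ev a))
    unfold ll yy re ev
    fin_cases a
    · simp
    · simp; linarith
    · simp; linarith
    · simp
      rw [abs_of_pos (by linarith)]
      linarith
  · intro a
    exact mul_pos (inv_pos.2 (by linarith [norm_sum])) (f0_pos a)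
  · intro a
    have h := congrFun P_f0 a
    simp only [Matrix.mulVec, dotProduct, Matrix.map_apply, Pi.smul_apply, smul_eq_mul] at h
    unfold fA
    simp only [Pi.smul_apply, smul_eq_mul]
    have e : ∀ b, (P a b : ℝ) * ((ll f0)⁻¹ * f0 b) = (ll f0)⁻¹ * ((P a b : ℝ) * f0 b) :=
      fun b => by ring
    rw [Finset.sum_congr rfl fun b _ => e b, ← Finset.mul_sum, h]
    ring
  · have h := ll_fA
    change ∑ a, fA a * ll (re (ev a)) = 1
    rw [← h, Fin.sum_univ_four]
    unfold ll yy re ev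
    simp
  · intro v a
    have h := hiso (re v - ll (re v) • fA) a
    rw [ll_sub, zz_sub, cc_sub, ll_smul, zz_smul, cc_smul, ll_fA, cc_fA, zz_fA] at h
    simp only [mul_one, mul_zero, sub_self, sub_zero, abs_zero, zero_add] at h
    exact h

end Pool.Agent.RS69
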