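import Pool.Agent.RS69.Op1
import Pool.Agent.SRig.Bal

/-!
# RS69.Bal : balanced words

`exists_bal`: induction on the number of letters, or: the word whose `i`-th letter makes the prefix vector
`p_i` as close as possible to `i U / n`; nested floors also work: put `q_3(i) = i`,
`q_2(i) = ⌊i (U_0+U_1+U_2) / (U_0+..+U_3)⌋`, `q_1(i) = ⌊q_2(i) (U_0+U_1)/(U_0+U_1+U_2)⌋`,
`q_0(i) = ⌊q_1(i) U_0/(U_0+U_1)⌋` (nondecreasing, increments `0` or `1`, if `q_k` increases so do all
`q_j, j ≥ k`), letter `i` = the least `k` such that `q_k` increases at `i`; count of letter `k` among the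
first `i` is `q_k(i) - q_{k-1}(i)`, within `3` of `i U_k/n`.
-/

set_option autoImplicit false

namespace Pool.Agent.RS69

/-! ### auxiliary -/

private theorem hom_expand {E : Type} [AddCommGroup E] (φ : Vec →+ E) (v : Vec) :
    φ v = ∑ a, v a • φ (ev a) := by
  have h : v = ∑ a, v a • ev a := by
    funext b
    simp [ev, Finset.sum_apply, Pi.single_apply]
  conv_lhs => rw [h]
  rw [map_sum]
  exact Finset.sum_congr rfl fun a _ => map_zsmul φ _ _

private theorem norm_hom_le {E : Type} [NormedAddCommGroup E] [NormedSpace ℝ E] (φ : Vec →+ E)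
    (v : Vec) (C : ℝ) (hv : ∀ a, |(v a : ℝ)| ≤ C) : ‖φ v‖ ≤ C * ∑ a, ‖φ (ev a)‖ := by
  rw [hom_expand φ v]
  refine (norm_sum_le _ _).trans ?_
  rw [Finset.mul_sum]
  refine Finset.sum_le_sum fun a _ => ?_
  rw [← Int.cast_smul_eq_zsmul ℝ (v a) (φ (ev a)), norm_smul, Real.norm_eq_abs]
  exact mul_le_mul_of_nonneg_right (hv a) (norm_nonneg _)

/-- For every nonnegative vector `U` there is a word with abelianisation `U` all of whose prefixes stay
within distance 3 of the segment `[0, U]`. -/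
theorem exists_bal (U : Vec) (hU : ∀ a, 0 ≤ U a) : ∃ w : List Ltr, abv w = U ∧
    ∀ i ≤ w.length, ∀ a, |(abv (w.take i) a : ℝ) * w.length - i * U a| ≤ 3 * w.length := by
  obtain ⟨w, hw, hb⟩ := SRig.exists_bal (fun a => (U a).toNat)
  have hcast : ∀ a, ((U a).toNat : ℤ) = U a := fun a => Int.toNat_of_nonneg (hU a)
  have hab : abv w = U := by
    funext a
    change ((w.count a : ℕ) : ℤ) = U a
    rw [hw a, hcast]
  refine ⟨w, hab, fun i hi a => ?_⟩
  have hlen : (w.length : ℝ) = ∑ b, (((U b).toNat : ℕ) : ℝ) := by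
    have h1 := abv_sum w
    have h2 : (w.length : ℤ) = ∑ b, (((U b).toNat : ℕ) : ℤ) := by
      rw [← h1, hab]
      exact Finset.sum_congr rfl fun b _ => (hcast b).symm
    exact_mod_cast h2
  have h3 := hb i hi a
  rw [← hlen] at h3
  have h4 : (((U a).toNat : ℕ) : ℝ) = (U a : ℝ) := by
    have := hcast a
    exact_mod_cast this
  have h5 : ((abv (w.take i) a : ℤ) : ℝ) = (((w.take i).count a : ℕ) : ℝ) := by
    change ((((w.take i).count a : ℕ) : ℤ) : ℝ) = _
    norm_cast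
  rw [h5, ← h4]
  refine h3.trans ?_
  have h6 : (0 : ℝ) ≤ w.length := Nat.cast_nonneg _
  linarith

/-- the balanced word of a vector (junk for vectors which are not nonnegative) -/
noncomputable def bal (U : Vec) : List Ltr :=
  open Classical in if h : ∀ a, 0 ≤ U a then (exists_bal U h).choose else []

theorem bal_abv {U : Vec} (hU : ∀ a, 0 ≤ U a) : abv (bal U) = U := by
  unfold bal
  rw [dif_pos hU]
  exact (exists_bal U hU).choose_spec.1

theorem bal_prefix {U : Vec} (hU : ∀ a, 0 ≤ U a) (i : ℕ) (hi : i ≤ (bal U).length) (a : Ltr) :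
    |(abv ((bal U).take i) a : ℝ) * (bal U).length - i * U a| ≤ 3 * (bal U).length := by
  have h : bal U = (exists_bal U hU).choose := by
    unfold bal
    rw [dif_pos hU]
  rw [h] at hi ⊢
  exact (exists_bal U hU).choose_spec.2 i hi a

theorem bal_length {U : Vec} (hU : ∀ a, 0 ≤ U a) : ((bal U).length : ℤ) = ∑ a, U a := by
  rw [← abv_sum, bal_abv hU]

private theorem bal_hom {E : Type} [NormedAddCommGroup E] [NormedSpace ℝ E] (φ : Vec →+ E)
    {U : Vec} (hU : ∀ a, 0 ≤ U a) (x : Ltr × Vec) (hx : x ∈ tiles (bal U) 0) :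
    ‖φ x.2‖ ≤ ‖φ U‖ + 3 * ∑ a, ‖φ (ev a)‖ := by
  rw [mem_tiles] at hx
  obtain ⟨i, hi, rfl⟩ := hx
  simp only [zero_add]
  set w := bal U with hw
  set p := abv (w.take i) with hp
  have hn : (0 : ℝ) < w.length := by
    have : 0 < w.length := by omega
    exact_mod_cast this
  have hin : (i : ℝ) ≤ w.length := by exact_mod_cast hi.le
  -- the error vector
  set e : Vec := (w.length : ℤ) • p - (i : ℤ) • U with he
  have he1 : ∀ a, |(e a : ℝ)| ≤ 3 * w.length := by
    intro a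
    have h1 := bal_prefix hU i hi.le a
    have h2 : (e a : ℝ) = (p a : ℝ) * w.length - i * U a := by
      rw [he]
      simp only [Pi.sub_apply, Pi.smul_apply, smul_eq_mul, Int.cast_sub, Int.cast_mul,
        Int.cast_natCast]
      ring
    rw [h2]
    exact h1
  have h3 := norm_hom_le φ e _ he1
  have h4 : ((w.length : ℕ) : ℝ) • φ p = (i : ℝ) • φ U + φ e := by
    rw [he, map_sub, map_zsmul, map_zsmul, ← Int.cast_smul_eq_zsmul ℝ (w.length : ℤ) (φ p),
      ← Int.cast_smul_eq_zsmul ℝ (i : ℤ) (φ U), Int.cast_natCast, Int.cast_natCast]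
    abel
  have h5 : (w.length : ℝ) * ‖φ p‖ ≤ i * ‖φ U‖ + 3 * w.length * ∑ a, ‖φ (ev a)‖ := by
    have h6 : ‖((w.length : ℕ) : ℝ) • φ p‖ = (w.length : ℝ) * ‖φ p‖ := by
      rw [norm_smul, Real.norm_of_nonneg hn.le]
    have h7 : ‖(i : ℝ) • φ U‖ = i * ‖φ U‖ := by
      rw [norm_smul, Real.norm_of_nonneg (Nat.cast_nonneg _)]
    rw [← h6, h4]
    refine (norm_add_le _ _).trans ?_
    rw [h7]
    exact add_le_add le_rfl h3
  have h8 : (i : ℝ) * ‖φ U‖ ≤ w.length * ‖φ U‖ :=
    mul_le_mul_of_nonneg_right hin (norm_nonneg _)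
  have h9 : (w.length : ℝ) * ‖φ p‖ ≤ w.length * (‖φ U‖ + 3 * ∑ a, ‖φ (ev a)‖) := by
    rw [mul_add]
    linarith
  exact le_of_mul_le_mul_left h9 hn

variable (B : Base)

/-- prefixes of balanced words, neutral and contracting coordinates -/
theorem bal_z {U : Vec} (hU : ∀ a, 0 ≤ U a) (x : Ltr × Vec) (hx : x ∈ tiles (bal U) 0) :
    ‖B.z x.2‖ ≤ ‖B.z U‖ + B.K0 := by
  refine (bal_hom B.z hU x hx).trans ?_
  have h := le_max_left (∑ a, ‖B.z (ev a)‖) (∑ a, |B.c (ev a)|)
  unfold Base.K0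
  linarith

theorem bal_c {U : Vec} (hU : ∀ a, 0 ≤ U a) (x : Ltr × Vec) (hx : x ∈ tiles (bal U) 0) :
    |B.c x.2| ≤ |B.c U| + B.K0 := by
  have h0 := bal_hom B.c hU x hx
  simp only [Real.norm_eq_abs] at h0
  refine h0.trans ?_
  have h := le_max_right (∑ a, ‖B.z (ev a)‖) (∑ a, |B.c (ev a)|)
  unfold Base.K0
  linarith

/-- gaps: if `U_b ≥ κ |U|` for all `b`, every factor of length `g0 ≥ 7/κ` contains all letters -/
theorem bal_gap {U : Vec} (hU : ∀ a, 0 ≤ U a) {κ : ℝ} (hκ : 0 < κ)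
    (h : ∀ b, κ * (∑ a, (U a : ℝ)) ≤ U b) (g0 : ℕ) (hg : 7 / κ ≤ g0) (i : ℕ)
    (hi : i + g0 ≤ (bal U).length) (b : Ltr) : b ∈ ((bal U).drop i).take g0 := by
  set w := bal U with hw
  have hg0 : (0 : ℝ) < g0 := lt_of_lt_of_le (by positivity) hg
  have hg0' : 0 < g0 := by exact_mod_cast hg0
  have hn : (0 : ℝ) < w.length := by
    have : 0 < w.length := by omega
    exact_mod_cast this
  have hlen : (w.length : ℝ) = ∑ a, (U a : ℝ) := by
    have h1 := bal_length hU
    rw [← hw] at h1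
    exact_mod_cast h1
  have h1 := (abs_le.1 (bal_prefix hU (i + g0) hi b)).1
  have h2 := (abs_le.1 (bal_prefix hU i (le_trans (Nat.le_add_right _ _) hi) b)).2
  rw [← hw] at h1 h2
  have h3 : w.take (i + g0) = w.take i ++ (w.drop i).take g0 := List.take_add
  rw [h3, abv_append] at h1
  simp only [Pi.add_apply, Int.cast_add, Nat.cast_add] at h1
  have h4 := h b
  rw [← hlen] at h4
  have h5 : 7 ≤ κ * g0 := by
    rw [div_le_iff₀ hκ] at hg
    linarith
  have h6 : (7 : ℝ) * w.length ≤ g0 * U b := by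
    calc (7 : ℝ) * w.length ≤ (κ * g0) * w.length := mul_le_mul_of_nonneg_right h5 hn.le
      _ = g0 * (κ * w.length) := by ring
      _ ≤ g0 * U b := mul_le_mul_of_nonneg_left h4 hg0.le
  have h7 : (0 : ℝ) < (abv ((w.drop i).take g0) b : ℝ) * w.length := by nlinarith
  have h8 : (0 : ℝ) < (abv ((w.drop i).take g0) b : ℝ) := pos_of_mul_pos_left h7 hn.le
  have h9 : 0 < ((w.drop i).take g0).count b := by
    have h10 : (0 : ℤ) < abv ((w.drop i).take g0) b := by exact_mod_cast h8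
    unfold abv at h10
    exact_mod_cast h10
  exact List.count_pos_iff.1 h9

/-- rounding of multiples of the Perron vector -/
noncomputable def flo (x : ℝ) : Vec := fun a => ⌊x * B.f a⌋

private theorem mulVec_ev (M : Matrix (Fin 4) (Fin 4) ℤ) (b a : Ltr) :
    (M.mulVec (ev b)) a = M a b := by
  simp [ev]

private theorem z_f (B : Base) : ∑ a, (B.f a : ℂ) * B.z (ev a) = 0 := by
  set Z := ∑ a, (B.f a : ℂ) * B.z (ev a) with hZ
  have h1 : ∑ b, (B.f b : ℂ) * B.z (B.P.mulVec (ev b)) = B.w0 * Z := by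
    rw [hZ, Finset.mul_sum]
    refine Finset.sum_congr rfl fun b _ => ?_
    rw [B.z_P]
    ring
  have h2 : ∑ b, (B.f b : ℂ) * B.z (B.P.mulVec (ev b)) = (B.t0 : ℂ) * Z := by
    have h3 : ∀ b, B.z (B.P.mulVec (ev b)) = ∑ a, (B.P a b : ℂ) * B.z (ev a) := by
      intro b
      rw [hom_expand B.z]
      refine Finset.sum_congr rfl fun a _ => ?_
      rw [mulVec_ev, zsmul_eq_mul]
    simp_rw [h3, Finset.mul_sum]
    rw [Finset.sum_comm, hZ, Finset.mul_sum]
    refine Finset.sum_congr rfl fun a _ => ?_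
    have h4 : (B.t0 : ℂ) * (B.f a : ℂ) = ∑ b, (B.P a b : ℂ) * (B.f b : ℂ) := by
      have h5 := B.f_P a
      rw [← Complex.ofReal_mul, ← h5]
      push_cast
      rfl
    rw [← mul_assoc, h4, Finset.sum_mul]
    refine Finset.sum_congr rfl fun b _ => ?_
    ring
  have h3 : ((B.t0 : ℂ) - B.w0) * Z = 0 := by
    rw [sub_mul, ← h2, ← h1, sub_self]
  rcases mul_eq_zero.1 h3 with h | h
  · exfalso
    have h4 : (B.t0 : ℂ) = B.w0 := sub_eq_zero.1 h
    have h5 : ‖(B.t0 : ℂ)‖ = 1 := by rw [h4, B.norm_w0]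
    rw [Complex.norm_real, Real.norm_of_nonneg (by linarith [B.one_lt_t0])] at h5
    linarith [B.one_lt_t0]
  · exact h

private theorem c_f (B : Base) : ∑ a, B.f a * B.c (ev a) = 0 := by
  set Z := ∑ a, B.f a * B.c (ev a) with hZ
  have h1 : ∑ b, B.f b * B.c (B.P.mulVec (ev b)) = B.t0⁻¹ * Z := by
    rw [hZ, Finset.mul_sum]
    refine Finset.sum_congr rfl fun b _ => ?_
    rw [B.c_P]
    ring
  have h2 : ∑ b, B.f b * B.c (B.P.mulVec (ev b)) = B.t0 * Z := by
    have h3 : ∀ b, B.c (B.P.mulVec (ev b)) = ∑ a, (B.P a b : ℝ) * B.c (ev a) := by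
      intro b
      rw [hom_expand B.c]
      refine Finset.sum_congr rfl fun a _ => ?_
      rw [mulVec_ev, zsmul_eq_mul]
    simp_rw [h3, Finset.mul_sum]
    rw [Finset.sum_comm, hZ, Finset.mul_sum]
    refine Finset.sum_congr rfl fun a _ => ?_
    rw [← mul_assoc, ← B.f_P a, Finset.sum_mul]
    refine Finset.sum_congr rfl fun b _ => ?_
    ring
  have h3 : (B.t0 - B.t0⁻¹) * Z = 0 := by
    rw [sub_mul, ← h2, ← h1, sub_self]
  rcases mul_eq_zero.1 h3 with h | h
  · exfalso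
    have h4 : B.t0 = B.t0⁻¹ := sub_eq_zero.1 h
    have h5 : B.t0⁻¹ < 1 := inv_lt_one_of_one_lt₀ B.one_lt_t0
    linarith [B.one_lt_t0]
  · exact h

/-- `z` and `c` vanish on the Perron vector: from `Base.f_P`, `z_P`, `c_P` (extended linearly), so for an
integer vector within 1 of a multiple of `f` they are `≤ ∑_a ‖z(e_a)‖` -/
theorem flo_z (x : ℝ) : ‖B.z (flo B x)‖ ≤ B.K0 := by
  have h1 : B.z (flo B x) = -∑ a, ((Int.fract (x * B.f a) : ℝ) : ℂ) * B.z (ev a) := by
    rw [hom_expand B.z (flo B x)]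
    have h2 : ∀ a, (flo B x a) • B.z (ev a) = (x : ℂ) * ((B.f a : ℂ) * B.z (ev a)) -
        ((Int.fract (x * B.f a) : ℝ) : ℂ) * B.z (ev a) := by
      intro a
      rw [zsmul_eq_mul]
      have h3 : ((flo B x a : ℤ) : ℝ) = x * B.f a - Int.fract (x * B.f a) := by
        change ((⌊x * B.f a⌋ : ℤ) : ℝ) = _
        rw [Int.self_sub_fract]
      have h4 : ((flo B x a : ℤ) : ℂ) = (x : ℂ) * (B.f a : ℂ) -
          ((Int.fract (x * B.f a) : ℝ) : ℂ) := by
        rw [← Complex.ofReal_mul, ← Complex.ofReal_sub, ← h3]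
        push_cast
        rfl
      rw [h4]
      ring
    rw [Finset.sum_congr rfl fun a _ => h2 a, Finset.sum_sub_distrib, ← Finset.mul_sum, z_f,
      mul_zero, zero_sub]
  rw [h1, norm_neg]
  refine (norm_sum_le _ _).trans ?_
  have h5 : ∀ a ∈ Finset.univ, ‖((Int.fract (x * B.f a) : ℝ) : ℂ) * B.z (ev a)‖ ≤
      ‖B.z (ev a)‖ := by
    intro a _
    rw [norm_mul, Complex.norm_real, Real.norm_of_nonneg (Int.fract_nonneg _)]
    exact mul_le_of_le_one_left (norm_nonneg _) (Int.fract_lt_one _).le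
  refine (Finset.sum_le_sum h5).trans ?_
  have h := le_max_left (∑ a, ‖B.z (ev a)‖) (∑ a, |B.c (ev a)|)
  have h6 : 0 ≤ ∑ a, ‖B.z (ev a)‖ := Finset.sum_nonneg fun a _ => norm_nonneg _
  unfold Base.K0
  linarith

theorem flo_c (x : ℝ) : |B.c (flo B x)| ≤ B.K0 := by
  have h1 : B.c (flo B x) = -∑ a, Int.fract (x * B.f a) * B.c (ev a) := by
    rw [hom_expand B.c (flo B x)]
    have h2 : ∀ a, (flo B x a) • B.c (ev a) = x * (B.f a * B.c (ev a)) -
        Int.fract (x * B.f a) * B.c (ev a) := by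
      intro a
      rw [zsmul_eq_mul]
      have h3 : ((flo B x a : ℤ) : ℝ) = x * B.f a - Int.fract (x * B.f a) := by
        change ((⌊x * B.f a⌋ : ℤ) : ℝ) = _
        rw [Int.self_sub_fract]
      rw [h3]
      ring
    rw [Finset.sum_congr rfl fun a _ => h2 a, Finset.sum_sub_distrib, ← Finset.mul_sum, c_f,
      mul_zero, zero_sub]
  rw [h1, abs_neg]
  refine (Finset.abs_sum_le_sum_abs _ _).trans ?_
  have h5 : ∀ a ∈ Finset.univ, |Int.fract (x * B.f a) * B.c (ev a)| ≤ |B.c (ev a)| := by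
    intro a _
    rw [abs_mul, abs_of_nonneg (Int.fract_nonneg _)]
    exact mul_le_of_le_one_left (abs_nonneg _) (Int.fract_lt_one _).le
  refine (Finset.sum_le_sum h5).trans ?_
  have h := le_max_right (∑ a, ‖B.z (ev a)‖) (∑ a, |B.c (ev a)|)
  have h6 : 0 ≤ ∑ a, |B.c (ev a)| := Finset.sum_nonneg fun a _ => abs_nonneg _
  unfold Base.K0
  linarith

theorem flo_l (x : ℝ) : |B.l (flo B x) - x| ≤ B.lmax := by
  have h1 : B.l (flo B x) - x = -∑ a, Int.fract (x * B.f a) * B.l (ev a) := by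
    rw [hom_expand B.l (flo B x)]
    have h2 : ∀ a, (flo B x a) • B.l (ev a) = x * (B.f a * B.l (ev a)) -
        Int.fract (x * B.f a) * B.l (ev a) := by
      intro a
      rw [zsmul_eq_mul]
      have h3 : ((flo B x a : ℤ) : ℝ) = x * B.f a - Int.fract (x * B.f a) := by
        change ((⌊x * B.f a⌋ : ℤ) : ℝ) = _
        rw [Int.self_sub_fract]
      rw [h3]
      ring
    rw [Finset.sum_congr rfl fun a _ => h2 a, Finset.sum_sub_distrib, ← Finset.mul_sum, B.f_l]
    ring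
  rw [h1, abs_neg]
  refine (Finset.abs_sum_le_sum_abs _ _).trans ?_
  have h5 : ∀ a ∈ Finset.univ, |Int.fract (x * B.f a) * B.l (ev a)| ≤ B.l (ev a) := by
    intro a _
    have h6 : 0 ≤ B.l (ev a) := zero_le_one.trans (B.l_ge a)
    rw [abs_of_nonneg (mul_nonneg (Int.fract_nonneg _) h6)]
    exact mul_le_of_le_one_left h6 (Int.fract_lt_one _).le
  exact Finset.sum_le_sum h5

end Pool.Agent.RS69
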