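import Pool.Agent.RS69.Op3

/-!
# RS69.Coin : the functions `H_n`, `h_n` of the natural level (section 1.2 of the paper proof)
-/

set_option autoImplicit false

namespace Pool.Agent.RS69

variable {B : Base} (D : Design B)

namespace CoinAux

theorem l_ev_pos (B : Base) (a : Ltr) : 0 < B.l (ev a) := lt_of_lt_of_le one_pos (B.l_ge a)

theorem H_zero_eq (D : Design B) (O : St) : D.S.H 0 O = if Coin O then B.l (ev O.1) else 0 := rfl

theorem H_succ_eq (D : Design B) (n : ℕ) (O : St) : D.S.H (n + 1) O = D.S.op (D.S.H n) O := rfl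

theorem S_op (D : Design B) (F : St → ℝ) (O : St) :
    D.S.op F O = (D.t)⁻¹ * (((tiles (D.σ O.1) 0).map (fun x =>
      ((tiles (D.σ O.2.1) 0).map (fun y => F (child (B.P ^ D.N) O x y))).sum)).sum) :=
  natLevel_op B D.N D.σ D.ab F O

theorem t_pos' (D : Design B) : 0 < D.t := pow_pos (by linarith [B.one_lt_t0]) _

theorem t_ge (D : Design B) : 100 ≤ D.t := D.t_big

/-- a double list sum dominates its diagonal -/
theorem diag_le {α : Type*} (L : List α) (F : α → α → ℝ) (hF : ∀ x y, 0 ≤ F x y) :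
    (L.map (fun x => F x x)).sum ≤ (L.map (fun x => (L.map (fun y => F x y)).sum)).sum := by
  apply List.sum_le_sum
  intro x hx
  obtain ⟨s, t, rfl⟩ := List.append_of_mem hx
  rw [List.map_append, List.sum_append, List.map_cons, List.sum_cons]
  have h1 : 0 ≤ (s.map (fun y => F x y)).sum := List.sum_nonneg (by
    intro z hz
    obtain ⟨y, _, rfl⟩ := List.mem_map.1 hz
    exact hF x y)
  have h2 : 0 ≤ (t.map (fun y => F x y)).sum := List.sum_nonneg (by
    intro z hz
    obtain ⟨y, _, rfl⟩ := List.mem_map.1 hz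
    exact hF x y)
  linarith

theorem sum_comm_list {α β : Type*} (L : List α) (K : List β) (F : α → β → ℝ) :
    (L.map (fun x => (K.map (fun y => F x y)).sum)).sum =
      (K.map (fun y => (L.map (fun x => F x y)).sum)).sum := by
  induction L with
  | nil => simp
  | cons a L ih =>
    rw [List.map_cons, List.sum_cons, ih, ← List.sum_map_add]
    rfl

theorem sum_l_tiles (B : Base) (w : List Ltr) (s : Vec) :
    ((tiles w s).map (fun x => B.l (ev x.1))).sum = B.l (abv w) := by
  have h := sum_clamp B w s id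
  simp only [id] at h
  have h2 : (fun x : Ltr × Vec => B.l x.2 + B.l (ev x.1) - B.l x.2) = fun x => B.l (ev x.1) := by
    funext x
    ring
  rw [h2] at h
  rw [h, map_add]
  ring

end CoinAux

open CoinAux

theorem H_nonneg (n : ℕ) (O : St) : 0 ≤ D.S.H n O := by
  induction n generalizing O with
  | zero =>
    rw [H_zero_eq]
    split_ifs
    · exact (l_ev_pos B _).le
    · exact le_refl _
  | succ n ih =>
    rw [H_succ_eq]
    exact op_nonneg _ ih O

/-- children of a coincidence along the diagonal are coincidences: `H_0 ≤ H_1` -/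
theorem H_le_succ (n : ℕ) (O : St) : D.S.H n O ≤ D.S.H (n + 1) O := by
  induction n generalizing O with
  | zero =>
    by_cases hO : Coin O
    · rw [H_zero_eq, if_pos hO, H_succ_eq, S_op]
      obtain ⟨a, b, v⟩ := O
      obtain ⟨h1, h2⟩ := hO
      simp only at h1 h2
      subst h1 h2
      simp only
      have h3 : B.l (ev a) = (D.t)⁻¹ * ((tiles (D.σ a) 0).map (fun x => B.l (ev x.1))).sum := by
        rw [sum_l_tiles, D.ab, l_Mpow]
        have := t_pos' D
        unfold Design.t at this ⊢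
        field_simp
      rw [h3]
      apply mul_le_mul_of_nonneg_left _ (inv_nonneg.2 (t_pos' D).le)
      refine le_trans (le_of_eq ?_) (diag_le (tiles (D.σ a) 0)
        (fun x y => D.S.H 0 (child (B.P ^ D.N) (a, a, 0) x y)) (fun x y => H_nonneg D 0 _))
      congr 1
      apply List.map_congr_left
      intro x hx
      rw [H_zero_eq]
      have hc : Coin (child (B.P ^ D.N) (a, a, 0) x x) := by
        refine ⟨rfl, ?_⟩
        simp [child]
      rw [if_pos hc]
      rfl
    · rw [H_zero_eq, if_neg hO]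
      exact H_nonneg D 1 O
  | succ n ih =>
    rw [H_succ_eq, H_succ_eq]
    exact op_mono _ ih O

theorem H_mono {m n : ℕ} (h : m ≤ n) (O : St) : D.S.H m O ≤ D.S.H n O := by
  exact monotone_nat_of_le_succ (f := fun n => D.S.H n O) (fun n => H_le_succ D n O) h

theorem H_le_I (n : ℕ) (O : St) : D.S.H n O ≤ B.I O := by
  induction n generalizing O with
  | zero =>
    rw [H_zero_eq]
    split_ifs with hO
    · obtain ⟨a, b, v⟩ := O
      obtain ⟨h1, h2⟩ := hO
      simp only at h1 h2
      subst h1 h2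
      rw [I_coin]
    · exact I_nonneg B O
  | succ n ih =>
    rw [H_succ_eq]
    have h := op_mono D.S ih O
    rw [op_I] at h
    exact h

theorem H_coin (n : ℕ) (O : St) (h : Coin O) : D.S.H n O = B.l (ev O.1) := by
  apply le_antisymm
  · exact (H_le_I D n O).trans (I_le_l B O).1
  · have h1 := H_mono D (Nat.zero_le n) O
    rw [H_zero_eq, if_pos h] at h1
    exact h1

theorem H_symm (n : ℕ) (a b : Ltr) (v : Vec) : D.S.H n (a, b, v) = D.S.H n (b, a, -v) := by
  induction n generalizing a b v with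
  | zero =>
    rw [H_zero_eq, H_zero_eq]
    by_cases hO : Coin (a, b, v)
    · have hO' : Coin (b, a, -v) := ⟨hO.1.symm, by simpa using hO.2⟩
      rw [if_pos hO, if_pos hO']
      have : a = b := hO.1
      subst this
      rfl
    · have hO' : ¬ Coin (b, a, -v) := by
        intro h
        apply hO
        refine ⟨h.1.symm, ?_⟩
        have := h.2
        simpa using this
      rw [if_neg hO, if_neg hO']
  | succ n ih =>
    rw [H_succ_eq, H_succ_eq, S_op, S_op]
    simp only
    rw [sum_comm_list]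
    congr 2
    apply List.map_congr_left
    intro y _
    congr 1
    apply List.map_congr_left
    intro x _
    unfold child
    simp only
    rw [ih]
    congr 3
    rw [Matrix.mulVec_neg]
    abel

theorem op_iter_H (j n : ℕ) : D.S.op^[j] (D.S.H n) = D.S.H (n + j) := by
  induction j with
  | zero => rfl
  | succ j ih =>
    rw [Function.iterate_succ_apply', ih]
    rfl

namespace CoinAux

theorem isChild_elim (D : Design B) (O O' : St) (h : IsChild D.S O O') :
    ∃ x ∈ tiles (D.σ O.1) 0, ∃ y ∈ tiles (D.σ O.2.1) 0, O' = child (B.P ^ D.N) O x y := by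
  obtain ⟨_, _, x, hx, y, hy, h⟩ := h
  exact ⟨x, hx, y, hy, h⟩

theorem isChild_intro (D : Design B) (O O' : St) (x y : Ltr × Vec) (hx : x ∈ tiles (D.σ O.1) 0)
    (hy : y ∈ tiles (D.σ O.2.1) 0) (h : O' = child (B.P ^ D.N) O x y) : IsChild D.S O O' :=
  ⟨(), (), x, hx, y, hy, h⟩

theorem norm_w (D : Design B) : ‖D.w‖ = 1 := by
  unfold Design.w
  rw [norm_pow, B.norm_w0, one_pow]

theorem kc_nonneg (B : Base) : 0 ≤ B.kc := by
  unfold Base.kc Base.K0
  have h1 : 0 ≤ ∑ a, ‖B.z (ev a)‖ := Finset.sum_nonneg (fun a _ => norm_nonneg _)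
  have h2 : 0 ≤ max (∑ a, ‖B.z (ev a)‖) (∑ a, |B.c (ev a)|) := le_max_of_le_left h1
  have h3 := B.one_le_g
  linarith

theorem Cbig_ge' (D : Design B) : 20 + 84 * D.Ct ≤ D.Cbig := by
  have h1 := D.Cbig_ge
  have h2 := kc_nonneg B
  have h3 := D.Ct_nonneg
  unfold Base.Cc at h1
  linarith

end CoinAux

/-- children of overlapping states: displacement bounds -/
theorem child_bounds (O O' : St) (h : IsChild D.S O O') :
    ‖B.z O'.2.2 - D.w * B.z O.2.2‖ ≤ 2 * D.Zt ∧ |B.c O'.2.2| ≤ |B.c O.2.2| / D.t + 2 * D.Ct := by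
  obtain ⟨x, hx, y, hy, rfl⟩ := isChild_elim D O O' h
  have h1 := D.tube _ x hx
  have h2 := D.tube _ y hy
  have h3 : (child (B.P ^ D.N) O x y).2.2 = (B.P ^ D.N).mulVec O.2.2 + y.2 - x.2 := rfl
  constructor
  · rw [h3, map_sub, map_add, z_Mpow]
    have h4 : B.w0 ^ D.N * B.z O.2.2 + B.z y.2 - B.z x.2 - D.w * B.z O.2.2 = B.z y.2 - B.z x.2 := by
      unfold Design.w
      ring
    rw [h4]
    have := norm_sub_le (B.z y.2) (B.z x.2)
    linarith [h1.1, h2.1]
  · rw [h3, map_sub, map_add, c_Mpow]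
    have h4 := abs_add_three ((B.t0 ^ D.N)⁻¹ * B.c O.2.2) (B.c y.2) (-B.c x.2)
    have h5 : |(B.t0 ^ D.N)⁻¹ * B.c O.2.2| = |B.c O.2.2| / D.t := by
      rw [abs_mul, abs_of_pos (inv_pos.2 (t_pos' D) : 0 < (B.t0 ^ D.N)⁻¹), div_eq_mul_inv, mul_comm]
      rfl
    rw [h5, abs_neg] at h4
    rw [sub_eq_add_neg]
    linarith [h1.2, h2.2]

theorem child_cbig (O O' : St) (h : IsChild D.S O O') (hc : |B.c O.2.2| ≤ D.Cbig) :
    |B.c O'.2.2| ≤ D.Cbig := by
  have h1 := (child_bounds D O O' h).2
  have h2 := Cbig_ge' D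
  have h3 := D.Ct_nonneg
  have h4 : |B.c O.2.2| / D.t ≤ D.Cbig / 100 := by
    apply div_le_div₀ _ hc (by norm_num) (t_ge D)
    linarith
  linarith

/-- `H_n` vanishes far away -/
theorem H_supp (n : ℕ) (O : St) (h : D.S.H n O ≠ 0) : ‖B.z O.2.2‖ ≤ 2 * D.Zt * n := by
  induction n generalizing O with
  | zero =>
    rw [H_zero_eq] at h
    have hO : Coin O := by
      by_contra hc
      rw [if_neg hc] at h
      exact h rfl
    rw [hO.2]
    simp
  | succ n ih =>
    rw [H_succ_eq] at h
    have h1 : ∃ O', IsChild D.S O O' ∧ D.S.H n O' ≠ 0 := by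
      by_contra hc
      push Not at hc
      apply h
      have h2 := op_congr_child D.S (F := D.S.H n) (G := fun _ => 0) O hc
      rw [h2, op_zero]
    obtain ⟨O', hO', hne⟩ := h1
    have h2 := ih O' hne
    have h3 := (child_bounds D O O' hO').1
    have h4 : ‖D.w * B.z O.2.2‖ = ‖B.z O.2.2‖ := by rw [norm_mul, norm_w, one_mul]
    have h5 : ‖D.w * B.z O.2.2‖ ≤ ‖B.z O'.2.2‖ + ‖B.z O'.2.2 - D.w * B.z O.2.2‖ := by
      have := norm_sub_le (B.z O'.2.2) (B.z O'.2.2 - D.w * B.z O.2.2)
      simpa using this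
    push_cast
    linarith

theorem I_mul_h (n : ℕ) (O : St) : B.I O * D.S.h n O = D.S.H n O := by
  unfold Level.h
  rcases eq_or_ne (B.I O) 0 with h0 | h0
  · have h1 := H_le_I D n O
    have h2 := H_nonneg D n O
    rw [h0] at h1 ⊢
    rw [zero_mul]
    linarith
  · field_simp

theorem h_nonneg (n : ℕ) (O : St) : 0 ≤ D.S.h n O := by
  exact div_nonneg (H_nonneg D n O) (I_nonneg B O)

theorem h_le_one (n : ℕ) (O : St) : D.S.h n O ≤ 1 := by
  exact div_le_one_of_le₀ (H_le_I D n O) (I_nonneg B O)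

theorem h_zero (O : St) : D.S.h 0 O = 0 ∨ D.S.h 0 O = 1 := by
  unfold Level.h
  rw [H_zero_eq]
  by_cases hO : Coin O
  · right
    rw [if_pos hO]
    obtain ⟨a, b, v⟩ := O
    obtain ⟨h1, h2⟩ := hO
    simp only at h1 h2
    subst h1 h2
    rw [I_coin]
    exact div_self (l_ev_pos B a).ne'
  · left
    rw [if_neg hO, zero_div]

/-- a child has probability weight at least `1/t` (the natural level has one branch of weight one) -/
theorem op_ind_ge (O O' : St) (h : D.S.op (ind O') O ≠ 0) : (D.t)⁻¹ ≤ D.S.op (ind O') O := by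
  obtain ⟨x, hx, y, hy, rfl⟩ := natLevel_ind_ne B D.N D.σ D.ab O O' h
  exact natLevel_ind_ge B D.N D.σ D.ab O hx hy

theorem isChild_iff (O O' : St) : IsChild D.S O O' ↔ D.S.op (ind O') O ≠ 0 := by
  constructor
  · intro h
    obtain ⟨x, hx, y, hy, rfl⟩ := isChild_elim D O O' h
    have h1 := natLevel_ind_ge B D.N D.σ D.ab O hx hy
    have h2 : 0 < (B.t0 ^ D.N)⁻¹ := inv_pos.2 (t_pos' D)
    exact ne_of_gt (lt_of_lt_of_le h2 h1)
  · intro h
    obtain ⟨x, hx, y, hy, h'⟩ := natLevel_ind_ne B D.N D.σ D.ab O O' h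
    exact isChild_intro D O O' x y hx hy h'

namespace CoinAux

/-- `l` is monotone along the prefixes of a word, with steps at least the length of the tile -/
theorem l_take_le (B : Base) (w : List Ltr) (i j : ℕ) (hij : i < j) (hj : j < w.length) :
    B.l (abv (w.take i)) + B.l (ev (w[i]'(hij.trans hj))) ≤ B.l (abv (w.take j)) := by
  have key : ∀ u : List Ltr, 0 ≤ B.l (abv u) := by
    intro u
    induction u with
    | nil => rw [abv_nil, map_zero]
    | cons a u ih =>
      rw [abv_cons, map_add]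
      linarith [l_ev_pos B a]
  have h1 : w.take j = w.take (i + 1) ++ (w.drop (i + 1)).take (j - (i + 1)) := by
    rw [← List.take_add]
    congr 1
    omega
  have h2 : w.take (i + 1) = w.take i ++ [w[i]'(hij.trans hj)] := by
    rw [List.take_succ_eq_append_getElem (hij.trans hj)]
  rw [h1, abv_append, map_add, h2, abv_append, map_add, abv_singleton]
  linarith [key ((w.drop (i + 1)).take (j - (i + 1)))]

end CoinAux

/-- overlapping children of a coincidence are coincidences -/
theorem child_coin (O O' : St) (hO : Coin O) (h : IsChild D.S O O') (hI : 0 < B.I O') : Coin O' := by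
  obtain ⟨x, hx, y, hy, rfl⟩ := isChild_elim D O O' h
  obtain ⟨a, b, v⟩ := O
  obtain ⟨h1, h2⟩ := hO
  simp only at h1 h2 hx hy
  subst h1 h2
  obtain ⟨i, hi, rfl⟩ := (mem_tiles _ _ _).1 hx
  obtain ⟨j, hj, rfl⟩ := (mem_tiles _ _ _).1 hy
  rw [I_pos_iff] at hI
  simp only [child, Matrix.mulVec_zero, zero_add, map_sub] at hI
  rcases lt_trichotomy i j with hij | hij | hij
  · have h3 := l_take_le B (D.σ a) i j hij hj
    linarith [hI.1]
  · subst hij
    exact ⟨rfl, by simp [child]⟩
  · have h3 := l_take_le B (D.σ a) j i hij hi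
    linarith [hI.2]

/-- the `c` coordinates of descendants are eventually bounded by `Cbig` -/
theorem exists_cbig (O : St) : ∃ j : ℕ, ∀ F G : St → ℝ, (∀ O', |B.c O'.2.2| ≤ D.Cbig → F O' = G O') →
    (D.S.op^[j] F) O = (D.S.op^[j] G) O := by
  obtain ⟨j, hj⟩ := exists_nat_ge (|B.c O.2.2|)
  refine ⟨j, fun F G hFG => ?_⟩
  apply iter_congr_inv D.S (fun i O' => |B.c O'.2.2| ≤ |B.c O.2.2| / 2 ^ i + 4 * D.Ct) _ j _ O
  · simp only [pow_zero, div_one]
    linarith [D.Ct_nonneg]
  · intro i O1 O2 h1 h2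
    have h3 := (child_bounds D O1 O2 h2).2
    have h4 : |B.c O1.2.2| / D.t ≤ |B.c O1.2.2| / 2 := by
      apply div_le_div_of_nonneg_left (abs_nonneg _) (by norm_num)
      linarith [t_ge D]
    have h5 : |B.c O.2.2| / 2 ^ (i + 1) = |B.c O.2.2| / 2 ^ i / 2 := by
      rw [pow_succ, div_div]
    rw [h5]
    linarith
  · intro O1 h1
    apply hFG
    have h2 : |B.c O.2.2| / 2 ^ j ≤ 1 := by
      rw [div_le_one (by positivity)]
      have h3 : (j : ℝ) ≤ 2 ^ j := by
        exact_mod_cast (Nat.lt_two_pow_self (n := j)).le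
      linarith
    have h3 := Cbig_ge' D
    have h4 := D.Ct_nonneg
    linarith

end Pool.Agent.RS69
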