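import Pool.Agent.RS69.Coin

/-!
# RS69.Tr1 : boxes, kernels, elementary properties of the pairing `Bf`

`box_finite`, `box_card` from `Base.iso` (the coordinates `v a` are bounded by `|l|, |z|, |c|`; for the count
choose a maximal subset of points whose `(⌊l⌋, ⌊Re z⌋, ⌊Im z⌋, ⌊c⌋)` differ, cf. `SRig.exists_C2`).
The kernel facts are in `SRig/Psd.lean` (`k0_nonneg`, `k0_le_one`, `k0_eq_zero`, `k0_ge_half`).
-/

set_option autoImplicit false

namespace Pool.Agent.RS69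

variable {B : Base}

/-- a bound of the coordinates by the functionals -/
private theorem exists_C1 (B : Base) : ∃ C1 : ℝ, 0 < C1 ∧ ∀ (v : Vec) (a : Fin 4),
    |(v a : ℝ)| ≤ C1 * (|B.l v| + ‖B.z v‖ + |B.c v|) := by
  refine ⟨∑ a, B.f a + |B.Ciso|, ?_, fun v a => ?_⟩
  · have : 0 < ∑ a, B.f a := Finset.sum_pos (fun a _ => B.f_pos a) ⟨0, Finset.mem_univ _⟩
    positivity
  · have h1 := B.iso v a
    have h2 : B.f a ≤ ∑ a, B.f a :=
      Finset.single_le_sum (fun a _ => (B.f_pos a).le) (Finset.mem_univ a)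
    have h3 : B.Ciso * (‖B.z v‖ + |B.c v|) ≤ |B.Ciso| * (‖B.z v‖ + |B.c v|) :=
      mul_le_mul_of_nonneg_right (le_abs_self _) (by positivity)
    have h4 : |B.l v * B.f a| ≤ |B.l v| * ∑ a, B.f a := by
      rw [abs_mul, abs_of_pos (B.f_pos a)]
      exact mul_le_mul_of_nonneg_left h2 (abs_nonneg _)
    have h5 : |(v a : ℝ)| ≤ |(v a : ℝ) - B.l v * B.f a| + |B.l v * B.f a| := by
      have := abs_add_le ((v a : ℝ) - B.l v * B.f a) (B.l v * B.f a)
      simpa using this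
    have h6 : 0 ≤ ∑ a, B.f a := Finset.sum_nonneg fun a _ => (B.f_pos a).le
    have h7 : 0 ≤ (∑ a, B.f a) * (‖B.z v‖ + |B.c v|) := by positivity
    have h8 : 0 ≤ |B.Ciso| * |B.l v| := by positivity
    nlinarith

/-- boxes of lattice vectors are finite -/
theorem box_finite (B : Base) (x y z : ℝ) :
    {v : Vec | |B.l v| ≤ x ∧ ‖B.z v‖ ≤ y ∧ |B.c v| ≤ z}.Finite := by
  obtain ⟨C1, hC1, h⟩ := exists_C1 B
  set D : ℤ := ⌈C1 * (x + y + z)⌉ with hD
  refine (Set.finite_Icc (fun _ => -D : Vec) (fun _ => D)).subset ?_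
  rintro v ⟨h1, h2, h3⟩
  have key : ∀ i, |v i| ≤ D := by
    intro i
    have h4 := h v i
    have h5 : C1 * (|B.l v| + ‖B.z v‖ + |B.c v|) ≤ C1 * (x + y + z) :=
      mul_le_mul_of_nonneg_left (by linarith) hC1.le
    have h6 : |(v i : ℝ)| ≤ (D : ℝ) := (h4.trans h5).trans (Int.le_ceil _)
    exact_mod_cast h6
  exact ⟨fun i => neg_le_of_abs_le (key i), fun i => le_of_abs_le (key i)⟩

private theorem card_floor_le {S : Finset ℤ} {a A : ℝ}
    (h : ∀ n ∈ S, ∃ t : ℝ, |t - a| ≤ A ∧ ⌊t⌋ = n) (hA : 0 ≤ A) : (S.card : ℝ) ≤ 2 * (A + 1) := by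
  have h1 : S ⊆ Finset.Icc ⌊a - A⌋ ⌊a + A⌋ := by
    intro n hn
    obtain ⟨t, ht, rfl⟩ := h n hn
    rw [abs_le] at ht
    exact Finset.mem_Icc.2 ⟨Int.floor_le_floor (by linarith), Int.floor_le_floor (by linarith)⟩
  have h2 := Finset.card_le_card h1
  rw [Int.card_Icc] at h2
  have h3 : ⌊a - A⌋ ≤ ⌊a + A⌋ := Int.floor_le_floor (by linarith)
  have h4 : (((⌊a + A⌋ + 1 - ⌊a - A⌋).toNat : ℕ) : ℝ) = (⌊a + A⌋ : ℝ) + 1 - ⌊a - A⌋ := by
    have : (((⌊a + A⌋ + 1 - ⌊a - A⌋).toNat : ℕ) : ℤ) = ⌊a + A⌋ + 1 - ⌊a - A⌋ :=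
      Int.toNat_of_nonneg (by omega)
    exact_mod_cast congrArg (fun z : ℤ => (z : ℝ)) this
  have h5 : (S.card : ℝ) ≤ ((⌊a + A⌋ + 1 - ⌊a - A⌋).toNat : ℝ) := by exact_mod_cast h2
  rw [h4] at h5
  have h6 := Int.floor_le (a + A)
  have h7 := Int.lt_floor_add_one (a - A)
  linarith

/-- counting (B4), upper bound -/
theorem box_card (B : Base) : ∃ C : ℝ, 0 < C ∧ ∀ (x y : ℝ) (s : ℂ) (a b c : ℝ), 0 ≤ a → 0 ≤ b → 0 ≤ c →
    ∀ F : Finset Vec, (∀ v ∈ F, |B.l v - x| ≤ a ∧ ‖B.z v - s‖ ≤ b ∧ |B.c v - y| ≤ c) →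
      (F.card : ℝ) ≤ C * (a + 1) * (b + 1) ^ 2 * (c + 1) := by
  classical
  obtain ⟨C1, hC1, h⟩ := exists_C1 B
  set D : ℤ := ⌈C1 * 4⌉ with hD
  have hD0 : 0 ≤ D := Int.ceil_nonneg (by linarith)
  set K : ℕ := (Finset.Icc (fun _ => -D : Vec) (fun _ => D)).card with hK
  have hK1 : 1 ≤ K := by
    rw [hK, Nat.one_le_iff_ne_zero, Finset.card_ne_zero]
    exact ⟨0, Finset.mem_Icc.2 ⟨fun _ => by simpa using hD0, fun _ => by simpa using hD0⟩⟩
  refine ⟨K * 16, by have : (1 : ℝ) ≤ K := by exact_mod_cast hK1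
                     linarith, fun x y s a b c ha hb hc S hmem => ?_⟩
  let F : Vec → ℤ × ℤ × ℤ × ℤ := fun v =>
    (⌊B.l v⌋, ⌊(B.z v).re⌋, ⌊(B.z v).im⌋, ⌊B.c v⌋)
  have h1 : S.card ≤ K * (S.image F).card := by
    refine Finset.card_le_mul_card_image S K fun a _ => ?_
    rcases Finset.eq_empty_or_nonempty (S.filter fun v => F v = a) with he | ⟨u, hu⟩
    · rw [he]; simp
    · rw [hK]
      refine Finset.card_le_card_of_injOn (fun v => v - u) ?_ ?_
      · intro v hv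
        have hv' := (Finset.mem_filter.1 hv).2
        have hu' := (Finset.mem_filter.1 hu).2
        have e : F v = F u := by rw [hv', hu']
        have e1 := Int.abs_sub_lt_one_of_floor_eq_floor (congrArg Prod.fst e)
        have e2 := Int.abs_sub_lt_one_of_floor_eq_floor (congrArg (fun p => p.2.1) e)
        have e3 := Int.abs_sub_lt_one_of_floor_eq_floor (congrArg (fun p => p.2.2.1) e)
        have e4 := Int.abs_sub_lt_one_of_floor_eq_floor (congrArg (fun p => p.2.2.2) e)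
        have e5 : ‖B.z v - B.z u‖ ≤ 2 := by
          refine (Complex.norm_le_abs_re_add_abs_im _).trans ?_
          rw [Complex.sub_re, Complex.sub_im]
          linarith
        have key : ∀ i, |(v - u) i| ≤ D := by
          intro i
          have h4 := h (v - u) i
          rw [map_sub, map_sub, map_sub] at h4
          have h5 : C1 * (|B.l v - B.l u| + ‖B.z v - B.z u‖ + |B.c v - B.c u|) ≤ C1 * 4 :=
            mul_le_mul_of_nonneg_left (by linarith) (by linarith)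
          have h6 : |(((v - u) i : ℤ) : ℝ)| ≤ (D : ℝ) := (h4.trans h5).trans (Int.le_ceil _)
          exact_mod_cast h6
        exact Finset.mem_coe.2 (Finset.mem_Icc.2
          ⟨fun i => neg_le_of_abs_le (key i), fun i => le_of_abs_le (key i)⟩)
      · intro v _ w _ hvw
        exact sub_left_injective hvw
  set I1 := (S.image F).image Prod.fst
  set I2 := (S.image F).image (fun p => p.2.1)
  set I3 := (S.image F).image (fun p => p.2.2.1)
  set I4 := (S.image F).image (fun p => p.2.2.2)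
  have h2 : S.image F ⊆ I1 ×ˢ I2 ×ˢ I3 ×ˢ I4 := by
    intro p hp
    simp only [Finset.mem_product]
    exact ⟨Finset.mem_image_of_mem _ hp, Finset.mem_image_of_mem _ hp,
      Finset.mem_image_of_mem _ hp, Finset.mem_image_of_mem _ hp⟩
  have h3 : (S.image F).card ≤ I1.card * (I2.card * (I3.card * I4.card)) := by
    refine (Finset.card_le_card h2).trans ?_
    rw [Finset.card_product, Finset.card_product, Finset.card_product]
  have c1 : (I1.card : ℝ) ≤ 2 * (a + 1) := by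
    refine card_floor_le (a := x) (fun n hn => ?_) ha
    obtain ⟨p, hp, rfl⟩ := Finset.mem_image.1 hn
    obtain ⟨v, hv, rfl⟩ := Finset.mem_image.1 hp
    exact ⟨_, (hmem v hv).1, rfl⟩
  have c2 : (I2.card : ℝ) ≤ 2 * (b + 1) := by
    refine card_floor_le (a := s.re) (fun n hn => ?_) hb
    obtain ⟨p, hp, rfl⟩ := Finset.mem_image.1 hn
    obtain ⟨v, hv, rfl⟩ := Finset.mem_image.1 hp
    refine ⟨_, ?_, rfl⟩
    have := Complex.abs_re_le_norm (B.z v - s)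
    rw [Complex.sub_re] at this
    exact this.trans (hmem v hv).2.1
  have c3 : (I3.card : ℝ) ≤ 2 * (b + 1) := by
    refine card_floor_le (a := s.im) (fun n hn => ?_) hb
    obtain ⟨p, hp, rfl⟩ := Finset.mem_image.1 hn
    obtain ⟨v, hv, rfl⟩ := Finset.mem_image.1 hp
    refine ⟨_, ?_, rfl⟩
    have := Complex.abs_im_le_norm (B.z v - s)
    rw [Complex.sub_im] at this
    exact this.trans (hmem v hv).2.1
  have c4 : (I4.card : ℝ) ≤ 2 * (c + 1) := by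
    refine card_floor_le (a := y) (fun n hn => ?_) hc
    obtain ⟨p, hp, rfl⟩ := Finset.mem_image.1 hn
    obtain ⟨v, hv, rfl⟩ := Finset.mem_image.1 hp
    exact ⟨_, (hmem v hv).2.2, rfl⟩
  have h4 : (S.card : ℝ) ≤ K * (I1.card * (I2.card * (I3.card * I4.card))) := by
    have := h1.trans (Nat.mul_le_mul_left K h3)
    exact_mod_cast this
  refine h4.trans ?_
  have h5 : (I1.card : ℝ) * (I2.card * (I3.card * I4.card)) ≤
      2 * (a + 1) * (2 * (b + 1) * (2 * (b + 1) * (2 * (c + 1)))) := by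
    gcongr
  calc (K : ℝ) * (I1.card * (I2.card * (I3.card * I4.card)))
      ≤ K * (2 * (a + 1) * (2 * (b + 1) * (2 * (b + 1) * (2 * (c + 1))))) :=
        mul_le_mul_of_nonneg_left h5 (Nat.cast_nonneg _)
    _ = K * 16 * (a + 1) * (b + 1) ^ 2 * (c + 1) := by ring

theorem KD_nonneg {ζ D : ℝ} (hD : 0 ≤ D) (x : ℝ) : 0 ≤ KD ζ D x :=
  mul_nonneg hD (SRig.k0_nonneg _)

theorem KD_le {ζ D : ℝ} (hD : 0 ≤ D) (x : ℝ) : KD ζ D x ≤ D := by
  have := mul_le_mul_of_nonneg_left (SRig.k0_le_one (D * (ζ * x))) hD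
  rw [mul_one] at this
  exact this

theorem KD_eq_zero {ζ D x : ℝ} (h : 1 ≤ D * (ζ * |x|)) (hζ : 0 ≤ ζ) (hD : 0 ≤ D) : KD ζ D x = 0 := by
  have h1 : 1 ≤ |D * (ζ * x)| := by
    rw [abs_mul, abs_mul, abs_of_nonneg hD, abs_of_nonneg hζ]
    exact h
  show D * SRig.k0 (D * (ζ * x)) = 0
  rw [SRig.k0_eq_zero h1, mul_zero]

theorem KD_ge_half {ζ x : ℝ} (hζ : 0 ≤ ζ) (h : ζ * |x| ≤ 1 / 10) : 1 / 2 ≤ KD ζ 1 x := by
  have h1 : |1 * (ζ * x)| ≤ 1 / 10 := by
    rw [one_mul, abs_mul, abs_of_nonneg hζ]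
    exact h
  show 1 / 2 ≤ 1 * SRig.k0 (1 * (ζ * x))
  have h2 := SRig.k0_ge_half h1
  linarith

theorem KD_neg (ζ D x : ℝ) : KD ζ D (-x) = KD ζ D x := by
  show D * SRig.k0 (D * (ζ * -x)) = D * SRig.k0 (D * (ζ * x))
  rw [show D * (ζ * -x) = -(D * (ζ * x)) by ring, SRig.k0_neg]

theorem Jr_nonneg (r : ℝ) (s : ℂ) : 0 ≤ Jr r s := SRig.Jg_nonneg r s

private theorem kc_nn (B : Base) : 0 ≤ B.kc := by
  have h1 : 0 ≤ B.K0 := by
    unfold Base.K0
    have : 0 ≤ ∑ a, ‖B.z (ev a)‖ := Finset.sum_nonneg fun a _ => norm_nonneg _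
    have h2 := le_max_left (∑ a, ‖B.z (ev a)‖) (∑ a, |B.c (ev a)|)
    linarith
  have h2 := B.one_le_g
  unfold Base.kc
  linarith

private theorem g_kc_nonneg (B : Base) : 0 ≤ B.Cc := by
  have h := kc_nn B
  unfold Base.Cc
  linarith

theorem ζ0_pos (D : Design B) : 0 < D.ζ0 := by
  have h := g_kc_nonneg B
  have h1 := kc_nn B
  have h2 := D.Ct_nonneg
  unfold Design.ζ0 Design.Cν
  positivity

theorem ζ0_le_one (D : Design B) : D.ζ0 ≤ 1 := by
  have h := g_kc_nonneg B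
  have h1 := kc_nn B
  have h2 := D.Ct_nonneg
  unfold Design.ζ0 Design.Cν
  apply inv_le_one_of_one_le₀
  linarith

theorem Bdd_mono {R R' : ℝ} (h : R ≤ R') {F : St → ℝ} (hF : Bdd B R F) : Bdd B R' F :=
  fun O hO => ⟨(hF O hO).1.trans h, (hF O hO).2.trans h⟩

/-- A finite set of lattice vectors outside of which the summands of `Bf` vanish. -/
private theorem exists_box (B : Base) (ζ D R Cν : ℝ) (hζ : 0 < ζ) (hD : 0 < D) :
    ∃ S : Finset Vec, ∀ (V : Vec) (p q : ℝ), |p| ≤ Cν → |q| ≤ Cν →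
      KD ζ D (B.c V + p - q) ≠ 0 → |B.l V| ≤ R → ‖B.z V‖ ≤ R →
        V ∈ S ∧ |B.c V| ≤ 1 / (ζ * D) + 2 * Cν := by
  classical
  refine ⟨(box_finite B R R (1 / (ζ * D) + 2 * Cν)).toFinset, fun V p q hp hq hK hl hz => ?_⟩
  have hc : |B.c V| ≤ 1 / (ζ * D) + 2 * Cν := by
    by_contra hcon
    apply hK
    refine KD_eq_zero ?_ hζ.le hD.le
    have h1 : |B.c V| ≤ |B.c V + p - q| + |p| + |q| := by
      have h2 : B.c V = (B.c V + p - q) - p + q := by ring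
      calc |B.c V| = |(B.c V + p - q) - p + q| := by rw [← h2]
        _ ≤ |(B.c V + p - q) - p| + |q| := abs_add_le _ _
        _ ≤ |B.c V + p - q| + |p| + |q| := by
            have := abs_sub (B.c V + p - q) p
            linarith
    have h3 : 1 / (ζ * D) ≤ |B.c V + p - q| := by
      push Not at hcon
      linarith
    have h4 : 0 < ζ * D := mul_pos hζ hD
    rw [div_le_iff₀ h4] at h3
    calc 1 ≤ |B.c V + p - q| * (ζ * D) := h3
      _ = D * (ζ * |B.c V + p - q|) := by ring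
  refine ⟨?_, hc⟩
  rw [Set.Finite.mem_toFinset]
  exact ⟨hl, hz, hc⟩

private theorem exists_pos_bound (ν : Arr) : ∃ C : ℝ, ∀ i, |ν.pos i| ≤ C := by
  refine ⟨∑ i, |ν.pos i|, fun i => ?_⟩
  exact Finset.single_le_sum (f := fun i => |ν.pos i|) (fun i _ => abs_nonneg _) (Finset.mem_univ i)

/-- the common finite set of lattice vectors -/
private theorem exists_S (B : Base) {ζ D : ℝ} (R : ℝ) (hζ : 0 < ζ) (hD : 0 < D) (J : ℂ → ℝ) (ν : Arr) :
    ∃ S : Finset Vec, ∀ F : St → ℝ, Bdd B R F → ∀ i j : ν.ι, ∀ V ∉ S,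
      KD ζ D (B.c V + ν.pos i - ν.pos j) * J (B.z V + ν.zp i - ν.zp j) *
      F (ν.lt i, ν.lt j, V) = 0 := by
  obtain ⟨C, hC⟩ := exists_pos_bound ν
  obtain ⟨S, hS⟩ := exists_box B ζ D R C hζ hD
  refine ⟨S, fun F hF i j V hV => ?_⟩
  by_contra hcon
  have h1 : KD ζ D (B.c V + ν.pos i - ν.pos j) ≠ 0 := by
    intro h
    apply hcon
    rw [h, zero_mul, zero_mul]
  have h2 : F (ν.lt i, ν.lt j, V) ≠ 0 := by
    intro h
    apply hcon
    rw [h, mul_zero]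
  obtain ⟨hl, hz⟩ := hF _ h2
  exact hV (hS V _ _ (hC i) (hC j) h1 hl hz).1

/-- the summands of `Bf` have finite support -/
theorem Bf_support_finite (B : Base) {ζ D R : ℝ} (hζ : 0 < ζ) (hD : 0 < D) (J : ℂ → ℝ) (ν : Arr) {F : St → ℝ}
    (hF : Bdd B R F) (i j : ν.ι) :
    (Function.support (fun V : Vec => KD ζ D (B.c V + ν.pos i - ν.pos j) * J (B.z V + ν.zp i - ν.zp j) *
      F (ν.lt i, ν.lt j, V))).Finite := by
  obtain ⟨S, hS⟩ := exists_S B R hζ hD J ν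
  refine S.finite_toSet.subset fun V hV => ?_
  by_contra hcon
  exact hV (hS F hF i j V (by simpa using hcon))

theorem Bf_summable (B : Base) {ζ D R : ℝ} (hζ : 0 < ζ) (hD : 0 < D) (J : ℂ → ℝ) (ν : Arr) {F : St → ℝ}
    (hF : Bdd B R F) (i j : ν.ι) :
    Summable (fun V : Vec => KD ζ D (B.c V + ν.pos i - ν.pos j) * J (B.z V + ν.zp i - ν.zp j) *
      F (ν.lt i, ν.lt j, V)) :=
  summable_of_hasFiniteSupport (Bf_support_finite B hζ hD J ν hF i j)

/-- A finite set of lattice vectors which computes `Bf` for all `F` with the same support bound. -/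
theorem Bf_rep (B : Base) {ζ D R : ℝ} (hζ : 0 < ζ) (hD : 0 < D) (J : ℂ → ℝ) (ν : Arr) :
    ∃ S : Finset Vec, ∀ F : St → ℝ, Bdd B R F → Bf B ζ D J ν F =
      ∑ i, ∑ j, ν.w i * ν.w j * ∑ V ∈ S, KD ζ D (B.c V + ν.pos i - ν.pos j) *
        J (B.z V + ν.zp i - ν.zp j) * F (ν.lt i, ν.lt j, V) := by
  obtain ⟨S, hS⟩ := exists_S B R hζ hD J ν
  refine ⟨S, fun F hF => ?_⟩
  unfold Bf
  refine Finset.sum_congr rfl fun i _ => Finset.sum_congr rfl fun j _ => ?_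
  rw [tsum_eq_sum fun V hV => hS F hF i j V hV]

theorem Bf_nonneg (B : Base) {ζ D : ℝ} (hD : 0 ≤ D) {J : ℂ → ℝ} (hJ : ∀ s, 0 ≤ J s) (ν : Arr)
    {F : St → ℝ} (hF : ∀ O, 0 ≤ F O) : 0 ≤ Bf B ζ D J ν F := by
  unfold Bf
  refine Finset.sum_nonneg fun i _ => Finset.sum_nonneg fun j _ => ?_
  exact mul_nonneg (mul_nonneg (ν.w_nonneg i) (ν.w_nonneg j))
    (tsum_nonneg fun V => mul_nonneg (mul_nonneg (KD_nonneg hD _) (hJ _)) (hF _))

theorem Bf_add (B : Base) {ζ D R : ℝ} (hζ : 0 < ζ) (hD : 0 < D) (J : ℂ → ℝ) (ν : Arr) {F G : St → ℝ}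
    (hF : Bdd B R F) (hG : Bdd B R G) :
    Bf B ζ D J ν (fun O => F O + G O) = Bf B ζ D J ν F + Bf B ζ D J ν G := by
  unfold Bf
  rw [← Finset.sum_add_distrib]
  refine Finset.sum_congr rfl fun i _ => ?_
  rw [← Finset.sum_add_distrib]
  refine Finset.sum_congr rfl fun j _ => ?_
  rw [← mul_add, ← (Bf_summable B hζ hD J ν hF i j).tsum_add (Bf_summable B hζ hD J ν hG i j)]
  congr 1
  exact tsum_congr fun V => by ring

theorem Bf_sub (B : Base) {ζ D R : ℝ} (hζ : 0 < ζ) (hD : 0 < D) (J : ℂ → ℝ) (ν : Arr) {F G : St → ℝ}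
    (hF : Bdd B R F) (hG : Bdd B R G) :
    Bf B ζ D J ν (fun O => F O - G O) = Bf B ζ D J ν F - Bf B ζ D J ν G := by
  unfold Bf
  rw [← Finset.sum_sub_distrib]
  refine Finset.sum_congr rfl fun i _ => ?_
  rw [← Finset.sum_sub_distrib]
  refine Finset.sum_congr rfl fun j _ => ?_
  rw [← mul_sub, ← (Bf_summable B hζ hD J ν hF i j).tsum_sub (Bf_summable B hζ hD J ν hG i j)]
  congr 1
  exact tsum_congr fun V => by ring

theorem Bf_smul (B : Base) (ζ D r : ℝ) (J : ℂ → ℝ) (ν : Arr) (F : St → ℝ) :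
    Bf B ζ D J ν (fun O => r * F O) = r * Bf B ζ D J ν F := by
  unfold Bf
  rw [Finset.mul_sum]
  refine Finset.sum_congr rfl fun i _ => ?_
  rw [Finset.mul_sum]
  refine Finset.sum_congr rfl fun j _ => ?_
  have h : ∑' V : Vec, KD ζ D (B.c V + ν.pos i - ν.pos j) * J (B.z V + ν.zp i - ν.zp j) *
      (r * F (ν.lt i, ν.lt j, V)) = r * ∑' V : Vec, KD ζ D (B.c V + ν.pos i - ν.pos j) *
        J (B.z V + ν.zp i - ν.zp j) * F (ν.lt i, ν.lt j, V) := by
    rw [← tsum_mul_left]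
    exact tsum_congr fun V => by ring
  rw [h]
  ring

/-- monotonicity; only states with `|c| ≤ 1/(ζ D) + 2 Cν` matter -/
theorem Bf_mono (B : Base) {ζ D R Cν : ℝ} (hζ : 0 < ζ) (hD : 0 < D) {J : ℂ → ℝ} (hJ : ∀ s, 0 ≤ J s)
    {ν : Arr} (hν : ∀ i, |ν.pos i| ≤ Cν) {F G : St → ℝ} (hF : Bdd B R F) (hG : Bdd B R G)
    (h : ∀ O, |B.c O.2.2| ≤ 1 / (ζ * D) + 2 * Cν → F O ≤ G O) :
    Bf B ζ D J ν F ≤ Bf B ζ D J ν G := by
  obtain ⟨S, hS⟩ := exists_box B ζ D R Cν hζ hD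
  unfold Bf
  refine Finset.sum_le_sum fun i _ => Finset.sum_le_sum fun j _ => ?_
  refine mul_le_mul_of_nonneg_left ?_ (mul_nonneg (ν.w_nonneg i) (ν.w_nonneg j))
  refine (Bf_summable B hζ hD J ν hF i j).tsum_le_tsum (fun V => ?_) (Bf_summable B hζ hD J ν hG i j)
  by_cases hK : KD ζ D (B.c V + ν.pos i - ν.pos j) = 0
  · rw [hK, zero_mul, zero_mul, zero_mul]
  · refine mul_le_mul_of_nonneg_left ?_ (mul_nonneg (KD_nonneg hD.le _) (hJ _))
    by_cases h0 : F (ν.lt i, ν.lt j, V) = 0 ∧ G (ν.lt i, ν.lt j, V) = 0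
    · rw [h0.1, h0.2]
    · apply h
      have hb : |B.l V| ≤ R ∧ ‖B.z V‖ ≤ R := by
        by_cases hF0 : F (ν.lt i, ν.lt j, V) = 0
        · exact hG _ (fun hG0 => h0 ⟨hF0, hG0⟩)
        · exact hF _ hF0
      exact (hS V _ _ (hν i) (hν j) hK hb.1 hb.2).2

private theorem tiles_bound (B : Base) (w : List Ltr) : ∃ C : ℝ, 0 ≤ C ∧ ∀ x ∈ tiles w 0,
    |B.l x.2| ≤ C ∧ ‖B.z x.2‖ ≤ C := by
  have key : ∀ L : List (Ltr × Vec), ∃ C : ℝ, 0 ≤ C ∧ ∀ x ∈ L, |B.l x.2| ≤ C ∧ ‖B.z x.2‖ ≤ C := by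
    intro L
    induction L with
    | nil => exact ⟨0, le_rfl, fun x hx => by simp at hx⟩
    | cons y L ih =>
      obtain ⟨C, hC, h⟩ := ih
      refine ⟨C + |B.l y.2| + ‖B.z y.2‖, by positivity, fun x hx => ?_⟩
      have h1 := abs_nonneg (B.l y.2)
      have h2 := norm_nonneg (B.z y.2)
      rcases List.mem_cons.1 hx with rfl | hx
      · exact ⟨by linarith, by linarith⟩
      · have := h x hx
        exact ⟨by linarith, by linarith⟩
  exact key _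

/-- `op` preserves boundedness of the support (the states with a child in a bounded box) -/
theorem Bdd_op (τ : Level B) {R : ℝ} {F : St → ℝ} (hF : Bdd B R F) : ∃ R', Bdd B R' (τ.op F) := by
  choose C hC0 hC using fun (p : τ.E × Ltr) => tiles_bound B (τ.sub p.1 p.2)
  set K : ℝ := ∑ p, C p with hK
  have hCK : ∀ p, C p ≤ K := fun p => Finset.single_le_sum (fun p _ => hC0 p) (Finset.mem_univ p)
  have hK0 : 0 ≤ K := Finset.sum_nonneg fun p _ => hC0 p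
  refine ⟨|R| + 2 * K, fun O hO => ?_⟩
  have hex : ∃ O', IsChild τ O O' ∧ F O' ≠ 0 := by
    by_contra hcon
    push Not at hcon
    apply hO
    have h1 := op_congr_child τ (F := F) (G := fun _ => 0) O fun O' h' => hcon O' h'
    rw [h1, op_zero]
  obtain ⟨O', ⟨η, η', x, hx, y, hy, rfl⟩, hne⟩ := hex
  obtain ⟨hl, hz⟩ := hF _ hne
  have hx1 := hC (η, O.1) x hx
  have hy1 := hC (η', O.2.1) y hy
  have hx2 := hCK (η, O.1)
  have hy2 := hCK (η', O.2.1)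
  have ht : 1 ≤ B.t0 ^ τ.k := one_le_pow₀ B.one_lt_t0.le
  have hR := le_abs_self R
  have hlM := l_Mpow B τ.k O.2.2
  have hzM := z_Mpow B τ.k O.2.2
  simp only [child, Level.M, map_sub, map_add] at hl hz
  rw [hlM] at hl
  rw [hzM] at hz
  constructor
  · have h1 : |B.l O.2.2| ≤ |B.t0 ^ τ.k * B.l O.2.2| := by
      rw [abs_mul, abs_of_nonneg (by linarith : (0 : ℝ) ≤ B.t0 ^ τ.k)]
      exact le_mul_of_one_le_left (abs_nonneg _) ht
    have h2 : |B.t0 ^ τ.k * B.l O.2.2| ≤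
        |B.t0 ^ τ.k * B.l O.2.2 + B.l y.2 - B.l x.2| + |B.l y.2| + |B.l x.2| := by
      have e : B.t0 ^ τ.k * B.l O.2.2 =
          (B.t0 ^ τ.k * B.l O.2.2 + B.l y.2 - B.l x.2) - B.l y.2 + B.l x.2 := by ring
      have h3 := abs_add_le ((B.t0 ^ τ.k * B.l O.2.2 + B.l y.2 - B.l x.2) - B.l y.2) (B.l x.2)
      have h4 := abs_sub (B.t0 ^ τ.k * B.l O.2.2 + B.l y.2 - B.l x.2) (B.l y.2)
      rw [← e] at h3
      linarith
    linarith [hx1.1, hy1.1]
  · have h1 : ‖B.w0 ^ τ.k * B.z O.2.2‖ = ‖B.z O.2.2‖ := by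
      rw [norm_mul, norm_pow, B.norm_w0, one_pow, one_mul]
    have h2 : ‖B.w0 ^ τ.k * B.z O.2.2‖ ≤
        ‖B.w0 ^ τ.k * B.z O.2.2 + B.z y.2 - B.z x.2‖ + ‖B.z y.2‖ + ‖B.z x.2‖ := by
      have e : B.w0 ^ τ.k * B.z O.2.2 =
          (B.w0 ^ τ.k * B.z O.2.2 + B.z y.2 - B.z x.2) - B.z y.2 + B.z x.2 := by ring
      have h3 := norm_add_le ((B.w0 ^ τ.k * B.z O.2.2 + B.z y.2 - B.z x.2) - B.z y.2) (B.z x.2)
      have h4 := norm_sub_le (B.w0 ^ τ.k * B.z O.2.2 + B.z y.2 - B.z x.2) (B.z y.2)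
      rw [← e] at h3
      linarith
    rw [h1] at h2
    linarith [hx1.2, hy1.2]

theorem Bdd_iter (τ : Level B) (j : ℕ) {R : ℝ} {F : St → ℝ} (hF : Bdd B R F) :
    ∃ R', Bdd B R' (τ.op^[j] F) := by
  induction j with
  | zero => exact ⟨R, hF⟩
  | succ j ih =>
    obtain ⟨R', h⟩ := ih
    rw [Function.iterate_succ_apply']
    exact Bdd_op τ h

end Pool.Agent.RS69
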