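import Pool.Agent.RS69.DPar1
import Pool.Agent.RS69.Tr1

/-!
# RS69.DExist2 : auxiliary vectors (section 9.2)

`exists_u`: pigeonhole for `flo B (n Λ0)`, `n = 0, 1, 2, ...` (the values of `(z, c)` stay in a bounded box, divide
it in cells of size `1/(2R)`; `Λ0` so large that `l` increases).  `u_large`: norm form:
`1 ≤ l(u) |c(u)| |z(u)|² ≤ l(u) R^{-3}`.
-/

set_option autoImplicit false

namespace Pool.Agent.RS69

/-- 9.2 pigeonhole -/
theorem exists_u (B : Base) (R : ℕ) (hR : 1 ≤ R) : ∃ u : Vec, ‖B.z u‖ * R ≤ 1 ∧ |B.c u| * R ≤ 1 ∧ 0 < B.l u := by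
  have hR1 : (1 : ℝ) ≤ R := by exact_mod_cast hR
  have hR0 : (0 : ℝ) < R := by linarith
  choose v hv1 hv2 hv3 using fun n : ℕ => B.cover (3 * n) 0 0
  let f : ℕ → ℤ × ℤ × ℤ := fun n =>
    (⌊(B.z (v n)).re * (2 * R)⌋, ⌊(B.z (v n)).im * (2 * R)⌋, ⌊B.c (v n) * (2 * R)⌋)
  obtain ⟨b, hb⟩ := exists_nat_gt (B.g * (2 * R) + 1)
  have hfl : ∀ x : ℝ, |x| ≤ B.g → ⌊x * (2 * R)⌋ ∈ Set.Icc (-(b : ℤ)) b := by
    intro x hx
    have h2 : |x * (2 * R)| ≤ B.g * (2 * R) := by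
      rw [abs_mul, abs_of_pos (by linarith : (0 : ℝ) < 2 * R)]
      exact mul_le_mul_of_nonneg_right hx (by linarith)
    have h3 := abs_le.1 h2
    constructor
    · rw [Int.le_floor]
      push_cast
      linarith
    · have h4 : ⌊x * (2 * R)⌋ ≤ x * (2 * R) := Int.floor_le _
      have h5 : (⌊x * (2 * R)⌋ : ℝ) ≤ (b : ℤ) := by
        push_cast
        linarith
      exact_mod_cast h5
  have hmaps : Set.MapsTo f Set.univ
      (Set.Icc (-(b : ℤ)) b ×ˢ (Set.Icc (-(b : ℤ)) b ×ˢ Set.Icc (-(b : ℤ)) b)) := by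
    intro n _
    have hz := hv2 n
    rw [sub_zero] at hz
    have hc := hv3 n
    rw [sub_zero] at hc
    exact ⟨hfl _ ((Complex.abs_re_le_norm _).trans hz),
      hfl _ ((Complex.abs_im_le_norm _).trans hz), hfl _ hc⟩
  have hfin : (Set.Icc (-(b : ℤ)) b ×ˢ (Set.Icc (-(b : ℤ)) b ×ˢ Set.Icc (-(b : ℤ)) b)).Finite :=
    (Set.finite_Icc _ _).prod ((Set.finite_Icc _ _).prod (Set.finite_Icc _ _))
  obtain ⟨p, -, q, -, hpq, hfpq⟩ :=
    Set.infinite_univ.exists_ne_map_eq_of_mapsTo hmaps hfin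
  -- order the two indices
  obtain ⟨n, m, hnm, hf⟩ : ∃ n m, n < m ∧ f n = f m := by
    rcases lt_or_gt_of_ne hpq with h | h
    · exact ⟨p, q, h, hfpq⟩
    · exact ⟨q, p, h, hfpq.symm⟩
  have hl : 2 ≤ B.l (v m - v n) := by
    rw [map_sub]
    have h1 := abs_le.1 (hv1 n)
    have h2 := abs_le.1 (hv1 m)
    have h3 : (n : ℝ) + 1 ≤ m := by exact_mod_cast hnm
    linarith
  have hcell : ∀ x y : ℝ, ⌊x * (2 * R)⌋ = ⌊y * (2 * R)⌋ → |y - x| ≤ 1 / (2 * R) := by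
    intro x y h
    have h1 := Int.abs_sub_lt_one_of_floor_eq_floor h
    rw [← sub_mul, abs_mul, abs_of_pos (by linarith : (0 : ℝ) < 2 * R)] at h1
    rw [abs_sub_comm, le_div_iff₀ (by linarith)]
    exact h1.le
  have hf1 : ⌊(B.z (v n)).re * (2 * R)⌋ = ⌊(B.z (v m)).re * (2 * R)⌋ :=
    congrArg Prod.fst hf
  have hf2 : ⌊(B.z (v n)).im * (2 * R)⌋ = ⌊(B.z (v m)).im * (2 * R)⌋ :=
    congrArg (fun q : ℤ × ℤ × ℤ => q.2.1) hf
  have hf3 : ⌊B.c (v n) * (2 * R)⌋ = ⌊B.c (v m) * (2 * R)⌋ :=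
    congrArg (fun q : ℤ × ℤ × ℤ => q.2.2) hf
  refine ⟨v m - v n, ?_, ?_, by linarith⟩
  · rw [← le_div_iff₀ hR0, map_sub]
    refine (Complex.norm_le_abs_re_add_abs_im _).trans ?_
    rw [Complex.sub_re, Complex.sub_im]
    have h1 := hcell _ _ hf1
    have h2 := hcell _ _ hf2
    have h3 : 1 / (2 * (R : ℝ)) + 1 / (2 * R) = 1 / R := by field_simp; norm_num
    linarith
  · rw [← le_div_iff₀ hR0, map_sub]
    refine (hcell _ _ hf3).trans ?_
    exact one_div_le_one_div_of_le hR0 (by linarith)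

/-- the norm form makes `l(u)` large -/
theorem u_large (B : Base) (R : ℕ) (hR : 1 ≤ R) (u : Vec) (h1 : ‖B.z u‖ * R ≤ 1) (h2 : |B.c u| * R ≤ 1)
    (h3 : 0 < B.l u) : (R : ℝ) ^ 3 ≤ B.l u := by
  have hR1 : (1 : ℝ) ≤ R := by exact_mod_cast hR
  have hR0 : (0 : ℝ) < R := by linarith
  have hne : u ≠ 0 := by
    rintro rfl
    rw [map_zero] at h3
    exact lt_irrefl _ h3
  have h4 := B.norm_form u hne
  rw [abs_of_pos h3] at h4
  have h5 : (‖B.z u‖ * R) ^ 2 ≤ 1 := pow_le_one₀ (by positivity) h1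
  have h6 : (|B.c u| * R) * (‖B.z u‖ * R) ^ 2 ≤ 1 :=
    mul_le_one₀ h2 (by positivity) h5
  calc (R : ℝ) ^ 3 = R ^ 3 * 1 := (mul_one _).symm
    _ ≤ R ^ 3 * (B.l u * |B.c u| * ‖B.z u‖ ^ 2) := mul_le_mul_of_nonneg_left h4 (by positivity)
    _ = B.l u * ((|B.c u| * R) * (‖B.z u‖ * R) ^ 2) := by ring
    _ ≤ B.l u * 1 := mul_le_mul_of_nonneg_left h6 h3.le
    _ = B.l u := mul_one _

theorem fsum_pos (B : Base) : 0 < B.fsum :=
  Finset.sum_pos (fun a _ => B.f_pos a) Finset.univ_nonempty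

/-- the smallest entry of `f` -/
noncomputable def fmin (B : Base) : ℝ := min (min (B.f 0) (B.f 1)) (min (B.f 2) (B.f 3))

theorem fmin_pos (B : Base) : 0 < fmin B :=
  lt_min (lt_min (B.f_pos 0) (B.f_pos 1)) (lt_min (B.f_pos 2) (B.f_pos 3))

theorem fmin_le (B : Base) (a : Ltr) : fmin B ≤ B.f a := by
  unfold fmin
  fin_cases a <;> simp

/-- vectors close to a large multiple of `f` are nonnegative with good frequencies -/
theorem near_f (B : Base) (C : ℝ) : ∃ l0 : ℝ, ∀ v : Vec, l0 ≤ B.l v → ‖B.z v‖ ≤ C → |B.c v| ≤ C →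
    (∀ a, 0 ≤ v a) ∧ ∀ b, B.kf * (∑ a, ((v a : ℤ) : ℝ)) ≤ (v b : ℤ) := by
  have hm := fmin_pos B
  have hs := fsum_pos B
  have hkf : B.kf = fmin B / (2 * B.fsum) := rfl
  have hkpos : 0 < B.kf := by rw [hkf]; positivity
  set D : ℝ := |B.Ciso| * (2 * |C|) with hD
  have hD0 : 0 ≤ D := by positivity
  refine ⟨2 * (D + 4 * D * B.kf) / fmin B, fun v hl hz hc => ?_⟩
  have h1 : ∀ a, |(v a : ℝ) - B.l v * B.f a| ≤ D := fun a => by
    refine (B.iso v a).trans ?_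
    rw [hD]
    refine mul_le_mul (le_abs_self _) ?_ (by positivity) (abs_nonneg _)
    have := le_abs_self C
    linarith
  rw [div_le_iff₀ hm] at hl
  have hl0 : 0 ≤ B.l v := by
    by_contra hcon
    push Not at hcon
    have h2 : B.l v * fmin B < 0 := mul_neg_of_neg_of_pos hcon hm
    have h3 : 0 ≤ 2 * (D + 4 * D * B.kf) := by positivity
    linarith
  have h2 : ∀ a, D + 4 * D * B.kf + B.l v * fmin B / 2 ≤ B.l v * B.f a := fun a => by
    have h3 : B.l v * fmin B ≤ B.l v * B.f a := mul_le_mul_of_nonneg_left (fmin_le B a) hl0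
    linarith
  have h4 : 0 ≤ 4 * D * B.kf := by positivity
  have h5 : 0 ≤ B.l v * fmin B / 2 := by positivity
  constructor
  · intro a
    have h6 := (abs_le.1 (h1 a)).1
    have h7 := h2 a
    have h8 : (0 : ℝ) ≤ v a := by linarith
    exact_mod_cast h8
  · intro b
    have h6 : ∑ a, ((v a : ℤ) : ℝ) ≤ B.l v * B.fsum + 4 * D := by
      calc ∑ a, ((v a : ℤ) : ℝ) ≤ ∑ a, (B.l v * B.f a + D) :=
            Finset.sum_le_sum fun a _ => by
              have := (abs_le.1 (h1 a)).2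
              linarith
        _ = B.l v * B.fsum + 4 * D := by
            rw [Finset.sum_add_distrib, ← Finset.mul_sum]
            simp [Base.fsum]
    have h7 : B.kf * (B.l v * B.fsum + 4 * D) = B.l v * fmin B / 2 + 4 * D * B.kf := by
      rw [hkf]
      field_simp
    have h8 := (abs_le.1 (h1 b)).1
    have h9 := h2 b
    calc B.kf * (∑ a, ((v a : ℤ) : ℝ)) ≤ B.kf * (B.l v * B.fsum + 4 * D) :=
          mul_le_mul_of_nonneg_left h6 hkpos.le
      _ = B.l v * fmin B / 2 + 4 * D * B.kf := h7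
      _ ≤ (v b : ℤ) := by linarith

theorem Dset_finite (B : Base) : B.Dset.Finite :=
  box_finite B B.Cl B.ZD B.CD

theorem zero_mem_Dset (B : Base) : (0 : Vec) ∈ B.Dset := by
  obtain ⟨h1, -, -, -, h5, h6⟩ := Par.K_pos B
  have hg := B.one_le_g
  have h7 : 0 ≤ B.K7 := by unfold Base.K7; linarith
  have h8 : 0 ≤ B.Z3 := by unfold Base.Z3; linarith
  refine ⟨?_, ?_, ?_⟩
  · rw [map_zero, abs_zero]; linarith
  · rw [map_zero, norm_zero]; unfold Base.ZD; linarith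
  · rw [map_zero, abs_zero]; unfold Base.CD; linarith

theorem exists_G (B : Base) : ∃ G : Vec, ‖B.z G‖ ≤ B.K0 ∧ |B.c G| ≤ B.K0 ∧
    ∀ ρ ∈ B.Dset, ∀ a, 0 ≤ G a + ρ a ∧ 0 ≤ G a - ρ a := by
  have hm := fmin_pos B
  -- a bound for all entries
  obtain ⟨n, hn⟩ : ∃ n : ℕ, ∀ ρ ∈ B.Dset, ∀ a, |ρ a| ≤ n := by
    refine ⟨∑ ρ ∈ (Dset_finite B).toFinset, ∑ a, (ρ a).natAbs, fun ρ hρ a => ?_⟩
    have h1 : (ρ a).natAbs ≤ ∑ a, (ρ a).natAbs :=
      Finset.single_le_sum (f := fun a => (ρ a).natAbs) (fun _ _ => Nat.zero_le _) (Finset.mem_univ a)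
    have h2 : ∑ a, (ρ a).natAbs ≤ ∑ ρ ∈ (Dset_finite B).toFinset, ∑ a, (ρ a).natAbs :=
      Finset.single_le_sum (f := fun ρ : Vec => ∑ a, (ρ a).natAbs) (fun _ _ => Nat.zero_le _)
        ((Dset_finite B).mem_toFinset.2 hρ)
    have h3 : |ρ a| = ((ρ a).natAbs : ℤ) := (Int.natCast_natAbs _).symm
    rw [h3]
    exact_mod_cast h1.trans h2
  refine ⟨flo B (n / fmin B), flo_z B _, flo_c B _, fun ρ hρ a => ?_⟩
  have h1 : (n : ℤ) ≤ flo B (n / fmin B) a := by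
    unfold flo
    rw [Int.le_floor]
    push_cast
    rw [div_mul_eq_mul_div, le_div_iff₀ hm]
    exact mul_le_mul_of_nonneg_left (fmin_le B a) (Nat.cast_nonneg n)
  have h2 := abs_le.1 (hn ρ hρ a)
  constructor <;> linarith [h2.1, h2.2]

end Pool.Agent.RS69
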