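import Pool.Agent.RS69.DExist1
import Pool.Agent.RS69.DExist2

/-!
# RS69.DExist3 : existence of parameters (sections 9.2, 9.3)

Fix `G, Kmk` first; then `R` large; `u` from `exists_u (R+2)`; `N` maximal with `t0^N lmax ≤ (R+1) l(u)`, so
`l(u)/t0^N < t0 lmax/(R+1)` and `t0^N ≥ R^4/C`; `Ra a = ⌊t0^N l_a / l(u)⌋ - 1`; `X` from `exists_code` with
`d = |Dset|`, `n = 4 (R+2)`, `T2 = (log₂ n)^2`.
-/

set_option autoImplicit false

namespace Pool.Agent.RS69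

open Filter

/-- constants are small -/
theorem ev_const (C : ℝ) : ∀ᶠ R : ℕ in atTop, C ≤ (R : ℝ) + 1 := by
  refine eventually_atTop.2 ⟨⌈C⌉₊, fun R hR => ?_⟩
  have h1 : C ≤ (⌈C⌉₊ : ℝ) := Nat.le_ceil C
  have h2 : ((⌈C⌉₊ : ℕ) : ℝ) ≤ R := by exact_mod_cast hR
  linarith

/-- powers of logarithms are small -/
theorem ev_log (C : ℝ) (k : ℕ) : ∀ᶠ R : ℕ in atTop,
    C * ((Nat.log 2 (4 * (R + 2)) : ℕ) : ℝ) ^ k ≤ (R : ℝ) + 1 := by
  have hlog2 : 0 < Real.log 2 := Real.log_pos (by norm_num)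
  have h1 := (Real.isLittleO_pow_log_id_atTop (n := k)).def
    (show 0 < (Real.log 2) ^ k / (12 * (|C| + 1)) by positivity)
  have h2 : Tendsto (fun R : ℕ => (4 * ((R : ℝ) + 2))) atTop atTop := by
    refine Tendsto.const_mul_atTop (by norm_num) ?_
    exact tendsto_atTop_add_const_right _ _ tendsto_natCast_atTop_atTop
  filter_upwards [h2.eventually h1] with R hR
  have h3 : ((Nat.log 2 (4 * (R + 2)) : ℕ) : ℝ) ≤ Real.log (4 * ((R : ℝ) + 2)) / Real.log 2 := by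
    have := Real.natLog_le_logb (4 * (R + 2)) 2
    rw [Real.logb] at this
    push_cast at this
    exact this
  have h4 : (1 : ℝ) ≤ 4 * ((R : ℝ) + 2) := by
    have : (0 : ℝ) ≤ R := Nat.cast_nonneg R
    linarith
  have h5 : 0 ≤ Real.log (4 * ((R : ℝ) + 2)) := Real.log_nonneg h4
  rw [Real.norm_of_nonneg (pow_nonneg h5 k), id, Real.norm_of_nonneg (by linarith)] at hR
  have h6 : ((Nat.log 2 (4 * (R + 2)) : ℕ) : ℝ) ^ k ≤
      (Real.log (4 * ((R : ℝ) + 2)) / Real.log 2) ^ k :=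
    pow_le_pow_left₀ (Nat.cast_nonneg _) h3 k
  have h7 : (Real.log (4 * ((R : ℝ) + 2)) / Real.log 2) ^ k ≤
      4 * ((R : ℝ) + 2) / (12 * (|C| + 1)) := by
    rw [div_pow, div_le_iff₀ (by positivity)]
    refine hR.trans (le_of_eq ?_)
    ring
  have h8 : (0 : ℝ) ≤ R := Nat.cast_nonneg R
  calc C * ((Nat.log 2 (4 * (R + 2)) : ℕ) : ℝ) ^ k
      ≤ (|C| + 1) * ((Nat.log 2 (4 * (R + 2)) : ℕ) : ℝ) ^ k :=
        mul_le_mul_of_nonneg_right (by linarith [le_abs_self C]) (by positivity)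
    _ ≤ (|C| + 1) * (4 * ((R : ℝ) + 2) / (12 * (|C| + 1))) :=
        mul_le_mul_of_nonneg_left (h6.trans h7) (by positivity)
    _ = 4 * ((R : ℝ) + 2) / 12 := by
        field_simp
    _ ≤ R + 1 := by linarith

theorem norm_z_ev_le (B : Base) (a : Ltr) : ‖B.z (ev a)‖ ≤ B.K0 := by
  have h1 : ‖B.z (ev a)‖ ≤ ∑ a, ‖B.z (ev a)‖ :=
    Finset.single_le_sum (f := fun a => ‖B.z (ev a)‖) (fun _ _ => norm_nonneg _) (Finset.mem_univ a)
  have h2 := le_max_left (∑ a, ‖B.z (ev a)‖) (∑ a, |B.c (ev a)|)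
  have h3 := norm_nonneg (B.z (ev a))
  unfold Base.K0
  linarith

theorem abs_c_ev_le (B : Base) (a : Ltr) : |B.c (ev a)| ≤ B.K0 := by
  have h1 : |B.c (ev a)| ≤ ∑ a, |B.c (ev a)| :=
    Finset.single_le_sum (f := fun a => |B.c (ev a)|) (fun _ _ => abs_nonneg _) (Finset.mem_univ a)
  have h2 := le_max_right (∑ a, ‖B.z (ev a)‖) (∑ a, |B.c (ev a)|)
  have h3 := abs_nonneg (B.c (ev a))
  unfold Base.K0
  linarith

/-- neutral and contracting coordinates of the rest vectors -/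
theorem rest_bound (B : Base) (N K r R : ℕ) (u : Vec) (a : Ltr) (hr : r ≤ R)
    (hz : ‖B.z u‖ * (R + 2) ≤ 1) (hc : |B.c u| * (R + 2) ≤ 1) :
    ‖B.z ((B.P ^ N).mulVec (ev a) - (K : ℤ) • ev 0 - ev 2 - (K : ℤ) • ev 1 - (r : ℤ) • u)‖ ≤
        (2 * K + 2) * B.K0 + 1 ∧
      |B.c ((B.P ^ N).mulVec (ev a) - (K : ℤ) • ev 0 - ev 2 - (K : ℤ) • ev 1 - (r : ℤ) • u)| ≤
        (2 * K + 2) * B.K0 + 1 := by
  have hrR : (r : ℝ) ≤ R + 2 := by
    have : (r : ℝ) ≤ R := by exact_mod_cast hr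
    linarith
  have hK : (0 : ℝ) ≤ K := Nat.cast_nonneg K
  constructor
  · rw [map_sub, map_sub, map_sub, map_sub, map_zsmul, map_zsmul, map_zsmul, z_Mpow, zsmul_eq_mul,
      zsmul_eq_mul, zsmul_eq_mul, Int.cast_natCast, Int.cast_natCast]
    have h1 : ‖B.w0 ^ N * B.z (ev a)‖ ≤ B.K0 := by
      rw [norm_mul, norm_pow, B.norm_w0, one_pow, one_mul]
      exact norm_z_ev_le B a
    have h2 : ∀ b, ‖(K : ℂ) * B.z (ev b)‖ ≤ K * B.K0 := fun b => by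
      rw [norm_mul, Complex.norm_natCast]
      exact mul_le_mul_of_nonneg_left (norm_z_ev_le B b) hK
    have h3 : ‖(r : ℂ) * B.z u‖ ≤ 1 := by
      rw [norm_mul, Complex.norm_natCast, mul_comm]
      exact (mul_le_mul_of_nonneg_left hrR (norm_nonneg _)).trans hz
    have h4 := norm_sub_le (B.w0 ^ N * B.z (ev a) - K * B.z (ev 0) - B.z (ev 2) - K * B.z (ev 1))
      ((r : ℂ) * B.z u)
    have h5 := norm_sub_le (B.w0 ^ N * B.z (ev a) - K * B.z (ev 0) - B.z (ev 2)) (K * B.z (ev 1))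
    have h6 := norm_sub_le (B.w0 ^ N * B.z (ev a) - K * B.z (ev 0)) (B.z (ev 2))
    have h7 := norm_sub_le (B.w0 ^ N * B.z (ev a)) (K * B.z (ev 0))
    have h8 := h2 0
    have h9 := h2 1
    have h10 := norm_z_ev_le B 2
    linarith
  · rw [map_sub, map_sub, map_sub, map_sub, map_zsmul, map_zsmul, map_zsmul, c_Mpow, zsmul_eq_mul,
      zsmul_eq_mul, zsmul_eq_mul, Int.cast_natCast, Int.cast_natCast]
    have h1 : |(B.t0 ^ N)⁻¹ * B.c (ev a)| ≤ B.K0 := by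
      have h11 : 1 ≤ B.t0 ^ N := one_le_pow₀ B.one_lt_t0.le
      have h12 : |(B.t0 ^ N)⁻¹| ≤ 1 := by
        rw [abs_of_nonneg (by positivity)]
        exact inv_le_one_of_one_le₀ h11
      rw [abs_mul]
      exact (mul_le_of_le_one_left (abs_nonneg _) h12).trans (abs_c_ev_le B a)
    have h2 : ∀ b, |(K : ℝ) * B.c (ev b)| ≤ K * B.K0 := fun b => by
      rw [abs_mul, abs_of_nonneg hK]
      exact mul_le_mul_of_nonneg_left (abs_c_ev_le B b) hK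
    have h3 : |(r : ℝ) * B.c u| ≤ 1 := by
      rw [abs_mul, abs_of_nonneg (Nat.cast_nonneg r), mul_comm]
      exact (mul_le_mul_of_nonneg_left hrR (abs_nonneg _)).trans hc
    have h4 := abs_sub (( B.t0 ^ N)⁻¹ * B.c (ev a) - K * B.c (ev 0) - B.c (ev 2) - K * B.c (ev 1))
      ((r : ℝ) * B.c u)
    have h5 := abs_sub ((B.t0 ^ N)⁻¹ * B.c (ev a) - K * B.c (ev 0) - B.c (ev 2)) (K * B.c (ev 1))
    have h6 := abs_sub ((B.t0 ^ N)⁻¹ * B.c (ev a) - K * B.c (ev 0)) (B.c (ev 2))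
    have h7 := abs_sub ((B.t0 ^ N)⁻¹ * B.c (ev a)) (K * B.c (ev 0))
    have h8 := h2 0
    have h9 := h2 1
    have h10 := abs_c_ev_le B 2
    linarith

theorem exists_Kmk (B : Base) (G : Vec) : ∃ Kmk : ℕ, ∀ ρ ∈ B.Dset, ∀ ρ' ∈ B.Dset,
    (bal (G - ρ)).length + (bal (G + ρ')).length + 2 * B.g0 + 2 ≤ Kmk := by
  have hfin := Dset_finite B
  refine ⟨∑ ρ ∈ hfin.toFinset, (bal (G - ρ)).length + ∑ ρ ∈ hfin.toFinset, (bal (G + ρ)).length +
    2 * B.g0 + 2, fun ρ hρ ρ' hρ' => ?_⟩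
  have h1 := Finset.single_le_sum (f := fun ρ : Vec => (bal (G - ρ)).length)
    (fun _ _ => Nat.zero_le _) (hfin.mem_toFinset.2 hρ)
  have h2 := Finset.single_le_sum (f := fun ρ : Vec => (bal (G + ρ)).length)
    (fun _ _ => Nat.zero_le _) (hfin.mem_toFinset.2 hρ')
  omega

/-- coded sequences with values in `Dset` -/
theorem exists_X (B : Base) : ∃ n0 : ℕ, ∀ n, n0 ≤ n → ∃ X : ℕ → Vec, (∀ s, X s ∈ B.Dset) ∧
    ∀ ρ ∈ B.Dset, ∀ K : ℤ, K ≠ 0 → ∀ s1 : ℕ, s1 + (Nat.log 2 n) ^ 2 ≤ n → 0 ≤ (s1 : ℤ) + K →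
    (s1 : ℤ) + (Nat.log 2 n) ^ 2 + K ≤ n →
      ∃ s : ℕ, s1 ≤ s ∧ s < s1 + (Nat.log 2 n) ^ 2 ∧ X s = 0 ∧ X ((s : ℤ) + K).toNat = ρ := by
  have hfin := Dset_finite B
  set S := hfin.toFinset with hS
  have h0 : (0 : Vec) ∈ S := hfin.mem_toFinset.2 (zero_mem_Dset B)
  obtain ⟨n0, hn0⟩ := exists_code S.card (Finset.card_pos.2 ⟨0, h0⟩)
  refine ⟨n0, fun n hn => ?_⟩
  obtain ⟨X, hX⟩ := hn0 n hn
  refine ⟨fun s => (S.equivFin.symm (X s) : Vec), fun s => ?_, fun ρ hρ K hK s1 h1 h2 h3 => ?_⟩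
  · exact hfin.mem_toFinset.1 (S.equivFin.symm (X s)).2
  · have hρ' : ρ ∈ S := hfin.mem_toFinset.2 hρ
    obtain ⟨s, h4, h5, h6, h7⟩ := hX (S.equivFin ⟨0, h0⟩) (S.equivFin ⟨ρ, hρ'⟩) K hK s1 h1 h2 h3
    refine ⟨s, h4, h5, ?_, ?_⟩
    · simp only [h6, Equiv.symm_apply_apply]
    · simp only [h7, Equiv.symm_apply_apply]

/-- existence of parameters -/
theorem exists_par (B : Base) : Nonempty (Par B) := by
  obtain ⟨hK0, -, hkf, hlmax, hCc, hCl⟩ := Par.K_pos B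
  obtain ⟨G, hGz, hGc, hG⟩ := exists_G B
  obtain ⟨Kmk, hKmk⟩ := exists_Kmk B G
  obtain ⟨n0, hn0⟩ := exists_X B
  obtain ⟨n1, hn1⟩ := B.P_prim
  obtain ⟨l0, hl0⟩ := near_f B ((2 * Kmk + 2) * B.K0 + 1)
  have ht1 := B.one_lt_t0
  set T : ℝ := B.t0 * B.lmax with hT
  have hT1 : 1 ≤ T := by rw [hT]; nlinarith
  have hTpos : 0 < T := by linarith
  have hla : ∀ a, 1 ≤ B.l (ev a) := B.l_ge
  have hlam : ∀ a, B.l (ev a) ≤ B.lmax := l_le_lmax B
  -- choice of `R`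
  obtain ⟨R, ha, hb, hc, hd, he, hf1, hf2, hg, hh, hi⟩ := ((eventually_ge_atTop n0).and
    ((ev_const (l0 + 2 * |B.l G| + Kmk * (B.l (ev 0) + B.l (ev 1)) + B.l (ev 2))).and
    ((ev_const (12 * B.l G + 6 * B.Cl + 100 * B.g0 * B.lmax + 100)).and
    ((ev_const T).and
    ((ev_const (B.t0 ^ (n1 + 1) * B.lmax)).and
    ((ev_const (T * 100)).and
    ((ev_const (T * B.CbK Kmk)).and
    ((ev_log (160 * T) 2).and
    ((ev_log (32 ^ 40 * T) 80).and
    (ev_const (16 * T * |B.CbK Kmk| * (B.Z3 + 1) ^ 2 + 1))))))))))).exists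
  have hRnn : (0 : ℝ) ≤ R := Nat.cast_nonneg R
  have hR1 : (0 : ℝ) < (R : ℝ) + 1 := by linarith
  -- the vector `u`
  obtain ⟨u, huz, huc, hul⟩ := exists_u B (R + 2) (by omega)
  have hu3 := u_large B (R + 2) (by omega) u huz huc hul
  push_cast at huz huc hu3
  have huR : (R : ℝ) + 2 ≤ B.l u := by
    refine le_trans ?_ hu3
    have h1 : (1 : ℝ) ≤ (R + 2) ^ 2 := by nlinarith
    nlinarith
  have hu1 : 1 ≤ B.l u := by linarith
  -- the exponent `N`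
  have hex : ∃ N : ℕ, ((R : ℝ) + 1) * B.l u < B.t0 ^ (N + 1) * B.lmax := by
    obtain ⟨N, hN⟩ := pow_unbounded_of_one_lt (((R : ℝ) + 1) * B.l u) ht1
    refine ⟨N, hN.trans_le ?_⟩
    have h1 : B.t0 ^ N ≤ B.t0 ^ (N + 1) := pow_le_pow_right₀ ht1.le (Nat.le_succ N)
    have h2 : 0 < B.t0 ^ (N + 1) := by positivity
    nlinarith
  classical
  set N := Nat.find hex with hN
  have hN1 : ((R : ℝ) + 1) * B.l u < B.t0 ^ (N + 1) * B.lmax := Nat.find_spec hex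
  have hN2 : B.t0 ^ N * B.lmax ≤ ((R : ℝ) + 1) * B.l u := by
    rcases Nat.eq_zero_or_pos N with h0 | h0
    · rw [h0, pow_zero, one_mul]
      have h1 : B.lmax ≤ T := by rw [hT]; nlinarith
      nlinarith
    · have h1 := Nat.find_min hex (show N - 1 < N by omega)
      rw [Nat.sub_add_cancel h0] at h1
      exact not_lt.1 h1
  have htN : 0 < B.t0 ^ N := by positivity
  have hN3 : ((R : ℝ) + 1) * B.l u < B.t0 ^ N * T := by
    refine hN1.trans_le (le_of_eq ?_)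
    rw [hT, pow_succ]
    ring
  have hNn : n1 + 1 ≤ N := by
    by_contra hcon
    push Not at hcon
    have h1 : B.t0 ^ (N + 1) ≤ B.t0 ^ (n1 + 1) := pow_le_pow_right₀ ht1.le (by omega)
    have h2 : B.t0 ^ (N + 1) * B.lmax ≤ B.t0 ^ (n1 + 1) * B.lmax :=
      mul_le_mul_of_nonneg_right h1 (by linarith)
    nlinarith
  -- consequences
  have hbig : ∀ x : ℝ, T * x ≤ (R : ℝ) + 1 → x ≤ B.t0 ^ N := fun x hx => by
    have h1 : T * x < T * B.t0 ^ N := by nlinarith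
    exact (lt_of_mul_lt_mul_left h1 hTpos.le).le
  have hlut : B.l u * ((R : ℝ) + 1) ≤ B.t0 ^ N * T := by linarith
  -- number of blocks
  have hx1 : ∀ a, 1 ≤ B.t0 ^ N * B.l (ev a) / B.l u := fun a => by
    rw [le_div_iff₀ hul, one_mul]
    have h1 : B.l u * T ≤ B.t0 ^ N * T := by nlinarith
    have h2 : B.l u ≤ B.t0 ^ N := le_of_mul_le_mul_right h1 hTpos
    have h3 := hla a
    nlinarith
  set Ra : Ltr → ℕ := fun a => ⌊B.t0 ^ N * B.l (ev a) / B.l u⌋₊ - 1 with hRa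
  have hfl1 : ∀ a, 1 ≤ ⌊B.t0 ^ N * B.l (ev a) / B.l u⌋₊ := fun a => by
    rw [Nat.one_le_floor_iff]
    exact hx1 a
  have hRaeq : ∀ a, ((Ra a : ℕ) : ℝ) = (⌊B.t0 ^ N * B.l (ev a) / B.l u⌋₊ : ℝ) - 1 := fun a => by
    rw [hRa]
    push_cast [Nat.cast_sub (hfl1 a)]
    ring
  have hRa1 : ∀ a, ((Ra a : ℝ) + 1) * B.l u ≤ B.t0 ^ N * B.l (ev a) := fun a => by
    rw [hRaeq a, sub_add_cancel, ← le_div_iff₀ hul]
    exact Nat.floor_le (by linarith [hx1 a])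
  have hRa2 : ∀ a, B.t0 ^ N * B.l (ev a) ≤ ((Ra a : ℝ) + 3) * B.l u := fun a => by
    rw [hRaeq a, ← div_le_iff₀ hul]
    have := Nat.lt_floor_add_one (B.t0 ^ N * B.l (ev a) / B.l u)
    linarith
  have hRa3 : ∀ a, Ra a ≤ R := fun a => by
    have h1 : ((Ra a : ℝ) + 1) * B.l u ≤ ((R : ℝ) + 1) * B.l u := by
      refine (hRa1 a).trans (le_trans ?_ hN2)
      exact mul_le_mul_of_nonneg_left (hlam a) htN.le
    have h2 : (Ra a : ℝ) + 1 ≤ (R : ℝ) + 1 := le_of_mul_le_mul_right h1 hul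
    have h3 : (Ra a : ℝ) ≤ R := by linarith
    exact_mod_cast h3
  -- rest words
  have hrest : ∀ a, (∀ b, 0 ≤ ((B.P ^ N).mulVec (ev a) - (Kmk : ℤ) • ev 0 - ev 2 - (Kmk : ℤ) • ev 1
        - (Ra a : ℤ) • u) b) ∧
      ∀ b, B.kf * (∑ b', ((((B.P ^ N).mulVec (ev a) - (Kmk : ℤ) • ev 0 - ev 2 -
        (Kmk : ℤ) • ev 1 - (Ra a : ℤ) • u) b' : ℤ) : ℝ))
      ≤ (((B.P ^ N).mulVec (ev a) - (Kmk : ℤ) • ev 0 - ev 2 - (Kmk : ℤ) • ev 1 -
        (Ra a : ℤ) • u) b : ℤ) := fun a => by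
    obtain ⟨h1, h2⟩ := rest_bound B N Kmk (Ra a) R u a (hRa3 a) huz huc
    refine hl0 _ ?_ h1 h2
    rw [map_sub, map_sub, map_sub, map_sub, map_zsmul, map_zsmul, map_zsmul, l_Mpow, zsmul_eq_mul,
      zsmul_eq_mul, zsmul_eq_mul, Int.cast_natCast, Int.cast_natCast]
    have h3 := hRa1 a
    have h4 := abs_nonneg (B.l G)
    nlinarith
  -- `u0`
  have hu0 : (∀ a, 0 ≤ (u - 2 • G) a) ∧
      ∀ b, B.kf * (∑ a, (((u - 2 • G) a : ℤ) : ℝ)) ≤ ((u - 2 • G) b : ℤ) := by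
    have hKn : (0 : ℝ) ≤ Kmk := Nat.cast_nonneg Kmk
    have hone : 1 ≤ (R : ℝ) + 2 := by linarith
    refine hl0 _ ?_ ?_ ?_
    · rw [map_sub, map_nsmul, nsmul_eq_mul, Nat.cast_ofNat]
      have h1 := le_abs_self (B.l G)
      have h2 : 0 ≤ Kmk * (B.l (ev 0) + B.l (ev 1)) := by
        have := hla 0
        have := hla 1
        positivity
      have h3 := hla 2
      linarith
    · rw [map_sub, map_nsmul, nsmul_eq_mul, Nat.cast_ofNat]
      have h1 := norm_sub_le (B.z u) (2 * B.z G)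
      rw [norm_mul, Complex.norm_ofNat] at h1
      have h2 : ‖B.z u‖ ≤ 1 := le_trans (le_mul_of_one_le_right (norm_nonneg _) hone) huz
      nlinarith
    · rw [map_sub, map_nsmul, nsmul_eq_mul, Nat.cast_ofNat]
      have h1 := abs_sub (B.c u) (2 * B.c G)
      rw [abs_mul, abs_of_pos (by norm_num : (0 : ℝ) < 2)] at h1
      have h2 : |B.c u| ≤ 1 := le_trans (le_mul_of_one_le_right (abs_nonneg _) hone) huc
      nlinarith
  -- the code
  obtain ⟨X, hX1, hX2⟩ := hn0 (4 * (R + 2)) (by omega)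
  have hL : 1 ≤ Nat.log 2 (4 * (R + 2)) := Nat.log_pos (by norm_num) (by omega)
  have hL' : (1 : ℝ) ≤ (Nat.log 2 (4 * (R + 2)) : ℕ) := by exact_mod_cast hL
  set L := Nat.log 2 (4 * (R + 2)) with hLdef
  refine ⟨{
    G := G
    G_z := hGz
    G_c := hGc
    G_ge := hG
    Kmk := Kmk
    Kmk_ge := hKmk
    R := R
    N := N
    one_le_N := by omega
    T2 := L ^ 2
    one_le_T2 := Nat.one_le_pow _ _ hL
    u := u
    Ra := Ra
    X := X
    X_mem := hX1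
    X_prop := fun ρ hρ K hK s1 h1 h2 h3 => by
      refine hX2 ρ hρ K hK s1 h1 h2 ?_
      push_cast at h3 ⊢
      exact h3
    u_z := huz
    u_c := huc
    Mpos := hn1 N (by omega)
    t_big := hbig 100 hf1
    u0_nonneg := hu0.1
    u0_freq := hu0.2
    lu_big := by linarith
    Ra_le := hRa3
    Ra_upper := fun a => by
      have h1 := hRa1 a
      nlinarith
    Ra_lower := hRa2
    lu_R := hN2
    T2_small := ?_
    A_pow := ?_
    rest_nonneg := fun a => (hrest a).1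
    rest_freq := fun a => (hrest a).2
    Cbig_le := hbig _ hf2
    eps1_small := ?_ }⟩
  · -- T2_small
    push_cast
    have h1 : (4 * (L : ℝ) ^ 2 + 16) * (8 * T) ≤ (R : ℝ) + 1 := by
      refine le_trans ?_ hg
      have h2 : (1 : ℝ) ≤ (L : ℝ) ^ 2 := one_le_pow₀ hL'
      nlinarith
    have h2 : (4 * (L : ℝ) ^ 2 + 16) * (8 * T) * B.l u ≤ B.t0 ^ N * T := by
      refine le_trans (mul_le_mul_of_nonneg_right h1 hul.le) hN3.le
    have h3 : ((4 * (L : ℝ) ^ 2 + 16) * B.l u * 8) * T ≤ B.t0 ^ N * T := by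
      refine le_trans (le_of_eq ?_) h2
      ring
    have h4 := le_of_mul_le_mul_right h3 hTpos
    linarith
  · -- A_pow
    refine hbig _ ?_
    refine le_trans (le_of_eq ?_) hh
    push_cast
    ring
  · -- eps1_small
    have hZ : 0 ≤ (B.Z3 + 1) ^ 2 := sq_nonneg _
    have h1 : B.l u / B.t0 ^ N ≤ T / (R + 1) := by
      rw [div_le_div_iff₀ htN hR1]
      linarith
    have h2 : 16 * (B.l u / B.t0 ^ N) * B.CbK Kmk * (B.Z3 + 1) ^ 2 ≤
        16 * (T / (R + 1)) * |B.CbK Kmk| * (B.Z3 + 1) ^ 2 := by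
      refine mul_le_mul_of_nonneg_right ?_ hZ
      have h4 : 0 ≤ 16 * (B.l u / B.t0 ^ N) := by positivity
      refine (mul_le_mul_of_nonneg_left (le_abs_self _) h4).trans ?_
      exact mul_le_mul_of_nonneg_right (by linarith) (abs_nonneg _)
    refine lt_of_le_of_lt h2 ?_
    have h3 : 16 * (T / (R + 1)) * |B.CbK Kmk| * (B.Z3 + 1) ^ 2 =
        16 * T * |B.CbK Kmk| * (B.Z3 + 1) ^ 2 / (R + 1) := by
      field_simp
    rw [h3, div_lt_one hR1]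
    linarith

end Pool.Agent.RS69
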