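import Pool.Agent.RS69.Op2

/-!
# RS69.Op3 : the overlap length is harmonic (section 1.1 of the paper proof)

`sum_overlap`: for fixed `x`, `∑_y |x ∩ y| = |x ∩ (union of the second word)|`, apply `sum_clamp` twice with
the clamp functions `φ(u) = min (max u α) β`.
-/

set_option autoImplicit false

namespace Pool.Agent.RS69

variable {B : Base}

/-- telescoping along a word -/
theorem sum_clamp (B : Base) (w : List Ltr) (s : Vec) (φ : ℝ → ℝ) :
    (((tiles w s).map (fun x => φ (B.l x.2 + B.l (ev x.1)) - φ (B.l x.2))).sum) =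
      φ (B.l (s + abv w)) - φ (B.l s) := by
  induction w generalizing s with
  | nil => simp [tiles, abv_nil]
  | cons a w ih =>
    simp only [tiles, List.map_cons, List.sum_cons]
    rw [ih, abv_cons, map_add B.l s (ev a), ← add_assoc, map_add B.l (s + ev a), map_add B.l s (ev a)]
    ring

/-- clamp function -/
private noncomputable def cl (α β u : ℝ) : ℝ := max α (min u β)

private theorem cl_sub {α β c d : ℝ} (h : α ≤ β) (h' : c ≤ d) :
    cl α β d - cl α β c = max 0 (min β d - max α c) := by
  unfold cl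
  simp only [max_def, min_def]
  split_ifs <;> linarith

private theorem l_abv_nonneg (B : Base) (w : List Ltr) : 0 ≤ B.l (abv w) := by
  induction w with
  | nil => simp [abv_nil]
  | cons a w ih =>
    rw [abv_cons, map_add]
    have := B.l_ge a
    linarith

private theorem I_eq_cl (B : Base) (x y : Ltr × Vec) :
    B.I (x.1, y.1, y.2 - x.2) =
      cl (B.l x.2) (B.l x.2 + B.l (ev x.1)) (B.l y.2 + B.l (ev y.1)) -
        cl (B.l x.2) (B.l x.2 + B.l (ev x.1)) (B.l y.2) := by
  have h1 := B.l_ge x.1
  have h2 := B.l_ge y.1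
  rw [cl_sub (by linarith) (by linarith)]
  unfold Base.I
  simp only [map_sub]
  congr 1
  simp only [max_def, min_def]
  split_ifs <;> linarith

/-- overlap lengths of the pairs of tiles of two placed words -/
theorem sum_overlap' (B : Base) (w w' : List Ltr) (s s' : Vec) :
    (((tiles w s).map (fun x => ((tiles w' s').map (fun y => B.I (x.1, y.1, y.2 - x.2))).sum)).sum) =
      max 0 (min (B.l (s + abv w)) (B.l (s' + abv w')) - max (B.l s) (B.l s')) := by
  have hw : B.l s ≤ B.l (s + abv w) := by
    rw [map_add]; linarith [l_abv_nonneg B w]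
  have hw' : B.l s' ≤ B.l (s' + abv w') := by
    rw [map_add]; linarith [l_abv_nonneg B w']
  have h1 : ∀ x : Ltr × Vec, ((tiles w' s').map (fun y => B.I (x.1, y.1, y.2 - x.2))).sum =
      cl (B.l s') (B.l (s' + abv w')) (B.l x.2 + B.l (ev x.1)) -
        cl (B.l s') (B.l (s' + abv w')) (B.l x.2) := by
    intro x
    have hx := B.l_ge x.1
    simp only [I_eq_cl]
    rw [sum_clamp B w' s' (cl (B.l x.2) (B.l x.2 + B.l (ev x.1))),
      cl_sub (by linarith) hw', cl_sub hw' (by linarith), min_comm, max_comm (B.l x.2)]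
  simp only [h1]
  rw [sum_clamp B w s (cl (B.l s') (B.l (s' + abv w'))), cl_sub hw' hw, min_comm, max_comm (B.l s')]

/-- the overlap lengths of the child pairs add up (one pair of words) -/
theorem sum_overlap (B : Base) (w w' : List Ltr) (v : Vec) :
    (((tiles w 0).map (fun x => ((tiles w' v).map (fun y => B.I (x.1, y.1, y.2 - x.2))).sum)).sum) =
      max 0 (min (B.l (abv w)) (B.l v + B.l (abv w')) - max 0 (B.l v)) := by
  rw [sum_overlap', zero_add, map_zero, map_add B.l v]

/-- double sum over the children of a pair of words, in terms of the placed words -/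
private theorem child_sum (M : Matrix (Fin 4) (Fin 4) ℤ) (O : St) (w w' : List Ltr) (F : St → ℝ) :
    ((tiles w 0).map (fun x => ((tiles w' 0).map (fun y => F (child M O x y))).sum)).sum =
      ((tiles w 0).map (fun x => ((tiles w' (M.mulVec O.2.2)).map
        (fun y => F (x.1, y.1, y.2 - x.2))).sum)).sum := by
  congr 1
  refine List.map_congr_left fun x _ => ?_
  congr 1
  rw [← zero_add (M.mulVec O.2.2), tiles_shift w' 0 (M.mulVec O.2.2), List.map_map]
  refine List.map_congr_left fun y _ => ?_
  simp only [child, Function.comp_apply]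
  rw [add_comm y.2]

private theorem l_sub_word (τ : Level B) (η : τ.E) (a : Ltr) :
    B.l (abv (τ.sub η a)) = τ.t * B.l (ev a) := by
  rw [τ.ab, l_Mpow]
  rfl

private theorem l_M (τ : Level B) (v : Vec) : B.l (τ.M.mulVec v) = τ.t * B.l v := by
  unfold Level.M Level.t
  rw [l_Mpow]

private theorem zone_eq {t : ℝ} (ht : 0 < t) (a b v : ℝ) :
    max 0 (min (t * a) (t * v + t * b) - max 0 (t * v)) = t * max 0 (min a (v + b) - max 0 v) := by
  rw [← mul_add, ← mul_min_of_nonneg _ _ ht.le]
  have h2 : max 0 (t * v) = t * max 0 v := by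
    rw [mul_max_of_nonneg _ _ ht.le, mul_zero]
  rw [h2, ← mul_sub, mul_max_of_nonneg _ _ ht.le, mul_zero]

theorem op_I (τ : Level B) : τ.op B.I = B.I := by
  funext O
  have ht := t_pos τ
  have h1 : ∀ η η', ((tiles (τ.sub η O.1) 0).map (fun x =>
      ((tiles (τ.sub η' O.2.1) 0).map (fun y => B.I (child τ.M O x y))).sum)).sum = τ.t * B.I O := by
    intro η η'
    rw [child_sum, sum_overlap, l_sub_word, l_sub_word, l_M, zone_eq ht]
    rfl
  unfold Level.op
  simp only [h1]
  have h2 : ∑ η, ∑ η', τ.β η * τ.β η' * (τ.t * B.I O) = τ.t * B.I O := by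
    simp only [← Finset.sum_mul, ← Finset.mul_sum, τ.β_sum, one_mul, mul_one]
  rw [h2, inv_mul_cancel_left₀ ht.ne']

theorem iter_I (τ : Level B) (j : ℕ) : τ.op^[j] B.I = B.I := by
  induction j with
  | zero => rfl
  | succ j ih => rw [Function.iterate_succ_apply', ih, op_I]

/-- functions supported on overlapping states stay so -/
theorem op_supp (τ : Level B) {F : St → ℝ} (hF : ∀ O, B.I O = 0 → F O = 0) (O : St) (h : B.I O = 0) :
    τ.op F O = 0 := by
  obtain ⟨ι, _, c, st, hc, -, h'⟩ := op_fin τ O
  have h1 : ∑ i, c i * B.I (st i) = 0 := by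
    rw [← h', op_I, h]
  rw [h']
  refine Finset.sum_eq_zero fun i hi => ?_
  have h2 := (Finset.sum_eq_zero_iff_of_nonneg
    (fun i _ => mul_nonneg (hc i) (I_nonneg B (st i)))).1 h1 i hi
  rcases mul_eq_zero.1 h2 with h3 | h3
  · rw [h3, zero_mul]
  · rw [hF _ h3, mul_zero]

theorem iter_supp (τ : Level B) (j : ℕ) {F : St → ℝ} (hF : ∀ O, B.I O = 0 → F O = 0) (O : St)
    (h : B.I O = 0) : (τ.op^[j] F) O = 0 := by
  induction j generalizing O with
  | zero => exact hF O h
  | succ j ih =>
    rw [Function.iterate_succ_apply']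
    exact op_supp τ (fun O hO => ih O hO) O h

/-- jump function -/
private noncomputable def jp (u r : ℝ) : ℝ := if u < r then 1 else 0

private theorem start_count (B : Base) (w w' : List Ltr) (s s' : Vec) :
    ((tiles w s).map (fun x => ((tiles w' s').map
      (fun y => jp (B.l x.2) (B.l y.2 + B.l (ev y.1)) - jp (B.l x.2) (B.l y.2))).sum)).sum ≤
      max 0 (min (B.l (s + abv w)) (B.l (s' + abv w')) - max (B.l s) (B.l s')) + 1 := by
  have hw : B.l s ≤ B.l (s + abv w) := by
    rw [map_add]; linarith [l_abv_nonneg B w]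
  have hw' : B.l s' ≤ B.l (s' + abv w') := by
    rw [map_add]; linarith [l_abv_nonneg B w']
  have h1 : ((tiles w s).map (fun x => ((tiles w' s').map
      (fun y => jp (B.l x.2) (B.l y.2 + B.l (ev y.1)) - jp (B.l x.2) (B.l y.2))).sum)).sum ≤
      ((tiles w s).map (fun x => cl (B.l s') (B.l (s' + abv w') + 1) (B.l x.2 + B.l (ev x.1)) -
        cl (B.l s') (B.l (s' + abv w') + 1) (B.l x.2))).sum := by
    refine List.sum_le_sum fun x _ => ?_
    rw [sum_clamp B w' s' (jp (B.l x.2))]
    have hx := B.l_ge x.1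
    unfold jp cl
    simp only [max_def, min_def]
    split_ifs <;> linarith
  refine h1.trans ?_
  rw [sum_clamp B w s (cl (B.l s') (B.l (s' + abv w') + 1)), cl_sub (by linarith) hw]
  simp only [max_def, min_def]
  split_ifs <;> linarith

private theorem swap_sum (w w' : List Ltr) (s s' : Vec) (F : Ltr × Vec → Ltr × Vec → ℝ) :
    ((tiles w s).map (fun x => ((tiles w' s').map (fun y => F x y)).sum)).sum =
      ((tiles w' s').map (fun y => ((tiles w s).map (fun x => F x y)).sum)).sum := by
  rw [tiles_sum, tiles_sum]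
  simp only [tiles_sum]
  rw [Finset.sum_comm]

private theorem pair_count (B : Base) (w w' : List Ltr) (s s' : Vec) :
    ((tiles w s).map (fun x => ((tiles w' s').map
      (fun y => if 0 < B.I (x.1, y.1, y.2 - x.2) then (1 : ℝ) else 0)).sum)).sum ≤
      2 * max 0 (min (B.l (s + abv w)) (B.l (s' + abv w')) - max (B.l s) (B.l s')) + 2 := by
  have h1 := start_count B w w' s s'
  have h2 := start_count B w' w s' s
  rw [min_comm, max_comm (B.l s')] at h2
  rw [swap_sum w' w s' s] at h2
  have h3 : ((tiles w s).map (fun x => ((tiles w' s').map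
      (fun y => if 0 < B.I (x.1, y.1, y.2 - x.2) then (1 : ℝ) else 0)).sum)).sum ≤
      ((tiles w s).map (fun x => ((tiles w' s').map
      (fun y => jp (B.l x.2) (B.l y.2 + B.l (ev y.1)) - jp (B.l x.2) (B.l y.2))).sum)).sum +
      ((tiles w s).map (fun x => ((tiles w' s').map
      (fun y => jp (B.l y.2) (B.l x.2 + B.l (ev x.1)) - jp (B.l y.2) (B.l x.2))).sum)).sum := by
    rw [← List.sum_map_add]
    refine List.sum_le_sum fun x _ => ?_
    rw [← List.sum_map_add]
    refine List.sum_le_sum fun y _ => ?_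
    have hx := B.l_ge x.1
    have hy := B.l_ge y.1
    have h4 : 0 < B.I (x.1, y.1, y.2 - x.2) ↔
        B.l y.2 < B.l x.2 + B.l (ev x.1) ∧ B.l x.2 < B.l y.2 + B.l (ev y.1) := by
      rw [I_pos_iff]
      simp only [map_sub]
      constructor
      · rintro ⟨h5, h6⟩
        constructor <;> linarith
      · rintro ⟨h5, h6⟩
        constructor <;> linarith
    simp only [h4]
    unfold jp
    split_ifs <;> linarith
  linarith

/-- number of overlapping child pairs: `t * (op 1_{I>0}) ≤ 2 t I + 3`.
(Two placed words with overlap zone of length `Z`: at most `2 Z + 3` overlapping pairs, since the end points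
of the overlap intervals in the interior of the zone are end points of tiles, whose lengths are `≥ 1`.) -/
theorem op_count (τ : Level B) (O : St) :
    τ.op (fun O => if 0 < B.I O then 1 else 0) O ≤ 2 * B.I O + 3 / τ.t := by
  have ht := t_pos τ
  have h1 : ∀ η η', ((tiles (τ.sub η O.1) 0).map (fun x =>
      ((tiles (τ.sub η' O.2.1) 0).map (fun y =>
        (fun O => if 0 < B.I O then (1 : ℝ) else 0) (child τ.M O x y))).sum)).sum ≤
      2 * (τ.t * B.I O) + 3 := by
    intro η η'
    rw [child_sum τ.M O (τ.sub η O.1) (τ.sub η' O.2.1) (fun O => if 0 < B.I O then (1 : ℝ) else 0)]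
    refine (pair_count B _ _ _ _).trans ?_
    have h2 : max 0 (min (B.l (0 + abv (τ.sub η O.1))) (B.l (τ.M.mulVec O.2.2 + abv (τ.sub η' O.2.1))) -
        max (B.l 0) (B.l (τ.M.mulVec O.2.2))) = τ.t * B.I O := by
      rw [zero_add, map_zero, map_add B.l (τ.M.mulVec O.2.2), l_sub_word, l_sub_word, l_M, zone_eq ht]
      rfl
    rw [h2]
    linarith
  have h3 : ∑ η, ∑ η', τ.β η * τ.β η' * ((tiles (τ.sub η O.1) 0).map (fun x =>
      ((tiles (τ.sub η' O.2.1) 0).map (fun y =>
        (fun O => if 0 < B.I O then (1 : ℝ) else 0) (child τ.M O x y))).sum)).sum ≤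
      ∑ η, ∑ η', τ.β η * τ.β η' * (2 * (τ.t * B.I O) + 3) := by
    refine Finset.sum_le_sum fun η _ => Finset.sum_le_sum fun η' _ => ?_
    exact mul_le_mul_of_nonneg_left (h1 η η') (mul_nonneg (τ.β_nonneg _) (τ.β_nonneg _))
  have h4 : ∑ η, ∑ η', τ.β η * τ.β η' * (2 * (τ.t * B.I O) + 3) = 2 * (τ.t * B.I O) + 3 := by
    simp only [← Finset.sum_mul, ← Finset.mul_sum, τ.β_sum, one_mul, mul_one]
  rw [h4] at h3
  unfold Level.op
  refine (mul_le_mul_of_nonneg_left h3 (inv_nonneg.2 ht.le)).trans (le_of_eq ?_)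
  field_simp

end Pool.Agent.RS69
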