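import Pool.Agent.RS69.DPar2
import Pool.Agent.RS69.Op3

/-!
# RS69.DFull : properties (F) and (G) of the design (section 9.6)
-/

set_option autoImplicit false

namespace Pool.Agent.RS69

namespace Par

variable {B : Base} (p : Par B)

private theorem tpos' (p : Par B) : 0 < B.t0 ^ p.N := pow_pos (by linarith [B.one_lt_t0]) _

private theorem lu_pos' (p : Par B) : 100 ≤ B.l p.u := by
  obtain ⟨h1, h2, h3, h4, h5, h6⟩ := K_pos B
  have h7 := p.lu_big
  have h8 := p.lG_nonneg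
  have h9 : (0 : ℝ) ≤ B.g0 := Nat.cast_nonneg _
  have h10 : 0 ≤ 100 * (B.g0 : ℝ) * B.lmax := by positivity
  linarith

private theorem I_bounds (B : Base) (O : St) (h : 0 < B.I O) :
    B.I O ≤ B.l (ev O.1) ∧ B.I O ≤ B.l (ev O.2.1) ∧ B.I O ≤ B.l (ev O.1) - B.l O.2.2 ∧
      B.I O ≤ B.l O.2.2 + B.l (ev O.2.1) := by
  have h1 := I_le_l B O
  have h2 := (I_pos_iff B O).1 h
  refine ⟨h1.1, h1.2, ?_, ?_⟩
  · unfold Base.I
    refine max_le (by linarith) ?_
    have := min_le_left (B.l (ev O.1)) (B.l O.2.2 + B.l (ev O.2.1))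
    have := le_max_right 0 (B.l O.2.2)
    linarith
  · unfold Base.I
    refine max_le (by linarith) ?_
    have := min_le_right (B.l (ev O.1)) (B.l O.2.2 + B.l (ev O.2.1))
    have := le_max_left 0 (B.l O.2.2)
    linarith

/-- block shift: `h = M v + k u` with `|l(h)| ≤ l(u)/2` and consequences for good states -/
theorem block_shift (O : St) (hO : p.Good O) : ∃ k : ℤ,
    |B.l ((B.P ^ p.N).mulVec O.2.2 + k • p.u)| ≤ B.l p.u / 2 ∧ |k| ≤ p.R + 1 ∧
    (((O.2.1 : ℕ) : ℤ) - ((O.1 : ℕ) : ℤ)) * (p.R + 2) + k ≠ 0 ∧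
    ‖B.z ((B.P ^ p.N).mulVec O.2.2 + k • p.u) - B.w0 ^ p.N * B.z O.2.2‖ ≤ 1 ∧
    |B.c ((B.P ^ p.N).mulVec O.2.2 + k • p.u)| ≤ 2 ∧
    ∃ s1 n : ℕ, 0 ≤ (s1 : ℤ) + k ∧ s1 + n ≤ p.Ra O.1 ∧ (s1 : ℤ) + n + k ≤ p.Ra O.2.1 ∧
      p.t * B.I O / B.l p.u - 4 ≤ n := by
  obtain ⟨hI, hc, hn⟩ := hO
  have hI0 : 0 < B.I O := by linarith
  have ht := tpos' p
  have hL := lu_pos' p
  have hL0 : 0 < B.l p.u := by linarith
  have hlv := abs_l_le_of_I_pos B O hI0
  obtain ⟨hI1, hI2, hI3, hI4⟩ := I_bounds B O hI0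
  have htdef : p.t = B.t0 ^ p.N := rfl
  set t := B.t0 ^ p.N with htt
  set L := B.l p.u with hLL
  set X : ℝ := -(t * B.l O.2.2 / L) with hX
  set k : ℤ := round X with hk
  have hkX : |X - k| ≤ 1 / 2 := abs_sub_round X
  obtain ⟨hk1, hk2⟩ := abs_le.1 hkX
  have hXL : X * L = -(t * B.l O.2.2) := by
    rw [hX]
    field_simp
  have hlh : B.l ((B.P ^ p.N).mulVec O.2.2 + k • p.u) = t * B.l O.2.2 + k * L := by
    rw [map_add, l_Mpow, map_zsmul, zsmul_eq_mul]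
  -- bound of `k`
  have hkR : |k| ≤ p.R + 1 := by
    have h1 : |X| ≤ p.R + 1 := by
      rw [hX, abs_neg, abs_div, abs_mul, abs_of_pos ht, abs_of_pos hL0, div_le_iff₀ hL0]
      have h2 := p.lu_R
      have h3 := mul_le_mul_of_nonneg_left hlv ht.le
      linarith
    have h2 : |(k : ℝ)| ≤ p.R + 1 + 1 / 2 := by
      obtain ⟨h3, h4⟩ := abs_le.1 h1
      rw [abs_le]
      constructor <;> linarith
    have h3 : ((|k| : ℤ) : ℝ) < ((p.R : ℤ) + 2 : ℤ) := by
      push_cast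
      linarith
    have h4 : |k| < (p.R : ℤ) + 2 := by exact_mod_cast h3
    omega
  have hkRr : |(k : ℝ)| ≤ p.R + 1 := by
    have h1 : ((|k| : ℤ) : ℝ) ≤ (((p.R : ℤ) + 1 : ℤ) : ℝ) := by exact_mod_cast hkR
    push_cast at h1
    exact h1
  refine ⟨k, ?_, hkR, ?_, ?_, ?_, ?_⟩
  · have hm1 := mul_le_mul_of_nonneg_right hk1 hL0.le
    have hm2 := mul_le_mul_of_nonneg_right hk2 hL0.le
    rw [hlh, abs_le]
    constructor <;> linarith
  · intro h0
    by_cases hab : O.1 = O.2.1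
    · rw [hab] at h0
      have hk0 : k = 0 := by
        have : (((O.2.1 : ℕ) : ℤ) - ((O.2.1 : ℕ) : ℤ)) = 0 := sub_self _
        rw [this, zero_mul, zero_add] at h0
        exact h0
      have h1 := hn hab
      unfold eps1 at h1
      rw [htdef, div_le_iff₀ ht] at h1
      rw [hk0] at hkX
      simp only [Int.cast_zero, sub_zero] at hkX
      rw [hX, abs_neg, abs_div, abs_mul, abs_of_pos ht, abs_of_pos hL0, div_le_iff₀ hL0] at hkX
      linarith
    · have hne : ((O.2.1 : ℕ) : ℤ) - ((O.1 : ℕ) : ℤ) ≠ 0 := by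
        intro h2
        apply hab
        apply Fin.ext
        omega
      obtain ⟨hka, hkb⟩ := abs_le.1 hkR
      have hR : (0 : ℤ) ≤ p.R := Int.natCast_nonneg _
      rcases lt_or_gt_of_ne hne with h2 | h2
      · have h3 : (((O.2.1 : ℕ) : ℤ) - ((O.1 : ℕ) : ℤ)) * ((p.R : ℤ) + 2) ≤ (-1) * ((p.R : ℤ) + 2) :=
          mul_le_mul_of_nonneg_right (by omega) (by omega)
        omega
      · have h3 : 1 * ((p.R : ℤ) + 2) ≤ (((O.2.1 : ℕ) : ℤ) - ((O.1 : ℕ) : ℤ)) * ((p.R : ℤ) + 2) :=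
          mul_le_mul_of_nonneg_right (by omega) (by omega)
        omega
  · rw [map_add, z_Mpow, add_sub_cancel_left, map_zsmul, zsmul_eq_mul, norm_mul]
    have h1 : ‖((k : ℤ) : ℂ)‖ = |(k : ℝ)| := by
      rw [← Complex.ofReal_intCast, Complex.norm_real, Real.norm_eq_abs]
    rw [h1]
    have h2 := p.u_z
    have h3 := norm_nonneg (B.z p.u)
    nlinarith
  · rw [map_add, c_Mpow, map_zsmul, zsmul_eq_mul]
    have h1 : |(t)⁻¹ * B.c O.2.2| ≤ 1 := by
      rw [abs_mul, abs_of_pos (inv_pos.2 ht), inv_mul_le_iff₀ ht, mul_one]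
      exact hc.trans p.Cbig_le
    have h2 : |(k : ℝ) * B.c p.u| ≤ 1 := by
      rw [abs_mul]
      have h2 := p.u_c
      have h3 := abs_nonneg (B.c p.u)
      nlinarith
    have h3 := abs_add_le ((t)⁻¹ * B.c O.2.2) ((k : ℝ) * B.c p.u)
    linarith
  · -- the common block range
    have ha := p.Ra_lower O.1
    have hb := p.Ra_lower O.2.1
    rw [← htt, ← hLL] at ha hb
    have e0 : (t * B.I O / L - 4) * L = t * B.I O - 4 * L := by
      field_simp
    have hT : (4 * (p.T2 : ℝ) + 16) * L ≤ t / 8 := p.T2_small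
    have hT2 : (1 : ℝ) ≤ p.T2 := by exact_mod_cast p.one_le_T2
    have htI : t / 8 ≤ t * B.I O := by
      have := mul_le_mul_of_nonneg_left hI ht.le
      linarith
    set m : ℤ := min (p.Ra O.1 : ℤ) ((p.Ra O.2.1 : ℤ) - k) with hm
    set s : ℤ := max 0 (-k) with hs
    have key : (t * B.I O / L - 4) ≤ ((m - s : ℤ) : ℝ) := by
      have i1 := mul_le_mul_of_nonneg_left hI1 ht.le
      have i2 := mul_le_mul_of_nonneg_left hI2 ht.le
      have i3 := mul_le_mul_of_nonneg_left hI3 ht.le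
      have i4 := mul_le_mul_of_nonneg_left hI4 ht.le
      have hm1 := mul_le_mul_of_nonneg_right hk1 hL0.le
      have hm2 := mul_le_mul_of_nonneg_right hk2 hL0.le
      have hkl : X * L - L / 2 ≤ k * L := by linarith
      have hku : k * L ≤ X * L + L / 2 := by linarith
      rcases min_choice (p.Ra O.1 : ℤ) ((p.Ra O.2.1 : ℤ) - k) with h1 | h1 <;>
      rcases max_choice (0 : ℤ) (-k) with h2 | h2 <;>
      · refine le_of_mul_le_mul_right ?_ hL0
        rw [e0, hm, hs, h1, h2]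
        push_cast
        linarith
    have hpos : (0 : ℝ) ≤ t * B.I O / L - 4 := by
      refine le_of_mul_le_mul_right ?_ hL0
      rw [e0, zero_mul]
      have hTL : 0 ≤ (p.T2 : ℝ) * L := mul_nonneg (by linarith) hL0.le
      linarith
    have hms : 0 ≤ m - s := by
      have h1 : (0 : ℝ) ≤ ((m - s : ℤ) : ℝ) := hpos.trans key
      exact_mod_cast h1
    have hs0 : 0 ≤ s := le_max_left _ _
    have hsk : -k ≤ s := le_max_right _ _
    have hm1 : m ≤ (p.Ra O.1 : ℤ) := min_le_left _ _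
    have hm2 : m ≤ (p.Ra O.2.1 : ℤ) - k := min_le_right _ _
    refine ⟨s.toNat, (m - s).toNat, ?_, ?_, ?_, ?_⟩
    · rw [Int.toNat_of_nonneg hs0]; omega
    · omega
    · rw [Int.toNat_of_nonneg hs0, Int.toNat_of_nonneg hms]; omega
    · have h1 : (((m - s).toNat : ℕ) : ℝ) = ((m - s : ℤ) : ℝ) := by
        have := Int.toNat_of_nonneg hms
        exact_mod_cast this
      rw [h1, htdef]
      exact key

/-- in every window of `T2` consecutive common blocks there is one with the prescribed pair of shifts -/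
theorem block_pair (O : St) (k : ℤ) (hk : |k| ≤ p.R + 1)
    (hK : (((O.2.1 : ℕ) : ℤ) - ((O.1 : ℕ) : ℤ)) * (p.R + 2) + k ≠ 0) (s1 : ℕ)
    (h1 : 0 ≤ (s1 : ℤ) + k) (h2 : s1 + p.T2 ≤ p.Ra O.1) (h3 : (s1 : ℤ) + p.T2 + k ≤ p.Ra O.2.1)
    (ρ : Vec) (hρ : ρ ∈ B.Dset) :
    ∃ s s' : ℕ, s1 ≤ s ∧ s < s1 + p.T2 ∧ (s' : ℤ) = s + k ∧ s < p.Ra O.1 ∧ s' < p.Ra O.2.1 ∧
      p.X ((O.1 : ℕ) * (p.R + 2) + s) = 0 ∧ p.X ((O.2.1 : ℕ) * (p.R + 2) + s') = ρ := by
  have ha : (O.1 : ℕ) ≤ 3 := by have := O.1.isLt; omega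
  have hb : (O.2.1 : ℕ) ≤ 3 := by have := O.2.1.isLt; omega
  have hRa := p.Ra_le O.1
  have hRb := p.Ra_le O.2.1
  have ha' : (O.1 : ℕ) * (p.R + 2) ≤ 3 * (p.R + 2) := Nat.mul_le_mul_right _ ha
  have hb' : (O.2.1 : ℕ) * (p.R + 2) ≤ 3 * (p.R + 2) := Nat.mul_le_mul_right _ hb
  set A : ℕ := (O.1 : ℕ) * (p.R + 2) with hA
  set C : ℕ := (O.2.1 : ℕ) * (p.R + 2) with hC
  have hKe : (((O.2.1 : ℕ) : ℤ) - ((O.1 : ℕ) : ℤ)) * (p.R + 2) + k = (C : ℤ) - A + k := by
    rw [hA, hC]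
    push_cast
    ring
  rw [hKe] at hK
  obtain ⟨j, hj1, hj2, hj3, hj4⟩ := p.X_prop ρ hρ ((C : ℤ) - A + k) hK (A + s1)
    (by omega) (by push_cast; omega) (by push_cast; omega)
  refine ⟨j - A, ((j : ℤ) - A + k).toNat, by omega, by omega, ?_, by omega, ?_, ?_, ?_⟩
  · rw [Int.toNat_of_nonneg (by omega)]
    omega
  · omega
  · have e : A + (j - A) = j := by omega
    rw [e]
    exact hj3
  · have e : C + ((j : ℤ) - A + k).toNat = ((j : ℤ) + ((C : ℤ) - A + k)).toNat := by omega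
    rw [e]
    exact hj4

private theorem abv_take_succ (w : List Ltr) (i : ℕ) (hi : i < w.length) :
    abv (w.take (i + 1)) = abv (w.take i) + ev w[i] := by
  rw [List.take_succ_eq_append_getElem hi, abv_append, abv_singleton]

private theorem prefix_le (B : Base) (w : List Ltr) (i j : ℕ) (hij : i + j ≤ w.length) :
    B.l (abv (w.take i)) ≤ B.l (abv (w.take (i + j))) ∧
    B.l (abv (w.take (i + j))) ≤ B.l (abv (w.take i)) + j * B.lmax := by
  induction j with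
  | zero => simp
  | succ j ih =>
    obtain ⟨h1, h2⟩ := ih (by omega)
    have e : i + (j + 1) = (i + j) + 1 := by omega
    rw [e, abv_take_succ w (i + j) (by omega), map_add]
    have h3 := B.l_ge w[i + j]
    have h4 := l_le_lmax B w[i + j]
    push_cast
    constructor <;> linarith

/-- in the balanced body every letter occurs near every real position -/
theorem body_letter (b : Ltr) (x : ℝ) (h0 : 2 * B.g0 * B.lmax ≤ x) (h1 : x ≤ B.l p.u0 - 2 * B.g0 * B.lmax) :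
    ∃ y ∈ tiles (bal p.u0) 0, y.1 = b ∧ |B.l y.2 - x| ≤ B.g0 * B.lmax := by
  classical
  obtain ⟨-, -, hkf, hlm, -, -⟩ := K_pos B
  have hg : (1 : ℝ) ≤ B.g0 := by exact_mod_cast one_le_g0 B
  set w := bal p.u0 with hw
  have hwl : B.l (abv w) = B.l p.u0 := by rw [hw, bal_abv (U := p.u0) p.u0_nonneg]
  set π : ℕ → ℝ := fun i => B.l (abv (w.take i)) with hπ
  have hπ0 : π 0 = 0 := by simp [hπ, abv_nil]
  have hπn : π w.length = B.l p.u0 := by simp only [hπ, List.take_length, hwl]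
  have hx0 : 0 ≤ x := by
    have : 0 ≤ 2 * (B.g0 : ℝ) * B.lmax := by positivity
    linarith
  set i := Nat.findGreatest (fun i => π i ≤ x) w.length with hi
  have hiP : π i ≤ x := by
    have := Nat.findGreatest_spec (P := fun i => π i ≤ x) (m := 0) (n := w.length) (Nat.zero_le _)
      (by rw [hπ0]; exact hx0)
    exact this
  have hin : i ≤ w.length := Nat.findGreatest_le _
  have hlen : i + 2 * B.g0 ≤ w.length := by
    by_contra hcon
    push Not at hcon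
    obtain ⟨d, hd⟩ : ∃ d, w.length = i + d := ⟨w.length - i, by omega⟩
    have h2 := (prefix_le B w i d (by omega)).2
    rw [← hd, List.take_length, hwl] at h2
    have h3 : (d : ℝ) + 1 ≤ 2 * B.g0 := by
      have : d + 1 ≤ 2 * B.g0 := by omega
      exact_mod_cast this
    have h4 : B.l (abv (w.take i)) ≤ x := hiP
    nlinarith
  have hilt : x < π (i + 1) := by
    by_contra hcon
    push Not at hcon
    have h2 : i + 1 ≤ w.length := by
      have := one_le_g0 B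
      omega
    have h3 := Nat.le_findGreatest (P := fun i => π i ≤ x) h2 hcon
    omega
  have hmem := bal_gap p.u0_nonneg hkf p.u0_freq B.g0 (g0_spec B) i (by
    have e : bal (p.u - 2 • p.G) = w := rfl
    rw [e]
    omega) b
  have e : bal (p.u - 2 • p.G) = w := rfl
  rw [e, List.mem_iff_getElem] at hmem
  obtain ⟨j, hj, hjb⟩ := hmem
  rw [List.length_take, List.length_drop] at hj
  rw [List.getElem_take, List.getElem_drop] at hjb
  have hjg : j < B.g0 := by omega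
  have hij : i + j < w.length := by omega
  refine ⟨(w[i + j], 0 + abv (w.take (i + j))), ?_, hjb, ?_⟩
  · rw [mem_tiles]
    exact ⟨i + j, hij, rfl⟩
  · simp only [zero_add]
    have h2 := prefix_le B w i j (by omega)
    have h3 := (prefix_le B w i 1 (by omega)).2
    have h4 : x < B.l (abv (w.take (i + 1))) := hilt
    have h5 : B.l (abv (w.take i)) ≤ x := hiP
    have hjr : (j : ℝ) ≤ B.g0 := by exact_mod_cast hjg.le
    rw [abs_le]
    push_cast at h3
    constructor <;> nlinarith [h2.1, h2.2]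

theorem body_zc (y : Ltr × Vec) (hy : y ∈ tiles (bal p.u0) 0) :
    ‖B.z y.2‖ ≤ B.K7 / 2 ∧ |B.c y.2| ≤ B.K7 / 2 := by
  have hK := (K_pos B).1
  have h1 := bal_z B p.u0_nonneg y hy
  have h2 := bal_c B p.u0_nonneg y hy
  have h3 := p.u_z_le 1 (by omega)
  have h4 := p.u_c_le 1 (by omega)
  have h5 := p.G_z
  have h6 := p.G_c
  have ez : ‖B.z (p.u - 2 • p.G)‖ ≤ ‖B.z p.u‖ + 2 * ‖B.z p.G‖ := by
    rw [map_sub, map_nsmul]
    refine (norm_sub_le _ _).trans ?_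
    have : ‖(2 : ℕ) • B.z p.G‖ ≤ 2 * ‖B.z p.G‖ := by
      rw [nsmul_eq_mul, norm_mul]
      simp
    linarith
  have ec : |B.c (p.u - 2 • p.G)| ≤ |B.c p.u| + 2 * |B.c p.G| := by
    rw [map_sub, map_nsmul]
    refine (abs_sub _ _).trans ?_
    have : |(2 : ℕ) • B.c p.G| ≤ 2 * |B.c p.G| := by
      rw [nsmul_eq_mul, abs_mul]
      simp
    linarith
  have e7 : B.K7 = 6 * B.K0 + 2 := rfl
  push_cast at h3 h4
  constructor <;> linarith

/-- (F) -/
theorem full (O O' : St) (hO : p.Good O) (hI : 0 < B.I O')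
    (hz : ‖B.z O'.2.2 - B.w0 ^ p.N * B.z O.2.2‖ ≤ 2 * B.g + 1) (hc : |B.c O'.2.2| ≤ B.Cc) :
    (B.t0 ^ p.N)⁻¹ ≤ (natLevel B p.N p.sub p.sub_abv).op (ind O') O := by
  obtain ⟨k, hk1, hk2, hk3, hk4, hk5, s1, n, hs1, hs2, hs3, hs4⟩ := p.block_shift O hO
  obtain ⟨hK0, -, -, hlm, hCc, hCl⟩ := K_pos B
  have ht := tpos' p
  have hL := lu_pos' p
  have hL0 : 0 < B.l p.u := by linarith
  have hg1 := B.one_le_g
  have hT : (4 * (p.T2 : ℝ) + 16) * B.l p.u ≤ B.t0 ^ p.N / 8 := p.T2_small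
  have htdef : p.t = B.t0 ^ p.N := rfl
  -- length of the window
  have hnT : p.T2 ≤ n := by
    have h1 : 4 * (p.T2 : ℝ) + 16 ≤ p.t * B.I O / B.l p.u := by
      rw [le_div_iff₀ hL0, htdef]
      have := mul_le_mul_of_nonneg_left hO.1 ht.le
      linarith
    have h2 : (0 : ℝ) ≤ p.T2 := Nat.cast_nonneg _
    have h3 : (p.T2 : ℝ) ≤ n := by linarith
    exact_mod_cast h3
  set h := (B.P ^ p.N).mulVec O.2.2 + k • p.u with hh
  set L := B.l p.u with hLL
  -- length of the body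
  have hlG := p.lG_nonneg
  have hL0e : B.l p.u0 = L - 2 * B.l p.G := by
    unfold u0
    rw [map_sub, map_nsmul]
    simp [hLL]
  have hbig := p.lu_big
  rw [← hLL] at hbig
  set gl : ℝ := B.g0 * B.lmax with hgl
  have hgl0 : 0 ≤ gl := mul_nonneg (Nat.cast_nonneg _) (by linarith)
  have hbig' : 12 * B.l p.G + 6 * B.Cl + 100 * gl + 100 ≤ L := by
    have e : 100 * (B.g0 : ℝ) * B.lmax = 100 * gl := by rw [hgl]; ring
    linarith
  obtain ⟨hk1a, hk1b⟩ := abs_le.1 hk1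
  -- choice of the position
  obtain ⟨x, hx1, hx2, hx3, hx4⟩ : ∃ x : ℝ, 2 * gl ≤ x ∧ x ≤ B.l p.u0 - 2 * gl ∧
      2 * gl ≤ x - B.l h ∧ x - B.l h ≤ B.l p.u0 - 2 * gl := by
    by_cases h0 : 0 ≤ B.l h
    · refine ⟨3 / 4 * B.l p.u0, ?_, ?_, ?_, ?_⟩ <;> linarith
    · push Not at h0
      refine ⟨1 / 4 * B.l p.u0, ?_, ?_, ?_, ?_⟩ <;> linarith
  have egl : 2 * (B.g0 : ℝ) * B.lmax = 2 * gl := by rw [hgl]; ring
  obtain ⟨P1, hP1, hP1a, hP1x⟩ := p.body_letter O'.1 x (by rw [egl]; exact hx1) (by rw [egl]; exact hx2)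
  obtain ⟨Q1, hQ1, hQ1a, hQ1x⟩ := p.body_letter O'.2.1 (x - B.l h) (by rw [egl]; exact hx3)
    (by rw [egl]; exact hx4)
  rw [← hgl] at hP1x hQ1x
  obtain ⟨hP1z, hP1c⟩ := p.body_zc P1 hP1
  obtain ⟨hQ1z, hQ1c⟩ := p.body_zc Q1 hQ1
  set ρ : Vec := O'.2.2 - h - Q1.2 + P1.2 with hρ
  have hlv := abs_l_le_of_I_pos B O' hI
  have hρD : ρ ∈ B.Dset := by
    refine ⟨?_, ?_, ?_⟩
    · have e1 : B.l ρ = B.l O'.2.2 - B.l h - B.l Q1.2 + B.l P1.2 := by
        rw [hρ, map_add, map_sub, map_sub]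
      have e2 : B.Cl = 2 * gl + 4 * B.lmax := by
        unfold Base.Cl
        rw [hgl]
        ring
      obtain ⟨a1, a2⟩ := abs_le.1 hlv
      obtain ⟨b1, b2⟩ := abs_le.1 hP1x
      obtain ⟨c1, c2⟩ := abs_le.1 hQ1x
      rw [e1, e2, abs_le]
      constructor <;> linarith
    · have e1 : B.z ρ = (B.z O'.2.2 - B.w0 ^ p.N * B.z O.2.2) - (B.z h - B.w0 ^ p.N * B.z O.2.2)
          - B.z Q1.2 + B.z P1.2 := by
        rw [hρ, map_add, map_sub, map_sub]
        ring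
      have e2 : 0 ≤ B.K7 := by unfold Base.K7; linarith
      have e3 : B.ZD = 2 * B.g + 2 + B.K7 + (B.Z3 + 2 * B.K7 + 4 * B.g + 3) := rfl
      have e4 : 0 ≤ B.Z3 := by unfold Base.Z3; linarith
      rw [e1, e3]
      have n1 := norm_add_le ((B.z O'.2.2 - B.w0 ^ p.N * B.z O.2.2) - (B.z h - B.w0 ^ p.N * B.z O.2.2)
          - B.z Q1.2) (B.z P1.2)
      have n2 := norm_sub_le ((B.z O'.2.2 - B.w0 ^ p.N * B.z O.2.2) - (B.z h - B.w0 ^ p.N * B.z O.2.2))
          (B.z Q1.2)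
      have n3 := norm_sub_le (B.z O'.2.2 - B.w0 ^ p.N * B.z O.2.2) (B.z h - B.w0 ^ p.N * B.z O.2.2)
      linarith
    · have e1 : B.c ρ = B.c O'.2.2 - B.c h - B.c Q1.2 + B.c P1.2 := by
        rw [hρ, map_add, map_sub, map_sub]
      have e3 : B.CD = B.Cc + 2 + B.K7 + B.g := rfl
      obtain ⟨a1, a2⟩ := abs_le.1 hc
      obtain ⟨b1, b2⟩ := abs_le.1 hk5
      obtain ⟨c1, c2⟩ := abs_le.1 hP1c
      obtain ⟨d1, d2⟩ := abs_le.1 hQ1c
      rw [e1, e3, abs_le]
      constructor <;> linarith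
  obtain ⟨s, s', hsa, hsb, hsc, hsd, hse, hX0, hXρ⟩ := p.block_pair O k hk2 hk3 s1 hs1
    (by omega) (by omega) ρ hρD
  have hm1 := p.body_mem O.1 s hsd P1 hP1
  have hm2 := p.body_mem O.2.1 s' hse Q1 hQ1
  rw [hX0] at hm1
  rw [hXρ] at hm2
  have hge := natLevel_ind_ge B p.N p.sub p.sub_abv O hm1 hm2
  refine hge.trans (le_of_eq ?_)
  congr 2
  unfold child
  refine Prod.ext hP1a (Prod.ext hQ1a ?_)
  simp only
  rw [hsc, hρ, hh, add_smul]
  abel

/-- (G) -/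
theorem dense (s : ℂ) : ∃ O, p.Good O ∧ ‖B.z O.2.2 - s‖ ≤ B.g ∧ |B.c O.2.2| ≤ B.g := by
  obtain ⟨v, h1, h2, h3⟩ := B.cover 0 0 s
  rw [sub_zero] at h1 h3
  refine ⟨(0, 1, v), ⟨?_, ?_, ?_⟩, h2, h3⟩
  · obtain ⟨a1, a2⟩ := abs_le.1 h1
    have l0 := B.l_ge 0
    have l1 := B.l_ge 1
    unfold Base.I
    refine le_trans ?_ (le_max_right _ _)
    simp only
    rcases le_total 0 (B.l v) with h | h
    · rw [max_eq_right h]
      have : 1 ≤ min (B.l (ev 0)) (B.l v + B.l (ev 1)) := le_min l0 (by linarith)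
      linarith
    · rw [max_eq_left h]
      have : 1 / 2 ≤ min (B.l (ev 0)) (B.l v + B.l (ev 1)) := le_min (by linarith) (by linarith)
      linarith
  · refine h3.trans ?_
    obtain ⟨hK0, -, -, hlm, hCc, hCl⟩ := K_pos B
    have hg := B.one_le_g
    have hCD := CD_nonneg B
    have hct : 0 ≤ B.CtK p.Kmk := by
      unfold Base.CtK
      have : (0 : ℝ) ≤ (4 * p.Kmk + 10) * B.K0 := by positivity
      linarith
    have hkc : 2 * B.g ≤ B.kc := by
      unfold Base.kc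
      linarith
    unfold Cbig Base.CbK
    linarith
  · intro h
    have h' : (0 : Ltr) = 1 := h
    exact absurd h' (by decide)

theorem good_nc (O : St) (h : p.Good O) : ¬ Coin O := by
  rintro ⟨h1, h2⟩
  have h3 := h.2.2 h1
  have h4 := p.eps1_pos
  rw [h2, map_zero, abs_zero] at h3
  linarith

end Par

end Pool.Agent.RS69
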