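import Pool.Agent.RS69.DPar2
import Pool.Agent.RS69.Op3

/-!
# RS69.DNgc1 : property (N) of the design (section 9.6)

If no child of `O` is good, all children with overlap `≥ 1/8` are traps (equal letters, `|l| < ε1 ≤ 1/100`), so
by `diag` and `first_tile` the two placed words agree from the beginning of one of them to the end of the zone.
With index shift `i ≥ 1`: a suffix of one of the words of length `m` is a prefix of the other: if `m ≤ Kmk`
its last letter is `1` and `0`, if `m > Kmk` the marker `0^Kmk` occurs at index `≥ 1` (`marker_unique`).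
Index shift `0` would give `|l(Mv)| < ε1`.
-/

set_option autoImplicit false

namespace Pool.Agent.RS69

private theorem I_ge_of {B : Base} {a b : Ltr} {v : Vec} (h2 : 1 / 8 + B.l v ≤ B.l (ev a))
    (h3 : 1 / 8 ≤ B.l v + B.l (ev b)) : 1 / 8 ≤ B.I (a, b, v) := by
  have ha := B.l_ge a
  have hb := B.l_ge b
  unfold Base.I
  apply le_max_of_le_right
  rw [le_sub_iff_add_le]
  apply le_min
  · rcases le_total 0 (B.l v) with h | h
    · rw [max_eq_right h]; exact h2
    · rw [max_eq_left h]; simp only; linarith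
  · rcases le_total 0 (B.l v) with h | h
    · rw [max_eq_right h]; simp only; linarith
    · rw [max_eq_left h]; simp only; linarith

private theorem abv_take_succ (w : List Ltr) (i : ℕ) (hi : i < w.length) :
    abv (w.take (i + 1)) = abv (w.take i) + ev w[i] := by
  rw [List.take_succ_eq_append_getElem hi, abv_append, abv_singleton]

/-- Diagonal lemma.  Two placed words; assume every pair of tiles with overlap at least `1/8` consists of
equal letters with real offset `< e1 ≤ 1/8`.  If one such pair `(i,j)` exists, then all pairs `(i+q, j+q)`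
(`q` any integer with both indices in range) have equal letters and the same displacement. -/
theorem diag (B : Base) (w w' : List Ltr) (s s' : Vec) (e1 : ℝ) (he : e1 ≤ 1 / 8)
    (h : ∀ x ∈ tiles w s, ∀ y ∈ tiles w' s', 1 / 8 ≤ B.I (x.1, y.1, y.2 - x.2) →
      x.1 = y.1 ∧ |B.l (y.2 - x.2)| < e1)
    (i j : ℕ) (hi : i < w.length) (hj : j < w'.length)
    (hij : 1 / 8 ≤ B.I (w[i], w'[j], (s' + abv (w'.take j)) - (s + abv (w.take i)))) :
    ∀ i' j' : ℕ, (hi' : i' < w.length) → (hj' : j' < w'.length) → (i' : ℤ) - i = (j' : ℤ) - j →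
      w[i'] = w'[j'] ∧
      (s' + abv (w'.take j')) - (s + abv (w.take i')) = (s' + abv (w'.take j)) - (s + abv (w.take i)) := by
  -- consequence of the hypothesis at a pair
  have hc : ∀ i j : ℕ, (hi : i < w.length) → (hj : j < w'.length) →
      1 / 8 ≤ B.I (w[i], w'[j], (s' + abv (w'.take j)) - (s + abv (w.take i))) →
      w[i] = w'[j] ∧ |B.l ((s' + abv (w'.take j)) - (s + abv (w.take i)))| < e1 := by
    intro i j hi hj hij
    exact h (w[i], s + abv (w.take i)) ((mem_tiles w s _).2 ⟨i, hi, rfl⟩)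
      (w'[j], s' + abv (w'.take j)) ((mem_tiles w' s' _).2 ⟨j, hj, rfl⟩) hij
  -- one step forward
  have hf : ∀ i j : ℕ, (hi : i + 1 < w.length) → (hj : j + 1 < w'.length) →
      1 / 8 ≤ B.I (w[i], w'[j], (s' + abv (w'.take j)) - (s + abv (w.take i))) →
      1 / 8 ≤ B.I (w[i + 1], w'[j + 1], (s' + abv (w'.take (j + 1))) - (s + abv (w.take (i + 1)))) ∧
      (s' + abv (w'.take (j + 1))) - (s + abv (w.take (i + 1))) =
        (s' + abv (w'.take j)) - (s + abv (w.take i)) := by
    intro i j hi hj hij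
    obtain ⟨h1, h2⟩ := hc i j (by omega) (by omega) hij
    have hv : (s' + abv (w'.take (j + 1))) - (s + abv (w.take (i + 1))) =
        (s' + abv (w'.take j)) - (s + abv (w.take i)) := by
      rw [abv_take_succ w i (by omega), abv_take_succ w' j (by omega), h1]
      abel
    refine ⟨?_, hv⟩
    rw [hv]
    rw [abs_lt] at h2
    have ha := B.l_ge (w[i + 1])
    have hb := B.l_ge (w'[j + 1])
    apply I_ge_of <;> linarith
  -- one step backward
  have hb : ∀ i j : ℕ, (hi : i + 1 < w.length) → (hj : j + 1 < w'.length) →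
      1 / 8 ≤ B.I (w[i + 1], w'[j + 1], (s' + abv (w'.take (j + 1))) - (s + abv (w.take (i + 1)))) →
      1 / 8 ≤ B.I (w[i], w'[j], (s' + abv (w'.take j)) - (s + abv (w.take i))) ∧
      (s' + abv (w'.take j)) - (s + abv (w.take i)) =
        (s' + abv (w'.take (j + 1))) - (s + abv (w.take (i + 1))) := by
    intro i j hi hj hij
    obtain ⟨h1, h2⟩ := hc (i + 1) (j + 1) hi hj hij
    have hv : (s' + abv (w'.take j)) - (s + abv (w.take i)) =
        (s' + abv (w'.take (j + 1))) - (s + abv (w.take (i + 1))) + ev w[i] - ev w'[j] := by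
      rw [abv_take_succ w i (by omega), abv_take_succ w' j (by omega)]
      abel
    have hI : 1 / 8 ≤ B.I (w[i], w'[j], (s' + abv (w'.take j)) - (s + abv (w.take i))) := by
      rw [hv]
      rw [abs_lt] at h2
      have ha := B.l_ge (w[i])
      have hb := B.l_ge (w'[j])
      have hl : B.l ((s' + abv (w'.take (j + 1))) - (s + abv (w.take (i + 1))) + ev w[i] - ev w'[j]) =
          B.l ((s' + abv (w'.take (j + 1))) - (s + abv (w.take (i + 1)))) + B.l (ev w[i]) - B.l (ev w'[j]) := by
        rw [map_sub, map_add]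
      apply I_ge_of <;> rw [hl] <;> linarith
    refine ⟨hI, ?_⟩
    obtain ⟨h3, -⟩ := hc i j (by omega) (by omega) hI
    rw [hv, h3]
    abel
  -- forward
  have hF : ∀ q : ℕ, (hi' : i + q < w.length) → (hj' : j + q < w'.length) →
      1 / 8 ≤ B.I (w[i + q], w'[j + q], (s' + abv (w'.take (j + q))) - (s + abv (w.take (i + q)))) ∧
      (s' + abv (w'.take (j + q))) - (s + abv (w.take (i + q))) =
        (s' + abv (w'.take j)) - (s + abv (w.take i)) := by
    intro q
    induction q with
    | zero => intro _ _; exact ⟨hij, rfl⟩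
    | succ q ih =>
      intro hi' hj'
      obtain ⟨h1, h2⟩ := ih (by omega) (by omega)
      obtain ⟨h3, h4⟩ := hf (i + q) (j + q) (by omega) (by omega) h1
      exact ⟨h3, h4.trans h2⟩
  -- backward
  have hB : ∀ q i' j' : ℕ, (hi' : i' + q < w.length) → (hj' : j' + q < w'.length) →
      1 / 8 ≤ B.I (w[i' + q], w'[j' + q], (s' + abv (w'.take (j' + q))) - (s + abv (w.take (i' + q)))) →
      1 / 8 ≤ B.I (w[i'], w'[j'], (s' + abv (w'.take j')) - (s + abv (w.take i'))) ∧
      (s' + abv (w'.take j')) - (s + abv (w.take i')) =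
        (s' + abv (w'.take (j' + q))) - (s + abv (w.take (i' + q))) := by
    intro q
    induction q with
    | zero => intro i' j' _ _ h0; exact ⟨h0, rfl⟩
    | succ q ih =>
      intro i' j' hi' hj' h0
      obtain ⟨h1, h2⟩ := hb (i' + q) (j' + q) (by omega) (by omega) h0
      obtain ⟨h3, h4⟩ := ih i' j' (by omega) (by omega) h1
      exact ⟨h3, h4.trans h2⟩
  intro i' j' hi' hj' hq
  rcases le_total i i' with hle | hle
  · obtain ⟨q, rfl⟩ := Nat.exists_eq_add_of_le hle
    have hj2 : j' = j + q := by omega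
    subst hj2
    obtain ⟨h1, h2⟩ := hF q hi' hj'
    exact ⟨(hc _ _ hi' hj' h1).1, h2⟩
  · obtain ⟨q, rfl⟩ := Nat.exists_eq_add_of_le hle
    have hj2 : j = j' + q := by omega
    subst hj2
    obtain ⟨h1, h2⟩ := hB q i' j' hi hj hij
    exact ⟨(hc _ _ hi' hj' h1).1, h2⟩

/-- if the overlap zone of two placed words (second one starting inside the first) is at least `3/8` long
then its first tile of the second word has overlap `≥ 1/8` with some tile of the first -/
theorem first_tile (B : Base) (w w' : List Ltr) (s s' : Vec) (h0 : B.l s ≤ B.l s')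
    (h1 : B.l s' + 3 / 8 ≤ B.l (s + abv w)) (hw' : w' ≠ []) :
    ∃ i, ∃ hi : i < w.length, 1 / 8 ≤ B.I (w[i], w'.head hw', s' - (s + abv (w.take i))) := by
  classical
  -- first index whose tile ends after `l s'`
  have hex : ∃ i, B.l s' < B.l (s + abv (w.take i)) := by
    refine ⟨w.length, ?_⟩
    rw [List.take_length]
    linarith
  set m := Nat.find hex with hm
  have hm1 : B.l s' < B.l (s + abv (w.take m)) := Nat.find_spec hex
  have hm0 : m ≠ 0 := by
    intro h
    rw [h, List.take_zero, abv_nil, add_zero] at hm1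
    linarith
  obtain ⟨i, hi⟩ := Nat.exists_eq_succ_of_ne_zero hm0
  rw [Nat.succ_eq_add_one] at hi
  have hmin : ¬ B.l s' < B.l (s + abv (w.take i)) := Nat.find_min hex (by omega)
  rw [not_lt] at hmin
  have hml : m ≤ w.length := by
    apply Nat.find_min' hex
    rw [List.take_length]
    linarith
  have hil : i < w.length := by omega
  rw [hi] at hm1
  have hb := B.l_ge (w'.head hw')
  have ha := B.l_ge (w[i])
  have hs : B.l (s + abv (w.take (i + 1))) = B.l (s + abv (w.take i)) + B.l (ev w[i]) := by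
    rw [abv_take_succ w i hil, ← add_assoc, map_add]
  by_cases hc : B.l s' + 1 / 8 ≤ B.l (s + abv (w.take (i + 1)))
  · refine ⟨i, hil, ?_⟩
    apply I_ge_of
    · rw [map_sub]; linarith
    · rw [map_sub]; linarith
  · rw [not_le] at hc
    have hil2 : i + 1 < w.length := by
      by_contra hcon
      have : i + 1 = w.length := by omega
      rw [this, List.take_length] at hc
      linarith
    refine ⟨i + 1, hil2, ?_⟩
    have ha2 := B.l_ge (w[i + 1])
    apply I_ge_of
    · rw [map_sub]; linarith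
    · rw [map_sub]; linarith

namespace Par

variable {B : Base} (p : Par B)

/-- the two words cannot agree with an index shift `≥ 1` -/
private theorem no_shift (a b : Ltr) (V : Vec)
    (hh : ∀ x ∈ tiles (p.sub a) 0, ∀ y ∈ tiles (p.sub b) V, 1 / 8 ≤ B.I (x.1, y.1, y.2 - x.2) →
      x.1 = y.1 ∧ |B.l (y.2 - x.2)| < p.eps1)
    (h1 : p.eps1 ≤ B.l V) (h2 : B.l V + 3 / 8 ≤ B.l (abv (p.sub a)))
    (h3 : B.l (abv (p.sub a)) ≤ B.l V + B.l (abv (p.sub b))) : False := by
  have he0 := p.eps1_pos
  have he1 := p.eps1_le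
  have hK := p.one_le_Kmk
  have hla := p.sub_length a
  have hlb := p.sub_length b
  have hne : p.sub b ≠ [] := by
    intro h
    rw [h] at hlb
    simp at hlb
  obtain ⟨i, hi, hI⟩ := first_tile B (p.sub a) (p.sub b) 0 V (by rw [map_zero]; linarith)
    (by rw [zero_add]; exact h2) hne
  have hb0 : 0 < (p.sub b).length := by omega
  have hhead : (p.sub b).head hne = (p.sub b)[0] := List.head_eq_getElem hne
  rw [hhead] at hI
  have hI2 : (1 / 8 : ℝ) ≤ B.I ((p.sub a)[i], (p.sub b)[0],
      (V + abv ((p.sub b).take 0)) - (0 + abv ((p.sub a).take i))) := by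
    rw [List.take_zero, abv_nil, add_zero]
    exact hI
  have hl : |B.l ((V + abv ((p.sub b).take 0)) - (0 + abv ((p.sub a).take i)))| < p.eps1 :=
    (hh ((p.sub a)[i], 0 + abv ((p.sub a).take i)) ((mem_tiles _ _ _).2 ⟨i, hi, rfl⟩)
      ((p.sub b)[0], V + abv ((p.sub b).take 0)) ((mem_tiles _ _ _).2 ⟨0, hb0, rfl⟩) hI2).2
  have hi1 : 1 ≤ i := by
    rcases Nat.eq_zero_or_pos i with h | h
    · exfalso
      rw [h, List.take_zero, List.take_zero, abv_nil, add_zero, add_zero, sub_zero, abs_lt] at hl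
      linarith
    · exact h
  have hd := diag B (p.sub a) (p.sub b) 0 V p.eps1 (by linarith) hh i 0 hi hb0 hI2
  -- the second word reaches the end of the first one
  have hm : (p.sub a).length ≤ i + (p.sub b).length := by
    by_contra hcon
    rw [not_le] at hcon
    -- last tile of the second word
    obtain ⟨n, hn⟩ : ∃ n, (p.sub b).length = n + 1 := ⟨(p.sub b).length - 1, by omega⟩
    obtain ⟨h4, h5⟩ := hd (i + n) n (by omega) (by omega) (by push_cast; ring)
    have h6 : abv ((p.sub b).take (n + 1)) = abv ((p.sub b).take n) + ev (p.sub b)[n] :=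
      abv_take_succ _ n (by omega)
    have h7 : abv ((p.sub a).take (i + n + 1)) = abv ((p.sub a).take (i + n)) + ev (p.sub a)[i + n] :=
      abv_take_succ _ (i + n) (by omega)
    have h8 : abv ((p.sub a).take (i + n + 1 + 1)) =
        abv ((p.sub a).take (i + n + 1)) + ev (p.sub a)[i + n + 1] :=
      abv_take_succ _ (i + n + 1) (by omega)
    have h9 : abv (p.sub a) = abv ((p.sub a).take (i + n + 1 + 1)) + abv ((p.sub a).drop (i + n + 1 + 1)) := by
      rw [← abv_append, List.take_append_drop]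
    have h10 : 0 ≤ B.l (abv ((p.sub a).drop (i + n + 1 + 1))) := by
      generalize (p.sub a).drop (i + n + 1 + 1) = u
      induction u with
      | nil => rw [abv_nil, map_zero]
      | cons a u ih =>
        rw [abv_cons, map_add]
        have := B.l_ge a
        linarith
    have h11 : abv (p.sub b) = abv ((p.sub b).take (n + 1)) := by
      rw [← hn, List.take_length]
    have h12 := B.l_ge (p.sub a)[i + n + 1]
    rw [← h5, abs_lt] at hl
    have h13 : B.l (V + abv ((p.sub b).take n) - (0 + abv ((p.sub a).take (i + n)))) =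
        B.l V + B.l (abv ((p.sub b).take n)) - B.l (abv ((p.sub a).take (i + n))) := by
      rw [map_sub, map_add, zero_add]
    rw [h13] at hl
    rw [h11, h6, h9, h8, h7, h4] at h3
    simp only [map_add] at h3
    linarith
  -- the agreement
  have hag : ∀ q : ℕ, (h1 : i + q < (p.sub a).length) → (h2 : q < (p.sub b).length) →
      (p.sub a)[i + q] = (p.sub b)[q] := by
    intro q h1 h2
    exact (hd (i + q) q h1 h2 (by push_cast; ring)).1
  by_cases hm2 : (p.sub a).length - i ≤ p.Kmk
  · -- the last letter of the first word is `1`, it agrees with a `0` of the marker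
    have h4 := hag ((p.sub a).length - 1 - i) (by omega) (by omega)
    have h5 := p.sub_last a 0 (by omega)
    have h6 := p.sub_head b ((p.sub a).length - 1 - i) (by omega)
    rw [List.getElem?_eq_getElem (by omega)] at h5 h6
    rw [Option.some.injEq] at h5 h6
    have h7 : (p.sub a)[i + ((p.sub a).length - 1 - i)]'(by omega) = (p.sub a)[(p.sub a).length - 1 - 0]'(by omega) := by
      congr 1
      omega
    rw [h7, h5, h6] at h4
    exact absurd h4 (by decide)
  · obtain ⟨q, hq, hq2, hne2⟩ := p.marker_unique a i hi1 (by omega)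
    apply hne2
    rw [hag q hq2 (by omega)]
    have h6 := p.sub_head b q hq
    rw [List.getElem?_eq_getElem (by omega), Option.some.injEq] at h6
    exact h6

private theorem Cbig_ge : 1 + 2 * p.Ct ≤ p.Cbig := by
  obtain ⟨hK0, -, -, -, hCc, -⟩ := K_pos B
  have hg := B.one_le_g
  have hkc : 0 ≤ B.kc := by unfold Base.kc; linarith
  have hCD : 0 ≤ B.CD := by unfold Base.CD Base.K7; linarith
  have hCt : 0 ≤ p.Ct := by
    unfold Par.Ct Base.CtK
    have : (0 : ℝ) ≤ (4 * p.Kmk + 10) * B.K0 := by positivity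
    linarith
  unfold Par.Cbig Base.CbK
  have h1 : B.CtK p.Kmk = p.Ct := rfl
  rw [h1]
  linarith

private theorem good_child_pos (a b : Ltr) (v : Vec) (hc : |B.c v| ≤ p.Cbig)
    (h1 : p.eps1 ≤ p.t * B.l v) (h2 : p.t * B.l v + 3 / 8 ≤ p.t * B.l (ev a))
    (h3 : B.l (ev a) ≤ B.l v + B.l (ev b)) :
    ∃ G, p.Good G ∧ (natLevel B p.N p.sub p.sub_abv).op (ind G) (a, b, v) ≠ 0 := by
  have htp : 0 < B.t0 ^ p.N := by linarith [p.t_big]
  have hlM : B.l ((B.P ^ p.N).mulVec v) = p.t * B.l v := l_Mpow B p.N v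
  have hla : B.l (abv (p.sub a)) = p.t * B.l (ev a) := by rw [sub_abv, l_Mpow]; rfl
  have hlb : B.l (abv (p.sub b)) = p.t * B.l (ev b) := by rw [sub_abv, l_Mpow]; rfl
  by_contra hcon
  apply p.no_shift a b ((B.P ^ p.N).mulVec v)
  · intro x hx y hy hxy
    by_contra hbad
    apply hcon
    have hy2 : ∃ y0 ∈ tiles (p.sub b) 0, y = (y0.1, y0.2 + (B.P ^ p.N).mulVec v) := by
      have := tiles_shift (p.sub b) 0 ((B.P ^ p.N).mulVec v)
      rw [zero_add] at this
      rw [this, List.mem_map] at hy
      obtain ⟨y0, hy0, hy1⟩ := hy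
      exact ⟨y0, hy0, hy1.symm⟩
    obtain ⟨y0, hy0, rfl⟩ := hy2
    have hchild : child (B.P ^ p.N) (a, b, v) x y0 = (x.1, y0.1, y0.2 + (B.P ^ p.N).mulVec v - x.2) := by
      unfold child
      rw [add_comm y0.2]
    refine ⟨child (B.P ^ p.N) (a, b, v) x y0, ?_, ?_⟩
    · rw [hchild]
      refine ⟨hxy, ?_, ?_⟩
      · have hx1 := (p.tube a x hx).2
        have hy1 := (p.tube b y0 hy0).2
        have hcM : B.c ((B.P ^ p.N).mulVec v) = (B.t0 ^ p.N)⁻¹ * B.c v := c_Mpow B p.N v
        have hcM2 : |B.c ((B.P ^ p.N).mulVec v)| ≤ 1 := by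
          rw [hcM, abs_mul, abs_of_pos (inv_pos.2 htp), inv_mul_le_iff₀ htp, mul_one]
          exact hc.trans p.Cbig_le
        have := p.Cbig_ge
        simp only
        rw [map_sub, map_add]
        rw [abs_le] at *
        constructor <;> linarith [hx1.1, hx1.2, hy1.1, hy1.2, hcM2.1, hcM2.2]
      · intro heq
        by_contra hlt
        rw [not_le] at hlt
        exact hbad ⟨heq, hlt⟩
    · have := natLevel_ind_ge B p.N p.sub p.sub_abv (a, b, v) hx hy0
      have h4 : 0 < (B.t0 ^ p.N)⁻¹ := inv_pos.2 htp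
      intro h5
      rw [h5] at this
      linarith
  · rw [hlM]; exact h1
  · rw [hlM, hla]; exact h2
  · rw [hlM, hla, hlb]
    have : p.t * B.l (ev a) ≤ p.t * (B.l v + B.l (ev b)) :=
      mul_le_mul_of_nonneg_left h3 htp.le
    linarith

private theorem good_child_symm (a b : Ltr) (v : Vec)
    (h : ∃ G, p.Good G ∧ (natLevel B p.N p.sub p.sub_abv).op (ind G) (b, a, -v) ≠ 0) :
    ∃ G, p.Good G ∧ (natLevel B p.N p.sub p.sub_abv).op (ind G) (a, b, v) ≠ 0 := by
  have htp : 0 < B.t0 ^ p.N := by linarith [p.t_big]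
  obtain ⟨G, hG, hG2⟩ := h
  obtain ⟨x, hx, y, hy, rfl⟩ := natLevel_ind_ne B p.N p.sub p.sub_abv _ _ hG2
  refine ⟨child (B.P ^ p.N) (a, b, v) y x, ?_, ?_⟩
  · have hneg : (B.P ^ p.N).mulVec v + x.2 - y.2 = -((B.P ^ p.N).mulVec (-v) + y.2 - x.2) := by
      rw [Matrix.mulVec_neg]
      abel
    obtain ⟨g1, g2, g3⟩ := hG
    unfold child at g1 g2 g3 ⊢
    simp only at g1 g2 g3 ⊢
    refine ⟨?_, ?_, ?_⟩
    · rw [I_symm, hneg, neg_neg]; exact g1
    · simp only; rw [hneg, map_neg, abs_neg]; exact g2
    · simp only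
      intro h
      rw [hneg, map_neg, abs_neg]
      exact g3 h.symm
  · have := natLevel_ind_ge B p.N p.sub p.sub_abv (a, b, v) hy hx
    have h4 : 0 < (B.t0 ^ p.N)⁻¹ := inv_pos.2 htp
    intro h5
    rw [h5] at this
    linarith

/-- a sliver whose zone is at least `3/8` long has a good child -/
theorem sliver_good (O : St) (h : 0 < B.I O) (h' : B.I O < 1 / 8) (hc : |B.c O.2.2| ≤ p.Cbig)
    (hz : 3 / 8 ≤ p.t * B.I O) :
    ∃ G, p.Good G ∧ (natLevel B p.N p.sub p.sub_abv).op (ind G) O ≠ 0 := by
  obtain ⟨a, b, v⟩ := O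
  have ht : (100 : ℝ) ≤ p.t := p.t_big
  have he1 := p.eps1_le
  -- the case of a positive offset
  have key : ∀ a b : Ltr, ∀ v : Vec, 0 < B.I (a, b, v) → B.I (a, b, v) < 1 / 8 → |B.c v| ≤ p.Cbig →
      3 / 8 ≤ p.t * B.I (a, b, v) → 0 ≤ B.l v →
      ∃ G, p.Good G ∧ (natLevel B p.N p.sub p.sub_abv).op (ind G) (a, b, v) ≠ 0 := by
    intro a b v h h' hc hz hl
    have ha := B.l_ge a
    have hb := B.l_ge b
    -- `I = l a - l v`
    have hI : B.I (a, b, v) = B.l (ev a) - B.l v ∧ B.l (ev a) ≤ B.l v + B.l (ev b) := by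
      unfold Base.I at h h' ⊢
      simp only at h h' ⊢
      rw [max_eq_right hl] at h h' ⊢
      rcases le_total (B.l (ev a)) (B.l v + B.l (ev b)) with h1 | h1
      · rw [min_eq_left h1] at h h' ⊢
        refine ⟨?_, h1⟩
        rw [max_eq_right]
        by_contra hcon
        rw [not_le] at hcon
        rw [max_eq_left hcon.le] at h
        exact lt_irrefl _ h
      · exfalso
        rw [min_eq_right h1] at h'
        have := lt_of_le_of_lt (le_max_right _ _) h'
        linarith
    obtain ⟨hI, h3⟩ := hI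
    rw [hI] at h' hz
    apply p.good_child_pos a b v hc
    · nlinarith
    · linarith [mul_sub p.t (B.l (ev a)) (B.l v)]
    · exact h3
  rcases le_total 0 (B.l v) with hl | hl
  · exact key a b v h h' hc hz hl
  · apply p.good_child_symm a b v
    rw [I_symm] at h h' hz
    apply key b a (-v) h h' _ hz
    · rw [map_neg]; linarith
    · rw [map_neg, abs_neg]; exact hc

/-- a trap with `t |l(v)| ≥ ε1` has a good child -/
theorem trap_good (O : St) (hab : O.1 = O.2.1) (h' : |B.l O.2.2| < p.eps1) (hc : |B.c O.2.2| ≤ p.Cbig)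
    (hz : p.eps1 ≤ p.t * |B.l O.2.2|) :
    ∃ G, p.Good G ∧ (natLevel B p.N p.sub p.sub_abv).op (ind G) O ≠ 0 := by
  obtain ⟨a, b, v⟩ := O
  simp only at hab h' hc hz
  subst hab
  have ht : (100 : ℝ) ≤ p.t := p.t_big
  have he1 := p.eps1_le
  have ha := B.l_ge a
  rcases le_total 0 (B.l v) with hl | hl
  · rw [abs_of_nonneg hl] at h' hz
    apply p.good_child_pos a a v hc hz
    · nlinarith
    · linarith
  · apply p.good_child_symm a a v
    rw [abs_of_nonpos hl] at h' hz
    apply p.good_child_pos a a (-v)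
    · rw [map_neg, abs_neg]; exact hc
    · rw [map_neg]; exact hz
    · rw [map_neg]; nlinarith
    · rw [map_neg]; linarith

end Par

end Pool.Agent.RS69
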