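import Pool.Agent.RS69.DPar2
import Pool.Agent.RS69.Op3
import Pool.Agent.RS69.DFull
import Pool.Agent.RS69.DNgc1

/-!
# RS69.DNgc2 : property (N) of the design (section 9.6)

`sliver_child`: the only overlapping child is (last letter, first letter) = `(1,0)` (or `(0,1)` if `l(v) < 0`).
`trap_child`: the overlapping children are `(x_i,x_i,Mv)` and slivers `(x_{i+1},x_i,Mv-e_{x_i})` (if `l(Mv) > 0`)
or `(x_i,x_{i+1},Mv+e_{x_i})` (if `l(Mv) < 0`).
-/

set_option autoImplicit false

namespace Pool.Agent.RS69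

namespace DNgc2

theorem l_abv_nonneg (B : Base) (w : List Ltr) : 0 ≤ B.l (abv w) := by
  induction w with
  | nil => rw [abv_nil, map_zero]
  | cons a w ih =>
    rw [abv_cons, map_add]
    have := B.l_ge a
    linarith

theorem tile_bounds (B : Base) (w : List Ltr) (s : Vec) (x : Ltr × Vec) (hx : x ∈ tiles w s) :
    B.l s ≤ B.l x.2 ∧ B.l x.2 + B.l (ev x.1) ≤ B.l (s + abv w) := by
  induction w generalizing s with
  | nil => simp [tiles] at hx
  | cons a w ih =>
    have h1 := l_abv_nonneg B w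
    have h2 := B.l_ge a
    rw [tiles, List.mem_cons] at hx
    rw [abv_cons, ← add_assoc]
    rcases hx with rfl | hx
    · refine ⟨le_rfl, ?_⟩
      rw [map_add, map_add]
      linarith
    · obtain ⟨h3, h4⟩ := ih _ hx
      refine ⟨?_, h4⟩
      rw [map_add] at h3
      linarith

theorem norm_z_ev (B : Base) (a : Ltr) : ‖B.z (ev a)‖ ≤ B.K0 := by
  have h1 : ‖B.z (ev a)‖ ≤ ∑ a, ‖B.z (ev a)‖ :=
    Finset.single_le_sum (f := fun a => ‖B.z (ev a)‖) (fun _ _ => norm_nonneg _) (Finset.mem_univ a)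
  have h2 : ∑ a, ‖B.z (ev a)‖ ≤ max (∑ a, ‖B.z (ev a)‖) (∑ a, |B.c (ev a)|) := le_max_left _ _
  have h3 : 0 ≤ ‖B.z (ev a)‖ := norm_nonneg _
  unfold Base.K0
  linarith

theorem abs_c_ev (B : Base) (a : Ltr) : |B.c (ev a)| ≤ B.K0 := by
  have h1 : |B.c (ev a)| ≤ ∑ a, |B.c (ev a)| :=
    Finset.single_le_sum (f := fun a => |B.c (ev a)|) (fun _ _ => abs_nonneg _) (Finset.mem_univ a)
  have h2 : ∑ a, |B.c (ev a)| ≤ max (∑ a, ‖B.z (ev a)‖) (∑ a, |B.c (ev a)|) := le_max_right _ _
  have h3 : 0 ≤ |B.c (ev a)| := abs_nonneg _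
  unfold Base.K0
  linarith

theorem take_mono (B : Base) (w : List Ltr) {i j : ℕ} (h : i ≤ j) :
    B.l (abv (w.take i)) ≤ B.l (abv (w.take j)) := by
  have h1 : w.take j = w.take i ++ (w.take j).drop i := by
    have h2 := List.take_append_drop i (w.take j)
    rw [List.take_take, min_eq_left h] at h2
    exact h2.symm
  rw [h1, abv_append, map_add]
  linarith [l_abv_nonneg B ((w.take j).drop i)]

theorem take_succ' (w : List Ltr) {i : ℕ} (h : i < w.length) :
    abv (w.take (i + 1)) = abv (w.take i) + ev w[i] := by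
  rw [List.take_succ_eq_append_getElem h, abv_append, abv_singleton]

/-- a sliver with positive offset -/
theorem I_sliver_pos (B : Base) (O : St) (h : 0 < B.I O) (h' : B.I O < 1 / 8) (hl : 0 < B.l O.2.2) :
    B.I O = B.l (ev O.1) - B.l O.2.2 := by
  have h1 := B.l_ge O.2.1
  unfold Base.I at h h' ⊢
  rw [max_eq_right hl.le] at h h' ⊢
  rcases le_total (B.l (ev O.1)) (B.l O.2.2 + B.l (ev O.2.1)) with h2 | h2
  · rw [min_eq_left h2] at h h' ⊢
    rcases le_total 0 (B.l (ev O.1) - B.l O.2.2) with h3 | h3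
    · rw [max_eq_right h3]
    · rw [max_eq_left h3] at h
      exact absurd h (lt_irrefl _)
  · rw [min_eq_right h2] at h'
    have h3 := (le_max_right 0 (B.l O.2.2 + B.l (ev O.2.1) - B.l O.2.2)).trans_lt h'
    linarith

/-- a sliver with nonpositive offset -/
theorem I_sliver_neg (B : Base) (O : St) (h : 0 < B.I O) (h' : B.I O < 1 / 8) (hl : B.l O.2.2 ≤ 0) :
    B.I O = B.l O.2.2 + B.l (ev O.2.1) := by
  have h1 := B.l_ge O.1
  unfold Base.I at h h' ⊢
  rw [max_eq_left hl, sub_zero] at h h' ⊢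
  rcases le_total (B.l (ev O.1)) (B.l O.2.2 + B.l (ev O.2.1)) with h2 | h2
  · rw [min_eq_left h2] at h'
    have h3 := (le_max_right 0 (B.l (ev O.1))).trans_lt h'
    linarith
  · rw [min_eq_right h2] at h h' ⊢
    rcases le_total 0 (B.l O.2.2 + B.l (ev O.2.1)) with h3 | h3
    · rw [max_eq_right h3]
    · rw [max_eq_left h3] at h
      exact absurd h (lt_irrefl _)

/-- a state with offset `|l(v)| ≤ 1/100` is not a sliver -/
theorem I_small_offset (B : Base) (O : St) (hl : |B.l O.2.2| ≤ 1 / 100) : 1 / 8 ≤ B.I O := by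
  have h1 := B.l_ge O.1
  have h2 := B.l_ge O.2.1
  rw [abs_le] at hl
  refine le_trans ?_ (le_max_right _ _)
  have h3 : max 0 (B.l O.2.2) ≤ 1 / 100 := max_le (by norm_num) hl.2
  have h4 : 1 - 1 / 100 ≤ min (B.l (ev O.1)) (B.l O.2.2 + B.l (ev O.2.1)) :=
    le_min (by linarith) (by linarith [hl.1])
  linarith

end DNgc2

open DNgc2

namespace Par

variable {B : Base} (p : Par B)

theorem Cbig_ge : 2 * B.K0 ≤ p.Cbig := by
  obtain ⟨h1, -, -, -, h5, -⟩ := K_pos B
  have hg := B.one_le_g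
  have hK7 : 0 ≤ B.K7 := by unfold Base.K7; linarith
  have hCD : 0 ≤ B.CD := by unfold Base.CD; linarith
  have hkc : 5 * B.K0 ≤ B.kc := by unfold Base.kc; linarith
  have hCt : 0 ≤ B.CtK p.Kmk := by
    unfold Base.CtK
    have : 0 ≤ (4 * (p.Kmk : ℝ) + 10) * B.K0 := by positivity
    linarith
  unfold Par.Cbig Base.CbK
  linarith

/-- the small vector -/
theorem gv_prop (O : St) (h : 0 < B.I O) (hn : ¬ Coin O) (hb : ¬ p.Good O) (hc : |B.c O.2.2| ≤ p.Cbig) :
    p.gv O ≠ 0 ∧ |B.l (p.gv O)| ≤ 1 ∧ ‖B.z (p.gv O) - B.z O.2.2‖ ≤ B.K0 ∧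
      |B.c (p.gv O) - B.c O.2.2| ≤ B.K0 := by
  have hK0 := (K_pos B).1
  unfold Par.gv
  by_cases hI : 1 / 8 ≤ B.I O
  · rw [if_pos hI]
    have h1 : O.1 = O.2.1 ∧ |B.l O.2.2| < p.eps1 := by
      by_contra hcon
      apply hb
      refine ⟨hI, hc, fun h2 => ?_⟩
      by_contra h3
      exact hcon ⟨h2, not_le.1 h3⟩
    refine ⟨fun h2 => hn ⟨h1.1, h2⟩, ?_, ?_, ?_⟩
    · have := p.eps1_le
      linarith [h1.2]
    · rw [sub_self, norm_zero]
      exact hK0
    · rw [sub_self, abs_zero]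
      exact hK0
  · rw [if_neg hI]
    rw [not_le] at hI
    by_cases hl : 0 < B.l O.2.2
    · rw [if_pos hl]
      have h1 := I_sliver_pos B O h hI hl
      rw [h1] at h hI
      refine ⟨?_, ?_, ?_, ?_⟩
      · intro h2
        have h3 : B.l (O.2.2 - ev O.1) = 0 := by rw [h2, map_zero]
        rw [map_sub] at h3
        linarith
      · rw [map_sub, abs_le]
        constructor <;> linarith
      · rw [map_sub, sub_sub_cancel_left, norm_neg]
        exact norm_z_ev B _
      · rw [map_sub, sub_sub_cancel_left, abs_neg]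
        exact abs_c_ev B _
    · rw [if_neg hl]
      have h1 := I_sliver_neg B O h hI (not_lt.1 hl)
      rw [h1] at h hI
      refine ⟨?_, ?_, ?_, ?_⟩
      · intro h2
        have h3 : B.l (O.2.2 + ev O.2.1) = 0 := by rw [h2, map_zero]
        rw [map_add] at h3
        linarith
      · rw [map_add, abs_le]
        constructor <;> linarith
      · rw [map_add, add_sub_cancel_left]
        exact norm_z_ev B _
      · rw [map_add, add_sub_cancel_left]
        exact abs_c_ev B _

/-- a sliver with zone `< 3/8`: one overlapping child -/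
theorem sliver_child (O O' : St) (h : 0 < B.I O) (hz : p.t * B.I O < 3 / 8)
    (hI : 0 < B.I O') (hO' : (natLevel B p.N p.sub p.sub_abv).op (ind O') O ≠ 0)
    (hb : ¬ p.Good O') (hc : |B.c O.2.2| ≤ p.Cbig) :
    ¬ Coin O' ∧ p.gv O' = (B.P ^ p.N).mulVec (p.gv O) := by
  obtain ⟨a, b, v⟩ := O
  have ht : 100 ≤ p.t := p.t_big
  have ht0 : 0 < p.t := by linarith
  have htt : B.t0 ^ p.N = p.t := rfl
  have hK0 := (K_pos B).1
  have hCb := p.Cbig_ge
  have hIs : B.I (a, b, v) < 1 / 8 := by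
    have : 100 * B.I (a, b, v) ≤ p.t * B.I (a, b, v) := mul_le_mul_of_nonneg_right ht h.le
    linarith
  obtain ⟨x, hx, y, hy, rfl⟩ := natLevel_ind_ne B p.N p.sub p.sub_abv _ O' hO'
  have hI' := hI
  rw [I_pos_iff] at hI'
  obtain ⟨hi1, hi2⟩ := hI'
  simp only [child] at hi1 hi2 hx hy
  rw [map_sub, map_add, l_Mpow, htt] at hi1 hi2
  have bx := tile_bounds B _ _ x hx
  have byy := tile_bounds B _ _ y hy
  rw [map_zero, zero_add, p.sub_abv, l_Mpow, htt] at bx byy
  -- the bound for `c` of a child of the form `M u ± e`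
  have hcc : ∀ u : Vec, |B.c u| ≤ p.Cbig + B.K0 → ∀ e : Vec, |B.c e| ≤ B.K0 →
      |B.c ((B.P ^ p.N).mulVec u + e)| ≤ p.Cbig := by
    intro u hu e he
    rw [map_add, c_Mpow, htt]
    have h1 : |p.t⁻¹ * B.c u| ≤ (p.Cbig + B.K0) / 100 := by
      rw [abs_mul, abs_of_pos (inv_pos.2 ht0), div_eq_inv_mul]
      have h2 : p.t⁻¹ ≤ 100⁻¹ := inv_anti₀ (by norm_num) ht
      exact mul_le_mul h2 hu (abs_nonneg _) (by norm_num)
    refine (abs_add_le _ _).trans ?_
    linarith
  by_cases hl : 0 < B.l v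
  · have hIv : B.I (a, b, v) = B.l (ev a) - B.l v := I_sliver_pos B _ h hIs hl
    rw [hIv, mul_sub] at hz
    obtain ⟨w, hw⟩ := p.sub_last1 a
    obtain ⟨w', hw'⟩ := p.sub_head0 b
    have hab : abv w = (B.P ^ p.N).mulVec (ev a) - ev 1 := by
      rw [← p.sub_abv, hw, abv_append, abv_singleton, add_sub_cancel_right]
    -- `x` is the last tile
    have hx' : x = (1, abv w) := by
      rw [hw, tiles_append, List.mem_append] at hx
      rcases hx with hx | hx
      · exfalso
        have h1 := (tile_bounds B _ _ x hx).2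
        rw [zero_add, hab, map_sub, l_Mpow, htt] at h1
        have h2 := B.l_ge 1
        linarith [byy.1]
      · simpa [tiles] using hx
    have hy' : y = (0, 0) := by
      rw [hw', tiles, List.mem_cons] at hy
      rcases hy with hy | hy
      · exact hy
      · exfalso
        have h1 := (tile_bounds B _ _ y hy).1
        rw [zero_add] at h1
        have h2 := B.l_ge 0
        linarith [bx.2]
    subst hx'
    subst hy'
    have hO : child (B.P ^ p.N) (a, b, v) (1, abv w) (0, 0) =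
        ((1 : Ltr), (0 : Ltr), (B.P ^ p.N).mulVec (v - ev a) + ev 1) := by
      simp only [child]
      rw [hab, Matrix.mulVec_sub]
      congr 2
      abel
    rw [hO] at hI hb ⊢
    have hlc : B.l ((B.P ^ p.N).mulVec (v - ev a) + ev 1) =
        p.t * B.l v - p.t * B.l (ev a) + B.l (ev 1) := by
      rw [map_add, l_Mpow, htt, map_sub, mul_sub]
    have hI8 : ¬ 1 / 8 ≤ B.I ((1 : Ltr), (0 : Ltr), (B.P ^ p.N).mulVec (v - ev a) + ev 1) := by
      intro h8
      apply hb
      refine ⟨h8, ?_, fun h10 => absurd (show (1 : Ltr) = 0 from h10) (by decide)⟩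
      refine hcc _ ?_ _ (abs_c_ev B 1)
      rw [map_sub]
      exact (abs_sub _ _).trans (add_le_add hc (abs_c_ev B a))
    refine ⟨fun hco => absurd (show (1 : Ltr) = 0 from hco.1) (by decide), ?_⟩
    have h9 : 0 < B.l ((B.P ^ p.N).mulVec (v - ev a) + ev 1) := by
      rw [hlc]
      have := B.l_ge 1
      linarith
    unfold Par.gv
    rw [if_neg hI8, if_neg (not_le.2 hIs), if_pos h9, if_pos hl, add_sub_cancel_right]
  · have hl' := not_lt.1 hl
    have hIv : B.I (a, b, v) = B.l v + B.l (ev b) := I_sliver_neg B _ h hIs hl'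
    rw [hIv, mul_add] at hz
    obtain ⟨w, hw⟩ := p.sub_last1 b
    obtain ⟨w', hw'⟩ := p.sub_head0 a
    have hab : abv w = (B.P ^ p.N).mulVec (ev b) - ev 1 := by
      rw [← p.sub_abv, hw, abv_append, abv_singleton, add_sub_cancel_right]
    have hy' : y = (1, abv w) := by
      rw [hw, tiles_append, List.mem_append] at hy
      rcases hy with hy | hy
      · exfalso
        have h1 := (tile_bounds B _ _ y hy).2
        rw [zero_add, hab, map_sub, l_Mpow, htt] at h1
        have h2 := B.l_ge 1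
        linarith [bx.1]
      · simpa [tiles] using hy
    have hx' : x = (0, 0) := by
      rw [hw', tiles, List.mem_cons] at hx
      rcases hx with hx | hx
      · exact hx
      · exfalso
        have h1 := (tile_bounds B _ _ x hx).1
        rw [zero_add] at h1
        have h2 := B.l_ge 0
        linarith [byy.2]
    subst hx'
    subst hy'
    have hO : child (B.P ^ p.N) (a, b, v) (0, 0) (1, abv w) =
        ((0 : Ltr), (1 : Ltr), (B.P ^ p.N).mulVec (v + ev b) + (- ev 1)) := by
      simp only [child]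
      rw [hab, Matrix.mulVec_add]
      congr 2
      abel
    rw [hO] at hI hb ⊢
    have hlc : B.l ((B.P ^ p.N).mulVec (v + ev b) + (- ev 1)) =
        p.t * B.l v + p.t * B.l (ev b) - B.l (ev 1) := by
      rw [map_add, map_neg, l_Mpow, htt, map_add, mul_add]
      ring
    have hI8 : ¬ 1 / 8 ≤ B.I ((0 : Ltr), (1 : Ltr), (B.P ^ p.N).mulVec (v + ev b) + (- ev 1)) := by
      intro h8
      apply hb
      refine ⟨h8, ?_, fun h10 => absurd (show (0 : Ltr) = 1 from h10) (by decide)⟩
      refine hcc _ ?_ _ (by rw [map_neg, abs_neg]; exact abs_c_ev B 1)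
      rw [map_add]
      exact (abs_add_le _ _).trans (add_le_add hc (abs_c_ev B b))
    refine ⟨fun hco => absurd (show (0 : Ltr) = 1 from hco.1) (by decide), ?_⟩
    have h9 : ¬ 0 < B.l ((B.P ^ p.N).mulVec (v + ev b) + (- ev 1)) := by
      rw [hlc]
      have := B.l_ge 1
      linarith
    unfold Par.gv
    rw [if_neg hI8, if_neg (not_le.2 hIs), if_neg h9, if_neg hl, neg_add_cancel_right]

/-- a deep trap: children are traps and slivers with the same small vector -/
theorem trap_child (O O' : St) (hab : O.1 = O.2.1) (hv : O.2.2 ≠ 0) (hz : p.t * |B.l O.2.2| < p.eps1)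
    (hI : 0 < B.I O') (hO' : (natLevel B p.N p.sub p.sub_abv).op (ind O') O ≠ 0) :
    ¬ Coin O' ∧ p.gv O' = (B.P ^ p.N).mulVec (p.gv O) := by
  obtain ⟨a, b, v⟩ := O
  simp only at hab hv hz
  subst hab
  have ht : 100 ≤ p.t := p.t_big
  have ht0 : 0 < p.t := by linarith
  have htt : B.t0 ^ p.N = p.t := rfl
  have he1 := p.eps1_le
  obtain ⟨x, hx, y, hy, rfl⟩ := natLevel_ind_ne B p.N p.sub p.sub_abv _ O' hO'
  obtain ⟨d, hd⟩ : ∃ d : ℝ, d = p.t * B.l v := ⟨_, rfl⟩
  have hd1 : |d| < 1 / 100 := by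
    rw [hd, abs_mul, abs_of_pos ht0]
    linarith
  have hd2 := abs_lt.1 hd1
  have hgO : p.gv (a, a, v) = v := by
    have h1 : |B.l v| ≤ 1 / 100 := by
      have h2 : |B.l v| ≤ |d| := by
        rw [hd, abs_mul, abs_of_pos ht0]
        exact le_mul_of_one_le_left (abs_nonneg _) (by linarith)
      linarith
    unfold Par.gv
    rw [if_pos (I_small_offset B (a, a, v) h1)]
  have hMv : (B.P ^ p.N).mulVec v ≠ 0 := by
    intro h1
    apply hv
    have h2 := M_inv_mul B p.N v
    rw [h1, Matrix.mulVec_zero] at h2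
    exact h2.symm
  rw [hgO]
  rw [I_pos_iff] at hI
  obtain ⟨hi1, hi2⟩ := hI
  simp only [child] at hi1 hi2 hx hy
  rw [map_sub, map_add, l_Mpow, htt, ← hd] at hi1 hi2
  obtain ⟨i, hi, rfl⟩ := (mem_tiles _ _ _).1 hx
  obtain ⟨j, hj, rfl⟩ := (mem_tiles _ _ _).1 hy
  simp only [zero_add] at hi1 hi2
  obtain ⟨w, hw⟩ : ∃ w, w = p.sub a := ⟨_, rfl⟩
  have hlM : B.l ((B.P ^ p.N).mulVec v) = d := by rw [l_Mpow, htt, hd]
  have hO : child (B.P ^ p.N) (a, a, v) ((p.sub a)[i], 0 + abv ((p.sub a).take i))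
      ((p.sub a)[j], 0 + abv ((p.sub a).take j)) =
      ((p.sub a)[i], (p.sub a)[j],
        (B.P ^ p.N).mulVec v + abv ((p.sub a).take j) - abv ((p.sub a).take i)) := by
    simp only [child, zero_add]
  rw [hO]
  rcases lt_trichotomy i j with hij | hij | hij
  · -- `j = i + 1`
    have hji : j = i + 1 := by
      by_contra hcon
      have h1 : i + 2 ≤ j := by omega
      have h2 := take_mono B (p.sub a) h1
      have h3 : i + 1 < (p.sub a).length := by omega
      rw [take_succ' _ h3, map_add, take_succ' _ hi, map_add] at h2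
      have h4 := B.l_ge (p.sub a)[i + 1]
      linarith
    subst hji
    have e1 : (B.P ^ p.N).mulVec v + abv ((p.sub a).take (i + 1)) - abv ((p.sub a).take i) =
        (B.P ^ p.N).mulVec v + ev (p.sub a)[i] := by
      rw [take_succ' _ hi]
      abel
    rw [e1]
    have h5 := B.l_ge (p.sub a)[i]
    have e2 : B.l ((B.P ^ p.N).mulVec v + ev (p.sub a)[i]) = d + B.l (ev (p.sub a)[i]) := by
      rw [map_add, hlM]
    have h6 : 0 < B.l ((B.P ^ p.N).mulVec v + ev (p.sub a)[i]) := by
      rw [e2]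
      linarith [hd2.1]
    have h7 : ¬ 1 / 8 ≤ B.I ((p.sub a)[i], (p.sub a)[i + 1],
        (B.P ^ p.N).mulVec v + ev (p.sub a)[i]) := by
      rw [not_le]
      unfold Base.I
      refine max_lt (by norm_num) ?_
      simp only
      rw [max_eq_right h6.le, e2]
      have h8 := min_le_left (B.l (ev (p.sub a)[i]))
        (d + B.l (ev (p.sub a)[i]) + B.l (ev (p.sub a)[i + 1]))
      linarith [hd2.1]
    refine ⟨fun hco => ?_, ?_⟩
    · have h8 : (B.P ^ p.N).mulVec v + ev (p.sub a)[i] = 0 := hco.2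
      rw [h8, map_zero] at h6
      exact absurd h6 (lt_irrefl _)
    · unfold Par.gv
      rw [if_neg h7, if_pos h6, add_sub_cancel_right]
  · subst hij
    rw [add_sub_cancel_right]
    refine ⟨fun hco => hMv hco.2, ?_⟩
    unfold Par.gv
    rw [if_pos (I_small_offset B _ ?_)]
    simp only
    rw [hlM]
    exact hd1.le
  · have hji : i = j + 1 := by
      by_contra hcon
      have h1 : j + 2 ≤ i := by omega
      have h2 := take_mono B (p.sub a) h1
      have h3 : j + 1 < (p.sub a).length := by omega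
      rw [take_succ' _ h3, map_add, take_succ' _ hj, map_add] at h2
      have h4 := B.l_ge (p.sub a)[j + 1]
      linarith
    subst hji
    have e1 : (B.P ^ p.N).mulVec v + abv ((p.sub a).take j) - abv ((p.sub a).take (j + 1)) =
        (B.P ^ p.N).mulVec v - ev (p.sub a)[j] := by
      rw [take_succ' _ hj]
      abel
    rw [e1]
    have h5 := B.l_ge (p.sub a)[j]
    have e2 : B.l ((B.P ^ p.N).mulVec v - ev (p.sub a)[j]) = d - B.l (ev (p.sub a)[j]) := by
      rw [map_sub, hlM]
    have h6 : B.l ((B.P ^ p.N).mulVec v - ev (p.sub a)[j]) < 0 := by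
      rw [e2]
      linarith [hd2.2]
    have h7 : ¬ 1 / 8 ≤ B.I ((p.sub a)[j + 1], (p.sub a)[j],
        (B.P ^ p.N).mulVec v - ev (p.sub a)[j]) := by
      rw [not_le]
      unfold Base.I
      refine max_lt (by norm_num) ?_
      simp only
      rw [max_eq_left h6.le, e2]
      have h8 := min_le_right (B.l (ev (p.sub a)[j + 1]))
        (d - B.l (ev (p.sub a)[j]) + B.l (ev (p.sub a)[j]))
      linarith [hd2.2]
    refine ⟨fun hco => ?_, ?_⟩
    · have h8 : (B.P ^ p.N).mulVec v - ev (p.sub a)[j] = 0 := hco.2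
      rw [h8, map_zero] at h6
      exact absurd h6 (lt_irrefl _)
    · unfold Par.gv
      rw [if_neg h7, if_neg h6.not_gt, sub_add_cancel]

/-- (N) -/
theorem ngc (O O' : St) (h : 0 < B.I O) (hn : ¬ Coin O) (hc : |B.c O.2.2| ≤ p.Cbig)
    (hg : ∀ G, p.Good G → (natLevel B p.N p.sub p.sub_abv).op (ind G) O = 0)
    (hI : 0 < B.I O') (hO' : (natLevel B p.N p.sub p.sub_abv).op (ind O') O ≠ 0) :
    ¬ Coin O' ∧ p.gv O' = (B.P ^ p.N).mulVec (p.gv O) := by
  have hb' : ¬ p.Good O' := fun h1 => hO' (hg O' h1)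
  -- `O` is not good
  have hb : ¬ p.Good O := by
    intro hO
    obtain ⟨G, hG, hG1, hG2⟩ := p.dense (B.w0 ^ p.N * B.z O.2.2)
    have hg1 := B.one_le_g
    have hK0 := (K_pos B).1
    have h1 : |B.c G.2.2| ≤ B.Cc := by
      refine hG2.trans ?_
      unfold Base.Cc Base.kc
      linarith
    have h2 := p.full O G hO (lt_of_lt_of_le (by norm_num) hG.1) (by linarith) h1
    rw [hg G hG] at h2
    have h3 : 0 < (B.t0 ^ p.N)⁻¹ := inv_pos.2 (pow_pos (by linarith [B.one_lt_t0]) _)
    linarith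
  by_cases h8 : 1 / 8 ≤ B.I O
  · have h1 : O.1 = O.2.1 ∧ |B.l O.2.2| < p.eps1 := by
      by_contra hcon
      apply hb
      refine ⟨h8, hc, fun h2 => ?_⟩
      by_contra h3
      exact hcon ⟨h2, not_le.1 h3⟩
    have h2 : p.t * |B.l O.2.2| < p.eps1 := by
      by_contra h3
      obtain ⟨G, hG, hG'⟩ := p.trap_good O h1.1 h1.2 hc (not_lt.1 h3)
      exact hG' (hg G hG)
    exact p.trap_child O O' h1.1 (fun h3 => hn ⟨h1.1, h3⟩) h2 hI hO'
  · have h2 : p.t * B.I O < 3 / 8 := by
      by_contra h3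
      obtain ⟨G, hG, hG'⟩ := p.sliver_good O h (not_le.1 h8) hc (not_lt.1 h3)
      exact hG' (hg G hG)
    exact p.sliver_child O O' h h2 hI hO' hb' hc

end Par

end Pool.Agent.RS69
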