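import Pool.Agent.RS69.DSteer
import Pool.Agent.RS69.DNgc2
import Pool.Agent.RS69.DExist3

/-!
# RS69.DDesign : assembly of the design
(`N, σ := p.sub`, `Zt, Ct, Cbig` of `Par`, `Z3 := B.Z3`, `A := 32 T2`, `Good := p.Good`, `gv := p.gv`, `Cg := B.K0`)
-/

set_option autoImplicit false

namespace Pool.Agent.RS69

theorem exists_design (B : Base) : Nonempty (Design B) := by
  obtain ⟨p⟩ := exists_par B
  obtain ⟨hK0, -, -, -, hCc, -⟩ := Par.K_pos B
  have hg := B.one_le_g
  have hZD : 0 ≤ B.ZD := by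
    unfold Base.ZD Base.Z3 Base.K7; linarith
  have hCD : 0 ≤ B.CD := by
    unfold Base.CD Base.K7; linarith
  have hT2 : (1 : ℝ) ≤ p.T2 := by exact_mod_cast p.one_le_T2
  have hZ3 : 0 ≤ B.Z3 := by unfold Base.Z3 Base.K7; linarith
  exact ⟨{
    N := p.N
    one_le_N := p.one_le_N
    σ := p.sub
    ab := p.sub_abv
    Mpos := p.Mpos
    t_big := p.t_big
    head0 := p.sub_head0
    last1 := p.sub_last1
    Zt := p.Zt
    Ct := p.Ct
    Zt_nonneg := by unfold Par.Zt Base.ZtK; positivity
    Ct_nonneg := by unfold Par.Ct Base.CtK; positivity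
    tube := p.tube
    Cbig := p.Cbig
    Z3 := B.Z3
    A := 32 * p.T2
    two_le_A := by linarith
    A_pow := p.A_pow
    Z3_nonneg := hZ3
    Cbig_ge := le_refl _
    Cbig_le := p.Cbig_le
    Good := p.Good
    good_I := fun O h => h.1
    good_nc := p.good_nc
    good_c := fun O h => h.2.1
    full := p.full
    dense := p.dense
    steer := fun O s hO hs G hG0 hG => p.steer O s hO hs G hG0 hG
    gv := p.gv
    Cg := B.K0
    gv_prop := fun O h hn hb hc => p.gv_prop O h hn hb hc
    ngc := fun O O' h hn hc hg hI hO' => p.ngc O O' h hn hc hg hI hO' }⟩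

end Pool.Agent.RS69
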