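import Mathlib

/-!
# RS69.DExist1 : coded sequences (section 9.3), union bound

Count the bad functions `X : Fin n → Fin d`.  For given `α, β, K ≠ 0, s1` the pairs `(s, s+K)` with
`s ∈ [s1, s1+T2)`, `⌊(s - s1)/|K|⌋` even, are pairwise disjoint, and there are `≥ T2/2 - ..≥ T2/3` of them, so at
most `d^n (1 - 1/d²)^{T2/3}` functions are bad; there are `≤ d² (2n+1) n` choices; `T2 = (log₂ n)²`.
-/

set_option autoImplicit false

namespace Pool.Agent.RS69

/-- Functions avoiding a fixed value on `m` disjoint pairs of places. -/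
private lemma card_avoid {D : Type*} [Fintype D] [DecidableEq D] {n m : ℕ} (f : Fin m × Bool → Fin n)
    (hf : Function.Injective f) (q0 : D × D) :
    (Finset.univ.filter fun X : Fin n → D =>
      ∀ i, (X (f (i, false)), X (f (i, true))) ≠ q0).card ≤
      (Fintype.card D ^ 2 - 1) ^ m * Fintype.card D ^ (n - 2 * m) := by
  classical
  have h1 : Fintype.card ((Fin m → {q : D × D // q ≠ q0}) ×
      ({j : Fin n // j ∉ Set.range f} → D)) =
      (Fintype.card D ^ 2 - 1) ^ m * Fintype.card D ^ (n - 2 * m) := by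
    rw [Fintype.card_prod, Fintype.card_fun, Fintype.card_fun, Fintype.card_fin]
    congr 1
    · congr 1
      rw [Fintype.card_subtype_compl, Fintype.card_prod, Fintype.card_subtype_eq, sq]
    · congr 1
      have h2 : Fintype.card {j : Fin n // j ∉ Set.range f} =
          Fintype.card (Fin n) - Fintype.card {j : Fin n // j ∈ Set.range f} :=
        Fintype.card_subtype_compl _
      have h3 : Fintype.card {j : Fin n // j ∈ Set.range f} = Fintype.card (Fin m × Bool) :=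
        (Fintype.card_congr (Equiv.ofInjective f hf)).symm
      rw [h2, h3, Fintype.card_prod, Fintype.card_fin, Fintype.card_fin, Fintype.card_bool,
        mul_comm]
  rw [← h1, ← Fintype.card_coe]
  refine Fintype.card_le_of_injective
    (fun X => (fun i => ⟨(X.1 (f (i, false)), X.1 (f (i, true))),
      (Finset.mem_filter.1 X.2).2 i⟩, fun j => X.1 j.1)) ?_
  rintro ⟨X, hX⟩ ⟨Y, hY⟩ h
  apply Subtype.ext
  funext j
  rw [Prod.mk.injEq] at h
  by_cases hj : j ∈ Set.range f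
  · obtain ⟨⟨i, b⟩, rfl⟩ := hj
    have h2 := congrArg Subtype.val (congrFun h.1 i)
    simp only [Prod.mk.injEq] at h2
    cases b
    · exact h2.1
    · exact h2.2
  · exact congrFun h.2 ⟨j, hj⟩

/-- the places `i + k ⌊i / k⌋` -/
private lemma places {k i j : ℕ} (hk : 0 < k) (h : i + k * (i / k) = j + k * (j / k) + k) : False := by
  have h1 := Nat.div_add_mod i k
  have h2 := Nat.div_add_mod j k
  have h3 := Nat.mod_lt i hk
  have h4 := Nat.mod_lt j hk
  -- `2 k a + r = 2 k b + s + k`, `r, s < k`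
  set a := i / k
  set b := j / k
  have h5 : 2 * (k * a) + i % k = 2 * (k * b) + j % k + k := by omega
  rcases lt_trichotomy a b with hab | hab | hab
  · have : k * (a + 1) ≤ k * b := Nat.mul_le_mul_left k hab
    rw [mul_add, mul_one] at this
    omega
  · rw [hab] at h5
    omega
  · have : k * (b + 1) ≤ k * a := Nat.mul_le_mul_left k hab
    rw [mul_add, mul_one] at this
    omega

private lemma places_inj {k i j : ℕ} (h : i + k * (i / k) = j + k * (j / k)) : i = j := by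
  rcases lt_trichotomy i j with hij | hij | hij
  · have : k * (i / k) ≤ k * (j / k) := Nat.mul_le_mul_left k (Nat.div_le_div_right hij.le)
    omega
  · exact hij
  · have : k * (j / k) ≤ k * (i / k) := Nat.mul_le_mul_left k (Nat.div_le_div_right hij.le)
    omega

/-- finite form -/
private lemma exists_X_fin {D : Type*} [Fintype D] [DecidableEq D] [Nonempty D] (n T : ℕ)
    (hT : 1 ≤ T)
    (h : (n : ℝ) ^ 2 * (Fintype.card D : ℝ) ^ 2 * (1 - 1 / (Fintype.card D : ℝ) ^ 2) ^ (T / 2) < 1) :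
    ∃ X : ℕ → D, ∀ t1 t2 : ℕ, t1 ≠ t2 → t1 + T ≤ n → t2 + T ≤ n → ∀ α ρ : D,
      ∃ s < T, X (t1 + s) = α ∧ X (t2 + s) = ρ := by
  classical
  obtain ⟨d0⟩ := ‹Nonempty D›
  have : Nonempty D := ⟨d0⟩
  set c := Fintype.card D with hc
  have hc1 : 1 ≤ c := Fintype.card_pos
  set m := T / 2 with hm
  by_contra hcon
  push Not at hcon
  -- bad sets
  let idx : Finset (ℕ × ℕ × (D × D)) := ((Finset.range n ×ˢ (Finset.range n ×ˢ Finset.univ)).filter
    fun q => q.1 ≠ q.2.1 ∧ q.1 + T ≤ n ∧ q.2.1 + T ≤ n)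
  let bad : ℕ × ℕ × (D × D) → Finset (Fin n → D) := fun q => Finset.univ.filter fun X =>
    ∀ s < T, ∀ (h1 : q.1 + s < n) (h2 : q.2.1 + s < n),
      (X ⟨q.1 + s, h1⟩, X ⟨q.2.1 + s, h2⟩) ≠ q.2.2
  have hcov : (Finset.univ : Finset (Fin n → D)) ⊆ idx.biUnion bad := by
    intro X _
    obtain ⟨t1, t2, hne, h1, h2, α, ρ, hρ⟩ := hcon fun s => if hs : s < n then X ⟨s, hs⟩ else d0
    rw [Finset.mem_biUnion]
    refine ⟨(t1, t2, (α, ρ)), ?_, ?_⟩
    · simp only [idx, Finset.mem_filter, Finset.mem_product, Finset.mem_range, Finset.mem_univ,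
        and_true]
      exact ⟨⟨by omega, by omega⟩, hne, h1, h2⟩
    · simp only [bad, Finset.mem_filter, Finset.mem_univ, true_and]
      intro s hs h3 h4 h5
      rw [Prod.mk.injEq] at h5
      refine hρ s hs ?_ ?_
      · rw [dif_pos h3]
        exact h5.1
      · rw [dif_pos h4]
        exact h5.2
  have hbad : ∀ q ∈ idx, (bad q).card ≤ (c ^ 2 - 1) ^ m * c ^ (n - 2 * m) := by
    rintro ⟨t1, t2, q0⟩ hq
    simp only [idx, Finset.mem_filter, Finset.mem_product, Finset.mem_range, Finset.mem_univ,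
      and_true] at hq
    obtain ⟨⟨-, -⟩, hne, h1, h2⟩ := hq
    -- the pairs
    obtain ⟨k, hk, hkk⟩ : ∃ k : ℕ, 0 < k ∧ (t2 = t1 + k ∨ t1 = t2 + k) := by
      rcases lt_or_gt_of_ne hne with h3 | h3
      · exact ⟨t2 - t1, by omega, Or.inl (by omega)⟩
      · exact ⟨t1 - t2, by omega, Or.inr (by omega)⟩
    have hs : ∀ i : Fin m, (i : ℕ) + k * (i / k) < T := by
      intro i
      have h3 := Nat.mul_div_le (i : ℕ) k
      have h4 := i.2
      omega
    let f : Fin m × Bool → Fin n := fun p =>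
      ⟨(if p.2 then t2 else t1) + ((p.1 : ℕ) + k * (p.1 / k)), by
        have := hs p.1
        split_ifs <;> omega⟩
    have hf : Function.Injective f := by
      rintro ⟨i, b⟩ ⟨j, b'⟩ h3
      have h4 : (if b then t2 else t1) + ((i : ℕ) + k * (i / k)) =
        (if b' then t2 else t1) + ((j : ℕ) + k * (j / k)) := congrArg Fin.val h3
      cases b <;> cases b' <;> simp only [Bool.false_eq_true, if_true, if_false] at h4
      · rw [Prod.mk.injEq]
        exact ⟨Fin.ext (places_inj (k := k) (by omega)), rfl⟩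
      · exfalso
        rcases hkk with h5 | h5
        · exact places hk (i := i) (j := j) (by omega)
        · exact places hk (i := j) (j := i) (by omega)
      · exfalso
        rcases hkk with h5 | h5
        · exact places hk (i := j) (j := i) (by omega)
        · exact places hk (i := i) (j := j) (by omega)
      · rw [Prod.mk.injEq]
        exact ⟨Fin.ext (places_inj (k := k) (by omega)), rfl⟩
    refine le_trans (Finset.card_le_card ?_) (card_avoid f hf q0)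
    intro X hX
    simp only [bad, Finset.mem_filter, Finset.mem_univ, true_and] at hX ⊢
    intro i
    have h3 := hs i
    exact hX ((i : ℕ) + k * (i / k)) h3 (by omega) (by omega)
  have hidx : idx.card ≤ n ^ 2 * c ^ 2 := by
    refine (Finset.card_filter_le _ _).trans ?_
    rw [Finset.card_product, Finset.card_product, Finset.card_range, Finset.card_univ,
      Fintype.card_prod]
    exact le_of_eq (by ring)
  have htot : c ^ n ≤ n ^ 2 * c ^ 2 * ((c ^ 2 - 1) ^ m * c ^ (n - 2 * m)) := by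
    have h3 : (Finset.univ : Finset (Fin n → D)).card = c ^ n := by
      rw [Finset.card_univ, Fintype.card_fun, Fintype.card_fin]
    rw [← h3]
    refine (Finset.card_le_card hcov).trans ?_
    refine (Finset.card_biUnion_le_card_mul _ _ _ hbad).trans ?_
    exact Nat.mul_le_mul_right _ hidx
  -- hence a contradiction; we need `2 m ≤ n`
  by_cases hn : 2 * m ≤ n
  · have hcr : (0 : ℝ) < c := by exact_mod_cast hc1
    have h4 : ((c ^ n : ℕ) : ℝ) ≤
        (n : ℝ) ^ 2 * (c : ℝ) ^ 2 * (((c : ℝ) ^ 2 - 1) ^ m * (c : ℝ) ^ (n - 2 * m)) := by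
      have h5 : (((c ^ 2 - 1 : ℕ) : ℕ) : ℝ) = (c : ℝ) ^ 2 - 1 := by
        rw [Nat.cast_sub (Nat.one_le_pow _ _ hc1)]
        push_cast
        ring
      have h6 : ((c ^ n : ℕ) : ℝ) ≤ ((n ^ 2 * c ^ 2 * ((c ^ 2 - 1) ^ m * c ^ (n - 2 * m)) : ℕ) : ℝ) := by
        exact_mod_cast htot
      rw [Nat.cast_mul, Nat.cast_mul, Nat.cast_mul, Nat.cast_pow (c ^ 2 - 1) m, h5] at h6
      push_cast at h6 ⊢
      exact h6
    have h7 : (1 - 1 / (c : ℝ) ^ 2) ^ m * (c : ℝ) ^ (2 * m) = ((c : ℝ) ^ 2 - 1) ^ m := by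
      rw [pow_mul, ← mul_pow]
      congr 1
      field_simp
    have h8 : (c : ℝ) ^ n = (c : ℝ) ^ (2 * m) * (c : ℝ) ^ (n - 2 * m) := by
      rw [← pow_add, Nat.add_sub_cancel' hn]
    rw [← h7] at h4
    push_cast at h4
    rw [h8] at h4
    have h9 : (0 : ℝ) < (c : ℝ) ^ (2 * m) * (c : ℝ) ^ (n - 2 * m) := by positivity
    have h10 : (n : ℝ) ^ 2 * (c : ℝ) ^ 2 * ((1 - 1 / (c : ℝ) ^ 2) ^ m * (c : ℝ) ^ (2 * m) *
        (c : ℝ) ^ (n - 2 * m)) = ((n : ℝ) ^ 2 * (c : ℝ) ^ 2 * (1 - 1 / (c : ℝ) ^ 2) ^ m) *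
        ((c : ℝ) ^ (2 * m) * (c : ℝ) ^ (n - 2 * m)) := by ring
    rw [h10] at h4
    have h11 : ((n : ℝ) ^ 2 * (c : ℝ) ^ 2 * (1 - 1 / (c : ℝ) ^ 2) ^ m) *
        ((c : ℝ) ^ (2 * m) * (c : ℝ) ^ (n - 2 * m)) <
        1 * ((c : ℝ) ^ (2 * m) * (c : ℝ) ^ (n - 2 * m)) := mul_lt_mul_of_pos_right h h9
    linarith
  · -- no window fits
    obtain ⟨t1, t2, hne, h1, h2, α, ρ, hρ⟩ := hcon fun _ => d0
    omega

/-- 9.3 coded sequences: `T2 = (Nat.log 2 n)^2` works for all large `n`. -/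
theorem exists_code (d : ℕ) (hd : 1 ≤ d) : ∃ n0 : ℕ, ∀ n, n0 ≤ n → ∃ X : ℕ → Fin d,
    ∀ (α β : Fin d) (K : ℤ), K ≠ 0 → ∀ s1 : ℕ, s1 + (Nat.log 2 n) ^ 2 ≤ n → 0 ≤ (s1 : ℤ) + K →
      (s1 : ℤ) + (Nat.log 2 n) ^ 2 + K ≤ n →
      ∃ s : ℕ, s1 ≤ s ∧ s < s1 + (Nat.log 2 n) ^ 2 ∧ X s = α ∧ X ((s : ℤ) + K).toNat = β := by
  classical
  have hne : Nonempty (Fin d) := ⟨⟨0, hd⟩⟩
  have hcr : (1 : ℝ) ≤ d := by exact_mod_cast hd
  refine ⟨2 ^ (4 * d ^ 2 * (2 + d) + 1), fun n hn => ?_⟩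
  set L := Nat.log 2 n with hL
  have hn0 : n ≠ 0 := by
    have := Nat.one_le_two_pow (n := 4 * d ^ 2 * (2 + d) + 1)
    omega
  have hL1 : 4 * d ^ 2 * (2 + d) + 1 ≤ L := Nat.le_log_of_pow_le (by norm_num) hn
  have hL2 : n < 2 ^ (L + 1) := Nat.lt_pow_succ_log_self (by norm_num) n
  have hT1 : 1 ≤ L ^ 2 := Nat.one_le_pow _ _ (by omega)
  have key : (n : ℝ) ^ 2 * (Fintype.card (Fin d) : ℝ) ^ 2 *
      (1 - 1 / (Fintype.card (Fin d) : ℝ) ^ 2) ^ (L ^ 2 / 2) < 1 := by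
    rw [Fintype.card_fin]
    have hLr : 4 * (d : ℝ) ^ 2 * (2 + d) + 1 ≤ L := by exact_mod_cast hL1
    have hm : ((L : ℝ) ^ 2 - 1) / 2 ≤ ((L ^ 2 / 2 : ℕ) : ℝ) := by
      have h1 : L ^ 2 ≤ 2 * (L ^ 2 / 2) + 1 := by omega
      have h2 : ((L ^ 2 : ℕ) : ℝ) ≤ 2 * ((L ^ 2 / 2 : ℕ) : ℝ) + 1 := by exact_mod_cast h1
      push_cast at h2 ⊢
      linarith
    have h1 : (1 - 1 / (d : ℝ) ^ 2) ≤ Real.exp (-(1 / (d : ℝ) ^ 2)) := by
      have := Real.add_one_le_exp (-(1 / (d : ℝ) ^ 2))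
      linarith
    have h0' : 0 ≤ 1 - 1 / (d : ℝ) ^ 2 := by
      have : 1 / (d : ℝ) ^ 2 ≤ 1 := by
        rw [div_le_one (by positivity)]
        nlinarith
      linarith
    have h2 : (1 - 1 / (d : ℝ) ^ 2) ^ (L ^ 2 / 2) ≤
        Real.exp (-(((L : ℝ) ^ 2 - 1) / (2 * (d : ℝ) ^ 2))) := by
      calc (1 - 1 / (d : ℝ) ^ 2) ^ (L ^ 2 / 2) ≤
          Real.exp (-(1 / (d : ℝ) ^ 2)) ^ (L ^ 2 / 2) := pow_le_pow_left₀ h0' h1 _
        _ = Real.exp (((L ^ 2 / 2 : ℕ) : ℝ) * (-(1 / (d : ℝ) ^ 2))) := by rw [Real.exp_nat_mul]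
        _ ≤ _ := by
          apply Real.exp_le_exp.2
          have h3 : (((L : ℝ) ^ 2 - 1) / 2) * (1 / (d : ℝ) ^ 2) ≤
              ((L ^ 2 / 2 : ℕ) : ℝ) * (1 / (d : ℝ) ^ 2) :=
            mul_le_mul_of_nonneg_right hm (by positivity)
          have h4 : (((L : ℝ) ^ 2 - 1) / 2) * (1 / (d : ℝ) ^ 2) =
              ((L : ℝ) ^ 2 - 1) / (2 * (d : ℝ) ^ 2) := by
            field_simp
          linarith
    have h5 : (n : ℝ) ≤ Real.exp (L + 1) := by
      have h6 : (n : ℝ) ≤ (2 : ℝ) ^ (L + 1) := by exact_mod_cast hL2.le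
      refine h6.trans ?_
      have h7 : (2 : ℝ) ≤ Real.exp 1 := by
        have := Real.add_one_le_exp (1 : ℝ)
        linarith
      calc (2 : ℝ) ^ (L + 1) ≤ Real.exp 1 ^ (L + 1) := pow_le_pow_left₀ (by norm_num) h7 _
        _ = Real.exp (L + 1) := by
          rw [← Real.exp_nat_mul]
          push_cast
          ring_nf
    have h6 : (d : ℝ) ≤ Real.exp d := by
      have := Real.add_one_le_exp (d : ℝ)
      linarith
    have h7 : (n : ℝ) ^ 2 * (d : ℝ) ^ 2 ≤ Real.exp (2 * (L + 1) + 2 * d) := by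
      have h8 : Real.exp (2 * ((L : ℝ) + 1) + 2 * d) =
          Real.exp (L + 1) ^ 2 * Real.exp d ^ 2 := by
        rw [← Real.exp_nat_mul, ← Real.exp_nat_mul, ← Real.exp_add]
        push_cast
        ring_nf
      rw [h8]
      exact mul_le_mul (pow_le_pow_left₀ (by positivity) h5 2)
        (pow_le_pow_left₀ (by positivity) h6 2) (by positivity) (by positivity)
    have h8 : 2 * ((L : ℝ) + 1) + 2 * d < ((L : ℝ) ^ 2 - 1) / (2 * (d : ℝ) ^ 2) := by
      rw [lt_div_iff₀ (by positivity)]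
      have h9 : (4 * (d : ℝ) ^ 2 * (2 + d)) * (L + 1) ≤ (L - 1) * (L + 1) :=
        mul_le_mul_of_nonneg_right (by linarith) (by positivity)
      have h10 : ((L : ℝ) + 1) + d < (2 + d) * (L + 1) := by
        have h11 : (0 : ℝ) ≤ L := by positivity
        nlinarith
      have h12 : (4 * (d : ℝ) ^ 2) * (((L : ℝ) + 1) + d) < (4 * (d : ℝ) ^ 2) * ((2 + d) * (L + 1)) :=
        mul_lt_mul_of_pos_left h10 (by positivity)
      nlinarith
    calc (n : ℝ) ^ 2 * (d : ℝ) ^ 2 * (1 - 1 / (d : ℝ) ^ 2) ^ (L ^ 2 / 2) ≤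
        Real.exp (2 * (L + 1) + 2 * d) *
          Real.exp (-(((L : ℝ) ^ 2 - 1) / (2 * (d : ℝ) ^ 2))) :=
          mul_le_mul h7 h2 (pow_nonneg h0' _) (Real.exp_pos _).le
      _ = Real.exp (2 * (L + 1) + 2 * d - ((L : ℝ) ^ 2 - 1) / (2 * (d : ℝ) ^ 2)) := by
          rw [← Real.exp_add]
          congr 1
      _ < 1 := Real.exp_lt_one_iff.2 (by linarith)
  obtain ⟨X, hX⟩ := exists_X_fin (D := Fin d) n (L ^ 2) hT1 key
  refine ⟨X, fun α β K hK s1 h1 h2 h3 => ?_⟩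
  obtain ⟨s, hs, hs1, hs2⟩ := hX s1 ((s1 : ℤ) + K).toNat (by omega) h1 (by
    have h4 : (((L ^ 2 : ℕ) : ℤ)) = (L : ℤ) ^ 2 := by push_cast; ring
    omega) α β
  refine ⟨s1 + s, by omega, by omega, hs1, ?_⟩
  have h5 : (((s1 + s : ℕ) : ℤ) + K).toNat = ((s1 : ℤ) + K).toNat + s := by
    push_cast
    omega
  rw [h5]
  exact hs2

end Pool.Agent.RS69
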