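import Pool.Agent.RS69.Bal

/-!
# RS69.DPar1 : parameters of the designed substitution and its definition (section 9)
-/

set_option autoImplicit false

namespace Pool.Agent.RS69

open scoped Classical

namespace Base

variable (B : Base)

noncomputable def fsum : ℝ := ∑ a, B.f a

/-- lower bound for the letter frequencies -/
noncomputable def kf : ℝ := min (min (B.f 0) (B.f 1)) (min (B.f 2) (B.f 3)) / (2 * B.fsum)

/-- gap length -/
noncomputable def g0 : ℕ := ⌈7 / B.kf⌉₊ + 1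

noncomputable def K7 : ℝ := 6 * B.K0 + 2
noncomputable def Z3 : ℝ := 3 * B.K7 + 3 * B.g + 1
noncomputable def ZD : ℝ := 2 * B.g + 2 + B.K7 + (B.Z3 + 2 * B.K7 + 4 * B.g + 3)
noncomputable def CD : ℝ := B.Cc + 2 + B.K7 + B.g
noncomputable def Cl : ℝ := (2 * B.g0 + 4) * B.lmax

/-- the shift set -/
def Dset : Set Vec := {ρ | |B.l ρ| ≤ B.Cl ∧ ‖B.z ρ‖ ≤ B.ZD ∧ |B.c ρ| ≤ B.CD}

/-- tube constants as functions of `Kmk` -/
noncomputable def CtK (Kmk : ℕ) : ℝ := (4 * Kmk + 10) * B.K0 + 2 * B.CD + 4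
noncomputable def ZtK (Kmk : ℕ) : ℝ := (4 * Kmk + 10) * B.K0 + 2 * B.ZD + 4
noncomputable def CbK (Kmk : ℕ) : ℝ :=
  20 * (B.Cc + 2 * (2 * (B.CtK Kmk + B.kc)) + 1) + 2 * (2 * (B.CtK Kmk + B.kc)) + 4 * B.CtK Kmk

end Base

/-- parameters of the design -/
structure Par (B : Base) where
  G : Vec
  G_z : ‖B.z G‖ ≤ B.K0
  G_c : |B.c G| ≤ B.K0
  G_ge : ∀ ρ ∈ B.Dset, ∀ a, 0 ≤ G a + ρ a ∧ 0 ≤ G a - ρ a
  Kmk : ℕ
  Kmk_ge : ∀ ρ ∈ B.Dset, ∀ ρ' ∈ B.Dset,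
    (bal (G - ρ)).length + (bal (G + ρ')).length + 2 * B.g0 + 2 ≤ Kmk
  R : ℕ
  N : ℕ
  one_le_N : 1 ≤ N
  T2 : ℕ
  one_le_T2 : 1 ≤ T2
  u : Vec
  Ra : Ltr → ℕ
  /-- coded sequence; the blocks of letter `a` use the indices `a (R+2) + s` -/
  X : ℕ → Vec
  X_mem : ∀ s, X s ∈ B.Dset
  X_prop : ∀ ρ ∈ B.Dset, ∀ K : ℤ, K ≠ 0 → ∀ s1 : ℕ, s1 + T2 ≤ 4 * (R + 2) → 0 ≤ (s1 : ℤ) + K →
    (s1 : ℤ) + T2 + K ≤ 4 * (R + 2) → ∃ s : ℕ, s1 ≤ s ∧ s < s1 + T2 ∧ X s = 0 ∧ X ((s : ℤ) + K).toNat = ρ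
  u_z : ‖B.z u‖ * (R + 2) ≤ 1
  u_c : |B.c u| * (R + 2) ≤ 1
  Mpos : ∀ a b, 0 < (B.P ^ N) a b
  t_big : 100 ≤ B.t0 ^ N
  /-- `u0 = u - 2G` -/
  u0_nonneg : ∀ a, 0 ≤ (u - 2 • G) a
  u0_freq : ∀ b, B.kf * (∑ a, (((u - 2 • G) a : ℤ) : ℝ)) ≤ ((u - 2 • G) b : ℤ)
  lu_big : 12 * B.l G + 6 * B.Cl + 100 * B.g0 * B.lmax + 100 ≤ B.l u
  /-- number of blocks -/
  Ra_le : ∀ a, Ra a ≤ R
  Ra_upper : ∀ a, (Ra a : ℝ) * B.l u ≤ B.t0 ^ N * B.l (ev a)
  Ra_lower : ∀ a, B.t0 ^ N * B.l (ev a) ≤ ((Ra a : ℝ) + 3) * B.l u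
  lu_R : B.t0 ^ N * B.lmax ≤ (R + 1) * B.l u
  T2_small : (4 * (T2 : ℝ) + 16) * B.l u ≤ B.t0 ^ N / 8
  A_pow : (32 * (T2 : ℝ)) ^ 40 ≤ B.t0 ^ N
  /-- rest words -/
  rest_nonneg : ∀ a b, 0 ≤ ((B.P ^ N).mulVec (ev a) - (Kmk : ℤ) • ev 0 - ev 2 - (Kmk : ℤ) • ev 1 - (Ra a : ℤ) • u) b
  rest_freq : ∀ a b, B.kf * (∑ b', ((((B.P ^ N).mulVec (ev a) - (Kmk : ℤ) • ev 0 - ev 2 - (Kmk : ℤ) • ev 1 - (Ra a : ℤ) • u) b' : ℤ) : ℝ))
    ≤ (((B.P ^ N).mulVec (ev a) - (Kmk : ℤ) • ev 0 - ev 2 - (Kmk : ℤ) • ev 1 - (Ra a : ℤ) • u) b : ℤ)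
  Cbig_le : B.CbK Kmk ≤ B.t0 ^ N
  /-- `ε1 = l(u)/t` is small -/
  eps1_small : 16 * (B.l u / B.t0 ^ N) * B.CbK Kmk * (B.Z3 + 1) ^ 2 < 1

namespace Par

variable {B : Base} (p : Par B)

noncomputable def t : ℝ := B.t0 ^ p.N
noncomputable def Ct : ℝ := B.CtK p.Kmk
noncomputable def Zt : ℝ := B.ZtK p.Kmk
noncomputable def Cbig : ℝ := B.CbK p.Kmk
noncomputable def eps1 : ℝ := B.l p.u / p.t

def u0 : Vec := p.u - 2 • p.G

def rest (a : Ltr) : Vec :=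
  (B.P ^ p.N).mulVec (ev a) - (p.Kmk : ℤ) • ev 0 - ev 2 - (p.Kmk : ℤ) • ev 1 - (p.Ra a : ℤ) • p.u

/-- block with shift `ρ` -/
noncomputable def blk (ρ : Vec) : List Ltr := bal (p.G + ρ) ++ bal p.u0 ++ bal (p.G - ρ)

/-- the sequence of blocks of letter `a`, first `n` of them -/
noncomputable def blks (a : Ltr) : ℕ → List Ltr
  | 0 => []
  | n + 1 => blks a n ++ p.blk (p.X ((a : ℕ) * (p.R + 2) + n))

/-- THE SUBSTITUTION -/
noncomputable def sub (a : Ltr) : List Ltr :=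
  List.replicate p.Kmk 0 ++ [2] ++ p.blks a (p.Ra a) ++ bal (p.rest a) ++ List.replicate p.Kmk 1

/-- good states -/
def Good (O : St) : Prop :=
  1 / 8 ≤ B.I O ∧ |B.c O.2.2| ≤ p.Cbig ∧ (O.1 = O.2.1 → p.eps1 ≤ |B.l O.2.2|)

/-- the small vector of a bad state -/
noncomputable def gv (_p : Par B) (O : St) : Vec :=
  if 1 / 8 ≤ B.I O then O.2.2 else if 0 < B.l O.2.2 then O.2.2 - ev O.1 else O.2.2 + ev O.2.1

/-! ### basic facts about the words -/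

theorem K_pos (B : Base) : 0 ≤ B.K0 ∧ 1 ≤ B.kf⁻¹ ∧ 0 < B.kf ∧ 4 ≤ B.lmax ∧ 0 ≤ B.Cc ∧ 1 ≤ B.Cl := by
  have hK : 0 ≤ B.K0 := by
    unfold Base.K0
    have h1 : 0 ≤ ∑ a, ‖B.z (ev a)‖ := Finset.sum_nonneg (fun _ _ => norm_nonneg _)
    have h2 := h1.trans (le_max_left (∑ a, ‖B.z (ev a)‖) (∑ a, |B.c (ev a)|))
    linarith
  have hf0 := B.f_pos 0
  have hf1 := B.f_pos 1
  have hf2 := B.f_pos 2
  have hf3 := B.f_pos 3
  have hfs : B.fsum = B.f 0 + B.f 1 + B.f 2 + B.f 3 := by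
    unfold Base.fsum
    rw [Fin.sum_univ_four]
  have hfp : 0 < B.fsum := by rw [hfs]; linarith
  have hmin : 0 < min (min (B.f 0) (B.f 1)) (min (B.f 2) (B.f 3)) :=
    lt_min (lt_min hf0 hf1) (lt_min hf2 hf3)
  have hkf : 0 < B.kf := by
    unfold Base.kf
    positivity
  have hkf1 : B.kf ≤ 1 := by
    unfold Base.kf
    rw [div_le_one (by positivity)]
    have h1 : min (min (B.f 0) (B.f 1)) (min (B.f 2) (B.f 3)) ≤ B.f 0 :=
      (min_le_left _ _).trans (min_le_left _ _)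
    rw [hfs]
    linarith
  have hl : 4 ≤ B.lmax := by
    unfold Base.lmax
    rw [Fin.sum_univ_four]
    have h0 := B.l_ge 0
    have h1 := B.l_ge 1
    have h2 := B.l_ge 2
    have h3 := B.l_ge 3
    linarith
  refine ⟨hK, (one_le_inv₀ hkf).2 hkf1, hkf, hl, ?_, ?_⟩
  · unfold Base.Cc Base.kc
    have := B.one_le_g
    linarith
  · unfold Base.Cl
    have : (0 : ℝ) ≤ B.g0 := Nat.cast_nonneg _
    nlinarith

private theorem G_nonneg (ρ : Vec) (hρ : ρ ∈ B.Dset) (a : Ltr) : 0 ≤ p.G a := by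
  have := p.G_ge ρ hρ a
  linarith [this.1, this.2]

theorem blk_abv (ρ : Vec) (hρ : ρ ∈ B.Dset) : abv (p.blk ρ) = p.u := by
  have h1 : abv (bal (p.G + ρ)) = p.G + ρ := bal_abv (fun a => (p.G_ge ρ hρ a).1)
  have h2 : abv (bal (p.G - ρ)) = p.G - ρ := bal_abv (fun a => (p.G_ge ρ hρ a).2)
  have h3 : abv (bal p.u0) = p.u0 := bal_abv p.u0_nonneg
  unfold blk
  rw [abv_append, abv_append, h1, h2, h3]
  unfold u0
  abel

theorem blks_abv (a : Ltr) (n : ℕ) : abv (p.blks a n) = (n : ℤ) • p.u := by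
  induction n with
  | zero => simp [blks, abv_nil]
  | succ n ih =>
    rw [blks, abv_append, ih, blk_abv p _ (p.X_mem _)]
    push_cast
    rw [add_smul, one_smul]

theorem sub_abv (a : Ltr) : abv (p.sub a) = (B.P ^ p.N).mulVec (ev a) := by
  have h1 : abv (bal (p.rest a)) = p.rest a := bal_abv (p.rest_nonneg a)
  unfold sub
  rw [abv_append, abv_append, abv_append, abv_append, abv_replicate, abv_replicate, abv_singleton,
    blks_abv, h1]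
  unfold rest
  abel

theorem one_le_Kmk : 1 ≤ p.Kmk := by
  have := p.Kmk_ge (p.X 0) (p.X_mem 0) (p.X 0) (p.X_mem 0)
  omega

theorem sub_head (a : Ltr) (j : ℕ) (hj : j < p.Kmk) : (p.sub a)[j]? = some 0 := by
  unfold sub
  rw [List.append_assoc, List.append_assoc, List.append_assoc,
    List.getElem?_append_left (by rw [List.length_replicate]; exact hj),
    List.getElem?_replicate, if_pos hj]

theorem sub_length (a : Ltr) : 2 * p.Kmk + 1 ≤ (p.sub a).length := by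
  unfold sub
  simp only [List.length_append, List.length_replicate, List.length_singleton]
  omega

theorem sub_last (a : Ltr) (j : ℕ) (hj : j < p.Kmk) :
    (p.sub a)[(p.sub a).length - 1 - j]? = some 1 := by
  have h0 : p.sub a = (List.replicate p.Kmk 0 ++ [2] ++ p.blks a (p.Ra a) ++ bal (p.rest a)) ++
      List.replicate p.Kmk 1 := rfl
  set w := List.replicate p.Kmk 0 ++ [2] ++ p.blks a (p.Ra a) ++ bal (p.rest a) with hw
  rw [h0, List.length_append, List.length_replicate, List.getElem?_append_right (by omega),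
    List.getElem?_replicate, if_pos (by omega)]

theorem sub_head0 (a : Ltr) : ∃ w, p.sub a = 0 :: w := by
  have h := p.sub_head a 0 (by have := p.one_le_Kmk; omega)
  cases hw : p.sub a with
  | nil => rw [hw] at h; simp at h
  | cons b w =>
    rw [hw] at h
    simp only [List.getElem?_cons_zero, Option.some.injEq] at h
    exact ⟨w, by rw [h]⟩

theorem sub_last1 (a : Ltr) : ∃ w, p.sub a = w ++ [1] := by
  have h1 := p.one_le_Kmk
  obtain ⟨k, hk⟩ : ∃ k, p.Kmk = k + 1 := ⟨p.Kmk - 1, by omega⟩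
  refine ⟨(List.replicate p.Kmk 0 ++ [2] ++ p.blks a (p.Ra a) ++ bal (p.rest a)) ++
      List.replicate k 1, ?_⟩
  unfold sub
  rw [List.append_assoc _ (List.replicate k 1) [1]]
  congr 1
  rw [hk, List.replicate_succ']

private theorem l_eq_sum (B : Base) (v : Vec) : B.l v = ∑ a, (v a : ℝ) * B.l (ev a) := by
  have h1 : v = ∑ a, v a • ev a := by
    ext b
    simp [ev, Pi.single_apply, Finset.sum_apply]
  conv_lhs => rw [h1]
  rw [map_sum]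
  apply Finset.sum_congr rfl
  intro a _
  rw [map_zsmul, zsmul_eq_mul]

private theorem lG_nonneg : 0 ≤ B.l p.G := by
  rw [l_eq_sum]
  apply Finset.sum_nonneg
  intro a _
  have h1 := p.G_nonneg (p.X 0) (p.X_mem 0) a
  have h2 := B.l_ge a
  have h3 : (0 : ℝ) ≤ (p.G a : ℝ) := by exact_mod_cast h1
  exact mul_nonneg h3 (by linarith)

private theorem lu_pos : 100 ≤ B.l p.u := by
  obtain ⟨h1, h2, h3, h4, h5, h6⟩ := K_pos B
  have h7 := p.lu_big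
  have h8 := p.lG_nonneg
  have h9 : (0 : ℝ) ≤ B.g0 := Nat.cast_nonneg _
  have h10 : 0 ≤ 100 * (B.g0 : ℝ) * B.lmax := by positivity
  linarith

private theorem t_pos : 0 < p.t := by
  unfold t
  have := B.one_lt_t0
  positivity

theorem eps1_pos : 0 < p.eps1 := by
  unfold eps1
  exact div_pos (by linarith [p.lu_pos]) p.t_pos

theorem eps1_le : p.eps1 ≤ 1 / 100 := by
  unfold eps1
  rw [div_le_iff₀ p.t_pos]
  have h1 := p.T2_small
  have h2 := p.lu_pos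
  have h3 : (1 : ℝ) ≤ p.T2 := by exact_mod_cast p.one_le_T2
  have h4 : (p.t : ℝ) = B.t0 ^ p.N := rfl
  rw [h4]
  nlinarith

end Par

end Pool.Agent.RS69
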