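import Pool.Agent.RS69.DPar1

/-!
# RS69.DPar2 : tube, bodies, marker
-/

set_option autoImplicit false

namespace Pool.Agent.RS69

/-! ### zero runs in words -/

/-- length of the zero run at the end of `w`, the run before `w` having length `c` -/
def zrun (c : ℕ) (w : List Ltr) : ℕ := w.foldl (fun c x => if x = 0 then c + 1 else 0) c

/-- all zero runs have length `< K` -/
def zok (K : ℕ) : ℕ → List Ltr → Prop
  | c, [] => c < K
  | c, x :: w => c < K ∧ zok K (if x = 0 then c + 1 else 0) w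

theorem zrun_append (c : ℕ) (w1 w2 : List Ltr) : zrun c (w1 ++ w2) = zrun (zrun c w1) w2 := by
  simp [zrun, List.foldl_append]

theorem zok_append (K c : ℕ) (w1 w2 : List Ltr) :
    zok K c (w1 ++ w2) ↔ zok K c w1 ∧ zok K (zrun c w1) w2 := by
  induction w1 generalizing c with
  | nil =>
    constructor
    · intro h
      refine ⟨?_, h⟩
      cases w2 with
      | nil => exact h
      | cons x w => exact h.1
    · intro h
      exact h.2
  | cons x w ih =>
    simp only [List.cons_append, zok, ih, zrun, List.foldl_cons]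
    tauto

theorem zok_lt {K c : ℕ} {w : List Ltr} (h : zok K c w) : c < K := by
  cases w with
  | nil => exact h
  | cons x w => exact h.1

theorem zok_run_lt {K c : ℕ} {w : List Ltr} (h : zok K c w) : zrun c w < K := by
  have h1 : zok K c (w ++ []) := by rw [List.append_nil]; exact h
  exact ((zok_append K c w []).1 h1).2

theorem zrun_le (c : ℕ) (w : List Ltr) : zrun c w ≤ c + w.length := by
  induction w generalizing c with
  | nil => simp [zrun]
  | cons x w ih =>
    have h1 : zrun c (x :: w) = zrun (if x = 0 then c + 1 else 0) w := rfl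
    rw [h1]
    refine (ih _).trans ?_
    simp only [List.length_cons]
    split_ifs <;> omega

theorem zok_of_length {K : ℕ} (c : ℕ) (w : List Ltr) (h : c + w.length < K) : zok K c w := by
  induction w generalizing c with
  | nil => simpa [zok] using h
  | cons x w ih =>
    simp only [List.length_cons] at h
    refine ⟨by omega, ih _ ?_⟩
    split_ifs <;> omega

theorem zrun_replicate (c n : ℕ) : zrun c (List.replicate n 0) = c + n := by
  induction n generalizing c with
  | zero => rfl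
  | succ n ih =>
    have h1 : zrun c (List.replicate (n + 1) 0) = zrun (c + 1) (List.replicate n 0) := by
      rw [List.replicate_succ]; rfl
    rw [h1, ih]
    ring

/-- no window of zeros of length `K` -/
theorem zok_no_window {K c : ℕ} {x y : List Ltr} (h : zok K c (x ++ List.replicate K 0 ++ y)) : False := by
  rw [zok_append, zok_append] at h
  have h1 := zok_run_lt h.1.2
  rw [zrun_replicate] at h1
  omega

theorem zrun_mem {w : List Ltr} (h : ∃ x ∈ w, x ≠ 0) (c : ℕ) : zrun c w < w.length := by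
  induction w using List.reverseRecOn generalizing c with
  | nil => simp at h
  | append_singleton w x ih =>
    rw [zrun_append]
    have h1 : zrun (zrun c w) [x] = if x = 0 then zrun c w + 1 else 0 := rfl
    rw [h1]
    split_ifs with hx
    · have h2 : ∃ x ∈ w, x ≠ 0 := by
        obtain ⟨y, hy, hy0⟩ := h
        rw [List.mem_append, List.mem_singleton] at hy
        rcases hy with hy | hy
        · exact ⟨y, hy, hy0⟩
        · exact absurd (hy ▸ hx) hy0
      have := ih h2 c
      simp only [List.length_append, List.length_singleton]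
      omega
    · simp

/-- zero runs in words all of whose windows of length `g` contain a nonzero letter -/
theorem zrun_gap {g : ℕ} {w : List Ltr} (hg : ∀ i, i + g ≤ w.length → ∃ x ∈ (w.drop i).take g, x ≠ 0)
    (c : ℕ) (hw : g ≤ w.length) : zrun c w < g := by
  obtain ⟨x, hx, hx0⟩ := hg (w.length - g) (by omega)
  have h1 : w = w.take (w.length - g) ++ (w.drop (w.length - g)).take g := by
    have h2 : (w.drop (w.length - g)).take g = w.drop (w.length - g) := by
      apply List.take_of_length_le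
      rw [List.length_drop]
      omega
    rw [h2, List.take_append_drop]
  rw [h1, zrun_append]
  have h3 := zrun_mem ⟨x, hx, hx0⟩ (zrun c (w.take (w.length - g)))
  refine lt_of_lt_of_le h3 ?_
  rw [List.length_take]
  omega

theorem zok_iff_take (K c : ℕ) (w : List Ltr) : (∀ n ≤ w.length, zrun c (w.take n) < K) → zok K c w := by
  induction w generalizing c with
  | nil =>
    intro h
    exact h 0 (le_refl _)
  | cons x w ih =>
    intro h
    refine ⟨h 0 (Nat.zero_le _), ih _ ?_⟩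
    intro n hn
    have h1 := h (n + 1) (by simpa using hn)
    rw [List.take_succ_cons] at h1
    exact h1

theorem zok_gap {K g : ℕ} {w : List Ltr}
    (hg : ∀ i, i + g ≤ w.length → ∃ x ∈ (w.drop i).take g, x ≠ 0)
    (c : ℕ) (hc : c + g ≤ K) (hg1 : 1 ≤ g) : zok K c w ∧ zrun c w < c + g := by
  have key : ∀ n ≤ w.length, zrun c (w.take n) < c + g := by
    intro n hn
    by_cases h : n < g
    · have h1 := zrun_le c (w.take n)
      rw [List.length_take] at h1
      omega
    · have h2 : zrun c (w.take n) < g := by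
        apply zrun_gap
        · intro i hi
          rw [List.length_take] at hi
          obtain ⟨x, hx, hx0⟩ := hg i (by omega)
          refine ⟨x, ?_, hx0⟩
          have h3 : ((w.take n).drop i).take g = (w.drop i).take g := by
            rw [List.drop_take, List.take_take]
            congr 1
            omega
          rw [h3]
          exact hx
        · rw [List.length_take]
          omega
      omega
  refine ⟨zok_iff_take K c w (fun n hn => lt_of_lt_of_le (key n hn) hc), ?_⟩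
  have := key w.length (le_refl _)
  rwa [List.take_length] at this

theorem zok_ones {K : ℕ} (c n : ℕ) (hc : c < K) : zok K c (List.replicate n 1) := by
  induction n generalizing c with
  | zero => exact hc
  | succ n ih =>
    rw [List.replicate_succ]
    refine ⟨hc, ?_⟩
    have : (if (1 : Ltr) = 0 then c + 1 else 0) = 0 := rfl
    rw [this]
    exact ih 0 (by omega)

/-! ### lengths -/

theorem word_l_le (B : Base) (w : List Ltr) : B.l (abv w) ≤ B.lmax * w.length := by
  induction w with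
  | nil => simp [abv_nil]
  | cons a w ih =>
    rw [abv_cons, map_add]
    have := l_le_lmax B a
    simp only [List.length_cons]
    push_cast
    linarith

theorem K0_z (B : Base) (a : Ltr) : ‖B.z (ev a)‖ ≤ B.K0 / 3 := by
  have h1 : ‖B.z (ev a)‖ ≤ ∑ a, ‖B.z (ev a)‖ :=
    Finset.single_le_sum (f := fun a => ‖B.z (ev a)‖) (fun b _ => norm_nonneg _) (Finset.mem_univ a)
  unfold Base.K0
  have := le_max_left (∑ a, ‖B.z (ev a)‖) (∑ a, |B.c (ev a)|)
  linarith

theorem K0_c (B : Base) (a : Ltr) : |B.c (ev a)| ≤ B.K0 / 3 := by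
  have h1 : |B.c (ev a)| ≤ ∑ a, |B.c (ev a)| :=
    Finset.single_le_sum (f := fun a => |B.c (ev a)|) (fun b _ => abs_nonneg _) (Finset.mem_univ a)
  unfold Base.K0
  have := le_max_right (∑ a, ‖B.z (ev a)‖) (∑ a, |B.c (ev a)|)
  linarith

theorem zero_mem_Dset (B : Base) : (0 : Vec) ∈ B.Dset := by
  have hK := Par.K_pos B
  have hg := B.one_le_g
  have h7 : 0 ≤ B.K7 := by unfold Base.K7; linarith [hK.1]
  refine ⟨?_, ?_, ?_⟩
  · simp only [map_zero, abs_zero]; linarith [hK.2.2.2.2.2]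
  · simp only [map_zero, norm_zero]; unfold Base.ZD Base.Z3; linarith
  · simp only [map_zero, abs_zero]; unfold Base.CD; linarith [hK.2.2.2.2.1]

theorem ZD_nonneg (B : Base) : 0 ≤ B.ZD := by
  have := (zero_mem_Dset B).2.1
  simpa using this

theorem CD_nonneg (B : Base) : 0 ≤ B.CD := by
  have := (zero_mem_Dset B).2.2
  simpa using this

namespace Par

variable {B : Base} (p : Par B)

/-! ### structure of the words -/

/-- the word before the blocks -/
theorem sub_eq (a : Ltr) : p.sub a = (List.replicate p.Kmk 0 ++ [2]) ++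
    (p.blks a (p.Ra a) ++ (bal (p.rest a) ++ List.replicate p.Kmk 1)) := by
  simp only [sub, List.append_assoc]

theorem pre_abv : abv (List.replicate p.Kmk (0 : Ltr) ++ [2]) = (p.Kmk : ℤ) • ev 0 + ev 2 := by
  rw [abv_append, abv_replicate, abv_singleton]

theorem Gadd_nonneg {ρ : Vec} (hρ : ρ ∈ B.Dset) (a : Ltr) : 0 ≤ (p.G + ρ) a := (p.G_ge ρ hρ a).1

theorem Gsub_nonneg {ρ : Vec} (hρ : ρ ∈ B.Dset) (a : Ltr) : 0 ≤ (p.G - ρ) a := (p.G_ge ρ hρ a).2

theorem blks_split (a : Ltr) (s n : ℕ) (h : s ≤ n) : ∃ w, p.blks a n = p.blks a s ++ w := by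
  induction n with
  | zero =>
    have : s = 0 := by omega
    subst this
    exact ⟨[], by simp⟩
  | succ n ih =>
    rcases Nat.lt_or_ge s (n + 1) with h1 | h1
    · obtain ⟨w, hw⟩ := ih (by omega)
      exact ⟨w ++ p.blk (p.X ((a : ℕ) * (p.R + 2) + n)), by
        simp only [blks, hw, List.append_assoc]⟩
    · have : s = n + 1 := by omega
      subst this
      exact ⟨[], by simp⟩

/-- body tile of block number `s` -/
theorem body_mem (a : Ltr) (s : ℕ) (hs : s < p.Ra a) (x : Ltr × Vec) (hx : x ∈ tiles (bal p.u0) 0) :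
    (x.1, ((p.Kmk : ℤ) • ev 0 + ev 2 + (s : ℤ) • p.u + (p.G + p.X ((a : ℕ) * (p.R + 2) + s))) + x.2) ∈
      tiles (p.sub a) 0 := by
  obtain ⟨w, hw⟩ := p.blks_split a (s + 1) (p.Ra a) hs
  have hρ := p.X_mem ((a : ℕ) * (p.R + 2) + s)
  rw [sub_eq, tiles_append, List.mem_append]
  right
  rw [tiles_append, List.mem_append]
  left
  rw [hw, tiles_append, List.mem_append]
  left
  simp only [blks]
  rw [tiles_append, List.mem_append]
  right
  unfold blk
  rw [tiles_append, List.mem_append]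
  left
  rw [tiles_append, List.mem_append]
  right
  rw [bal_abv (p.Gadd_nonneg hρ), blks_abv, pre_abv]
  have e : (0 : Vec) + ((p.Kmk : ℤ) • ev 0 + ev 2) + (s : ℤ) • p.u + (p.G + p.X ((a : ℕ) * (p.R + 2) + s)) =
    0 + ((p.Kmk : ℤ) • ev 0 + ev 2 + (s : ℤ) • p.u + (p.G + p.X ((a : ℕ) * (p.R + 2) + s))) := by abel
  rw [e, tiles_shift, List.mem_map]
  exact ⟨x, hx, by rw [add_comm]⟩

theorem sum_blks_le (a : Ltr) (F : Ltr × Vec → ℝ) (hF : ∀ x, 0 ≤ F x) (s0 : Vec) (n : ℕ) :
    ∑ s ∈ Finset.range n, (((tiles (bal p.u0)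
        (s0 + (s : ℤ) • p.u + (p.G + p.X ((a : ℕ) * (p.R + 2) + s)))).map F).sum) ≤
      ((tiles (p.blks a n) s0).map F).sum := by
  have hnn : ∀ (w : List Ltr) (s : Vec), 0 ≤ ((tiles w s).map F).sum := by
    intro w s
    apply List.sum_nonneg
    intro y hy
    rw [List.mem_map] at hy
    obtain ⟨x, _, rfl⟩ := hy
    exact hF x
  induction n with
  | zero => simp [blks, tiles]
  | succ n ih =>
    rw [Finset.sum_range_succ]
    simp only [blks]
    rw [tiles_append, List.map_append, List.sum_append]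
    refine add_le_add ih ?_
    unfold blk
    rw [tiles_append, tiles_append, List.map_append, List.map_append, List.sum_append, List.sum_append]
    rw [bal_abv (p.Gadd_nonneg (p.X_mem ((a : ℕ) * (p.R + 2) + n))), blks_abv]
    have h1 := hnn (bal (p.G + p.X ((a : ℕ) * (p.R + 2) + n))) (s0 + (n : ℤ) • p.u)
    have h2 := hnn (bal (p.G - p.X ((a : ℕ) * (p.R + 2) + n)))
      (s0 + (n : ℤ) • p.u + abv (bal (p.G + p.X ((a : ℕ) * (p.R + 2) + n)) ++ bal p.u0))
    linarith

/-- sums of nonnegative functions over all tiles dominate the sums over the bodies of any set of blocks -/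
theorem sum_body_le (a : Ltr) (T : Finset ℕ) (hT : ∀ s ∈ T, s < p.Ra a) (F : Ltr × Vec → ℝ)
    (hF : ∀ x, 0 ≤ F x) :
    ∑ s ∈ T, (((tiles (bal p.u0)
        ((p.Kmk : ℤ) • ev 0 + ev 2 + (s : ℤ) • p.u + (p.G + p.X ((a : ℕ) * (p.R + 2) + s)))).map F).sum) ≤
      ((tiles (p.sub a) 0).map F).sum := by
  have hnn : ∀ (w : List Ltr) (s : Vec), 0 ≤ ((tiles w s).map F).sum := by
    intro w s
    apply List.sum_nonneg
    intro y hy
    rw [List.mem_map] at hy
    obtain ⟨x, _, rfl⟩ := hy
    exact hF x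
  have h1 : T ⊆ Finset.range (p.Ra a) := fun s hs => Finset.mem_range.2 (hT s hs)
  refine (Finset.sum_le_sum_of_subset_of_nonneg h1 (fun s _ _ => hnn _ _)).trans ?_
  refine (p.sum_blks_le a F hF ((p.Kmk : ℤ) • ev 0 + ev 2) (p.Ra a)).trans ?_
  rw [sub_eq, tiles_append (List.replicate p.Kmk 0 ++ [2]), List.map_append, List.sum_append,
    tiles_append (p.blks a (p.Ra a)), List.map_append, List.sum_append, pre_abv, zero_add]
  have h2 := hnn (List.replicate p.Kmk (0 : Ltr) ++ [2]) 0
  have h3 := hnn (bal (p.rest a) ++ List.replicate p.Kmk 1)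
    ((p.Kmk : ℤ) • ev 0 + ev 2 + abv (p.blks a (p.Ra a)))
  linarith

/-! ### estimates -/

theorem u_z_le (n : ℕ) (hn : n ≤ p.R + 2) : (n : ℝ) * ‖B.z p.u‖ ≤ 1 := by
  have h1 := p.u_z
  have h2 : (n : ℝ) ≤ p.R + 2 := by exact_mod_cast hn
  nlinarith [norm_nonneg (B.z p.u)]

theorem u_c_le (n : ℕ) (hn : n ≤ p.R + 2) : (n : ℝ) * |B.c p.u| ≤ 1 := by
  have h1 := p.u_c
  have h2 : (n : ℝ) ≤ p.R + 2 := by exact_mod_cast hn
  nlinarith [abs_nonneg (B.c p.u)]

theorem z_nsmul (n : ℕ) (v : Vec) : ‖B.z ((n : ℤ) • v)‖ = n * ‖B.z v‖ := by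
  rw [map_zsmul, zsmul_eq_mul, norm_mul]
  simp

theorem c_nsmul (n : ℕ) (v : Vec) : |B.c ((n : ℤ) • v)| = n * |B.c v| := by
  rw [map_zsmul, zsmul_eq_mul, abs_mul]
  simp

theorem Mz_le (a : Ltr) (n : ℕ) : ‖B.z ((B.P ^ n).mulVec (ev a))‖ ≤ B.K0 / 3 := by
  rw [z_Mpow, norm_mul, norm_pow, B.norm_w0, one_pow, one_mul]
  exact K0_z B a

theorem Mc_le (a : Ltr) (n : ℕ) : |B.c ((B.P ^ n).mulVec (ev a))| ≤ B.K0 / 3 := by
  rw [c_Mpow, abs_mul]
  have h1 : |(B.t0 ^ n)⁻¹| ≤ 1 := by
    rw [abs_of_nonneg (inv_nonneg.2 (pow_nonneg (by linarith [B.one_lt_t0]) _))]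
    exact inv_le_one_of_one_le₀ (one_le_pow₀ B.one_lt_t0.le)
  have h2 := K0_c B a
  have h3 := abs_nonneg (B.c (ev a))
  nlinarith [abs_nonneg ((B.t0 ^ n)⁻¹)]

/-- the rest word has bounded `z` and `c` (`w^N z(e_a) - Kmk z(e_0) - ... - Ra z(u)`) -/
theorem rest_zc (a : Ltr) : ‖B.z (p.rest a)‖ ≤ (2 * p.Kmk + 2) * B.K0 + 1 ∧
    |B.c (p.rest a)| ≤ (2 * p.Kmk + 2) * B.K0 + 1 := by
  have hK := (K_pos B).1
  have hm : (0 : ℝ) ≤ p.Kmk := Nat.cast_nonneg _
  have hmK : (0 : ℝ) ≤ p.Kmk * B.K0 := mul_nonneg hm hK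
  have hR : p.Ra a ≤ p.R + 2 := (p.Ra_le a).trans (by omega)
  constructor
  · unfold rest
    rw [map_sub, map_sub, map_sub, map_sub]
    have h1 := Mz_le (B := B) a p.N
    have h2 := z_nsmul (B := B) p.Kmk (ev 0)
    have h3 := z_nsmul (B := B) p.Kmk (ev 1)
    have h4 := z_nsmul (B := B) (p.Ra a) p.u
    have h5 := p.u_z_le (p.Ra a) hR
    have h6 := K0_z B 0
    have h7 := K0_z B 1
    have h8 := K0_z B 2
    have e1 : (p.Kmk : ℝ) * ‖B.z (ev 0)‖ ≤ p.Kmk * (B.K0 / 3) := mul_le_mul_of_nonneg_left h6 hm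
    have e2 : (p.Kmk : ℝ) * ‖B.z (ev 1)‖ ≤ p.Kmk * (B.K0 / 3) := mul_le_mul_of_nonneg_left h7 hm
    have t1 := norm_sub_le (B.z ((B.P ^ p.N).mulVec (ev a)) - B.z ((p.Kmk : ℤ) • ev 0) - B.z (ev 2) -
      B.z ((p.Kmk : ℤ) • ev 1)) (B.z ((p.Ra a : ℤ) • p.u))
    have t2 := norm_sub_le (B.z ((B.P ^ p.N).mulVec (ev a)) - B.z ((p.Kmk : ℤ) • ev 0) - B.z (ev 2))
      (B.z ((p.Kmk : ℤ) • ev 1))
    have t3 := norm_sub_le (B.z ((B.P ^ p.N).mulVec (ev a)) - B.z ((p.Kmk : ℤ) • ev 0)) (B.z (ev 2))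
    have t4 := norm_sub_le (B.z ((B.P ^ p.N).mulVec (ev a))) (B.z ((p.Kmk : ℤ) • ev 0))
    nlinarith
  · unfold rest
    rw [map_sub, map_sub, map_sub, map_sub]
    have h1 := Mc_le (B := B) a p.N
    have h2 := c_nsmul (B := B) p.Kmk (ev 0)
    have h3 := c_nsmul (B := B) p.Kmk (ev 1)
    have h4 := c_nsmul (B := B) (p.Ra a) p.u
    have h5 := p.u_c_le (p.Ra a) hR
    have h6 := K0_c B 0
    have h7 := K0_c B 1
    have h8 := K0_c B 2
    have e1 : (p.Kmk : ℝ) * |B.c (ev 0)| ≤ p.Kmk * (B.K0 / 3) := mul_le_mul_of_nonneg_left h6 hm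
    have e2 : (p.Kmk : ℝ) * |B.c (ev 1)| ≤ p.Kmk * (B.K0 / 3) := mul_le_mul_of_nonneg_left h7 hm
    have t1 := abs_sub (B.c ((B.P ^ p.N).mulVec (ev a)) - B.c ((p.Kmk : ℤ) • ev 0) - B.c (ev 2) -
      B.c ((p.Kmk : ℤ) • ev 1)) (B.c ((p.Ra a : ℤ) • p.u))
    have t2 := abs_sub (B.c ((B.P ^ p.N).mulVec (ev a)) - B.c ((p.Kmk : ℤ) • ev 0) - B.c (ev 2))
      (B.c ((p.Kmk : ℤ) • ev 1))
    have t3 := abs_sub (B.c ((B.P ^ p.N).mulVec (ev a)) - B.c ((p.Kmk : ℤ) • ev 0)) (B.c (ev 2))
    have t4 := abs_sub (B.c ((B.P ^ p.N).mulVec (ev a))) (B.c ((p.Kmk : ℤ) • ev 0))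
    nlinarith

/-- abstract form of the estimate of prefixes, for a seminorm-like function -/
theorem tube_aux (nrm : Vec → ℝ) (hadd : ∀ v w, nrm (v + w) ≤ nrm v + nrm w)
    (hneg : ∀ v, nrm (-v) = nrm v) (hsm : ∀ (n : ℕ) (v : Vec), nrm ((n : ℤ) • v) = n * nrm v)
    (hpos : ∀ v, 0 ≤ nrm v)
    (DD : ℝ) (hDD : ∀ ρ ∈ B.Dset, nrm ρ ≤ DD) (hev : ∀ a, nrm (ev a) ≤ B.K0 / 3)
    (hG : nrm p.G ≤ B.K0) (hu : ∀ n : ℕ, n ≤ p.R + 2 → (n : ℝ) * nrm p.u ≤ 1)
    (hrest : ∀ a, nrm (p.rest a) ≤ (2 * p.Kmk + 2) * B.K0 + 1)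
    (hbal : ∀ (U : Vec), (∀ a, 0 ≤ U a) → ∀ x ∈ tiles (bal U) 0, nrm x.2 ≤ nrm U + B.K0)
    (a : Ltr) (x : Ltr × Vec) (hx : x ∈ tiles (p.sub a) 0) :
    nrm x.2 ≤ (4 * p.Kmk + 10) * B.K0 + 2 * DD + 4 := by
  have hK := (K_pos B).1
  have hm : (0 : ℝ) ≤ p.Kmk := Nat.cast_nonneg _
  have hmK : (0 : ℝ) ≤ p.Kmk * B.K0 := mul_nonneg hm hK
  have hDD0 : 0 ≤ DD := (hpos 0).trans (hDD 0 (zero_mem_Dset B))
  have hk : ∀ (k : ℕ) (b : Ltr), k ≤ p.Kmk → nrm ((k : ℤ) • ev b) ≤ p.Kmk * B.K0 / 3 := by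
    intro k b hk
    rw [hsm]
    have h1 : (k : ℝ) ≤ p.Kmk := by exact_mod_cast hk
    have h2 := hev b
    have h3 := hpos (ev b)
    nlinarith
  rw [sub_eq, tiles_append, List.mem_append] at hx
  rcases hx with hx | hx
  · -- before the blocks
    rw [tiles_append, List.mem_append] at hx
    rcases hx with hx | hx
    · rw [mem_tiles] at hx
      obtain ⟨i, hi, rfl⟩ := hx
      rw [List.length_replicate] at hi
      simp only [zero_add]
      rw [List.take_replicate, abv_replicate]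
      have := hk (min i p.Kmk) 0 (by omega)
      nlinarith
    · simp only [tiles, List.mem_singleton] at hx
      subst hx
      simp only [zero_add]
      rw [abv_replicate]
      have := hk p.Kmk 0 le_rfl
      nlinarith
  · have hpre : nrm ((p.Kmk : ℤ) • ev 0 + ev 2) ≤ p.Kmk * B.K0 / 3 + B.K0 / 3 :=
      (hadd _ _).trans (add_le_add (hk p.Kmk 0 le_rfl) (hev 2))
    rw [pre_abv, zero_add, tiles_append, List.mem_append] at hx
    rcases hx with hx | hx
    · -- blocks
      have hb : ∀ (n : ℕ) (s0 : Vec), x ∈ tiles (p.blks a n) s0 → ∃ s < n,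
          x ∈ tiles (p.blk (p.X ((a : ℕ) * (p.R + 2) + s))) (s0 + (s : ℤ) • p.u) := by
        intro n
        induction n with
        | zero => intro s0 h; simp [blks, tiles] at h
        | succ n ih =>
          intro s0 h
          simp only [blks] at h
          rw [tiles_append, List.mem_append] at h
          rcases h with h | h
          · obtain ⟨s, hs, hs'⟩ := ih s0 h
            exact ⟨s, by omega, hs'⟩
          · rw [blks_abv] at h
            exact ⟨n, by omega, h⟩
      obtain ⟨s, hs, hx⟩ := hb _ _ hx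
      have hρ := p.X_mem ((a : ℕ) * (p.R + 2) + s)
      generalize p.X ((a : ℕ) * (p.R + 2) + s) = ρ at hx hρ
      have hsR : s + 1 ≤ p.R + 2 := by have := p.Ra_le a; omega
      have hus := hu (s + 1) hsR
      push_cast at hus
      have hu0 := hpos p.u
      have hsu : nrm ((s : ℤ) • p.u) = s * nrm p.u := hsm s p.u
      have hbase : nrm ((p.Kmk : ℤ) • ev 0 + ev 2 + (s : ℤ) • p.u) ≤
          p.Kmk * B.K0 / 3 + B.K0 / 3 + s * nrm p.u := by
        refine (hadd _ _).trans ?_
        rw [hsu]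
        linarith
      have hGp : nrm (p.G + ρ) ≤ B.K0 + DD := (hadd _ _).trans (add_le_add hG (hDD ρ hρ))
      have hGm : nrm (p.G - ρ) ≤ B.K0 + DD := by
        rw [sub_eq_add_neg]
        refine (hadd _ _).trans (add_le_add hG ?_)
        rw [hneg]
        exact hDD ρ hρ
      have hu0nn : ∀ a, 0 ≤ p.u0 a := p.u0_nonneg
      have h2G : nrm ((2 : ℕ) • p.G) ≤ 2 * B.K0 := by
        have := hsm 2 p.G
        rw [natCast_zsmul] at this
        rw [this]
        push_cast
        linarith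
      have hu0' : nrm p.u0 ≤ nrm p.u + 2 * B.K0 := by
        unfold u0
        rw [sub_eq_add_neg]
        refine (hadd _ _).trans ?_
        rw [hneg]
        linarith
      unfold blk at hx
      rw [tiles_append, List.mem_append] at hx
      rcases hx with hx | hx
      · rw [tiles_append, List.mem_append] at hx
        rcases hx with hx | hx
        · -- first short word
          rw [← zero_add ((p.Kmk : ℤ) • ev 0 + ev 2 + (s : ℤ) • p.u), tiles_shift, List.mem_map] at hx
          obtain ⟨y, hy, rfl⟩ := hx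
          have h1 := hbal _ (p.Gadd_nonneg hρ) y hy
          have h2 := hadd y.2 ((p.Kmk : ℤ) • ev 0 + ev 2 + (s : ℤ) • p.u)
          simp only
          nlinarith
        · -- body
          rw [bal_abv (p.Gadd_nonneg hρ)] at hx
          rw [← zero_add ((p.Kmk : ℤ) • ev 0 + ev 2 + (s : ℤ) • p.u + (p.G + ρ)), tiles_shift,
            List.mem_map] at hx
          obtain ⟨y, hy, rfl⟩ := hx
          have h1 := hbal _ hu0nn y hy
          have h2 := hadd y.2 ((p.Kmk : ℤ) • ev 0 + ev 2 + (s : ℤ) • p.u + (p.G + ρ))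
          have h3 := hadd ((p.Kmk : ℤ) • ev 0 + ev 2 + (s : ℤ) • p.u) (p.G + ρ)
          simp only
          nlinarith
      · -- second short word
        rw [abv_append, bal_abv (p.Gadd_nonneg hρ), bal_abv hu0nn] at hx
        rw [← zero_add ((p.Kmk : ℤ) • ev 0 + ev 2 + (s : ℤ) • p.u + (p.G + ρ + p.u0)), tiles_shift,
          List.mem_map] at hx
        obtain ⟨y, hy, rfl⟩ := hx
        have h1 := hbal _ (p.Gsub_nonneg hρ) y hy
        have h2 := hadd y.2 ((p.Kmk : ℤ) • ev 0 + ev 2 + (s : ℤ) • p.u + (p.G + ρ + p.u0))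
        have h3 := hadd ((p.Kmk : ℤ) • ev 0 + ev 2 + (s : ℤ) • p.u) (p.G + ρ + p.u0)
        have e : p.G + ρ + p.u0 = p.u + -(p.G - ρ) := by
          unfold u0
          rw [two_nsmul]
          abel
        have h4 : nrm (p.G + ρ + p.u0) ≤ nrm p.u + (B.K0 + DD) := by
          rw [e]
          refine (hadd _ _).trans ?_
          rw [hneg]
          linarith
        simp only
        nlinarith
    · -- after the blocks
      rw [blks_abv] at hx
      have hR : p.Ra a ≤ p.R + 2 := (p.Ra_le a).trans (by omega)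
      have huR := hu (p.Ra a) hR
      have hRu : nrm ((p.Ra a : ℤ) • p.u) = p.Ra a * nrm p.u := hsm (p.Ra a) p.u
      have hbase : nrm ((p.Kmk : ℤ) • ev 0 + ev 2 + (p.Ra a : ℤ) • p.u) ≤
          p.Kmk * B.K0 / 3 + B.K0 / 3 + 1 := by
        refine (hadd _ _).trans ?_
        rw [hRu]
        linarith
      have hr := hrest a
      have hrnn : ∀ b, 0 ≤ p.rest a b := p.rest_nonneg a
      rw [tiles_append, List.mem_append] at hx
      rcases hx with hx | hx
      · rw [← zero_add ((p.Kmk : ℤ) • ev 0 + ev 2 + (p.Ra a : ℤ) • p.u), tiles_shift, List.mem_map] at hx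
        obtain ⟨y, hy, rfl⟩ := hx
        have h1 := hbal _ hrnn y hy
        have h2 := hadd y.2 ((p.Kmk : ℤ) • ev 0 + ev 2 + (p.Ra a : ℤ) • p.u)
        simp only
        nlinarith
      · rw [bal_abv hrnn, mem_tiles] at hx
        obtain ⟨i, hi, rfl⟩ := hx
        rw [List.length_replicate] at hi
        simp only
        rw [List.take_replicate, abv_replicate]
        have h1 := hk (min i p.Kmk) 1 (by omega)
        have h2 := hadd ((p.Kmk : ℤ) • ev 0 + ev 2 + (p.Ra a : ℤ) • p.u + p.rest a)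
          (((min i p.Kmk : ℕ) : ℤ) • ev 1)
        have h3 := hadd ((p.Kmk : ℤ) • ev 0 + ev 2 + (p.Ra a : ℤ) • p.u) (p.rest a)
        nlinarith

theorem tube (a : Ltr) (x : Ltr × Vec) (hx : x ∈ tiles (p.sub a) 0) :
    ‖B.z x.2‖ ≤ p.Zt ∧ |B.c x.2| ≤ p.Ct := by
  constructor
  · exact p.tube_aux (fun v => ‖B.z v‖) (fun v w => by simpa using norm_add_le (B.z v) (B.z w))
      (fun v => by simp) (fun n v => z_nsmul n v) (fun v => norm_nonneg _) B.ZD
      (fun ρ hρ => hρ.2.1) (K0_z B) p.G_z (fun n hn => p.u_z_le n hn) (fun a => (p.rest_zc a).1)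
      (fun U hU x hx => bal_z B hU x hx) a x hx
  · exact p.tube_aux (fun v => |B.c v|) (fun v w => by simpa using abs_add_le (B.c v) (B.c w))
      (fun v => by simp) (fun n v => c_nsmul n v) (fun v => abs_nonneg _) B.CD
      (fun ρ hρ => hρ.2.2) (K0_c B) p.G_c (fun n hn => p.u_c_le n hn) (fun a => (p.rest_zc a).2)
      (fun U hU x hx => bal_c B hU x hx) a x hx

/-! ### the marker -/

theorem g0_spec (B : Base) : 7 / B.kf ≤ B.g0 := by
  unfold Base.g0
  push_cast
  have := Nat.le_ceil (7 / B.kf)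
  linarith

theorem one_le_g0 (B : Base) : 1 ≤ B.g0 := by
  unfold Base.g0
  omega

theorem u0_gap (i : ℕ) (hi : i + B.g0 ≤ (bal p.u0).length) :
    ∃ x ∈ ((bal p.u0).drop i).take B.g0, x ≠ 0 :=
  ⟨1, bal_gap p.u0_nonneg (K_pos B).2.2.1 p.u0_freq B.g0 (g0_spec B) i hi 1, by decide⟩

theorem rest_gap (a : Ltr) (i : ℕ) (hi : i + B.g0 ≤ (bal (p.rest a)).length) :
    ∃ x ∈ ((bal (p.rest a)).drop i).take B.g0, x ≠ 0 :=
  ⟨1, bal_gap (p.rest_nonneg a) (K_pos B).2.2.1 (p.rest_freq a) B.g0 (g0_spec B) i hi 1, by decide⟩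

theorem lG_nonneg : 0 ≤ B.l p.G := by
  have h1 : ∀ a, 0 ≤ p.G a := by
    intro a
    have := (p.G_ge 0 (zero_mem_Dset B) a).1
    simpa using this
  have h2 : p.G = ∑ a, (p.G a) • ev a := by
    funext b
    simp [ev, Finset.sum_apply, Pi.single_apply]
  rw [h2, map_sum]
  apply Finset.sum_nonneg
  intro a _
  rw [map_zsmul, zsmul_eq_mul]
  exact mul_nonneg (by exact_mod_cast h1 a) (le_trans zero_le_one (B.l_ge a))

theorem g0_le_u0 : B.g0 ≤ (bal p.u0).length := by
  have h1 := word_l_le B (bal p.u0)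
  rw [bal_abv (U := p.u0) p.u0_nonneg] at h1
  have h2 : B.l p.u0 = B.l p.u - 2 * B.l p.G := by
    unfold u0
    rw [map_sub, map_nsmul]
    simp
  have h3 := p.lu_big
  have h4 := p.lG_nonneg
  have hK := K_pos B
  have h5 : (0 : ℝ) ≤ B.g0 * B.lmax := mul_nonneg (Nat.cast_nonneg _) (by linarith [hK.2.2.2.1])
  have h6 : (B.g0 : ℝ) * B.lmax ≤ (bal p.u0).length * B.lmax := by
    have : 6 * B.Cl ≥ 0 := by linarith [hK.2.2.2.2.2]
    nlinarith
  have h7 : (B.g0 : ℝ) ≤ (bal p.u0).length := le_of_mul_le_mul_right h6 (by linarith [hK.2.2.2.1])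
  exact_mod_cast h7

/-- zero runs in the sequence of blocks -/
theorem blks_zok (a : Ltr) (n : ℕ) : zok p.Kmk 0 (p.blks a n) ∧
    (zrun 0 (p.blks a n) = 0 ∨ ∃ ρ ∈ B.Dset, zrun 0 (p.blks a n) < B.g0 + (bal (p.G - ρ)).length) := by
  have hg := one_le_g0 B
  induction n with
  | zero =>
    have := p.one_le_Kmk
    refine ⟨?_, Or.inl rfl⟩
    show 0 < p.Kmk
    omega
  | succ n ih =>
    simp only [blks]
    have hρ := p.X_mem ((a : ℕ) * (p.R + 2) + n)
    generalize p.X ((a : ℕ) * (p.R + 2) + n) = ρ at hρ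
    -- bound before the long word
    have hb : zrun 0 (p.blks a n) + (bal (p.G + ρ)).length + B.g0 < p.Kmk := by
      rcases ih.2 with h | ⟨ρ', hρ', h⟩
      · have := p.Kmk_ge ρ hρ ρ hρ
        omega
      · have := p.Kmk_ge ρ' hρ' ρ hρ
        omega
    unfold blk
    have h1 : zok p.Kmk (zrun 0 (p.blks a n)) (bal (p.G + ρ)) := zok_of_length _ _ (by omega)
    have h1' := zrun_le (zrun 0 (p.blks a n)) (bal (p.G + ρ))
    have h2 := zok_gap (K := p.Kmk) p.u0_gap (zrun (zrun 0 (p.blks a n)) (bal (p.G + ρ))) (by omega) hg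
    have h3 := zrun_gap p.u0_gap (zrun (zrun 0 (p.blks a n)) (bal (p.G + ρ))) p.g0_le_u0
    have h4 := zrun_le (zrun (zrun (zrun 0 (p.blks a n)) (bal (p.G + ρ))) (bal p.u0)) (bal (p.G - ρ))
    have h5 := p.Kmk_ge ρ hρ ρ hρ
    refine ⟨?_, Or.inr ⟨ρ, hρ, ?_⟩⟩
    · rw [zok_append]
      refine ⟨ih.1, ?_⟩
      rw [zok_append, zok_append, zrun_append]
      exact ⟨⟨h1, h2.1⟩, zok_of_length _ _ (by omega)⟩
    · rw [zrun_append, zrun_append, zrun_append]
      omega

theorem tail_zok (a : Ltr) : zok p.Kmk 0 (p.blks a (p.Ra a) ++ (bal (p.rest a) ++ List.replicate p.Kmk 1)) := by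
  have hg := one_le_g0 B
  obtain ⟨h1, h2⟩ := p.blks_zok a (p.Ra a)
  have hb : zrun 0 (p.blks a (p.Ra a)) + B.g0 ≤ p.Kmk := by
    rcases h2 with h | ⟨ρ', hρ', h⟩
    · have := p.Kmk_ge 0 (zero_mem_Dset B) 0 (zero_mem_Dset B)
      omega
    · have := p.Kmk_ge ρ' hρ' ρ' hρ'
      omega
  have h3 := zok_gap (K := p.Kmk) (p.rest_gap a) (zrun 0 (p.blks a (p.Ra a))) hb hg
  rw [zok_append, zok_append]
  exact ⟨h1, h3.1, zok_ones _ _ (lt_of_lt_of_le h3.2 hb)⟩

/-- the marker `0^Kmk` occurs only at the beginning: every window of length `Kmk` at an index `≥ 1` contains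
a nonzero letter (it contains the letter `2` after the marker, or `g0` consecutive letters of one of the long
balanced words, since the short words between two of them have total length `≤ Kmk - 2 g0 - 2`, or a letter
of the final `1^Kmk`) -/
theorem marker_unique (a : Ltr) (i : ℕ) (hi : 1 ≤ i) (h : i + p.Kmk ≤ (p.sub a).length) :
    ∃ j < p.Kmk, ∃ hj : i + j < (p.sub a).length, (p.sub a)[i + j] ≠ 0 := by
  by_cases h1 : i ≤ p.Kmk
  · have hlen : p.Kmk < (p.sub a).length := by omega
    have hv : (p.sub a)[p.Kmk]? = some 2 := by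
      rw [sub_eq, List.getElem?_append_left (by simp)]
      rw [List.getElem?_append_right (by simp)]
      simp
    refine ⟨p.Kmk - i, by omega, by omega, ?_⟩
    have e : i + (p.Kmk - i) = p.Kmk := by omega
    have hv' : (p.sub a)[i + (p.Kmk - i)]? = some 2 := by rw [e]; exact hv
    rw [List.getElem?_eq_getElem (by omega)] at hv'
    rw [Option.some.inj hv']
    decide
  · by_contra hcon
    push Not at hcon
    have hz := p.tail_zok a
    set W := p.blks a (p.Ra a) ++ (bal (p.rest a) ++ List.replicate p.Kmk 1) with hW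
    have hsub : p.sub a = (List.replicate p.Kmk 0 ++ [2]) ++ W := p.sub_eq a
    have hpl : (List.replicate p.Kmk (0 : Ltr) ++ [2]).length = p.Kmk + 1 := by simp
    have hlen : (p.sub a).length = p.Kmk + 1 + W.length := by rw [hsub, List.length_append, hpl]
    obtain ⟨k, hk⟩ : ∃ k, i = p.Kmk + 1 + k := ⟨i - (p.Kmk + 1), by omega⟩
    have hwin : (W.drop k).take p.Kmk = List.replicate p.Kmk 0 := by
      apply List.ext_getElem
      · rw [List.length_take, List.length_drop, List.length_replicate]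
        omega
      · intro j hj1 hj2
        rw [List.length_replicate] at hj2
        rw [List.getElem_take, List.getElem_drop, List.getElem_replicate]
        have h3 := hcon j hj2 (by omega)
        have h4 : (p.sub a)[i + j]? = some 0 := by
          rw [List.getElem?_eq_getElem (by omega), h3]
        rw [hsub, List.getElem?_append_right (by rw [hpl]; omega), hpl] at h4
        have e : i + j - (p.Kmk + 1) = k + j := by omega
        rw [e, List.getElem?_eq_getElem (by omega)] at h4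
        exact Option.some.inj h4
    have hW' : W = W.take k ++ List.replicate p.Kmk 0 ++ (W.drop k).drop p.Kmk := by
      rw [← hwin, List.append_assoc, List.take_append_drop, List.take_append_drop]
    rw [hW'] at hz
    exact zok_no_window hz

end Par

end Pool.Agent.RS69
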