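import Pool.Agent.RS69.DFull

/-!
# RS69.DSteer : property (S) of the design (section 9.6)
-/

set_option autoImplicit false

namespace Pool.Agent.RS69

namespace SteerAux

theorem l_nonneg (B : Base) (v : Vec) (hv : ∀ a, 0 ≤ v a) : 0 ≤ B.l v := by
  have h1 : v = ∑ a, v a • ev a := by
    funext b
    rw [Finset.sum_apply]
    simp [ev, Pi.single_apply]
  rw [h1, map_sum]
  apply Finset.sum_nonneg
  intro a _
  rw [map_zsmul, zsmul_eq_mul]
  apply mul_nonneg
  · exact_mod_cast hv a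
  · linarith [B.l_ge a]

/-- the overlap length as a function of the real positions -/
theorem I_eq (B : Base) (a b : Ltr) (x y : Vec) :
    B.I (a, b, y - x) =
      max 0 (min (B.l x + B.l (ev a)) (B.l y + B.l (ev b)) - max (B.l x) (B.l y)) := by
  unfold Base.I
  simp only [map_sub]
  congr 1
  rcases le_total (B.l x + B.l (ev a)) (B.l y + B.l (ev b)) with h1 | h1 <;>
  rcases le_total (B.l x) (B.l y) with h2 | h2
  · rw [min_eq_left h1, max_eq_right h2, min_eq_left (by linarith), max_eq_right (by linarith)]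
    ring
  · rw [min_eq_left h1, max_eq_left h2, min_eq_left (by linarith), max_eq_left (by linarith)]
    ring
  · rw [min_eq_right h1, max_eq_right h2, min_eq_right (by linarith), max_eq_right (by linarith)]
    ring
  · rw [min_eq_right h1, max_eq_left h2, min_eq_right (by linarith), max_eq_left (by linarith)]
    ring

/-- a sliver is an end piece of the first tile -/
theorem sliver_le (p q r r' : ℝ) (_h1 : p + 1 ≤ q) (h2 : r + 1 ≤ r')
    (hI : max 0 (min q r' - max p r) < 1 / 8) :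
    max 0 (min q r' - max p r) ≤ 1 / 8 * (((if p ≤ r' then (1 : ℝ) else 0) - (if p ≤ r then 1 else 0)) +
      ((if q ≤ r' then (1 : ℝ) else 0) - (if q ≤ r then 1 else 0))) := by
  have hA : 0 ≤ (if p ≤ r' then (1 : ℝ) else 0) - (if p ≤ r then 1 else 0) := by
    split_ifs <;> linarith
  have hB : 0 ≤ (if q ≤ r' then (1 : ℝ) else 0) - (if q ≤ r then 1 else 0) := by
    split_ifs <;> linarith
  rcases le_or_gt (min q r' - max p r) 0 with h0 | h0
  · rw [max_eq_left h0]
    linarith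
  · rw [max_eq_right h0.le] at hI ⊢
    -- either `r < p ≤ r'` or `r < q ≤ r'`
    have h3 : (r < p ∧ p ≤ r') ∨ (r < q ∧ q ≤ r') := by
      have h4 : max p r < min q r' := by linarith
      have h5 : p < r' := lt_of_le_of_lt (le_max_left p r) (lt_of_lt_of_le h4 (min_le_right _ _))
      have h6 : r < q := lt_of_le_of_lt (le_max_right p r) (lt_of_lt_of_le h4 (min_le_left _ _))
      by_cases h7 : r < p
      · exact Or.inl ⟨h7, h5.le⟩
      · right
        refine ⟨h6, ?_⟩
        by_contra h8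
        push Not at h7 h8
        rw [max_eq_right h7, min_eq_right h8.le] at hI
        linarith
    rcases h3 with ⟨h3, h4⟩ | ⟨h3, h4⟩
    · have : (if p ≤ r' then (1 : ℝ) else 0) - (if p ≤ r then 1 else 0) = 1 := by
        rw [if_pos h4, if_neg (not_le.2 h3)]; ring
      rw [this]
      linarith
    · have : (if q ≤ r' then (1 : ℝ) else 0) - (if q ≤ r then 1 else 0) = 1 := by
        rw [if_pos h4, if_neg (not_le.2 h3)]; ring
      rw [this]
      linarith

/-- counting start points -/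
theorem count_start (p q α β : ℝ) (h1 : p + 1 ≤ q) :
    (if p ≤ β then (1 : ℝ) else 0) - (if p ≤ α then 1 else 0) ≤
      min (max q α) (max (β + 1) α) - min (max p α) (max (β + 1) α) := by
  have hmono : min (max p α) (max (β + 1) α) ≤ min (max q α) (max (β + 1) α) :=
    min_le_min_right _ (max_le_max_right _ (by linarith))
  by_cases hb : p ≤ β
  · by_cases ha : p ≤ α
    · rw [if_pos hb, if_pos ha]
      linarith
    · rw [if_pos hb, if_neg ha]
      push Not at ha
      have h2 : min (max p α) (max (β + 1) α) ≤ p := by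
        refine (min_le_left _ _).trans ?_
        exact max_le le_rfl ha.le
      have h3 : p + 1 ≤ min (max q α) (max (β + 1) α) := by
        apply le_min
        · exact le_max_of_le_left h1
        · exact le_max_of_le_left (by linarith)
      linarith
  · rw [if_neg hb]
    split_ifs <;> linarith

/-- counting end points -/
theorem count_end (p q α β : ℝ) (h1 : p + 1 ≤ q) :
    (if q ≤ β then (1 : ℝ) else 0) - (if q ≤ α then 1 else 0) ≤
      max (min q β) (min (α - 1) β) - max (min p β) (min (α - 1) β) := by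
  have hmono : max (min p β) (min (α - 1) β) ≤ max (min q β) (min (α - 1) β) :=
    max_le_max_right _ (min_le_min_right _ (by linarith))
  by_cases hb : q ≤ β
  · by_cases ha : q ≤ α
    · rw [if_pos hb, if_pos ha]
      linarith
    · rw [if_pos hb, if_neg ha]
      push Not at ha
      have h2 : q ≤ max (min q β) (min (α - 1) β) := by
        refine le_trans ?_ (le_max_left _ _)
        exact le_min le_rfl hb
      have h3 : max (min p β) (min (α - 1) β) ≤ q - 1 := by
        apply max_le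
        · exact (min_le_left _ _).trans (by linarith)
        · exact (min_le_left _ _).trans (by linarith)
      linarith
  · rw [if_neg hb]
    split_ifs <;> linarith

theorem l_ev_ge (B : Base) (a : Ltr) : 1 ≤ B.l (ev a) := B.l_ge a

theorem sum_map_le {α : Type*} (L : List α) (F G : α → ℝ) (h : ∀ x ∈ L, F x ≤ G x) :
    (L.map F).sum ≤ (L.map G).sum := List.sum_le_sum h

theorem sum_map_const_mul {α : Type*} (L : List α) (F : α → ℝ) (c : ℝ) :
    (L.map (fun x => c * F x)).sum = c * (L.map F).sum := by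
  rw [List.sum_map_mul_left]

/-- total length of the slivers -/
theorem sliver_sum (B : Base) (w w' : List Ltr) (s s' : Vec)
    (h2 : 1 ≤ min (B.l (s + abv w)) (B.l (s' + abv w')) - max (B.l s) (B.l s')) :
    (((tiles w s).map (fun x => ((tiles w' s').map (fun y =>
      if 1 / 8 ≤ B.I (x.1, y.1, y.2 - x.2) then 0 else B.I (x.1, y.1, y.2 - x.2))).sum)).sum) ≤
      1 / 4 * (min (B.l (s + abv w)) (B.l (s' + abv w')) - max (B.l s) (B.l s') + 1) := by
  set e := B.l (s + abv w) with he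
  set e' := B.l (s' + abv w') with he'
  -- inner sums
  have hin : ∀ x ∈ tiles w s, ((tiles w' s').map (fun y =>
      if 1 / 8 ≤ B.I (x.1, y.1, y.2 - x.2) then 0 else B.I (x.1, y.1, y.2 - x.2))).sum ≤
      1 / 8 * (((if B.l x.2 ≤ e' then (1 : ℝ) else 0) - (if B.l x.2 ≤ B.l s' then 1 else 0)) +
        ((if B.l x.2 + B.l (ev x.1) ≤ e' then (1 : ℝ) else 0) -
          (if B.l x.2 + B.l (ev x.1) ≤ B.l s' then 1 else 0))) := by
    intro x hx
    have h3 : ∀ y ∈ tiles w' s', (if 1 / 8 ≤ B.I (x.1, y.1, y.2 - x.2) then 0 else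
        B.I (x.1, y.1, y.2 - x.2)) ≤
        1 / 8 * ((((if B.l x.2 ≤ B.l y.2 + B.l (ev y.1) then (1 : ℝ) else 0) +
          (if B.l x.2 + B.l (ev x.1) ≤ B.l y.2 + B.l (ev y.1) then (1 : ℝ) else 0)) -
          ((if B.l x.2 ≤ B.l y.2 then (1 : ℝ) else 0) +
          (if B.l x.2 + B.l (ev x.1) ≤ B.l y.2 then (1 : ℝ) else 0)))) := by
      intro y hy
      have hxl := l_ev_ge B x.1
      have hyl := l_ev_ge B y.1
      split_ifs with hc <;> first | linarith | skip
      all_goals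
        rw [not_le] at hc
        rw [I_eq] at hc ⊢
        have h4 := sliver_le (B.l x.2) (B.l x.2 + B.l (ev x.1)) (B.l y.2) (B.l y.2 + B.l (ev y.1))
          (by linarith) (by linarith) hc
        simp only [*, if_true, if_false] at h4
        linarith
    refine (sum_map_le _ _ _ h3).trans (le_of_eq ?_)
    rw [sum_map_const_mul]
    congr 1
    have h4 := sum_clamp B w' s' (fun u => (if B.l x.2 ≤ u then (1 : ℝ) else 0) +
      (if B.l x.2 + B.l (ev x.1) ≤ u then (1 : ℝ) else 0))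
    rw [h4]
    ring
  refine (sum_map_le _ _ _ hin).trans ?_
  rw [sum_map_const_mul]
  have h5 : ∀ x ∈ tiles w s, (((if B.l x.2 ≤ e' then (1 : ℝ) else 0) - (if B.l x.2 ≤ B.l s' then 1 else 0)) +
        ((if B.l x.2 + B.l (ev x.1) ≤ e' then (1 : ℝ) else 0) -
          (if B.l x.2 + B.l (ev x.1) ≤ B.l s' then 1 else 0))) ≤
      (min (max (B.l x.2 + B.l (ev x.1)) (B.l s')) (max (e' + 1) (B.l s')) +
        max (min (B.l x.2 + B.l (ev x.1)) e') (min (B.l s' - 1) e')) -
      (min (max (B.l x.2) (B.l s')) (max (e' + 1) (B.l s')) +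
        max (min (B.l x.2) e') (min (B.l s' - 1) e')) := by
    intro x hx
    have hxl := l_ev_ge B x.1
    have h6 := count_start (B.l x.2) (B.l x.2 + B.l (ev x.1)) (B.l s') e' (by linarith)
    have h7 := count_end (B.l x.2) (B.l x.2 + B.l (ev x.1)) (B.l s') e' (by linarith)
    linarith
  have h6 := sum_map_le _ _ _ h5
  have h7 := sum_clamp B w s (fun u => min (max u (B.l s')) (max (e' + 1) (B.l s')) +
        max (min u e') (min (B.l s' - 1) e'))
  rw [h7] at h6
  rw [← he] at h6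
  have h8 : max (B.l s) (B.l s') ≤ e := by
    have := min_le_left e e'
    linarith
  have h9 : max (B.l s) (B.l s') ≤ e' := by
    have := min_le_right e e'
    linarith
  have h10 : B.l s ≤ e := (le_max_left _ _).trans h8
  have h11 : B.l s' ≤ e := (le_max_right _ _).trans h8
  have h12 : B.l s ≤ e' := (le_max_left _ _).trans h9
  have h13 : B.l s' ≤ e' := (le_max_right _ _).trans h9
  have h14 : max (e' + 1) (B.l s') = e' + 1 := max_eq_left (by linarith)
  have h15 : min (B.l s' - 1) e' = B.l s' - 1 := min_eq_left (by linarith)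
  have h16 : max e (B.l s') = e := max_eq_left h11
  have h17 : min (B.l s) e' = B.l s := min_eq_left h12
  rw [h14, h15, h16, h17] at h6
  have h18 : min e (e' + 1) ≤ min e e' + 1 := by
    rcases le_total e e' with h | h
    · rw [min_eq_left h]
      exact (min_le_left _ _).trans (by linarith)
    · rw [min_eq_right h]
      exact min_le_right _ _
  have h19 : min (max (B.l s) (B.l s')) (e' + 1) = max (B.l s) (B.l s') := min_eq_left (by linarith)
  have h20 : max (min e e') (B.l s' - 1) = min e e' := by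
    apply max_eq_left
    apply le_min <;> linarith
  have h21 : max (B.l s) (B.l s') - 1 ≤ max (B.l s) (B.l s' - 1) := by
    rcases le_total (B.l s) (B.l s') with h | h
    · rw [max_eq_right h]
      exact le_max_right _ _
    · rw [max_eq_left h]
      exact (by linarith : B.l s - 1 ≤ B.l s).trans (le_max_left _ _)
  rw [h19, h20] at h6
  linarith

end SteerAux

open SteerAux

namespace Par

variable {B : Base} (p : Par B)

/-- at most one vector with tiny real part near a given position -/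
theorem trap_unique (s : ℂ) (v v' : Vec) (h1 : |B.l v| < p.eps1) (h2 : ‖B.z v - s‖ ≤ B.Z3)
    (h3 : |B.c v| ≤ p.Cbig) (h1' : |B.l v'| < p.eps1) (h2' : ‖B.z v' - s‖ ≤ B.Z3)
    (h3' : |B.c v'| ≤ p.Cbig) : v = v' := by
  by_contra hne
  have h4 := B.norm_form (v - v') (sub_ne_zero.2 hne)
  rw [map_sub, map_sub, map_sub] at h4
  have h5 : |B.l v - B.l v'| ≤ 2 * p.eps1 := by
    have := abs_sub (B.l v) (B.l v')
    linarith
  have h6 : |B.c v - B.c v'| ≤ 2 * p.Cbig := by
    have := abs_sub (B.c v) (B.c v')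
    linarith
  have h7 : ‖B.z v - B.z v'‖ ≤ 2 * B.Z3 := by
    have h8 : B.z v - B.z v' = (B.z v - s) - (B.z v' - s) := by ring
    rw [h8]
    have := norm_sub_le (B.z v - s) (B.z v' - s)
    linarith
  have h8 : 0 < p.eps1 := p.eps1_pos
  have h9 : 0 ≤ p.Cbig := (abs_nonneg _).trans h3
  have h10 : 0 ≤ B.Z3 := (norm_nonneg _).trans h2
  have h11 : |B.l v - B.l v'| * |B.c v - B.c v'| * ‖B.z v - B.z v'‖ ^ 2 ≤
      (2 * p.eps1) * (2 * p.Cbig) * (2 * B.Z3) ^ 2 := by
    apply mul_le_mul _ (pow_le_pow_left₀ (norm_nonneg _) h7 2) (by positivity) (by positivity)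
    exact mul_le_mul h5 h6 (abs_nonneg _) (by positivity)
  have h12 := p.eps1_small
  have h13 : 16 * (B.l p.u / B.t0 ^ p.N) * B.CbK p.Kmk * (B.Z3 + 1) ^ 2 =
      16 * p.eps1 * p.Cbig * (B.Z3 + 1) ^ 2 := rfl
  rw [h13] at h12
  have h14 : (2 * p.eps1) * (2 * p.Cbig) * (2 * B.Z3) ^ 2 ≤ 16 * p.eps1 * p.Cbig * (B.Z3 + 1) ^ 2 := by
    have h15 : (2 * p.eps1) * (2 * p.Cbig) * (2 * B.Z3) ^ 2 = 16 * p.eps1 * p.Cbig * B.Z3 ^ 2 := by ring
    rw [h15]
    apply mul_le_mul_of_nonneg_left _ (by positivity)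
    exact pow_le_pow_left₀ h10 (by linarith) 2
  linarith

/-- overlap of two placed words, slivers (pieces shorter than 1/8) removed, is at least half of the total
overlap (if this is ≥ 2) -/
theorem sliver_half (B : Base) (w w' : List Ltr) (s s' : Vec) (Z : ℝ)
    (hZ : Z ≤ min (B.l (s + abv w)) (B.l (s' + abv w')) - max (B.l s) (B.l s')) (h2 : 2 ≤ Z) :
    Z / 2 ≤ (((tiles w s).map (fun x => ((tiles w' s').map (fun y =>
      if 1 / 8 ≤ B.I (x.1, y.1, y.2 - x.2) then B.I (x.1, y.1, y.2 - x.2) else 0)).sum)).sum) := by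
  have h3 := sum_overlap' B w w' s s'
  have h4 := sliver_sum B w w' s s' (by linarith)
  have h5 : (((tiles w s).map (fun x => ((tiles w' s').map (fun y =>
      if 1 / 8 ≤ B.I (x.1, y.1, y.2 - x.2) then B.I (x.1, y.1, y.2 - x.2) else 0)).sum)).sum) +
      (((tiles w s).map (fun x => ((tiles w' s').map (fun y =>
      if 1 / 8 ≤ B.I (x.1, y.1, y.2 - x.2) then 0 else B.I (x.1, y.1, y.2 - x.2))).sum)).sum) =
      (((tiles w s).map (fun x => ((tiles w' s').map (fun y => B.I (x.1, y.1, y.2 - x.2))).sum)).sum) := by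
    rw [← List.sum_map_add]
    congr 1
    apply List.map_congr_left
    intro x _
    rw [← List.sum_map_add]
    congr 1
    apply List.map_congr_left
    intro y _
    split_ifs <;> ring
  rw [max_eq_right (by linarith)] at h3
  linarith

end Par

namespace SteerAux

variable {B : Base} (p : Par B)

/-- choice of the target point -/
theorem exists_target (s : ℂ) : ∃ s2 : ℂ, ‖s2 - s‖ ≤ 2 * (B.K7 + B.g) + 1 ∧
    ∀ v : Vec, |B.l v| < p.eps1 → ‖B.z v - s‖ ≤ B.Z3 → |B.c v| ≤ p.Cbig → B.K7 + B.g < ‖B.z v - s2‖ := by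
  have hK7 : 0 ≤ B.K7 := by
    have := (Par.K_pos B).1
    unfold Base.K7
    linarith
  have hg := B.one_le_g
  by_cases h : ∃ v : Vec, |B.l v| < p.eps1 ∧ ‖B.z v - s‖ ≤ B.Z3 ∧ |B.c v| ≤ p.Cbig ∧
      ‖B.z v - s‖ ≤ B.K7 + B.g
  · obtain ⟨v0, h1, h2, h3, h4⟩ := h
    refine ⟨s + ((2 * (B.K7 + B.g) + 1 : ℝ) : ℂ), ?_, ?_⟩
    · rw [add_sub_cancel_left, Complex.norm_real, Real.norm_eq_abs, abs_of_nonneg (by linarith)]
    · intro v h5 h6 h7
      have h8 := Par.trap_unique p s v v0 h5 h6 h7 h1 h2 h3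
      subst h8
      have h9 : ‖((2 * (B.K7 + B.g) + 1 : ℝ) : ℂ)‖ = 2 * (B.K7 + B.g) + 1 := by
        rw [Complex.norm_real, Real.norm_eq_abs, abs_of_nonneg (by linarith)]
      have h10 : ((2 * (B.K7 + B.g) + 1 : ℝ) : ℂ) = (B.z v - s) -
          (B.z v - (s + ((2 * (B.K7 + B.g) + 1 : ℝ) : ℂ))) := by ring
      have h11 := norm_sub_le (B.z v - s) (B.z v - (s + ((2 * (B.K7 + B.g) + 1 : ℝ) : ℂ)))
      rw [← h10, h9] at h11
      linarith
  · push Not at h
    refine ⟨s, ?_, ?_⟩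
    · rw [sub_self, norm_zero]
      linarith
    · intro v h5 h6 h7
      exact h v h5 h6 h7

/-- one good pair of blocks -/
theorem block_sum (O : St) (s s2 : ℂ)
    (hs2 : ‖s2 - s‖ ≤ 2 * (B.K7 + B.g) + 1)
    (htr : ∀ v : Vec, |B.l v| < p.eps1 → ‖B.z v - s‖ ≤ B.Z3 → |B.c v| ≤ p.Cbig →
      B.K7 + B.g < ‖B.z v - s2‖)
    (G : St → ℝ) (hG0 : ∀ O', 0 ≤ G O') (hG : ∀ O', p.Good O' → ‖B.z O'.2.2 - s‖ ≤ B.Z3 → B.I O' ≤ G O')
    (h ρ : Vec) (hl : |B.l h| ≤ B.l p.u / 2) (hc : |B.c h| ≤ 2) (hρl : |B.l ρ| ≤ 1 / 2)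
    (hρz : ‖B.z (h + ρ) - s2‖ ≤ B.g) (hρc : |B.c ρ| ≤ B.g)
    (P1 P2 : Vec) (hP : (B.P ^ p.N).mulVec O.2.2 + P2 - P1 = h + ρ) :
    B.l p.u / 6 ≤ (((tiles (bal p.u0) P1).map (fun x => ((tiles (bal p.u0) P2).map (fun y =>
      G (child (B.P ^ p.N) O x y))).sum)).sum) := by
  have hK7 : 0 ≤ B.K7 := by
    have := (Par.K_pos B).1
    unfold Base.K7
    linarith
  have hg := B.one_le_g
  set v := (B.P ^ p.N).mulVec O.2.2 with hv
  have hGl : 0 ≤ B.l p.G := by
    apply l_nonneg
    intro a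
    have h0 : (0 : Vec) ∈ B.Dset := by
      refine ⟨?_, ?_, ?_⟩
      · rw [map_zero, abs_zero]
        linarith [(Par.K_pos B).2.2.2.2.2]
      · rw [map_zero, norm_zero]
        unfold Base.ZD Base.Z3
        linarith
      · rw [map_zero, abs_zero]
        have := (Par.K_pos B).2.2.2.2.1
        unfold Base.CD
        linarith
    simpa using (p.G_ge 0 h0 a).1
  have hlu := p.lu_big
  have hCl := (Par.K_pos B).2.2.2.2.2
  have hg0 : 0 ≤ 100 * (B.g0 : ℝ) * B.lmax := by
    have := (Par.K_pos B).2.2.2.1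
    positivity
  have hu0 : B.l p.u0 = B.l p.u - 2 * B.l p.G := by
    unfold Par.u0
    rw [map_sub, map_nsmul]
    simp
  have hab : abv (bal p.u0) = p.u0 := bal_abv p.u0_nonneg
  -- the overlap of the bodies
  have hZ : B.l p.u / 3 ≤ min (B.l (P1 + abv (bal p.u0))) (B.l (P2 + v + abv (bal p.u0))) -
      max (B.l P1) (B.l (P2 + v)) := by
    rw [hab]
    simp only [map_add]
    have h1 : B.l v + B.l P2 - B.l P1 = B.l h + B.l ρ := by
      rw [← map_add, ← map_sub, ← map_add, hP]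
    have h2 := abs_le.1 hl
    have h3 := abs_le.1 hρl
    rcases le_total (B.l P1) (B.l P2 + B.l v) with h4 | h4
    · rw [min_eq_left (by linarith), max_eq_right h4, hu0]
      linarith
    · rw [min_eq_right (by linarith), max_eq_left h4, hu0]
      linarith
  have h6 := Par.sliver_half B (bal p.u0) (bal p.u0) P1 (P2 + v) (B.l p.u / 3) hZ (by linarith)
  refine le_trans (by linarith) (h6.trans ?_)
  apply sum_map_le
  intro x hx
  have hsh : tiles (bal p.u0) (P2 + v) = (tiles (bal p.u0) P2).map (fun x => (x.1, x.2 + v)) :=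
    tiles_shift _ _ _
  rw [hsh, List.map_map]
  apply sum_map_le
  intro y hy
  simp only [Function.comp]
  have hch : child (B.P ^ p.N) O x y = (x.1, y.1, y.2 + v - x.2) := by
    unfold child
    rw [← hv, add_comm v]
  rw [hch]
  split_ifs with hI
  · -- positions
    have hx0 : ∃ x0 ∈ tiles (bal p.u0) 0, x.2 = x0.2 + P1 := by
      have h7 := tiles_shift (bal p.u0) 0 P1
      rw [zero_add] at h7
      rw [h7] at hx
      obtain ⟨x0, hx0, rfl⟩ := List.mem_map.1 hx
      exact ⟨x0, hx0, rfl⟩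
    have hy0 : ∃ y0 ∈ tiles (bal p.u0) 0, y.2 = y0.2 + P2 := by
      have h7 := tiles_shift (bal p.u0) 0 P2
      rw [zero_add] at h7
      rw [h7] at hy
      obtain ⟨y0, hy0, rfl⟩ := List.mem_map.1 hy
      exact ⟨y0, hy0, rfl⟩
    obtain ⟨x0, hx0, hx1⟩ := hx0
    obtain ⟨y0, hy0, hy1⟩ := hy0
    have hd : y.2 + v - x.2 = (h + ρ) + y0.2 - x0.2 := by
      rw [hx1, hy1, ← hP]
      abel
    have hxz := Par.body_zc p x0 hx0
    have hyz := Par.body_zc p y0 hy0
    have hz2 : ‖B.z (y.2 + v - x.2) - s2‖ ≤ B.K7 + B.g := by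
      rw [hd, map_sub, map_add]
      have h7 : B.z (h + ρ) + B.z y0.2 - B.z x0.2 - s2 = (B.z (h + ρ) - s2) + (B.z y0.2 - B.z x0.2) := by
        ring
      rw [h7]
      have h8 := norm_add_le (B.z (h + ρ) - s2) (B.z y0.2 - B.z x0.2)
      have h9 := norm_sub_le (B.z y0.2) (B.z x0.2)
      linarith [hxz.1, hyz.1]
    have hz1 : ‖B.z (y.2 + v - x.2) - s‖ ≤ B.Z3 := by
      have h7 : B.z (y.2 + v - x.2) - s = (B.z (y.2 + v - x.2) - s2) + (s2 - s) := by ring
      rw [h7]
      have h8 := norm_add_le (B.z (y.2 + v - x.2) - s2) (s2 - s)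
      unfold Base.Z3
      linarith
    have hc1 : |B.c (y.2 + v - x.2)| ≤ p.Cbig := by
      rw [hd, map_sub, map_add, map_add]
      have h7 : |B.c h + B.c ρ + B.c y0.2 - B.c x0.2| ≤ |B.c h| + |B.c ρ| + |B.c y0.2| + |B.c x0.2| := by
        have h8 := abs_sub (B.c h + B.c ρ + B.c y0.2) (B.c x0.2)
        have h9 := abs_add_three (B.c h) (B.c ρ) (B.c y0.2)
        linarith
      refine h7.trans ?_
      have h10 : B.CD ≤ p.Cbig / 8 ∧ B.K0 ≤ p.Cbig / 80 ∧ 4 ≤ p.Cbig / 20 := by
        have hK0 := (Par.K_pos B).1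
        have hCc := (Par.K_pos B).2.2.2.2.1
        have hkc : 0 ≤ B.kc := by
          unfold Base.kc
          linarith
        have hCD : 0 ≤ B.CD := by
          unfold Base.CD
          linarith
        have hKK : 0 ≤ (4 * (p.Kmk : ℝ)) * B.K0 := by positivity
        have hCt : 10 * B.K0 + 2 * B.CD + 4 ≤ B.CtK p.Kmk := by
          unfold Base.CtK
          nlinarith
        have hCb : 84 * B.CtK p.Kmk ≤ p.Cbig := by
          unfold Par.Cbig Base.CbK
          linarith
        refine ⟨?_, ?_, ?_⟩ <;> linarith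
      have h11 : B.K7 = 6 * B.K0 + 2 := rfl
      have h12 : B.g ≤ B.CD := by
        unfold Base.CD
        have hCc := (Par.K_pos B).2.2.2.2.1
        linarith
      linarith [hxz.2, hyz.2, h10.1, h10.2.1, h10.2.2]
    have hgood : p.Good (x.1, y.1, y.2 + v - x.2) := by
      refine ⟨hI, hc1, ?_⟩
      intro _
      by_contra hlt
      push Not at hlt
      have h7 := htr _ hlt hz1 hc1
      linarith
    exact hG _ hgood hz1
  · exact hG0 _

/-- windows -/
theorem exists_windows (s1 n T : ℕ) (Q : ℕ → Prop)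
    (h : ∀ s2, s1 ≤ s2 → s2 + T ≤ s1 + n → ∃ s, s2 ≤ s ∧ s < s2 + T ∧ Q s) :
    ∃ S : Finset ℕ, (∀ s ∈ S, Q s) ∧ S.card = n / T := by
  have h1 : ∀ j : Fin (n / T), ∃ s, s1 + j * T ≤ s ∧ s < s1 + j * T + T ∧ Q s := by
    intro j
    apply h
    · omega
    · have h2 : (j : ℕ) + 1 ≤ n / T := j.2
      have h3 : ((j : ℕ) + 1) * T ≤ n := (Nat.mul_le_mul_right T h2).trans (Nat.div_mul_le_self n T)
      rw [add_mul, one_mul] at h3
      omega
  choose f hf1 hf2 hf3 using h1
  have hinj : Function.Injective f := by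
    intro i j hij
    by_contra hne
    rcases lt_or_gt_of_ne hne with hlt | hlt
    · have h2 : ((i : ℕ) + 1) * T ≤ j * T := Nat.mul_le_mul_right T hlt
      rw [add_mul, one_mul] at h2
      have h3 := hf2 i
      have h4 := hf1 j
      omega
    · have h2 : ((j : ℕ) + 1) * T ≤ i * T := Nat.mul_le_mul_right T hlt
      rw [add_mul, one_mul] at h2
      have h3 := hf2 j
      have h4 := hf1 i
      omega
  refine ⟨Finset.univ.map ⟨f, hinj⟩, ?_, ?_⟩
  · intro s hs
    obtain ⟨j, _, rfl⟩ := Finset.mem_map.1 hs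
    exact hf3 j
  · rw [Finset.card_map, Finset.card_univ, Fintype.card_fin]

end SteerAux

namespace Par

variable {B : Base} (p : Par B)

/-- (S) -/
theorem steer (O : St) (s : ℂ) (hO : p.Good O) (hs : ‖B.w0 ^ p.N * B.z O.2.2 - s‖ ≤ B.Z3)
    (G : St → ℝ) (hG0 : ∀ O', 0 ≤ G O') (hG : ∀ O', p.Good O' → ‖B.z O'.2.2 - s‖ ≤ B.Z3 → B.I O' ≤ G O') :
    B.I O / (32 * p.T2) ≤ (natLevel B p.N p.sub p.sub_abv).op G O := by
  have hK0 := (K_pos B).1
  have hK7 : 0 ≤ B.K7 := by
    unfold Base.K7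
    linarith
  have hg := B.one_le_g
  obtain ⟨k, hk1, hk2, hk3, hk4, hk5, s1, n, hs1, hs2, hs3, hn⟩ := p.block_shift O hO
  set h := (B.P ^ p.N).mulVec O.2.2 + k • p.u with hh
  obtain ⟨s2, hs4, htr⟩ := exists_target p s
  obtain ⟨ρ, hρl, hρz, hρc⟩ := B.cover 0 0 (s2 - B.z h)
  rw [sub_zero] at hρl hρc
  have hρz' : ‖B.z (h + ρ) - s2‖ ≤ B.g := by
    have h1 : B.z (h + ρ) - s2 = B.z ρ - (s2 - B.z h) := by
      rw [map_add]
      ring
    rw [h1]
    exact hρz
  have hρD : ρ ∈ B.Dset := by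
    refine ⟨?_, ?_, ?_⟩
    · linarith [(K_pos B).2.2.2.2.2]
    · have h1 : B.z ρ = (B.z (h + ρ) - s2) + (s2 - s) - (B.w0 ^ p.N * B.z O.2.2 - s + (B.z h - B.w0 ^ p.N * B.z O.2.2)) + 0 := by
        rw [map_add]
        ring
      have h2 : ‖B.z ρ‖ ≤ ‖B.z (h + ρ) - s2‖ + ‖s2 - s‖ + (‖B.w0 ^ p.N * B.z O.2.2 - s‖ +
          ‖B.z h - B.w0 ^ p.N * B.z O.2.2‖) := by
        rw [h1, add_zero]
        refine (norm_sub_le _ _).trans ?_
        exact add_le_add (norm_add_le _ _) (norm_add_le _ _)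
      unfold Base.ZD
      linarith
    · have hCc := (K_pos B).2.2.2.2.1
      unfold Base.CD
      linarith
  -- the good pairs of blocks
  obtain ⟨T, hT, hTc⟩ := exists_windows s1 n p.T2 (fun r => ∃ r' : ℕ, (r' : ℤ) = r + k ∧ r < p.Ra O.1 ∧
      r' < p.Ra O.2.1 ∧ p.X ((O.1 : ℕ) * (p.R + 2) + r) = 0 ∧
      p.X ((O.2.1 : ℕ) * (p.R + 2) + r') = ρ) (by
    intro s3 h1 h2
    obtain ⟨r, r', h3, h4, h5, h6, h7, h8, h9⟩ := p.block_pair O k hk2 hk3 s3 (by omega) (by omega)
      (by omega) ρ hρD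
    exact ⟨r, h3, h4, r', h5, h6, h7, h8, h9⟩)
  rw [natLevel_op]
  -- the lower bound of the sum
  set F : Ltr × Vec → ℝ := fun x => ((tiles (p.sub O.2.1) 0).map (fun y =>
    G (child (B.P ^ p.N) O x y))).sum with hF
  have hF0 : ∀ x, 0 ≤ F x := by
    intro x
    apply List.sum_nonneg
    intro z hz
    obtain ⟨y, _, rfl⟩ := List.mem_map.1 hz
    exact hG0 _
  have h1 := p.sum_body_le O.1 T (fun r hr => (hT r hr).choose_spec.2.1) F hF0
  have h2 : (T.card : ℝ) * (B.l p.u / 6) ≤ ∑ r ∈ T, (((tiles (bal p.u0)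
        ((p.Kmk : ℤ) • ev 0 + ev 2 + (r : ℤ) • p.u + (p.G + p.X ((O.1 : ℕ) * (p.R + 2) + r)))).map F).sum) := by
    rw [← nsmul_eq_mul]
    apply Finset.card_nsmul_le_sum
    intro r hr
    obtain ⟨r', h3, h4, h5, h6, h7⟩ := hT r hr
    have h8 : ∀ x, (((tiles (bal p.u0)
        ((p.Kmk : ℤ) • ev 0 + ev 2 + (r' : ℤ) • p.u + (p.G + p.X ((O.2.1 : ℕ) * (p.R + 2) + r')))).map
        (fun y => G (child (B.P ^ p.N) O x y))).sum) ≤ F x := by
      intro x
      have h9 := p.sum_body_le O.2.1 {r'} (by simpa using h5) (fun y => G (child (B.P ^ p.N) O x y))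
        (fun y => hG0 _)
      rw [Finset.sum_singleton] at h9
      exact h9
    refine le_trans ?_ (sum_map_le _ _ _ (fun x _ => h8 x))
    rw [h6, h7]
    apply block_sum p O s s2 hs4 htr G hG0 hG h ρ hk1 hk5 hρl hρz' hρc
    rw [hh, h3, add_smul]
    abel
  have h3 : (T.card : ℝ) * (B.l p.u / 6) ≤ ((tiles (p.sub O.1) 0).map F).sum := h2.trans h1
  have ht : 0 < B.t0 ^ p.N := pow_pos (by linarith [B.one_lt_t0]) _
  have hlu : 0 < B.l p.u := by
    have h4 := p.eps1_pos
    unfold eps1 at h4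
    have h5 : 0 < p.t := ht
    exact (div_pos_iff_of_pos_right h5).1 h4
  have hT2 : (1 : ℝ) ≤ p.T2 := by exact_mod_cast p.one_le_T2
  -- cardinality
  have hcard : (n : ℝ) + 1 - p.T2 ≤ p.T2 * (T.card : ℝ) := by
    rw [hTc]
    have h4 : n < p.T2 * (n / p.T2) + p.T2 := by
      have h5 := Nat.div_add_mod n p.T2
      have h6 := Nat.mod_lt n (lt_of_lt_of_le Nat.one_pos p.one_le_T2)
      omega
    have h5 : n + 1 ≤ p.T2 * (n / p.T2) + p.T2 := h4
    have h6 : ((n + 1 : ℕ) : ℝ) ≤ ((p.T2 * (n / p.T2) + p.T2 : ℕ) : ℝ) := by exact_mod_cast h5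
    push_cast at h6
    linarith
  have hI := hO.1
  have hsm := p.T2_small
  have hn' : B.t0 ^ p.N * B.I O / B.l p.u - 4 ≤ n := hn
  -- final computation
  have h4 : B.t0 ^ p.N * B.I O - (4 + (p.T2 : ℝ)) * B.l p.u ≤ p.T2 * (T.card : ℝ) * B.l p.u := by
    have h5 : B.t0 ^ p.N * B.I O / B.l p.u - 4 - p.T2 ≤ p.T2 * (T.card : ℝ) := by linarith
    have h6 := mul_le_mul_of_nonneg_right h5 hlu.le
    have h7 : (B.t0 ^ p.N * B.I O / B.l p.u - 4 - p.T2) * B.l p.u =
        B.t0 ^ p.N * B.I O - (4 + (p.T2 : ℝ)) * B.l p.u := by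
      field_simp
      ring
    linarith
  have h5 : B.t0 ^ p.N * B.I O * (3 / 4) ≤ p.T2 * (T.card : ℝ) * B.l p.u := by
    have h6 : (4 + (p.T2 : ℝ)) * B.l p.u ≤ B.t0 ^ p.N / 32 := by linarith
    have h7 : B.t0 ^ p.N / 32 ≤ B.t0 ^ p.N * B.I O / 4 := by nlinarith
    linarith
  rw [div_le_iff₀ (by linarith), inv_mul_eq_div]
  have h6 : ((tiles (p.sub O.1) 0).map F).sum / B.t0 ^ p.N * (32 * p.T2) =
      (((tiles (p.sub O.1) 0).map F).sum * (32 * p.T2)) / B.t0 ^ p.N := by ring
  rw [h6, le_div_iff₀ ht]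
  have h7 : (T.card : ℝ) * (B.l p.u / 6) * (32 * p.T2) ≤
      ((tiles (p.sub O.1) 0).map F).sum * (32 * p.T2) :=
    mul_le_mul_of_nonneg_right h3 (by linarith)
  have h8 : 0 ≤ B.t0 ^ p.N * B.I O := by
    have := I_nonneg B O
    positivity
  nlinarith

end Par

end Pool.Agent.RS69
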