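import Pool.Agent.SRig.Psd

/-!
# RS69 : a rigid primitive substitution with Salem Perron-Frobenius eigenvalue (MP_ec87dd_an, S06584)

Definitions shared by all modules.  Paper proof: team-store `MP_ec87dd_proof_helper69.md`.
-/

set_option autoImplicit false

namespace Pool.Agent.RS69

/-- displacement vectors -/
abbrev Vec := Fin 4 → ℤ

/-- letters -/
abbrev Ltr := Fin 4

/-- states of the overlap chain: `(a, b, v)`, tile `a` at `0` and tile `b` at `v` -/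
abbrev St := Ltr × Ltr × Vec

/-- unit vector of a letter -/
def ev (a : Ltr) : Vec := Pi.single a 1

/-- letter counts of a word -/
def abv (w : List Ltr) : Vec := fun a => (w.count a : ℤ)

/-- tiles of a word: letters together with their prefix vectors, the first one starting at `s` -/
def tiles : List Ltr → Vec → List (Ltr × Vec)
  | [], _ => []
  | a :: w, s => (a, s) :: tiles w (s + ev a)

/-- The arithmetic data (a quartic Salem unit with a nonnegative primitive matrix, its left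
functionals `l` (Perron), `c` (contracting), `z` (neutral, complex), right Perron vector `f`). -/
structure Base where
  P : Matrix (Fin 4) (Fin 4) ℤ
  Q : Matrix (Fin 4) (Fin 4) ℤ
  PQ : P * Q = 1
  QP : Q * P = 1
  P_nonneg : ∀ a b, 0 ≤ P a b
  P_prim : ∃ n0 : ℕ, ∀ n, n0 ≤ n → ∀ a b, 0 < (P ^ n) a b
  t0 : ℝ
  one_lt_t0 : 1 < t0
  w0 : ℂ
  norm_w0 : ‖w0‖ = 1
  w0_pow_ne : ∀ n : ℕ, 1 ≤ n → w0 ^ n ≠ 1
  l : Vec →+ ℝ
  c : Vec →+ ℝ
  z : Vec →+ ℂ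
  l_P : ∀ v, l (P.mulVec v) = t0 * l v
  c_P : ∀ v, c (P.mulVec v) = t0⁻¹ * c v
  z_P : ∀ v, z (P.mulVec v) = w0 * z v
  l_ge : ∀ a, 1 ≤ l (ev a)
  f : Ltr → ℝ
  f_pos : ∀ a, 0 < f a
  f_P : ∀ a, ∑ b, (P a b : ℝ) * f b = t0 * f a
  f_l : ∑ a, f a * l (ev a) = 1
  norm_form : ∀ v, v ≠ 0 → 1 ≤ |l v| * |c v| * ‖z v‖ ^ 2
  Ciso : ℝ
  iso : ∀ v : Vec, ∀ a, |(v a : ℝ) - l v * f a| ≤ Ciso * (‖z v‖ + |c v|)
  g : ℝ
  one_le_g : 1 ≤ g
  cover : ∀ (x y : ℝ) (s : ℂ), ∃ v : Vec, |l v - x| ≤ 1 / 2 ∧ ‖z v - s‖ ≤ g ∧ |c v - y| ≤ g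

namespace Base

variable (B : Base)

/-- an upper bound of all tile lengths -/
noncomputable def lmax : ℝ := ∑ a, B.l (ev a)

/-- overlap length of a state -/
noncomputable def I (O : St) : ℝ :=
  max 0 (min (B.l (ev O.1)) (B.l O.2.2 + B.l (ev O.2.1)) - max 0 (B.l O.2.2))

/-- deviation constant of balanced words -/
noncomputable def K0 : ℝ := 3 * max (∑ a, ‖B.z (ev a)‖) (∑ a, |B.c (ev a)|)

/-- bound of `c` on prefixes of kick words -/
noncomputable def kc : ℝ := 5 * B.K0 + 2 * B.g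

/-- range of `c` on the targets of the reach property -/
noncomputable def Cc : ℝ := 2 * B.kc + 1

end Base

/-- coincidence -/
def Coin (O : St) : Prop := O.1 = O.2.1 ∧ O.2.2 = 0

instance (O : St) : Decidable (Coin O) := by unfold Coin; infer_instance

/-- child state of `O` determined by a tile `x` of the first word and a tile `y` of the second -/
def child (M : Matrix (Fin 4) (Fin 4) ℤ) (O : St) (x y : Ltr × Vec) : St :=
  (x.1, y.1, M.mulVec O.2.2 + y.2 - x.2)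

/-- indicator function of a state -/
noncomputable def ind (O' : St) : St → ℝ := fun O => if O = O' then 1 else 0

/-- A level: finitely many substitutions with the same incidence matrix `P^k`, with
probability weights. -/
structure Level (B : Base) where
  k : ℕ
  E : Type
  [fE : Fintype E]
  β : E → ℝ
  β_nonneg : ∀ η, 0 ≤ β η
  β_sum : ∑ η, β η = 1
  sub : E → Ltr → List Ltr
  ab : ∀ η a, abv (sub η a) = (B.P ^ k).mulVec (ev a)

attribute [instance] Level.fE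

namespace Level

variable {B : Base} (τ : Level B)

noncomputable def t : ℝ := B.t0 ^ τ.k
noncomputable def w : ℂ := B.w0 ^ τ.k
def M : Matrix (Fin 4) (Fin 4) ℤ := B.P ^ τ.k

/-- transfer operator of a level -/
noncomputable def op (F : St → ℝ) (O : St) : ℝ :=
  (τ.t)⁻¹ * ∑ η, ∑ η', τ.β η * τ.β η' *
    ((tiles (τ.sub η O.1) 0).map (fun x =>
      ((tiles (τ.sub η' O.2.1) 0).map (fun y => F (child τ.M O x y))).sum)).sum

/-- coincident length (normalised) after `n` levels -/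
noncomputable def H : ℕ → St → ℝ
  | 0 => fun O => if Coin O then B.l (ev O.1) else 0
  | n + 1 => τ.op (H n)

/-- probability of coincidence after `n` levels -/
noncomputable def h (n : ℕ) (O : St) : ℝ := τ.H n O / B.I O

/-- mean oscillation: `P^j (I |h_n - h_{n+j}(E)|)(E)` -/
noncomputable def osc (n j : ℕ) (E : St) : ℝ :=
  (τ.op^[j] (fun O => B.I O * |τ.h n O - τ.h (n + j) E|)) E

end Level

/-- the level given by one substitution -/
def natLevel (B : Base) (N : ℕ) (σ : Ltr → List Ltr)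
    (h : ∀ a, abv (σ a) = (B.P ^ N).mulVec (ev a)) : Level B where
  k := N
  E := Unit
  β := fun _ => 1
  β_nonneg := fun _ => zero_le_one
  β_sum := by simp
  sub := fun _ => σ
  ab := fun _ a => h a

/-- weighted arrays -/
structure Arr where
  ι : Type
  [fι : Fintype ι]
  lt : ι → Ltr
  pos : ι → ℝ
  zp : ι → ℂ
  w : ι → ℝ
  w_nonneg : ∀ i, 0 ≤ w i

attribute [instance] Arr.fι

/-- the array obtained by applying a level -/
noncomputable def push {B : Base} (τ : Level B) (ν : Arr) : Arr where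
  ι := Σ i : ν.ι, Σ η : τ.E, Fin (tiles (τ.sub η (ν.lt i)) 0).length
  lt := fun x => ((tiles (τ.sub x.2.1 (ν.lt x.1)) 0).get x.2.2).1
  pos := fun x => ν.pos x.1 / τ.t + B.c ((tiles (τ.sub x.2.1 (ν.lt x.1)) 0).get x.2.2).2
  zp := fun x => τ.w * ν.zp x.1 + B.z ((tiles (τ.sub x.2.1 (ν.lt x.1)) 0).get x.2.2).2
  w := fun x => ν.w x.1 * τ.β x.2.1 / τ.t
  w_nonneg := fun x => div_nonneg (mul_nonneg (ν.w_nonneg _) (τ.β_nonneg _))
    (pow_nonneg (by linarith [B.one_lt_t0]) _)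

/-- scaled kernel in the contracting coordinate: `D k0(D ζ x)`, `k0(x) = (1-|x|)_+^2 (2+|x|)/2` -/
noncomputable def KD (ζ D x : ℝ) : ℝ := SRig.Kd D (ζ * x)

/-- Gaussian kernel in the neutral coordinate: `r^{-2} exp(-|s|^2/(2 r^2))` -/
noncomputable def Jr (r : ℝ) (s : ℂ) : ℝ := SRig.Jg r s

/-- the constant kernel -/
def Jone : ℂ → ℝ := fun _ => 1

/-- the basic pairing -/
noncomputable def Bf (B : Base) (ζ D : ℝ) (J : ℂ → ℝ) (ν : Arr) (F : St → ℝ) : ℝ :=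
  ∑ i, ∑ j, ν.w i * ν.w j *
    ∑' V : Vec, KD ζ D (B.c V + ν.pos i - ν.pos j) * J (B.z V + ν.zp i - ν.zp j) *
      F (ν.lt i, ν.lt j, V)

/-- Gram form -/
noncomputable def QF (B : Base) (ζ D : ℝ) (J : ℂ → ℝ) (ν : Arr) : ℝ :=
  ∑ i, ∑ j, if ν.lt i = ν.lt j then
    B.l (ev (ν.lt i)) * (ν.w i * ν.w j * (KD ζ D (ν.pos i - ν.pos j) * J (ν.zp i - ν.zp j))) else 0

/-- `F` lives on states with bounded `l` and `z` -/
def Bdd (B : Base) (R : ℝ) (F : St → ℝ) : Prop :=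
  ∀ O, F O ≠ 0 → |B.l O.2.2| ≤ R ∧ ‖B.z O.2.2‖ ≤ R

/-- The class `C` of arrays -/
def InC (B : Base) (Cν : ℝ) (ν : Arr) : Prop :=
  (∀ a, (∑ i, if ν.lt i = a then ν.w i else 0) = B.f a) ∧ ∀ i, |ν.pos i| ≤ Cν

/-- The class `C0` of arrays -/
def InC0 (B : Base) (Cν : ℝ) (ν : Arr) : Prop := InC B Cν ν ∧ ∀ i, ν.zp i = 0

/-- the reference array -/
noncomputable def nu0 (B : Base) : Arr where
  ι := Ltr
  lt := id
  pos := fun _ => 0
  zp := fun _ => 0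
  w := B.f
  w_nonneg := fun a => (B.f_pos a).le

/-- Properties of the designed substitution (section 4 of the paper proof). -/
structure Design (B : Base) where
  N : ℕ
  one_le_N : 1 ≤ N
  σ : Ltr → List Ltr
  ab : ∀ a, abv (σ a) = (B.P ^ N).mulVec (ev a)
  Mpos : ∀ a b, 0 < (B.P ^ N) a b
  t_big : 100 ≤ B.t0 ^ N
  /-- every `σ a` starts with the letter `0` and ends with the letter `1` -/
  head0 : ∀ a, ∃ w, σ a = 0 :: w
  last1 : ∀ a, ∃ w, σ a = w ++ [1]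
  Zt : ℝ
  Ct : ℝ
  Zt_nonneg : 0 ≤ Zt
  Ct_nonneg : 0 ≤ Ct
  tube : ∀ a, ∀ x ∈ tiles (σ a) 0, ‖B.z x.2‖ ≤ Zt ∧ |B.c x.2| ≤ Ct
  Cbig : ℝ
  Z3 : ℝ
  A : ℝ
  two_le_A : 2 ≤ A
  A_pow : A ^ 40 ≤ B.t0 ^ N
  Z3_nonneg : 0 ≤ Z3
  /-- `Cν = 2 (Ct + kc)`, `1/ζ0 = 20 (Cc + 2 Cν + 1)`, `Cbig ≥ 1/ζ0 + 2 Cν + 4 Ct` -/
  Cbig_ge : 20 * (B.Cc + 2 * (2 * (Ct + B.kc)) + 1) + 2 * (2 * (Ct + B.kc)) + 4 * Ct ≤ Cbig
  Cbig_le : Cbig ≤ B.t0 ^ N
  Good : St → Prop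
  good_I : ∀ O, Good O → 1 / 8 ≤ B.I O
  good_nc : ∀ O, Good O → ¬ Coin O
  good_c : ∀ O, Good O → |B.c O.2.2| ≤ Cbig
  /-- (F) -/
  full : ∀ O O', Good O → 0 < B.I O' → ‖B.z O'.2.2 - B.w0 ^ N * B.z O.2.2‖ ≤ 2 * B.g + 1 →
    |B.c O'.2.2| ≤ B.Cc →
    (B.t0 ^ N)⁻¹ ≤ (natLevel B N σ ab).op (ind O') O
  /-- (G) -/
  dense : ∀ s : ℂ, ∃ O, Good O ∧ ‖B.z O.2.2 - s‖ ≤ B.g ∧ |B.c O.2.2| ≤ B.g
  /-- (S) -/
  steer : ∀ O (s : ℂ), Good O → ‖B.w0 ^ N * B.z O.2.2 - s‖ ≤ Z3 →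
    ∀ G : St → ℝ, (∀ O', 0 ≤ G O') → (∀ O', Good O' → ‖B.z O'.2.2 - s‖ ≤ Z3 → B.I O' ≤ G O') →
      B.I O / A ≤ (natLevel B N σ ab).op G O
  /-- (N) -/
  gv : St → Vec
  Cg : ℝ
  gv_prop : ∀ O, 0 < B.I O → ¬ Coin O → ¬ Good O → |B.c O.2.2| ≤ Cbig →
    gv O ≠ 0 ∧ |B.l (gv O)| ≤ 1 ∧ ‖B.z (gv O) - B.z O.2.2‖ ≤ Cg ∧ |B.c (gv O) - B.c O.2.2| ≤ Cg
  ngc : ∀ O O', 0 < B.I O → ¬ Coin O → |B.c O.2.2| ≤ Cbig →
    (∀ G, Good G → (natLevel B N σ ab).op (ind G) O = 0) →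
    0 < B.I O' → (natLevel B N σ ab).op (ind O') O ≠ 0 →
    ¬ Coin O' ∧ gv O' = (B.P ^ N).mulVec (gv O)

namespace Design

variable {B : Base} (D : Design B)

/-- the natural level -/
def S : Level B := natLevel B D.N D.σ D.ab

noncomputable def t : ℝ := B.t0 ^ D.N
noncomputable def w : ℂ := B.w0 ^ D.N

noncomputable def Cν : ℝ := 2 * (D.Ct + B.kc)
noncomputable def ζ0 : ℝ := (20 * (B.Cc + 2 * D.Cν + 1))⁻¹

/-- flat totals -/
noncomputable def cn (ν : Arr) (n : ℕ) : ℝ := Bf B D.ζ0 1 Jone ν (D.S.H n)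

/-- localised totals -/
noncomputable def Qn (ν : Arr) (n : ℕ) (r : ℝ) : ℝ := Bf B D.ζ0 1 (Jr r) ν (D.S.H n)

/-- `E` has no good child -/
def NGC (O : St) : Prop := ∀ G, D.Good G → D.S.op (ind G) O = 0

/-- smax -/
noncomputable def smax (C : ℝ) (W : ℕ) : ℕ := ⌈Real.log (C * (1 + (W : ℝ)) ^ 2) / Real.log D.t⌉₊

end Design

/-- A kick level for the design `D`: `L` natural levels long, radius `r0`, quality `ε`. -/
structure Kick {B : Base} (D : Design B) (L : ℕ) (r0 ε : ℝ) where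
  κ : Level B
  k_eq : κ.k = D.N * L
  one_le_L : 1 ≤ L
  c_bd : ∀ η a, ∀ x ∈ tiles (κ.sub η a) 0, |B.c x.2| ≤ B.kc
  z_bd : ∀ η a, ∀ x ∈ tiles (κ.sub η a) 0, ‖B.z x.2‖ ≤ 5 * B.K0 + 2 * r0
  coin : ∀ m a, κ.op (D.S.H m) (a, a, 0) ≤ ε * B.l (ev a)

end Pool.Agent.RS69
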