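import Pool.Agent.RS69.Coin
import Pool.Agent.SRig.Rec

/-!
# RS69.En1 : oscillation and entropy of the harmonic functions `h_n` (section 3), `phi(x) = x^{5/4}`

All sums are finite: use `iter_rep`.  With `y = h_{n+j}(E)` fixed, `p_O = (op^j 1_O)(E) I(O)` are weights of
total mass `I(E)` (`iter_I`) with `∑ p_O h_n(O) = I(E) y` (`op_iter_H`, `I_mul_h`).
`osc_le`: Cauchy-Schwarz and `SRig.sq_sub_le_Dphi`, `max(x,y)^{3/4} ≤ x^{3/4} + y^{3/4}`, `iter_pow_le`.
-/

set_option autoImplicit false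

namespace Pool.Agent.RS69

variable {B : Base} (D : Design B)

noncomputable def phi (x : ℝ) : ℝ := x ^ (5 / 4 : ℝ)

/-- entropy produced in `j` steps -/
noncomputable def ent (n j : ℕ) (E : St) : ℝ :=
  (D.S.op^[j] (fun O => B.I O * phi (D.S.h n O))) E - B.I E * phi (D.S.h (n + j) E)

/-- all the finite sums at once -/
private theorem en1_rep (n j : ℕ) (E : St) :
    ∃ (ι : Type) (_ : Fintype ι) (p x : ι → ℝ), (∀ i, 0 ≤ p i) ∧ (∀ i, 0 ≤ x i) ∧
      (∑ i, p i = B.I E) ∧ (∑ i, p i * x i = B.I E * D.S.h (n + j) E) ∧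
      ∀ f : ℝ → ℝ, (D.S.op^[j] (fun O => B.I O * f (D.S.h n O))) E = ∑ i, p i * f (x i) := by
  obtain ⟨ι, hι, c, st, hc, h⟩ := iter_fin D.S j E
  refine ⟨ι, hι, fun i => c i * B.I (st i), fun i => D.S.h n (st i),
    fun i => mul_nonneg (hc i) (I_nonneg B _), fun i => h_nonneg D n _, ?_, ?_, ?_⟩
  · rw [← h, iter_I]
  · have h1 : ∑ i, c i * B.I (st i) * D.S.h n (st i) = ∑ i, c i * D.S.H n (st i) :=
      Finset.sum_congr rfl fun i _ => by rw [mul_assoc, I_mul_h]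
    rw [h1, ← h, op_iter_H, I_mul_h]
  · intro f
    rw [h]
    exact Finset.sum_congr rfl fun i _ => by ring

/-- the entropy is the mean Bregman divergence -/
theorem ent_eq (n j : ℕ) (E : St) :
    ent D n j E = (D.S.op^[j] (fun O => B.I O * SRig.Dphi (D.S.h n O) (D.S.h (n + j) E))) E := by
  obtain ⟨ι, _, p, x, hp, hx, h1, h2, h3⟩ := en1_rep D n j E
  unfold ent
  rw [h3 phi, h3 (fun x => SRig.Dphi x (D.S.h (n + j) E))]
  set y := D.S.h (n + j) E
  have h4 : ∑ i, p i * SRig.Dphi (x i) y = ∑ i, p i * phi (x i) - (∑ i, p i) * phi y -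
      5 / 4 * y ^ (1 / 4 : ℝ) * (∑ i, p i * x i - (∑ i, p i) * y) := by
    rw [Finset.sum_mul, Finset.sum_mul, ← Finset.sum_sub_distrib, ← Finset.sum_sub_distrib,
      Finset.mul_sum, ← Finset.sum_sub_distrib]
    refine Finset.sum_congr rfl fun i _ => ?_
    unfold SRig.Dphi phi
    ring
  rw [h4, h1, h2]
  ring

theorem ent_nonneg (n j : ℕ) (E : St) : 0 ≤ ent D n j E := by
  rw [ent_eq]
  exact iter_nonneg _ _ (fun O => mul_nonneg (I_nonneg B O)
    (SRig.Dphi_nonneg (h_nonneg D n O) (h_nonneg D _ E))) E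

/-- Jensen for the concave power -/
theorem iter_pow_le (n j : ℕ) (E : St) :
    (D.S.op^[j] (fun O => B.I O * D.S.h n O ^ (3 / 4 : ℝ))) E ≤ B.I E * D.S.h (n + j) E ^ (3 / 4 : ℝ) := by
  obtain ⟨ι, _, p, x, hp, hx, h1, h2, h3⟩ := en1_rep D n j E
  rw [h3 (fun x => x ^ (3 / 4 : ℝ))]
  set y := D.S.h (n + j) E
  rcases eq_or_lt_of_le (I_nonneg B E) with h0 | h0
  · rw [← h0] at h1 ⊢
    have h4 : ∀ i, p i = 0 := fun i =>
      (Finset.sum_eq_zero_iff_of_nonneg (fun i _ => hp i)).1 h1 i (Finset.mem_univ i)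
    simp [h4]
  · have hc := Real.concaveOn_rpow (p := 3 / 4) (by norm_num) (by norm_num)
    have h4 := hc.le_map_sum (t := Finset.univ) (w := fun i => p i / B.I E) (p := x)
      (fun i _ => div_nonneg (hp i) h0.le)
      (by rw [← Finset.sum_div, h1, div_self h0.ne'])
      (fun i _ => hx i)
    simp only [smul_eq_mul] at h4
    have h5 : ∑ i, p i / B.I E * x i = y := by
      have : ∑ i, p i / B.I E * x i = (∑ i, p i * x i) / B.I E := by
        rw [Finset.sum_div]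
        exact Finset.sum_congr rfl fun i _ => by ring
      rw [this, h2]
      field_simp
    rw [h5] at h4
    have h6 : ∑ i, p i * x i ^ (3 / 4 : ℝ) = B.I E * ∑ i, p i / B.I E * x i ^ (3 / 4 : ℝ) := by
      rw [Finset.mul_sum]
      refine Finset.sum_congr rfl fun i _ => ?_
      field_simp
    rw [h6]
    exact mul_le_mul_of_nonneg_left h4 h0.le

/-- pointwise bound of the oscillation -/
theorem osc_le (n j : ℕ) (E : St) :
    D.S.osc n j E ≤ 8 * Real.sqrt (ent D n j E) *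
      Real.sqrt (2 * (B.I E * D.S.h (n + j) E ^ (3 / 4 : ℝ))) := by
  have hent := ent_eq D n j E
  have hpow := iter_pow_le D n j E
  obtain ⟨ι, _, p, x, hp, hx, h1, h2, h3⟩ := en1_rep D n j E
  rw [h3 (fun x => SRig.Dphi x (D.S.h (n + j) E))] at hent
  rw [h3 (fun x => x ^ (3 / 4 : ℝ))] at hpow
  unfold Level.osc
  rw [h3 (fun x => |x - D.S.h (n + j) E|)]
  have hy : 0 ≤ D.S.h (n + j) E := h_nonneg D _ E
  set y := D.S.h (n + j) E
  have hD : ∀ i, 0 ≤ SRig.Dphi (x i) y := fun i => SRig.Dphi_nonneg (hx i) hy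
  have hm : ∀ i, 0 ≤ max (x i) y ^ (3 / 4 : ℝ) := fun i =>
    Real.rpow_nonneg ((hx i).trans (le_max_left _ _)) _
  have h4 : ∑ i, p i * |x i - y| ≤
      ∑ i, Real.sqrt (p i * (64 * SRig.Dphi (x i) y)) * Real.sqrt (p i * max (x i) y ^ (3 / 4 : ℝ)) := by
    refine Finset.sum_le_sum fun i _ => ?_
    rw [← Real.sqrt_mul (mul_nonneg (hp i) (mul_nonneg (by norm_num) (hD i)))]
    apply Real.le_sqrt_of_sq_le
    rw [mul_pow, sq_abs]
    have h5 := SRig.sq_sub_le_Dphi (hx i) hy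
    have h6 := mul_le_mul_of_nonneg_left h5 (sq_nonneg (p i))
    calc p i ^ 2 * (x i - y) ^ 2 ≤ _ := h6
      _ = _ := by ring
  have h5 := Real.sum_mul_le_sqrt_mul_sqrt (Finset.univ : Finset ι)
    (fun i => Real.sqrt (p i * (64 * SRig.Dphi (x i) y)))
    (fun i => Real.sqrt (p i * max (x i) y ^ (3 / 4 : ℝ)))
  have h6 : ∑ i, Real.sqrt (p i * (64 * SRig.Dphi (x i) y)) ^ 2 = 64 * ent D n j E := by
    rw [hent, Finset.mul_sum]
    refine Finset.sum_congr rfl fun i _ => ?_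
    rw [Real.sq_sqrt (mul_nonneg (hp i) (mul_nonneg (by norm_num) (hD i)))]
    ring
  have h7 : ∑ i, Real.sqrt (p i * max (x i) y ^ (3 / 4 : ℝ)) ^ 2 ≤ 2 * (B.I E * y ^ (3 / 4 : ℝ)) := by
    have h8 : ∑ i, Real.sqrt (p i * max (x i) y ^ (3 / 4 : ℝ)) ^ 2 ≤
        ∑ i, (p i * x i ^ (3 / 4 : ℝ) + p i * y ^ (3 / 4 : ℝ)) := by
      refine Finset.sum_le_sum fun i _ => ?_
      rw [Real.sq_sqrt (mul_nonneg (hp i) (hm i)), ← mul_add]
      refine mul_le_mul_of_nonneg_left ?_ (hp i)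
      have hx' : 0 ≤ x i ^ (3 / 4 : ℝ) := Real.rpow_nonneg (hx i) _
      have hy' : 0 ≤ y ^ (3 / 4 : ℝ) := Real.rpow_nonneg hy _
      rcases le_total (x i) y with h | h
      · rw [max_eq_right h]; linarith
      · rw [max_eq_left h]; linarith
    rw [Finset.sum_add_distrib, ← Finset.sum_mul, h1] at h8
    linarith
  have h8 : Real.sqrt (64 * ent D n j E) = 8 * Real.sqrt (ent D n j E) := by
    rw [Real.sqrt_mul (by norm_num), show (64 : ℝ) = 8 ^ 2 by norm_num,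
      Real.sqrt_sq (by norm_num)]
  calc ∑ i, p i * |x i - y| ≤ _ := h4
    _ ≤ _ := h5
    _ ≤ _ := by
      rw [h6, h8]
      exact mul_le_mul_of_nonneg_left (Real.sqrt_le_sqrt h7) (by positivity)

theorem osc_nonneg (n j : ℕ) (E : St) : 0 ≤ D.S.osc n j E := by
  exact iter_nonneg _ _ (fun O => mul_nonneg (I_nonneg B O) (abs_nonneg _)) E

theorem Bdd_of_le_H {F : St → ℝ} (n : ℕ) (h : ∀ O, F O ≠ 0 → D.S.H n O ≠ 0) : ∃ R, Bdd B R F := by
  refine ⟨max B.lmax (2 * D.Zt * n), fun O hO => ?_⟩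
  have h1 := h O hO
  have h2 : 0 < B.I O :=
    lt_of_lt_of_le (lt_of_le_of_ne (H_nonneg D n O) (Ne.symm h1)) (H_le_I D n O)
  exact ⟨(abs_l_le_of_I_pos B O h2).trans (le_max_left _ _),
    (H_supp D n O h1).trans (le_max_right _ _)⟩

/-- bounded support of all functions built from `h_n` -/
theorem Bdd_H (n : ℕ) : ∃ R, Bdd B R (D.S.H n) := by
  exact Bdd_of_le_H D n fun _ h => h

/-- if `H_{n+j}(E) = 0` all descendants have `H_n = 0` -/
theorem osc_eq_zero (n j : ℕ) (E : St) (h : D.S.H (n + j) E = 0) : D.S.osc n j E = 0 := by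
  obtain ⟨ι, _, p, x, hp, hx, h1, h2, h3⟩ := en1_rep D n j E
  rw [I_mul_h, h] at h2
  unfold Level.osc
  rw [h3 (fun x => |x - D.S.h (n + j) E|)]
  have hy : D.S.h (n + j) E = 0 := by unfold Level.h; rw [h, zero_div]
  rw [hy]
  have h4 : ∑ i, p i * |x i - 0| = ∑ i, p i * x i :=
    Finset.sum_congr rfl fun i _ => by rw [sub_zero, abs_of_nonneg (hx i)]
  rw [h4, h2]

theorem ent_eq_zero (n j : ℕ) (E : St) (h : D.S.H (n + j) E = 0) : ent D n j E = 0 := by
  rw [ent_eq]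
  obtain ⟨ι, _, p, x, hp, hx, h1, h2, h3⟩ := en1_rep D n j E
  rw [I_mul_h, h] at h2
  rw [h3 (fun x => SRig.Dphi x (D.S.h (n + j) E))]
  have hy : D.S.h (n + j) E = 0 := by unfold Level.h; rw [h, zero_div]
  rw [hy]
  refine Finset.sum_eq_zero fun i _ => ?_
  have h4 := (Finset.sum_eq_zero_iff_of_nonneg (fun i _ => mul_nonneg (hp i) (hx i))).1 h2 i
    (Finset.mem_univ i)
  rcases mul_eq_zero.1 h4 with h5 | h5
  · rw [h5, zero_mul]
  · rw [h5]
    simp [SRig.Dphi]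

theorem Bdd_osc (n j : ℕ) : ∃ R, Bdd B R (D.S.osc n j) := by
  refine Bdd_of_le_H D (n + j) fun O hO h => hO (osc_eq_zero D n j O h)

end Pool.Agent.RS69
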