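import Pool.Agent.RS69.Tr2

/-!
# RS69.Tr3 : the classes of arrays are stable; monotonicity after natural steps
-/

set_option autoImplicit false

namespace Pool.Agent.RS69

variable {B : Base}

private theorem f_Ppow (B : Base) (k : ℕ) (a : Ltr) :
    ∑ b, ((B.P ^ k) a b : ℝ) * B.f b = B.t0 ^ k * B.f a := by
  induction k generalizing a with
  | zero =>
    simp [Matrix.one_apply]
  | succ k ih =>
    rw [pow_succ]
    simp only [Matrix.mul_apply, Int.cast_sum, Int.cast_mul, Finset.sum_mul]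
    rw [Finset.sum_comm]
    have h1 : ∀ x, ∑ b, ((B.P ^ k) a x : ℝ) * (B.P x b : ℝ) * B.f b =
        B.t0 * (((B.P ^ k) a x : ℝ) * B.f x) := by
      intro x
      have h2 := B.f_P x
      have h3 : ∑ b, ((B.P ^ k) a x : ℝ) * (B.P x b : ℝ) * B.f b =
          ((B.P ^ k) a x : ℝ) * ∑ b, (B.P x b : ℝ) * B.f b := by
        rw [Finset.mul_sum]
        exact Finset.sum_congr rfl fun b _ => by ring
      rw [h3, h2]
      ring
    rw [Finset.sum_congr rfl fun x _ => h1 x, ← Finset.mul_sum, ih]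
    ring

/-- masses are preserved (`P f = t0 f`) -/
theorem push_mass (τ : Level B) (ν : Arr)
    (h : ∀ a, (∑ i, if ν.lt i = a then ν.w i else 0) = B.f a) :
    ∀ a, (∑ i, if (push τ ν).lt i = a then (push τ ν).w i else 0) = B.f a := by
  intro a
  have ht : 0 < τ.t := t_pos τ
  have h1 : (∑ i, if (push τ ν).lt i = a then (push τ ν).w i else 0) =
      ∑ x, (push τ ν).w x * (fun (b : Ltr) (_ : ℝ) (_ : ℂ) => if b = a then (1 : ℝ) else 0)
        ((push τ ν).lt x) ((push τ ν).pos x) ((push τ ν).zp x) := by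
    refine Finset.sum_congr rfl fun x _ => ?_
    dsimp only
    split_ifs <;> simp
  have h2 : ∀ i, ν.w i * ((τ.t)⁻¹ * ∑ η, τ.β η * ((tiles (τ.sub η (ν.lt i)) 0).map (fun y =>
        (fun (b : Ltr) (_ : ℝ) (_ : ℂ) => if b = a then (1 : ℝ) else 0) y.1
          (ν.pos i / τ.t + B.c y.2) (τ.w * ν.zp i + B.z y.2))).sum) =
      ∑ b, (τ.t)⁻¹ * ((B.P ^ τ.k) a b : ℝ) * (if ν.lt i = b then ν.w i else 0) := by
    intro i
    dsimp only
    have h3 : ∀ η, τ.β η * ((tiles (τ.sub η (ν.lt i)) 0).map (fun y =>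
        if y.1 = a then (1 : ℝ) else 0)).sum = τ.β η * ((B.P ^ τ.k) a (ν.lt i) : ℝ) := by
      intro η
      rw [tiles_count, τ.ab]
      congr 2
      simp [ev]
    rw [Finset.sum_congr rfl fun η _ => h3 η, ← Finset.sum_mul, τ.β_sum, one_mul,
      Finset.sum_eq_single (ν.lt i)]
    · rw [if_pos rfl]
      ring
    · intro b _ hb
      rw [if_neg (Ne.symm hb), mul_zero]
    · intro hn
      exact absurd (Finset.mem_univ _) hn
  rw [h1]
  refine (push_sum τ ν (fun (b : Ltr) (_ : ℝ) (_ : ℂ) => if b = a then (1 : ℝ) else 0)).trans ?_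
  rw [Finset.sum_congr rfl fun i _ => h2 i, Finset.sum_comm]
  have h4 : ∀ b, ∑ i, (τ.t)⁻¹ * ((B.P ^ τ.k) a b : ℝ) * (if ν.lt i = b then ν.w i else 0) =
      (τ.t)⁻¹ * (((B.P ^ τ.k) a b : ℝ) * B.f b) := by
    intro b
    rw [← Finset.mul_sum, h b, mul_assoc]
  rw [Finset.sum_congr rfl fun b _ => h4 b, ← Finset.mul_sum, f_Ppow, ← mul_assoc]
  have h5 : (τ.t)⁻¹ * B.t0 ^ τ.k = 1 := inv_mul_cancel₀ ht.ne'
  rw [h5, one_mul]

private theorem Cν_nonneg (D : Design B) : 0 ≤ D.Cν := by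
  have h1 := CoinAux.kc_nonneg B
  have h2 := D.Ct_nonneg
  unfold Design.Cν
  linarith

private theorem pos_bound {p t C K : ℝ} (ht : 100 ≤ t) (hp : |p| ≤ C) (hC : 0 ≤ C) {c : ℝ}
    (hc : |c| ≤ K) (hK : 2 * K ≤ C) : |p / t + c| ≤ C := by
  have h1 : |p / t| ≤ C / 100 := by
    rw [abs_div, abs_of_pos (by linarith : (0 : ℝ) < t)]
    exact div_le_div₀ hC hp (by norm_num) ht
  have h2 := abs_add_le (p / t) c
  linarith

theorem push_S_InC (D : Design B) {ν : Arr} (h : InC B D.Cν ν) : InC B D.Cν (push D.S ν) := by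
  refine ⟨push_mass D.S ν h.1, fun x => ?_⟩
  refine pos_bound (CoinAux.t_ge D) (h.2 x.1) (Cν_nonneg D) (K := D.Ct) ?_ ?_
  · exact (D.tube _ _ (List.get_mem _ _)).2
  · have h1 := CoinAux.kc_nonneg B
    unfold Design.Cν
    linarith

theorem iter_push_InC (D : Design B) (n : ℕ) {ν : Arr} (h : InC B D.Cν ν) :
    InC B D.Cν ((push D.S)^[n] ν) := by
  induction n with
  | zero => exact h
  | succ n ih =>
    rw [Function.iterate_succ_apply']
    exact push_S_InC D ih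

theorem push_kick_InC (D : Design B) {L : ℕ} {r0 ε : ℝ} (K : Kick D L r0 ε) {ν : Arr}
    (h : InC B D.Cν ν) : InC B D.Cν (push K.κ ν) := by
  refine ⟨push_mass K.κ ν h.1, fun x => ?_⟩
  have ht : 100 ≤ K.κ.t := by
    have h1 : K.κ.t = D.t ^ L := by
      unfold Level.t Design.t
      rw [K.k_eq, pow_mul]
    have h2 := CoinAux.t_ge D
    rw [h1]
    calc (100 : ℝ) ≤ D.t := h2
      _ = D.t ^ 1 := (pow_one _).symm
      _ ≤ D.t ^ L := pow_le_pow_right₀ (by linarith) K.one_le_L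
  refine pos_bound ht (h.2 x.1) (Cν_nonneg D) (K := B.kc) ?_ ?_
  · exact K.c_bd _ _ _ (List.get_mem _ _)
  · have h1 := D.Ct_nonneg
    unfold Design.Cν
    linarith

theorem nu0_InC0 (D : Design B) : InC0 B D.Cν (nu0 B) := by
  refine ⟨⟨fun a => ?_, fun i => ?_⟩, fun i => rfl⟩
  · change (∑ i : Ltr, if i = a then B.f i else 0) = B.f a
    rw [Finset.sum_ite_eq' Finset.univ a B.f, if_pos (Finset.mem_univ a)]
  · change |(0 : ℝ)| ≤ D.Cν
    rw [abs_zero]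
    exact Cν_nonneg D

private theorem ζ0_inv (D : Design B) : 1 / (D.ζ0 * 1) + 2 * D.Cν ≤ D.Cbig := by
  have h1 := D.Cbig_ge
  have h2 := D.Ct_nonneg
  unfold Design.ζ0
  rw [mul_one, one_div, inv_inv]
  unfold Design.Cν
  linarith

private theorem iter_mono_cbig (D : Design B) (u : ℕ) {F G : St → ℝ}
    (h : ∀ O, |B.c O.2.2| ≤ D.Cbig → F O ≤ G O) :
    ∀ O, |B.c O.2.2| ≤ D.Cbig → (D.S.op^[u] F) O ≤ (D.S.op^[u] G) O := by
  induction u with
  | zero => exact h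
  | succ u ih =>
    intro O hO
    rw [Function.iterate_succ_apply', Function.iterate_succ_apply']
    exact op_mono_child D.S O fun O' hO' => ih O' (child_cbig D O O' hO' hO)

/-- monotonicity after `u` natural steps: only states with `|c| ≤ Cbig` matter
(`Bf_mono` with `|c| ≤ 1/ζ0 + 2 Cν ≤ Cbig`, and `child_cbig`) -/
theorem Bf_iter_mono (D : Design B) (u : ℕ) {R : ℝ} {J : ℂ → ℝ} (hJ : ∀ s, 0 ≤ J s)
    {ν : Arr} (hν : InC B D.Cν ν) {F G : St → ℝ} (hF : Bdd B R F) (hG : Bdd B R G)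
    (h : ∀ O, |B.c O.2.2| ≤ D.Cbig → F O ≤ G O) :
    Bf B D.ζ0 1 J ν (D.S.op^[u] F) ≤ Bf B D.ζ0 1 J ν (D.S.op^[u] G) := by
  obtain ⟨R1, h1⟩ := Bdd_iter D.S u hF
  obtain ⟨R2, h2⟩ := Bdd_iter D.S u hG
  exact Bf_mono B (ζ0_pos D) one_pos hJ hν.2 (Bdd_mono (le_max_left R1 R2) h1)
    (Bdd_mono (le_max_right R1 R2) h2)
    fun O hO => iter_mono_cbig D u h O (hO.trans (ζ0_inv D))

theorem Bf_iter_add (D : Design B) (u : ℕ) {R : ℝ} (J : ℂ → ℝ) (ν : Arr) {F G : St → ℝ}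
    (hF : Bdd B R F) (hG : Bdd B R G) :
    Bf B D.ζ0 1 J ν (D.S.op^[u] (fun O => F O + G O)) =
      Bf B D.ζ0 1 J ν (D.S.op^[u] F) + Bf B D.ζ0 1 J ν (D.S.op^[u] G) := by
  obtain ⟨R1, h1⟩ := Bdd_iter D.S u hF
  obtain ⟨R2, h2⟩ := Bdd_iter D.S u hG
  have h3 : D.S.op^[u] (fun O => F O + G O) =
      fun O => (D.S.op^[u] F) O + (D.S.op^[u] G) O := by
    funext O
    exact iter_add D.S u F G O
  rw [h3]
  exact Bf_add B (ζ0_pos D) one_pos J ν (Bdd_mono (le_max_left R1 R2) h1)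
    (Bdd_mono (le_max_right R1 R2) h2)

theorem Bf_iter_nonneg (D : Design B) (u : ℕ) {J : ℂ → ℝ} (hJ : ∀ s, 0 ≤ J s) (ν : Arr)
    {F : St → ℝ} (hF : ∀ O, 0 ≤ F O) : 0 ≤ Bf B D.ζ0 1 J ν (D.S.op^[u] F) := by
  exact Bf_nonneg B zero_le_one hJ ν fun O => iter_nonneg D.S u hF O

end Pool.Agent.RS69
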