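import Pool.Agent.RS69.En1
import Pool.Agent.RS69.Tr3

/-!
# RS69.En2 : integrated energy inequalities (section 3)
-/

set_option autoImplicit false

namespace Pool.Agent.RS69

variable {B : Base} (D : Design B)

/-! ### auxiliary facts -/

lemma en2_le_sqrt_mul_sqrt {x a b : ℝ} (ha : 0 ≤ a) (hb : 0 ≤ b)
    (h : ∀ s : ℝ, 0 < s → x ≤ (s * a + s⁻¹ * b) / 2) : x ≤ Real.sqrt a * Real.sqrt b := by
  rcases eq_or_lt_of_le ha with ha0 | ha0
  · rw [← ha0, Real.sqrt_zero, zero_mul]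
    by_contra hx
    push Not at hx
    have h1 := h (b / x + 1) (by positivity)
    rw [← ha0, mul_zero, zero_add] at h1
    have h2 : (b / x + 1)⁻¹ * b / 2 < x := by
      rw [div_lt_iff₀ (by norm_num), inv_mul_lt_iff₀ (by positivity)]
      have h3 : (b / x + 1) * (x * 2) = 2 * b + 2 * x := by
        field_simp
      rw [h3]
      linarith
    linarith
  rcases eq_or_lt_of_le hb with hb0 | hb0
  · rw [← hb0, Real.sqrt_zero, mul_zero]
    by_contra hx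
    push Not at hx
    have h1 := h (x / (a + 1)) (by positivity)
    rw [← hb0, mul_zero, add_zero] at h1
    have h2 : x / (a + 1) * a / 2 < x := by
      rw [div_mul_eq_mul_div, div_lt_iff₀ (by norm_num), div_lt_iff₀ (by positivity)]
      nlinarith
    linarith
  · have hsa : 0 < Real.sqrt a := Real.sqrt_pos.2 ha0
    have hsb : 0 < Real.sqrt b := Real.sqrt_pos.2 hb0
    have h1 := h (Real.sqrt b / Real.sqrt a) (by positivity)
    have h2 : Real.sqrt b / Real.sqrt a * a = Real.sqrt a * Real.sqrt b := by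
      have e1 : Real.sqrt b / Real.sqrt a * (Real.sqrt a * Real.sqrt a) =
          Real.sqrt a * Real.sqrt b := by field_simp
      rwa [Real.mul_self_sqrt ha] at e1
    have h3 : (Real.sqrt b / Real.sqrt a)⁻¹ * b = Real.sqrt a * Real.sqrt b := by
      have e1 : (Real.sqrt b / Real.sqrt a)⁻¹ * (Real.sqrt b * Real.sqrt b) =
          Real.sqrt a * Real.sqrt b := by field_simp
      rwa [Real.mul_self_sqrt hb] at e1
    rw [h2, h3] at h1
    linarith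

lemma en2_young {h s : ℝ} (hh : 0 ≤ h) (hs : 0 < s) :
    h ^ (3 / 4 : ℝ) ≤ 3 / 4 * (s * h) + 1 / 4 * s⁻¹ ^ 3 := by
  have h1 := Real.geom_mean_le_arith_mean2_weighted (w₁ := 3 / 4) (w₂ := 1 / 4) (p₁ := s * h)
    (p₂ := s⁻¹ ^ 3) (by norm_num) (by norm_num) (by positivity) (by positivity) (by norm_num)
  have h2 : (s * h) ^ (3 / 4 : ℝ) * (s⁻¹ ^ 3) ^ (1 / 4 : ℝ) = h ^ (3 / 4 : ℝ) := by
    rw [Real.mul_rpow hs.le hh, ← Real.rpow_natCast s⁻¹ 3, ← Real.rpow_mul (by positivity),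
      Real.inv_rpow hs.le]
    rw [mul_right_comm]
    have h3 : ((3 : ℕ) : ℝ) * (1 / 4) = 3 / 4 := by norm_num
    rw [h3, mul_inv_cancel₀ (Real.rpow_pos_of_pos hs _).ne', one_mul]
  rw [h2] at h1
  exact h1

lemma en2_le_holder {x m c : ℝ} (hm : 0 ≤ m) (hc : 0 ≤ c)
    (h : ∀ s : ℝ, 0 < s → x ≤ 3 / 4 * (s * c) + 1 / 4 * (s⁻¹ ^ 3 * m)) :
    x ≤ m ^ (1 / 4 : ℝ) * c ^ (3 / 4 : ℝ) := by
  rcases eq_or_lt_of_le hm with hm0 | hm0
  · rw [← hm0, Real.zero_rpow (by norm_num), zero_mul]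
    by_contra hx
    push Not at hx
    have h1 := h (x / (c + 1)) (by positivity)
    rw [← hm0, mul_zero, mul_zero, add_zero] at h1
    have h2 : x / (c + 1) * c ≤ x := by
      rw [div_mul_eq_mul_div, div_le_iff₀ (by positivity)]
      nlinarith
    linarith
  rcases eq_or_lt_of_le hc with hc0 | hc0
  · rw [← hc0, Real.zero_rpow (by norm_num), mul_zero]
    by_contra hx
    push Not at hx
    have h1 := h (m / x + 1) (by positivity)
    rw [← hc0, mul_zero, mul_zero, zero_add] at h1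
    have h2 : (m / x + 1)⁻¹ ^ 3 * m ≤ (m / x + 1)⁻¹ * m := by
      refine mul_le_mul_of_nonneg_right ?_ hm
      have h5 : (m / x + 1)⁻¹ ≤ 1 := by
        apply inv_le_one_of_one_le₀
        have : 0 ≤ m / x := by positivity
        linarith
      have h6 : 0 ≤ (m / x + 1)⁻¹ := by positivity
      calc (m / x + 1)⁻¹ ^ 3 = (m / x + 1)⁻¹ * ((m / x + 1)⁻¹ * (m / x + 1)⁻¹) := by ring
        _ ≤ (m / x + 1)⁻¹ * (1 * 1) := by
            refine mul_le_mul_of_nonneg_left ?_ h6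
            exact mul_le_mul h5 h5 h6 (by norm_num)
        _ = (m / x + 1)⁻¹ := by ring
    have h3 : (m / x + 1)⁻¹ * m ≤ x := by
      rw [inv_mul_le_iff₀ (by positivity)]
      have h4 : (m / x + 1) * x = m + x := by field_simp
      rw [h4]
      linarith
    linarith
  · set s : ℝ := m ^ (1 / 4 : ℝ) * (c ^ (1 / 4 : ℝ))⁻¹ with hs
    have hm4 : 0 < m ^ (1 / 4 : ℝ) := Real.rpow_pos_of_pos hm0 _
    have hc4 : 0 < c ^ (1 / 4 : ℝ) := Real.rpow_pos_of_pos hc0 _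
    have h1 := h s (by positivity)
    have e1 : m = (m ^ (1 / 4 : ℝ)) ^ 4 := by
      rw [← Real.rpow_natCast, ← Real.rpow_mul hm]
      norm_num
    have e2 : c = (c ^ (1 / 4 : ℝ)) ^ 4 := by
      rw [← Real.rpow_natCast, ← Real.rpow_mul hc]
      norm_num
    have e3 : c ^ (3 / 4 : ℝ) = (c ^ (1 / 4 : ℝ)) ^ 3 := by
      rw [← Real.rpow_natCast, ← Real.rpow_mul hc]
      norm_num
    set a := m ^ (1 / 4 : ℝ)
    set b := c ^ (1 / 4 : ℝ)
    have h2 : s * c = a * b ^ 3 := by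
      rw [hs, e2]
      field_simp
    have h3 : s⁻¹ ^ 3 * m = a * b ^ 3 := by
      rw [hs, e1]
      field_simp
    rw [h2, h3] at h1
    rw [e3]
    linarith

/-- pointwise monotonicity of the pairing -/
lemma en2_Bf_le {J : ℂ → ℝ} (hJ : ∀ s, 0 ≤ J s) (ν : Arr) {R R' : ℝ} {F G : St → ℝ}
    (hF : Bdd B R F) (hG : Bdd B R' G) (h : ∀ O, F O ≤ G O) :
    Bf B D.ζ0 1 J ν F ≤ Bf B D.ζ0 1 J ν G := by
  have hF' : Bdd B (max R R') F := Bdd_mono (le_max_left _ _) hF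
  have hG' : Bdd B (max R R') G := Bdd_mono (le_max_right _ _) hG
  have h1 := Bf_sub B (ζ0_pos D) one_pos J ν hG' hF'
  have h2 := Bf_nonneg B (ζ := D.ζ0) (D := 1) zero_le_one hJ ν (F := fun O => G O - F O)
    (fun O => sub_nonneg.2 (h O))
  rw [h1] at h2
  linarith

lemma en2_Bdd_smul {R : ℝ} (r : ℝ) {F : St → ℝ} (hF : Bdd B R F) : Bdd B R (fun O => r * F O) :=
  fun O hO => hF O (right_ne_zero_of_mul hO)

lemma en2_Bdd_add {R : ℝ} {F G : St → ℝ} (hF : Bdd B R F) (hG : Bdd B R G) :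
    Bdd B R (fun O => F O + G O) := by
  intro O hO
  by_cases h : F O = 0
  · refine hG O fun h' => hO ?_
    change F O + G O = 0
    rw [h, h', add_zero]
  · exact hF O h

lemma en2_H_of_h {n : ℕ} {O : St} (h : D.S.h n O ≠ 0) : D.S.H n O ≠ 0 := by
  intro h0
  apply h
  unfold Level.h
  rw [h0, zero_div]

lemma en2_Bdd_phi (n : ℕ) : ∃ R, Bdd B R (fun O => B.I O * phi (D.S.h n O)) := by
  refine Bdd_of_le_H D n fun O hO => en2_H_of_h D fun h0 => hO ?_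
  rw [h0, phi, Real.zero_rpow (by norm_num), mul_zero]

lemma en2_Bdd_pow (n : ℕ) : ∃ R, Bdd B R (fun O => B.I O * D.S.h n O ^ (3 / 4 : ℝ)) := by
  refine Bdd_of_le_H D n fun O hO => en2_H_of_h D fun h0 => hO ?_
  rw [h0, Real.zero_rpow (by norm_num), mul_zero]

lemma en2_Bdd_ent (n j : ℕ) : ∃ R, Bdd B R (ent D n j) :=
  Bdd_of_le_H D (n + j) fun O hO h0 => hO (ent_eq_zero D n j O h0)


/-- Cauchy-Schwarz for the positive functional `F ↦ Bf (op^[u] F)` (a finite sum with nonnegative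
coefficients: `Bf_rep`, `iter_rep`) -/
theorem Bf_cs {J : ℂ → ℝ} (hJ : ∀ s, 0 ≤ J s) (ν : Arr) (u : ℕ) {R : ℝ}
    {F G K : St → ℝ} (hF : ∀ O, 0 ≤ F O) (hG : ∀ O, 0 ≤ G O)
    (hFb : Bdd B R F) (hGb : Bdd B R G) (hKb : Bdd B R K)
    (h : ∀ O, K O ≤ Real.sqrt (F O) * Real.sqrt (G O)) :
    Bf B D.ζ0 1 J ν (D.S.op^[u] K) ≤
      Real.sqrt (Bf B D.ζ0 1 J ν (D.S.op^[u] F)) * Real.sqrt (Bf B D.ζ0 1 J ν (D.S.op^[u] G)) := by
  have hF' := Bdd_iter D.S u hFb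
  have hG' := Bdd_iter D.S u hGb
  have hK' := Bdd_iter D.S u hKb
  obtain ⟨R1, hR1⟩ := hF'
  obtain ⟨R2, hR2⟩ := hG'
  obtain ⟨R3, hR3⟩ := hK'
  have hR1' : Bdd B (max R1 R2) (D.S.op^[u] F) := Bdd_mono (le_max_left _ _) hR1
  have hR2' : Bdd B (max R1 R2) (D.S.op^[u] G) := Bdd_mono (le_max_right _ _) hR2
  refine en2_le_sqrt_mul_sqrt (Bf_iter_nonneg D u hJ ν hF) (Bf_iter_nonneg D u hJ ν hG) ?_
  intro s hs
  have h1 : ∀ O, K O ≤ s / 2 * F O + s⁻¹ / 2 * G O := by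
    intro O
    refine (h O).trans ?_
    have h2 := Real.mul_self_sqrt (hF O)
    have h3 := Real.mul_self_sqrt (hG O)
    have h4 := sq_nonneg (s * Real.sqrt (F O) - Real.sqrt (G O))
    have h7 : ∀ x y : ℝ, s / 2 * (x * x) + s⁻¹ / 2 * (y * y) - x * y =
        s⁻¹ / 2 * (s * x - y) ^ 2 := by
      intro x y
      field_simp
      ring
    have h5 := h7 (Real.sqrt (F O)) (Real.sqrt (G O))
    rw [h2, h3] at h5
    have h6 : 0 ≤ s⁻¹ / 2 * (s * Real.sqrt (F O) - Real.sqrt (G O)) ^ 2 := by positivity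
    linarith
  have h2 : ∀ O, (D.S.op^[u] K) O ≤ s / 2 * (D.S.op^[u] F) O + s⁻¹ / 2 * (D.S.op^[u] G) O := by
    intro O
    refine (iter_mono D.S u h1 O).trans ?_
    rw [iter_add D.S u (fun O => s / 2 * F O) (fun O => s⁻¹ / 2 * G O) O, iter_smul, iter_smul]
  have h3 := en2_Bf_le D hJ ν hR3
    (en2_Bdd_add (en2_Bdd_smul (s / 2) hR1') (en2_Bdd_smul (s⁻¹ / 2) hR2')) h2
  rw [Bf_add B (ζ0_pos D) one_pos J ν (en2_Bdd_smul (s / 2) hR1') (en2_Bdd_smul (s⁻¹ / 2) hR2'),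
    Bf_smul, Bf_smul] at h3
  linarith

/-- Hoelder with exponents 4, 4/3 : `Ψ(I h^{3/4}) ≤ mass^{1/4} Ψ(I h)^{3/4}` -/
theorem Bf_holder {J : ℂ → ℝ} (hJ : ∀ s, 0 ≤ J s) (ν : Arr) (N : ℕ) {m : ℝ} (hm0 : 0 ≤ m)
    (hm : Bf B D.ζ0 1 J ν (fun O => if D.S.H N O ≠ 0 then B.I O else 0) ≤ m) :
    Bf B D.ζ0 1 J ν (fun O => B.I O * D.S.h N O ^ (3 / 4 : ℝ)) ≤
      m ^ (1 / 4 : ℝ) * (Bf B D.ζ0 1 J ν (D.S.H N)) ^ (3 / 4 : ℝ) := by
  obtain ⟨R1, hR1⟩ := en2_Bdd_pow D N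
  obtain ⟨R2, hR2⟩ := Bdd_H D N
  obtain ⟨R3, hR3⟩ : ∃ R, Bdd B R (fun O => if D.S.H N O ≠ 0 then B.I O else 0) := by
    refine Bdd_of_le_H D N fun O hO h0 => hO ?_
    rw [if_neg (by simpa using h0)]
  have hR2' : Bdd B (max R2 R3) (D.S.H N) := Bdd_mono (le_max_left _ _) hR2
  have hR3' := Bdd_mono (le_max_right R2 R3) hR3
  refine en2_le_holder hm0 (Bf_nonneg B zero_le_one hJ ν (H_nonneg D N)) ?_
  intro s hs
  have h1 : ∀ O, B.I O * D.S.h N O ^ (3 / 4 : ℝ) ≤ 3 / 4 * s * D.S.H N O +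
      1 / 4 * s⁻¹ ^ 3 * (if D.S.H N O ≠ 0 then B.I O else 0) := by
    intro O
    by_cases h0 : D.S.H N O = 0
    · have h2 : D.S.h N O = 0 := by
        unfold Level.h
        rw [h0, zero_div]
      rw [h2, h0, Real.zero_rpow (by norm_num)]
      simp
    · rw [if_pos h0, ← I_mul_h D N O]
      have h2 := en2_young (h_nonneg D N O) hs
      have h3 := mul_le_mul_of_nonneg_left h2 (I_nonneg B O)
      linarith
  have h3 := en2_Bf_le D hJ ν hR1
    (en2_Bdd_add (en2_Bdd_smul (3 / 4 * s) hR2') (en2_Bdd_smul (1 / 4 * s⁻¹ ^ 3) hR3')) h1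
  rw [Bf_add B (ζ0_pos D) one_pos J ν (en2_Bdd_smul (3 / 4 * s) hR2')
    (en2_Bdd_smul (1 / 4 * s⁻¹ ^ 3) hR3'), Bf_smul, Bf_smul] at h3
  have h4 : 0 ≤ 1 / 4 * s⁻¹ ^ 3 := by positivity
  have h5 := mul_le_mul_of_nonneg_left hm h4
  linarith

/-- The energy function `En(u) = Ψ_u(I phi(h_{N-u}))`. -/
noncomputable def En (J : ℂ → ℝ) (ν : Arr) (N u : ℕ) : ℝ :=
  Bf B D.ζ0 1 J ν (D.S.op^[u] (fun O => B.I O * phi (D.S.h (N - u) O)))

/-- the entropies are its increments -/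
theorem En_incr (J : ℂ → ℝ) (ν : Arr) (N u j : ℕ) (h : u + j ≤ N) :
    Bf B D.ζ0 1 J ν (D.S.op^[u] (ent D (N - u - j) j)) = En D J ν N (u + j) - En D J ν N u := by
  obtain ⟨R1, hR1⟩ := en2_Bdd_phi D (N - u - j)
  obtain ⟨R2, hR2⟩ := en2_Bdd_phi D (N - u)
  obtain ⟨R3, hR3⟩ := Bdd_iter D.S (u + j) hR1
  obtain ⟨R4, hR4⟩ := Bdd_iter D.S u hR2
  have hR3' := Bdd_mono (le_max_left R3 R4) hR3
  have hR4' := Bdd_mono (le_max_right R3 R4) hR4
  unfold En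
  rw [show N - (u + j) = N - u - j by omega, ← Bf_sub B (ζ0_pos D) one_pos J ν hR3' hR4']
  congr 1
  have h1 : ent D (N - u - j) j = fun O => (D.S.op^[j] (fun O => B.I O *
      phi (D.S.h (N - u - j) O))) O - B.I O * phi (D.S.h (N - u) O) := by
    funext O
    unfold ent
    rw [show N - u - j + j = N - u by omega]
  rw [h1]
  funext E
  rw [Function.iterate_add_apply, ← iter_sub]

theorem En_mono {J : ℂ → ℝ} (hJ : ∀ s, 0 ≤ J s) (ν : Arr) (N : ℕ) {u u' : ℕ} (h : u ≤ u') (h' : u' ≤ N) :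
    En D J ν N u ≤ En D J ν N u' := by
  obtain ⟨j, rfl⟩ := Nat.exists_eq_add_of_le h
  have h1 := En_incr D J ν N u j h'
  have h2 := Bf_iter_nonneg D u hJ ν (fun O => ent_nonneg D (N - u - j) j O)
  linarith

theorem En_nonneg {J : ℂ → ℝ} (hJ : ∀ s, 0 ≤ J s) (ν : Arr) (N u : ℕ) : 0 ≤ En D J ν N u := by
  refine Bf_iter_nonneg D u hJ ν fun O => mul_nonneg (I_nonneg B O) ?_
  exact Real.rpow_nonneg (h_nonneg D _ O) _

theorem En_le {J : ℂ → ℝ} (hJ : ∀ s, 0 ≤ J s) (ν : Arr) (N u : ℕ) (h : u ≤ N) :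
    En D J ν N u ≤ Bf B D.ζ0 1 J ν (D.S.H N) := by
  refine (En_mono D hJ ν N h le_rfl).trans (le_of_eq ?_)
  unfold En
  congr 1
  rw [Nat.sub_self]
  have h1 : (fun O => B.I O * phi (D.S.h 0 O)) = D.S.H 0 := by
    funext O
    rw [← I_mul_h D 0 O]
    congr 1
    rcases h_zero D O with h0 | h0
    · rw [h0, phi, Real.zero_rpow (by norm_num)]
    · rw [h0, phi, Real.one_rpow]
  rw [h1, op_iter_H, zero_add]

/-- 3.1 -/
theorem osc_int_le {J : ℂ → ℝ} (hJ : ∀ s, 0 ≤ J s) (ν : Arr) (N : ℕ) {m : ℝ} (hm0 : 0 ≤ m)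
    (hm : Bf B D.ζ0 1 J ν (fun O => if D.S.H N O ≠ 0 then B.I O else 0) ≤ m) (u j : ℕ) (h : u + j ≤ N) :
    Bf B D.ζ0 1 J ν (D.S.op^[u] (D.S.osc (N - u - j) j)) ≤
      8 * Real.sqrt (En D J ν N (u + j) - En D J ν N u) *
        Real.sqrt (2 * (m ^ (1 / 4 : ℝ) * (Bf B D.ζ0 1 J ν (D.S.H N)) ^ (3 / 4 : ℝ))) := by
  obtain ⟨R1, hR1⟩ := Bdd_osc D (N - u - j) j
  obtain ⟨R2, hR2⟩ := en2_Bdd_ent D (N - u - j) j
  obtain ⟨R3, hR3⟩ := en2_Bdd_pow D (N - u)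
  obtain ⟨R4, hR4⟩ := Bdd_iter D.S u (en2_Bdd_smul 2 hR3)
  obtain ⟨R5, hR5⟩ := en2_Bdd_pow D N
  set R := max R1 (max R2 R3) with hR
  have hb1 : Bdd B R (fun O => 8⁻¹ * D.S.osc (N - u - j) j O) :=
    en2_Bdd_smul _ (Bdd_mono (le_max_left _ _) hR1)
  have hb2 : Bdd B R (ent D (N - u - j) j) :=
    Bdd_mono ((le_max_left _ _).trans (le_max_right _ _)) hR2
  have hb3 : Bdd B R (fun O => 2 * (B.I O * D.S.h (N - u) O ^ (3 / 4 : ℝ))) :=
    en2_Bdd_smul _ (Bdd_mono ((le_max_right _ _).trans (le_max_right _ _)) hR3)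
  have h1 := Bf_cs D hJ ν u (ent_nonneg D (N - u - j) j)
    (G := fun O => 2 * (B.I O * D.S.h (N - u) O ^ (3 / 4 : ℝ)))
    (fun O => mul_nonneg (by norm_num) (mul_nonneg (I_nonneg B O)
      (Real.rpow_nonneg (h_nonneg D _ O) _))) hb2 hb3 hb1 (by
      intro O
      have h2 := osc_le D (N - u - j) j O
      rw [show N - u - j + j = N - u by omega] at h2
      have h3 : D.S.osc (N - u - j) j O ≤ 8 * (Real.sqrt (ent D (N - u - j) j O) *
          Real.sqrt (2 * (B.I O * D.S.h (N - u) O ^ (3 / 4 : ℝ)))) := by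
        rw [← mul_assoc]
        exact h2
      rw [inv_mul_le_iff₀ (by norm_num)]
      exact h3)
  have h2 : D.S.op^[u] (fun O => 8⁻¹ * D.S.osc (N - u - j) j O) =
      fun O => 8⁻¹ * (D.S.op^[u] (D.S.osc (N - u - j) j)) O := by
    funext O
    rw [iter_smul]
  rw [h2, Bf_smul, En_incr D J ν N u j h] at h1
  have h3 : Bf B D.ζ0 1 J ν (D.S.op^[u] (fun O => 2 * (B.I O * D.S.h (N - u) O ^ (3 / 4 : ℝ)))) ≤
      2 * (m ^ (1 / 4 : ℝ) * (Bf B D.ζ0 1 J ν (D.S.H N)) ^ (3 / 4 : ℝ)) := by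
    have h4 := en2_Bf_le D hJ ν hR4 (en2_Bdd_smul 2 hR5) (by
      intro O
      rw [iter_smul]
      refine mul_le_mul_of_nonneg_left ?_ (by norm_num)
      have h5 := iter_pow_le D (N - u) u O
      rwa [show N - u + u = N by omega] at h5)
    rw [Bf_smul] at h4
    refine h4.trans ?_
    exact mul_le_mul_of_nonneg_left (Bf_holder D hJ ν N hm0 hm) (by norm_num)
  rw [inv_mul_le_iff₀ (by norm_num)] at h1
  refine h1.trans ?_
  rw [mul_assoc]
  refine mul_le_mul_of_nonneg_left ?_ (by norm_num)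
  exact mul_le_mul_of_nonneg_left (Real.sqrt_le_sqrt h3) (Real.sqrt_nonneg _)

/-- 3.1 + 3.2 combined: there is a time `n'` in `[n, (1+ε) n]` around which all oscillations over
windows of length `≤ 2q` are small. (Disjoint windows `[n + 2 q k, n + 2 q (k+1)]`.) -/
theorem energy_window {J : ℂ → ℝ} (hJ : ∀ s, 0 ≤ J s) (ν : Arr) (N : ℕ) {m : ℝ} (hm0 : 0 ≤ m)
    (hm : Bf B D.ζ0 1 J ν (fun O => if D.S.H N O ≠ 0 then B.I O else 0) ≤ m)
    (n q : ℕ) (ε : ℝ) (hε : 0 < ε) (hq : 1 ≤ q) (hqn : q ≤ n) (h1 : 4 * (q : ℝ) + 4 ≤ ε * n)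
    (h2 : (1 + ε) * n + q + 1 ≤ N) :
    ∃ n' : ℕ, n ≤ n' ∧ (n' : ℝ) ≤ (1 + ε) * n ∧
      ∀ i j : ℕ, i ≤ q → j ≤ q →
        Bf B D.ζ0 1 J ν (D.S.op^[n' - i] (D.S.osc (N - n' - j) (i + j))) ≤
          8 * Real.sqrt (8 * q / (ε * n) * Bf B D.ζ0 1 J ν (D.S.H N)) *
            Real.sqrt (2 * (m ^ (1 / 4 : ℝ) * (Bf B D.ζ0 1 J ν (D.S.H N)) ^ (3 / 4 : ℝ))) := by
  set c := Bf B D.ζ0 1 J ν (D.S.H N) with hc
  have hc0 : 0 ≤ c := Bf_nonneg B zero_le_one hJ ν (H_nonneg D N)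
  have hq0 : (0 : ℝ) < q := by exact_mod_cast (by omega : 0 < q)
  have hn0 : (0 : ℝ) < n := by exact_mod_cast (by omega : 0 < n)
  have hεn : 0 < ε * n := mul_pos hε hn0
  set K := ⌊ε * n / (2 * q)⌋₊ with hK
  have hK1 : (K : ℝ) ≤ ε * n / (2 * q) := Nat.floor_le (by positivity)
  have hK2 : ε * n / (2 * q) < K + 1 := Nat.lt_floor_add_one _
  have hK3 : 2 * (q : ℝ) * K ≤ ε * n := by
    rw [le_div_iff₀ (by positivity)] at hK1
    linarith
  have hK4 : ε * n < 2 * q * (K + 1) := by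
    rw [div_lt_iff₀ (by positivity)] at hK2
    linarith
  have hK5 : ε * n ≤ 8 * q * K := by nlinarith
  have hKpos : (0 : ℝ) < K := by
    by_contra h0
    push Not at h0
    have : 8 * (q : ℝ) * K ≤ 0 := mul_nonpos_of_nonneg_of_nonpos (by positivity) h0
    linarith
  have hKpos' : 0 < K := by exact_mod_cast hKpos
  -- all windows are inside `[0, N]`
  have hNK : n + 2 * q * K ≤ N := by
    have h3 : ((n + 2 * q * K : ℕ) : ℝ) ≤ N := by
      push_cast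
      linarith
    exact_mod_cast h3
  -- pigeonhole
  obtain ⟨k, hk, hkc⟩ : ∃ k ∈ Finset.range K,
      En D J ν N (n + 2 * q * (k + 1)) - En D J ν N (n + 2 * q * k) ≤ c / K := by
    by_contra hcon
    push Not at hcon
    have h3 : ∑ k ∈ Finset.range K, (c / K) < ∑ k ∈ Finset.range K,
        (En D J ν N (n + 2 * q * (k + 1)) - En D J ν N (n + 2 * q * k)) :=
      Finset.sum_lt_sum_of_nonempty (Finset.nonempty_range_iff.2 (by omega)) hcon
    rw [Finset.sum_range_sub (fun k => En D J ν N (n + 2 * q * k)), Finset.sum_const,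
      Finset.card_range, nsmul_eq_mul, mul_div_cancel₀ _ hKpos.ne'] at h3
    have h4 := En_le D hJ ν N (n + 2 * q * K) hNK
    have h5 := En_nonneg D hJ ν N (n + 2 * q * 0)
    linarith
  rw [Finset.mem_range] at hk
  have hkK : 2 * q * (k + 1) ≤ 2 * q * K := Nat.mul_le_mul_left _ hk
  have hexp : 2 * q * (k + 1) = 2 * q * k + 2 * q := by ring
  refine ⟨n + 2 * q * k + q, by omega, ?_, ?_⟩
  · have h3 : ((n + 2 * q * k + q : ℕ) : ℝ) ≤ ((n + 2 * q * K : ℕ) : ℝ) := by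
      exact_mod_cast (by omega : n + 2 * q * k + q ≤ n + 2 * q * K)
    refine h3.trans ?_
    push_cast
    linarith
  · intro i j hi hj
    set n' := n + 2 * q * k + q with hn'
    have h3 := osc_int_le D hJ ν N hm0 hm (n' - i) (i + j) (by omega)
    rw [show N - (n' - i) - (i + j) = N - n' - j by omega,
      show n' - i + (i + j) = n' + j by omega] at h3
    refine h3.trans ?_
    rw [← hc]
    refine mul_le_mul_of_nonneg_right ?_ (Real.sqrt_nonneg _)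
    refine mul_le_mul_of_nonneg_left (Real.sqrt_le_sqrt ?_) (by norm_num)
    have h4 : En D J ν N (n' + j) ≤ En D J ν N (n + 2 * q * (k + 1)) :=
      En_mono D hJ ν N (by omega) (by omega)
    have h5 : En D J ν N (n + 2 * q * k) ≤ En D J ν N (n' - i) :=
      En_mono D hJ ν N (by omega) (by omega)
    have h6 : c / K ≤ 8 * q / (ε * n) * c := by
      rw [div_le_iff₀ hKpos, div_mul_eq_mul_div, div_mul_eq_mul_div, le_div_iff₀ hεn]
      nlinarith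
    linarith

end Pool.Agent.RS69
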