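import Pool.Agent.RS69.Words

/-!
# RS69.Infinite : the subshift is infinite (section 10)

`σ 0` starts with `0`, `σ 1` ends with `1` (`Design.head0`, `Design.last1`), so `σ^n(1).σ^n(0)` converges to a
bi-infinite word `x`, which belongs to the subshift since `1 0` is a factor of `σ(a) σ(b)`, and `a b` of `σ(0)`.
If the subshift is finite, two shifts of `x` agree, so `x` is periodic with some period `p > 0`; the word
`q = x[0,p)` has `z(abv q) ≠ 0` (norm form), `z (abv x[0,L)) = ⌊L/p⌋ z (abv q) + O(1)`, but
`|z (abv σ^n(0))| = |z(e_0)|`.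
-/

set_option autoImplicit false

namespace Pool.Agent.RS69

variable {B : Base} (D : Design B)

private theorem mem_sig (a b : Ltr) : b ∈ D.σ a := by
  have h := congrFun (D.ab a) b
  have h2 : ((B.P ^ D.N).mulVec (ev a)) b = (B.P ^ D.N) b a := by
    rw [ev, Matrix.mulVec_single_one]
    rfl
  have h3 := D.Mpos b a
  rw [h2] at h
  have h4 : (0 : ℤ) < ((D.σ a).count b : ℤ) := by
    have h5 : ((D.σ a).count b : ℤ) = abv (D.σ a) b := rfl
    rw [h5, h]
    exact h3
  have h6 : 0 < (D.σ a).count b := by exact_mod_cast h4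
  exact List.count_pos_iff.1 h6

private theorem two_le_sig (a : Ltr) : 2 ≤ (D.σ a).length := by
  have h0 := mem_sig D a 0
  have h1 := mem_sig D a 1
  rcases h : D.σ a with _ | ⟨x, _ | ⟨y, w⟩⟩
  · simp [h] at h0
  · rw [h, List.mem_singleton] at h0 h1
    exact absurd (h0.trans h1.symm) (by decide)
  · simp

private theorem itw_zero' (w : List Ltr) : itw D 0 w = w := rfl

private theorem itw_succ' (n : ℕ) (w : List Ltr) :
    itw D (n + 1) w = (itw D n w).flatMap D.σ := by
  unfold itw
  rw [Function.iterate_succ_apply']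

private theorem itw_succ (n : ℕ) (w : List Ltr) :
    itw D (n + 1) w = itw D n (w.flatMap D.σ) := by
  unfold itw
  rw [Function.iterate_succ_apply]

private theorem two_mul_length (w : List Ltr) : 2 * w.length ≤ (w.flatMap D.σ).length := by
  induction w with
  | nil => simp
  | cons a w ih =>
    rw [List.flatMap_cons, List.length_append, List.length_cons]
    have := two_le_sig D a
    omega

private theorem two_pow_length (n : ℕ) (w : List Ltr) :
    2 ^ n * w.length ≤ (itw D n w).length := by
  induction n with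
  | zero => simp [itw_zero']
  | succ n ih =>
    rw [itw_succ']
    have := two_mul_length D (itw D n w)
    rw [pow_succ]
    have h2 : 2 ^ n * 2 * w.length = 2 * (2 ^ n * w.length) := by ring
    omega

private theorem lt_length (n : ℕ) (a : Ltr) : n < (itw D n [a]).length := by
  have h := two_pow_length D n [a]
  rw [List.length_singleton, mul_one] at h
  exact lt_of_lt_of_le Nat.lt_two_pow_self h

private theorem right_succ (n : ℕ) : ∃ w, itw D (n + 1) [0] = itw D n [0] ++ w := by
  obtain ⟨w, hw⟩ := D.head0 0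
  refine ⟨itw D n w, ?_⟩
  rw [itw_succ, List.flatMap_singleton, hw, ← itw_append]
  rfl

private theorem left_succ (n : ℕ) : ∃ w, itw D (n + 1) [1] = w ++ itw D n [1] := by
  obtain ⟨w, hw⟩ := D.last1 1
  refine ⟨itw D n w, ?_⟩
  rw [itw_succ, List.flatMap_singleton, hw, itw_append]

private theorem right_mono {m n : ℕ} (h : m ≤ n) : ∃ w, itw D n [0] = itw D m [0] ++ w := by
  induction n, h using Nat.le_induction with
  | base => exact ⟨[], by simp⟩
  | succ n hmn ih =>
    obtain ⟨w, hw⟩ := ih
    obtain ⟨w', hw'⟩ := right_succ D n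
    exact ⟨w ++ w', by rw [hw', hw, List.append_assoc]⟩

private theorem left_mono {m n : ℕ} (h : m ≤ n) : ∃ w, itw D n [1] = w ++ itw D m [1] := by
  induction n, h using Nat.le_induction with
  | base => exact ⟨[], by simp⟩
  | succ n hmn ih =>
    obtain ⟨w, hw⟩ := ih
    obtain ⟨w', hw'⟩ := left_succ D n
    exact ⟨w' ++ w, by rw [hw', hw, List.append_assoc]⟩

/-- the two-sided point -/
private noncomputable def pt (j : ℤ) : Ltr :=
  ((itw D (j.natAbs + 1) [1] ++ itw D (j.natAbs + 1) [0])[
    (((itw D (j.natAbs + 1) [1]).length : ℤ) + j).toNat]?).getD 0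

private theorem consist {m n : ℕ} (h : m ≤ n) (j : ℤ) (h1 : -((itw D m [1]).length : ℤ) ≤ j)
    (h2 : j < ((itw D m [0]).length : ℤ)) :
    (itw D n [1] ++ itw D n [0])[(((itw D n [1]).length : ℤ) + j).toNat]? =
      (itw D m [1] ++ itw D m [0])[(((itw D m [1]).length : ℤ) + j).toNat]? := by
  obtain ⟨w, hw⟩ := right_mono D h
  obtain ⟨w', hw'⟩ := left_mono D h
  have h3 : itw D n [1] ++ itw D n [0] = w' ++ ((itw D m [1] ++ itw D m [0]) ++ w) := by
    rw [hw, hw']
    simp only [List.append_assoc]
  have h4 : (((itw D n [1]).length : ℤ) + j).toNat =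
      w'.length + (((itw D m [1]).length : ℤ) + j).toNat := by
    rw [hw', List.length_append]
    push_cast
    omega
  rw [h3, h4, List.getElem?_append_right (by omega), Nat.add_sub_cancel_left,
    List.getElem?_append_left]
  rw [List.length_append]
  omega

private theorem pt_eq (n : ℕ) (j : ℤ) (h1 : -((itw D n [1]).length : ℤ) ≤ j)
    (h2 : j < ((itw D n [0]).length : ℤ)) :
    (itw D n [1] ++ itw D n [0])[(((itw D n [1]).length : ℤ) + j).toNat]? = some (pt D j) := by
  have hl := lt_length D (j.natAbs + 1) 1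
  have hr := lt_length D (j.natAbs + 1) 0
  have h3 : (itw D n [1] ++ itw D n [0])[(((itw D n [1]).length : ℤ) + j).toNat]? =
      (itw D (j.natAbs + 1) [1] ++ itw D (j.natAbs + 1) [0])[
        (((itw D (j.natAbs + 1) [1]).length : ℤ) + j).toNat]? := by
    rcases le_total n (j.natAbs + 1) with h | h
    · exact (consist D h j h1 h2).symm
    · exact consist D h j (by omega) (by omega)
  rw [h3]
  unfold pt
  have h4 : (((itw D (j.natAbs + 1) [1]).length : ℤ) + j).toNat <
      (itw D (j.natAbs + 1) [1] ++ itw D (j.natAbs + 1) [0]).length := by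
    rw [List.length_append]
    omega
  rw [List.getElem?_eq_getElem h4]
  rfl

private theorem pt_right (n : ℕ) (i : ℕ) (hi : i < (itw D n [0]).length) :
    pt D (i : ℤ) = (itw D n [0])[i] := by
  have h := pt_eq D n (i : ℤ) (by omega) (by exact_mod_cast hi)
  have h2 : (((itw D n [1]).length : ℤ) + (i : ℤ)).toNat = (itw D n [1]).length + i := by omega
  rw [h2, List.getElem?_append_right (by omega), Nat.add_sub_cancel_left,
    List.getElem?_eq_getElem hi] at h
  exact (Option.some.inj h).symm

/-- the right half of the fixed point -/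
theorem exists_right : ∃ x : ℕ → Ltr, ∀ (n : ℕ) (i : ℕ) (hi : i < (itw D n [0]).length),
    x i = (itw D n [0])[i] :=
  ⟨fun i => pt D (i : ℤ), fun n i hi => pt_right D n i hi⟩

private theorem infix_itw {w w' : List Ltr} (h : w <:+: w') (n : ℕ) : itw D n w <:+: itw D n w' := by
  obtain ⟨s, t, rfl⟩ := h
  rw [itw_append, itw_append]
  exact ⟨_, _, rfl⟩

private theorem one_zero : [1, 0] <:+: itw D 2 [0] := by
  have h2 := two_le_sig D 0
  rcases h : D.σ 0 with _ | ⟨x, _ | ⟨y, w⟩⟩
  · simp [h] at h2
  · simp [h] at h2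
  · obtain ⟨u, hu⟩ := D.last1 x
    obtain ⟨v, hv⟩ := D.head0 y
    refine ⟨u, v ++ w.flatMap D.σ, ?_⟩
    rw [itw_succ, List.flatMap_singleton, h, itw_succ, itw_zero', List.flatMap_cons,
      List.flatMap_cons, hu, hv]
    simp

/-- the two-sided fixed point belongs to the subshift -/
theorem exists_point : ∃ x : ℤ → Ltr,
    (∀ (n : ℕ) (i : ℕ) (hi : i < (itw D n [0]).length), x (i : ℤ) = (itw D n [0])[i]) ∧
    ∀ (i : ℤ) (k : ℕ), ∃ (n : ℕ) (a : Ltr),
      List.ofFn (fun j : Fin k => x (i + ((j : ℕ) : ℤ))) <:+: itw D n [a] := by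
  refine ⟨pt D, fun n i hi => pt_right D n i hi, fun i k => ?_⟩
  set m : ℕ := i.natAbs + k with hm
  have hl := lt_length D m 1
  have hr := lt_length D m 0
  refine ⟨m + 2, 0, ?_⟩
  have h1 : itw D m [1] ++ itw D m [0] <:+: itw D (m + 2) [0] := by
    rw [itw_add D m 2, ← itw_append]
    exact infix_itw D (one_zero D) m
  refine List.IsInfix.trans ?_ h1
  have h2 : List.ofFn (fun j : Fin k => pt D (i + ((j : ℕ) : ℤ))) =
      ((itw D m [1] ++ itw D m [0]).drop (((itw D m [1]).length : ℤ) + i).toNat).take k := by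
    apply List.ext_getElem
    · rw [List.length_ofFn, List.length_take, List.length_drop, List.length_append]
      omega
    · intro j hj1 hj2
      rw [List.length_ofFn] at hj1
      rw [List.getElem_ofFn, List.getElem_take, List.getElem_drop]
      have h3 := pt_eq D m (i + (j : ℤ)) (by omega) (by omega)
      have h4 : (((itw D m [1]).length : ℤ) + (i + (j : ℤ))).toNat =
          (((itw D m [1]).length : ℤ) + i).toNat + j := by omega
      rw [h4] at h3
      have h5 : (((itw D m [1]).length : ℤ) + i).toNat + j <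
          (itw D m [1] ++ itw D m [0]).length := by
        rw [List.length_append]
        omega
      rw [List.getElem?_eq_getElem h5] at h3
      exact (Option.some.inj h3).symm
  rw [h2]
  exact (List.take_prefix _ _).isInfix.trans (List.drop_suffix _ _).isInfix

private theorem S_mul (x : ℕ → Ltr) (p : ℕ) (h : ∀ i, x (i + p) = x i) (k r : ℕ) :
    abv ((List.range (k * p + r)).map x) =
      (k : ℤ) • abv ((List.range p).map x) + abv ((List.range r).map x) := by
  induction k with
  | zero => simp
  | succ k ih =>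
    have h1 : (k + 1) * p + r = p + (k * p + r) := by ring
    rw [h1, List.range_add, List.map_append, abv_append, List.map_map]
    have h2 : (x ∘ fun i => p + i) = x := by
      funext i
      rw [Function.comp_apply, add_comm, h]
    rw [h2, ih]
    push_cast
    rw [add_smul, one_smul]
    abel

/-- a one-sided word extending all `σ^n(0)` is not periodic -/
theorem not_periodic (x : ℕ → Ltr) (hx : ∀ (n : ℕ) (i : ℕ) (hi : i < (itw D n [0]).length),
    x i = (itw D n [0])[i]) (p : ℕ) (hp : 0 < p) (h : ∀ i, x (i + p) = x i) : False := by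
  have hitw : ∀ n, itw D n [0] = (List.range (itw D n [0]).length).map x := by
    intro n
    apply List.ext_getElem
    · simp
    · intro i h1 h2
      rw [List.getElem_map, List.getElem_range, hx n i h1]
  set q : Vec := abv ((List.range p).map x) with hq
  have hq0 : q ≠ 0 := by
    intro hz
    have h1 : q (x 0) = 0 := by rw [hz]; rfl
    have h2 : x 0 ∈ (List.range p).map x := List.mem_map.2 ⟨0, List.mem_range.2 hp, rfl⟩
    have h3 : 0 < ((List.range p).map x).count (x 0) := List.count_pos_iff.2 h2
    have h4 : q (x 0) = (((List.range p).map x).count (x 0) : ℤ) := rfl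
    rw [h4] at h1
    omega
  have hzq : 0 < ‖B.z q‖ := by
    rw [norm_pos_iff]
    intro hz
    have := B.norm_form q hq0
    rw [hz] at this
    norm_num at this
  set C : ℝ := ∑ r ∈ Finset.range p, ‖B.z (abv ((List.range r).map x))‖ with hC
  have key : ∀ n, (((itw D n [0]).length / p : ℕ) : ℝ) * ‖B.z q‖ ≤ ‖B.z (ev 0)‖ + C := by
    intro n
    set L : ℕ := (itw D n [0]).length with hL
    have h1 : B.z (abv (itw D n [0])) = ((B.w0 ^ D.N) ^ n) * B.z (ev 0) := by
      rw [abv_itw, ← pow_mul, z_Mpow, abv_singleton, pow_mul]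
    have h2 : abv (itw D n [0]) = ((L / p : ℕ) : ℤ) • q + abv ((List.range (L % p)).map x) := by
      rw [hitw n, ← hL]
      conv_lhs => rw [← Nat.div_add_mod' L p]
      exact S_mul x p h _ _
    have h3 : ‖B.z (abv (itw D n [0]))‖ = ‖B.z (ev 0)‖ := by
      rw [h1, norm_mul, norm_pow, norm_pow, B.norm_w0]
      simp
    rw [h2, map_add, map_zsmul] at h3
    have h4 : ‖B.z (abv ((List.range (L % p)).map x))‖ ≤ C :=
      Finset.single_le_sum (f := fun r => ‖B.z (abv ((List.range r).map x))‖)
        (fun r _ => norm_nonneg _) (Finset.mem_range.2 (Nat.mod_lt _ hp))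
    have h5 : ‖((L / p : ℕ) : ℤ) • B.z q‖ = ((L / p : ℕ) : ℝ) * ‖B.z q‖ := by
      rw [zsmul_eq_mul, norm_mul, Int.cast_natCast, Complex.norm_natCast]
    have h6 := norm_sub_le (((L / p : ℕ) : ℤ) • B.z q + B.z (abv ((List.range (L % p)).map x)))
      (B.z (abv ((List.range (L % p)).map x)))
    rw [add_sub_cancel_right, h3, h5] at h6
    linarith
  obtain ⟨m, hm⟩ := exists_nat_gt ((‖B.z (ev 0)‖ + C) / ‖B.z q‖)
  rw [div_lt_iff₀ hzq] at hm
  have h7 := key (m * p)
  have h8 : m ≤ (itw D (m * p) [0]).length / p := by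
    rw [Nat.le_div_iff_mul_le hp]
    exact (lt_length D (m * p) 0).le
  have h9 : (m : ℝ) ≤ (((itw D (m * p) [0]).length / p : ℕ) : ℝ) := by exact_mod_cast h8
  nlinarith

theorem infinite : Set.Infinite {x : ℤ → Fin 4 | ∀ (i : ℤ) (k : ℕ), ∃ (n : ℕ) (a : Fin 4),
    List.ofFn (fun j : Fin k => x (i + ((j : ℕ) : ℤ))) <:+:
      (fun w : List (Fin 4) => w.flatMap D.σ)^[n] [a]} := by
  obtain ⟨x, hx, hfac⟩ := exists_point D
  have haux : ∀ j p : ℕ, 0 < p → (fun i : ℤ => x (i + (j : ℤ))) =
      (fun i : ℤ => x (i + ((j + p : ℕ) : ℤ))) → False := by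
    intro j p hp h
    refine not_periodic D (fun i : ℕ => x (i : ℤ)) hx p hp fun i => ?_
    have h1 := congrFun h ((i : ℤ) - j)
    have h2 : (i : ℤ) - j + (j : ℤ) = (i : ℤ) := by ring
    have h3 : (i : ℤ) - j + ((j + p : ℕ) : ℤ) = ((i + p : ℕ) : ℤ) := by push_cast; ring
    rw [h2, h3] at h1
    exact h1.symm
  refine Set.infinite_of_injective_forall_mem (f := fun (j : ℕ) (i : ℤ) => x (i + (j : ℤ))) ?_ ?_
  · intro j j' hjj
    rcases lt_trichotomy j j' with hlt | heq | hgt
    · exfalso
      refine haux j (j' - j) (by omega) ?_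
      have : j + (j' - j) = j' := by omega
      rw [this]
      exact hjj
    · exact heq
    · exfalso
      refine haux j' (j - j') (by omega) ?_
      have : j' + (j - j') = j := by omega
      rw [this]
      exact hjj.symm
  · intro j i k
    obtain ⟨n, a, h⟩ := hfac (i + j) k
    refine ⟨n, a, ?_⟩
    have h2 : (fun t : Fin k => x (i + ((t : ℕ) : ℤ) + (j : ℤ))) =
        fun t : Fin k => x (i + (j : ℤ) + ((t : ℕ) : ℤ)) := by
      funext t
      congr 1
      ring
    show List.ofFn (fun t : Fin k => x (i + ((t : ℕ) : ℤ) + (j : ℤ))) <:+: _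
    rw [h2]
    exact h

end Pool.Agent.RS69
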