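import Pool.Agent.RS69.Defs

/-!
# RS69.MinPoly : `w0^N` is a conjugate of `t0^N` (section 10)

Let `q = minpoly ℚ (t0^N)`.  Clear denominators: `m q = q'` with integer coefficients.  For `v ∈ Z^4`:
`l(q'(P^N) v) = q'(t0^N) l(v) = 0`, so `q'(P^N) v = 0` by the norm form (a nonzero vector has `l ≠ 0`), so
`q'(w0^N) z(v) = z(q'(P^N) v) = 0` and `z(e_0) ≠ 0`.
-/

set_option autoImplicit false

namespace Pool.Agent.RS69

open Polynomial

private lemma pow_mulVec {R : Type*} [CommRing R] (P : Matrix (Fin 4) (Fin 4) ℤ) (φ : Vec →+ R)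
    (t : R) (h : ∀ v, φ (P.mulVec v) = t * φ v) (n : ℕ) (v : Vec) :
    φ ((P ^ n).mulVec v) = t ^ n * φ v := by
  induction n generalizing v with
  | zero => simp
  | succ n ih => rw [pow_succ, ← Matrix.mulVec_mulVec, ih, h, pow_succ, mul_assoc]

private lemma aeval_mulVec {R : Type*} [CommRing R] (P : Matrix (Fin 4) (Fin 4) ℤ) (φ : Vec →+ R)
    (t : R) (h : ∀ v, φ (P.mulVec v) = t * φ v) (p : ℤ[X]) (v : Vec) :
    φ ((aeval P p).mulVec v) = aeval t p * φ v := by
  induction p using Polynomial.induction_on' with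
  | add p q hp hq => rw [map_add, map_add, Matrix.add_mulVec, map_add, hp, hq, add_mul]
  | monomial n a =>
    rw [aeval_monomial, aeval_monomial, Algebra.algebraMap_eq_smul_one,
      Algebra.algebraMap_eq_smul_one, smul_mul_assoc, one_mul, smul_mul_assoc, one_mul,
      Matrix.smul_mulVec, map_zsmul, pow_mulVec P φ t h n v, smul_mul_assoc]

/-- `w0^N` is a root of the minimal polynomial of `t0^N` -/
theorem minpoly_root (B : Base) (N : ℕ) (h : minpoly ℚ (B.t0 ^ N) ≠ 0) :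
    (B.w0 ^ N) ∈ (minpoly ℚ (B.t0 ^ N)).aroots ℂ := by
  set q := minpoly ℚ (B.t0 ^ N) with hq
  rw [mem_aroots]
  refine ⟨h, ?_⟩
  obtain ⟨b, hbm, hb⟩ := IsLocalization.integerNormalization_spec (nonZeroDivisors ℤ) q
  set p := IsLocalization.integerNormalization (nonZeroDivisors ℤ) q with hp
  have h0 : aeval (B.t0 ^ N) p = 0 :=
    IsLocalization.integerNormalization_aeval_eq_zero _ _ (minpoly.aeval ℚ (B.t0 ^ N))
  have hl := aeval_mulVec (B.P ^ N) B.l (B.t0 ^ N) (pow_mulVec B.P B.l B.t0 B.l_P N) p (ev 0)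
  have hz := aeval_mulVec (B.P ^ N) B.z (B.w0 ^ N) (pow_mulVec B.P B.z B.w0 B.z_P N) p (ev 0)
  rw [h0, zero_mul] at hl
  have hv : (aeval (B.P ^ N) p).mulVec (ev 0) = 0 := by
    by_contra hne
    have := B.norm_form _ hne
    rw [hl] at this
    simp at this
    linarith
  rw [hv, map_zero] at hz
  have hz0 : B.z (ev 0) ≠ 0 := by
    intro h1
    have hne : (ev 0 : Vec) ≠ 0 := by
      intro h2
      have := congrFun h2 0
      simp [ev] at this
    have := B.norm_form _ hne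
    rw [h1] at this
    simp at this
    linarith
  have hw : aeval (B.w0 ^ N) p = 0 := by
    rcases mul_eq_zero.mp hz.symm with h1 | h1
    · exact h1
    · exact absurd h1 hz0
  have h2 : aeval (B.w0 ^ N) (p.map (algebraMap ℤ ℚ)) = 0 := by
    rw [aeval_map_algebraMap]; exact hw
  rw [hb] at h2
  have hb0 : ((b : ℤ) : ℂ) ≠ 0 := by
    exact_mod_cast nonZeroDivisors.ne_zero hbm
  have h3 : ((b : ℤ) : ℂ) * aeval (B.w0 ^ N) q = 0 := by
    rw [← h2, map_zsmul, zsmul_eq_mul]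
  exact (mul_eq_zero.mp h3).resolve_left hb0

/-- conclusion of the frozen statement fails for `r = t0^N` -/
theorem not_pisot (B : Base) (N : ℕ) (hN : 1 ≤ N) :
    ¬ (1 < B.t0 ^ N ∧ IsIntegral ℤ (B.t0 ^ N) ∧
      ∀ z ∈ (minpoly ℚ (B.t0 ^ N)).aroots ℂ, z ≠ ((B.t0 ^ N : ℝ) : ℂ) → ‖z‖ < 1) := by
  rintro ⟨h1, h2, h3⟩
  have h4 : IsIntegral ℚ (B.t0 ^ N) := h2.tower_top
  have h5 := h3 _ (minpoly_root B N (minpoly.ne_zero h4)) (by
    intro h6
    have h7 := congrArg norm h6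
    rw [norm_pow, B.norm_w0, one_pow, Complex.norm_real, Real.norm_eq_abs,
      abs_of_pos (by linarith)] at h7
    linarith)
  rw [norm_pow, B.norm_w0, one_pow] at h5
  exact lt_irrefl _ h5

end Pool.Agent.RS69
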