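import Pool.Agent.RS69.Words

/-!
# RS69.Mismatch : recurrence implies small mismatch between `σ^n(0)` and its shift by `|σ^k(0)|` (section 10)

Write `W = itw (n-k) [0]`, `x = itw k W = itw n [0]`, `d = M^k e_0`, `n_k = |itw k [0]|`.
* `common_le` : if a tile `i` of `tiles x 0` and a tile `j` of `tiles x (-d)` coincide then `j = i + n_k` (sum of
  the coordinates) and `x_i = x_j`.  So `#{i < |x| - n_k : x_i ≠ x_{i+n_k}}` is at most the number of tiles of
  `tiles x 0` without a coincident tile in `tiles x (-d)`, which is at most their total length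
  `= l(x) - pairs x x 0 (-d) H_0 = l(x) - t^k pairs W W 0 (-e_0) (H_k)` (`pairs_iter`, `op_iter_H`).
* `pairs W W 0 (-e_0) I ≥ l(W) - l(e_0)` (`sum_overlap'`).
* the overlapping states occurring in `pairs W W 0 (-e_0)` belong to a finite set independent of `n`
  (`types_finite`), on which `H_k ≥ (1 - δ) I` for large `k`.
-/

set_option autoImplicit false

namespace Pool.Agent.RS69

open Filter Topology

variable {B : Base} (D : Design B)

private theorem take_diff (W : List Ltr) {i j : ℕ} (h : i ≤ j) :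
    abv (W.take j) = abv (W.take i) + abv ((W.drop i).take (j - i)) := by
  conv_lhs => rw [← Nat.add_sub_cancel' h, List.take_add]
  exact abv_append _ _

/-- bounded words have bounded vectors -/
private theorem abv_bound (B : Base) (w : List Ltr) {R : ℝ} (h : B.l (abv w) ≤ R) :
    abv w ∈ Finset.Icc (fun _ => -(⌈R⌉₊ : ℤ)) (fun _ => (⌈R⌉₊ : ℤ)) := by
  rw [Finset.mem_Icc]
  have h1 : (w.length : ℝ) ≤ R := (length_le_l w).1.trans h
  have h2 : w.length ≤ ⌈R⌉₊ := by
    have := h1.trans (Nat.le_ceil R)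
    exact_mod_cast this
  have h3 : ∀ a, abv w a ≤ (w.length : ℤ) := by
    intro a
    rw [← abv_sum w]
    exact Finset.single_le_sum (fun b _ => abv_nonneg w b) (Finset.mem_univ a)
  have h4 : (w.length : ℤ) ≤ (⌈R⌉₊ : ℤ) := by exact_mod_cast h2
  refine ⟨fun a => ?_, fun a => (h3 a).trans h4⟩
  have := abv_nonneg w a
  show -(⌈R⌉₊ : ℤ) ≤ abv w a
  omega

/-- pairs of tiles of a word and its translate: finitely many overlapping types -/
theorem types_finite (v0 : Vec) : ∃ S : Finset St, ∀ (W : List Ltr), ∀ x ∈ tiles W 0, ∀ y ∈ tiles W v0,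
    0 < B.I (x.1, y.1, y.2 - x.2) → (x.1, y.1, y.2 - x.2) ∈ S := by
  set R : ℝ := B.lmax + |B.l v0| with hR
  set U : Finset Vec := Finset.Icc (fun _ => -(⌈R⌉₊ : ℤ)) (fun _ => (⌈R⌉₊ : ℤ)) with hU
  refine ⟨Finset.univ ×ˢ Finset.univ ×ˢ (U.image (fun u => v0 + u)), ?_⟩
  intro W x hx y hy hI
  obtain ⟨i, hi, rfl⟩ := (mem_tiles W 0 x).1 hx
  obtain ⟨j, hj, rfl⟩ := (mem_tiles W v0 y).1 hy
  have hl := abs_l_le_of_I_pos B _ hI
  simp only [Finset.mem_product, Finset.mem_univ, true_and, Finset.mem_image]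
  refine ⟨abv (W.take j) - abv (W.take i), ?_, by abel⟩
  have hl' : |B.l (abv (W.take j) - abv (W.take i))| ≤ R := by
    have h1 : abv (W.take j) - abv (W.take i) =
        (v0 + abv (W.take j) - (0 + abv (W.take i))) - v0 := by abel
    rw [h1, map_sub]
    exact (abs_sub _ _).trans (by rw [hR]; linarith)
  rcases le_total i j with hij | hij
  · have h2 : abv (W.take j) - abv (W.take i) = abv ((W.drop i).take (j - i)) := by
      rw [take_diff W hij]; abel
    rw [h2] at hl' ⊢
    exact abv_bound B _ ((le_abs_self _).trans hl')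
  · have h2 : abv (W.take j) - abv (W.take i) = -abv ((W.drop j).take (i - j)) := by
      rw [take_diff W hij]; abel
    rw [h2, map_neg, abs_neg] at hl'
    rw [h2]
    have h3 := abv_bound B _ ((le_abs_self _).trans hl')
    rw [Finset.mem_Icc] at h3 ⊢
    refine ⟨fun a => ?_, fun a => ?_⟩
    · have := h3.2 a
      show -(⌈R⌉₊ : ℤ) ≤ -(abv ((W.drop j).take (i - j)) a)
      have h4 : abv ((W.drop j).take (i - j)) a ≤ (⌈R⌉₊ : ℤ) := this
      omega
    · have := h3.1 a
      show -(abv ((W.drop j).take (i - j)) a) ≤ (⌈R⌉₊ : ℤ)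
      have h4 : -(⌈R⌉₊ : ℤ) ≤ abv ((W.drop j).take (i - j)) a := this
      omega

private theorem l_abv_eq (B : Base) (x : List Ltr) :
    B.l (abv x) = ∑ i : Fin x.length, B.l (ev (x[i])) := by
  have h1 := sum_clamp B x 0 id
  rw [tiles_sum] at h1
  simp only [id, zero_add, map_zero, sub_zero] at h1
  rw [← h1]
  refine Finset.sum_congr rfl fun i _ => ?_
  ring

/-- mismatches of a word with its translate -/
theorem mismatch_le (x : List Ltr) (d : Vec) (m : ℕ) (hd : ∀ a, 0 ≤ d a) (hm : (∑ a, d a) = (m : ℤ)) :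
    (((Finset.range (x.length - m)).filter fun i => x[i]? ≠ x[i + m]?).card : ℝ) ≤
      B.l (abv x) - pairs x x 0 (-d) (D.S.H 0) := by
  have hlen : ∀ i, i ≤ x.length → (∑ a, abv (x.take i) a) = (i : ℤ) := by
    intro i hi
    rw [abv_sum, List.length_take, min_eq_left hi]
  -- the inner sum
  have hin : ∀ i : Fin x.length, ∑ j : Fin x.length,
      D.S.H 0 (x[i], x[j], (-d + abv (x.take j)) - (0 + abv (x.take i))) ≤
      if (i : ℕ) < x.length - m ∧ x[(i : ℕ)]? ≠ x[(i : ℕ) + m]? then 0 else B.l (ev (x[i])) := by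
    intro i
    have hz : ∀ j : Fin x.length, D.S.H 0 (x[i], x[j], (-d + abv (x.take j)) - (0 + abv (x.take i))) ≠ 0 →
        (j : ℕ) = i + m ∧ x[i] = x[j] := by
      intro j hj
      simp only [Level.H] at hj
      have hc : Coin (x[i], x[j], (-d + abv (x.take j)) - (0 + abv (x.take i))) := by
        by_contra h
        exact hj (if_neg h)
      refine ⟨?_, hc.1⟩
      have h1 : ∑ a, ((-d + abv (x.take j)) - (0 + abv (x.take i))) a = 0 := by
        have h2 := hc.2
        dsimp only at h2
        rw [h2]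
        simp
      simp only [Pi.sub_apply, Pi.add_apply, Pi.neg_apply, Pi.zero_apply, Finset.sum_sub_distrib,
        Finset.sum_add_distrib, Finset.sum_neg_distrib, hm, hlen j j.2.le, hlen i i.2.le] at h1
      simp at h1
      omega
    have hle : ∀ j : Fin x.length, D.S.H 0 (x[i], x[j], (-d + abv (x.take j)) - (0 + abv (x.take i))) ≤
        B.l (ev (x[i])) := by
      intro j
      simp only [Level.H]
      split_ifs
      · exact le_rfl
      · exact zero_le_one.trans (B.l_ge _)
    by_cases him : (i : ℕ) + m < x.length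
    · rw [Finset.sum_eq_single (⟨i + m, him⟩ : Fin x.length)]
      · split_ifs with h
        · by_contra hne
          push Not at hne
          have h1 := (hz ⟨i + m, him⟩ hne.ne').2
          apply h.2
          rw [List.getElem?_eq_getElem i.2, List.getElem?_eq_getElem him]
          exact congrArg some h1
        · exact hle _
      · intro j _ hj
        by_contra hne
        exact hj (Fin.ext (hz j hne).1)
      · intro h
        exact absurd (Finset.mem_univ _) h
    · have h0 : ∀ j ∈ (Finset.univ : Finset (Fin x.length)), D.S.H 0 (x[i], x[j], (-d + abv (x.take j)) - (0 + abv (x.take i))) = 0 := by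
        intro j _
        by_contra hne
        have h1 := (hz j hne).1
        have h2 := j.2
        omega
      rw [Finset.sum_eq_zero h0]
      split_ifs
      · exact le_rfl
      · exact zero_le_one.trans (B.l_ge _)
  have hpairs : pairs x x 0 (-d) (D.S.H 0) ≤ ∑ i : Fin x.length,
      if (i : ℕ) < x.length - m ∧ x[(i : ℕ)]? ≠ x[(i : ℕ) + m]? then 0 else B.l (ev (x[i])) := by
    rw [pairs, tiles_sum]
    refine Finset.sum_le_sum fun i _ => ?_
    rw [tiles_sum]
    exact hin i
  have hcard : (((Finset.range (x.length - m)).filter fun i => x[i]? ≠ x[i + m]?).card : ℝ) ≤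
      ∑ i : Fin x.length,
        if (i : ℕ) < x.length - m ∧ x[(i : ℕ)]? ≠ x[(i : ℕ) + m]? then (1 : ℝ) else 0 := by
    rw [← Finset.sum_range (fun i : ℕ => if i < x.length - m ∧ x[i]? ≠ x[i + m]? then (1 : ℝ) else 0)]
    rw [Finset.sum_boole]
    have : ((Finset.range (x.length - m)).filter fun i => x[i]? ≠ x[i + m]?) ⊆
        (Finset.range x.length).filter fun i => i < x.length - m ∧ x[i]? ≠ x[i + m]? := by
      intro i hi
      rw [Finset.mem_filter, Finset.mem_range] at hi ⊢
      exact ⟨by omega, hi⟩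
    exact_mod_cast Finset.card_le_card this
  have hsum : (∑ i : Fin x.length,
        if (i : ℕ) < x.length - m ∧ x[(i : ℕ)]? ≠ x[(i : ℕ) + m]? then (1 : ℝ) else 0) ≤
      (∑ i : Fin x.length, B.l (ev (x[i]))) - ∑ i : Fin x.length,
      if (i : ℕ) < x.length - m ∧ x[(i : ℕ)]? ≠ x[(i : ℕ) + m]? then 0 else B.l (ev (x[i])) := by
    rw [← Finset.sum_sub_distrib]
    refine Finset.sum_le_sum fun i _ => ?_
    split_ifs
    · rw [sub_zero]; exact B.l_ge _
    · rw [sub_self]
  rw [l_abv_eq]
  linarith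

private theorem one_lt_Dt : 1 < D.t := by
  have := D.t_big
  have h : D.t = B.t0 ^ D.N := rfl
  rw [h]
  linarith

private theorem lmax_pos (B : Base) : 0 < B.lmax :=
  lt_of_lt_of_le one_pos ((B.l_ge 0).trans (l_le_lmax B 0))

private theorem hlen_real : Tendsto (fun n => ((itw D n [0]).length : ℝ)) atTop atTop := by
  have h1 : Tendsto (fun n : ℕ => D.t ^ n * (B.l (abv [0]) / B.lmax)) atTop atTop := by
    apply (tendsto_pow_atTop_atTop_of_one_lt (one_lt_Dt D)).atTop_mul_const
    apply div_pos _ (lmax_pos B)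
    rw [abv_singleton]
    exact lt_of_lt_of_le one_pos (B.l_ge 0)
  refine tendsto_atTop_mono (fun n => ?_) h1
  have h2 := (length_le_l (B := B) (itw D n [0])).2
  rw [l_abv_itw] at h2
  rw [← mul_div_assoc, div_le_iff₀ (lmax_pos B)]
  linarith

theorem hlen : Tendsto (fun n => (itw D n [0]).length) atTop atTop :=
  tendsto_natCast_atTop_iff.1 (hlen_real D)

private theorem H_eq_iter (k : ℕ) : D.S.op^[k] (D.S.H 0) = D.S.H k := by
  induction k with
  | zero => rfl
  | succ k ih => rw [Function.iterate_succ_apply', ih]; rfl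

/-- main statement -/
theorem mismatch (hrec : ∀ O : St, Tendsto (fun n => D.S.H n O) atTop (𝓝 (B.I O))) :
    ∀ ε : ℝ, 0 < ε → ∀ᶠ k in atTop, ∀ᶠ n in atTop,
      (((Finset.range ((itw D n [0]).length - (itw D k [0]).length)).filter
        fun i => (itw D n [0])[i]? ≠ (itw D n [0])[i + (itw D k [0]).length]?).card : ℝ) ≤
        ε * ((itw D n [0]).length : ℝ) := by
  intro ε hε
  obtain ⟨S, hS⟩ := types_finite (B := B) (-(ev 0))
  have hlm := lmax_pos B
  set δ : ℝ := min (1 / 2) (ε / (2 * B.lmax)) with hδ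
  have hδ0 : 0 < δ := lt_min (by norm_num) (by positivity)
  have hδ1 : δ ≤ 1 / 2 := min_le_left _ _
  have hδ2 : 2 * δ * B.lmax ≤ ε := by
    have : δ ≤ ε / (2 * B.lmax) := min_le_right _ _
    rw [le_div_iff₀ (by positivity)] at this
    linarith
  -- good `k`
  have hk : ∀ᶠ k in atTop, ∀ O ∈ S, (1 - δ) * B.I O ≤ D.S.H k O := by
    rw [Filter.eventually_all_finset]
    intro O _
    rcases (I_nonneg B O).eq_or_lt with h | h
    · refine Filter.Eventually.of_forall fun k => ?_
      rw [← h, mul_zero]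
      exact H_nonneg D k O
    · have h1 : (1 - δ) * B.I O < B.I O := by nlinarith
      exact ((hrec O).eventually (lt_mem_nhds h1)).mono fun k hk => hk.le
  filter_upwards [hk] with k hk
  -- good `n`
  have hln : Tendsto (fun n : ℕ => D.t ^ n * B.l (ev 0)) atTop atTop :=
    (tendsto_pow_atTop_atTop_of_one_lt (one_lt_Dt D)).atTop_mul_const
      (lt_of_lt_of_le one_pos (B.l_ge 0))
  filter_upwards [hln.eventually_ge_atTop (D.t ^ k * B.l (ev 0) / δ), eventually_ge_atTop k]
    with n hn hkn
  rw [div_le_iff₀ hδ0] at hn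
  set W := itw D (n - k) [0] with hW
  have hx : itw D n [0] = itw D k W := by
    rw [hW, ← itw_add]
    congr 1
    omega
  set x := itw D n [0] with hxd
  set d : Vec := ((B.P ^ D.N) ^ k).mulVec (ev 0) with hd
  have hd' : d = abv (itw D k [0]) := by rw [abv_itw, abv_singleton]
  have hm1 := mismatch_le D x d (itw D k [0]).length (by rw [hd']; exact abv_nonneg _)
    (by rw [hd']; exact abv_sum _)
  -- transport
  have hp := pairs_iter D k W W 0 (-(ev 0)) (D.S.H 0)
  rw [H_eq_iter, ← hx, Matrix.mulVec_zero, Matrix.mulVec_neg, ← hd] at hp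
  -- lower bound of the pairs
  have hI : B.l (abv W) - B.l (ev 0) ≤ pairs W W 0 (-(ev 0)) B.I := by
    have h1 := sum_overlap' B W W 0 (-(ev 0))
    have h2 : pairs W W 0 (-(ev 0)) B.I = _ := h1
    rw [h2, zero_add, map_zero, map_add, map_neg]
    have h3 := B.l_ge 0
    have h4 : min (B.l (abv W)) (-B.l (ev 0) + B.l (abv W)) = -B.l (ev 0) + B.l (abv W) :=
      min_eq_right (by linarith)
    have h5 : max 0 (-B.l (ev 0)) = 0 := max_eq_left (by linarith)
    rw [h4, h5]
    exact le_trans (by linarith) (le_max_right _ _)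
  have hH : (1 - δ) * pairs W W 0 (-(ev 0)) B.I ≤ pairs W W 0 (-(ev 0)) (D.S.H k) := by
    rw [pairs, pairs, ← List.sum_map_mul_left]
    refine List.sum_le_sum fun x hx => ?_
    rw [← List.sum_map_mul_left]
    refine List.sum_le_sum fun y hy => ?_
    rcases (I_nonneg B (x.1, y.1, y.2 - x.2)).eq_or_lt with h | h
    · rw [← h, mul_zero]
      exact H_nonneg D k _
    · exact hk _ (hS W x hx y hy h)
  have htk : 0 < D.t ^ k := pow_pos (one_pos.trans (one_lt_Dt D)) k
  have hlx : B.l (abv x) = D.t ^ k * B.l (abv W) := by rw [hx, l_abv_itw]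
  have hlx2 : B.l (abv x) = D.t ^ n * B.l (ev 0) := by rw [hxd, l_abv_itw, abv_singleton]
  have hlx3 := (length_le_l (B := B) x).2
  have h6 : D.t ^ k * ((1 - δ) * (B.l (abv W) - B.l (ev 0))) ≤ pairs x x 0 (-d) (D.S.H 0) := by
    rw [← hp]
    apply mul_le_mul_of_nonneg_left _ htk.le
    refine le_trans ?_ hH
    exact mul_le_mul_of_nonneg_left hI (by linarith)
  have h7 : B.l (abv x) - pairs x x 0 (-d) (D.S.H 0) ≤ 2 * δ * B.l (abv x) := by
    have h8 : D.t ^ k * ((1 - δ) * (B.l (abv W) - B.l (ev 0))) =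
        (1 - δ) * B.l (abv x) - (1 - δ) * (D.t ^ k * B.l (ev 0)) := by
      rw [hlx]; ring
    have h9 : (1 - δ) * (D.t ^ k * B.l (ev 0)) ≤ D.t ^ k * B.l (ev 0) := by
      have : 0 ≤ D.t ^ k * B.l (ev 0) := mul_nonneg htk.le (zero_le_one.trans (B.l_ge 0))
      nlinarith
    rw [← hlx2] at hn
    nlinarith
  calc _ ≤ B.l (abv x) - pairs x x 0 (-d) (D.S.H 0) := hm1
    _ ≤ 2 * δ * B.l (abv x) := h7
    _ ≤ 2 * δ * (B.lmax * x.length) := by
        apply mul_le_mul_of_nonneg_left hlx3 (by positivity)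
    _ = (2 * δ * B.lmax) * x.length := by ring
    _ ≤ ε * x.length := by
        apply mul_le_mul_of_nonneg_right hδ2 (Nat.cast_nonneg _)

end Pool.Agent.RS69
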