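import Pool.Agent.RS69.Mass1

/-!
# RS69.Mass2 : tails, number of kick vectors
-/

set_option autoImplicit false

namespace Pool.Agent.RS69

variable {B : Base} (D : Design B)

namespace Mass2Aux

/-- quartic lattice sums outside a ball -/
theorem quartic_sum (B : Base) (a c : ℝ) (ha : 0 ≤ a) (hc : 0 ≤ c) : ∃ C : ℝ, 0 < C ∧
    ∀ (s : ℂ) (ρ : ℝ), 1 ≤ ρ → ∀ F : Finset Vec,
      (∀ v ∈ F, |B.l v| ≤ a ∧ |B.c v| ≤ c ∧ ρ < ‖B.z v - s‖) →
        ∑ v ∈ F, (‖B.z v - s‖ ^ 4)⁻¹ ≤ C / ρ ^ 2 := by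
  classical
  obtain ⟨C0, hC0, hcard⟩ := box_card B
  refine ⟨32 * (C0 * (a + 1) * (c + 1)), by positivity, fun s ρ hρ F hF => ?_⟩
  set κ : Vec → ℕ := fun v => Nat.log 2 ⌊‖B.z v - s‖ / ρ⌋₊ with hκ
  have hρ0 : 0 < ρ := by linarith
  have hk : ∀ v ∈ F, 2 ^ (κ v) * ρ ≤ ‖B.z v - s‖ ∧ ‖B.z v - s‖ ≤ 2 ^ (κ v + 1) * ρ := by
    intro v hv
    obtain ⟨_, _, h3⟩ := hF v hv
    have h4 : 1 < ‖B.z v - s‖ / ρ := (one_lt_div hρ0).2 h3
    have h5 : 1 ≤ ⌊‖B.z v - s‖ / ρ⌋₊ := by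
      rw [Nat.one_le_floor_iff]
      exact h4.le
    have h6 : 2 ^ (κ v) ≤ ⌊‖B.z v - s‖ / ρ⌋₊ := Nat.pow_log_le_self 2 (by omega)
    have h7 : ⌊‖B.z v - s‖ / ρ⌋₊ < 2 ^ (κ v + 1) := Nat.lt_pow_succ_log_self (by norm_num) _
    have h8 : (⌊‖B.z v - s‖ / ρ⌋₊ : ℝ) ≤ ‖B.z v - s‖ / ρ := Nat.floor_le (by positivity)
    have h9 : ‖B.z v - s‖ / ρ < ⌊‖B.z v - s‖ / ρ⌋₊ + 1 := Nat.lt_floor_add_one _
    have h10 : ((2 : ℝ) ^ (κ v)) ≤ (⌊‖B.z v - s‖ / ρ⌋₊ : ℝ) := by exact_mod_cast h6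
    have h11 : ((⌊‖B.z v - s‖ / ρ⌋₊ : ℝ) + 1) ≤ (2 : ℝ) ^ (κ v + 1) := by exact_mod_cast h7
    constructor
    · rw [← le_div_iff₀ hρ0]; linarith
    · rw [← div_le_iff₀ hρ0]; linarith
  have hmaps : ∀ v ∈ F, κ v ∈ F.image κ := fun v hv => Finset.mem_image_of_mem _ hv
  rw [← Finset.sum_fiberwise_of_maps_to hmaps]
  have hfib : ∀ k ∈ F.image κ, ∑ v ∈ F with κ v = k, (‖B.z v - s‖ ^ 4)⁻¹ ≤
      16 * (C0 * (a + 1) * (c + 1)) / ρ ^ 2 * (1 / 4) ^ k := by
    intro k _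
    have h2k : (0 : ℝ) < 2 ^ k := by positivity
    have hc1 := hcard 0 0 s a (2 ^ (k + 1) * ρ) c ha (by positivity) hc (F.filter (fun v => κ v = k))
      (by
        intro v hv
        rw [Finset.mem_filter] at hv
        obtain ⟨h1, h2, _⟩ := hF v hv.1
        refine ⟨by simpa using h1, ?_, by simpa using h2⟩
        have := (hk v hv.1).2
        rwa [hv.2] at this)
    have hterm : ∀ v ∈ F.filter (fun v => κ v = k), (‖B.z v - s‖ ^ 4)⁻¹ ≤ ((2 ^ k * ρ) ^ 4)⁻¹ := by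
      intro v hv
      rw [Finset.mem_filter] at hv
      have h1 := (hk v hv.1).1
      rw [hv.2] at h1
      exact inv_anti₀ (by positivity) (pow_le_pow_left₀ (by positivity) h1 4)
    refine (Finset.sum_le_card_nsmul _ _ _ hterm).trans ?_
    rw [nsmul_eq_mul]
    have hE : (2 ^ (k + 1) * ρ + 1) ^ 2 ≤ (4 * (2 ^ k * ρ)) ^ 2 := by
      refine pow_le_pow_left₀ (by positivity) ?_ 2
      have h1 : (1 : ℝ) ≤ 2 ^ k := one_le_pow₀ (by norm_num)
      have h3 : 1 ≤ 2 ^ k * ρ := by nlinarith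
      have h4 : (2 : ℝ) ^ (k + 1) = 2 * 2 ^ k := by ring
      rw [h4]
      nlinarith
    have hbase : 0 ≤ C0 * (a + 1) * (c + 1) := by positivity
    calc ((F.filter (fun v => κ v = k)).card : ℝ) * ((2 ^ k * ρ) ^ 4)⁻¹
        ≤ (C0 * (a + 1) * (2 ^ (k + 1) * ρ + 1) ^ 2 * (c + 1)) * ((2 ^ k * ρ) ^ 4)⁻¹ :=
          mul_le_mul_of_nonneg_right hc1 (by positivity)
      _ = (C0 * (a + 1) * (c + 1)) * (2 ^ (k + 1) * ρ + 1) ^ 2 * ((2 ^ k * ρ) ^ 4)⁻¹ := by ring
      _ ≤ (C0 * (a + 1) * (c + 1)) * (4 * (2 ^ k * ρ)) ^ 2 * ((2 ^ k * ρ) ^ 4)⁻¹ :=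
          mul_le_mul_of_nonneg_right (mul_le_mul_of_nonneg_left hE hbase) (by positivity)
      _ = 16 * (C0 * (a + 1) * (c + 1)) / ρ ^ 2 * (1 / 4) ^ k := by
          have h4 : (1 / 4 : ℝ) ^ k = ((2 ^ k) ^ 2)⁻¹ := by
            rw [← pow_mul, mul_comm k 2, pow_mul, one_div, inv_pow]
            norm_num
          rw [h4]
          field_simp
          ring
  refine (Finset.sum_le_sum hfib).trans ?_
  rw [← Finset.mul_sum]
  have hgeo : ∑ k ∈ F.image κ, (1 / 4 : ℝ) ^ k ≤ 2 := by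
    have hs : Summable (fun k : ℕ => (1 / 4 : ℝ) ^ k) :=
      summable_geometric_of_lt_one (by norm_num) (by norm_num)
    have h1 := hs.sum_le_tsum (F.image κ) (fun k _ => by positivity)
    rw [tsum_geometric_of_lt_one (by norm_num) (by norm_num)] at h1
    refine h1.trans ?_
    norm_num
  calc 16 * (C0 * (a + 1) * (c + 1)) / ρ ^ 2 * ∑ k ∈ F.image κ, (1 / 4 : ℝ) ^ k
      ≤ 16 * (C0 * (a + 1) * (c + 1)) / ρ ^ 2 * 2 :=
        mul_le_mul_of_nonneg_left hgeo (by positivity)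
    _ = 32 * (C0 * (a + 1) * (c + 1)) / ρ ^ 2 := by ring

/-- bound of the pairing by a bound of the lattice sums -/
theorem Bf_le_of_sum (B : Base) {ζ Λ R M : ℝ} (hζ : 0 < ζ) (hΛ : 0 < Λ) (J : ℂ → ℝ) (ν : Arr)
    {F : St → ℝ} (hF : Bdd B R F)
    (hM : ∀ (i j : ν.ι) (S : Finset Vec), ∑ V ∈ S, KD ζ Λ (B.c V + ν.pos i - ν.pos j) *
      J (B.z V + ν.zp i - ν.zp j) * F (ν.lt i, ν.lt j, V) ≤ M) :
    Bf B ζ Λ J ν F ≤ (∑ i, ν.w i) ^ 2 * M := by
  have h1 : Bf B ζ Λ J ν F ≤ ∑ i, ∑ j, ν.w i * ν.w j * M := by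
    unfold Bf
    refine Finset.sum_le_sum fun i _ => Finset.sum_le_sum fun j _ => ?_
    refine mul_le_mul_of_nonneg_left ?_ (mul_nonneg (ν.w_nonneg i) (ν.w_nonneg j))
    exact (Bf_summable B hζ hΛ J ν hF i j).tsum_le_of_sum_le (hM i j)
  refine h1.trans (le_of_eq ?_)
  rw [pow_two, Finset.sum_mul_sum, Finset.sum_mul]
  refine Finset.sum_congr rfl fun i _ => ?_
  rw [Finset.sum_mul]

theorem lmax_nonneg (B : Base) : 0 ≤ B.lmax := (I_nonneg B (0, 0, 0)).trans (I_le_lmax B _)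

theorem H_l (n : ℕ) (O : St) (h : D.S.H n O ≠ 0) : |B.l O.2.2| ≤ B.lmax := by
  refine abs_l_le_of_I_pos B O ?_
  have h1 := H_nonneg D n O
  have h2 := H_le_I D n O
  rcases h1.lt_or_eq with h3 | h3
  · linarith
  · exact absurd h3.symm h

theorem Bdd_trunc (n : ℕ) (p : St → Prop) [DecidablePred p] :
    Bdd B (B.lmax + 2 * D.Zt * n) (fun O => if p O then D.S.H n O else 0) := by
  intro O hO
  have h0 : D.S.H n O ≠ 0 := by
    intro h
    apply hO
    simp [h]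
  have h1 := H_l D n O h0
  have h2 := H_supp D n O h0
  have h3 := lmax_nonneg B
  have h4 : 0 ≤ 2 * D.Zt * n := (norm_nonneg _).trans h2
  exact ⟨by linarith, by linarith⟩

theorem Jr_le_quartic {r : ℝ} (hr : 1 ≤ r) (s : ℂ) (hs : s ≠ 0) :
    Jr r s ≤ 8 * r ^ 2 * (‖s‖ ^ 4)⁻¹ := by
  unfold Jr SRig.Jg
  have hn : 0 < ‖s‖ := norm_pos_iff.2 hs
  have hr0 : 0 < r := by linarith
  set y : ℝ := ‖s‖ ^ 2 / (2 * r ^ 2) with hy
  have hy0 : 0 < y := by positivity
  have h1 : y ^ 2 / 2 ≤ Real.exp y := by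
    have := Real.quadratic_le_exp_of_nonneg hy0.le
    nlinarith
  have h2 : Real.exp (-(‖s‖ ^ 2) / (2 * r ^ 2)) ≤ 2 / y ^ 2 := by
    rw [show -(‖s‖ ^ 2) / (2 * r ^ 2) = -y by rw [hy]; ring, Real.exp_neg]
    rw [show (2 : ℝ) / y ^ 2 = (y ^ 2 / 2)⁻¹ by rw [inv_div]]
    exact inv_anti₀ (by positivity) h1
  calc (r ^ 2)⁻¹ * Real.exp (-(‖s‖ ^ 2) / (2 * r ^ 2)) ≤ (r ^ 2)⁻¹ * (2 / y ^ 2) :=
        mul_le_mul_of_nonneg_left h2 (by positivity)
    _ = 8 * r ^ 2 * (‖s‖ ^ 4)⁻¹ := by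
        rw [hy]
        field_simp
        ring

end Mass2Aux

open Mass2Aux

/-- flat tail beyond radius `ρ`, from the quartic tail of `H_n` (dyadic shells) -/
theorem cn_tail {CH : ℝ} (hCH : ∀ (n : ℕ) (O : St), D.S.H n O * ‖B.z O.2.2‖ ^ 4 ≤ CH * (n + 1) ^ 2) :
    ∃ C : ℝ, 0 < C ∧ ∀ (ν : Arr), InC B D.Cν ν → ∀ n : ℕ, 1 ≤ n → ∀ ρ : ℝ, 1 ≤ ρ →
      Bf B D.ζ0 1 Jone ν (fun O => if ρ < ‖B.z O.2.2‖ then D.S.H n O else 0) ≤ C * n ^ 2 / ρ ^ 2 := by
  classical
  have hCH0 : 0 ≤ CH := by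
    have h1 := hCH 0 (0, 0, 0)
    have h2 : 0 ≤ D.S.H 0 (0, 0, 0) * ‖B.z ((0, 0, 0) : St).2.2‖ ^ 4 :=
      mul_nonneg (H_nonneg D 0 _) (by positivity)
    have h3 := h2.trans h1
    simpa using h3
  have hζ := ζ0_pos D
  have hf0 : 0 ≤ ∑ a, B.f a := Finset.sum_nonneg fun a _ => (B.f_pos a).le
  set c0 : ℝ := 1 / D.ζ0 + 2 * |D.Cν| with hc0
  obtain ⟨C1, hC1, hq⟩ := quartic_sum B B.lmax c0 (lmax_nonneg B) (by positivity)
  refine ⟨(∑ a, B.f a) ^ 2 * (4 * CH * C1) + 1, by positivity, fun ν hν n hn ρ hρ => ?_⟩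
  have hn1 : (1 : ℝ) ≤ n := by exact_mod_cast hn
  have hρ0 : 0 < ρ := by linarith
  have hmain := Bf_le_of_sum B (M := 4 * CH * C1 * n ^ 2 / ρ ^ 2) hζ one_pos Jone ν
    (Bdd_trunc D n (fun O => ρ < ‖B.z O.2.2‖)) (by
      intro i j S
      set S' : Finset Vec := S.filter (fun V => |B.l V| ≤ B.lmax ∧ |B.c V| ≤ c0 ∧ ρ < ‖B.z V‖) with hS'
      have h1 : ∑ V ∈ S, KD D.ζ0 1 (B.c V + ν.pos i - ν.pos j) *
          Jone (B.z V + ν.zp i - ν.zp j) *
            (if ρ < ‖B.z V‖ then D.S.H n (ν.lt i, ν.lt j, V) else 0) ≤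
          ∑ V ∈ S', CH * (n + 1) ^ 2 * (‖B.z V‖ ^ 4)⁻¹ := by
        rw [hS', Finset.sum_filter]
        refine Finset.sum_le_sum fun V _ => ?_
        have hH := H_nonneg D n (ν.lt i, ν.lt j, V)
        by_cases hz : ρ < ‖B.z V‖
        · rw [if_pos hz]
          by_cases hH0 : D.S.H n (ν.lt i, ν.lt j, V) = 0
          · rw [hH0, mul_zero]
            split_ifs
            · positivity
            · exact le_refl _
          · have hl := H_l D n _ hH0
            by_cases hcV : |B.c V| ≤ c0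
            · rw [if_pos ⟨hl, hcV, hz⟩]
              have hK := KD_le (ζ := D.ζ0) (D := 1) zero_le_one (B.c V + ν.pos i - ν.pos j)
              have hz0 : 0 < ‖B.z V‖ ^ 4 := by
                have : 0 < ‖B.z V‖ := by linarith
                positivity
              have hb : D.S.H n (ν.lt i, ν.lt j, V) ≤ CH * (n + 1) ^ 2 * (‖B.z V‖ ^ 4)⁻¹ := by
                rw [← div_eq_mul_inv, le_div_iff₀ hz0]
                exact hCH n (ν.lt i, ν.lt j, V)
              calc KD D.ζ0 1 (B.c V + ν.pos i - ν.pos j) * Jone (B.z V + ν.zp i - ν.zp j) *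
                    D.S.H n (ν.lt i, ν.lt j, V)
                  ≤ 1 * D.S.H n (ν.lt i, ν.lt j, V) := by
                    refine mul_le_mul_of_nonneg_right ?_ hH
                    simpa [Jone] using hK
                _ ≤ _ := by rw [one_mul]; exact hb
            · have hK : KD D.ζ0 1 (B.c V + ν.pos i - ν.pos j) = 0 := by
                refine KD_eq_zero ?_ hζ.le zero_le_one
                rw [not_le] at hcV
                have e1 : |B.c V| ≤ |B.c V + ν.pos i - ν.pos j| + 2 * |D.Cν| := by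
                  have a1 := abs_sub_abs_le_abs_sub (B.c V) (ν.pos j - ν.pos i)
                  have a2 := (hν.2 i).trans (le_abs_self _)
                  have a3 := (hν.2 j).trans (le_abs_self _)
                  have a4 := abs_sub (ν.pos j) (ν.pos i)
                  have a5 : B.c V - (ν.pos j - ν.pos i) = B.c V + ν.pos i - ν.pos j := by ring
                  rw [a5] at a1
                  linarith
                have e2 : 1 / D.ζ0 ≤ |B.c V + ν.pos i - ν.pos j| := by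
                  rw [hc0] at hcV
                  linarith
                rw [div_le_iff₀ hζ] at e2
                linarith
              rw [hK, zero_mul, zero_mul]
              split_ifs
              · positivity
              · exact le_refl _
        · rw [if_neg hz, mul_zero]
          split_ifs
          · positivity
          · exact le_refl _
      refine h1.trans ?_
      rw [← Finset.mul_sum]
      have h2 := hq 0 ρ hρ S' (by
        intro v hv
        rw [hS', Finset.mem_filter] at hv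
        simpa using hv.2)
      simp only [sub_zero] at h2
      calc CH * (n + 1) ^ 2 * ∑ V ∈ S', (‖B.z V‖ ^ 4)⁻¹ ≤ CH * (n + 1) ^ 2 * (C1 / ρ ^ 2) :=
            mul_le_mul_of_nonneg_left h2 (by positivity)
        _ ≤ CH * (4 * n ^ 2) * (C1 / ρ ^ 2) := by
            refine mul_le_mul_of_nonneg_right (mul_le_mul_of_nonneg_left ?_ hCH0) (by positivity)
            nlinarith
        _ = 4 * CH * C1 * n ^ 2 / ρ ^ 2 := by ring)
  rw [sum_w hν.1] at hmain
  refine hmain.trans ?_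
  have : (∑ a, B.f a) ^ 2 * (4 * CH * C1 * n ^ 2 / ρ ^ 2) =
      (∑ a, B.f a) ^ 2 * (4 * CH * C1) * (n ^ 2 / ρ ^ 2) := by ring
  rw [this, show ((∑ a, B.f a) ^ 2 * (4 * CH * C1) + 1) * (n : ℝ) ^ 2 / ρ ^ 2 =
    (∑ a, B.f a) ^ 2 * (4 * CH * C1) * (n ^ 2 / ρ ^ 2) + n ^ 2 / ρ ^ 2 by ring]
  have : (0 : ℝ) ≤ (n : ℝ) ^ 2 / ρ ^ 2 := by positivity
  linarith

/-- many kick vectors (B4, lower bound): points given by `Base.cover` over a `3g`-separated grid -/
theorem kick_card (B : Base) : ∃ c : ℝ, 0 < c ∧ ∃ r1 : ℝ, ∀ r : ℝ, r1 ≤ r →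
    ∃ F : Finset Vec, (∀ v, v ∈ F ↔ |B.l v| ≤ 1 / 2 ∧ ‖B.z v‖ ≤ r ∧ |B.c v| ≤ B.g) ∧
      c * r ^ 2 ≤ (F.card : ℝ) := by
  classical
  have hg := B.one_le_g
  have hg0 : 0 < B.g := by linarith
  refine ⟨1 / (256 * B.g ^ 2), by positivity, 16 * B.g, fun r hr => ?_⟩
  have hfin := box_finite B (1 / 2) r B.g
  refine ⟨hfin.toFinset, fun v => by simp, ?_⟩
  set K : ℕ := ⌊r / (8 * B.g)⌋₊ with hK
  have hr0 : 0 < r := by linarith
  have hK1 : (K : ℝ) ≤ r / (8 * B.g) := Nat.floor_le (by positivity)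
  have hK2 : r / (8 * B.g) < K + 1 := Nat.lt_floor_add_one _
  have hK3 : r / (16 * B.g) ≤ K := by
    have h1 : 1 ≤ r / (16 * B.g) := by
      rw [le_div_iff₀ (by positivity)]; linarith
    have h2 : r / (8 * B.g) = 2 * (r / (16 * B.g)) := by
      field_simp
      ring
    linarith
  have hKg : (K : ℝ) * (8 * B.g) ≤ r := by
    rwa [le_div_iff₀ (by positivity)] at hK1
  -- grid points
  let s : Fin K × Fin K → ℂ := fun x => ⟨3 * B.g * (x.1 : ℕ), 3 * B.g * (x.2 : ℕ)⟩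
  choose V hV using fun x : Fin K × Fin K => B.cover 0 0 (s x)
  have hinj : Function.Injective V := by
    intro x y hxy
    have h1 := (hV x).2.1
    have h2 := (hV y).2.1
    rw [hxy] at h1
    have h3 : ‖s x - s y‖ ≤ 2 * B.g := by
      calc ‖s x - s y‖ = ‖(B.z (V y) - s y) - (B.z (V y) - s x)‖ := by congr 1; ring
        _ ≤ ‖B.z (V y) - s y‖ + ‖B.z (V y) - s x‖ := norm_sub_le _ _
        _ ≤ 2 * B.g := by linarith
    have h4 := (Complex.abs_re_le_norm (s x - s y)).trans h3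
    have h5 := (Complex.abs_im_le_norm (s x - s y)).trans h3
    have aux : ∀ m n : Fin K, |3 * B.g * (m : ℕ) - 3 * B.g * (n : ℕ)| ≤ 2 * B.g → m = n := by
      intro m n hmn
      have e1 : |3 * B.g * ((m : ℕ) : ℝ) - 3 * B.g * (n : ℕ)| = 3 * B.g * |((m : ℕ) : ℝ) - (n : ℕ)| := by
        rw [← mul_sub, abs_mul, abs_of_pos (by positivity : 0 < 3 * B.g)]
      rw [e1] at hmn
      have e2 : |((m : ℕ) : ℝ) - (n : ℕ)| < 1 := by
        by_contra hcon
        rw [not_lt] at hcon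
        nlinarith
      have e3 : |((m : ℕ) : ℤ) - (n : ℕ)| < 1 := by exact_mod_cast e2
      have e4 : ((m : ℕ) : ℤ) - (n : ℕ) = 0 := Int.abs_lt_one_iff.1 e3
      exact Fin.ext (by omega)
    refine Prod.ext (aux _ _ ?_) (aux _ _ ?_)
    · simpa [s] using h4
    · simpa [s] using h5
  have hsub : Finset.univ.image V ⊆ hfin.toFinset := by
    intro v hv
    rw [Finset.mem_image] at hv
    obtain ⟨x, _, rfl⟩ := hv
    rw [Set.Finite.mem_toFinset]
    obtain ⟨h1, h2, h3⟩ := hV x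
    refine ⟨by simpa using h1, ?_, by simpa using h3⟩
    have h4 : ‖s x‖ ≤ 6 * B.g * K := by
      have e1 := Complex.norm_le_abs_re_add_abs_im (s x)
      have e2 : |(s x).re| ≤ 3 * B.g * K := by
        show |3 * B.g * ((x.1 : ℕ) : ℝ)| ≤ _
        rw [abs_of_nonneg (by positivity)]
        have : ((x.1 : ℕ) : ℝ) ≤ K := by exact_mod_cast x.1.isLt.le
        nlinarith
      have e3 : |(s x).im| ≤ 3 * B.g * K := by
        show |3 * B.g * ((x.2 : ℕ) : ℝ)| ≤ _
        rw [abs_of_nonneg (by positivity)]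
        have : ((x.2 : ℕ) : ℝ) ≤ K := by exact_mod_cast x.2.isLt.le
        nlinarith
      linarith
    have h5 : ‖B.z (V x)‖ ≤ ‖B.z (V x) - s x‖ + ‖s x‖ := by
      calc ‖B.z (V x)‖ = ‖(B.z (V x) - s x) + s x‖ := by congr 1; ring
        _ ≤ _ := norm_add_le _ _
    nlinarith
  have hcard : K * K ≤ hfin.toFinset.card := by
    have h1 := Finset.card_le_card hsub
    rw [Finset.card_image_of_injective _ hinj, Finset.card_univ, Fintype.card_prod,
      Fintype.card_fin] at h1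
    exact h1
  have hcard' : (K : ℝ) * K ≤ (hfin.toFinset.card : ℝ) := by exact_mod_cast hcard
  refine le_trans ?_ hcard'
  have h6 : r / (16 * B.g) * (r / (16 * B.g)) ≤ K * K :=
    mul_le_mul hK3 hK3 (by positivity) (by positivity)
  refine le_trans (le_of_eq ?_) h6
  field_simp
  ring

/-- modulated sums: the part outside the balls of radius `r2` around `± s0` is small (shells around `± s0`) -/
theorem mod_tail (r : ℝ) (hr : 1 ≤ r) (δ : ℝ) (hδ : 0 < δ) : ∃ r2 : ℝ, 0 < r2 ∧ ∀ (s0 : ℂ) (m : ℕ),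
    Bf B D.ζ0 (1 / D.ζ0) (fun s => (Jr r (s - s0) + Jr r (s + s0)) / 2) (nu0 B)
      (fun O => if r2 < ‖B.z O.2.2 - s0‖ ∧ r2 < ‖B.z O.2.2 + s0‖ then D.S.H m O else 0) ≤ δ := by
  classical
  have hζ := ζ0_pos D
  have hΛ : 0 < 1 / D.ζ0 := by positivity
  have hl0 := lmax_nonneg B
  have hr0 : 0 < r := by linarith
  obtain ⟨C1, hC1, hq⟩ := quartic_sum B B.lmax 1 hl0 zero_le_one
  set A : ℝ := (∑ a, B.f a) ^ 2 * (1 / D.ζ0 * B.lmax * (8 * r ^ 2) * C1) with hA
  have hA0 : 0 ≤ A := by positivity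
  refine ⟨max 1 (A / δ), lt_of_lt_of_le one_pos (le_max_left _ _), fun s0 m => ?_⟩
  set ρ : ℝ := max 1 (A / δ) with hρ
  have hρ1 : 1 ≤ ρ := le_max_left _ _
  have hρ2 : A / δ ≤ ρ := le_max_right _ _
  have hρ0 : 0 < ρ := by linarith
  have hmain := Bf_le_of_sum B (M := 1 / D.ζ0 * B.lmax * (8 * r ^ 2) * (C1 / ρ ^ 2)) hζ hΛ
    (fun s => (Jr r (s - s0) + Jr r (s + s0)) / 2) (nu0 B)
    (Bdd_trunc D m (fun O => ρ < ‖B.z O.2.2 - s0‖ ∧ ρ < ‖B.z O.2.2 + s0‖)) (by
      intro i j S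
      set S' : Finset Vec := S.filter (fun V => |B.l V| ≤ B.lmax ∧ |B.c V| ≤ 1 ∧
        ρ < ‖B.z V - s0‖ ∧ ρ < ‖B.z V + s0‖) with hS'
      have h1 : ∑ V ∈ S, KD D.ζ0 (1 / D.ζ0) (B.c V + (nu0 B).pos i - (nu0 B).pos j) *
          ((Jr r (B.z V + (nu0 B).zp i - (nu0 B).zp j - s0) +
            Jr r (B.z V + (nu0 B).zp i - (nu0 B).zp j + s0)) / 2) *
            (if ρ < ‖B.z V - s0‖ ∧ ρ < ‖B.z V + s0‖ then
              D.S.H m ((nu0 B).lt i, (nu0 B).lt j, V) else 0) ≤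
          ∑ V ∈ S', 1 / D.ζ0 * B.lmax * (8 * r ^ 2) *
            (((‖B.z V - s0‖ ^ 4)⁻¹ + (‖B.z V - (-s0)‖ ^ 4)⁻¹) / 2) := by
        rw [hS', Finset.sum_filter]
        refine Finset.sum_le_sum fun V _ => ?_
        have e0 : B.c V + (nu0 B).pos i - (nu0 B).pos j = B.c V := by simp [nu0]
        have e1 : B.z V + (nu0 B).zp i - (nu0 B).zp j = B.z V := by simp [nu0]
        rw [e0, e1]
        have hH := H_nonneg D m ((nu0 B).lt i, (nu0 B).lt j, V)
        have hHI := (H_le_I D m ((nu0 B).lt i, (nu0 B).lt j, V)).trans (I_le_lmax B _)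
        by_cases hz : ρ < ‖B.z V - s0‖ ∧ ρ < ‖B.z V + s0‖
        · rw [if_pos hz]
          by_cases hH0 : D.S.H m ((nu0 B).lt i, (nu0 B).lt j, V) = 0
          · rw [hH0, mul_zero]
            split_ifs
            · positivity
            · exact le_refl _
          · have hl := H_l D m _ hH0
            by_cases hcV : |B.c V| ≤ 1
            · rw [if_pos ⟨hl, hcV, hz⟩]
              have hK := KD_le (ζ := D.ζ0) (D := 1 / D.ζ0) hΛ.le (B.c V)
              have hK0 := KD_nonneg (ζ := D.ζ0) (D := 1 / D.ζ0) hΛ.le (B.c V)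
              have n1 : B.z V - s0 ≠ 0 := by
                intro h
                rw [h, norm_zero] at hz
                linarith [hz.1]
              have n2 : B.z V + s0 ≠ 0 := by
                intro h
                rw [h, norm_zero] at hz
                linarith [hz.2]
              have j1 := Jr_le_quartic hr _ n1
              have j2 := Jr_le_quartic hr _ n2
              have j3 := Jr_nonneg r (B.z V - s0)
              have j4 := Jr_nonneg r (B.z V + s0)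
              have e2 : B.z V - (-s0) = B.z V + s0 := by ring
              rw [e2]
              have hJ : (Jr r (B.z V - s0) + Jr r (B.z V + s0)) / 2 ≤
                  8 * r ^ 2 * (((‖B.z V - s0‖ ^ 4)⁻¹ + (‖B.z V + s0‖ ^ 4)⁻¹) / 2) := by
                linarith
              have hJ0 : 0 ≤ (Jr r (B.z V - s0) + Jr r (B.z V + s0)) / 2 := by linarith
              calc KD D.ζ0 (1 / D.ζ0) (B.c V) * ((Jr r (B.z V - s0) + Jr r (B.z V + s0)) / 2) *
                    D.S.H m ((nu0 B).lt i, (nu0 B).lt j, V)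
                  ≤ (1 / D.ζ0) * (8 * r ^ 2 * (((‖B.z V - s0‖ ^ 4)⁻¹ +
                      (‖B.z V + s0‖ ^ 4)⁻¹) / 2)) * B.lmax := by
                    refine mul_le_mul (mul_le_mul hK hJ hJ0 hΛ.le) hHI hH ?_
                    exact mul_nonneg hΛ.le (by positivity)
                _ = _ := by ring
            · have hK : KD D.ζ0 (1 / D.ζ0) (B.c V) = 0 := by
                refine KD_eq_zero ?_ hζ.le hΛ.le
                rw [not_le] at hcV
                rw [← mul_assoc, one_div, inv_mul_cancel₀ hζ.ne', one_mul]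
                exact hcV.le
              rw [hK, zero_mul, zero_mul]
              split_ifs
              · positivity
              · exact le_refl _
        · rw [if_neg hz, mul_zero]
          split_ifs
          · positivity
          · exact le_refl _
      refine h1.trans ?_
      rw [← Finset.mul_sum]
      refine mul_le_mul_of_nonneg_left ?_ (by positivity)
      rw [← Finset.sum_div, Finset.sum_add_distrib]
      have h2 := hq s0 ρ hρ1 S' (by
        intro v hv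
        rw [hS', Finset.mem_filter] at hv
        exact ⟨hv.2.1, hv.2.2.1, hv.2.2.2.1⟩)
      have h3 := hq (-s0) ρ hρ1 S' (by
        intro v hv
        rw [hS', Finset.mem_filter] at hv
        refine ⟨hv.2.1, hv.2.2.1, ?_⟩
        rw [sub_neg_eq_add]
        exact hv.2.2.2.2)
      linarith)
  refine hmain.trans ?_
  have hw : ∑ i, (nu0 B).w i = ∑ a, B.f a := rfl
  rw [hw]
  have e3 : (∑ a, B.f a) ^ 2 * (1 / D.ζ0 * B.lmax * (8 * r ^ 2) * (C1 / ρ ^ 2)) = A / ρ ^ 2 := by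
    rw [hA]; ring
  rw [e3, div_le_iff₀ (by positivity)]
  rw [div_le_iff₀ hδ] at hρ2
  nlinarith

end Pool.Agent.RS69
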