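import Pool.Agent.RS69.Main1
import Pool.Agent.RS69.Mass2

/-!
# RS69.Rec4 : 8.B, first part

`Λ = 1/ζ0`, so `KD ζ0 Λ x` is supported in `|x| ≤ 1`.  `p_D := inf_r sup_m Bf Λ (Jr r) nu0 H_m ≥ p` (by
`Bf_H_mono_loc`), choose `r` with `sup_m ≤ 1.1 p_D`; `QF_mod` at time `m` with `w^m s0` (the kernel is rotated
in `Bf_H`), `d = 1/10`, `R = r + 2|s0|/d`: `sup_m` of the modulated pairing `≥ 2 p_D - 1.21 p_D ≥ p_D/2`;
`mod_tail` with `δ = p_D/4`; the number of `V` with `|c(V)| ≤ 1`, `|z(V) ∓ s0| ≤ r2`, `|l(V)| ≤ lmax` is bounded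
(`box_card`), so some `H_m(a,b,V) ≥ cp`; if `V` is near `-s0` use `(b,a,-V)` (`H_symm`).
-/

set_option autoImplicit false

namespace Pool.Agent.RS69

variable {B : Base} (D : Design B)

private theorem Jr_le_one' (r : ℝ) (hr : 1 ≤ r) (s : ℂ) : Jr r s ≤ 1 := by
  unfold Jr SRig.Jg
  have hr0 : 0 < r := by linarith
  have h1 : (r ^ 2)⁻¹ ≤ 1 := inv_le_one_of_one_le₀ (one_le_pow₀ hr)
  have h2 : Real.exp (-(‖s‖ ^ 2) / (2 * r ^ 2)) ≤ 1 := by
    rw [Real.exp_le_one_iff]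
    exact div_nonpos_of_nonpos_of_nonneg (by have := sq_nonneg ‖s‖; linarith) (by positivity)
  have h3 : 0 ≤ (r ^ 2)⁻¹ := by positivity
  have h4 : 0 ≤ Real.exp (-(‖s‖ ^ 2) / (2 * r ^ 2)) := (Real.exp_pos _).le
  exact mul_le_one₀ h1 h4 h2

private theorem Dt_pos (m : ℕ) : 0 < D.t ^ m :=
  pow_pos (pow_pos (by linarith [B.one_lt_t0]) _) m

private theorem norm_wm (m : ℕ) : ‖D.w ^ m‖ = 1 := by
  unfold Design.w
  rw [norm_pow, norm_pow, B.norm_w0, one_pow, one_pow]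

/-- rotation invariance of the Gaussian, shifted form -/
private theorem Jr_rot_shift {r : ℝ} {w : ℂ} (hw : ‖w‖ = 1) (s s0 : ℂ) :
    Jr r (w⁻¹ * s - s0) = Jr r (s - w * s0) := by
  have hw0 : w ≠ 0 := by
    intro h
    rw [h, norm_zero] at hw
    exact zero_ne_one hw
  have h1 := congrFun (Jr_rot (r := r) hw) (s - w * s0)
  have h2 : w⁻¹ * (s - w * s0) = w⁻¹ * s - s0 := by
    rw [mul_sub, ← mul_assoc, inv_mul_cancel₀ hw0, one_mul]
  have h3 : Jr r (w⁻¹ * (s - w * s0)) = Jr r (s - w * s0) := h1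
  rw [h2] at h3
  exact h3

/-- the localised pairing as a Gram form -/
private theorem Bf_Jr_eq {Λ : ℝ} (hΛ : 0 < Λ) (r : ℝ) (m : ℕ) :
    Bf B D.ζ0 Λ (Jr r) (nu0 B) (D.S.H m) = QF B D.ζ0 (Λ * D.t ^ m) (Jr r) ((push D.S)^[m] (nu0 B)) := by
  rw [Bf_H D (ζ0_pos D) hΛ, Jr_rot (norm_wm D m)]

/-- the modulated pairing as a Gram form -/
private theorem Bf_mod_eq {Λ : ℝ} (hΛ : 0 < Λ) (r : ℝ) (s0 : ℂ) (m : ℕ) :
    Bf B D.ζ0 Λ (fun s => (Jr r (s - s0) + Jr r (s + s0)) / 2) (nu0 B) (D.S.H m) =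
      QF B D.ζ0 (Λ * D.t ^ m) (fun s => (Jr r (s - D.w ^ m * s0) + Jr r (s + D.w ^ m * s0)) / 2)
        ((push D.S)^[m] (nu0 B)) := by
  rw [Bf_H D (ζ0_pos D) hΛ]
  congr 1
  funext s
  have h1 := Jr_rot_shift (r := r) (norm_wm D m) s s0
  have h2 := Jr_rot_shift (r := r) (norm_wm D m) s (-s0)
  rw [sub_neg_eq_add, mul_neg, sub_neg_eq_add] at h2
  rw [h1, h2]

/-- coincidences are reachable with uniformly positive probability near every point -/
theorem local_lower (hp : ∃ p : ℝ, 0 < p ∧ ∀ r : ℝ, 1 ≤ r → ∃ m : ℕ, p ≤ D.Qn (nu0 B) m r) :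
    ∃ (cp r2 : ℝ), 0 < cp ∧ 0 < r2 ∧ ∀ s0 : ℂ, ∃ (O : St) (m : ℕ), ‖B.z O.2.2 - s0‖ ≤ r2 ∧
      |B.c O.2.2| ≤ 1 ∧ cp ≤ D.S.H m O := by
  classical
  obtain ⟨p, hp0, hp⟩ := hp
  have hζ := ζ0_pos D
  have hζ1 := ζ0_le_one D
  set Λ : ℝ := 1 / D.ζ0 with hΛdef
  have hΛ1 : 1 ≤ Λ := by
    rw [hΛdef, le_div_iff₀ hζ, one_mul]
    exact hζ1
  have hΛ : 0 < Λ := by linarith
  obtain ⟨CQ, hCQ, hQ⟩ := Q_le' D
  set b : ℝ → ℕ → ℝ := fun r m => Bf B D.ζ0 Λ (Jr r) (nu0 B) (D.S.H m) with hb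
  have hbC : ∀ r, 1 ≤ r → ∀ m, b r m ≤ CQ := fun r hr m => hQ r hr m
  have hbdd : ∀ r, 1 ≤ r → BddAbove (Set.range (b r)) := by
    intro r hr
    refine ⟨CQ, ?_⟩
    rintro x ⟨m, rfl⟩
    exact hbC r hr m
  set S : ℝ → ℝ := fun r => ⨆ m, b r m with hS
  have hSp : ∀ r, 1 ≤ r → p ≤ S r := by
    intro r hr
    obtain ⟨m, hm⟩ := hp r hr
    have h1 : D.Qn (nu0 B) m r ≤ b r m :=
      Bf_H_mono_loc D (nu0 B) m one_pos hΛ1 (by linarith) le_rfl
    exact (hm.trans h1).trans (le_ciSup (hbdd r hr) m)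
  set pD : ℝ := sInf (S '' Set.Ici 1) with hpD
  have hne : (S '' Set.Ici (1 : ℝ)).Nonempty := ⟨S 1, 1, Set.mem_Ici.2 le_rfl, rfl⟩
  have hbel : BddBelow (S '' Set.Ici (1 : ℝ)) := by
    refine ⟨p, ?_⟩
    rintro x ⟨r, hr, rfl⟩
    exact hSp r hr
  have hpD0 : p ≤ pD := by
    refine le_csInf hne ?_
    rintro x ⟨r, hr, rfl⟩
    exact hSp r hr
  have hpDpos : 0 < pD := by linarith
  obtain ⟨x, ⟨r, hr, rfl⟩, hr2⟩ := exists_lt_of_csInf_lt hne (show sInf (S '' Set.Ici 1) < 1.1 * pD by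
    rw [← hpD]; linarith)
  have hr1 : 1 ≤ r := hr
  have hr0 : 0 < r := by linarith
  obtain ⟨r2, hr20, htail⟩ := mod_tail D r hr1 (pD / 4) (by linarith)
  obtain ⟨Cb, hCb, hbox⟩ := box_card B
  have hf0 : 0 < ∑ a, B.f a := Finset.sum_pos (fun a _ => B.f_pos a) ⟨0, Finset.mem_univ _⟩
  have hl0 := Mass2Aux.lmax_nonneg B
  set Nb : ℝ := 2 * (Cb * (B.lmax + 1) * (r2 + 1) ^ 2 * (1 + 1)) with hNb
  have hNb0 : 0 < Nb := by positivity
  set cp : ℝ := pD / (8 * ((∑ a, B.f a) ^ 2 * Λ * Nb)) with hcp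
  have hcp0 : 0 < cp := by positivity
  refine ⟨cp, r2, hcp0, hr20, fun s0 => ?_⟩
  -- the time `m`
  set R : ℝ := r + 2 * ‖s0‖ / (1 / 10) with hR
  have hRr : r ≤ R := by
    have : 0 ≤ 2 * ‖s0‖ / (1 / 10) := by positivity
    linarith
  have hR1 : 1 ≤ R := hr1.trans hRr
  have hSR : pD ≤ S R := csInf_le hbel ⟨R, hR1, rfl⟩
  obtain ⟨m, hm⟩ := exists_lt_of_lt_ciSup (show 0.9 * pD < ⨆ m, b R m by
    have : S R = ⨆ m, b R m := rfl
    rw [← this]; linarith)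
  have hbr : b r m ≤ 1.1 * pD := (le_ciSup (hbdd r hr1) m).trans hr2.le
  set J : ℂ → ℝ := fun s => (Jr r (s - s0) + Jr r (s + s0)) / 2 with hJ
  have hmod : pD / 2 ≤ Bf B D.ζ0 Λ J (nu0 B) (D.S.H m) := by
    have h1 := QF_mod B hr0 (show (0 : ℝ) < 1 / 10 by norm_num) (D.w ^ m * s0) (R := R) (by
      rw [norm_mul, norm_wm D m, one_mul]) ((push D.S)^[m] (nu0 B)) (ζ := D.ζ0) (D := Λ * D.t ^ m)
      (mul_pos hΛ (Dt_pos D m)).le
    rw [← Bf_Jr_eq D hΛ R m, ← Bf_Jr_eq D hΛ r m, ← Bf_mod_eq D hΛ r s0 m] at h1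
    have h2 : 0.9 * pD < Bf B D.ζ0 Λ (Jr R) (nu0 B) (D.S.H m) := hm
    have h3 : Bf B D.ζ0 Λ (Jr r) (nu0 B) (D.S.H m) ≤ 1.1 * pD := hbr
    have h4 : Bf B D.ζ0 Λ J (nu0 B) (D.S.H m) =
      Bf B D.ζ0 Λ (fun s => (Jr r (s - s0) + Jr r (s + s0)) / 2) (nu0 B) (D.S.H m) := rfl
    rw [h4]
    linarith
  -- near part
  set Far : St → Prop := fun O => r2 < ‖B.z O.2.2 - s0‖ ∧ r2 < ‖B.z O.2.2 + s0‖ with hFar
  set F1 : St → ℝ := fun O => if Far O then D.S.H m O else 0 with hF1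
  set F2 : St → ℝ := fun O => if ¬ Far O then D.S.H m O else 0 with hF2
  have hB1 : Bdd B (B.lmax + 2 * D.Zt * m) F1 := Mass2Aux.Bdd_trunc D m Far
  have hB2 : Bdd B (B.lmax + 2 * D.Zt * m) F2 := Mass2Aux.Bdd_trunc D m (fun O => ¬ Far O)
  have hsplit : Bf B D.ζ0 Λ J (nu0 B) (D.S.H m) =
      Bf B D.ζ0 Λ J (nu0 B) F1 + Bf B D.ζ0 Λ J (nu0 B) F2 := by
    rw [← Bf_add B hζ hΛ J (nu0 B) hB1 hB2]
    congr 1
    funext O
    by_cases h : Far O
    · simp [hF1, hF2, h]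
    · simp [hF1, hF2, h]
  have h1tail : Bf B D.ζ0 Λ J (nu0 B) F1 ≤ pD / 4 := htail s0 m
  have hnear : pD / 4 ≤ Bf B D.ζ0 Λ J (nu0 B) F2 := by linarith
  by_contra hcon
  push Not at hcon
  -- all near values are small
  have hsmall : ∀ (a c : Ltr) (V : Vec), |B.c V| ≤ 1 → ¬ Far (a, c, V) → D.S.H m (a, c, V) ≤ cp := by
    intro a c V hc hF
    by_contra hlt
    push Not at hlt
    rw [hFar] at hF
    simp only [not_and_or, not_lt] at hF
    rcases hF with h | h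
    · exact absurd (hcon (a, c, V) m h hc) (not_lt.2 hlt.le)
    · have h2 : ‖B.z (-V) - s0‖ ≤ r2 := by
        rw [map_neg, show -B.z V - s0 = -(B.z V + s0) by ring, norm_neg]
        exact h
      have h3 : |B.c (-V)| ≤ 1 := by
        rw [map_neg, abs_neg]
        exact hc
      have h4 := hcon (c, a, -V) m h2 h3
      rw [← H_symm D m a c V] at h4
      exact absurd h4 (not_lt.2 hlt.le)
  have hJ0 : ∀ s, 0 ≤ J s := fun s => by
    have h1 := Jr_nonneg r (s - s0)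
    have h2 := Jr_nonneg r (s + s0)
    simp only [hJ]
    linarith
  have hJ1 : ∀ s, J s ≤ 1 := fun s => by
    have h1 := Jr_le_one' r hr1 (s - s0)
    have h2 := Jr_le_one' r hr1 (s + s0)
    simp only [hJ]
    linarith
  have hmain := Mass2Aux.Bf_le_of_sum B (M := Λ * cp * Nb) hζ hΛ J (nu0 B) hB2 (by
    intro i j T
    have key : ∀ V ∈ T, KD D.ζ0 Λ (B.c V + (nu0 B).pos i - (nu0 B).pos j) *
        J (B.z V + (nu0 B).zp i - (nu0 B).zp j) * F2 ((nu0 B).lt i, (nu0 B).lt j, V) ≤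
        if (|B.l V| ≤ B.lmax ∧ |B.c V| ≤ 1 ∧ ¬ Far (0, 0, V)) then Λ * cp else 0 := by
      intro V _
      have e1 : B.c V + (nu0 B).pos i - (nu0 B).pos j = B.c V := by
        show B.c V + 0 - 0 = B.c V
        ring
      rw [e1]
      have hK0 := KD_nonneg (ζ := D.ζ0) hΛ.le (B.c V)
      have hK1 := KD_le (ζ := D.ζ0) hΛ.le (B.c V)
      have hJ0' := hJ0 (B.z V + (nu0 B).zp i - (nu0 B).zp j)
      have hJ1' := hJ1 (B.z V + (nu0 B).zp i - (nu0 B).zp j)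
      have hKJ : KD D.ζ0 Λ (B.c V) * J (B.z V + (nu0 B).zp i - (nu0 B).zp j) ≤ Λ := by
        have := mul_le_mul hK1 hJ1' hJ0' hΛ.le
        rwa [mul_one] at this
      have hKJ0 : 0 ≤ KD D.ζ0 Λ (B.c V) * J (B.z V + (nu0 B).zp i - (nu0 B).zp j) :=
        mul_nonneg hK0 hJ0'
      by_cases hc : |B.c V| ≤ 1
      · by_cases hfar : Far (0, 0, V)
        · have h0 : F2 ((nu0 B).lt i, (nu0 B).lt j, V) = 0 := by
            have : Far ((nu0 B).lt i, (nu0 B).lt j, V) := hfar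
            simp only [hF2]
            rw [if_neg (not_not.2 this)]
          rw [h0, mul_zero]
          split_ifs
          · positivity
          · exact le_rfl
        · have hfar' : ¬ Far ((nu0 B).lt i, (nu0 B).lt j, V) := hfar
          have h0 : F2 ((nu0 B).lt i, (nu0 B).lt j, V) = D.S.H m ((nu0 B).lt i, (nu0 B).lt j, V) := by
            simp only [hF2]
            rw [if_pos hfar']
          by_cases hl : |B.l V| ≤ B.lmax
          · rw [if_pos ⟨hl, hc, hfar⟩, h0]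
            exact mul_le_mul hKJ (hsmall _ _ V hc hfar') (H_nonneg D m _) hΛ.le
          · have h3 : D.S.H m ((nu0 B).lt i, (nu0 B).lt j, V) = 0 := by
              by_contra h4
              exact hl (Mass2Aux.H_l D m ((nu0 B).lt i, (nu0 B).lt j, V) h4)
            rw [h0, h3, mul_zero]
            split_ifs
            · positivity
            · exact le_rfl
      · have h5 : KD D.ζ0 Λ (B.c V) = 0 := by
          refine KD_eq_zero ?_ hζ.le hΛ.le
          rw [← mul_assoc, hΛdef, one_div, inv_mul_cancel₀ hζ.ne', one_mul]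
          exact (not_le.1 hc).le
        rw [h5, zero_mul, zero_mul]
        split_ifs
        · positivity
        · exact le_rfl
    refine (Finset.sum_le_sum key).trans ?_
    rw [← Finset.sum_filter, Finset.sum_const, nsmul_eq_mul]
    set T' : Finset Vec := T.filter (fun V => |B.l V| ≤ B.lmax ∧ |B.c V| ≤ 1 ∧ ¬ Far (0, 0, V)) with hT'
    have hcard : (T'.card : ℝ) ≤ Nb := by
      set T1 := T'.filter (fun V => ‖B.z V - s0‖ ≤ r2) with hT1
      set T2 := T'.filter (fun V => ‖B.z V + s0‖ ≤ r2) with hT2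
      have hsub : T' ⊆ T1 ∪ T2 := by
        intro V hV
        have h1 := (Finset.mem_filter.1 hV).2.2.2
        rw [hFar] at h1
        simp only [not_and_or, not_lt] at h1
        rw [Finset.mem_union]
        rcases h1 with h | h
        · exact Or.inl (Finset.mem_filter.2 ⟨hV, h⟩)
        · exact Or.inr (Finset.mem_filter.2 ⟨hV, h⟩)
      have hc1 := hbox 0 0 s0 B.lmax r2 1 hl0 hr20.le zero_le_one T1 (by
        intro V hV
        obtain ⟨h1, h2⟩ := Finset.mem_filter.1 hV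
        obtain ⟨_, h3, h4, _⟩ := Finset.mem_filter.1 h1
        exact ⟨by rwa [sub_zero], h2, by rwa [sub_zero]⟩)
      have hc2 := hbox 0 0 (-s0) B.lmax r2 1 hl0 hr20.le zero_le_one T2 (by
        intro V hV
        obtain ⟨h1, h2⟩ := Finset.mem_filter.1 hV
        obtain ⟨_, h3, h4, _⟩ := Finset.mem_filter.1 h1
        exact ⟨by rwa [sub_zero], by rwa [sub_neg_eq_add], by rwa [sub_zero]⟩)
      have h3 : (T'.card : ℝ) ≤ T1.card + T2.card := by
        have := (Finset.card_le_card hsub).trans (Finset.card_union_le T1 T2)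
        exact_mod_cast this
      rw [hNb]
      linarith
    calc (T'.card : ℝ) * (Λ * cp) ≤ Nb * (Λ * cp) :=
          mul_le_mul_of_nonneg_right hcard (by positivity)
      _ = Λ * cp * Nb := by ring)
  have hw : (∑ i, (nu0 B).w i) = ∑ a, B.f a := rfl
  rw [hw] at hmain
  have hval : (∑ a, B.f a) ^ 2 * (Λ * cp * Nb) = pD / 8 := by
    rw [hcp]
    field_simp
  rw [hval] at hmain
  linarith

end Pool.Agent.RS69
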