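import Pool.Agent.RS69.Reach2

/-!
# RS69.Rec5 : 8.B, second part: from reachable coincidences to recurrence
-/

set_option autoImplicit false

namespace Pool.Agent.RS69

open Filter Topology

variable {B : Base} (D : Design B)

namespace Rec5Aux

/-- averaging: a pointwise lower bound by the functions `H_m` is inherited by the iterates -/
theorem avg (F : St → ℝ) (hF : ∀ O, ∃ m, F O ≤ D.S.H m O) (j : ℕ) (O : St) :
    ∃ m, (D.S.op^[j] F) O ≤ D.S.H m O := by
  obtain ⟨ι, _, c, st, hc, h⟩ := iter_fin D.S j O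
  choose m hm using hF
  refine ⟨(∑ i, m (st i)) + j, ?_⟩
  rw [← op_iter_H D j, h, h]
  refine Finset.sum_le_sum fun i _ => mul_le_mul_of_nonneg_left ?_ (hc i)
  refine (hm (st i)).trans (H_mono D ?_ _)
  exact Finset.single_le_sum (f := fun i => m (st i)) (fun _ _ => Nat.zero_le _) (Finset.mem_univ i)

theorem h_of_H {c : ℝ} {m : ℕ} {O : St} (hI : 0 < B.I O) (h : c * B.I O ≤ D.S.H m O) :
    c ≤ D.S.h m O := by
  unfold Level.h
  rwa [le_div_iff₀ hI]

theorem H_of_h {c : ℝ} {m : ℕ} {O : St} (h : c ≤ D.S.h m O) :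
    c * B.I O ≤ D.S.H m O := by
  rw [← I_mul_h, mul_comm]
  exact mul_le_mul_of_nonneg_left h (I_nonneg B O)

theorem H_coin_I (n : ℕ) (O : St) (h : Coin O) : D.S.H n O = B.I O := by
  rw [H_coin D n O h]
  obtain ⟨a, b, v⟩ := O
  obtain ⟨h1, h2⟩ := h
  simp only at h1 h2
  subst h1 h2
  rw [I_coin]

theorem lmax_pos (B : Base) : 0 < B.lmax :=
  lt_of_lt_of_le (CoinAux.l_ev_pos B 0) (l_le_lmax B 0)

end Rec5Aux

open Rec5Aux

/-- good states: `reach` with `s = 0` and a fixed `L ≥ r2 + Z3 + 1`, `H_{m+L}(G) ≥ (op^[L] 1_O)(G) H_m(O)` -/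
theorem good_lower (h : ∃ (cp r2 : ℝ), 0 < cp ∧ 0 < r2 ∧ ∀ s0 : ℂ, ∃ (O : St) (m : ℕ),
      ‖B.z O.2.2 - s0‖ ≤ r2 ∧ |B.c O.2.2| ≤ 1 ∧ cp ≤ D.S.H m O) :
    ∃ c' : ℝ, 0 < c' ∧ ∀ G, D.Good G → ∃ m, c' ≤ D.S.h m G := by
  obtain ⟨cp, r2, hcp, hr2, h⟩ := h
  obtain ⟨L, hL⟩ := exists_nat_ge (r2 + D.Z3 + 1)
  have hl := lmax_pos B
  have ht := CoinAux.t_pos' D
  have hk : 0 < (8 * B.lmax)⁻¹ * (D.t ^ L)⁻¹ * cp := by positivity
  refine ⟨(8 * B.lmax)⁻¹ * (D.t ^ L)⁻¹ * cp / B.lmax, by positivity, ?_⟩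
  intro G hG
  obtain ⟨O, m, h1, h2, h3⟩ := h (D.w ^ (0 + L) * B.z G.2.2)
  have hIO : 0 < B.I O := lt_of_lt_of_le hcp (h3.trans (H_le_I D m O))
  have hc : |B.c O.2.2| ≤ B.Cc := by
    have := CoinAux.kc_nonneg B
    unfold Base.Cc
    linarith
  have h4 := reach D G O hG 0 L r2 hr2.le hL hIO hc h1
  rw [pow_zero, inv_one, mul_one, Nat.zero_add] at h4
  have hIG : 0 < B.I G := by
    have := D.good_I G hG
    linarith
  refine ⟨m + L, h_of_H D hIG ?_⟩
  have h5 := iter_ge_ind D.S L (H_nonneg D m) G O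
  rw [op_iter_H] at h5
  have h6 : (8 * B.lmax)⁻¹ * (D.t ^ L)⁻¹ * cp ≤ (D.S.op^[L] (ind O)) G * D.S.H m O := by
    apply mul_le_mul h4 h3 hcp.le
    exact le_trans (by positivity) h4
  refine le_trans ?_ (h6.trans h5)
  rw [div_mul_eq_mul_div, div_le_iff₀ hl]
  exact mul_le_mul_of_nonneg_left (I_le_lmax B G) hk.le

namespace Rec5Aux

/-- all overlapping states in the range `|c| ≤ Cbig` -/
theorem range_lower {c' : ℝ} (hc' : 0 < c') (h : ∀ G, D.Good G → ∃ m, c' ≤ D.S.h m G)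
    {c2 : ℝ} (h1 : c2 ≤ 1) (h2 : c2 ≤ c') (h3 : c2 * B.lmax ≤ (D.t)⁻¹ * (c' * (1 / 8)))
    (h0 : 0 ≤ c2) (O : St) (hI : 0 < B.I O) (hc : |B.c O.2.2| ≤ D.Cbig) :
    ∃ m, c2 * B.I O ≤ D.S.H m O := by
  have hgood : ∀ G, D.Good G → ∃ m, c2 * B.I G ≤ D.S.H m G := by
    intro G hG
    obtain ⟨m, hm⟩ := h G hG
    refine ⟨m, le_trans ?_ (H_of_h D hm)⟩
    exact mul_le_mul_of_nonneg_right h2 (I_nonneg B G)
  have hcoin : ∀ G, Coin G → ∃ m, c2 * B.I G ≤ D.S.H m G := by
    intro G hG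
    refine ⟨0, ?_⟩
    rw [H_coin_I D 0 G hG]
    have := I_nonneg B G
    nlinarith
  have hngc : ∀ O, ¬ D.NGC O → ∃ m, c2 * B.I O ≤ D.S.H m O := by
    intro O hO
    unfold Design.NGC at hO
    push Not at hO
    obtain ⟨G, hG, hne⟩ := hO
    have h4 := op_ind_ge D O G hne
    obtain ⟨m, hm⟩ := h G hG
    have h5 := H_of_h D hm
    have h6 := iter_ge_ind D.S 1 (H_nonneg D m) O G
    rw [op_iter_H] at h6
    simp only [Function.iterate_one] at h6
    refine ⟨m + 1, le_trans ?_ h6⟩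
    have h7 := D.good_I G hG
    have h8 : c' * (1 / 8) ≤ D.S.H m G := le_trans (mul_le_mul_of_nonneg_left h7 hc'.le) h5
    have h9 : 0 < (D.t)⁻¹ := inv_pos.2 (CoinAux.t_pos' D)
    calc c2 * B.I O ≤ c2 * B.lmax := mul_le_mul_of_nonneg_left (I_le_lmax B O) h0
      _ ≤ (D.t)⁻¹ * (c' * (1 / 8)) := h3
      _ ≤ D.S.op (ind G) O * D.S.H m G :=
        mul_le_mul h4 h8 (by positivity) (h9.le.trans h4)
  have key : ∀ n : ℕ, ∀ O, 0 < B.I O → ¬ Coin O → ¬ D.Good O → |B.c O.2.2| ≤ D.Cbig →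
      1 < D.t ^ n * |B.l (D.gv O)| → ∃ m, c2 * B.I O ≤ D.S.H m O := by
    intro n
    induction n with
    | zero =>
      intro O hI hco hgo hc hn
      have h4 := (D.gv_prop O hI hco hgo hc).2.1
      rw [pow_zero, one_mul] at hn
      linarith
    | succ n ih =>
      intro O hI hco hgo hc hn
      by_cases hN : D.NGC O
      · classical
        obtain ⟨m, hm⟩ := avg D (fun O' => if IsChild D.S O O' then c2 * B.I O' else 0) (by
          intro O'
          by_cases hch : IsChild D.S O O'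
          · simp only [if_pos hch]
            rcases (I_nonneg B O').eq_or_lt with hz | hp
            · refine ⟨0, ?_⟩
              rw [← hz, mul_zero]
              exact H_nonneg D 0 O'
            · have h4 := D.ngc O O' hI hco hc hN hp ((isChild_iff D O O').1 hch)
              by_cases hG : D.Good O'
              · exact hgood O' hG
              · refine ih O' hp h4.1 hG (child_cbig D O O' hch hc) ?_
                have h6 : |B.t0 ^ D.N| = D.t := abs_of_pos (CoinAux.t_pos' D)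
                rw [h4.2, l_Mpow, abs_mul, h6]
                rw [pow_succ, mul_assoc] at hn
                exact hn
          · simp only [if_neg hch]
            exact ⟨0, H_nonneg D 0 O'⟩) 1 O
        refine ⟨m, le_trans (le_of_eq ?_) hm⟩
        rw [Function.iterate_one]
        have h5 : D.S.op (fun O' => c2 * B.I O') O = c2 * B.I O := by
          rw [op_smul, op_I]
        rw [← h5]
        apply op_congr_child
        intro O' hch
        simp only [if_pos hch]
      · exact hngc O hN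
  by_cases hco : Coin O
  · exact hcoin O hco
  by_cases hgo : D.Good O
  · exact hgood O hgo
  obtain ⟨hv, -⟩ := D.gv_prop O hI hco hgo hc
  have hl := abs_pos.2 (l_ne_zero B hv)
  obtain ⟨n, hn⟩ := pow_unbounded_of_one_lt (|B.l (D.gv O)|)⁻¹ (y := D.t)
    (by linarith [CoinAux.t_ge D])
  refine key n O hI hco hgo hc ?_
  rwa [inv_lt_iff_one_lt_mul₀ hl] at hn

end Rec5Aux

/-- all overlapping states: states with a good child; NGC states by induction on the length of the NGC run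
(`t^s |l(gv)| ≤ 1`, `l_ne_zero`); states with `|c| > Cbig` via `exists_cbig`, averaging -/
theorem all_lower (h : ∃ c' : ℝ, 0 < c' ∧ ∀ G, D.Good G → ∃ m, c' ≤ D.S.h m G) :
    ∃ c'' : ℝ, 0 < c'' ∧ ∀ O, 0 < B.I O → ∃ m, c'' ≤ D.S.h m O := by
  obtain ⟨c', hc', h⟩ := h
  have hl := lmax_pos B
  have ht := CoinAux.t_pos' D
  have hk : 0 < (D.t)⁻¹ * (c' * (1 / 8)) / B.lmax := by positivity
  set c2 := min (min 1 c') ((D.t)⁻¹ * (c' * (1 / 8)) / B.lmax) with hc2
  have h1 : c2 ≤ 1 := (min_le_left _ _).trans (min_le_left _ _)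
  have h2 : c2 ≤ c' := (min_le_left _ _).trans (min_le_right _ _)
  have h3 : c2 * B.lmax ≤ (D.t)⁻¹ * (c' * (1 / 8)) := by
    rw [← le_div_iff₀ hl]
    exact min_le_right _ _
  have h0 : 0 < c2 := lt_min (lt_min one_pos hc') hk
  refine ⟨c2, h0, ?_⟩
  intro O hI
  obtain ⟨j, hj⟩ := exists_cbig D O
  classical
  obtain ⟨m, hm⟩ := avg D (fun O' => if |B.c O'.2.2| ≤ D.Cbig then c2 * B.I O' else 0) (by
    intro O'
    by_cases hch : |B.c O'.2.2| ≤ D.Cbig
    · simp only [if_pos hch]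
      rcases (I_nonneg B O').eq_or_lt with hz | hp
      · refine ⟨0, ?_⟩
        rw [← hz, mul_zero]
        exact H_nonneg D 0 O'
      · exact range_lower D hc' h h1 h2 h3 h0.le O' hp hch
    · simp only [if_neg hch]
      exact ⟨0, H_nonneg D 0 O'⟩) j O
  refine ⟨m, h_of_H D hI (le_trans (le_of_eq ?_) hm)⟩
  have h5 : (D.S.op^[j] (fun O' => c2 * B.I O')) O = c2 * B.I O := by
    rw [iter_smul, iter_I]
  rw [← h5]
  apply hj
  intro O' hO'
  simp only [if_pos hO']

/-- `H_∞ = lim H_n` exists, is harmonic, `I - H_∞ = op^[n] (I - H_∞) ≤ (1 - c'') (I - H_n)` -/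
theorem recurrence_of (h : ∃ c'' : ℝ, 0 < c'' ∧ ∀ O, 0 < B.I O → ∃ m, c'' ≤ D.S.h m O) (O : St) :
    Tendsto (fun n => D.S.H n O) atTop (𝓝 (B.I O)) := by
  obtain ⟨c2, hc2, h⟩ := h
  set L : St → ℝ := fun O => ⨆ n, D.S.H n O with hL
  have hlim : ∀ O, Tendsto (fun n => D.S.H n O) atTop (𝓝 (L O)) := by
    intro O
    apply tendsto_atTop_ciSup
    · intro m n hmn
      exact H_mono D hmn O
    · refine ⟨B.I O, ?_⟩
      rintro _ ⟨n, rfl⟩
      exact H_le_I D n O
  have hle : ∀ n O, D.S.H n O ≤ L O := by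
    intro n O
    exact ge_of_tendsto (hlim O) (Filter.eventually_atTop.2 ⟨n, fun m hm => H_mono D hm O⟩)
  have hLI : ∀ O, L O ≤ B.I O := fun O =>
    le_of_tendsto (hlim O) (Filter.Eventually.of_forall fun n => H_le_I D n O)
  have hharm : D.S.op L = L := by
    funext O
    obtain ⟨ι, _, c, st, hc, -, hop⟩ := op_fin D.S O
    have h1 : Tendsto (fun n => D.S.op (D.S.H n) O) atTop (𝓝 (D.S.op L O)) := by
      simp only [hop]
      exact tendsto_finsetSum _ fun i _ => (hlim (st i)).const_mul (c i)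
    have h2 : Tendsto (fun n => D.S.op (D.S.H n) O) atTop (𝓝 (L O)) :=
      (tendsto_add_atTop_iff_nat 1).2 (hlim O)
    exact tendsto_nhds_unique h1 h2
  have hiter : ∀ n, D.S.op^[n] L = L := by
    intro n
    induction n with
    | zero => rfl
    | succ n ih => rw [Function.iterate_succ_apply', ih, hharm]
  have hpt : ∀ O, B.I O - L O ≤ (1 - c2) * (B.I O - D.S.H 0 O) := by
    intro O
    by_cases hco : Coin O
    · have h1 := H_coin_I D 0 O hco
      have h2 := hle 0 O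
      rw [h1] at h2 ⊢
      linarith
    · rw [CoinAux.H_zero_eq, if_neg hco]
      rcases (I_nonneg B O).eq_or_lt with hz | hp
      · have h1 := hle 0 O
        have h2 := H_nonneg D 0 O
        rw [← hz]
        linarith
      · obtain ⟨m, hm⟩ := h O hp
        have h1 := H_of_h D hm
        have h2 := hle m O
        linarith
  have hn : ∀ n, B.I O - L O ≤ (1 - c2) * (B.I O - D.S.H n O) := by
    intro n
    have h1 := iter_mono D.S n hpt O
    rw [iter_sub, iter_I, hiter, iter_smul, iter_sub, iter_I, op_iter_H, Nat.zero_add] at h1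
    exact h1
  have hfin : B.I O - L O ≤ (1 - c2) * (B.I O - L O) := by
    have h1 : Tendsto (fun n => (1 - c2) * (B.I O - D.S.H n O)) atTop (𝓝 ((1 - c2) * (B.I O - L O))) :=
      ((tendsto_const_nhds).sub (hlim O)).const_mul _
    exact ge_of_tendsto h1 (Filter.Eventually.of_forall hn)
  have hIL : L O = B.I O := by
    apply le_antisymm (hLI O)
    nlinarith [hLI O]
  rw [← hIL]
  exact hlim O

end Pool.Agent.RS69
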