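import Pool.Agent.RS69.Rec3
import Pool.Agent.RS69.Rec4
import Pool.Agent.RS69.Rec5

/-!
# RS69.Recur : RECURRENCE
-/

set_option autoImplicit false

namespace Pool.Agent.RS69

open Filter Topology

variable {B : Base} (D : Design B)

/-- RECURRENCE -/
theorem recurrence (O : St) : Tendsto (fun n => D.S.H n O) atTop (𝓝 (B.I O)) :=
  recurrence_of D (all_lower D (good_lower D (local_lower D (p_pos D)))) O

end Pool.Agent.RS69
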