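import Pool.Agent.RS69.Arith
import Pool.Agent.RS69.Recur
import Pool.Agent.RS69.DDesign
import Pool.Agent.RS69.Mismatch
import Pool.Agent.RS69.Infinite
import Pool.Agent.RS69.MinPoly
import Pool.Agent.SRig.Meas

/-!
# RS69.Fin1 : final assembly
-/

set_option autoImplicit false

namespace Pool.Agent.RS69

open Filter Topology

theorem count_eq (B : Base) (D : Design B) (i j : Fin 4) :
    (((D.σ j).count i : ℕ) : ℤ) = (B.P ^ D.N) i j := by
  have h := congrFun (D.ab j) i
  unfold abv ev at h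
  rw [h]
  simp [Matrix.mulVec, dotProduct, Pi.single_apply]

theorem f_Pn (B : Base) (n : ℕ) (a : Ltr) : ∑ b, ((B.P ^ n) a b : ℝ) * B.f b = B.t0 ^ n * B.f a := by
  induction n generalizing a with
  | zero => simp [Matrix.one_apply]
  | succ n ih =>
    have h1 : ∀ b, (((B.P ^ (n + 1)) a b : ℤ) : ℝ) = ∑ c, ((B.P ^ n) a c : ℝ) * (B.P c b : ℝ) := by
      intro b
      rw [pow_succ, Matrix.mul_apply]
      push_cast
      rfl
    simp only [h1, Finset.sum_mul]
    rw [Finset.sum_comm]
    have h2 : ∀ c, ∑ b, ((B.P ^ n) a c : ℝ) * (B.P c b : ℝ) * B.f b =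
        ((B.P ^ n) a c : ℝ) * (B.t0 * B.f c) := by
      intro c
      rw [← B.f_P c, Finset.mul_sum]
      exact Finset.sum_congr rfl fun b _ => by ring
    simp only [h2]
    have h3 : ∑ c, ((B.P ^ n) a c : ℝ) * (B.t0 * B.f c) = B.t0 * ∑ c, ((B.P ^ n) a c : ℝ) * B.f c := by
      rw [Finset.mul_sum]
      exact Finset.sum_congr rfl fun c _ => by ring
    rw [h3, ih, pow_succ]
    ring

theorem incidence (B : Base) (D : Design B) :
    (Matrix.of fun i j : Fin 4 => ((D.σ j).count i : ℝ)).mulVec B.f = (B.t0 ^ D.N) • B.f := by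
  funext a
  rw [Pi.smul_apply, smul_eq_mul, ← f_Pn B D.N a]
  simp only [Matrix.mulVec, dotProduct, Matrix.of_apply]
  refine Finset.sum_congr rfl fun b _ => ?_
  rw [← count_eq B D a b]
  simp

theorem primitive (B : Base) (D : Design B) : ∃ n : ℕ, 1 ≤ n ∧ ∀ a b : Fin 4,
    b ∈ (fun w : List (Fin 4) => w.flatMap D.σ)^[n] [a] := by
  refine ⟨1, le_rfl, fun a b => ?_⟩
  simp only [Function.iterate_one, List.flatMap_singleton]
  have h := D.Mpos b a
  rw [← count_eq B D b a] at h
  have h1 : 0 < (D.σ a).count b := by exact_mod_cast h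
  exact List.count_pos_iff.1 h1

end Pool.Agent.RS69
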