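import Pool.Agent.RS69.Reach2
import Pool.Agent.RS69.En1

/-!
# RS69.KReg1 : kicked children, the defect function, counting (section 5.2)
-/

set_option autoImplicit false

namespace Pool.Agent.RS69

open scoped Classical

variable {B : Base} {D : Design B} {L : ℕ} {r0 ε : ℝ}

private theorem kick_child_z (K : Kick D L r0 ε) (O O' : St) (h : IsChild K.κ O O') :
    ‖B.z O'.2.2 - D.w ^ L * B.z O.2.2‖ ≤ 10 * B.K0 + 4 * r0 := by
  obtain ⟨η, η', x, hx, y, hy, rfl⟩ := h
  have h1 := K.z_bd η O.1 x hx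
  have h2 := K.z_bd η' O.2.1 y hy
  have h3 : B.z (child K.κ.M O x y).2.2 - D.w ^ L * B.z O.2.2 = B.z y.2 - B.z x.2 := by
    simp only [child, Level.M, map_add, map_sub, z_Mpow, K.k_eq, Design.w]
    rw [← pow_mul]
    ring
  rw [h3]
  calc ‖B.z y.2 - B.z x.2‖ ≤ ‖B.z y.2‖ + ‖B.z x.2‖ := norm_sub_le _ _
    _ ≤ 10 * B.K0 + 4 * r0 := by linarith

/-- kicked children: position (`κ.w = D.w ^ L`, `κ.t = D.t ^ L`, `κ.M = (P^N)^L`) -/
theorem kick_child_bounds (K : Kick D L r0 ε) (O O' : St) (h : IsChild K.κ O O')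
    (hc : |B.c O.2.2| ≤ D.Cbig) :
    |B.c O'.2.2| ≤ B.Cc ∧ ‖B.z O'.2.2 - D.w ^ L * B.z O.2.2‖ ≤ 10 * B.K0 + 4 * r0 := by
  refine ⟨?_, kick_child_z K O O' h⟩
  obtain ⟨η, η', x, hx, y, hy, rfl⟩ := h
  have h1 := K.c_bd η O.1 x hx
  have h2 := K.c_bd η' O.2.1 y hy
  have ht1 : (1 : ℝ) ≤ B.t0 ^ D.N := one_le_pow₀ B.one_lt_t0.le
  have ht : B.t0 ^ D.N ≤ B.t0 ^ K.κ.k := by
    rw [K.k_eq]
    apply pow_le_pow_right₀ B.one_lt_t0.le
    exact Nat.le_mul_of_pos_right _ K.one_le_L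
  have hpos : 0 < B.t0 ^ K.κ.k := by linarith
  have h3 : B.c (child K.κ.M O x y).2.2 = (B.t0 ^ K.κ.k)⁻¹ * B.c O.2.2 + B.c y.2 - B.c x.2 := by
    simp only [child, Level.M, map_add, map_sub, c_Mpow]
  have h4 : |(B.t0 ^ K.κ.k)⁻¹ * B.c O.2.2| ≤ 1 := by
    rw [abs_mul, abs_of_pos (inv_pos.2 hpos), inv_mul_le_iff₀ hpos, mul_one]
    exact hc.trans (D.Cbig_le.trans ht)
  rw [h3]
  unfold Base.Cc
  rw [abs_le] at h1 h2 h4 ⊢
  constructor <;> linarith [h1.1, h1.2, h2.1, h2.2, h4.1, h4.2]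

/-- `K_m(O) = (κ.op H_m)(O)` -/
noncomputable def Km (K : Kick D L r0 ε) (m : ℕ) : St → ℝ := K.κ.op (D.S.H m)

theorem Km_le_I (K : Kick D L r0 ε) (m : ℕ) (O : St) : Km K m O ≤ B.I O := by
  have h := op_mono K.κ (H_le_I D m) O
  rwa [op_I] at h

theorem Km_nonneg (K : Kick D L r0 ε) (m : ℕ) (O : St) : 0 ≤ Km K m O :=
  op_nonneg K.κ (H_nonneg D m) O

/-- the defect function -/
noncomputable def am (K : Kick D L r0 ε) (m : ℕ) : St → ℝ :=
  fun O => if Coin O then 0 else |Km K m O - D.S.H (m + L) O|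

private theorem norm_w_pow (D : Design B) (L : ℕ) : ‖D.w ^ L‖ = 1 := by
  unfold Design.w
  rw [norm_pow, norm_pow, B.norm_w0, one_pow, one_pow]

/-- support of the defect function -/
theorem am_supp (K : Kick D L r0 ε) : ∃ C : ℝ, 1 ≤ C ∧ ∀ (m : ℕ) (O : St), am K m O ≠ 0 →
    0 < B.I O ∧ ¬ Coin O ∧ ‖B.z O.2.2‖ ≤ C * (1 + m + L) := by
  have hZ := D.Zt_nonneg
  have hA := abs_nonneg (10 * B.K0 + 4 * r0)
  refine ⟨1 + 2 * D.Zt + |10 * B.K0 + 4 * r0|, by linarith, ?_⟩
  intro m O hO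
  have hm : (0 : ℝ) ≤ m := Nat.cast_nonneg m
  have hL : (0 : ℝ) ≤ L := Nat.cast_nonneg L
  have hcoin : ¬ Coin O := by
    intro hc
    exact hO (if_pos hc)
  have h1 : |Km K m O - D.S.H (m + L) O| ≠ 0 := by
    unfold am at hO
    rwa [if_neg hcoin] at hO
  have hI : 0 < B.I O := by
    rcases (I_nonneg B O).eq_or_lt with h2 | h2
    · exfalso
      apply h1
      have h3 := Km_le_I K m O
      have h4 := Km_nonneg K m O
      have h5 := H_le_I D (m + L) O
      have h6 := H_nonneg D (m + L) O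
      rw [← h2] at h3 h5
      rw [le_antisymm h3 h4, le_antisymm h5 h6]
      simp
    · exact h2
  refine ⟨hI, hcoin, ?_⟩
  by_cases h2 : D.S.H (m + L) O = 0
  · have h3 : Km K m O ≠ 0 := by
      intro h3
      apply h1
      rw [h2, h3]
      simp
    obtain ⟨O', hO', hne⟩ : ∃ O', IsChild K.κ O O' ∧ D.S.H m O' ≠ 0 := by
      by_contra hcon
      push Not at hcon
      apply h3
      unfold Km
      rw [op_congr_child K.κ (G := fun _ => 0) O hcon, op_zero]
    have h4 := kick_child_z K O O' hO'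
    have h5 := H_supp D m O' hne
    have h6 : ‖B.z O.2.2‖ = ‖D.w ^ L * B.z O.2.2‖ := by
      rw [norm_mul, norm_w_pow, one_mul]
    have h7 : ‖D.w ^ L * B.z O.2.2‖ ≤ ‖B.z O'.2.2‖ + ‖B.z O'.2.2 - D.w ^ L * B.z O.2.2‖ := by
      have h8 : D.w ^ L * B.z O.2.2 = B.z O'.2.2 - (B.z O'.2.2 - D.w ^ L * B.z O.2.2) := by ring
      calc ‖D.w ^ L * B.z O.2.2‖ = ‖B.z O'.2.2 - (B.z O'.2.2 - D.w ^ L * B.z O.2.2)‖ := by
            rw [← h8]
        _ ≤ _ := norm_sub_le _ _
    have h9 := le_abs_self (10 * B.K0 + 4 * r0)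
    rw [h6]
    nlinarith [mul_nonneg hA hm, mul_nonneg hA hL, mul_nonneg hZ hm, mul_nonneg hZ hL]
  · have h3 := H_supp D (m + L) O h2
    push_cast at h3
    nlinarith [mul_nonneg hA hm, mul_nonneg hA hL, mul_nonneg hZ hm, mul_nonneg hZ hL]

theorem Bdd_am (K : Kick D L r0 ε) (m : ℕ) : ∃ R, Bdd B R (am K m) := by
  obtain ⟨C, hC, H⟩ := am_supp K
  refine ⟨max B.lmax (C * (1 + m + L)), fun O hO => ?_⟩
  obtain ⟨h1, -, h3⟩ := H m O hO
  exact ⟨(abs_l_le_of_I_pos B O h1).trans (le_max_left _ _), h3.trans (le_max_right _ _)⟩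

private theorem abs_op_le (τ : Level B) (F : St → ℝ) (O : St) :
    |τ.op F O| ≤ τ.op (fun O' => |F O'|) O := by
  rw [abs_le]
  constructor
  · have h1 : τ.op (fun O' => (-1) * |F O'|) O ≤ τ.op F O :=
      op_mono τ (fun O' => by rw [neg_one_mul]; exact neg_abs_le _) O
    rw [op_smul] at h1
    linarith
  · exact op_mono τ (fun O' => le_abs_self _) O

/-- triangle inequality with an arbitrary reference value `y` (`op_I` for the kick level) -/
theorem am_le (K : Kick D L r0 ε) (m : ℕ) (y : ℝ) (O : St) :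
    am K m O ≤ K.κ.op (fun O2 => B.I O2 * |D.S.h m O2 - y|) O + B.I O * |D.S.h (m + L) O - y| := by
  have hn1 : 0 ≤ K.κ.op (fun O2 => B.I O2 * |D.S.h m O2 - y|) O :=
    op_nonneg K.κ (fun O2 => mul_nonneg (I_nonneg B O2) (abs_nonneg _)) O
  have hn2 : 0 ≤ B.I O * |D.S.h (m + L) O - y| := mul_nonneg (I_nonneg B O) (abs_nonneg _)
  unfold am
  split_ifs with hc
  · linarith
  · have h1 : Km K m O - y * B.I O = K.κ.op (fun O2 => B.I O2 * (D.S.h m O2 - y)) O := by
      have e1 : (fun O2 => B.I O2 * (D.S.h m O2 - y)) =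
          fun O2 => D.S.H m O2 - y * B.I O2 := by
        funext O2
        rw [mul_sub, I_mul_h]
        ring
      rw [e1, op_sub, op_smul, op_I]
      rfl
    have h2 : |Km K m O - y * B.I O| ≤ K.κ.op (fun O2 => B.I O2 * |D.S.h m O2 - y|) O := by
      rw [h1]
      refine (abs_op_le K.κ _ O).trans_eq ?_
      congr 1
      funext O2
      rw [abs_mul, abs_of_nonneg (I_nonneg B O2)]
    have h3 : y * B.I O - D.S.H (m + L) O = -(B.I O * (D.S.h (m + L) O - y)) := by
      rw [mul_sub, I_mul_h]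
      ring
    have h4 : |y * B.I O - D.S.H (m + L) O| = B.I O * |D.S.h (m + L) O - y| := by
      rw [h3, abs_neg, abs_mul, abs_of_nonneg (I_nonneg B O)]
    calc |Km K m O - D.S.H (m + L) O|
        = |(Km K m O - y * B.I O) + (y * B.I O - D.S.H (m + L) O)| := by ring_nf
      _ ≤ |Km K m O - y * B.I O| + |y * B.I O - D.S.H (m + L) O| := abs_add_le _ _
      _ ≤ _ := by rw [h4]; linarith

private noncomputable def oneI (B : Base) : St → ℝ := fun O => if 0 < B.I O then 1 else 0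

private theorem oneI_nonneg (O : St) : 0 ≤ oneI B O := by
  unfold oneI
  split_ifs <;> norm_num

private theorem op_oneI (τ : Level B) (O : St) :
    τ.op (oneI B) O ≤ 2 * B.I O + 3 / τ.t * oneI B O := by
  by_cases h : 0 < B.I O
  · have h1 := op_count τ O
    have h2 : oneI B O = 1 := if_pos h
    rw [h2, mul_one]
    exact h1
  · have h0 : B.I O = 0 := le_antisymm (not_lt.1 h) (I_nonneg B O)
    have h1 : τ.op (oneI B) O = 0 := op_supp τ (fun O' h' => by
      unfold oneI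
      rw [if_neg]
      rw [h']
      exact lt_irrefl 0) O h0
    have h2 : oneI B O = 0 := if_neg h
    rw [h1, h0, h2]
    norm_num

private theorem t_ge (D : Design B) : 100 ≤ D.S.t := D.t_big

private theorem iter_oneI (D : Design B) (s : ℕ) : ∃ a b : ℝ, 0 ≤ a ∧ 0 ≤ b ∧ a + 3 * b ≤ 3 ∧
    ∀ O, (D.S.op^[s] (oneI B)) O ≤ a * B.I O + b * oneI B O := by
  induction s with
  | zero => exact ⟨0, 1, le_rfl, zero_le_one, by norm_num, fun O => by simp⟩
  | succ s ih =>
    obtain ⟨a, b, ha, hb, hab, H⟩ := ih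
    have ht := t_ge D
    have ht0 : 0 < D.S.t := by linarith
    refine ⟨a + 2 * b, b * (3 / D.S.t), by positivity, by positivity, ?_, fun O => ?_⟩
    · have : 3 / D.S.t ≤ 3 / 100 := by gcongr
      nlinarith
    · rw [Function.iterate_succ_apply']
      have h1 := op_mono D.S H O
      rw [op_add D.S (fun O => a * B.I O) (fun O => b * oneI B O), op_smul, op_smul, op_I] at h1
      have h2 := mul_le_mul_of_nonneg_left (op_oneI D.S O) hb
      linarith

/-- number of overlapping descendants: `op_count` after `iter_words`-free argument: the composite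
`op^[s]` of a level is again an operator of the same kind; or by induction with the weights
`2 I + 3 (1/t + 1/t² + ...)`.  (`op (α I + β 1_{I>0}) ≤ α I + β (2 I + 3/t)`.) -/
theorem iter_count_le (D : Design B) (s : ℕ) (E : St) (hE : 0 < B.I E) :
    (D.S.op^[s] (fun O => if 0 < B.I O then 1 else 0)) E ≤ 3 * B.lmax + 3 := by
  obtain ⟨a, b, ha, hb, hab, H⟩ := iter_oneI D s
  have h1 := H E
  have h2 : oneI B E = 1 := if_pos hE
  rw [h2] at h1
  have h3 := I_le_lmax B E
  have h4 : a * B.I E ≤ 3 * B.lmax := by nlinarith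
  have h5 : (D.S.op^[s] (oneI B)) E ≤ 3 * B.lmax + 3 := by linarith
  exact h5

/-- counting bound, uniform coefficient of each final overlapping state -/
theorem coef_le (K : Kick D L r0 ε) (s : ℕ) (E O2 : St) (hE : 0 < B.I E) (h : 0 < B.I O2) :
    (D.S.op^[s] (K.κ.op (ind O2))) E ≤ 9 * B.lmax + 9 := by
  have hκ1 : (100 : ℝ) ≤ K.κ.t := by
    refine D.t_big.trans ?_
    unfold Level.t
    rw [K.k_eq]
    apply pow_le_pow_right₀ B.one_lt_t0.le
    exact Nat.le_mul_of_pos_right _ K.one_le_L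
  have h1 : ∀ O, K.κ.op (ind O2) O ≤ 2 * B.I O + 1 * oneI B O := by
    intro O
    have h2 : K.κ.op (ind O2) O ≤ K.κ.op (oneI B) O := by
      apply op_mono
      intro O'
      unfold ind
      split_ifs with h3
      · subst h3
        unfold oneI
        rw [if_pos h]
      · exact oneI_nonneg O'
    have h3 : 3 / K.κ.t * oneI B O ≤ 1 * oneI B O := by
      have h4 : 3 / K.κ.t ≤ 1 := by
        rw [div_le_iff₀ (by linarith)]
        linarith
      exact mul_le_mul_of_nonneg_right h4 (oneI_nonneg O)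
    exact h2.trans ((op_oneI K.κ O).trans (by linarith))
  have h2 := iter_mono D.S s h1 E
  rw [iter_add D.S s (fun O => 2 * B.I O) (fun O => 1 * oneI B O), iter_smul, iter_smul,
    iter_I] at h2
  have h3 : (D.S.op^[s] (oneI B)) E ≤ 3 * B.lmax + 3 := iter_count_le D s E hE
  have h4 := I_le_lmax B E
  have h5 := I_nonneg B E
  have h6 : 0 ≤ B.lmax := h5.trans h4
  linarith

end Pool.Agent.RS69
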