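import Pool.Agent.RS69.KReg1

/-!
# RS69.KReg2 : domination (section 5.2)

`dom_good`: each overlapping kicked child `O2` of the good `E` satisfies `‖z(O2) - w^L z(E)‖ ≤ 10 K0 + 4 r0`,
so `reach` with `s = 0` gives `(op^[L] 1_{O2})(E) ≥ const`, while its coefficient in `κ.op F E` is
`≤ 9 lmax + 9` (`coef_le`).

`dom_run`: choose a good child `G` of `E`, `op (ind G) E ≥ 1/t` (`op_ind_ge`).  The map
`F ↦ op (T (κ.op F) s) E` is linear, with coefficient `op (T (κ.op 1_{O2}) s) E ≤ (op^[s+1] (κ.op 1_{O2})) E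
≤ 9 lmax + 9`; if it does not vanish then by `T_disp` (for the child `E1` of `E`) and `kick_child_bounds`
`‖z(O2) - w^{s+L} z(E1)‖ ≤ C + 10 K0 + 4 r0`, `‖z(E1) - z(G)‖ ≤ 4 Zt`, and `|c(O2)| ≤ Cc`; `reach` from `G`.
-/

set_option autoImplicit false

namespace Pool.Agent.RS69

open scoped Classical

variable {B : Base} {D : Design B} {L : ℕ} {r0 ε : ℝ}

/-- finite nonnegative functionals -/
private def FF (Φ : (St → ℝ) → ℝ) : Prop :=
  ∃ (ι : Type) (_ : Fintype ι) (c : ι → ℝ) (st : ι → St), (∀ i, 0 ≤ c i) ∧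
    ∀ F : St → ℝ, Φ F = ∑ i, c i * F (st i)

private theorem FF_op (τ : Level B) (O : St) : FF (fun F => τ.op F O) := by
  obtain ⟨ι, h, c, st, h1, -, h2⟩ := op_fin τ O
  exact ⟨ι, h, c, st, h1, h2⟩

private theorem FF_comp {Φ : (St → ℝ) → ℝ} {Ψ : (St → ℝ) → St → ℝ} (hΦ : FF Φ)
    (hΨ : ∀ O, FF (fun F => Ψ F O)) : FF (fun F => Φ (Ψ F)) := by
  obtain ⟨ι, _, c, st, hc, h⟩ := hΦ
  choose κ fκ d u hd hu using hΨ
  refine ⟨Σ i : ι, κ (st i), inferInstance, fun i => c i.1 * d (st i.1) i.2,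
    fun i => u (st i.1) i.2, fun i => mul_nonneg (hc _) (hd _ _), fun F => ?_⟩
  show Φ (Ψ F) = _
  rw [h, Fintype.sum_sigma]
  refine Finset.sum_congr rfl fun i _ => ?_
  have h1 : Ψ F (st i) = ∑ k, d (st i) k * F (u (st i) k) := hu (st i) F
  rw [h1, Finset.mul_sum]
  exact Finset.sum_congr rfl fun k _ => by ring

private theorem FF_T (D : Design B) (s : ℕ) : ∀ O : St, FF (fun a => T D a s O) := by
  induction s with
  | zero =>
    intro O
    refine ⟨Unit, inferInstance, fun _ => if BadNC D O then 1 else 0, fun _ => O, fun _ => ?_,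
      fun F => ?_⟩
    · split_ifs <;> norm_num
    · simp only [T, Finset.univ_unique, Finset.sum_singleton]
      split_ifs <;> simp
  | succ s ih =>
    intro O
    by_cases h : BadNC D O ∧ D.NGC O
    · have h1 : (fun a => T D a (s + 1) O) = fun a => D.S.op (T D a s) O := by
        funext a
        simp only [T]
        rw [if_pos h]
      rw [h1]
      exact FF_comp (Ψ := fun a => T D a s) (FF_op D.S O) ih
    · refine ⟨Unit, inferInstance, fun _ => 0, fun _ => O, fun _ => le_rfl, fun F => ?_⟩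
      simp only [T]
      rw [if_neg h]
      simp

private theorem ind_sum' {ι : Type} [Fintype ι] (c : ι → ℝ) (st : ι → St) (s : Finset St)
    (hs : ∀ i, st i ∈ s) (F : St → ℝ) :
    ∑ x ∈ s, (∑ i, c i * ind x (st i)) * F x = ∑ i, c i * F (st i) := by
  simp only [Finset.sum_mul]
  rw [Finset.sum_comm]
  refine Finset.sum_congr rfl fun i _ => ?_
  rw [Finset.sum_eq_single (st i)]
  · simp [ind]
  · intro x _ hx
    simp [ind, Ne.symm hx]
  · intro h
    exact absurd (hs i) h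

private theorem FF_rep {Φ : (St → ℝ) → ℝ} (hΦ : FF Φ) :
    ∃ s : Finset St, ∀ F : St → ℝ, Φ F = ∑ x ∈ s, Φ (ind x) * F x := by
  classical
  obtain ⟨ι, _, c, st, hc, h⟩ := hΦ
  refine ⟨Finset.univ.image st, fun F => ?_⟩
  simp only [h]
  exact (ind_sum' c st _ (fun i => Finset.mem_image_of_mem _ (Finset.mem_univ _)) F).symm

private theorem iter_sum_le (τ : Level B) (j : ℕ) (O : St) (s : Finset St) {F : St → ℝ}
    (hF : ∀ O, 0 ≤ F O) : ∑ x ∈ s, (τ.op^[j] (ind x)) O * F x ≤ (τ.op^[j] F) O := by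
  classical
  obtain ⟨ι, _, c, st, hc, h⟩ := iter_fin τ j O
  simp only [h, Finset.sum_mul]
  rw [Finset.sum_comm]
  refine Finset.sum_le_sum fun i _ => ?_
  have h1 : ∑ x ∈ s, c i * ind x (st i) * F x = c i * ∑ x ∈ s, (if st i = x then F x else 0) := by
    rw [Finset.mul_sum]
    refine Finset.sum_congr rfl fun x _ => ?_
    unfold ind
    split_ifs <;> ring
  rw [h1]
  apply mul_le_mul_of_nonneg_left _ (hc i)
  rw [Finset.sum_ite_eq]
  split_ifs
  · exact le_rfl
  · exact hF _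

private theorem dom_aux (D : Design B) {Φ : (St → ℝ) → ℝ} (hΦ : FF Φ) (j : ℕ) (E : St) {U V : ℝ}
    (hU : 0 ≤ U) (hV : 0 < V)
    (h : ∀ x, 0 < B.I x → Φ (ind x) ≠ 0 → Φ (ind x) ≤ U ∧ V ≤ (D.S.op^[j] (ind x)) E)
    {F : St → ℝ} (hF : ∀ O, 0 ≤ F O) (hF0 : ∀ O, B.I O = 0 → F O = 0) :
    Φ F ≤ U / V * (D.S.op^[j] F) E := by
  obtain ⟨s, hs⟩ := FF_rep hΦ
  have hind : ∀ x O, 0 ≤ ind x O := by
    intro x O
    unfold ind
    split_ifs <;> norm_num
  rw [hs]
  calc ∑ x ∈ s, Φ (ind x) * F x ≤ ∑ x ∈ s, U / V * ((D.S.op^[j] (ind x)) E * F x) := by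
        refine Finset.sum_le_sum fun x _ => ?_
        have hit : 0 ≤ (D.S.op^[j] (ind x)) E := iter_nonneg D.S j (hind x) E
        have hUV : 0 ≤ U / V := div_nonneg hU hV.le
        by_cases hx : 0 < B.I x
        · by_cases hne : Φ (ind x) = 0
          · rw [hne, zero_mul]
            exact mul_nonneg hUV (mul_nonneg hit (hF x))
          · obtain ⟨h1, h2⟩ := h x hx hne
            have h3 : Φ (ind x) ≤ U / V * (D.S.op^[j] (ind x)) E := by
              refine h1.trans ?_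
              rw [div_mul_eq_mul_div, le_div_iff₀ hV]
              exact mul_le_mul_of_nonneg_left h2 hU
            rw [← mul_assoc]
            exact mul_le_mul_of_nonneg_right h3 (hF x)
        · have h0 : B.I x = 0 := le_antisymm (not_lt.1 hx) (I_nonneg B x)
          rw [hF0 x h0]
          simp
    _ = U / V * ∑ x ∈ s, (D.S.op^[j] (ind x)) E * F x := by rw [Finset.mul_sum]
    _ ≤ _ := mul_le_mul_of_nonneg_left (iter_sum_le D.S j E s hF) (div_nonneg hU hV.le)

private theorem lmax_pos (B : Base) : 0 < B.lmax :=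
  lt_of_lt_of_le (lt_of_lt_of_le one_pos (B.l_ge 0)) (l_le_lmax B 0)

private theorem K0_nonneg (B : Base) : 0 ≤ B.K0 := by
  unfold Base.K0
  have h1 : 0 ≤ ∑ a, |B.c (ev a)| := Finset.sum_nonneg fun _ _ => abs_nonneg _
  have h2 := le_max_right (∑ a, ‖B.z (ev a)‖) (∑ a, |B.c (ev a)|)
  linarith

private theorem A_pos (D : Design B) : 0 < D.A := by linarith [D.two_le_A]

private theorem kick_ne (K : Kick D L r0 ε) (O O2 : St) (h : K.κ.op (ind O2) O ≠ 0) :
    IsChild K.κ O O2 := by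
  by_contra hc
  apply h
  rw [op_congr_child K.κ (G := fun _ => 0) O, op_zero]
  intro O' hO'
  unfold ind
  rw [if_neg]
  rintro rfl
  exact hc hO'

/-- domination, case of a good state -/
theorem dom_good (K : Kick D L r0 ε) (hr0 : 0 ≤ r0) (hL : 10 * B.K0 + 4 * r0 + D.Z3 + 1 ≤ L) :
    ∃ C : ℝ, 0 < C ∧ ∀ (F : St → ℝ), (∀ O, 0 ≤ F O) → (∀ O, B.I O = 0 → F O = 0) → ∀ E, D.Good E →
      K.κ.op F E ≤ C * (D.S.op^[L] F) E := by
  have hl := lmax_pos B
  have ht : 0 < D.t := pow_pos (by linarith [B.one_lt_t0]) _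
  have hV : 0 < (8 * B.lmax)⁻¹ * (D.t ^ L)⁻¹ * (D.A ^ 0)⁻¹ := by
    have := A_pos D
    positivity
  refine ⟨(9 * B.lmax + 9) / ((8 * B.lmax)⁻¹ * (D.t ^ L)⁻¹ * (D.A ^ 0)⁻¹), by positivity, ?_⟩
  intro F hF hF0 E hE
  have hIE : 0 < B.I E := lt_of_lt_of_le (by norm_num) (D.good_I E hE)
  refine dom_aux D (Φ := fun F => K.κ.op F E) (FF_op K.κ E) L E (by positivity) hV ?_ hF hF0
  intro x hx hne
  have hch := kick_ne K E x hne
  obtain ⟨hc, hz⟩ := kick_child_bounds K E x hch (D.good_c E hE)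
  constructor
  · have := coef_le K 0 E x hIE hx
    simpa using this
  · have h1 := reach D E x hE 0 L (10 * B.K0 + 4 * r0) (by linarith [K0_nonneg B]) hL hx hc
      (by simpa using hz)
    simpa using h1

/-- domination, case of a state with a good child followed by an NGC run of length `s` -/
theorem dom_run (D : Design B) : ∃ CL : ℝ, 0 < CL ∧ ∀ {L : ℕ} {r0 ε : ℝ} (K : Kick D L r0 ε), 0 ≤ r0 →
    CL + 4 * r0 ≤ L →
    ∃ C : ℝ, 0 < C ∧ ∀ (F : St → ℝ), (∀ O, 0 ≤ F O) → (∀ O, B.I O = 0 → F O = 0) →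
      ∀ (s : ℕ) (E : St), 0 < B.I E → |B.c E.2.2| ≤ D.Cbig → ¬ D.NGC E → ¬ Coin E →
      D.S.op (T D (K.κ.op F) s) E ≤ C * D.A ^ s * (D.S.op^[s + 1 + L] F) E := by
  obtain ⟨CT, hCT, hdisp⟩ := T_disp D
  have hK0 := K0_nonneg B
  have hZt := D.Zt_nonneg
  have hZ3 := D.Z3_nonneg
  have hl := lmax_pos B
  have ht : 0 < D.t := pow_pos (by linarith [B.one_lt_t0]) _
  have hA := A_pos D
  refine ⟨10 * B.K0 + CT + 4 * D.Zt + D.Z3 + 1, by linarith, ?_⟩
  intro L r0 ε K hr0 hL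
  refine ⟨(9 * B.lmax + 9) / ((D.t)⁻¹ * ((8 * B.lmax)⁻¹ * (D.t ^ L)⁻¹)), by positivity, ?_⟩
  intro F hF hF0 s E hIE hcE hNGC _
  unfold Design.NGC at hNGC
  push Not at hNGC
  obtain ⟨G, hG, hGE⟩ := hNGC
  have hV : 0 < (D.t)⁻¹ * ((8 * B.lmax)⁻¹ * (D.t ^ L)⁻¹ * (D.A ^ s)⁻¹) := by positivity
  have hFF : FF (fun F => D.S.op (T D (K.κ.op F) s) E) :=
    FF_comp (Φ := fun F => D.S.op (T D F s) E) (Ψ := fun F => K.κ.op F)
      (FF_comp (Φ := fun F => D.S.op F E) (Ψ := fun F => T D F s) (FF_op D.S E) (FF_T D s))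
      (fun O => FF_op K.κ O)
  have hind : ∀ x O, 0 ≤ ind x O := by
    intro x O
    unfold ind
    split_ifs <;> norm_num
  have key := dom_aux D hFF (s + 1 + L) E (U := 9 * B.lmax + 9) (by positivity) hV ?_ hF hF0
  · refine key.trans_eq ?_
    have : D.A ^ s ≠ 0 := by positivity
    field_simp
  · intro x hx hne
    constructor
    · have h1 : D.S.op (T D (K.κ.op (ind x)) s) E ≤ (D.S.op^[s + 1] (K.κ.op (ind x))) E := by
        rw [Function.iterate_succ_apply']
        exact op_mono D.S (fun O => T_le_iter D (fun O => op_nonneg K.κ (hind x) O) s O) E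
      exact h1.trans (coef_le K (s + 1) E x hIE hx)
    · -- a child `E1` of `E`
      obtain ⟨E1, hE1, hT⟩ : ∃ E1, IsChild D.S E E1 ∧ T D (K.κ.op (ind x)) s E1 ≠ 0 := by
        by_contra hcon
        push Not at hcon
        apply hne
        show D.S.op (T D (K.κ.op (ind x)) s) E = 0
        rw [op_congr_child D.S (G := fun _ => 0) E hcon, op_zero]
      obtain ⟨O, hO, hbad, hz⟩ := hdisp _ s E1 hT
      have hch := kick_ne K O x hO
      obtain ⟨hcx, hzx⟩ := kick_child_bounds K O x hch hbad.2.2.2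
      have hG1 : IsChild D.S E G := (isChild_iff D E G).2 hGE
      have e1 := (child_bounds D E E1 hE1).1
      have e2 := (child_bounds D E G hG1).1
      have e3 : ‖B.z E1.2.2 - B.z G.2.2‖ ≤ 4 * D.Zt := by
        have : B.z E1.2.2 - B.z G.2.2 = (B.z E1.2.2 - D.w * B.z E.2.2) -
            (B.z G.2.2 - D.w * B.z E.2.2) := by ring
        rw [this]
        refine (norm_sub_le _ _).trans ?_
        linarith
      have hw : ∀ n : ℕ, ‖D.w ^ n‖ = 1 := by
        intro n
        rw [norm_pow]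
        unfold Design.w
        rw [norm_pow, B.norm_w0, one_pow, one_pow]
      have e4 : ‖B.z x.2.2 - D.w ^ (s + L) * B.z G.2.2‖ ≤ 10 * B.K0 + 4 * r0 + CT + 4 * D.Zt := by
        have : B.z x.2.2 - D.w ^ (s + L) * B.z G.2.2 = (B.z x.2.2 - D.w ^ L * B.z O.2.2) +
            D.w ^ L * (B.z O.2.2 - D.w ^ s * B.z E1.2.2) +
            D.w ^ (s + L) * (B.z E1.2.2 - B.z G.2.2) := by
          rw [pow_add]
          ring
        rw [this]
        refine (norm_add₃_le).trans ?_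
        rw [norm_mul, norm_mul, hw, hw, one_mul, one_mul]
        linarith
      have h2 := reach D G x hG s L (10 * B.K0 + 4 * r0 + CT + 4 * D.Zt) (by linarith)
        (by linarith) hx hcx e4
      have h3 := iter_ind_ge D.S 1 (s + L) E G x
      have h4 := op_ind_ge D E G hGE
      have e5 : 1 + (s + L) = s + 1 + L := by omega
      rw [e5] at h3
      refine le_trans ?_ h3
      exact mul_le_mul h4 h2 (by positivity) (le_trans (by positivity) h4)

end Pool.Agent.RS69
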