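import Pool.Agent.RS69.KReg2
import Pool.Agent.RS69.En1

/-!
# RS69.KReg3 : kick regularity (section 5.2): assembly

`tele` with `a = am K m` and `S` such that the last term vanishes (`T_run`, `am_supp`).  First term: `am_le`
with `y = h_{m+L}(E)` at a good `E`, `dom_good`: `≤ C osc m L E`.  Term `s`: `y = h_{m+L+s+1}(E)`,
`T (am) s ≤ T (κ.op (I |h_m - y|)) s + T (I |h_{m+L} - y|) s`, `dom_run` and `T_le_iter`:
`≤ C A^s osc m (s+1+L) E + osc (m+L) (s+1) E`.  Then `Bf_iter_mono`.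
-/

set_option autoImplicit false

namespace Pool.Agent.RS69

open scoped Classical

variable {B : Base} {D : Design B} {L : ℕ} {r0 ε : ℝ}

private theorem kr_am_nonneg (K : Kick D L r0 ε) (m : ℕ) (O : St) : 0 ≤ am K m O := by
  unfold am
  split_ifs
  · exact le_refl _
  · exact abs_nonneg _

private theorem kr_I_nonneg (D : Design B) (n : ℕ) (y : ℝ) (O : St) :
    0 ≤ B.I O * |D.S.h n O - y| := mul_nonneg (I_nonneg B O) (abs_nonneg _)

private theorem kr_I_zero (D : Design B) (n : ℕ) (y : ℝ) (O : St) (h : B.I O = 0) :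
    B.I O * |D.S.h n O - y| = 0 := by rw [h, zero_mul]

/-- linear combination of two functions under the iterated operator -/
private theorem kr_comb (D : Design B) (u : ℕ) (c : ℝ) (J : ℂ → ℝ) (ν : Arr) {R : ℝ} {X Y : St → ℝ}
    (hX : Bdd B R X) (hY : Bdd B R Y) :
    Bf B D.ζ0 1 J ν (D.S.op^[u] (fun E => c * (X E + Y E))) =
      c * (Bf B D.ζ0 1 J ν (D.S.op^[u] X) + Bf B D.ζ0 1 J ν (D.S.op^[u] Y)) := by
  have h1 : D.S.op^[u] (fun E => c * (X E + Y E)) =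
      fun E => c * (D.S.op^[u] (fun E => X E + Y E)) E := by
    funext E
    exact iter_smul D.S u c (fun E => X E + Y E) E
  rw [h1, Bf_smul, Bf_iter_add D u J ν hX hY]

private theorem kr_Bdd (c : ℝ) {R : ℝ} {X Y : St → ℝ} (hX : Bdd B R X) (hY : Bdd B R Y) :
    Bdd B R (fun E => c * (X E + Y E)) := by
  intro O hO
  by_cases h : X O = 0
  · apply hY
    intro h'
    apply hO
    dsimp only
    rw [h, h', add_zero, mul_zero]
  · exact hX O h

/-- pointwise bound, good states -/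
private theorem kr_good (K : Kick D L r0 ε) (m : ℕ) {C1 C : ℝ} (hC : C1 ≤ C) (hC0 : 0 ≤ C)
    (hdom : ∀ (F : St → ℝ), (∀ O, 0 ≤ F O) → (∀ O, B.I O = 0 → F O = 0) → ∀ E, D.Good E →
      K.κ.op F E ≤ C1 * (D.S.op^[L] F) E) (E : St) :
    (if D.Good E then am K m E else 0) ≤ C * (D.S.osc m L E + D.S.osc (m + L) 0 E) := by
  have h0 := osc_nonneg D m L E
  have h1 := osc_nonneg D (m + L) 0 E
  split_ifs with hg
  · have h2 := am_le K m (D.S.h (m + L) E) E
    rw [sub_self, abs_zero, mul_zero, add_zero] at h2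
    have h3 := hdom (fun O2 => B.I O2 * |D.S.h m O2 - D.S.h (m + L) E|)
      (kr_I_nonneg D m _) (kr_I_zero D m _) E hg
    have h4 : (D.S.op^[L] (fun O2 => B.I O2 * |D.S.h m O2 - D.S.h (m + L) E|)) E = D.S.osc m L E := rfl
    rw [h4] at h3
    have h5 : C1 * D.S.osc m L E ≤ C * D.S.osc m L E := mul_le_mul_of_nonneg_right hC h0
    have h6 : 0 ≤ C * D.S.osc (m + L) 0 E := mul_nonneg hC0 h1
    linarith
  · positivity

/-- pointwise bound, runs -/
private theorem kr_run (K : Kick D L r0 ε) (m s : ℕ) {C2 C : ℝ} (hC : C2 ≤ C) (hC0 : 1 ≤ C)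
    (hdom : ∀ (F : St → ℝ), (∀ O, 0 ≤ F O) → (∀ O, B.I O = 0 → F O = 0) →
      ∀ (s : ℕ) (E : St), 0 < B.I E → |B.c E.2.2| ≤ D.Cbig → ¬ D.NGC E → ¬ Coin E →
      D.S.op (T D (K.κ.op F) s) E ≤ C2 * D.A ^ s * (D.S.op^[s + 1 + L] F) E) (E : St) :
    (if |B.c E.2.2| ≤ D.Cbig ∧ ¬ D.NGC E ∧ ¬ Coin E ∧ 0 < B.I E then
      D.S.op (T D (am K m) s) E else 0) ≤
      C * D.A ^ (s + 1) * (D.S.osc m (s + 1 + L) E + D.S.osc (m + L) (s + 1) E) := by
  have h0 := osc_nonneg D m (s + 1 + L) E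
  have h1 := osc_nonneg D (m + L) (s + 1) E
  have hA := D.two_le_A
  have hA1 : 1 ≤ D.A ^ s := one_le_pow₀ (by linarith)
  have hA2 : D.A ^ s ≤ D.A ^ (s + 1) := pow_le_pow_right₀ (by linarith) (Nat.le_succ s)
  have hA0 : 0 ≤ D.A ^ (s + 1) := by linarith
  split_ifs with hc
  · obtain ⟨hc1, hc2, hc3, hc4⟩ := hc
    set y := D.S.h (m + (s + 1 + L)) E with hy
    have hy' : y = D.S.h (m + L + (s + 1)) E := by
      rw [hy, show m + (s + 1 + L) = m + L + (s + 1) by omega]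
    have e1 : (D.S.op^[s + 1 + L] (fun O2 => B.I O2 * |D.S.h m O2 - y|)) E =
      D.S.osc m (s + 1 + L) E := rfl
    have e2 : (D.S.op^[s + 1] (fun O2 => B.I O2 * |D.S.h (m + L) O2 - y|)) E =
      D.S.osc (m + L) (s + 1) E := by
      rw [hy']
      rfl
    have h2 := hdom (fun O2 => B.I O2 * |D.S.h m O2 - y|)
      (kr_I_nonneg D m _) (kr_I_zero D m _) s E hc4 hc1 hc2 hc3
    rw [e1] at h2
    have h3 : D.S.op (T D (fun O2 => B.I O2 * |D.S.h (m + L) O2 - y|) s) E ≤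
        D.S.osc (m + L) (s + 1) E := by
      rw [← e2, Function.iterate_succ_apply']
      exact op_mono _ (fun O => T_le_iter D (kr_I_nonneg D (m + L) y) s O) E
    have h4 : D.S.op (T D (am K m) s) E ≤
        D.S.op (T D (K.κ.op (fun O2 => B.I O2 * |D.S.h m O2 - y|)) s) E +
          D.S.op (T D (fun O2 => B.I O2 * |D.S.h (m + L) O2 - y|) s) E := by
      have h5 := op_mono D.S (fun O => T_mono D (fun O => am_le K m y O) s O) E
      rw [T_add D (K.κ.op (fun O2 => B.I O2 * |D.S.h m O2 - y|))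
        (fun O2 => B.I O2 * |D.S.h (m + L) O2 - y|) s, op_add] at h5
      exact h5
    have h6 : C2 * D.A ^ s * D.S.osc m (s + 1 + L) E ≤ C * D.A ^ (s + 1) * D.S.osc m (s + 1 + L) E := by
      apply mul_le_mul_of_nonneg_right _ h0
      calc C2 * D.A ^ s ≤ C * D.A ^ s := mul_le_mul_of_nonneg_right hC (by linarith)
        _ ≤ C * D.A ^ (s + 1) := mul_le_mul_of_nonneg_left hA2 (by linarith)
    have h7 : 1 * D.S.osc (m + L) (s + 1) E ≤ C * D.A ^ (s + 1) * D.S.osc (m + L) (s + 1) E := by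
      apply mul_le_mul_of_nonneg_right _ h1
      nlinarith
    rw [mul_add]
    linarith
  · have hC' : 0 ≤ C := by linarith
    positivity

/-- 5.2 KICK REGULARITY -/
theorem kick_reg (D : Design B) : ∃ CL : ℝ, 0 < CL ∧ ∀ {L : ℕ} {r0 ε : ℝ} (K : Kick D L r0 ε), 0 ≤ r0 →
    CL + 4 * r0 ≤ L →
    ∃ C : ℝ, 1 ≤ C ∧ ∀ (n m S : ℕ), C * (1 + (m : ℝ) + L) ^ 2 < D.t ^ S → S ≤ n →
      ∀ {J : ℂ → ℝ}, (∀ s, 0 ≤ J s) → ∀ {ν : Arr}, InC B D.Cν ν →
      Bf B D.ζ0 1 J ν (D.S.op^[n] (am K m)) ≤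
        ∑ s ∈ Finset.range (S + 1), C * D.A ^ s *
          (Bf B D.ζ0 1 J ν (D.S.op^[n - s] (D.S.osc m (s + L))) +
            Bf B D.ζ0 1 J ν (D.S.op^[n - s] (D.S.osc (m + L) s))) := by
  obtain ⟨CL, hCL, hrun⟩ := dom_run D
  have hK0 : 0 ≤ B.K0 := by
    unfold Base.K0
    have h1 : 0 ≤ ∑ a, |B.c (ev a)| := Finset.sum_nonneg fun _ _ => abs_nonneg _
    have h2 := le_max_right (∑ a, ‖B.z (ev a)‖) (∑ a, |B.c (ev a)|)
    linarith
  have hZ3 := D.Z3_nonneg
  refine ⟨max CL (10 * B.K0 + D.Z3 + 1), lt_of_lt_of_le hCL (le_max_left _ _), ?_⟩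
  intro L r0 ε K hr0 hL
  have hL1 : CL + 4 * r0 ≤ L := by linarith [le_max_left CL (10 * B.K0 + D.Z3 + 1)]
  have hL2 : 10 * B.K0 + 4 * r0 + D.Z3 + 1 ≤ L := by
    linarith [le_max_right CL (10 * B.K0 + D.Z3 + 1)]
  obtain ⟨C2, hC2, hdr⟩ := hrun K hr0 hL1
  obtain ⟨C1, hC1, hdg⟩ := dom_good K hr0 hL2
  obtain ⟨CT, hCT, hT⟩ := T_run D
  obtain ⟨Ca, hCa, hsupp⟩ := am_supp K
  have hCTa : 0 < CT * (1 + Ca) ^ 2 := by positivity
  refine ⟨1 + C1 + C2 + CT * (1 + Ca) ^ 2, by linarith, ?_⟩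
  set C := 1 + C1 + C2 + CT * (1 + Ca) ^ 2 with hC
  intro n m S hS hSn J hJ ν hν
  have hm0 : (0 : ℝ) ≤ m := Nat.cast_nonneg m
  have hL0 : (0 : ℝ) ≤ L := Nat.cast_nonneg L
  obtain ⟨R, hR⟩ := Bdd_am K m
  have ha0 : ∀ O, 0 ≤ am K m O := kr_am_nonneg K m
  have key := tele D n S hSn hJ hν hR ha0
    (fun O hO => by unfold am; rw [if_pos hO])
    (fun O hO => by
      by_contra h
      exact (hsupp m O h).1.ne' hO)
  -- the last term vanishes
  have hlast : T D (am K m) S = fun _ => 0 := by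
    funext E
    refine hT (am K m) (Ca * (1 + m + L)) (by positivity) (fun O hO => (hsupp m O hO).2.2) S ?_ E
    refine lt_of_le_of_lt ?_ hS
    have h1 : 1 + Ca * (1 + (m : ℝ) + L) ≤ (1 + Ca) * (1 + m + L) := by
      have : (1 : ℝ) ≤ 1 + m + L := by linarith
      nlinarith
    calc CT * (1 + Ca * (1 + (m : ℝ) + L)) ^ 2 ≤ CT * ((1 + Ca) * (1 + m + L)) ^ 2 :=
          mul_le_mul_of_nonneg_left (pow_le_pow_left₀ (by positivity) h1 2) (by linarith)
      _ = CT * (1 + Ca) ^ 2 * (1 + m + L) ^ 2 := by ring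
      _ ≤ C * (1 + m + L) ^ 2 := by
        apply mul_le_mul_of_nonneg_right _ (sq_nonneg _)
        rw [hC]
        linarith
  have hzero : Bf B D.ζ0 1 J ν (D.S.op^[n - S] (T D (am K m) S)) = 0 := by
    rw [hlast]
    have h1 : D.S.op^[n - S] (fun _ => (0 : ℝ)) = fun _ => 0 := by
      funext E
      have := iter_smul D.S (n - S) 0 (fun _ => (0 : ℝ)) E
      simpa using this
    rw [h1]
    have h2 := Bf_smul B D.ζ0 1 0 J ν (fun _ => (0 : ℝ))
    simpa using h2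
  rw [hzero, add_zero] at key
  -- the first term
  obtain ⟨R1, hR1⟩ := Bdd_osc D m L
  obtain ⟨R2, hR2⟩ := Bdd_osc D (m + L) 0
  have hfirst : Bf B D.ζ0 1 J ν (D.S.op^[n] (fun O => if D.Good O then am K m O else 0)) ≤
      C * D.A ^ 0 * (Bf B D.ζ0 1 J ν (D.S.op^[n - 0] (D.S.osc m (0 + L))) +
            Bf B D.ζ0 1 J ν (D.S.op^[n - 0] (D.S.osc (m + L) 0))) := by
    have hX : Bdd B (max R (max R1 R2)) (D.S.osc m L) :=
      Bdd_mono ((le_max_left R1 R2).trans (le_max_right _ _)) hR1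
    have hY : Bdd B (max R (max R1 R2)) (D.S.osc (m + L) 0) :=
      Bdd_mono ((le_max_right R1 R2).trans (le_max_right _ _)) hR2
    have hF : Bdd B (max R (max R1 R2)) (fun O => if D.Good O then am K m O else 0) := by
      apply Bdd_mono (le_max_left _ _)
      intro O hO
      apply hR
      intro h
      apply hO
      dsimp only
      rw [h, ite_self]
    rw [pow_zero, mul_one, Nat.sub_zero, zero_add, ← kr_comb D n C J ν hX hY]
    refine Bf_iter_mono D n hJ hν hF (kr_Bdd C hX hY) fun O _ => ?_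
    exact kr_good K m (by rw [hC]; linarith) (by rw [hC]; linarith) hdg O
  -- the terms of the sum
  have hterm : ∀ s ∈ Finset.range S, Bf B D.ζ0 1 J ν (D.S.op^[n - (s + 1)] (fun E =>
        if |B.c E.2.2| ≤ D.Cbig ∧ ¬ D.NGC E ∧ ¬ Coin E ∧ 0 < B.I E then
          D.S.op (T D (am K m) s) E else 0)) ≤
      C * D.A ^ (s + 1) * (Bf B D.ζ0 1 J ν (D.S.op^[n - (s + 1)] (D.S.osc m (s + 1 + L))) +
            Bf B D.ζ0 1 J ν (D.S.op^[n - (s + 1)] (D.S.osc (m + L) (s + 1)))) := by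
    intro s _
    obtain ⟨R3, hR3⟩ := Bdd_osc D m (s + 1 + L)
    obtain ⟨R4, hR4⟩ := Bdd_osc D (m + L) (s + 1)
    obtain ⟨R5, hR5⟩ := Bdd_T D hR s
    obtain ⟨R6, hR6⟩ := Bdd_op D.S hR5
    have hX : Bdd B (max R6 (max R3 R4)) (D.S.osc m (s + 1 + L)) :=
      Bdd_mono ((le_max_left R3 R4).trans (le_max_right _ _)) hR3
    have hY : Bdd B (max R6 (max R3 R4)) (D.S.osc (m + L) (s + 1)) :=
      Bdd_mono ((le_max_right R3 R4).trans (le_max_right _ _)) hR4
    have hF : Bdd B (max R6 (max R3 R4)) (fun E =>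
        if |B.c E.2.2| ≤ D.Cbig ∧ ¬ D.NGC E ∧ ¬ Coin E ∧ 0 < B.I E then
          D.S.op (T D (am K m) s) E else 0) := by
      apply Bdd_mono (le_max_left _ _)
      intro O hO
      apply hR6
      intro h
      apply hO
      dsimp only
      rw [h, ite_self]
    rw [← kr_comb D (n - (s + 1)) (C * D.A ^ (s + 1)) J ν hX hY]
    refine Bf_iter_mono D _ hJ hν hF (kr_Bdd _ hX hY) fun O _ => ?_
    exact kr_run K m s (by rw [hC]; linarith) (by rw [hC]; linarith) hdr O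
  rw [Finset.sum_range_succ']
  have hsum := Finset.sum_le_sum hterm
  linarith

end Pool.Agent.RS69
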