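import Pool.Agent.RS69.Mass2
import Pool.Agent.RS69.Bal

/-!
# RS69.Kick1 : construction of the kick level (section 5)

`E = {η ∈ V : |l(η)| ≤ 1/2, |z(η)| ≤ r0, |c(η)| ≤ g}`, `β = 1/|E|`, `G2 = flo Λ` with `Λ ~ C r0` so large that
`G2 ± η ≥ 0`, `κ_η(a) = bal(G2+η) bal(M^L e_a - 2 G2) bal(G2-η)`.
-/

set_option autoImplicit false

namespace Pool.Agent.RS69

variable {B : Base} (D : Design B)

/-! ### auxiliary lemmas -/

private theorem K0_nonneg : 0 ≤ B.K0 := by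
  unfold Base.K0
  have h1 : 0 ≤ ∑ a, ‖B.z (ev a)‖ := Finset.sum_nonneg fun a _ => norm_nonneg _
  have h2 := le_max_left (∑ a, ‖B.z (ev a)‖) (∑ a, |B.c (ev a)|)
  linarith

private theorem z_ev_le (a : Ltr) : ‖B.z (ev a)‖ ≤ B.K0 / 3 := by
  unfold Base.K0
  have h1 : ‖B.z (ev a)‖ ≤ ∑ b, ‖B.z (ev b)‖ :=
    Finset.single_le_sum (f := fun b => ‖B.z (ev b)‖) (fun b _ => norm_nonneg _) (Finset.mem_univ a)
  have h2 := le_max_left (∑ a, ‖B.z (ev a)‖) (∑ a, |B.c (ev a)|)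
  linarith

private theorem c_ev_le (a : Ltr) : |B.c (ev a)| ≤ B.K0 / 3 := by
  unfold Base.K0
  have h1 : |B.c (ev a)| ≤ ∑ b, |B.c (ev b)| :=
    Finset.single_le_sum (f := fun b => |B.c (ev b)|) (fun b _ => abs_nonneg _) (Finset.mem_univ a)
  have h2 := le_max_right (∑ a, ‖B.z (ev a)‖) (∑ a, |B.c (ev a)|)
  linarith

private theorem z_Pev_le (k : ℕ) (a : Ltr) : ‖B.z ((B.P ^ k).mulVec (ev a))‖ ≤ B.K0 / 3 := by
  rw [z_Mpow, norm_mul, norm_pow, B.norm_w0, one_pow, one_mul]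
  exact z_ev_le a

private theorem c_Pev_le (k : ℕ) (a : Ltr) : |B.c ((B.P ^ k).mulVec (ev a))| ≤ B.K0 / 3 := by
  rw [c_Mpow, abs_mul]
  have h1 : 1 ≤ B.t0 ^ k := one_le_pow₀ B.one_lt_t0.le
  have h2 : |(B.t0 ^ k)⁻¹| ≤ 1 := by
    rw [abs_of_nonneg (by positivity)]
    exact inv_le_one_of_one_le₀ h1
  have h3 := c_ev_le (B := B) a
  have h4 := abs_nonneg (B.c (ev a))
  nlinarith [abs_nonneg ((B.t0 ^ k)⁻¹)]

/-- tiles of the concatenation of three words -/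
private theorem mem_tiles3 (w1 w2 w3 : List Ltr) (x : Ltr × Vec) (hx : x ∈ tiles (w1 ++ w2 ++ w3) 0) :
    x ∈ tiles w1 0 ∨ (∃ y ∈ tiles w2 0, x.2 = y.2 + abv w1) ∨
      (∃ y ∈ tiles w3 0, x.2 = y.2 + (abv w1 + abv w2)) := by
  rw [tiles_append, tiles_append, List.mem_append, List.mem_append] at hx
  rcases hx with (h | h) | h
  · exact Or.inl h
  · right; left
    rw [tiles_shift] at h
    obtain ⟨y, hy, rfl⟩ := List.mem_map.1 h
    exact ⟨y, hy, rfl⟩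
  · right; right
    rw [tiles_shift, abv_append] at h
    obtain ⟨y, hy, rfl⟩ := List.mem_map.1 h
    exact ⟨y, hy, rfl⟩

/-- growth of the entries -/
private theorem entry_ge (L : ℕ) (hL : 1 ≤ L) (a b : Ltr) : (L : ℤ) ≤ (B.P ^ (D.N * L)) a b := by
  induction L, hL using Nat.le_induction generalizing a b with
  | base =>
    have := D.Mpos a b
    rw [Nat.mul_one]
    push_cast
    omega
  | succ L hL ih =>
    have e : B.P ^ (D.N * (L + 1)) = B.P ^ (D.N * L) * B.P ^ D.N := by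
      rw [← pow_add]; congr 1
    rw [e, Matrix.mul_apply]
    have h1 : ∀ c ∈ (Finset.univ : Finset (Fin 4)), (L : ℤ) ≤
        (B.P ^ (D.N * L)) a c * (B.P ^ D.N) c b := by
      intro c _
      have h2 := ih a c
      have h3 := D.Mpos c b
      have h4 : (0 : ℤ) ≤ L := Int.natCast_nonneg _
      nlinarith
    have h5 := Finset.card_nsmul_le_sum _ _ _ h1
    rw [Finset.card_univ, Fintype.card_fin] at h5
    have h6 : (1 : ℤ) ≤ L := by exact_mod_cast hL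
    refine le_trans ?_ h5
    push_cast
    rw [nsmul_eq_mul]
    push_cast
    linarith

private theorem mulVec_ev (M : Matrix (Fin 4) (Fin 4) ℤ) (a b : Ltr) : M.mulVec (ev a) b = M b a := by
  unfold ev
  simp [Matrix.mulVec_single]

/-- the level -/
theorem exists_kick_level (r0 : ℝ) (hr0 : 1 ≤ r0) : ∃ L0 : ℕ, ∃ G2 : Vec, 1 ≤ L0 ∧ ‖B.z G2‖ ≤ B.K0 ∧
    |B.c G2| ≤ B.K0 ∧ ∀ L, L0 ≤ L →
    ∃ (E : Finset Vec) (hE : E.Nonempty), (∀ v, v ∈ E ↔ |B.l v| ≤ 1 / 2 ∧ ‖B.z v‖ ≤ r0 ∧ |B.c v| ≤ B.g) ∧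
      (∀ η ∈ E, ∀ a, 0 ≤ G2 a + η a ∧ 0 ≤ G2 a - η a) ∧
      (∀ a b, 0 ≤ ((B.P ^ (D.N * L)).mulVec (ev a) - 2 • G2) b) ∧
      ∃ κ : Level B, κ.k = D.N * L ∧ ∃ e : κ.E ≃ E, (∀ x, κ.β x = (E.card : ℝ)⁻¹) ∧
        (∀ x a, κ.sub x a = bal (G2 + (e x : Vec)) ++ bal ((B.P ^ (D.N * L)).mulVec (ev a) - 2 • G2) ++
          bal (G2 - (e x : Vec))) ∧
        (∀ η a, ∀ x ∈ tiles (κ.sub η a) 0, |B.c x.2| ≤ B.kc) ∧
        (∀ η a, ∀ x ∈ tiles (κ.sub η a) 0, ‖B.z x.2‖ ≤ 5 * B.K0 + 2 * r0) := by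
  classical
  have hg0 : 0 ≤ B.g := by linarith [B.one_le_g]
  have hK0 := K0_nonneg (B := B)
  have hfin := box_finite B (1 / 2) r0 B.g
  set E : Finset Vec := hfin.toFinset with hEdef
  have hmem : ∀ v, v ∈ E ↔ |B.l v| ≤ 1 / 2 ∧ ‖B.z v‖ ≤ r0 ∧ |B.c v| ≤ B.g := fun v => by
    simp [hEdef]
  have hE : E.Nonempty := ⟨0, by
    rw [hmem]
    simp only [map_zero, abs_zero, norm_zero]
    exact ⟨by norm_num, by linarith, hg0⟩⟩
  -- bound of the entries of the kick vectors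
  set Mx : ℤ := ∑ η ∈ E, ∑ a, |η a| with hMx
  have hMxb : ∀ η ∈ E, ∀ a, |η a| ≤ Mx := by
    intro η hη a
    have h1 : |η a| ≤ ∑ b, |η b| :=
      Finset.single_le_sum (f := fun b => |η b|) (fun b _ => abs_nonneg _) (Finset.mem_univ a)
    have h2 : (∑ b, |η b|) ≤ Mx :=
      Finset.single_le_sum (f := fun η : Vec => ∑ b, |η b|)
        (fun v _ => Finset.sum_nonneg fun b _ => abs_nonneg _) hη
    exact h1.trans h2
  have hMx0 : 0 ≤ Mx := Finset.sum_nonneg fun v _ => Finset.sum_nonneg fun b _ => abs_nonneg _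
  set Λ : ℝ := ∑ a, ((Mx : ℝ) + 1) / B.f a with hΛ
  set G2 : Vec := flo B Λ with hG2
  have hMx0' : (0 : ℝ) ≤ Mx := by exact_mod_cast hMx0
  have hG2ge : ∀ a, Mx ≤ G2 a := by
    intro a
    have h1 : ((Mx : ℝ) + 1) / B.f a ≤ Λ :=
      Finset.single_le_sum (f := fun a => ((Mx : ℝ) + 1) / B.f a)
        (fun b _ => div_nonneg (by linarith) (B.f_pos b).le) (Finset.mem_univ a)
    have h2 : (Mx : ℝ) + 1 ≤ Λ * B.f a := by
      rwa [div_le_iff₀ (B.f_pos a)] at h1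
    have h3 : Mx + 1 ≤ ⌊Λ * B.f a⌋ := by
      rw [Int.le_floor]
      push_cast
      exact h2
    have h4 : G2 a = ⌊Λ * B.f a⌋ := rfl
    rw [h4]
    linarith
  have hpm : ∀ η ∈ E, ∀ a, 0 ≤ G2 a + η a ∧ 0 ≤ G2 a - η a := by
    intro η hη a
    have h1 := hMxb η hη a
    have h2 := hG2ge a
    have h3 := abs_le.1 h1
    constructor
    · linarith [h3.1]
    · linarith [h3.2]
  have hzG := flo_z B Λ
  have hcG := flo_c B Λ
  refine ⟨1 + (∑ b, 2 * (G2 b).toNat), G2, by omega, hzG, hcG, fun L hL => ?_⟩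
  have hL1 : 1 ≤ L := by omega
  have hmid : ∀ a b, 0 ≤ ((B.P ^ (D.N * L)).mulVec (ev a) - 2 • G2) b := by
    intro a b
    rw [Pi.sub_apply, mulVec_ev, Pi.smul_apply]
    have h1 := entry_ge D L hL1 b a
    have h2 : 2 * (G2 b).toNat ≤ ∑ b, 2 * (G2 b).toNat :=
      Finset.single_le_sum (f := fun b => 2 * (G2 b).toNat) (fun b _ => Nat.zero_le _)
        (Finset.mem_univ b)
    have h3 : 2 * (G2 b).toNat ≤ L := by omega
    have h4 : (G2 b) ≤ ((G2 b).toNat : ℤ) := Int.self_le_toNat _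
    have h5 : (2 : ℤ) * ((G2 b).toNat : ℤ) ≤ L := by exact_mod_cast h3
    rw [nsmul_eq_mul]
    push_cast
    linarith
  refine ⟨E, hE, hmem, hpm, hmid, ?_⟩
  have hcard : (0 : ℝ) < E.card := by exact_mod_cast hE.card_pos
  have hp : ∀ x : {v // v ∈ E}, ∀ a, 0 ≤ (G2 + (x : Vec)) a := fun x a => by
    rw [Pi.add_apply]; exact (hpm x x.2 a).1
  have hm : ∀ x : {v // v ∈ E}, ∀ a, 0 ≤ (G2 - (x : Vec)) a := fun x a => by
    rw [Pi.sub_apply]; exact (hpm x x.2 a).2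
  let κ : Level B :=
    { k := D.N * L
      E := {v // v ∈ E}
      β := fun _ => (E.card : ℝ)⁻¹
      β_nonneg := fun _ => inv_nonneg.2 hcard.le
      β_sum := by
        rw [Finset.sum_const, Finset.card_univ, Fintype.card_coe, nsmul_eq_mul]
        exact mul_inv_cancel₀ hcard.ne'
      sub := fun x a => bal (G2 + (x : Vec)) ++ bal ((B.P ^ (D.N * L)).mulVec (ev a) - 2 • G2) ++
        bal (G2 - (x : Vec))
      ab := fun x a => by
        rw [abv_append, abv_append, bal_abv (hp x), bal_abv (hmid a), bal_abv (hm x)]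
        rw [two_smul]
        abel }
  have hsub : ∀ (x : {v // v ∈ E}) a, κ.sub x a = bal (G2 + (x : Vec)) ++
      bal ((B.P ^ (D.N * L)).mulVec (ev a) - 2 • G2) ++ bal (G2 - (x : Vec)) := fun x a => rfl
  -- the contracting and the neutral coordinate of the pieces
  have c1 : ∀ x : {v // v ∈ E}, |B.c (G2 + (x : Vec))| ≤ B.K0 + B.g := fun x => by
    rw [map_add]
    exact (abs_add_le _ _).trans (add_le_add hcG ((hmem x).1 x.2).2.2)
  have c3 : ∀ x : {v // v ∈ E}, |B.c (G2 - (x : Vec))| ≤ B.K0 + B.g := fun x => by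
    rw [map_sub]
    exact (abs_sub _ _).trans (add_le_add hcG ((hmem x).1 x.2).2.2)
  have c2 : ∀ a, |B.c ((B.P ^ (D.N * L)).mulVec (ev a) - 2 • G2)| ≤ B.K0 / 3 + 2 * B.K0 := fun a => by
    rw [map_sub, map_nsmul, two_smul]
    have h1 := c_Pev_le (B := B) (D.N * L) a
    calc |B.c ((B.P ^ (D.N * L)).mulVec (ev a)) - (B.c G2 + B.c G2)|
        ≤ |B.c ((B.P ^ (D.N * L)).mulVec (ev a))| + |B.c G2 + B.c G2| := abs_sub _ _
      _ ≤ |B.c ((B.P ^ (D.N * L)).mulVec (ev a))| + (|B.c G2| + |B.c G2|) :=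
          add_le_add le_rfl (abs_add_le _ _)
      _ ≤ _ := by linarith
  have z1 : ∀ x : {v // v ∈ E}, ‖B.z (G2 + (x : Vec))‖ ≤ B.K0 + r0 := fun x => by
    rw [map_add]
    exact (norm_add_le _ _).trans (add_le_add hzG ((hmem x).1 x.2).2.1)
  have z3 : ∀ x : {v // v ∈ E}, ‖B.z (G2 - (x : Vec))‖ ≤ B.K0 + r0 := fun x => by
    rw [map_sub]
    exact (norm_sub_le _ _).trans (add_le_add hzG ((hmem x).1 x.2).2.1)
  have z2 : ∀ a, ‖B.z ((B.P ^ (D.N * L)).mulVec (ev a) - 2 • G2)‖ ≤ B.K0 / 3 + 2 * B.K0 := fun a => by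
    rw [map_sub, map_nsmul, two_smul]
    have h1 := z_Pev_le (B := B) (D.N * L) a
    calc ‖B.z ((B.P ^ (D.N * L)).mulVec (ev a)) - (B.z G2 + B.z G2)‖
        ≤ ‖B.z ((B.P ^ (D.N * L)).mulVec (ev a))‖ + ‖B.z G2 + B.z G2‖ := norm_sub_le _ _
      _ ≤ ‖B.z ((B.P ^ (D.N * L)).mulVec (ev a))‖ + (‖B.z G2‖ + ‖B.z G2‖) :=
          add_le_add le_rfl (norm_add_le _ _)
      _ ≤ _ := by linarith
  -- the sum of the first two pieces
  have e12 : ∀ (x : {v // v ∈ E}) a, (G2 + (x : Vec)) + ((B.P ^ (D.N * L)).mulVec (ev a) - 2 • G2) =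
      (B.P ^ (D.N * L)).mulVec (ev a) - (G2 - (x : Vec)) := fun x a => by
    rw [two_smul]; abel
  refine ⟨κ, rfl, Equiv.refl _, fun _ => rfl, fun x a => rfl, ?_, ?_⟩
  · intro η a x hx
    rw [hsub] at hx
    unfold Base.kc
    rcases mem_tiles3 _ _ _ x hx with h | ⟨y, hy, h⟩ | ⟨y, hy, h⟩
    · have h1 := bal_c B (hp η) x h
      have h2 := c1 η
      linarith
    · have h1 := bal_c B (hmid a) y hy
      rw [h, bal_abv (hp η), map_add]
      have h2 := c1 η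
      have h3 := c2 a
      have h4 := abs_add_le (B.c y.2) (B.c (G2 + (η : Vec)))
      linarith
    · have h1 := bal_c B (hm η) y hy
      rw [h, bal_abv (hp η), bal_abv (hmid a), e12, map_add, map_sub]
      have h2 := c3 η
      have h3 := c_Pev_le (B := B) (D.N * L) a
      have h4 := abs_add_le (B.c y.2) (B.c ((B.P ^ (D.N * L)).mulVec (ev a)) - B.c (G2 - (η : Vec)))
      have h5 := abs_sub (B.c ((B.P ^ (D.N * L)).mulVec (ev a))) (B.c (G2 - (η : Vec)))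
      linarith
  · intro η a x hx
    rw [hsub] at hx
    rcases mem_tiles3 _ _ _ x hx with h | ⟨y, hy, h⟩ | ⟨y, hy, h⟩
    · have h1 := bal_z B (hp η) x h
      have h2 := z1 η
      linarith
    · have h1 := bal_z B (hmid a) y hy
      rw [h, bal_abv (hp η), map_add]
      have h2 := z1 η
      have h3 := z2 a
      have h4 := norm_add_le (B.z y.2) (B.z (G2 + (η : Vec)))
      linarith
    · have h1 := bal_z B (hm η) y hy
      rw [h, bal_abv (hp η), bal_abv (hmid a), e12, map_add, map_sub]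
      have h2 := z3 η
      have h3 := z_Pev_le (B := B) (D.N * L) a
      have h4 := norm_add_le (B.z y.2) (B.z ((B.P ^ (D.N * L)).mulVec (ev a)) - B.z (G2 - (η : Vec)))
      have h5 := norm_sub_le (B.z ((B.P ^ (D.N * L)).mulVec (ev a))) (B.z (G2 - (η : Vec)))
      linarith

end Pool.Agent.RS69
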