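import Pool.Agent.RS69.Kick1

/-!
# RS69.Kick2 : kicks destroy coincidences (section 5.1)

`κ.op H_m (c,c,0)`: pairs with a tile in one of the short parts have total length `≤ 2 * l(2 G2 + ..)`, a
fraction `ε1(L) → 0`.  Middle-middle pairs: displacement `v' = η' - η + q_j - p_i`; for fixed `η, i` and given
`(letter of j, v')` the number of `(η', j)` with `η' + q_j = v' + η + p_i` is at most `2` or so
(`|l(η')| ≤ 1/2`, tile lengths `≥ 1`), and `v'` satisfies `‖z‖ ≤ 2 r0 + C`, `|c| ≤ C`; so by `ball_sum_le`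
the sum is `≤ ε1 + |E|⁻¹ C r0² Q0(m, r0) ≤ ε1 + C Q0(m,r0)` (`kick_card`).
-/

set_option autoImplicit false

namespace Pool.Agent.RS69

variable {B : Base} (D : Design B)

namespace Kick2Aux

theorem l_abv_nonneg (B : Base) (w : List Ltr) : 0 ≤ B.l (abv w) := by
  induction w with
  | nil => simp [abv_nil]
  | cons a w ih =>
    rw [abv_cons, map_add]
    have := B.l_ge a
    linarith

theorem length_le (B : Base) (w : List Ltr) : (w.length : ℝ) ≤ B.l (abv w) := by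
  induction w with
  | nil => simp [abv_nil]
  | cons a w ih =>
    rw [abv_cons, map_add, List.length_cons]
    push_cast
    have := B.l_ge a
    linarith

theorem K0_nonneg (B : Base) : 0 ≤ B.K0 := by
  unfold Base.K0
  have h1 : 0 ≤ ∑ a, ‖B.z (ev a)‖ := Finset.sum_nonneg fun a _ => norm_nonneg _
  have h2 := le_max_left (∑ a, ‖B.z (ev a)‖) (∑ a, |B.c (ev a)|)
  linarith

theorem z_Pev_le (B : Base) (k : ℕ) (a : Ltr) : ‖B.z ((B.P ^ k).mulVec (ev a))‖ ≤ B.K0 / 3 := by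
  rw [z_Mpow, norm_mul, norm_pow, B.norm_w0, one_pow, one_mul]
  unfold Base.K0
  have h1 : ‖B.z (ev a)‖ ≤ ∑ b, ‖B.z (ev b)‖ :=
    Finset.single_le_sum (f := fun b => ‖B.z (ev b)‖) (fun b _ => norm_nonneg _) (Finset.mem_univ a)
  have h2 := le_max_left (∑ a, ‖B.z (ev a)‖) (∑ a, |B.c (ev a)|)
  linarith

theorem c_Pev_le (B : Base) (k : ℕ) (a : Ltr) : |B.c ((B.P ^ k).mulVec (ev a))| ≤ B.K0 / 3 := by
  have h3 : |B.c (ev a)| ≤ B.K0 / 3 := by
    unfold Base.K0
    have h1 : |B.c (ev a)| ≤ ∑ b, |B.c (ev b)| :=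
      Finset.single_le_sum (f := fun b => |B.c (ev b)|) (fun b _ => abs_nonneg _) (Finset.mem_univ a)
    have h2 := le_max_right (∑ a, ‖B.z (ev a)‖) (∑ a, |B.c (ev a)|)
    linarith
  rw [c_Mpow, abs_mul]
  have h1 : 1 ≤ B.t0 ^ k := one_le_pow₀ B.one_lt_t0.le
  have h2 : |(B.t0 ^ k)⁻¹| ≤ 1 := by
    rw [abs_of_nonneg (by positivity)]
    exact inv_le_one_of_one_le₀ h1
  have h4 := abs_nonneg (B.c (ev a))
  nlinarith [abs_nonneg ((B.t0 ^ k)⁻¹)]

/-- double sum over the pairs of tiles of two placed words -/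
noncomputable def SS (F : St → ℝ) (X Y : List (Ltr × Vec)) : ℝ :=
  (X.map (fun x => (Y.map (fun y => F (x.1, y.1, y.2 - x.2))).sum)).sum

theorem SS_append_left (F : St → ℝ) (X X' Y : List (Ltr × Vec)) :
    SS F (X ++ X') Y = SS F X Y + SS F X' Y := by
  unfold SS
  rw [List.map_append, List.sum_append]

theorem SS_append_right (F : St → ℝ) (X Y Y' : List (Ltr × Vec)) :
    SS F X (Y ++ Y') = SS F X Y + SS F X Y' := by
  unfold SS
  rw [← List.sum_map_add]
  congr 1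
  apply List.map_congr_left
  intro x _
  rw [List.map_append, List.sum_append]

theorem SS_mono {F G : St → ℝ} (h : ∀ O, F O ≤ G O) (X Y : List (Ltr × Vec)) :
    SS F X Y ≤ SS G X Y :=
  List.sum_le_sum fun _ _ => List.sum_le_sum fun _ _ => h _

theorem SS_le_left (m : ℕ) (w w' : List Ltr) (s s' : Vec) :
    SS (D.S.H m) (tiles w s) (tiles w' s') ≤ B.l (abv w) := by
  refine (SS_mono (fun O => H_le_I D m O) _ _).trans ?_
  have h := sum_overlap' B w w' s s'
  unfold SS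
  rw [h]
  have h1 := min_le_left (B.l (s + abv w)) (B.l (s' + abv w'))
  have h2 := le_max_left (B.l s) (B.l s')
  rw [map_add] at h1
  rw [map_add]
  exact max_le (l_abv_nonneg B w) (by linarith)

theorem SS_le_right (m : ℕ) (w w' : List Ltr) (s s' : Vec) :
    SS (D.S.H m) (tiles w s) (tiles w' s') ≤ B.l (abv w') := by
  refine (SS_mono (fun O => H_le_I D m O) _ _).trans ?_
  have h := sum_overlap' B w w' s s'
  unfold SS
  rw [h]
  have h1 := min_le_right (B.l (s + abv w)) (B.l (s' + abv w'))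
  have h2 := le_max_right (B.l s) (B.l s')
  rw [map_add B.l s' (abv w')] at h1 ⊢
  exact max_le (l_abv_nonneg B w') (by linarith)

/-- at most two pairs (kick vector, tile) give the same displacement -/
theorem fib_card (E : Finset Vec) (hE : ∀ v ∈ E, |B.l v| ≤ 1 / 2) (w : List Ltr) (s : Vec)
    (y : Ltr × Vec) :
    (((E ×ˢ (Finset.univ : Finset (Fin w.length))).filter
      (fun x => (w[x.2], x.1 + abv (w.take x.2) + s) = y)).card) ≤ 2 := by
  by_contra hcon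
  push Not at hcon
  rw [Finset.two_lt_card] at hcon
  obtain ⟨x1, h1, x2, h2, x3, h3, h12, h13, h23⟩ := hcon
  have key : ∀ x ∈ ((E ×ˢ (Finset.univ : Finset (Fin w.length))).filter
      (fun x => (w[x.2], x.1 + abv (w.take x.2) + s) = y)),
      x.1 + abv (w.take x.2) + s = y.2 ∧
        |B.l (y.2) - B.l s - B.l (abv (w.take x.2))| ≤ 1 / 2 := by
    intro x hx
    rw [Finset.mem_filter, Finset.mem_product] at hx
    have h4 : x.1 + abv (w.take x.2) + s = y.2 := congrArg Prod.snd hx.2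
    refine ⟨h4, ?_⟩
    have h5 := hE x.1 hx.1.1
    rw [← h4, map_add, map_add]
    have h6 : B.l x.1 + B.l (abv (w.take x.2)) + B.l s - B.l s - B.l (abv (w.take x.2)) = B.l x.1 := by
      ring
    rw [h6]
    exact h5
  have sep : ∀ x ∈ ((E ×ˢ (Finset.univ : Finset (Fin w.length))).filter
      (fun x => (w[x.2], x.1 + abv (w.take x.2) + s) = y)),
      ∀ x' ∈ ((E ×ˢ (Finset.univ : Finset (Fin w.length))).filter
      (fun x => (w[x.2], x.1 + abv (w.take x.2) + s) = y)), x ≠ x' →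
      B.l (abv (w.take x.2)) + 1 ≤ B.l (abv (w.take x'.2)) ∨
      B.l (abv (w.take x'.2)) + 1 ≤ B.l (abv (w.take x.2)) := by
    intro x hx x' hx' hne
    have h4 := (key x hx).1
    have h5 := (key x' hx').1
    have hne2 : (x.2 : ℕ) ≠ (x'.2 : ℕ) := by
      intro heq
      apply hne
      have h6 : x.2 = x'.2 := Fin.ext heq
      refine Prod.ext ?_ h6
      rw [← h5, h6] at h4
      exact add_right_cancel (add_right_cancel h4)
    rcases lt_or_gt_of_ne hne2 with h | h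
    · left
      have h7 := CoinAux.l_take_le B w x.2 x'.2 h x'.2.2
      have h8 := B.l_ge (w[(x.2 : ℕ)]'(h.trans x'.2.2))
      linarith
    · right
      have h7 := CoinAux.l_take_le B w x'.2 x.2 h x.2.2
      have h8 := B.l_ge (w[(x'.2 : ℕ)]'(h.trans x.2.2))
      linarith
  have a1 := abs_le.1 (key x1 h1).2
  have a2 := abs_le.1 (key x2 h2).2
  have a3 := abs_le.1 (key x3 h3).2
  have b12 := sep x1 h1 x2 h2 h12
  have b13 := sep x1 h1 x3 h3 h13
  have b23 := sep x2 h2 x3 h3 h23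
  rcases b12 with b12 | b12 <;> rcases b13 with b13 | b13 <;> rcases b23 with b23 | b23 <;>
    linarith [a1.1, a1.2, a2.1, a2.2, a3.1, a3.2]

/-- sum over (kick vector, tile) of a function of (letter, displacement) -/
theorem fib_sum (E : Finset Vec) (hE : ∀ v ∈ E, |B.l v| ≤ 1 / 2) (w : List Ltr) (s : Vec)
    (f : Ltr → Vec → ℝ) (hf : ∀ b v, 0 ≤ f b v) (K : ℝ)
    (hK : ∀ b, ∑ v ∈ (E ×ˢ (Finset.univ : Finset (Fin w.length))).image
      (fun x => x.1 + abv (w.take x.2) + s), f b v ≤ K) :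
    ∑ η ∈ E, ∑ j : Fin w.length, f w[j] (η + abv (w.take j) + s) ≤ 8 * K := by
  classical
  set T := E ×ˢ (Finset.univ : Finset (Fin w.length)) with hT
  set g : Vec × Fin w.length → Ltr × Vec := fun x => (w[x.2], x.1 + abv (w.take x.2) + s) with hg
  set F := T.image (fun x => x.1 + abv (w.take x.2) + s) with hF
  have h1 : ∑ η ∈ E, ∑ j : Fin w.length, f w[j] (η + abv (w.take j) + s) =
      ∑ x ∈ T, (fun y : Ltr × Vec => f y.1 y.2) (g x) := by
    rw [hT, Finset.sum_product]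
  rw [h1, Finset.sum_comp (fun y : Ltr × Vec => f y.1 y.2) g]
  have h2 : ∑ y ∈ T.image g, (T.filter (fun x => g x = y)).card • f y.1 y.2 ≤
      ∑ y ∈ T.image g, 2 * f y.1 y.2 := by
    refine Finset.sum_le_sum fun y _ => ?_
    rw [nsmul_eq_mul]
    have h3 : ((T.filter (fun x => g x = y)).card : ℝ) ≤ 2 := by
      exact_mod_cast fib_card E hE w s y
    exact mul_le_mul_of_nonneg_right h3 (hf _ _)
  refine h2.trans ?_
  have h4 : T.image g ⊆ (Finset.univ : Finset Ltr) ×ˢ F := by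
    intro y hy
    rw [Finset.mem_image] at hy
    obtain ⟨x, hx, rfl⟩ := hy
    rw [Finset.mem_product]
    exact ⟨Finset.mem_univ _, Finset.mem_image.2 ⟨x, hx, rfl⟩⟩
  have h5 : ∑ y ∈ T.image g, 2 * f y.1 y.2 ≤ ∑ y ∈ (Finset.univ : Finset Ltr) ×ˢ F, 2 * f y.1 y.2 :=
    Finset.sum_le_sum_of_subset_of_nonneg h4 fun y _ _ => mul_nonneg zero_le_two (hf _ _)
  refine h5.trans ?_
  rw [Finset.sum_product]
  have h6 : ∑ b : Ltr, ∑ v ∈ F, 2 * f b v ≤ ∑ b : Ltr, 2 * K := by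
    refine Finset.sum_le_sum fun b _ => ?_
    rw [← Finset.mul_sum]
    exact mul_le_mul_of_nonneg_left (hK b) zero_le_two
  refine h6.trans (le_of_eq ?_)
  rw [Finset.sum_const, Finset.card_univ, Fintype.card_fin, nsmul_eq_mul]
  push_cast
  ring

end Kick2Aux

open Kick2Aux

/-- Existence of kicks: if `Q0(m,r0)` is small for all `m`, the kick level of radius `r0` and any large
length `L` destroys coincidences. -/
theorem exists_kick : ∃ C3 : ℝ, 0 < C3 ∧ ∃ r1 : ℝ, 1 ≤ r1 ∧ ∀ r0 : ℝ, r1 ≤ r0 → ∀ ε : ℝ, 0 < ε →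
    (∀ m, C3 * D.Qn (nu0 B) m r0 ≤ ε / 2) →
    ∃ L0 : ℕ, ∀ L, L0 ≤ L → Nonempty (Kick D L r0 ε) := by
  classical
  have hg1 := B.one_le_g
  have hK0 := K0_nonneg B
  obtain ⟨C, hC, hball⟩ := ball_sum_le D (2 * (B.K0 / 3 + 3 * B.K0)) (2 * B.g + 2 * (B.K0 / 3 + 3 * B.K0))
    (by unfold Base.Cc Base.kc; linarith)
  obtain ⟨cK, hcK, rK, hcard⟩ := kick_card B
  refine ⟨8 * C / cK, by positivity, max 1 rK, le_max_left _ _, fun r0 hr0 ε hε hQ => ?_⟩
  have hr1 : 1 ≤ r0 := (le_max_left _ _).trans hr0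
  have hr2 : rK ≤ r0 := (le_max_right _ _).trans hr0
  obtain ⟨F0, hF0, hF0c⟩ := hcard r0 hr2
  obtain ⟨L0, G2, hL0, hzG, hcG, hlev⟩ := exists_kick_level D r0 hr1
  obtain ⟨n, hn⟩ := pow_unbounded_of_one_lt (8 * B.l G2 / ε) B.one_lt_t0
  refine ⟨max L0 n, fun L hL => ?_⟩
  have hL1 : L0 ≤ L := (le_max_left _ _).trans hL
  have hL2 : n ≤ L := (le_max_right _ _).trans hL
  obtain ⟨E, hE, hmem, hpm, hmid, κ, hk, e, hβ, hsub, hcbd, hzbd⟩ := hlev L hL1
  have hEF : E = F0 := by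
    ext v
    rw [hmem, hF0]
  have hEc : cK * r0 ^ 2 ≤ (E.card : ℝ) := by rw [hEF]; exact hF0c
  have hEpos : (0 : ℝ) < E.card := by exact_mod_cast hE.card_pos
  have hlE : ∀ v ∈ E, |B.l v| ≤ 1 / 2 := fun v hv => ((hmem v).1 hv).1
  -- the vectors of the three parts
  have hp : ∀ v ∈ E, ∀ a, 0 ≤ (G2 + v) a := fun v hv a => by
    rw [Pi.add_apply]; exact (hpm v hv a).1
  have hm : ∀ v ∈ E, ∀ a, 0 ≤ (G2 - v) a := fun v hv a => by
    rw [Pi.sub_apply]; exact (hpm v hv a).2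
  have hlG : 0 ≤ B.l G2 := by
    obtain ⟨v, hv⟩ := hE
    have h1 := l_abv_nonneg B (bal (G2 + v))
    have h2 := l_abv_nonneg B (bal (G2 - v))
    rw [bal_abv (hp v hv), map_add] at h1
    rw [bal_abv (hm v hv), map_sub] at h2
    linarith
  have ht : 0 < κ.t := t_pos κ
  have htn : B.t0 ^ n ≤ κ.t := by
    unfold Level.t
    rw [hk]
    apply pow_le_pow_right₀ B.one_lt_t0.le
    calc n ≤ L := hL2
      _ = 1 * L := (one_mul L).symm
      _ ≤ D.N * L := Nat.mul_le_mul_right L D.one_le_N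
  have htG : 8 * B.l G2 / ε ≤ κ.t := hn.le.trans htn
  refine ⟨⟨κ, hk, hL0.trans hL1, hcbd, hzbd, fun m a => ?_⟩⟩
  -- nonnegativity of the localised total
  have hQ0 : 0 ≤ D.Qn (nu0 B) m r0 := by
    have h1 := hball r0 hr1 m 0 0 ∅ (by simp)
    rw [Finset.sum_empty] at h1
    by_contra hneg
    push Not at hneg
    have h2 : 0 < C * r0 ^ 2 := by positivity
    nlinarith
  set U : Vec := (B.P ^ (D.N * L)).mulVec (ev a) - 2 • G2 with hU
  have hUn : ∀ b, 0 ≤ U b := hmid a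
  set w := bal U with hw
  have hlU : B.l U = κ.t * B.l (ev a) - 2 * B.l G2 := by
    rw [hU, map_sub, l_Mpow, map_nsmul, nsmul_eq_mul]
    unfold Level.t
    rw [hk]
    push_cast
    ring
  have hlen : (w.length : ℝ) ≤ κ.t * B.l (ev a) := by
    have h1 := length_le B w
    rw [hw, bal_abv hUn, hlU] at h1
    rw [hw]
    linarith
  -- prefixes of the middle word
  have hzU : ‖B.z U‖ ≤ B.K0 / 3 + 2 * B.K0 := by
    rw [hU, map_sub, map_nsmul, two_smul]
    have h1 := z_Pev_le B (D.N * L) a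
    calc ‖B.z ((B.P ^ (D.N * L)).mulVec (ev a)) - (B.z G2 + B.z G2)‖
        ≤ ‖B.z ((B.P ^ (D.N * L)).mulVec (ev a))‖ + ‖B.z G2 + B.z G2‖ := norm_sub_le _ _
      _ ≤ ‖B.z ((B.P ^ (D.N * L)).mulVec (ev a))‖ + (‖B.z G2‖ + ‖B.z G2‖) :=
          add_le_add le_rfl (norm_add_le _ _)
      _ ≤ _ := by linarith
  have hcU : |B.c U| ≤ B.K0 / 3 + 2 * B.K0 := by
    rw [hU, map_sub, map_nsmul, two_smul]
    have h1 := c_Pev_le B (D.N * L) a
    calc |B.c ((B.P ^ (D.N * L)).mulVec (ev a)) - (B.c G2 + B.c G2)|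
        ≤ |B.c ((B.P ^ (D.N * L)).mulVec (ev a))| + |B.c G2 + B.c G2| := abs_sub _ _
      _ ≤ |B.c ((B.P ^ (D.N * L)).mulVec (ev a))| + (|B.c G2| + |B.c G2|) :=
          add_le_add le_rfl (abs_add_le _ _)
      _ ≤ _ := by linarith
  have hpre : ∀ i : Fin w.length, ‖B.z (abv (w.take i))‖ ≤ B.K0 / 3 + 3 * B.K0 ∧
      |B.c (abv (w.take i))| ≤ B.K0 / 3 + 3 * B.K0 := by
    intro i
    have hx : (w[i], (0 : Vec) + abv (w.take i)) ∈ tiles (bal U) 0 := by
      rw [mem_tiles]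
      exact ⟨i, i.2, rfl⟩
    have h1 := bal_z B hUn _ hx
    have h2 := bal_c B hUn _ hx
    simp only [zero_add] at h1 h2
    constructor <;> linarith
  -- the bound for fixed `η` and fixed tile `i`
  have hfib : ∀ η ∈ E, ∀ i : Fin w.length, ∑ η' ∈ E, ∑ j : Fin w.length,
      D.S.H m (w[i], w[j], η' + abv (w.take j) + (-(η + abv (w.take i)))) ≤
        8 * (C * r0 ^ 2 * D.Qn (nu0 B) m r0) := by
    intro η hη i
    refine fib_sum E hlE w (-(η + abv (w.take i))) (fun b v => D.S.H m (w[i], b, v))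
      (fun b v => H_nonneg D m _) _ (fun b => hball r0 hr1 m _ b _ ?_)
    intro v hv
    rw [Finset.mem_image] at hv
    obtain ⟨x, hx, rfl⟩ := hv
    rw [Finset.mem_product] at hx
    have g1 := (hmem x.1).1 hx.1
    have g2 := (hmem η).1 hη
    have g3 := hpre x.2
    have g4 := hpre i
    constructor
    · rw [map_add, map_add, map_neg, map_add]
      have q1 := norm_add_le (B.z x.1 + B.z (abv (w.take x.2))) (-(B.z η + B.z (abv (w.take i))))
      have q2 := norm_add_le (B.z x.1) (B.z (abv (w.take x.2)))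
      have q3 := norm_add_le (B.z η) (B.z (abv (w.take i)))
      rw [norm_neg] at q1
      linarith [g1.2.1, g2.2.1, g3.1, g4.1]
    · rw [map_add, map_add, map_neg, map_add]
      have q1 := abs_add_le (B.c x.1 + B.c (abv (w.take x.2))) (-(B.c η + B.c (abv (w.take i))))
      have q2 := abs_add_le (B.c x.1) (B.c (abv (w.take x.2)))
      have q3 := abs_add_le (B.c η) (B.c (abv (w.take i)))
      rw [abs_neg] at q1
      linarith [g1.2.2, g2.2.2, g3.2, g4.2]
  -- the middle-middle sum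
  have hmm : ∀ η η' : Vec, SS (D.S.H m) (tiles w (G2 + η)) (tiles w (G2 + η')) =
      ∑ i : Fin w.length, ∑ j : Fin w.length,
        D.S.H m (w[i], w[j], η' + abv (w.take j) + (-(η + abv (w.take i)))) := by
    intro η η'
    unfold SS
    rw [tiles_sum]
    refine Finset.sum_congr rfl fun i _ => ?_
    rw [tiles_sum]
    refine Finset.sum_congr rfl fun j _ => ?_
    have h1 : (G2 + η' + abv (w.take j)) - (G2 + η + abv (w.take i)) =
        η' + abv (w.take j) + (-(η + abv (w.take i))) := by abel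
    simp only
    rw [h1]
  have hmmS : ∑ η ∈ E, ∑ η' ∈ E, SS (D.S.H m) (tiles w (G2 + η)) (tiles w (G2 + η')) ≤
      E.card * (w.length * (8 * (C * r0 ^ 2 * D.Qn (nu0 B) m r0))) := by
    have h1 : ∀ η ∈ E, ∑ η' ∈ E, SS (D.S.H m) (tiles w (G2 + η)) (tiles w (G2 + η')) ≤
        w.length * (8 * (C * r0 ^ 2 * D.Qn (nu0 B) m r0)) := by
      intro η hη
      simp only [hmm]
      rw [Finset.sum_comm]
      have h2 := Finset.sum_le_sum (s := (Finset.univ : Finset (Fin w.length)))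
        (fun i _ => hfib η hη i)
      refine h2.trans (le_of_eq ?_)
      rw [Finset.sum_const, Finset.card_univ, Fintype.card_fin, nsmul_eq_mul]
    have h3 := Finset.sum_le_sum h1
    refine h3.trans (le_of_eq ?_)
    rw [Finset.sum_const, nsmul_eq_mul]
  -- all pairs
  have hall : ∀ η ∈ E, ∀ η' ∈ E,
      SS (D.S.H m) (tiles (bal (G2 + η) ++ w ++ bal (G2 - η)) 0)
        (tiles (bal (G2 + η') ++ w ++ bal (G2 - η')) 0) ≤
      4 * B.l G2 + SS (D.S.H m) (tiles w (G2 + η)) (tiles w (G2 + η')) := by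
    intro η hη η' hη'
    have e1 : tiles (bal (G2 + η) ++ w ++ bal (G2 - η)) 0 = tiles (bal (G2 + η)) 0 ++
        tiles w (G2 + η) ++ tiles (bal (G2 - η)) (0 + abv (bal (G2 + η) ++ w)) := by
      rw [tiles_append, tiles_append, zero_add, bal_abv (hp η hη)]
    have e2 : tiles (bal (G2 + η') ++ w ++ bal (G2 - η')) 0 = tiles (bal (G2 + η')) 0 ++
        tiles w (G2 + η') ++ tiles (bal (G2 - η')) (0 + abv (bal (G2 + η') ++ w)) := by
      rw [tiles_append, tiles_append, zero_add, bal_abv (hp η' hη')]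
    have b1 := SS_le_left D m (bal (G2 + η)) (bal (G2 + η') ++ w ++ bal (G2 - η')) 0 0
    have b3 := SS_le_left D m (bal (G2 - η)) (bal (G2 + η') ++ w ++ bal (G2 - η'))
      (0 + abv (bal (G2 + η) ++ w)) 0
    have b4 := SS_le_right D m w (bal (G2 + η')) (G2 + η) 0
    have b5 := SS_le_right D m w (bal (G2 - η')) (G2 + η) (0 + abv (bal (G2 + η') ++ w))
    rw [bal_abv (hp η hη), map_add] at b1
    rw [bal_abv (hm η hη), map_sub] at b3
    rw [bal_abv (hp η' hη'), map_add] at b4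
    rw [bal_abv (hm η' hη'), map_sub] at b5
    rw [e1, SS_append_left, SS_append_left]
    have e3 : SS (D.S.H m) (tiles w (G2 + η)) (tiles (bal (G2 + η') ++ w ++ bal (G2 - η')) 0) =
        SS (D.S.H m) (tiles w (G2 + η)) (tiles (bal (G2 + η')) 0) +
        SS (D.S.H m) (tiles w (G2 + η)) (tiles w (G2 + η')) +
        SS (D.S.H m) (tiles w (G2 + η)) (tiles (bal (G2 - η')) (0 + abv (bal (G2 + η') ++ w))) := by
      rw [e2, SS_append_right, SS_append_right]
    rw [e3]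
    linarith
  -- the operator
  have hop : κ.op (D.S.H m) (a, a, 0) = (κ.t)⁻¹ * ((E.card : ℝ)⁻¹ * (E.card : ℝ)⁻¹ *
      ∑ η ∈ E, ∑ η' ∈ E, SS (D.S.H m) (tiles (bal (G2 + η) ++ w ++ bal (G2 - η)) 0)
        (tiles (bal (G2 + η') ++ w ++ bal (G2 - η')) 0)) := by
    unfold Level.op
    congr 1
    have h1 : ∀ x x' : κ.E, κ.β x * κ.β x' * ((tiles (κ.sub x a) 0).map (fun X =>
        ((tiles (κ.sub x' a) 0).map (fun Y => D.S.H m (child κ.M (a, a, 0) X Y))).sum)).sum =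
        (E.card : ℝ)⁻¹ * (E.card : ℝ)⁻¹ *
          SS (D.S.H m) (tiles (bal (G2 + (e x : Vec)) ++ w ++ bal (G2 - (e x : Vec))) 0)
        (tiles (bal (G2 + (e x' : Vec)) ++ w ++ bal (G2 - (e x' : Vec))) 0) := by
      intro x x'
      rw [hβ, hβ, hsub, hsub]
      unfold SS child
      simp only [Matrix.mulVec_zero, zero_add]
      rfl
    simp only [h1]
    rw [Finset.mul_sum]
    have h2 : ∀ x : κ.E, ∑ x' : κ.E, (E.card : ℝ)⁻¹ * (E.card : ℝ)⁻¹ *
          SS (D.S.H m) (tiles (bal (G2 + (e x : Vec)) ++ w ++ bal (G2 - (e x : Vec))) 0)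
        (tiles (bal (G2 + (e x' : Vec)) ++ w ++ bal (G2 - (e x' : Vec))) 0) =
        (E.card : ℝ)⁻¹ * (E.card : ℝ)⁻¹ * ∑ η' ∈ E,
          SS (D.S.H m) (tiles (bal (G2 + (e x : Vec)) ++ w ++ bal (G2 - (e x : Vec))) 0)
        (tiles (bal (G2 + η') ++ w ++ bal (G2 - η')) 0) := by
      intro x
      rw [← Finset.mul_sum]
      congr 1
      rw [← Finset.sum_coe_sort E (fun η' : Vec =>
        SS (D.S.H m) (tiles (bal (G2 + (e x : Vec)) ++ w ++ bal (G2 - (e x : Vec))) 0)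
        (tiles (bal (G2 + η') ++ w ++ bal (G2 - η')) 0))]
      exact Equiv.sum_comp e (fun y : {v // v ∈ E} =>
        SS (D.S.H m) (tiles (bal (G2 + (e x : Vec)) ++ w ++ bal (G2 - (e x : Vec))) 0)
        (tiles (bal (G2 + (y : Vec)) ++ w ++ bal (G2 - (y : Vec))) 0))
    simp only [h2]
    rw [← Finset.sum_coe_sort E (fun η : Vec => (E.card : ℝ)⁻¹ * (E.card : ℝ)⁻¹ * ∑ η' ∈ E,
          SS (D.S.H m) (tiles (bal (G2 + η) ++ w ++ bal (G2 - η)) 0)
        (tiles (bal (G2 + η') ++ w ++ bal (G2 - η')) 0))]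
    exact Equiv.sum_comp e (fun y : {v // v ∈ E} => (E.card : ℝ)⁻¹ * (E.card : ℝ)⁻¹ * ∑ η' ∈ E,
          SS (D.S.H m) (tiles (bal (G2 + (y : Vec)) ++ w ++ bal (G2 - (y : Vec))) 0)
        (tiles (bal (G2 + η') ++ w ++ bal (G2 - η')) 0))
  -- conclusion
  have hsum : ∑ η ∈ E, ∑ η' ∈ E, SS (D.S.H m) (tiles (bal (G2 + η) ++ w ++ bal (G2 - η)) 0)
        (tiles (bal (G2 + η') ++ w ++ bal (G2 - η')) 0) ≤
      E.card * (E.card * (4 * B.l G2)) +
        E.card * (w.length * (8 * (C * r0 ^ 2 * D.Qn (nu0 B) m r0))) := by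
    have h1 := Finset.sum_le_sum fun η hη => Finset.sum_le_sum fun η' hη' => hall η hη η' hη'
    refine h1.trans ?_
    have h2 : ∑ η ∈ E, ∑ η' ∈ E, (4 * B.l G2 + SS (D.S.H m) (tiles w (G2 + η)) (tiles w (G2 + η'))) =
        E.card * (E.card * (4 * B.l G2)) +
        ∑ η ∈ E, ∑ η' ∈ E, SS (D.S.H m) (tiles w (G2 + η)) (tiles w (G2 + η')) := by
      simp only [Finset.sum_add_distrib, Finset.sum_const, nsmul_eq_mul]
    rw [h2]
    linarith
  have hla := B.l_ge a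
  have hQm := hQ m
  rw [hop]
  have hst : (κ.t)⁻¹ * ((E.card : ℝ)⁻¹ * (E.card : ℝ)⁻¹ *
      (E.card * (E.card * (4 * B.l G2)) +
        E.card * (w.length * (8 * (C * r0 ^ 2 * D.Qn (nu0 B) m r0))))) =
      (κ.t)⁻¹ * (4 * B.l G2) +
        (κ.t)⁻¹ * w.length * (8 * (C * (r0 ^ 2 * (E.card : ℝ)⁻¹) * D.Qn (nu0 B) m r0)) := by
    field_simp
  have hmul := mul_le_mul_of_nonneg_left
    (mul_le_mul_of_nonneg_left hsum (by positivity : (0 : ℝ) ≤ (E.card : ℝ)⁻¹ * (E.card : ℝ)⁻¹))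
    (inv_nonneg.2 ht.le)
  rw [hst] at hmul
  refine hmul.trans ?_
  have t1 : (κ.t)⁻¹ * (4 * B.l G2) ≤ ε / 2 := by
    rw [div_le_iff₀ hε] at htG
    rw [inv_mul_le_iff₀ ht]
    linarith
  have t2 : (κ.t)⁻¹ * w.length ≤ B.l (ev a) := by
    rw [inv_mul_le_iff₀ ht]
    exact hlen
  have t3 : r0 ^ 2 * (E.card : ℝ)⁻¹ ≤ cK⁻¹ := by
    rw [mul_inv_le_iff₀ hEpos, inv_mul_eq_div, le_div_iff₀ hcK]
    linarith
  have t4 : 8 * (C * (r0 ^ 2 * (E.card : ℝ)⁻¹) * D.Qn (nu0 B) m r0) ≤ ε / 2 := by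
    refine le_trans ?_ hQm
    have h1 : 8 * C / cK * D.Qn (nu0 B) m r0 = 8 * (C * cK⁻¹ * D.Qn (nu0 B) m r0) := by
      field_simp
    rw [h1]
    have h2 := mul_le_mul_of_nonneg_left t3 hC.le
    have h3 := mul_le_mul_of_nonneg_right h2 hQ0
    linarith
  have t5 : 0 ≤ 8 * (C * (r0 ^ 2 * (E.card : ℝ)⁻¹) * D.Qn (nu0 B) m r0) := by positivity
  have t6 : (κ.t)⁻¹ * w.length * (8 * (C * (r0 ^ 2 * (E.card : ℝ)⁻¹) * D.Qn (nu0 B) m r0)) ≤
      B.l (ev a) * (ε / 2) :=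
    mul_le_mul t2 t4 t5 (by linarith)
  have t7 : ε / 2 ≤ ε / 2 * B.l (ev a) := by nlinarith
  linarith

end Pool.Agent.RS69
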