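import Pool.Agent.RS69.Defs

/-!
# RS69.Psd : positive definiteness of the Gram form (section 2), from `SRig/Psd.lean`

`QF B ζ D J ν = ∑_a l_a ∑_{i,j of letter a} w_i w_j KD ζ D (pos_i - pos_j) J (zp_i - zp_j)`; for each `a`
apply the positive semidefiniteness to `x_i = w_i 1{lt i = a}`.
-/

set_option autoImplicit false

namespace Pool.Agent.RS69

open scoped BigOperators

/-- from kernels to the Gram form -/
theorem QF_nonneg_of_PSD (B : Base) (ν : Arr) {K : ℝ → ℂ → ℝ}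
    (h : SRig.PSD fun p q : ℝ × ℂ => K (p.1 - q.1) (p.2 - q.2)) :
    0 ≤ ∑ i, ∑ j, if ν.lt i = ν.lt j then
      B.l (ev (ν.lt i)) * (ν.w i * ν.w j * K (ν.pos i - ν.pos j) (ν.zp i - ν.zp j)) else 0 := by
  classical
  have key : ∀ i j : ν.ι, (if ν.lt i = ν.lt j then
      B.l (ev (ν.lt i)) * (ν.w i * ν.w j * K (ν.pos i - ν.pos j) (ν.zp i - ν.zp j)) else 0) =
      ∑ a : Ltr, B.l (ev a) * ((if ν.lt i = a then ν.w i else 0) * (if ν.lt j = a then ν.w j else 0)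
        * K (ν.pos i - ν.pos j) (ν.zp i - ν.zp j)) := by
    intro i j
    rw [Finset.sum_eq_single (ν.lt i)]
    · rw [if_pos rfl]
      by_cases hij : ν.lt i = ν.lt j
      · rw [if_pos hij, if_pos hij.symm]
      · rw [if_neg hij, if_neg (fun h' => hij h'.symm)]
        ring
    · intro a _ ha
      rw [if_neg (fun h' => ha h'.symm)]
      ring
    · intro h'
      exact absurd (Finset.mem_univ _) h'
  have e : (∑ i, ∑ j, if ν.lt i = ν.lt j then
      B.l (ev (ν.lt i)) * (ν.w i * ν.w j * K (ν.pos i - ν.pos j) (ν.zp i - ν.zp j)) else 0) =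
      ∑ a : Ltr, B.l (ev a) * ∑ i, ∑ j, (if ν.lt i = a then ν.w i else 0) *
        (if ν.lt j = a then ν.w j else 0) * K (ν.pos i - ν.pos j) (ν.zp i - ν.zp j) := by
    simp only [key, Finset.mul_sum]
    rw [Finset.sum_congr rfl (fun i _ => Finset.sum_comm)]
    rw [Finset.sum_comm]
  rw [e]
  refine Finset.sum_nonneg fun a _ => mul_nonneg (by linarith [B.l_ge a]) ?_
  exact h.2 ν.ι (fun i => (ν.pos i, ν.zp i)) (fun i => if ν.lt i = a then ν.w i else 0)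

/-- difference of two Gram forms -/
theorem QF_sub (B : Base) (ν : Arr) (ζ D D' : ℝ) (J J' : ℂ → ℝ) :
    QF B ζ D J ν - QF B ζ D' J' ν = ∑ i, ∑ j, if ν.lt i = ν.lt j then
      B.l (ev (ν.lt i)) * (ν.w i * ν.w j * (fun (x : ℝ) (s : ℂ) => KD ζ D x * J s - KD ζ D' x * J' s)
        (ν.pos i - ν.pos j) (ν.zp i - ν.zp j)) else 0 := by
  unfold QF
  rw [← Finset.sum_sub_distrib]
  refine Finset.sum_congr rfl fun i _ => ?_
  rw [← Finset.sum_sub_distrib]
  refine Finset.sum_congr rfl fun j _ => ?_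
  split_ifs
  · ring
  · ring

/-- MONO, flat case -/
theorem QF_mono_flat (B : Base) (ν : Arr) {ζ D D' : ℝ} (hD : 0 ≤ D') (h : D' ≤ D) :
    QF B ζ D' Jone ν ≤ QF B ζ D Jone ν := by
  rw [← sub_nonneg, QF_sub]
  refine QF_nonneg_of_PSD B ν (K := fun x s => KD ζ D x * Jone s - KD ζ D' x * Jone s) ?_
  have h1 := SRig.PSD_K_sub ζ hD h
  simpa only [KD, Jone, mul_one] using h1

/-- MONO, localised case -/
theorem QF_mono_loc (B : Base) (ν : Arr) {ζ D D' r ρ : ℝ} (hD : 0 ≤ D') (h : D' ≤ D)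
    (hr : 0 < r) (hρ : r ≤ ρ) : QF B ζ D' (Jr ρ) ν ≤ QF B ζ D (Jr r) ν := by
  rw [← sub_nonneg, QF_sub]
  refine QF_nonneg_of_PSD B ν (K := fun x s => KD ζ D x * Jr r s - KD ζ D' x * Jr ρ s) ?_
  exact SRig.PSD_KJ_sub ζ hD h hr hρ

/-- MONO in `D` for the modulated kernel is not needed; 2.2, modulated form; `R ≥ r + 2 |s0| / d` -/
theorem QF_mod (B : Base) {r d R : ℝ} (hr : 0 < r) (hd : 0 < d) (s0 : ℂ) (hR : r + 2 * ‖s0‖ / d ≤ R)
    (ν : Arr) {ζ D : ℝ} (hD : 0 ≤ D) :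
    2 * QF B ζ D (Jr R) ν ≤ QF B ζ D (fun s => (Jr r (s - s0) + Jr r (s + s0)) / 2) ν
      + (1 + d) * QF B ζ D (Jr r) ν := by
  have h1 : SRig.PSD fun p q : ℝ × ℂ => (fun (x : ℝ) (s : ℂ) => KD ζ D x *
      ((Jr r (s - s0) + Jr r (s + s0)) / 2 + (1 + d) * Jr r s - 2 * Jr R s))
        (p.1 - q.1) (p.2 - q.2) := by
    have h2 := ((SRig.PSD_Kd hD).comp fun p : ℝ × ℂ => ζ * p.1).mul
      ((SRig.PSD_shift s0 hd hr hR).comp fun p : ℝ × ℂ => p.2)
    simpa only [KD, Jr, mul_sub] using h2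
  have h3 := QF_nonneg_of_PSD B ν (K := fun (x : ℝ) (s : ℂ) => KD ζ D x *
      ((Jr r (s - s0) + Jr r (s + s0)) / 2 + (1 + d) * Jr r s - 2 * Jr R s)) h1
  have h4 : QF B ζ D (fun s => (Jr r (s - s0) + Jr r (s + s0)) / 2) ν
      + (1 + d) * QF B ζ D (Jr r) ν - 2 * QF B ζ D (Jr R) ν =
      ∑ i, ∑ j, if ν.lt i = ν.lt j then
      B.l (ev (ν.lt i)) * (ν.w i * ν.w j * (fun (x : ℝ) (s : ℂ) => KD ζ D x *
      ((Jr r (s - s0) + Jr r (s + s0)) / 2 + (1 + d) * Jr r s - 2 * Jr R s))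
        (ν.pos i - ν.pos j) (ν.zp i - ν.zp j)) else 0 := by
    unfold QF
    rw [Finset.mul_sum, Finset.mul_sum, ← Finset.sum_add_distrib, ← Finset.sum_sub_distrib]
    refine Finset.sum_congr rfl fun i _ => ?_
    rw [Finset.mul_sum, Finset.mul_sum, ← Finset.sum_add_distrib, ← Finset.sum_sub_distrib]
    refine Finset.sum_congr rfl fun j _ => ?_
    split_ifs
    · ring
    · ring
  linarith

end Pool.Agent.RS69
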