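import Pool.Agent.RS69.KReg1
import Pool.Agent.RS69.Psd
import Pool.Agent.RS69.Tr3

/-!
# RS69.Main1 : splitting of the total, monotonicity (section 6, first part)
-/

set_option autoImplicit false

namespace Pool.Agent.RS69

open scoped Classical

variable {B : Base} {D : Design B} {L : ℕ} {r0 ε : ℝ}

private theorem Bdd_H' (D : Design B) (n : ℕ) : ∃ R, Bdd B R (D.S.H n) := by
  obtain ⟨R, hR⟩ := Bdd_iter D.S n (Bdd_H0 D)
  refine ⟨R, ?_⟩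
  rwa [op_iter_H D n 0, zero_add] at hR

private theorem Bdd_Km' (K : Kick D L r0 ε) (m : ℕ) : ∃ R, Bdd B R (Km K m) := by
  obtain ⟨R, hR⟩ := Bdd_H' D m
  exact Bdd_op K.κ hR

private theorem Bf_le_of_le (D : Design B) {J : ℂ → ℝ} (hJ : ∀ s, 0 ≤ J s) (ν : Arr) {R1 R2 : ℝ}
    {F G : St → ℝ} (hF : Bdd B R1 F) (hG : Bdd B R2 G) (h : ∀ O, F O ≤ G O) :
    Bf B D.ζ0 1 J ν F ≤ Bf B D.ζ0 1 J ν G := by
  have h1 := Bf_sub B (ζ0_pos D) one_pos J ν (Bdd_mono (le_max_right R1 R2) hG)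
    (Bdd_mono (le_max_left R1 R2) hF)
  have h2 : 0 ≤ Bf B D.ζ0 1 J ν (fun O => G O - F O) :=
    Bf_nonneg B zero_le_one hJ ν fun O => sub_nonneg.2 (h O)
  linarith

private theorem Jone_nonneg (s : ℂ) : 0 ≤ Jone s := zero_le_one

/-- pointwise form of the splitting at time `0` -/
private theorem split_point (K : Kick D L r0 ε) (m : ℕ) (O : St) :
    (1 - ε) * D.S.H 0 O + Km K m O ≤ D.S.H (m + L) O + am K m O := by
  by_cases hO : Coin O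
  · have h1 := H_coin D 0 O hO
    have h2 := H_coin D (m + L) O hO
    have h3 : am K m O = 0 := if_pos hO
    obtain ⟨a, b, v⟩ := O
    obtain ⟨h4, h5⟩ := hO
    simp only at h4 h5
    subst h4 h5
    have h6 := K.coin m a
    have h7 : Km K m (a, a, 0) ≤ ε * B.l (ev a) := h6
    rw [h1, h2, h3]
    simp only
    linarith
  · have h1 : D.S.H 0 O = 0 := if_neg hO
    have h3 : am K m O = |Km K m O - D.S.H (m + L) O| := if_neg hO
    rw [h1, h3]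
    have h4 := le_abs_self (Km K m O - D.S.H (m + L) O)
    linarith

/-- splitting of the natural total at time `n` (any kernel): coincident states carry `≤ ε`-fraction
(`Kick.coin`), the others are compared with `am` -/
theorem split_total (K : Kick D L r0 ε) (hε : 0 ≤ ε) {J : ℂ → ℝ} (hJ : ∀ s, 0 ≤ J s) (ν : Arr) (n m : ℕ) :
    (1 - ε) * Bf B D.ζ0 1 J ν (D.S.H n) + Bf B D.ζ0 1 J ν (D.S.op^[n] (Km K m)) ≤
      Bf B D.ζ0 1 J ν (D.S.H (n + L + m)) + Bf B D.ζ0 1 J ν (D.S.op^[n] (am K m)) := by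
  obtain ⟨R1, h1⟩ := Bdd_H' D 0
  obtain ⟨R2, h2⟩ := Bdd_Km' K m
  obtain ⟨R3, h3⟩ := Bdd_H' D (m + L)
  obtain ⟨R4, h4⟩ := Bdd_am K m
  have e1 : D.S.H n = D.S.op^[n] (D.S.H 0) := by rw [op_iter_H D n 0, zero_add]
  have e2 : D.S.H (n + L + m) = D.S.op^[n] (D.S.H (m + L)) := by
    rw [op_iter_H D n (m + L)]
    congr 1
    omega
  obtain ⟨R1', h1'⟩ := Bdd_iter D.S n h1
  obtain ⟨R2', h2'⟩ := Bdd_iter D.S n h2
  obtain ⟨R3', h3'⟩ := Bdd_iter D.S n h3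
  obtain ⟨R4', h4'⟩ := Bdd_iter D.S n h4
  rw [e1, e2, ← Bf_smul]
  set R := max (max R1' R2') (max R3' R4') with hR
  have g1 : Bdd B R (fun O => (1 - ε) * (D.S.op^[n] (D.S.H 0)) O) := by
    intro O hO
    refine Bdd_mono ?_ h1' O (right_ne_zero_of_mul hO)
    exact (le_max_left _ _).trans (le_max_left _ _)
  have g2 : Bdd B R (D.S.op^[n] (Km K m)) :=
    Bdd_mono ((le_max_right _ _).trans (le_max_left _ _)) h2'
  have g3 : Bdd B R (D.S.op^[n] (D.S.H (m + L))) :=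
    Bdd_mono ((le_max_left _ _).trans (le_max_right _ _)) h3'
  have g4 : Bdd B R (D.S.op^[n] (am K m)) :=
    Bdd_mono ((le_max_right _ _).trans (le_max_right _ _)) h4'
  rw [← Bf_add B (ζ0_pos D) one_pos J ν g1 g2, ← Bf_add B (ζ0_pos D) one_pos J ν g3 g4]
  have add_bdd : ∀ {F G : St → ℝ}, Bdd B R F → Bdd B R G → Bdd B R (fun O => F O + G O) := by
    intro F G hF hG O hO
    by_cases h : F O = 0
    · refine hG O fun h' => hO ?_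
      simp only [h, h', add_zero]
    · exact hF O h
  refine Bf_le_of_le D hJ ν (add_bdd g1 g2) (add_bdd g3 g4) fun O => ?_
  rw [← iter_smul D.S n (1 - ε) (D.S.H 0) O, ← iter_add D.S n, ← iter_add D.S n]
  exact iter_mono D.S n (split_point K m) O

/-- monotonicity in `n` -/
theorem cn_mono (D : Design B) (ν : Arr) {m n : ℕ} (h : m ≤ n) : D.cn ν m ≤ D.cn ν n := by
  obtain ⟨R1, h1⟩ := Bdd_H' D m
  obtain ⟨R2, h2⟩ := Bdd_H' D n
  exact Bf_le_of_le D Jone_nonneg ν h1 h2 (H_mono D h)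

theorem Qn_mono (D : Design B) (ν : Arr) {m n : ℕ} (h : m ≤ n) (r : ℝ) :
    D.Qn ν m r ≤ D.Qn ν n r := by
  obtain ⟨R1, h1⟩ := Bdd_H' D m
  obtain ⟨R2, h2⟩ := Bdd_H' D n
  exact Bf_le_of_le D (Jr_nonneg r) ν h1 h2 (H_mono D h)

private theorem norm_Dw_pow (D : Design B) (m : ℕ) : ‖D.w ^ m‖ = 1 := by
  unfold Design.w
  rw [norm_pow, norm_pow, B.norm_w0, one_pow, one_pow]

private theorem mono_flat' (D : Design B) (ν : Arr) (m : ℕ) {Λ Λ' : ℝ} (h0 : 0 < Λ') (h : Λ' ≤ Λ) :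
    Bf B D.ζ0 Λ' Jone ν (D.S.H m) ≤ Bf B D.ζ0 Λ Jone ν (D.S.H m) := by
  have ht : 0 < D.t ^ m := pow_pos (pow_pos (by linarith [B.one_lt_t0]) _) m
  rw [Bf_H D (ζ0_pos D) h0, Bf_H D (ζ0_pos D) (h0.trans_le h), Jone_rot]
  exact QF_mono_flat B _ (mul_pos h0 ht).le (mul_le_mul_of_nonneg_right h ht.le)

private theorem mono_loc' (D : Design B) (ν : Arr) (m : ℕ) {Λ Λ' r ρ : ℝ} (h0 : 0 < Λ') (h : Λ' ≤ Λ)
    (hr : 0 < r) (hρ : r ≤ ρ) :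
    Bf B D.ζ0 Λ' (Jr ρ) ν (D.S.H m) ≤ Bf B D.ζ0 Λ (Jr r) ν (D.S.H m) := by
  have ht : 0 < D.t ^ m := pow_pos (pow_pos (by linarith [B.one_lt_t0]) _) m
  rw [Bf_H D (ζ0_pos D) h0, Bf_H D (ζ0_pos D) (h0.trans_le h)]
  have hw : ‖D.w ^ m‖ = 1 := norm_Dw_pow D m
  rw [Jr_rot hw, Jr_rot hw]
  exact QF_mono_loc B _ (mul_pos h0 ht).le (mul_le_mul_of_nonneg_right h ht.le) hr hρ

/-- `Q` decreases with the radius (`Bf_H`, `QF_mono_loc`) -/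
theorem Qn_anti (D : Design B) (ν : Arr) (n : ℕ) {r ρ : ℝ} (hr : 0 < r) (h : r ≤ ρ) :
    D.Qn ν n ρ ≤ D.Qn ν n r := by
  exact mono_loc' D ν n one_pos le_rfl hr h

/-- MONO in `D` -/
theorem Bf_H_mono_flat (D : Design B) (ν : Arr) (m : ℕ) {Λ Λ' : ℝ} (h0 : 0 < Λ') (h : Λ' ≤ Λ) :
    Bf B D.ζ0 Λ' Jone ν (D.S.H m) ≤ Bf B D.ζ0 Λ Jone ν (D.S.H m) := by
  exact mono_flat' D ν m h0 h

theorem Bf_H_mono_loc (D : Design B) (ν : Arr) (m : ℕ) {Λ Λ' r ρ : ℝ} (h0 : 0 < Λ') (h : Λ' ≤ Λ)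
    (hr : 0 < r) (hρ : r ≤ ρ) :
    Bf B D.ζ0 Λ' (Jr ρ) ν (D.S.H m) ≤ Bf B D.ζ0 Λ (Jr r) ν (D.S.H m) := by
  exact mono_loc' D ν m h0 h hr hρ

private theorem one_le_t (τ : Level B) : 1 ≤ τ.t := one_le_pow₀ B.one_lt_t0.le

private theorem one_le_tt (K : Kick D L r0 ε) (n : ℕ) : 1 ≤ 1 * D.S.t ^ n * K.κ.t := by
  rw [one_mul]
  exact one_le_mul_of_one_le_of_one_le (one_le_pow₀ (one_le_t D.S)) (one_le_t K.κ)

/-- positive definiteness, flat: kicked total dominates a flat total of the pushed array -/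
theorem total_flat (K : Kick D L r0 ε) (ν : Arr) (n m : ℕ) :
    D.cn (push K.κ ((push D.S)^[n] ν)) m ≤ Bf B D.ζ0 1 Jone ν (D.S.op^[n] (Km K m)) := by
  obtain ⟨R1, h1⟩ := Bdd_H' D m
  obtain ⟨R2, h2⟩ := Bdd_Km' K m
  have ht : 0 < 1 * D.S.t ^ n := by
    rw [one_mul]
    exact pow_pos (t_pos D.S) n
  rw [Bf_iter D.S n (ζ0_pos D) one_pos Jone ν h2, Jone_rot]
  unfold Km
  rw [Bf_op K.κ (ζ0_pos D) ht Jone _ h1, Jone_rot]
  exact Bf_H_mono_flat D _ m one_pos (one_le_tt K n)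

/-- the same, localised -/
theorem total_loc0 (K : Kick D L r0 ε) (ν : Arr) (n m : ℕ) {r ρ : ℝ} (hr : 0 < r) (hρ : r ≤ ρ) :
    D.Qn (push K.κ ((push D.S)^[n] ν)) m ρ ≤ Bf B D.ζ0 1 (Jr r) ν (D.S.op^[n] (Km K m)) := by
  obtain ⟨R1, h1⟩ := Bdd_H' D m
  obtain ⟨R2, h2⟩ := Bdd_Km' K m
  have ht : 0 < 1 * D.S.t ^ n := by
    rw [one_mul]
    exact pow_pos (t_pos D.S) n
  have hw : ‖D.S.w ^ n‖ = 1 := by rw [norm_pow, norm_w, one_pow]
  rw [Bf_iter D.S n (ζ0_pos D) one_pos (Jr r) ν h2, Jr_rot hw]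
  unfold Km
  rw [Bf_op K.κ (ζ0_pos D) ht (Jr r) _ h1, Jr_rot (norm_w K.κ)]
  exact Bf_H_mono_loc D _ m one_pos (one_le_tt K n) hr hρ

end Pool.Agent.RS69
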