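import Pool.Agent.RS69.Tr3

/-!
# RS69.Mass1 : lattice sums, mass bounds (`box_card`; `∑_i w_i = ∑ f_a`, `KD ≤ 1`, `|c V| ≤ Cbig`)

`mass_loc`: cover by shells `k r ≤ |z| < (k+1) r`, `Jr r ≤ r^{-2} e^{-k²/2}`, `≤ C (k+1)^2 r^2` points each.
-/

set_option autoImplicit false

namespace Pool.Agent.RS69

variable {B : Base} (D : Design B)

namespace Mass1Aux

/-- quartic lattice sums outside a ball -/
theorem quartic_sum (B : Base) (a c : ℝ) (ha : 0 ≤ a) (hc : 0 ≤ c) : ∃ C : ℝ, 0 < C ∧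
    ∀ (s : ℂ) (ρ : ℝ), 1 ≤ ρ → ∀ F : Finset Vec,
      (∀ v ∈ F, |B.l v| ≤ a ∧ |B.c v| ≤ c ∧ ρ < ‖B.z v - s‖) →
        ∑ v ∈ F, (‖B.z v - s‖ ^ 4)⁻¹ ≤ C / ρ ^ 2 := by
  classical
  obtain ⟨C0, hC0, hcard⟩ := box_card B
  refine ⟨32 * (C0 * (a + 1) * (c + 1)), by positivity, fun s ρ hρ F hF => ?_⟩
  set κ : Vec → ℕ := fun v => Nat.log 2 ⌊‖B.z v - s‖ / ρ⌋₊ with hκ
  have hρ0 : 0 < ρ := by linarith
  have hk : ∀ v ∈ F, 2 ^ (κ v) * ρ ≤ ‖B.z v - s‖ ∧ ‖B.z v - s‖ ≤ 2 ^ (κ v + 1) * ρ := by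
    intro v hv
    obtain ⟨_, _, h3⟩ := hF v hv
    have h4 : 1 < ‖B.z v - s‖ / ρ := (one_lt_div hρ0).2 h3
    have h5 : 1 ≤ ⌊‖B.z v - s‖ / ρ⌋₊ := by
      rw [Nat.one_le_floor_iff]
      exact h4.le
    have h6 : 2 ^ (κ v) ≤ ⌊‖B.z v - s‖ / ρ⌋₊ := Nat.pow_log_le_self 2 (by omega)
    have h7 : ⌊‖B.z v - s‖ / ρ⌋₊ < 2 ^ (κ v + 1) := Nat.lt_pow_succ_log_self (by norm_num) _
    have h8 : (⌊‖B.z v - s‖ / ρ⌋₊ : ℝ) ≤ ‖B.z v - s‖ / ρ := Nat.floor_le (by positivity)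
    have h9 : ‖B.z v - s‖ / ρ < ⌊‖B.z v - s‖ / ρ⌋₊ + 1 := Nat.lt_floor_add_one _
    have h10 : ((2 : ℝ) ^ (κ v)) ≤ (⌊‖B.z v - s‖ / ρ⌋₊ : ℝ) := by exact_mod_cast h6
    have h11 : ((⌊‖B.z v - s‖ / ρ⌋₊ : ℝ) + 1) ≤ (2 : ℝ) ^ (κ v + 1) := by exact_mod_cast h7
    constructor
    · rw [← le_div_iff₀ hρ0]; linarith
    · rw [← div_le_iff₀ hρ0]; linarith
  have hmaps : ∀ v ∈ F, κ v ∈ F.image κ := fun v hv => Finset.mem_image_of_mem _ hv
  rw [← Finset.sum_fiberwise_of_maps_to hmaps]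
  have hfib : ∀ k ∈ F.image κ, ∑ v ∈ F with κ v = k, (‖B.z v - s‖ ^ 4)⁻¹ ≤
      16 * (C0 * (a + 1) * (c + 1)) / ρ ^ 2 * (1 / 4) ^ k := by
    intro k _
    have h2k : (0 : ℝ) < 2 ^ k := by positivity
    have hc1 := hcard 0 0 s a (2 ^ (k + 1) * ρ) c ha (by positivity) hc (F.filter (fun v => κ v = k))
      (by
        intro v hv
        rw [Finset.mem_filter] at hv
        obtain ⟨h1, h2, _⟩ := hF v hv.1
        refine ⟨by simpa using h1, ?_, by simpa using h2⟩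
        have := (hk v hv.1).2
        rwa [hv.2] at this)
    have hterm : ∀ v ∈ F.filter (fun v => κ v = k), (‖B.z v - s‖ ^ 4)⁻¹ ≤ ((2 ^ k * ρ) ^ 4)⁻¹ := by
      intro v hv
      rw [Finset.mem_filter] at hv
      have h1 := (hk v hv.1).1
      rw [hv.2] at h1
      exact inv_anti₀ (by positivity) (pow_le_pow_left₀ (by positivity) h1 4)
    refine (Finset.sum_le_card_nsmul _ _ _ hterm).trans ?_
    rw [nsmul_eq_mul]
    have hE : (2 ^ (k + 1) * ρ + 1) ^ 2 ≤ (4 * (2 ^ k * ρ)) ^ 2 := by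
      refine pow_le_pow_left₀ (by positivity) ?_ 2
      have h1 : (1 : ℝ) ≤ 2 ^ k := one_le_pow₀ (by norm_num)
      have h3 : 1 ≤ 2 ^ k * ρ := by nlinarith
      have h4 : (2 : ℝ) ^ (k + 1) = 2 * 2 ^ k := by ring
      rw [h4]
      nlinarith
    have hbase : 0 ≤ C0 * (a + 1) * (c + 1) := by positivity
    calc ((F.filter (fun v => κ v = k)).card : ℝ) * ((2 ^ k * ρ) ^ 4)⁻¹
        ≤ (C0 * (a + 1) * (2 ^ (k + 1) * ρ + 1) ^ 2 * (c + 1)) * ((2 ^ k * ρ) ^ 4)⁻¹ :=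
          mul_le_mul_of_nonneg_right hc1 (by positivity)
      _ = (C0 * (a + 1) * (c + 1)) * (2 ^ (k + 1) * ρ + 1) ^ 2 * ((2 ^ k * ρ) ^ 4)⁻¹ := by ring
      _ ≤ (C0 * (a + 1) * (c + 1)) * (4 * (2 ^ k * ρ)) ^ 2 * ((2 ^ k * ρ) ^ 4)⁻¹ :=
          mul_le_mul_of_nonneg_right (mul_le_mul_of_nonneg_left hE hbase) (by positivity)
      _ = 16 * (C0 * (a + 1) * (c + 1)) / ρ ^ 2 * (1 / 4) ^ k := by
          have h4 : (1 / 4 : ℝ) ^ k = ((2 ^ k) ^ 2)⁻¹ := by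
            rw [← pow_mul, mul_comm k 2, pow_mul, one_div, inv_pow]
            norm_num
          rw [h4]
          field_simp
          ring
  refine (Finset.sum_le_sum hfib).trans ?_
  rw [← Finset.mul_sum]
  have hgeo : ∑ k ∈ F.image κ, (1 / 4 : ℝ) ^ k ≤ 2 := by
    have hs : Summable (fun k : ℕ => (1 / 4 : ℝ) ^ k) :=
      summable_geometric_of_lt_one (by norm_num) (by norm_num)
    have h1 := hs.sum_le_tsum (F.image κ) (fun k _ => by positivity)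
    rw [tsum_geometric_of_lt_one (by norm_num) (by norm_num)] at h1
    refine h1.trans ?_
    norm_num
  calc 16 * (C0 * (a + 1) * (c + 1)) / ρ ^ 2 * ∑ k ∈ F.image κ, (1 / 4 : ℝ) ^ k
      ≤ 16 * (C0 * (a + 1) * (c + 1)) / ρ ^ 2 * 2 :=
        mul_le_mul_of_nonneg_left hgeo (by positivity)
    _ = 32 * (C0 * (a + 1) * (c + 1)) / ρ ^ 2 := by ring

/-- bound of the pairing by a bound of the lattice sums -/
theorem Bf_le_of_sum (B : Base) {ζ Λ R M : ℝ} (hζ : 0 < ζ) (hΛ : 0 < Λ) (J : ℂ → ℝ) (ν : Arr)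
    {F : St → ℝ} (hF : Bdd B R F)
    (hM : ∀ (i j : ν.ι) (S : Finset Vec), ∑ V ∈ S, KD ζ Λ (B.c V + ν.pos i - ν.pos j) *
      J (B.z V + ν.zp i - ν.zp j) * F (ν.lt i, ν.lt j, V) ≤ M) :
    Bf B ζ Λ J ν F ≤ (∑ i, ν.w i) ^ 2 * M := by
  have h1 : Bf B ζ Λ J ν F ≤ ∑ i, ∑ j, ν.w i * ν.w j * M := by
    unfold Bf
    refine Finset.sum_le_sum fun i _ => Finset.sum_le_sum fun j _ => ?_
    refine mul_le_mul_of_nonneg_left ?_ (mul_nonneg (ν.w_nonneg i) (ν.w_nonneg j))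
    exact (Bf_summable B hζ hΛ J ν hF i j).tsum_le_of_sum_le (hM i j)
  refine h1.trans (le_of_eq ?_)
  rw [pow_two, Finset.sum_mul_sum, Finset.sum_mul]
  refine Finset.sum_congr rfl fun i _ => ?_
  rw [Finset.sum_mul]

theorem lmax_nonneg (B : Base) : 0 ≤ B.lmax := (I_nonneg B (0, 0, 0)).trans (I_le_lmax B _)


theorem sum_w' {ν : Arr} (h : ∀ a, (∑ i, if ν.lt i = a then ν.w i else 0) = B.f a) :
    ∑ i, ν.w i = ∑ a, B.f a := by
  simp only [← h]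
  rw [Finset.sum_comm]
  refine Finset.sum_congr rfl fun i _ => ?_
  simp

/-- boundedness of a function dominated by the overlap length -/
theorem Bdd_of_le {W : ℝ} {F : St → ℝ} (hF : ∀ O, 0 ≤ F O ∧ F O ≤ B.I O)
    (hW : ∀ O, F O ≠ 0 → ‖B.z O.2.2‖ ≤ W) : Bdd B (max B.lmax W) F := by
  intro O hO
  refine ⟨le_max_of_le_left (abs_l_le_of_I_pos B O ?_), le_max_of_le_right (hW O hO)⟩
  obtain ⟨h1, h2⟩ := hF O
  rcases h1.lt_or_eq with h3 | h3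
  · linarith
  · exact absurd h3.symm hO

/-- bound of the pairing by sums of the kernel over boxes -/
theorem Bf_le_box (B : Base) {ζ Λ W M Cν K : ℝ} (hζ : 0 < ζ) (hΛ : 0 < Λ) {J : ℂ → ℝ} (hJ : ∀ s, 0 ≤ J s)
    {ν : Arr} (hν : InC B Cν ν) (hK : 1 / (ζ * Λ) + 2 * Cν ≤ K)
    {F : St → ℝ} (hF : ∀ O, 0 ≤ F O ∧ F O ≤ B.I O) (hW : ∀ O, F O ≠ 0 → ‖B.z O.2.2‖ ≤ W)
    (hM : ∀ (i j : ν.ι) (T : Finset Vec), (∀ v ∈ T, |B.l v| ≤ B.lmax ∧ |B.c v| ≤ K ∧ ‖B.z v‖ ≤ W) →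
      ∑ v ∈ T, J (B.z v + ν.zp i - ν.zp j) ≤ M) :
    Bf B ζ Λ J ν F ≤ (∑ a, B.f a) ^ 2 * (Λ * B.lmax * M) := by
  classical
  rw [← sum_w' hν.1]
  refine Bf_le_of_sum B hζ hΛ J ν (Bdd_of_le hF hW) fun i j S => ?_
  have hl := lmax_nonneg B
  have h1 : ∑ V ∈ S, KD ζ Λ (B.c V + ν.pos i - ν.pos j) * J (B.z V + ν.zp i - ν.zp j) *
      F (ν.lt i, ν.lt j, V) ≤
      ∑ V ∈ S.filter (fun v => |B.l v| ≤ B.lmax ∧ |B.c v| ≤ K ∧ ‖B.z v‖ ≤ W),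
        Λ * B.lmax * J (B.z V + ν.zp i - ν.zp j) := by
    rw [Finset.sum_filter]
    refine Finset.sum_le_sum fun V _ => ?_
    split_ifs with hP
    · have a1 := KD_le (ζ := ζ) hΛ.le (B.c V + ν.pos i - ν.pos j)
      have a2 := KD_nonneg (ζ := ζ) hΛ.le (B.c V + ν.pos i - ν.pos j)
      have a3 := hJ (B.z V + ν.zp i - ν.zp j)
      have a4 := (hF (ν.lt i, ν.lt j, V)).1
      have a5 : F (ν.lt i, ν.lt j, V) ≤ B.lmax :=
        (hF (ν.lt i, ν.lt j, V)).2.trans (I_le_lmax B _)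
      calc KD ζ Λ (B.c V + ν.pos i - ν.pos j) * J (B.z V + ν.zp i - ν.zp j) * F (ν.lt i, ν.lt j, V)
          ≤ Λ * J (B.z V + ν.zp i - ν.zp j) * B.lmax := by
            refine mul_le_mul (mul_le_mul_of_nonneg_right a1 a3) a5 a4 (by positivity)
        _ = Λ * B.lmax * J (B.z V + ν.zp i - ν.zp j) := by ring
    · refine le_of_eq ?_
      by_contra hne
      apply hP
      have b1 : F (ν.lt i, ν.lt j, V) ≠ 0 := by
        intro h0
        apply hne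
        rw [h0, mul_zero]
      have b2 : KD ζ Λ (B.c V + ν.pos i - ν.pos j) ≠ 0 := by
        intro h0
        apply hne
        rw [h0, zero_mul, zero_mul]
      have b3 : 0 < B.I (ν.lt i, ν.lt j, V) := by
        obtain ⟨h1, h2⟩ := hF (ν.lt i, ν.lt j, V)
        rcases h1.lt_or_eq with h3 | h3
        · linarith
        · exact absurd h3.symm b1
      refine ⟨abs_l_le_of_I_pos B _ b3, ?_, hW _ b1⟩
      have b4 : ¬ (1 ≤ Λ * (ζ * |B.c V + ν.pos i - ν.pos j|)) := fun h => b2 (KD_eq_zero h hζ.le hΛ.le)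
      push Not at b4
      have b5 : |B.c V + ν.pos i - ν.pos j| < 1 / (ζ * Λ) := by
        rw [lt_div_iff₀ (by positivity)]
        nlinarith
      have b6 := hν.2 i
      have b7 := hν.2 j
      have b8 : |B.c V| ≤ |B.c V + ν.pos i - ν.pos j| + |ν.pos i| + |ν.pos j| := by
        have := abs_add_three (B.c V + ν.pos i - ν.pos j) (-ν.pos i) (ν.pos j)
        rw [abs_neg] at this
        refine le_trans (le_of_eq ?_) this
        congr 1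
        ring
      linarith
  refine h1.trans ?_
  rw [← Finset.mul_sum]
  refine mul_le_mul_of_nonneg_left (hM i j _ ?_) (by positivity)
  intro v hv
  exact (Finset.mem_filter.1 hv).2

theorem Jr_le (r : ℝ) (hr : 0 < r) (s : ℂ) : Jr r s ≤ (r ^ 2)⁻¹ := by
  unfold Jr SRig.Jg
  refine mul_le_of_le_one_right (by positivity) ?_
  rw [Real.exp_le_one_iff]
  exact div_nonpos_of_nonpos_of_nonneg (neg_nonpos.2 (sq_nonneg _)) (by positivity)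

theorem Jr_le' (r : ℝ) (hr : 0 < r) (s : ℂ) (hs : s ≠ 0) : Jr r s ≤ 8 * r ^ 2 * (‖s‖ ^ 4)⁻¹ := by
  unfold Jr SRig.Jg
  have h0 : 0 < ‖s‖ := norm_pos_iff.2 hs
  have h1 := Real.quadratic_le_exp_of_nonneg (x := ‖s‖ ^ 2 / (2 * r ^ 2)) (by positivity)
  have h2 : (‖s‖ ^ 2 / (2 * r ^ 2)) ^ 2 / 2 ≤ Real.exp (‖s‖ ^ 2 / (2 * r ^ 2)) := by
    have : 0 ≤ ‖s‖ ^ 2 / (2 * r ^ 2) := by positivity
    linarith
  rw [neg_div, Real.exp_neg]
  have h3 : (Real.exp (‖s‖ ^ 2 / (2 * r ^ 2)))⁻¹ ≤ ((‖s‖ ^ 2 / (2 * r ^ 2)) ^ 2 / 2)⁻¹ :=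
    inv_anti₀ (by positivity) h2
  refine (mul_le_mul_of_nonneg_left h3 (by positivity)).trans (le_of_eq ?_)
  field_simp
  ring

theorem gauss_sum (B : Base) (a c : ℝ) (ha : 0 ≤ a) (hc : 0 ≤ c) : ∃ C : ℝ, 0 < C ∧
    ∀ (r : ℝ), 1 ≤ r → ∀ F : Finset Vec, (∀ v ∈ F, |B.l v| ≤ a ∧ |B.c v| ≤ c) →
        ∑ v ∈ F, Jr r (B.z v) ≤ C := by
  classical
  obtain ⟨C0, hC0, hcard⟩ := box_card B
  obtain ⟨C1, hC1, hq⟩ := quartic_sum B a c ha hc
  refine ⟨C0 * (a + 1) * 4 * (c + 1) + 8 * C1, by positivity, fun r hr F hF => ?_⟩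
  have hr0 : 0 < r := by linarith
  rw [← Finset.sum_filter_add_sum_filter_not F (fun v => ‖B.z v‖ ≤ r)]
  refine add_le_add ?_ ?_
  · refine (Finset.sum_le_card_nsmul _ _ ((r ^ 2)⁻¹) (fun v _ => Jr_le r hr0 _)).trans ?_
    rw [nsmul_eq_mul]
    have h1 := hcard 0 0 0 a r c ha hr0.le hc (F.filter (fun v => ‖B.z v‖ ≤ r)) (by
      intro v hv
      rw [Finset.mem_filter] at hv
      obtain ⟨h1, h2⟩ := hF v hv.1
      exact ⟨by simpa using h1, by simpa using hv.2, by simpa using h2⟩)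
    have h2 : (r + 1) ^ 2 ≤ 4 * r ^ 2 := by nlinarith
    calc (((F.filter (fun v => ‖B.z v‖ ≤ r)).card : ℕ) : ℝ) * (r ^ 2)⁻¹
        ≤ (C0 * (a + 1) * (r + 1) ^ 2 * (c + 1)) * (r ^ 2)⁻¹ :=
          mul_le_mul_of_nonneg_right h1 (by positivity)
      _ ≤ (C0 * (a + 1) * (4 * r ^ 2) * (c + 1)) * (r ^ 2)⁻¹ := by
          refine mul_le_mul_of_nonneg_right ?_ (by positivity)
          refine mul_le_mul_of_nonneg_right ?_ (by positivity)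
          exact mul_le_mul_of_nonneg_left h2 (by positivity)
      _ = C0 * (a + 1) * 4 * (c + 1) := by
          field_simp
  · have h1 := hq 0 r hr (F.filter (fun v => ¬ ‖B.z v‖ ≤ r)) (by
      intro v hv
      rw [Finset.mem_filter] at hv
      obtain ⟨h1, h2⟩ := hF v hv.1
      exact ⟨h1, h2, by simpa using hv.2⟩)
    have h2 : ∑ v ∈ F.filter (fun v => ¬ ‖B.z v‖ ≤ r), Jr r (B.z v) ≤
        ∑ v ∈ F.filter (fun v => ¬ ‖B.z v‖ ≤ r), 8 * r ^ 2 * (‖B.z v - 0‖ ^ 4)⁻¹ := by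
      refine Finset.sum_le_sum fun v hv => ?_
      rw [Finset.mem_filter] at hv
      rw [sub_zero]
      refine Jr_le' r hr0 _ ?_
      intro h0
      apply hv.2
      rw [h0, norm_zero]
      exact hr0.le
    refine h2.trans ?_
    rw [← Finset.mul_sum]
    refine (mul_le_mul_of_nonneg_left h1 (by positivity)).trans (le_of_eq ?_)
    field_simp

theorem ζ0_bd (D : Design B) : 0 ≤ D.Cν ∧ 0 ≤ B.Cc ∧ D.ζ0 * (20 * (B.Cc + 2 * D.Cν + 1)) = 1 := by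
  have h1 := CoinAux.kc_nonneg B
  have h2 := D.Ct_nonneg
  have h3 : 0 ≤ D.Cν := by unfold Design.Cν; linarith
  have h4 : 0 ≤ B.Cc := by unfold Base.Cc; linarith
  refine ⟨h3, h4, ?_⟩
  unfold Design.ζ0
  rw [inv_mul_cancel₀]
  positivity

theorem H_W (n : ℕ) : ∀ O, D.S.H n O ≠ 0 → ‖B.z O.2.2‖ ≤ 2 * D.Zt * n := fun O h => H_supp D n O h

theorem H_I (n : ℕ) : ∀ O, 0 ≤ D.S.H n O ∧ D.S.H n O ≤ B.I O := fun O => ⟨H_nonneg D n O, H_le_I D n O⟩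

end Mass1Aux

open Mass1Aux

theorem sum_w {ν : Arr} (h : ∀ a, (∑ i, if ν.lt i = a then ν.w i else 0) = B.f a) :
    ∑ i, ν.w i = ∑ a, B.f a := sum_w' h

/-- flat mass of a ball of radius `W` -/
theorem mass_flat : ∃ C : ℝ, 0 < C ∧ ∀ (ν : Arr), InC B D.Cν ν → ∀ W : ℝ, 1 ≤ W →
    ∀ F : St → ℝ, (∀ O, 0 ≤ F O ∧ F O ≤ B.I O) → (∀ O, F O ≠ 0 → ‖B.z O.2.2‖ ≤ W) →
      Bf B D.ζ0 1 Jone ν F ≤ C * W ^ 2 := by
  obtain ⟨C0, hC0, hcard⟩ := box_card B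
  have hζ := ζ0_pos D
  obtain ⟨hν0, -, -⟩ := ζ0_bd D
  have hl := lmax_nonneg B
  set K := 1 / (D.ζ0 * 1) + 2 * D.Cν with hK
  have hK0 : 0 ≤ K := by positivity
  refine ⟨(∑ a, B.f a) ^ 2 * (1 * B.lmax * (C0 * (B.lmax + 1) * 4 * (K + 1))) + 1, by positivity,
    fun ν hν W hW F hF hFW => ?_⟩
  have h1 := Bf_le_box B (W := W) (M := C0 * (B.lmax + 1) * 4 * (K + 1) * W ^ 2) hζ one_pos
    (J := Jone) (fun _ => zero_le_one) hν (le_refl K) hF hFW (by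
      intro i j T hT
      have h2 := hcard 0 0 0 B.lmax W K hl (by linarith) hK0 T (by
        intro v hv
        obtain ⟨h1, h2, h3⟩ := hT v hv
        exact ⟨by simpa using h1, by simpa using h3, by simpa using h2⟩)
      have h3 : ∑ v ∈ T, Jone (B.z v + ν.zp i - ν.zp j) = (T.card : ℝ) := by
        simp [Jone]
      rw [h3]
      refine h2.trans ?_
      have h4 : (W + 1) ^ 2 ≤ 4 * W ^ 2 := by nlinarith
      calc C0 * (B.lmax + 1) * (W + 1) ^ 2 * (K + 1)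
          ≤ C0 * (B.lmax + 1) * (4 * W ^ 2) * (K + 1) := by
            refine mul_le_mul_of_nonneg_right ?_ (by positivity)
            exact mul_le_mul_of_nonneg_left h4 (by positivity)
        _ = C0 * (B.lmax + 1) * 4 * (K + 1) * W ^ 2 := by ring)
  refine h1.trans ?_
  have : 0 ≤ W ^ 2 := sq_nonneg W
  nlinarith

/-- localised mass -/
theorem mass_loc : ∃ C : ℝ, 0 < C ∧ ∀ (ν : Arr), InC0 B D.Cν ν → ∀ r : ℝ, 1 ≤ r →
    ∀ (W : ℝ) (F : St → ℝ), (∀ O, 0 ≤ F O ∧ F O ≤ B.I O) → (∀ O, F O ≠ 0 → ‖B.z O.2.2‖ ≤ W) →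
      Bf B D.ζ0 1 (Jr r) ν F ≤ C := by
  have hζ := ζ0_pos D
  obtain ⟨hν0, -, -⟩ := ζ0_bd D
  have hl := lmax_nonneg B
  set K := 1 / (D.ζ0 * 1) + 2 * D.Cν with hK
  have hK0 : 0 ≤ K := by positivity
  obtain ⟨C0, hC0, hg⟩ := gauss_sum B B.lmax K hl hK0
  refine ⟨(∑ a, B.f a) ^ 2 * (1 * B.lmax * C0) + 1, by positivity, fun ν hν r hr W F hF hFW => ?_⟩
  have h1 := Bf_le_box B (W := W) (M := C0) hζ one_pos
    (J := Jr r) (Jr_nonneg r) hν.1 (le_refl K) hF hFW (by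
      intro i j T hT
      simp only [hν.2, add_zero, sub_zero]
      exact hg r hr T fun v hv => ⟨(hT v hv).1, (hT v hv).2.1⟩)
  linarith

/-- `Q ≤ CQ` -/
theorem Q_le : ∃ C : ℝ, 0 < C ∧ ∀ (ν : Arr), InC0 B D.Cν ν → ∀ r : ℝ, 1 ≤ r → ∀ n, D.Qn ν n r ≤ C := by
  obtain ⟨C, hC, h⟩ := mass_loc D
  exact ⟨C, hC, fun ν hν r hr n => h ν hν r hr (2 * D.Zt * n) _ (H_I D n) (H_W D n)⟩

/-- the same for the scale `1/ζ0` (`KD ζ Λ x ≤ Λ KD ζ 1 x` for `Λ ≥ 1`, or directly) -/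
theorem Q_le' : ∃ C : ℝ, 0 < C ∧ ∀ r : ℝ, 1 ≤ r → ∀ n,
    Bf B D.ζ0 (1 / D.ζ0) (Jr r) (nu0 B) (D.S.H n) ≤ C := by
  have hζ := ζ0_pos D
  obtain ⟨hν0, -, -⟩ := ζ0_bd D
  have hl := lmax_nonneg B
  set K := 1 / (D.ζ0 * (1 / D.ζ0)) + 2 * D.Cν with hK
  have hK0 : 0 ≤ K := by positivity
  obtain ⟨C0, hC0, hg⟩ := gauss_sum B B.lmax K hl hK0
  refine ⟨(∑ a, B.f a) ^ 2 * (1 / D.ζ0 * B.lmax * C0) + 1, by positivity, fun r hr n => ?_⟩
  have h1 := Bf_le_box B (W := 2 * D.Zt * n) (M := C0) hζ (one_div_pos.2 hζ)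
    (J := Jr r) (Jr_nonneg r) (nu0_InC0 D).1 (le_refl K) (H_I D n) (H_W D n) (by
      intro i j T hT
      simp only [(nu0_InC0 D).2, add_zero, sub_zero]
      exact hg r hr T fun v hv => ⟨(hT v hv).1, (hT v hv).2.1⟩)
  linarith

/-- `c_n ≥ const`: only `V = 0`, `i, j` of the same letter: `KD ζ0 1 (pos_i - pos_j) ≥ 1/2` -/
theorem cn_ge : ∃ c : ℝ, 0 < c ∧ ∀ (ν : Arr), InC B D.Cν ν → ∀ n, c ≤ D.cn ν n := by
  classical
  have hζ := ζ0_pos D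
  obtain ⟨hν0, hCc, hζ1⟩ := ζ0_bd D
  refine ⟨1 / 2 * ∑ a, B.f a ^ 2, ?_, fun ν hν n => ?_⟩
  · have : 0 < ∑ a, B.f a ^ 2 :=
      Finset.sum_pos (fun a _ => pow_pos (B.f_pos a) 2) Finset.univ_nonempty
    linarith
  have h1 : D.cn ν 0 ≤ D.cn ν n := by
    unfold Design.cn
    refine Bf_mono B (R := max B.lmax (2 * D.Zt * n)) hζ one_pos (fun _ => zero_le_one) hν.2 ?_
      (Bdd_of_le (H_I D n) (H_W D n)) (fun O _ => H_mono D (Nat.zero_le n) O)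
    refine Bdd_mono ?_ (Bdd_H0 D)
    exact le_max_of_le_left (lmax_nonneg B)
  refine le_trans ?_ h1
  unfold Design.cn
  rw [Bf_H0 D hζ one_pos, QF]
  have h2 : ∑ a, B.f a ^ 2 = ∑ i, ∑ j, if ν.lt i = ν.lt j then ν.w i * ν.w j else 0 := by
    have h3 : ∀ i j : ν.ι, (if ν.lt i = ν.lt j then ν.w i * ν.w j else 0) =
        ∑ a : Ltr, (if ν.lt i = a then ν.w i else 0) * (if ν.lt j = a then ν.w j else 0) := by
      intro i j
      rw [Finset.sum_eq_single (ν.lt i)]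
      · rw [if_pos rfl]
        by_cases hij : ν.lt i = ν.lt j
        · rw [if_pos hij, if_pos hij.symm]
        · rw [if_neg hij, if_neg (fun h' => hij h'.symm), mul_zero]
      · intro a _ ha
        rw [if_neg (fun h' => ha h'.symm), zero_mul]
      · intro h'
        exact absurd (Finset.mem_univ _) h'
    simp only [h3]
    rw [Finset.sum_congr rfl (fun i _ => Finset.sum_comm)]
    rw [Finset.sum_comm]
    refine Finset.sum_congr rfl fun a _ => ?_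
    rw [← hν.1 a, pow_two, Finset.sum_mul_sum]
  rw [h2, Finset.mul_sum]
  refine Finset.sum_le_sum fun i _ => ?_
  rw [Finset.mul_sum]
  refine Finset.sum_le_sum fun j _ => ?_
  split_ifs with hij
  · have a1 := B.l_ge (ν.lt i)
    have a2 := ν.w_nonneg i
    have a3 := ν.w_nonneg j
    have a4 : 1 / 2 ≤ KD D.ζ0 1 (ν.pos i - ν.pos j) := by
      refine KD_ge_half hζ.le ?_
      have b1 := hν.2 i
      have b2 := hν.2 j
      have b3 : |ν.pos i - ν.pos j| ≤ 2 * D.Cν := (abs_sub _ _).trans (by linarith)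
      nlinarith
    have a5 : 0 ≤ ν.w i * ν.w j := mul_nonneg a2 a3
    have a6 : ν.w i * ν.w j * (1 / 2) ≤
        ν.w i * ν.w j * (KD D.ζ0 1 (ν.pos i - ν.pos j) * Jone (ν.zp i - ν.zp j)) := by
      refine mul_le_mul_of_nonneg_left ?_ a5
      simpa [Jone] using a4
    have a7 : 0 ≤ ν.w i * ν.w j * (KD D.ζ0 1 (ν.pos i - ν.pos j) * Jone (ν.zp i - ν.zp j)) :=
      le_trans (by positivity) a6
    nlinarith
  · simp

/-- sum of `H_m` over a ball is bounded by `r^2 Q0(m,r)` -/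
theorem ball_sum_le (Cz Cc' : ℝ) (hc : Cc' ≤ 2 * B.Cc + 1) : ∃ C : ℝ, 0 < C ∧ ∀ (r : ℝ), 1 ≤ r → ∀ (m : ℕ) (a b : Ltr)
    (F : Finset Vec), (∀ v ∈ F, ‖B.z v‖ ≤ 2 * r + Cz ∧ |B.c v| ≤ Cc') →
      ∑ v ∈ F, D.S.H m (a, b, v) ≤ C * r ^ 2 * D.Qn (nu0 B) m r := by
  classical
  have hζ := ζ0_pos D
  obtain ⟨hν0, hCc, hζ1⟩ := ζ0_bd D
  set S := ∑ a, (B.f a)⁻¹ with hS
  have hSpos : 0 < S := Finset.sum_pos (fun a _ => inv_pos.2 (B.f_pos a)) Finset.univ_nonempty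
  have hSle : ∀ a, (B.f a)⁻¹ ≤ S := fun a =>
    Finset.single_le_sum (f := fun a => (B.f a)⁻¹) (fun b _ => (inv_pos.2 (B.f_pos b)).le)
      (Finset.mem_univ a)
  set E := Real.exp ((2 + |Cz|) ^ 2 / 2) with hE
  have hE0 : 0 < E := Real.exp_pos _
  refine ⟨2 * E * S ^ 2, by positivity, fun r hr m a b F hF => ?_⟩
  have hr0 : 0 < r := by linarith
  have hfa := B.f_pos a
  have hfb := B.f_pos b
  have hBdd := Bdd_of_le (H_I D m) (H_W D m)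
  -- lower bound of the pairing by one pair of letters
  have h1 : B.f a * B.f b * ∑ v ∈ F, KD D.ζ0 1 (B.c v) * Jr r (B.z v) * D.S.H m (a, b, v) ≤
      D.Qn (nu0 B) m r := by
    unfold Design.Qn Bf
    have hnn : ∀ (i j : (nu0 B).ι) (V : Vec), 0 ≤ KD D.ζ0 1 (B.c V + (nu0 B).pos i - (nu0 B).pos j) *
        Jr r (B.z V + (nu0 B).zp i - (nu0 B).zp j) * D.S.H m ((nu0 B).lt i, (nu0 B).lt j, V) :=
      fun i j V => mul_nonneg (mul_nonneg (KD_nonneg zero_le_one _) (Jr_nonneg _ _)) (H_nonneg D m _)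
    have g1 : ∀ i j : (nu0 B).ι, 0 ≤ (nu0 B).w i * (nu0 B).w j *
        ∑' V : Vec, KD D.ζ0 1 (B.c V + (nu0 B).pos i - (nu0 B).pos j) *
        Jr r (B.z V + (nu0 B).zp i - (nu0 B).zp j) * D.S.H m ((nu0 B).lt i, (nu0 B).lt j, V) :=
      fun i j => mul_nonneg (mul_nonneg ((nu0 B).w_nonneg i) ((nu0 B).w_nonneg j))
        (tsum_nonneg (hnn i j))
    refine le_trans ?_ (Finset.single_le_sum (f := fun i : (nu0 B).ι => ∑ j, (nu0 B).w i * (nu0 B).w j *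
        ∑' V : Vec, KD D.ζ0 1 (B.c V + (nu0 B).pos i - (nu0 B).pos j) *
        Jr r (B.z V + (nu0 B).zp i - (nu0 B).zp j) * D.S.H m ((nu0 B).lt i, (nu0 B).lt j, V))
      (fun i _ => Finset.sum_nonneg fun j _ => g1 i j) (Finset.mem_univ (show (nu0 B).ι from a)))
    refine le_trans ?_ (Finset.single_le_sum (f := fun j : (nu0 B).ι => (nu0 B).w a * (nu0 B).w j *
        ∑' V : Vec, KD D.ζ0 1 (B.c V + (nu0 B).pos a - (nu0 B).pos j) *
        Jr r (B.z V + (nu0 B).zp a - (nu0 B).zp j) * D.S.H m ((nu0 B).lt a, (nu0 B).lt j, V))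
      (fun j _ => g1 a j) (Finset.mem_univ (show (nu0 B).ι from b)))
    have g2 := (Bf_summable B hζ one_pos (Jr r) (nu0 B) hBdd (show (nu0 B).ι from a)
      (show (nu0 B).ι from b)).sum_le_tsum F (fun V _ => hnn _ _ V)
    have g3 : ∑ v ∈ F, KD D.ζ0 1 (B.c v) * Jr r (B.z v) * D.S.H m (a, b, v) =
        ∑ V ∈ F, KD D.ζ0 1 (B.c V + (nu0 B).pos a - (nu0 B).pos b) *
        Jr r (B.z V + (nu0 B).zp a - (nu0 B).zp b) * D.S.H m ((nu0 B).lt a, (nu0 B).lt b, V) := by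
      refine Finset.sum_congr rfl fun V _ => ?_
      simp [nu0]
    rw [g3]
    exact mul_le_mul_of_nonneg_left g2 (mul_nonneg hfa.le hfb.le)
  -- pointwise bound
  have h2 : ∀ v ∈ F, (2 * E * r ^ 2)⁻¹ * D.S.H m (a, b, v) ≤
      KD D.ζ0 1 (B.c v) * Jr r (B.z v) * D.S.H m (a, b, v) := by
    intro v hv
    obtain ⟨hz, hcv⟩ := hF v hv
    refine mul_le_mul_of_nonneg_right ?_ (H_nonneg D m _)
    have g1 : 1 / 2 ≤ KD D.ζ0 1 (B.c v) := by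
      refine KD_ge_half hζ.le ?_
      nlinarith
    have g2 : (E * r ^ 2)⁻¹ ≤ Jr r (B.z v) := by
      unfold Jr SRig.Jg
      rw [mul_inv, mul_comm E⁻¹, hE, ← Real.exp_neg]
      refine mul_le_mul_of_nonneg_left ?_ (by positivity)
      rw [Real.exp_le_exp, neg_div, neg_le_neg_iff, div_le_div_iff₀ (by positivity) (by norm_num)]
      have g3 : ‖B.z v‖ ≤ (2 + |Cz|) * r := by
        have := le_abs_self Cz
        have h3 := abs_nonneg Cz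
        nlinarith
      have g4 : ‖B.z v‖ ^ 2 ≤ ((2 + |Cz|) * r) ^ 2 := pow_le_pow_left₀ (norm_nonneg _) g3 2
      nlinarith
    have g5 : (2 * E * r ^ 2)⁻¹ = 1 / 2 * (E * r ^ 2)⁻¹ := by
      rw [mul_assoc, mul_inv]
      norm_num
    rw [g5]
    exact mul_le_mul g1 g2 (by positivity) (KD_nonneg zero_le_one _)
  have h3 : (2 * E * r ^ 2)⁻¹ * ∑ v ∈ F, D.S.H m (a, b, v) ≤
      ∑ v ∈ F, KD D.ζ0 1 (B.c v) * Jr r (B.z v) * D.S.H m (a, b, v) := by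
    rw [Finset.mul_sum]
    exact Finset.sum_le_sum h2
  have hpos : 0 < 2 * E * r ^ 2 := by positivity
  have h4 : B.f a * B.f b * ((2 * E * r ^ 2)⁻¹ * ∑ v ∈ F, D.S.H m (a, b, v)) ≤ D.Qn (nu0 B) m r :=
    (mul_le_mul_of_nonneg_left h3 (by positivity)).trans h1
  have hH : 0 ≤ ∑ v ∈ F, D.S.H m (a, b, v) := Finset.sum_nonneg fun v _ => H_nonneg D m _
  have hQ : 0 ≤ D.Qn (nu0 B) m r := le_trans (by positivity) h4
  have h5 : ∑ v ∈ F, D.S.H m (a, b, v) ≤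
      (2 * E * r ^ 2) * ((B.f a)⁻¹ * (B.f b)⁻¹) * D.Qn (nu0 B) m r := by
    have h6 : ∑ v ∈ F, D.S.H m (a, b, v) = (2 * E * r ^ 2) * ((B.f a)⁻¹ * (B.f b)⁻¹) *
        (B.f a * B.f b * ((2 * E * r ^ 2)⁻¹ * ∑ v ∈ F, D.S.H m (a, b, v))) := by
      have e1 := hE0.ne'
      have e2 := hfa.ne'
      have e3 := hfb.ne'
      have e4 := hr0.ne'
      field_simp
    rw [h6]
    exact mul_le_mul_of_nonneg_left h4 (by positivity)
  refine h5.trans (mul_le_mul_of_nonneg_right ?_ hQ)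
  have h7 : (B.f a)⁻¹ * (B.f b)⁻¹ ≤ S ^ 2 := by
    rw [pow_two]
    exact mul_le_mul (hSle a) (hSle b) (inv_pos.2 hfb).le hSpos.le
  calc 2 * E * r ^ 2 * ((B.f a)⁻¹ * (B.f b)⁻¹) ≤ 2 * E * r ^ 2 * S ^ 2 :=
        mul_le_mul_of_nonneg_left h7 hpos.le
    _ = 2 * E * S ^ 2 * r ^ 2 := by ring

end Pool.Agent.RS69
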