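import Pool.Agent.RS69.Mom1

/-!
# RS69.Mom2 : moments of the neutral displacement (section 7)

With the corrector `b`, `M_i = zp_i + b(lt_i)` satisfies `M' = w M + ξ` with bounded `ξ` of conditional mean
zero (weights `w_i l_{lt i}`), so `E|M|^2` grows linearly and `E|M|^4` quadratically:
`|wM + ξ|^4 ≤ |M|^4 + 4 |M|^2 Re(conj(wM) ξ) + C (|M|^2 |ξ|^2 + |M| |ξ|^3 + |ξ|^4)`.
-/

set_option autoImplicit false

namespace Pool.Agent.RS69

variable {B : Base} (D : Design B)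

/-- length-weighted sums of an array -/
noncomputable def lsum (B : Base) (ν : Arr) (F : ℂ → ℝ) : ℝ :=
  ∑ i, ν.w i * B.l (ev (ν.lt i)) * F (ν.zp i)

theorem lsum_one (ν : Arr) (h : ∀ a, (∑ i, if ν.lt i = a then ν.w i else 0) = B.f a) :
    lsum B ν (fun _ => 1) = 1 := by
  unfold lsum
  have h1 : ∀ i, ν.w i * B.l (ev (ν.lt i)) * 1 =
      ∑ a, (if ν.lt i = a then ν.w i else 0) * B.l (ev a) := by
    intro i
    simp [ite_mul, Finset.sum_ite_eq]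
  rw [Finset.sum_congr rfl (fun i _ => h1 i), Finset.sum_comm]
  rw [← B.f_l]
  refine Finset.sum_congr rfl (fun a _ => ?_)
  rw [← Finset.sum_mul, h a]

namespace Mom2

/-- length-weighted sums with letters -/
noncomputable def lsg (B : Base) (ν : Arr) (G : Ltr → ℂ → ℝ) : ℝ :=
  ∑ i, ν.w i * B.l (ev (ν.lt i)) * G (ν.lt i) (ν.zp i)

theorem l_ev_pos (B : Base) (a : Ltr) : 0 < B.l (ev a) := lt_of_lt_of_le one_pos (B.l_ge a)

theorem lsg_mono {ν : Arr} {G G' : Ltr → ℂ → ℝ} (h : ∀ i, G (ν.lt i) (ν.zp i) ≤ G' (ν.lt i) (ν.zp i)) :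
    lsg B ν G ≤ lsg B ν G' := by
  unfold lsg
  exact Finset.sum_le_sum (fun i _ => mul_le_mul_of_nonneg_left (h i)
    (mul_nonneg (ν.w_nonneg i) (l_ev_pos B _).le))

theorem lsg_add (ν : Arr) (G G' : Ltr → ℂ → ℝ) :
    lsg B ν (fun a s => G a s + G' a s) = lsg B ν G + lsg B ν G' := by
  unfold lsg
  rw [← Finset.sum_add_distrib]
  exact Finset.sum_congr rfl (fun i _ => by ring)

theorem lsg_smul (ν : Arr) (c : ℝ) (G : Ltr → ℂ → ℝ) :
    lsg B ν (fun a s => c * G a s) = c * lsg B ν G := by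
  unfold lsg
  rw [Finset.mul_sum]
  exact Finset.sum_congr rfl (fun i _ => by ring)

theorem lsg_const (ν : Arr) (c : ℝ) :
    lsg B ν (fun _ _ => c) = c * lsum B ν (fun _ => 1) := by
  unfold lsg lsum
  rw [Finset.mul_sum]
  exact Finset.sum_congr rfl (fun i _ => by ring)

theorem lsum_one_nonneg (ν : Arr) : 0 ≤ lsum B ν (fun _ => 1) := by
  unfold lsum
  exact Finset.sum_nonneg (fun i _ => mul_nonneg (mul_nonneg (ν.w_nonneg i) (l_ev_pos B _).le) zero_le_one)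

/-- total length of a word -/
theorem tiles_l_sum (B : Base) (w : List Ltr) (s : Vec) :
    (((tiles w s).map (fun x => B.l (ev x.1))).sum) = B.l (abv w) := by
  induction w generalizing s with
  | nil => simp [tiles, abv_nil]
  | cons a w ih => simp [tiles, abv_cons, ih, map_add]

theorem level_l_sum (τ : Level B) (η : τ.E) (a : Ltr) :
    (((tiles (τ.sub η a) 0).map (fun x => B.l (ev x.1))).sum) = τ.t * B.l (ev a) := by
  rw [tiles_l_sum, τ.ab, l_Mpow]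
  rfl

/-- one step -/
theorem lsg_push (τ : Level B) (ν : Arr) (G : Ltr → ℂ → ℝ) :
    lsg B (push τ ν) G =
      ∑ i, ν.w i * ((τ.t)⁻¹ * ∑ η, τ.β η * ((tiles (τ.sub η (ν.lt i)) 0).map (fun y =>
        B.l (ev y.1) * G y.1 (τ.w * ν.zp i + B.z y.2))).sum) := by
  have h := push_sum τ ν (fun a _ s => B.l (ev a) * G a s)
  rw [← h]
  unfold lsg
  exact Finset.sum_congr rfl (fun i _ => by ring)

theorem lsg_push_le (τ : Level B) (ν : Arr) (G G' : Ltr → ℂ → ℝ)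
    (h : ∀ (η : τ.E) (a : Ltr) (s : ℂ), ((tiles (τ.sub η a) 0).map (fun y =>
        B.l (ev y.1) * G y.1 (τ.w * s + B.z y.2))).sum ≤ τ.t * (B.l (ev a) * G' a s)) :
    lsg B (push τ ν) G ≤ lsg B ν G' := by
  rw [lsg_push]
  unfold lsg
  refine Finset.sum_le_sum (fun i _ => ?_)
  have ht := t_pos τ
  have h1 : ∑ η, τ.β η * ((tiles (τ.sub η (ν.lt i)) 0).map (fun y =>
        B.l (ev y.1) * G y.1 (τ.w * ν.zp i + B.z y.2))).sum ≤
      ∑ η, τ.β η * (τ.t * (B.l (ev (ν.lt i)) * G' (ν.lt i) (ν.zp i))) :=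
    Finset.sum_le_sum (fun η _ => mul_le_mul_of_nonneg_left (h η _ _) (τ.β_nonneg η))
  rw [← Finset.sum_mul, τ.β_sum, one_mul] at h1
  have h2 : (τ.t)⁻¹ * ∑ η, τ.β η * ((tiles (τ.sub η (ν.lt i)) 0).map (fun y =>
        B.l (ev y.1) * G y.1 (τ.w * ν.zp i + B.z y.2))).sum ≤
      (τ.t)⁻¹ * (τ.t * (B.l (ev (ν.lt i)) * G' (ν.lt i) (ν.zp i))) :=
    mul_le_mul_of_nonneg_left h1 (inv_nonneg.mpr ht.le)
  rw [inv_mul_cancel_left₀ ht.ne'] at h2
  calc ν.w i * _ ≤ ν.w i * (B.l (ev (ν.lt i)) * G' (ν.lt i) (ν.zp i)) :=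
        mul_le_mul_of_nonneg_left h2 (ν.w_nonneg i)
    _ = _ := by ring

/-- the total length weight is preserved -/
theorem lsum_one_push (τ : Level B) (ν : Arr) :
    lsum B (push τ ν) (fun _ => 1) = lsum B ν (fun _ => 1) := by
  have h := lsg_push τ ν (fun _ _ => 1)
  have h1 : lsum B (push τ ν) (fun _ => 1) = lsg B (push τ ν) (fun _ _ => 1) := rfl
  rw [h1, h]
  unfold lsum
  refine Finset.sum_congr rfl (fun i _ => ?_)
  have ht := t_pos τ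
  have h2 : ∀ η, ((tiles (τ.sub η (ν.lt i)) 0).map (fun y => B.l (ev y.1) * (1 : ℝ))).sum =
      τ.t * B.l (ev (ν.lt i)) := by
    intro η
    simp only [mul_one]
    exact level_l_sum τ η _
  rw [Finset.sum_congr rfl (fun η _ => by rw [h2 η]), ← Finset.sum_mul, τ.β_sum, one_mul,
    inv_mul_cancel_left₀ ht.ne', mul_one]

theorem lsum_one_iter (τ : Level B) (n : ℕ) (ν : Arr) :
    lsum B ((push τ)^[n] ν) (fun _ => 1) = lsum B ν (fun _ => 1) := by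
  induction n with
  | zero => rfl
  | succ n ih => rw [Function.iterate_succ_apply', lsum_one_push, ih]

/-- linear combinations over a list -/
theorem list_re_sum (B : Base) (b : Ltr → ℂ) (u c : ℂ) (Ls : List (Ltr × Vec)) :
    (Ls.map (fun y => B.l (ev y.1) * (u * ((B.z y.2 + b y.1) - c)).re)).sum =
      (u * ((Ls.map (fun y => (B.l (ev y.1) : ℂ) * (B.z y.2 + b y.1))).sum -
        c * (((Ls.map (fun y => B.l (ev y.1))).sum : ℝ) : ℂ))).re := by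
  induction Ls with
  | nil => simp
  | cons y Ls ih =>
    simp only [List.map_cons, List.sum_cons]
    rw [ih]
    have h : ∀ (r : ℝ) (x : ℂ), r * x.re = ((r : ℂ) * x).re := by
      intro r x
      simp
    rw [h, ← Complex.add_re]
    congr 1
    push_cast
    ring

theorem list_sum_le (Ls : List (Ltr × Vec)) (F G : Ltr × Vec → ℝ) (h : ∀ y ∈ Ls, F y ≤ G y) :
    (Ls.map F).sum ≤ (Ls.map G).sum :=
  List.sum_le_sum h

theorem list_sum_add (Ls : List (Ltr × Vec)) (F G : Ltr × Vec → ℝ) :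
    (Ls.map (fun y => F y + G y)).sum = (Ls.map F).sum + (Ls.map G).sum := by
  induction Ls with
  | nil => simp
  | cons y Ls ih => simp only [List.map_cons, List.sum_cons, ih]; ring

theorem list_sum_smul (Ls : List (Ltr × Vec)) (c : ℝ) (F : Ltr × Vec → ℝ) :
    (Ls.map (fun y => c * F y)).sum = c * (Ls.map F).sum := by
  induction Ls with
  | nil => simp
  | cons y Ls ih => simp only [List.map_cons, List.sum_cons, ih]; ring

/-- data of the martingale -/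
structure MData (D : Design B) where
  b : Ltr → ℂ
  hb : ∀ a, ((tiles (D.σ a) 0).map (fun x => (B.l (ev x.1) : ℂ) * (B.z x.2 + b x.1))).sum =
      (D.t : ℂ) * (B.l (ev a) : ℂ) * (D.w * b a)
  Y : ℝ
  Y_pos : 0 < Y
  hY : ∀ a, ‖b a‖ ≤ Y
  X : ℝ
  X_pos : 0 < X
  hX : ∀ a, ∀ y ∈ tiles (D.σ a) 0, ‖(B.z y.2 + b y.1) - D.w * b a‖ ≤ X

theorem exists_mdata : Nonempty (MData D) := by
  obtain ⟨b, hb⟩ := exists_corrector D
  have hw : ‖D.w‖ = 1 := by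
    unfold Design.w
    rw [norm_pow, B.norm_w0, one_pow]
  set Y : ℝ := 1 + ∑ a, ‖b a‖ with hYdef
  have hY0 : ∀ a, ‖b a‖ ≤ Y := by
    intro a
    have := Finset.single_le_sum (f := fun a => ‖b a‖) (fun a _ => norm_nonneg _) (Finset.mem_univ a)
    linarith
  have hYp : 0 < Y := by
    have : 0 ≤ ∑ a, ‖b a‖ := Finset.sum_nonneg (fun a _ => norm_nonneg _)
    linarith
  refine ⟨⟨b, hb, Y, hYp, hY0, D.Zt + 2 * Y, by linarith [D.Zt_nonneg], ?_⟩⟩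
  intro a y hy
  have h1 := (D.tube a y hy).1
  calc ‖(B.z y.2 + b y.1) - D.w * b a‖ ≤ ‖B.z y.2 + b y.1‖ + ‖D.w * b a‖ := norm_sub_le _ _
    _ ≤ (‖B.z y.2‖ + ‖b y.1‖) + ‖D.w * b a‖ := by
        have := norm_add_le (B.z y.2) (b y.1)
        linarith
    _ ≤ D.Zt + Y + Y := by
        rw [norm_mul, hw, one_mul]
        linarith [hY0 y.1, hY0 a]
    _ = _ := by ring

/-- the martingale property, in real form -/
theorem mean_zero (m : MData D) (u : ℂ) (a : Ltr) :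
    (((tiles (D.σ a) 0).map (fun y => B.l (ev y.1) *
      (u * ((B.z y.2 + m.b y.1) - D.w * m.b a)).re)).sum) = 0 := by
  rw [list_re_sum, m.hb]
  have h : (((tiles (D.σ a) 0).map (fun y => B.l (ev y.1))).sum) = D.t * B.l (ev a) := by
    rw [tiles_l_sum, D.ab, l_Mpow]
    rfl
  rw [h]
  have h0 : (D.t : ℂ) * (B.l (ev a) : ℂ) * (D.w * m.b a) -
      D.w * m.b a * ((D.t * B.l (ev a) : ℝ) : ℂ) = 0 := by
    push_cast
    ring
  rw [h0, mul_zero, Complex.zero_re]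

theorem norm_w_D : ‖D.w‖ = 1 := by
  unfold Design.w
  rw [norm_pow, B.norm_w0, one_pow]

theorem norm_add_sq_c (x y : ℂ) : ‖x + y‖ ^ 2 = ‖x‖ ^ 2 + 2 * ((starRingEnd ℂ) x * y).re + ‖y‖ ^ 2 := by
  rw [← Complex.normSq_eq_norm_sq, ← Complex.normSq_eq_norm_sq, ← Complex.normSq_eq_norm_sq,
    Complex.normSq_add]
  simp [Complex.mul_re]
  ring

theorem level_S_l_sum (a : Ltr) :
    (((tiles (D.σ a) 0).map (fun y => B.l (ev y.1))).sum) = D.t * B.l (ev a) := by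
  rw [tiles_l_sum, D.ab, l_Mpow]
  rfl

/-- one step, second moment -/
theorem step2 (m : MData D) (ν : Arr) :
    lsg B (push D.S ν) (fun a s => ‖s + m.b a‖ ^ 2) ≤
      lsg B ν (fun a s => ‖s + m.b a‖ ^ 2 + m.X ^ 2) := by
  apply lsg_push_le
  intro η a s
  have hsub : D.S.sub η a = D.σ a := rfl
  have ht : D.S.t = D.t := rfl
  have hw : D.S.w = D.w := rfl
  rw [hsub, ht, hw]
  set Mv : ℂ := D.w * (s + m.b a) with hM
  have hMn : ‖Mv‖ = ‖s + m.b a‖ := by rw [hM, norm_mul, norm_w_D, one_mul]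
  have hstep : ∀ y ∈ tiles (D.σ a) 0, B.l (ev y.1) * ‖D.w * s + B.z y.2 + m.b y.1‖ ^ 2 ≤
      (‖s + m.b a‖ ^ 2 + m.X ^ 2) * B.l (ev y.1) +
        2 * (B.l (ev y.1) * ((starRingEnd ℂ) Mv * ((B.z y.2 + m.b y.1) - D.w * m.b a)).re) := by
    intro y hy
    have h1 : D.w * s + B.z y.2 + m.b y.1 = Mv + ((B.z y.2 + m.b y.1) - D.w * m.b a) := by
      rw [hM]; ring
    rw [h1, norm_add_sq_c, hMn]
    have h2 := m.hX a y hy
    have h3 : ‖(B.z y.2 + m.b y.1) - D.w * m.b a‖ ^ 2 ≤ m.X ^ 2 :=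
      pow_le_pow_left₀ (norm_nonneg _) h2 2
    have h4 := l_ev_pos B y.1
    nlinarith
  refine le_trans (list_sum_le _ _ _ hstep) ?_
  rw [list_sum_add, list_sum_smul, list_sum_smul, mean_zero, level_S_l_sum]
  apply le_of_eq
  ring

/-- one step, fourth moment -/
theorem step4 (m : MData D) (ν : Arr) :
    lsg B (push D.S ν) (fun a s => ‖s + m.b a‖ ^ 4) ≤
      lsg B ν (fun a s => ‖s + m.b a‖ ^ 4 + 8 * m.X ^ 2 * ‖s + m.b a‖ ^ 2 + 3 * m.X ^ 4) := by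
  apply lsg_push_le
  intro η a s
  have hsub : D.S.sub η a = D.σ a := rfl
  have ht : D.S.t = D.t := rfl
  have hw : D.S.w = D.w := rfl
  rw [hsub, ht, hw]
  set Mv : ℂ := D.w * (s + m.b a) with hM
  have hMn : ‖Mv‖ = ‖s + m.b a‖ := by rw [hM, norm_mul, norm_w_D, one_mul]
  have hstep : ∀ y ∈ tiles (D.σ a) 0, B.l (ev y.1) * ‖D.w * s + B.z y.2 + m.b y.1‖ ^ 4 ≤
      (‖s + m.b a‖ ^ 4 + 8 * m.X ^ 2 * ‖s + m.b a‖ ^ 2 + 3 * m.X ^ 4) * B.l (ev y.1) +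
        (4 * ‖s + m.b a‖ ^ 2) *
          (B.l (ev y.1) * ((starRingEnd ℂ) Mv * ((B.z y.2 + m.b y.1) - D.w * m.b a)).re) := by
    intro y hy
    set ξ : ℂ := (B.z y.2 + m.b y.1) - D.w * m.b a with hξ
    have h1 : D.w * s + B.z y.2 + m.b y.1 = Mv + ξ := by
      rw [hM, hξ]; ring
    have h2 : ‖ξ‖ ≤ m.X := m.hX a y hy
    have h4 := l_ev_pos B y.1
    have h5 : |((starRingEnd ℂ) Mv * ξ).re| ≤ ‖s + m.b a‖ * m.X := by
      calc |((starRingEnd ℂ) Mv * ξ).re| ≤ ‖(starRingEnd ℂ) Mv * ξ‖ := Complex.abs_re_le_norm _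
        _ = ‖s + m.b a‖ * ‖ξ‖ := by rw [norm_mul, RCLike.norm_conj, hMn]
        _ ≤ _ := mul_le_mul_of_nonneg_left h2 (norm_nonneg _)
    have key : ‖Mv + ξ‖ ^ 4 ≤ (‖s + m.b a‖ ^ 4 + 8 * m.X ^ 2 * ‖s + m.b a‖ ^ 2 + 3 * m.X ^ 4) +
        (4 * ‖s + m.b a‖ ^ 2) * ((starRingEnd ℂ) Mv * ξ).re := by
      have h6 : ‖Mv + ξ‖ ^ 4 = (‖Mv + ξ‖ ^ 2) ^ 2 := by ring
      rw [h6, norm_add_sq_c, hMn]
      set p := ‖s + m.b a‖ with hp
      set e := ((starRingEnd ℂ) Mv * ξ).re with he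
      set q := ‖ξ‖ with hq
      have hp0 : 0 ≤ p := norm_nonneg _
      have hq0 : 0 ≤ q := norm_nonneg _
      have hX0 := m.X_pos
      have he2 : e ^ 2 ≤ p ^ 2 * m.X ^ 2 := by
        have : |e| ^ 2 ≤ (p * m.X) ^ 2 := pow_le_pow_left₀ (abs_nonneg _) h5 2
        rw [sq_abs] at this
        nlinarith
      have hq2 : q ^ 2 ≤ m.X ^ 2 := pow_le_pow_left₀ hq0 h2 2
      have hq4 : q ^ 4 ≤ m.X ^ 4 := pow_le_pow_left₀ hq0 h2 4
      have heq : e * q ^ 2 ≤ p * m.X * m.X ^ 2 := by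
        calc e * q ^ 2 ≤ |e| * q ^ 2 := mul_le_mul_of_nonneg_right (le_abs_self _) (sq_nonneg _)
          _ ≤ (p * m.X) * m.X ^ 2 := mul_le_mul h5 hq2 (sq_nonneg _) (by positivity)
      have h7 : 4 * (p * m.X * m.X ^ 2) ≤ 2 * m.X ^ 2 * p ^ 2 + 2 * m.X ^ 4 := by
        nlinarith [sq_nonneg (m.X * (p - m.X))]
      have h8 : p ^ 2 * q ^ 2 ≤ p ^ 2 * m.X ^ 2 := mul_le_mul_of_nonneg_left hq2 (sq_nonneg _)
      nlinarith
    rw [h1]
    calc B.l (ev y.1) * ‖Mv + ξ‖ ^ 4 ≤ B.l (ev y.1) *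
          ((‖s + m.b a‖ ^ 4 + 8 * m.X ^ 2 * ‖s + m.b a‖ ^ 2 + 3 * m.X ^ 4) +
        (4 * ‖s + m.b a‖ ^ 2) * ((starRingEnd ℂ) Mv * ξ).re) := mul_le_mul_of_nonneg_left key h4.le
      _ = _ := by ring
  refine le_trans (list_sum_le _ _ _ hstep) ?_
  rw [list_sum_add, list_sum_smul, list_sum_smul, mean_zero, level_S_l_sum]
  apply le_of_eq
  ring

theorem iter2 (m : MData D) (ν : Arr) (n : ℕ) :
    lsg B ((push D.S)^[n] ν) (fun a s => ‖s + m.b a‖ ^ 2) ≤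
      lsg B ν (fun a s => ‖s + m.b a‖ ^ 2) + n * m.X ^ 2 * lsum B ν (fun _ => 1) := by
  induction n with
  | zero => simp
  | succ n ih =>
    rw [Function.iterate_succ_apply']
    refine le_trans (step2 D m _) ?_
    rw [lsg_add, lsg_const, lsum_one_iter]
    push_cast
    nlinarith [ih]

theorem iter4 (m : MData D) (ν : Arr) (n : ℕ) :
    lsg B ((push D.S)^[n] ν) (fun a s => ‖s + m.b a‖ ^ 4) ≤
      lsg B ν (fun a s => ‖s + m.b a‖ ^ 4) +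
        n * (8 * m.X ^ 2 * (lsg B ν (fun a s => ‖s + m.b a‖ ^ 2) + n * m.X ^ 2 * lsum B ν (fun _ => 1)) +
          3 * m.X ^ 4 * lsum B ν (fun _ => 1)) := by
  induction n with
  | zero => simp
  | succ n ih =>
    rw [Function.iterate_succ_apply']
    refine le_trans (step4 D m _) ?_
    rw [lsg_add, lsg_const, lsum_one_iter]
    rw [lsg_add, lsg_smul]
    have h2 := iter2 D m ν n
    have hm := lsum_one_nonneg (B := B) ν
    have hX := m.X_pos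
    have h3 : 8 * m.X ^ 2 * lsg B ((push D.S)^[n] ν) (fun a s => ‖s + m.b a‖ ^ 2) ≤
        8 * m.X ^ 2 * (lsg B ν (fun a s => ‖s + m.b a‖ ^ 2) + n * m.X ^ 2 * lsum B ν (fun _ => 1)) :=
      mul_le_mul_of_nonneg_left h2 (by positivity)
    have hn : (0 : ℝ) ≤ n := Nat.cast_nonneg n
    have h4 : 0 ≤ m.X ^ 2 * (m.X ^ 2 * lsum B ν (fun _ => 1)) := by positivity
    have h5 : 0 ≤ (n : ℝ) * (m.X ^ 2 * (m.X ^ 2 * lsum B ν (fun _ => 1))) := mul_nonneg hn h4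
    push_cast
    nlinarith [ih, h3, h4, h5]

theorem start2 (m : MData D) (ν : Arr) (h : ∀ i, ν.zp i = 0) :
    lsg B ν (fun a s => ‖s + m.b a‖ ^ 2) ≤ m.Y ^ 2 * lsum B ν (fun _ => 1) := by
  rw [← lsg_const]
  apply lsg_mono
  intro i
  rw [h i, zero_add]
  exact pow_le_pow_left₀ (norm_nonneg _) (m.hY _) 2

theorem start4 (m : MData D) (ν : Arr) (h : ∀ i, ν.zp i = 0) :
    lsg B ν (fun a s => ‖s + m.b a‖ ^ 4) ≤ m.Y ^ 4 * lsum B ν (fun _ => 1) := by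
  rw [← lsg_const]
  apply lsg_mono
  intro i
  rw [h i, zero_add]
  exact pow_le_pow_left₀ (norm_nonneg _) (m.hY _) 4

theorem lsum_eq_lsg (ν : Arr) (F : ℂ → ℝ) : lsum B ν F = lsg B ν (fun _ s => F s) := rfl

theorem sqrt_lsum (ν : Arr) : lsum B ν (fun s => ‖s‖) ≤
    Real.sqrt (lsum B ν (fun _ => 1)) * Real.sqrt (lsum B ν (fun s => ‖s‖ ^ 2)) := by
  have hw : ∀ i, 0 ≤ ν.w i * B.l (ev (ν.lt i)) := fun i => mul_nonneg (ν.w_nonneg i) (l_ev_pos B _).le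
  have h := Finset.sum_mul_sq_le_sq_mul_sq Finset.univ (fun i => Real.sqrt (ν.w i * B.l (ev (ν.lt i))))
    (fun i => Real.sqrt (ν.w i * B.l (ev (ν.lt i))) * ‖ν.zp i‖)
  have e1 : ∑ i, Real.sqrt (ν.w i * B.l (ev (ν.lt i))) *
      (Real.sqrt (ν.w i * B.l (ev (ν.lt i))) * ‖ν.zp i‖) = lsum B ν (fun s => ‖s‖) := by
    unfold lsum
    refine Finset.sum_congr rfl (fun i _ => ?_)
    rw [← mul_assoc, Real.mul_self_sqrt (hw i)]
  have e2 : ∑ i, (Real.sqrt (ν.w i * B.l (ev (ν.lt i)))) ^ 2 = lsum B ν (fun _ => 1) := by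
    unfold lsum
    refine Finset.sum_congr rfl (fun i _ => ?_)
    rw [Real.sq_sqrt (hw i), mul_one]
  have e3 : ∑ i, (Real.sqrt (ν.w i * B.l (ev (ν.lt i))) * ‖ν.zp i‖) ^ 2 =
      lsum B ν (fun s => ‖s‖ ^ 2) := by
    unfold lsum
    refine Finset.sum_congr rfl (fun i _ => ?_)
    rw [mul_pow, Real.sq_sqrt (hw i)]
  rw [e1, e2, e3] at h
  rw [← Real.sqrt_mul (lsum_one_nonneg ν)]
  exact Real.le_sqrt_of_sq_le h

end Mom2

open Mom2

/-- second moment: linear growth.  (`m0` bounds the total length weight.) -/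
theorem moment2 : ∃ C : ℝ, 0 < C ∧ ∀ (ν : Arr), (∀ i, ν.zp i = 0) → ∀ n : ℕ,
    lsum B ((push D.S)^[n] ν) (fun s => ‖s‖ ^ 2) ≤ C * (n + 1) * lsum B ν (fun _ => 1) := by
  obtain ⟨m⟩ := exists_mdata D
  refine ⟨2 * (m.Y ^ 2 + m.X ^ 2) + 2 * m.Y ^ 2, ?_, ?_⟩
  · have := m.Y_pos
    have := m.X_pos
    positivity
  intro ν hν n
  have h1 : lsum B ((push D.S)^[n] ν) (fun s => ‖s‖ ^ 2) ≤
      lsg B ((push D.S)^[n] ν) (fun a s => 2 * ‖s + m.b a‖ ^ 2 + 2 * m.Y ^ 2) := by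
    rw [lsum_eq_lsg]
    apply lsg_mono
    intro i
    set s := ((push D.S)^[n] ν).zp i
    set a := ((push D.S)^[n] ν).lt i
    have h2 : ‖s‖ ≤ ‖s + m.b a‖ + m.Y := by
      calc ‖s‖ = ‖(s + m.b a) - m.b a‖ := by rw [add_sub_cancel_right]
        _ ≤ ‖s + m.b a‖ + ‖m.b a‖ := norm_sub_le _ _
        _ ≤ _ := by linarith [m.hY a]
    have h3 : ‖s‖ ^ 2 ≤ (‖s + m.b a‖ + m.Y) ^ 2 := pow_le_pow_left₀ (norm_nonneg _) h2 2
    nlinarith [sq_nonneg (‖s + m.b a‖ - m.Y)]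
  rw [lsg_add, lsg_smul, lsg_const, lsum_one_iter] at h1
  have h2 := iter2 D m ν n
  have h3 := start2 D m ν hν
  have hm := lsum_one_nonneg (B := B) ν
  have hn : (0 : ℝ) ≤ n := Nat.cast_nonneg n
  have h4 : 0 ≤ (n : ℝ) * (m.Y ^ 2 * lsum B ν (fun _ => 1)) := by positivity
  have h5 : 0 ≤ m.X ^ 2 * lsum B ν (fun _ => 1) := by positivity
  nlinarith

/-- fourth moment: quadratic growth -/
theorem moment4 : ∃ C : ℝ, 0 < C ∧ ∀ (ν : Arr), (∀ i, ν.zp i = 0) → ∀ n : ℕ,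
    lsum B ((push D.S)^[n] ν) (fun s => ‖s‖ ^ 4) ≤ C * (n + 1) ^ 2 * lsum B ν (fun _ => 1) := by
  obtain ⟨m⟩ := exists_mdata D
  refine ⟨8 * (m.Y ^ 4 + 8 * m.X ^ 2 * (m.Y ^ 2 + m.X ^ 2) + 3 * m.X ^ 4) + 8 * m.Y ^ 4, ?_, ?_⟩
  · have := m.Y_pos
    have := m.X_pos
    positivity
  intro ν hν n
  have h1 : lsum B ((push D.S)^[n] ν) (fun s => ‖s‖ ^ 4) ≤
      lsg B ((push D.S)^[n] ν) (fun a s => 8 * ‖s + m.b a‖ ^ 4 + 8 * m.Y ^ 4) := by
    rw [lsum_eq_lsg]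
    apply lsg_mono
    intro i
    set s := ((push D.S)^[n] ν).zp i
    set a := ((push D.S)^[n] ν).lt i
    have h2 : ‖s‖ ≤ ‖s + m.b a‖ + m.Y := by
      calc ‖s‖ = ‖(s + m.b a) - m.b a‖ := by rw [add_sub_cancel_right]
        _ ≤ ‖s + m.b a‖ + ‖m.b a‖ := norm_sub_le _ _
        _ ≤ _ := by linarith [m.hY a]
    have h3 : ‖s‖ ^ 4 ≤ (‖s + m.b a‖ + m.Y) ^ 4 := pow_le_pow_left₀ (norm_nonneg _) h2 4
    have h4 : (‖s + m.b a‖ + m.Y) ^ 4 ≤ 8 * (‖s + m.b a‖ ^ 4 + m.Y ^ 4) := by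
      set p := ‖s + m.b a‖
      have h5 : (p + m.Y) ^ 2 ≤ 2 * (p ^ 2 + m.Y ^ 2) := by nlinarith [sq_nonneg (p - m.Y)]
      have h6 : ((p + m.Y) ^ 2) ^ 2 ≤ (2 * (p ^ 2 + m.Y ^ 2)) ^ 2 :=
        pow_le_pow_left₀ (sq_nonneg _) h5 2
      nlinarith [sq_nonneg (p ^ 2 - m.Y ^ 2)]
    linarith
  rw [lsg_add, lsg_smul, lsg_const, lsum_one_iter] at h1
  have h2 := iter4 D m ν n
  have h3 := start2 D m ν hν
  have h4 := start4 D m ν hν
  have hm := lsum_one_nonneg (B := B) ν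
  set m0 := lsum B ν (fun _ => 1) with hm0
  have hn : (0 : ℝ) ≤ n := Nat.cast_nonneg n
  set N : ℝ := (n : ℝ) with hN
  have hX := m.X_pos
  have hY := m.Y_pos
  have h5 : 8 * m.X ^ 2 * (lsg B ν (fun a s => ‖s + m.b a‖ ^ 2) + N * m.X ^ 2 * m0) +
          3 * m.X ^ 4 * m0 ≤ 8 * m.X ^ 2 * (m.Y ^ 2 * m0 + N * m.X ^ 2 * m0) + 3 * m.X ^ 4 * m0 := by
    have : 8 * m.X ^ 2 * (lsg B ν (fun a s => ‖s + m.b a‖ ^ 2) + N * m.X ^ 2 * m0) ≤
        8 * m.X ^ 2 * (m.Y ^ 2 * m0 + N * m.X ^ 2 * m0) :=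
      mul_le_mul_of_nonneg_left (by linarith) (by positivity)
    linarith
  have h6 := mul_le_mul_of_nonneg_left h5 hn
  have h7 : lsg B ((push D.S)^[n] ν) (fun a s => ‖s + m.b a‖ ^ 4) ≤
      m.Y ^ 4 * m0 + N * (8 * m.X ^ 2 * (m.Y ^ 2 * m0 + N * m.X ^ 2 * m0) + 3 * m.X ^ 4 * m0) := by
    linarith
  have e1 : 0 ≤ m.Y ^ 4 * m0 := by positivity
  have e2 : 0 ≤ m.X ^ 2 * m.Y ^ 2 * m0 := by positivity
  have e3 : 0 ≤ m.X ^ 4 * m0 := by positivity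
  have f1 : 0 ≤ N * (m.Y ^ 4 * m0) := by positivity
  have f2 : 0 ≤ N * (m.X ^ 2 * m.Y ^ 2 * m0) := by positivity
  have f3 : 0 ≤ N * (m.X ^ 4 * m0) := by positivity
  have g1 : 0 ≤ N ^ 2 * (m.Y ^ 4 * m0) := by positivity
  have g2 : 0 ≤ N ^ 2 * (m.X ^ 2 * m.Y ^ 2 * m0) := by positivity
  have g3 : 0 ≤ N ^ 2 * (m.X ^ 4 * m0) := by positivity
  nlinarith

/-- first moment after `n` natural levels and one kick level (constant independent of the kick) -/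
theorem moment1 : ∃ C : ℝ, 0 < C ∧ ∀ {L : ℕ} {r0 ε : ℝ} (K : Kick D L r0 ε) (ν : Arr),
    InC0 B D.Cν ν → ∀ n : ℕ,
    ∑ i, (push K.κ ((push D.S)^[n] ν)).w i * ‖(push K.κ ((push D.S)^[n] ν)).zp i‖ ≤
      C * (Real.sqrt (n + 1) + |r0| + 1) := by
  obtain ⟨C2, hC2, h2⟩ := moment2 D
  refine ⟨Real.sqrt C2 + 5 * |B.K0| + 2, by positivity, ?_⟩
  intro L r0 ε K ν hν n
  set μ := (push D.S)^[n] ν with hμ
  have hone : lsum B ν (fun _ => 1) = 1 := lsum_one ν hν.1.1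
  have honeμ : lsum B μ (fun _ => 1) = 1 := by rw [hμ, lsum_one_iter, hone]
  -- first: bound by length weights
  have h3 : ∑ i, (push K.κ μ).w i * ‖(push K.κ μ).zp i‖ ≤ lsg B (push K.κ μ) (fun _ s => ‖s‖) := by
    unfold lsg
    refine Finset.sum_le_sum (fun i _ => ?_)
    have hw := (push K.κ μ).w_nonneg i
    have hl := B.l_ge ((push K.κ μ).lt i)
    have hn := norm_nonneg ((push K.κ μ).zp i)
    have : (push K.κ μ).w i * 1 ≤ (push K.κ μ).w i * B.l (ev ((push K.κ μ).lt i)) :=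
      mul_le_mul_of_nonneg_left hl hw
    calc (push K.κ μ).w i * ‖(push K.κ μ).zp i‖ = ((push K.κ μ).w i * 1) * ‖(push K.κ μ).zp i‖ := by
          rw [mul_one]
      _ ≤ _ := mul_le_mul_of_nonneg_right this hn
  have h4 : lsg B (push K.κ μ) (fun _ s => ‖s‖) ≤
      lsg B μ (fun _ s => ‖s‖ + (5 * |B.K0| + 2 * |r0|)) := by
    apply lsg_push_le
    intro η a s
    have hw : ‖K.κ.w‖ = 1 := norm_w K.κ
    have hstep : ∀ y ∈ tiles (K.κ.sub η a) 0, B.l (ev y.1) * ‖K.κ.w * s + B.z y.2‖ ≤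
        (‖s‖ + (5 * |B.K0| + 2 * |r0|)) * B.l (ev y.1) := by
      intro y hy
      have h5 := K.z_bd η a y hy
      have h6 := l_ev_pos B y.1
      have h7 : ‖K.κ.w * s + B.z y.2‖ ≤ ‖s‖ + (5 * |B.K0| + 2 * |r0|) := by
        calc ‖K.κ.w * s + B.z y.2‖ ≤ ‖K.κ.w * s‖ + ‖B.z y.2‖ := norm_add_le _ _
          _ ≤ ‖s‖ + (5 * B.K0 + 2 * r0) := by
              rw [norm_mul, hw, one_mul]; linarith
          _ ≤ _ := by linarith [le_abs_self B.K0, le_abs_self r0]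
      calc B.l (ev y.1) * ‖K.κ.w * s + B.z y.2‖ ≤ B.l (ev y.1) * (‖s‖ + (5 * |B.K0| + 2 * |r0|)) :=
            mul_le_mul_of_nonneg_left h7 h6.le
        _ = _ := by ring
    refine le_trans (list_sum_le _ _ _ hstep) ?_
    rw [list_sum_smul, level_l_sum]
    apply le_of_eq
    ring
  rw [lsg_add, lsg_const, honeμ] at h4
  have h5 : lsg B μ (fun _ s => ‖s‖) ≤ Real.sqrt C2 * Real.sqrt (n + 1) := by
    have h6 := sqrt_lsum (B := B) μ
    rw [honeμ, Real.sqrt_one, one_mul] at h6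
    have h7 := h2 ν hν.2 n
    rw [hone, mul_one] at h7
    calc lsg B μ (fun _ s => ‖s‖) = lsum B μ (fun s => ‖s‖) := rfl
      _ ≤ Real.sqrt (lsum B μ (fun s => ‖s‖ ^ 2)) := h6
      _ ≤ Real.sqrt (C2 * (n + 1)) := Real.sqrt_le_sqrt h7
      _ = _ := Real.sqrt_mul hC2.le _
  have h8 : 0 ≤ Real.sqrt C2 := Real.sqrt_nonneg _
  have h9 : 0 ≤ Real.sqrt ((n : ℝ) + 1) := Real.sqrt_nonneg _
  have h10 : 0 ≤ |B.K0| := abs_nonneg _
  have h11 : 0 ≤ |r0| := abs_nonneg _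
  have i1 := mul_nonneg h8 h11
  have i2 := mul_nonneg h10 h9
  have i3 := mul_nonneg h10 h11
  nlinarith

end Pool.Agent.RS69
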