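import Pool.Agent.RS69.Main1
import Pool.Agent.RS69.Mom2
import Pool.Agent.RS69.Mass1

/-!
# RS69.Main2 : physical comparison (section 6, LOC part)

For `ν1 = push κ (S^n ν)`: by `moment1` and Markov, for each letter `a` the indices with
`|zp_i| ≤ ρ/4`, `ρ = C4 √n`, carry mass `m_a ≥ f_a/2`; keep those with weights `w_i f_a/m_a ≤ 2 w_i` and put
`zp = 0`.  For `|d| ≤ ρ/2`: `J_ρ(s+d) ≥ ρ^{-2} exp(-|s|²/ρ² - 1/4) = (e^{-1/4}/2) J_{ρ/√2}(s)`, and
`e^{-1/4}/8 ≥ 1/12`.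
-/

set_option autoImplicit false

namespace Pool.Agent.RS69

open scoped Classical

variable {B : Base} {D : Design B} {L : ℕ} {r0 ε : ℝ}

/-- Gaussian comparison -/
theorem Jr_shift {ρ : ℝ} (hρ : 0 < ρ) (s d : ℂ) (hd : ‖d‖ ≤ ρ / 2) :
    (1 / 3) * Jr (ρ / Real.sqrt 2) s ≤ Jr ρ (s + d) := by
  unfold Jr SRig.Jg
  have h2 : (ρ / Real.sqrt 2) ^ 2 = ρ ^ 2 / 2 := by
    rw [div_pow, Real.sq_sqrt (by norm_num)]
  rw [h2]
  have hρ2 : 0 < ρ ^ 2 := by positivity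
  have h3 : ‖s + d‖ ^ 2 ≤ 2 * ‖s‖ ^ 2 + ρ ^ 2 / 2 := by
    have h4 : ‖s + d‖ ≤ ‖s‖ + ‖d‖ := norm_add_le s d
    have h5 : ‖s + d‖ ^ 2 ≤ (‖s‖ + ‖d‖) ^ 2 := pow_le_pow_left₀ (norm_nonneg _) h4 2
    have h6 : ‖d‖ ^ 2 ≤ (ρ / 2) ^ 2 := pow_le_pow_left₀ (norm_nonneg _) hd 2
    nlinarith [sq_nonneg (‖s‖ - ‖d‖)]
  have h7 : Real.exp (-(1 / 4)) * Real.exp (-‖s‖ ^ 2 / (2 * (ρ ^ 2 / 2))) ≤
      Real.exp (-‖s + d‖ ^ 2 / (2 * ρ ^ 2)) := by
    rw [← Real.exp_add]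
    apply Real.exp_le_exp.2
    rw [← sub_nonneg]
    have e : -‖s + d‖ ^ 2 / (2 * ρ ^ 2) - (-(1 / 4) + -‖s‖ ^ 2 / (2 * (ρ ^ 2 / 2))) =
        (2 * ‖s‖ ^ 2 + ρ ^ 2 / 2 - ‖s + d‖ ^ 2) / (2 * ρ ^ 2) := by
      field_simp
      ring
    rw [e]
    apply div_nonneg _ (by positivity)
    linarith
  have h8 : (2 / 3 : ℝ) ≤ Real.exp (-(1 / 4)) := by
    have := Real.add_one_le_exp (-(1 / 4) : ℝ)
    linarith
  have h9 : (2 / 3 : ℝ) * Real.exp (-‖s‖ ^ 2 / (2 * (ρ ^ 2 / 2))) ≤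
      Real.exp (-‖s + d‖ ^ 2 / (2 * ρ ^ 2)) :=
    (mul_le_mul_of_nonneg_right h8 (Real.exp_pos _).le).trans h7
  have e2 : (1 / 3 : ℝ) * ((ρ ^ 2 / 2)⁻¹ * Real.exp (-‖s‖ ^ 2 / (2 * (ρ ^ 2 / 2)))) =
      (ρ ^ 2)⁻¹ * ((2 / 3 : ℝ) * Real.exp (-‖s‖ ^ 2 / (2 * (ρ ^ 2 / 2)))) := by
    rw [inv_div]
    field_simp
  rw [e2]
  exact mul_le_mul_of_nonneg_left h9 (by positivity)

private theorem Bdd_H' (D : Design B) (n : ℕ) : ∃ R, Bdd B R (D.S.H n) := by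
  refine ⟨max B.lmax (2 * D.Zt * n), fun O hO => ⟨?_, ?_⟩⟩
  · refine le_trans (abs_l_le_of_I_pos B O ?_) (le_max_left _ _)
    have h1 := H_nonneg D n O
    have h2 := H_le_I D n O
    exact lt_of_lt_of_le (lt_of_le_of_ne h1 (Ne.symm hO)) h2
  · exact le_trans (H_supp D n O hO) (le_max_right _ _)

/-- restriction of an array to the indices near the origin -/
theorem near_array (D : Design B) {ν1 : Arr} (h1 : InC B D.Cν ν1) {ρ : ℝ} (hρ : 0 < ρ)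
    (h : ∀ a, ∑ i, ν1.w i * ‖ν1.zp i‖ ≤ ρ / 8 * B.f a) :
    ∃ ν' : Arr, InC0 B D.Cν ν' ∧ ∀ m,
      (1 / 12) * D.Qn ν' m (ρ / Real.sqrt 2) ≤ D.Qn ν1 m ρ := by
  -- masses near the origin
  set M : Ltr → ℝ := fun a => ∑ i, if ν1.lt i = a then (if ‖ν1.zp i‖ ≤ ρ / 4 then ν1.w i else 0) else 0
    with hM
  have hMge : ∀ a, B.f a / 2 ≤ M a := by
    intro a
    have e1 : B.f a - M a = ∑ i, if ν1.lt i = a then (if ‖ν1.zp i‖ ≤ ρ / 4 then 0 else ν1.w i) else 0 := by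
      rw [hM, ← h1.1 a]
      simp only
      rw [← Finset.sum_sub_distrib]
      refine Finset.sum_congr rfl fun i _ => ?_
      split_ifs <;> ring
    have e2 : (ρ / 4) * (B.f a - M a) ≤ ρ / 8 * B.f a := by
      refine le_trans ?_ (h a)
      rw [e1, Finset.mul_sum]
      refine Finset.sum_le_sum fun i _ => ?_
      have hw := ν1.w_nonneg i
      have hn := norm_nonneg (ν1.zp i)
      split_ifs with h2 h3
      · rw [mul_zero]; positivity
      · have h4 : ρ / 4 ≤ ‖ν1.zp i‖ := (not_le.1 h3).le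
        rw [mul_comm]
        exact mul_le_mul_of_nonneg_left h4 hw
      · rw [mul_zero]; positivity
    have e3 : (ρ / 4) * (B.f a - M a) ≤ (ρ / 4) * (B.f a / 2) := by linarith
    have e4 := le_of_mul_le_mul_left e3 (by positivity : 0 < ρ / 4)
    linarith
  have hMpos : ∀ a, 0 < M a := fun a => lt_of_lt_of_le (half_pos (B.f_pos a)) (hMge a)
  have hratio0 : ∀ a, 0 ≤ B.f a / M a := fun a => div_nonneg (B.f_pos a).le (hMpos a).le
  have hratio : ∀ a, B.f a / M a ≤ 2 := by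
    intro a
    rw [div_le_iff₀ (hMpos a)]
    linarith [hMge a]
  -- the new array
  let ν' : Arr :=
    { ι := ν1.ι
      lt := ν1.lt
      pos := ν1.pos
      zp := fun _ => 0
      w := fun i => if ‖ν1.zp i‖ ≤ ρ / 4 then ν1.w i * (B.f (ν1.lt i) / M (ν1.lt i)) else 0
      w_nonneg := by
        intro i
        split_ifs
        · exact mul_nonneg (ν1.w_nonneg i) (hratio0 _)
        · exact le_rfl }
  refine ⟨ν', ⟨⟨?_, h1.2⟩, fun _ => rfl⟩, ?_⟩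
  · intro a
    have e1 : (∑ i : ν1.ι, if ν1.lt i = a then
        (if ‖ν1.zp i‖ ≤ ρ / 4 then ν1.w i * (B.f (ν1.lt i) / M (ν1.lt i)) else 0) else 0) =
        M a * (B.f a / M a) := by
      rw [hM, Finset.sum_mul]
      refine Finset.sum_congr rfl fun i _ => ?_
      by_cases h2 : ν1.lt i = a
      · rw [if_pos h2, if_pos h2, h2]
        split_ifs <;> ring
      · rw [if_neg h2, if_neg h2, zero_mul]
    exact e1.trans (mul_div_cancel₀ _ (hMpos a).ne')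
  · intro m
    obtain ⟨R, hR⟩ := Bdd_H' D m
    have hζ := ζ0_pos D
    unfold Design.Qn Bf
    rw [Finset.mul_sum]
    refine Finset.sum_le_sum fun i _ => ?_
    rw [Finset.mul_sum]
    refine Finset.sum_le_sum fun j _ => ?_
    have hT0 : ∀ (i j : ν1.ι) (V : Vec), 0 ≤ KD D.ζ0 1 (B.c V + ν1.pos i - ν1.pos j) *
        Jr ρ (B.z V + ν1.zp i - ν1.zp j) * D.S.H m (ν1.lt i, ν1.lt j, V) := fun i j V =>
      mul_nonneg (mul_nonneg (KD_nonneg zero_le_one _) (Jr_nonneg _ _)) (H_nonneg D m _)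
    by_cases hi : ‖ν1.zp i‖ ≤ ρ / 4
    · by_cases hj : ‖ν1.zp j‖ ≤ ρ / 4
      · have hwi : ν'.w i = ν1.w i * (B.f (ν1.lt i) / M (ν1.lt i)) := if_pos hi
        have hwj : ν'.w j = ν1.w j * (B.f (ν1.lt j) / M (ν1.lt j)) := if_pos hj
        have hd : ‖ν1.zp i - ν1.zp j‖ ≤ ρ / 2 := by
          calc ‖ν1.zp i - ν1.zp j‖ ≤ ‖ν1.zp i‖ + ‖ν1.zp j‖ := norm_sub_le _ _
            _ ≤ ρ / 2 := by linarith
        have hs1 := Bf_summable B (D := 1) hζ one_pos (Jr (ρ / Real.sqrt 2)) ν' hR i j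
        have hs2 := Bf_summable B (D := 1) hζ one_pos (Jr ρ) ν1 hR i j
        have hts : (1 / 3) * ∑' V : Vec, KD D.ζ0 1 (B.c V + ν'.pos i - ν'.pos j) *
            Jr (ρ / Real.sqrt 2) (B.z V + ν'.zp i - ν'.zp j) * D.S.H m (ν'.lt i, ν'.lt j, V) ≤
            ∑' V : Vec, KD D.ζ0 1 (B.c V + ν1.pos i - ν1.pos j) *
            Jr ρ (B.z V + ν1.zp i - ν1.zp j) * D.S.H m (ν1.lt i, ν1.lt j, V) := by
          rw [← tsum_mul_left]
          refine Summable.tsum_le_tsum ?_ (hs1.mul_left _) hs2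
          intro V
          have e1 : B.z V + ν'.zp i - ν'.zp j = B.z V := by
            show B.z V + 0 - 0 = B.z V
            rw [add_zero, sub_zero]
          have e2 : B.z V + ν1.zp i - ν1.zp j = B.z V + (ν1.zp i - ν1.zp j) := by ring
          rw [e1, e2]
          have e3 := Jr_shift hρ (B.z V) (ν1.zp i - ν1.zp j) hd
          have hK : 0 ≤ KD D.ζ0 1 (B.c V + ν1.pos i - ν1.pos j) := KD_nonneg zero_le_one _
          have hH := H_nonneg D m (ν1.lt i, ν1.lt j, V)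
          show 1 / 3 * (KD D.ζ0 1 (B.c V + ν1.pos i - ν1.pos j) * Jr (ρ / Real.sqrt 2) (B.z V) *
            D.S.H m (ν1.lt i, ν1.lt j, V)) ≤ _
          calc 1 / 3 * (KD D.ζ0 1 (B.c V + ν1.pos i - ν1.pos j) * Jr (ρ / Real.sqrt 2) (B.z V) *
                D.S.H m (ν1.lt i, ν1.lt j, V)) =
              KD D.ζ0 1 (B.c V + ν1.pos i - ν1.pos j) * (1 / 3 * Jr (ρ / Real.sqrt 2) (B.z V)) *
                D.S.H m (ν1.lt i, ν1.lt j, V) := by ring
            _ ≤ _ := mul_le_mul_of_nonneg_right (mul_le_mul_of_nonneg_left e3 hK) hH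
        set T' := ∑' V : Vec, KD D.ζ0 1 (B.c V + ν'.pos i - ν'.pos j) *
            Jr (ρ / Real.sqrt 2) (B.z V + ν'.zp i - ν'.zp j) * D.S.H m (ν'.lt i, ν'.lt j, V) with hT'
        set T := ∑' V : Vec, KD D.ζ0 1 (B.c V + ν1.pos i - ν1.pos j) *
            Jr ρ (B.z V + ν1.zp i - ν1.zp j) * D.S.H m (ν1.lt i, ν1.lt j, V) with hT
        have hT'0 : 0 ≤ T' := tsum_nonneg fun V =>
          mul_nonneg (mul_nonneg (KD_nonneg zero_le_one _) (Jr_nonneg _ _)) (H_nonneg D m _)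
        have hwi' : ν'.w i ≤ 2 * ν1.w i := by
          rw [hwi, mul_comm 2]
          exact mul_le_mul_of_nonneg_left (hratio _) (ν1.w_nonneg i)
        have hwj' : ν'.w j ≤ 2 * ν1.w j := by
          rw [hwj, mul_comm 2]
          exact mul_le_mul_of_nonneg_left (hratio _) (ν1.w_nonneg j)
        have hww : ν'.w i * ν'.w j ≤ 4 * (ν1.w i * ν1.w j) := by
          calc ν'.w i * ν'.w j ≤ (2 * ν1.w i) * (2 * ν1.w j) :=
                mul_le_mul hwi' hwj' (ν'.w_nonneg j) (mul_nonneg (by norm_num) (ν1.w_nonneg i))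
            _ = _ := by ring
        calc 1 / 12 * (ν'.w i * ν'.w j * T') ≤ 1 / 12 * (4 * (ν1.w i * ν1.w j) * T') :=
              mul_le_mul_of_nonneg_left (mul_le_mul_of_nonneg_right hww hT'0) (by norm_num)
          _ = ν1.w i * ν1.w j * (1 / 3 * T') := by ring
          _ ≤ ν1.w i * ν1.w j * T := mul_le_mul_of_nonneg_left hts
              (mul_nonneg (ν1.w_nonneg i) (ν1.w_nonneg j))
      · have hwj : ν'.w j = 0 := if_neg hj
        rw [hwj, mul_zero, zero_mul, mul_zero]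
        exact mul_nonneg (mul_nonneg (ν1.w_nonneg i) (ν1.w_nonneg j)) (tsum_nonneg (hT0 i j))
    · have hwi : ν'.w i = 0 := if_neg hi
      rw [hwi, zero_mul, zero_mul, mul_zero]
      exact mul_nonneg (mul_nonneg (ν1.w_nonneg i) (ν1.w_nonneg j)) (tsum_nonneg (hT0 i j))

/-- positive definiteness + physical comparison, localised -/
theorem total_loc (D : Design B) : ∃ C5 : ℝ, 1 ≤ C5 ∧ ∀ {L : ℕ} {r0 ε : ℝ} (K : Kick D L r0 ε),
    ∃ n0 : ℕ, ∀ n, n0 ≤ n → ∀ (m : ℕ) {ν : Arr}, InC0 B D.Cν ν → ∀ r : ℝ, 1 ≤ r → r ≤ Real.sqrt n →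
      ∃ ν' : Arr, InC0 B D.Cν ν' ∧
        (1 / 12) * D.Qn ν' m (C5 * Real.sqrt n) ≤ Bf B D.ζ0 1 (Jr r) ν (D.S.op^[n] (Km K m)) := by
  obtain ⟨C, hC, hmom⟩ := moment1 D
  -- a lower bound of the masses
  obtain ⟨fm, hfm, hfmle⟩ : ∃ fm : ℝ, 0 < fm ∧ ∀ a, fm ≤ B.f a := by
    obtain ⟨a0, _, ha0⟩ := Finset.exists_min_image Finset.univ B.f ⟨0, Finset.mem_univ _⟩
    exact ⟨B.f a0, B.f_pos a0, fun a => ha0 a (Finset.mem_univ a)⟩
  refine ⟨max 1 (24 * C / fm), le_max_left _ _, ?_⟩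
  intro L r0 ε K
  set C5 := max 1 (24 * C / fm) with hC5
  have hC51 : 1 ≤ C5 := le_max_left _ _
  have hC52 : 24 * C / fm ≤ C5 := le_max_right _ _
  have hC53 : 24 * C ≤ C5 * fm := by rwa [div_le_iff₀ hfm] at hC52
  refine ⟨⌈(|r0| + 1) ^ 2⌉₊ + 1, ?_⟩
  intro n hn m ν hν r hr1 hrn
  have hn1 : (1 : ℝ) ≤ n := by
    have : 1 ≤ n := by omega
    exact_mod_cast this
  have hn2 : (|r0| + 1) ^ 2 ≤ n := by
    have h1 : (⌈(|r0| + 1) ^ 2⌉₊ : ℝ) ≤ n := by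
      have : ⌈(|r0| + 1) ^ 2⌉₊ ≤ n := by omega
      exact_mod_cast this
    exact (Nat.le_ceil _).trans h1
  have hsn : |r0| + 1 ≤ Real.sqrt n := by
    apply Real.le_sqrt_of_sq_le hn2
  have hs0 : 0 < Real.sqrt n := lt_of_lt_of_le (by positivity) hsn
  have hs1 : Real.sqrt (n + 1) ≤ 2 * Real.sqrt n := by
    rw [Real.sqrt_le_left (by positivity), mul_pow, Real.sq_sqrt (by positivity)]
    linarith
  set ρ := Real.sqrt 2 * (C5 * Real.sqrt n) with hρdef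
  have hsq2 : 1 ≤ Real.sqrt 2 := by
    rw [Real.one_le_sqrt]
    norm_num
  have hCs : 0 < C5 * Real.sqrt n := mul_pos (by linarith) hs0
  have hρ : 0 < ρ := mul_pos (by linarith) hCs
  have hρge : C5 * Real.sqrt n ≤ ρ := by
    rw [hρdef]
    exact le_mul_of_one_le_left hCs.le hsq2
  have hrρ : r ≤ ρ := by
    refine hrn.trans (le_trans ?_ hρge)
    exact le_mul_of_one_le_left hs0.le hC51
  set ν1 := push K.κ ((push D.S)^[n] ν) with hν1
  have hInC : InC B D.Cν ν1 := push_kick_InC D K (iter_push_InC D n hν.1)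
  have hm := hmom K ν hν n
  rw [← hν1] at hm
  have hnear : ∀ a, ∑ i, ν1.w i * ‖ν1.zp i‖ ≤ ρ / 8 * B.f a := by
    intro a
    refine hm.trans ?_
    calc C * (Real.sqrt (n + 1) + |r0| + 1) ≤ C * (3 * Real.sqrt n) :=
          mul_le_mul_of_nonneg_left (by linarith) hC.le
      _ = (24 * C) * Real.sqrt n / 8 := by ring
      _ ≤ (C5 * fm) * Real.sqrt n / 8 := by
          have := mul_le_mul_of_nonneg_right hC53 hs0.le
          linarith
      _ = (C5 * Real.sqrt n) / 8 * fm := by ring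
      _ ≤ ρ / 8 * fm := mul_le_mul_of_nonneg_right (by linarith) hfm.le
      _ ≤ ρ / 8 * B.f a := mul_le_mul_of_nonneg_left (hfmle a) (by positivity)
  obtain ⟨ν', hν', hQ⟩ := near_array D hInC hρ hnear
  refine ⟨ν', hν', ?_⟩
  have e1 : ρ / Real.sqrt 2 = C5 * Real.sqrt n := by
    rw [hρdef, mul_div_cancel_left₀ _ (by positivity)]
  have h1 := hQ m
  rw [e1] at h1
  exact h1.trans (total_loc0 K ν n m (by linarith) hrρ)

end Pool.Agent.RS69
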