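import Mathlib

/-!
# RS69.Main3Aux : choice of the number of steps, exponents
-/

set_option autoImplicit false

namespace Pool.Agent.RS69

namespace Main3Aux

theorem eventually_rpow (K δ : ℝ) (hδ : 0 < δ) : ∀ᶠ n : ℕ in Filter.atTop, K ≤ (n : ℝ) ^ δ :=
  ((tendsto_rpow_atTop hδ).comp tendsto_natCast_atTop_atTop).eventually_ge_atTop K

/-- bound of the number of steps, and of `A^S` -/
theorem steps (t A C : ℝ) (L : ℕ) (ht : 1 < t) (hA : 1 ≤ A) (hAt : A ^ 40 ≤ t) (hC : 1 ≤ C) :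
    ∃ K1 K2 : ℝ, 1 ≤ K1 ∧ 1 ≤ K2 ∧ ∀ n : ℕ, 1 ≤ n → ∀ N : ℕ, 1 ≤ N → (N : ℝ) ≤ (n : ℝ) ^ (11 / 10 : ℝ) →
      ∃ S : ℕ, C * (1 + (N : ℝ)) ^ 2 < t ^ S ∧ ((S : ℝ) + L + 2 ≤ K1 * (n : ℝ) ^ (1 / 100 : ℝ)) ∧
        A ^ S ≤ K2 * (n : ℝ) ^ (55 / 1000 : ℝ) := by
  have hlt : 0 < Real.log t := Real.log_pos ht
  have hlC : 0 ≤ Real.log C := Real.log_nonneg hC
  have hL : (0 : ℝ) ≤ L := Nat.cast_nonneg L
  refine ⟨(Real.log C + 222) / Real.log t + L + 3, 4 * t * C, ?_, by nlinarith, ?_⟩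
  · have : 0 ≤ (Real.log C + 222) / Real.log t := by positivity
    linarith
  intro n hn N hN hNn
  have hn1 : (1 : ℝ) ≤ n := by exact_mod_cast hn
  have hn0 : (0 : ℝ) < n := by linarith
  have hN1 : (1 : ℝ) ≤ N := by exact_mod_cast hN
  set x : ℝ := Real.log (C * (1 + (N : ℝ)) ^ 2) / Real.log t with hx
  have hpos : 1 ≤ C * (1 + (N : ℝ)) ^ 2 := by nlinarith
  have hx0 : 0 ≤ x := div_nonneg (Real.log_nonneg hpos) hlt.le
  have htx : t ^ x = C * (1 + (N : ℝ)) ^ 2 := by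
    rw [hx, Real.rpow_def_of_pos (by linarith), mul_div_cancel₀ _ hlt.ne', Real.exp_log (by linarith)]
  have hp : (1 : ℝ) ≤ (n : ℝ) ^ (1 / 100 : ℝ) := Real.one_le_rpow hn1 (by norm_num)
  refine ⟨⌊x⌋₊ + 1, ?_, ?_, ?_⟩
  · rw [← htx, ← Real.rpow_natCast]
    apply Real.rpow_lt_rpow_of_exponent_lt ht
    push_cast
    exact Nat.lt_floor_add_one x
  · push_cast
    have h1 : (⌊x⌋₊ : ℝ) ≤ x := Nat.floor_le hx0
    have h2 : Real.log (C * (1 + (N : ℝ)) ^ 2) ≤ (Real.log C + 222) * (n : ℝ) ^ (1 / 100 : ℝ) := by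
      rw [Real.log_mul (by linarith) (by positivity), Real.log_pow]
      have h3 : Real.log (1 + N) ≤ 1 + 11 / 10 * Real.log n := by
        have h4 : (1 : ℝ) + N ≤ 2 * (n : ℝ) ^ (11 / 10 : ℝ) := by linarith
        calc Real.log (1 + N) ≤ Real.log (2 * (n : ℝ) ^ (11 / 10 : ℝ)) :=
              Real.log_le_log (by linarith) h4
          _ = Real.log 2 + 11 / 10 * Real.log n := by
              rw [Real.log_mul (by norm_num) (by positivity), Real.log_rpow hn0]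
          _ ≤ _ := by linarith [Real.log_two_lt_d9]
      have h5 : Real.log n ≤ 100 * (n : ℝ) ^ (1 / 100 : ℝ) := by
        have := Real.log_le_rpow_div hn0.le (show (0 : ℝ) < 1 / 100 by norm_num)
        calc Real.log n ≤ (n : ℝ) ^ (1 / 100 : ℝ) / (1 / 100) := this
          _ = _ := by ring
      have h6 : Real.log C ≤ Real.log C * (n : ℝ) ^ (1 / 100 : ℝ) := le_mul_of_one_le_right hlC hp
      push_cast
      nlinarith
    have h7 : x ≤ (Real.log C + 222) / Real.log t * (n : ℝ) ^ (1 / 100 : ℝ) := by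
      rw [hx, div_mul_eq_mul_div]
      exact div_le_div_of_nonneg_right h2 hlt.le
    have h8 : ((L : ℝ) + 3) ≤ (L + 3) * (n : ℝ) ^ (1 / 100 : ℝ) := le_mul_of_one_le_right (by linarith) hp
    nlinarith
  · have h1 : t ^ (⌊x⌋₊ + 1) ≤ t * (C * (1 + (N : ℝ)) ^ 2) := by
      rw [pow_succ, mul_comm, ← htx, ← Real.rpow_natCast t ⌊x⌋₊]
      apply mul_le_mul_of_nonneg_left _ (by linarith)
      exact Real.rpow_le_rpow_of_exponent_le ht.le (Nat.floor_le hx0)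
    have h2 : (A ^ (⌊x⌋₊ + 1)) ^ 40 ≤ t ^ (⌊x⌋₊ + 1) := by
      rw [← pow_mul, mul_comm, pow_mul]
      exact pow_le_pow_left₀ (by positivity) hAt _
    have h3 : (1 + (N : ℝ)) ^ 2 ≤ 4 * (n : ℝ) ^ (22 / 10 : ℝ) := by
      have h4 : (1 : ℝ) + N ≤ 2 * (n : ℝ) ^ (11 / 10 : ℝ) := by linarith
      calc (1 + (N : ℝ)) ^ 2 ≤ (2 * (n : ℝ) ^ (11 / 10 : ℝ)) ^ 2 := pow_le_pow_left₀ (by linarith) h4 2
        _ = 4 * ((n : ℝ) ^ (11 / 10 : ℝ)) ^ (2 : ℝ) := by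
            rw [mul_pow, Real.rpow_two]; norm_num
        _ = _ := by
            rw [← Real.rpow_mul hn0.le]; norm_num
    have h5 : (A ^ (⌊x⌋₊ + 1)) ^ 40 ≤ (4 * t * C * (n : ℝ) ^ (55 / 1000 : ℝ)) ^ 40 := by
      have h6 : (4 * t * C * (n : ℝ) ^ (55 / 1000 : ℝ)) ^ 40 =
          (4 * t * C) ^ 40 * (n : ℝ) ^ (22 / 10 : ℝ) := by
        rw [mul_pow]
        congr 1
        rw [← Real.rpow_natCast, ← Real.rpow_mul hn0.le]
        norm_num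
      rw [h6]
      have h7 : 1 ≤ 4 * t * C := by nlinarith
      have h8 : 4 * t * C ≤ (4 * t * C) ^ 40 := le_self_pow₀ h7 (by norm_num)
      have h9 : 0 ≤ (n : ℝ) ^ (22 / 10 : ℝ) := by positivity
      calc (A ^ (⌊x⌋₊ + 1)) ^ 40 ≤ t * (C * (1 + (N : ℝ)) ^ 2) := le_trans h2 h1
        _ ≤ t * (C * (4 * (n : ℝ) ^ (22 / 10 : ℝ))) := by
            apply mul_le_mul_of_nonneg_left _ (by linarith)
            exact mul_le_mul_of_nonneg_left h3 (by linarith)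
        _ = (4 * t * C) * (n : ℝ) ^ (22 / 10 : ℝ) := by ring
        _ ≤ _ := mul_le_mul_of_nonneg_right h8 h9
    have h10 : 0 ≤ 4 * t * C * (n : ℝ) ^ (55 / 1000 : ℝ) := by
      have : 0 ≤ 4 * t * C := by nlinarith
      positivity
    exact le_of_pow_le_pow_left₀ (by norm_num) h10 h5

/-- choice of `S` and the exponents -/
theorem num_core (t A C ε : ℝ) (L : ℕ) (ht : 1 < t) (hA : 1 ≤ A) (hAt : A ^ 40 ≤ t) (hC : 1 ≤ C)
    (hε : 0 < ε) (hε1 : ε < 1) :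
    ∃ n0 : ℕ, ∀ n : ℕ, n0 ≤ n → ∀ N : ℕ, 2 * n ≤ N → (N : ℝ) ≤ (n : ℝ) ^ (11 / 10 : ℝ) →
      1 ≤ n ∧ ∃ S : ℕ, C * (1 + (N : ℝ)) ^ 2 < t ^ S ∧ S + L + 1 ≤ n ∧
        4 * ((S + L + 1 : ℕ) : ℝ) + 4 ≤ ε * n ∧ (1 + ε) * n + ((S + L + 1 : ℕ) : ℝ) + 1 ≤ N ∧
        ((S : ℝ) + 1) * (C * A ^ S * (2 * (8 * (Real.sqrt (8 * ((S + L + 1 : ℕ) : ℝ) / (ε * n)) *
          Real.sqrt 2)))) ≤ (n : ℝ) ^ (-(2 / 5) : ℝ) := by
  obtain ⟨K1, K2, hK1, hK2, hS⟩ := steps t A C L ht hA hAt hC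
  set K3 : ℝ := K1 * (C * K2 * (2 * (8 * (Real.sqrt (8 * K1 / ε) * Real.sqrt 2)))) with hK3
  have e1 := eventually_rpow K3 (3 / 100) (by norm_num)
  have e2 := eventually_rpow (4 * K1 / ε + K1 / (1 - ε)) (99 / 100) (by norm_num)
  have e3 := Filter.eventually_ge_atTop 1
  obtain ⟨n0, hn0⟩ := Filter.eventually_atTop.mp ((e1.and e2).and e3)
  refine ⟨n0, fun n hn N hN hNn => ?_⟩
  obtain ⟨⟨f1, f2⟩, f3⟩ := hn0 n hn
  have hn1 : (1 : ℝ) ≤ n := by exact_mod_cast f3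
  have hnp : (0 : ℝ) < n := by linarith
  obtain ⟨S, g1, g2, g3⟩ := hS n f3 N (by omega) hNn
  have hε1' : 0 < 1 - ε := by linarith
  -- K1 n^{1/100} is small
  have hsplit : (n : ℝ) ^ (1 / 100 : ℝ) * (n : ℝ) ^ (99 / 100 : ℝ) = n := by
    rw [← Real.rpow_add hnp]; norm_num
  have hp1 : (0 : ℝ) < (n : ℝ) ^ (1 / 100 : ℝ) := by positivity
  have h1 : 4 * K1 * (n : ℝ) ^ (1 / 100 : ℝ) ≤ ε * n := by
    have h : 4 * K1 / ε ≤ (n : ℝ) ^ (99 / 100 : ℝ) := by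
      have : 0 ≤ K1 / (1 - ε) := by positivity
      linarith
    have h' : 4 * K1 ≤ ε * (n : ℝ) ^ (99 / 100 : ℝ) := by
      rw [div_le_iff₀ hε] at h; linarith
    calc 4 * K1 * (n : ℝ) ^ (1 / 100 : ℝ) ≤ ε * (n : ℝ) ^ (99 / 100 : ℝ) * (n : ℝ) ^ (1 / 100 : ℝ) :=
          mul_le_mul_of_nonneg_right h' hp1.le
      _ = ε * ((n : ℝ) ^ (1 / 100 : ℝ) * (n : ℝ) ^ (99 / 100 : ℝ)) := by ring
      _ = _ := by rw [hsplit]
  have h2 : K1 * (n : ℝ) ^ (1 / 100 : ℝ) ≤ (1 - ε) * n := by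
    have h : K1 / (1 - ε) ≤ (n : ℝ) ^ (99 / 100 : ℝ) := by
      have : 0 ≤ 4 * K1 / ε := by positivity
      linarith
    have h' : K1 ≤ (1 - ε) * (n : ℝ) ^ (99 / 100 : ℝ) := by
      rw [div_le_iff₀ hε1'] at h; linarith
    calc K1 * (n : ℝ) ^ (1 / 100 : ℝ) ≤ (1 - ε) * (n : ℝ) ^ (99 / 100 : ℝ) * (n : ℝ) ^ (1 / 100 : ℝ) :=
          mul_le_mul_of_nonneg_right h' hp1.le
      _ = (1 - ε) * ((n : ℝ) ^ (1 / 100 : ℝ) * (n : ℝ) ^ (99 / 100 : ℝ)) := by ring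
      _ = _ := by rw [hsplit]
  have hq4 : 4 * ((S + L + 1 : ℕ) : ℝ) + 4 ≤ ε * n := by
    push_cast
    linarith
  have hqn : S + L + 1 ≤ n := by
    have : ((S + L + 1 : ℕ) : ℝ) ≤ n := by
      have h0 : (0 : ℝ) ≤ ((S + L + 1 : ℕ) : ℝ) := Nat.cast_nonneg _
      nlinarith
    exact_mod_cast this
  have hNr : 2 * (n : ℝ) ≤ N := by exact_mod_cast hN
  refine ⟨f3, S, g1, hqn, hq4, ?_, ?_⟩
  · push_cast
    linarith
  · have hS0 : (0 : ℝ) ≤ S := Nat.cast_nonneg S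
    have hL0 : (0 : ℝ) ≤ L := Nat.cast_nonneg L
    have hs1 : (S : ℝ) + 1 ≤ K1 * (n : ℝ) ^ (1 / 100 : ℝ) := by linarith
    have hq : ((S + L + 1 : ℕ) : ℝ) ≤ K1 * (n : ℝ) ^ (1 / 100 : ℝ) := by push_cast; linarith
    have hsq : Real.sqrt (8 * ((S + L + 1 : ℕ) : ℝ) / (ε * n)) ≤
        Real.sqrt (8 * K1 / ε) * (n : ℝ) ^ (-(495 / 1000) : ℝ) := by
      have h3 : 8 * ((S + L + 1 : ℕ) : ℝ) / (ε * n) ≤
          (8 * K1 / ε) * ((n : ℝ) ^ (-(495 / 1000) : ℝ)) ^ 2 := by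
        have h4 : ((n : ℝ) ^ (-(495 / 1000) : ℝ)) ^ 2 = (n : ℝ) ^ (1 / 100 : ℝ) / n := by
          rw [← Real.rpow_natCast, ← Real.rpow_mul hnp.le, eq_div_iff hnp.ne']
          nth_rewrite 2 [← Real.rpow_one (n : ℝ)]
          rw [← Real.rpow_add hnp]
          norm_num
        rw [h4]
        calc 8 * ((S + L + 1 : ℕ) : ℝ) / (ε * n) ≤ 8 * (K1 * (n : ℝ) ^ (1 / 100 : ℝ)) / (ε * n) := by
              apply div_le_div_of_nonneg_right _ (by positivity)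
              linarith
          _ = _ := by field_simp
      calc Real.sqrt (8 * ((S + L + 1 : ℕ) : ℝ) / (ε * n)) ≤
            Real.sqrt ((8 * K1 / ε) * ((n : ℝ) ^ (-(495 / 1000) : ℝ)) ^ 2) := Real.sqrt_le_sqrt h3
        _ = _ := by
            rw [Real.sqrt_mul (by positivity), Real.sqrt_sq (by positivity)]
    have hA0 : 0 ≤ A ^ S := by positivity
    have hfin : ((S : ℝ) + 1) * (C * A ^ S * (2 * (8 * (Real.sqrt (8 * ((S + L + 1 : ℕ) : ℝ) / (ε * n)) *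
          Real.sqrt 2)))) ≤ (K1 * (n : ℝ) ^ (1 / 100 : ℝ)) * (C * (K2 * (n : ℝ) ^ (55 / 1000 : ℝ)) *
            (2 * (8 * ((Real.sqrt (8 * K1 / ε) * (n : ℝ) ^ (-(495 / 1000) : ℝ)) * Real.sqrt 2)))) := by
      gcongr
    refine le_trans hfin ?_
    have heq : (K1 * (n : ℝ) ^ (1 / 100 : ℝ)) * (C * (K2 * (n : ℝ) ^ (55 / 1000 : ℝ)) *
            (2 * (8 * ((Real.sqrt (8 * K1 / ε) * (n : ℝ) ^ (-(495 / 1000) : ℝ)) * Real.sqrt 2)))) =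
        K3 * (n : ℝ) ^ (-(43 / 100) : ℝ) := by
      have h5 : (n : ℝ) ^ (1 / 100 : ℝ) * ((n : ℝ) ^ (55 / 1000 : ℝ) * (n : ℝ) ^ (-(495 / 1000) : ℝ)) =
          (n : ℝ) ^ (-(43 / 100) : ℝ) := by
        rw [← Real.rpow_add hnp, ← Real.rpow_add hnp]; norm_num
      rw [← h5, hK3]
      ring
    rw [heq]
    calc K3 * (n : ℝ) ^ (-(43 / 100) : ℝ) ≤ (n : ℝ) ^ (3 / 100 : ℝ) * (n : ℝ) ^ (-(43 / 100) : ℝ) :=
          mul_le_mul_of_nonneg_right f1 (by positivity)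
      _ = _ := by rw [← Real.rpow_add hnp]; norm_num

end Main3Aux

end Pool.Agent.RS69
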