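import Pool.Agent.RS69.Main2
import Pool.Agent.RS69.KReg3
import Pool.Agent.RS69.En2
import Pool.Agent.RS69.Main3Aux

/-!
# RS69.Main3 : the main inequalities FLAT and LOC (section 6)

`m = N - n' - L`, `S = ⌈log_t (C (1 + N + L)^2)⌉ + 1` (so `A^S ≤ C' N^{1/20}` by `A_pow : A^40 ≤ t`),
`energy_window` with `q = S + L + 1`; mass `≤ C N^2` (flat, `mass_flat` and `H_supp`), `≤ C` (localised);
flat: `c_N ≥ const` so `mass^{1/8} ≤ C N^{1/4} c_N^{1/8}`; total exponent `1/20 + 0.275 + o(1) - 1/2 < -1/10`.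
-/

set_option autoImplicit false

namespace Pool.Agent.RS69

open scoped Classical

variable {B : Base} {D : Design B} {L : ℕ} {r0 ε : ℝ}

namespace Main3Aux

theorem Bf_H_nonneg (D : Design B) {J : ℂ → ℝ} (hJ : ∀ s, 0 ≤ J s) (ν : Arr) (n : ℕ) :
    0 ≤ Bf B D.ζ0 1 J ν (D.S.H n) :=
  Bf_nonneg B zero_le_one hJ ν (fun O => H_nonneg D n O)

/-- the error term, any kernel -/
theorem err_core (D : Design B) : ∃ CL : ℝ, 0 < CL ∧ ∀ {L : ℕ} {r0 ε : ℝ} (K : Kick D L r0 ε), 0 ≤ r0 →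
    CL + 4 * r0 ≤ L → 0 < ε → ε < 1 →
    ∃ n0 : ℕ, ∀ n : ℕ, n0 ≤ n → ∀ N : ℕ, 2 * n ≤ N → (N : ℝ) ≤ (n : ℝ) ^ (11 / 10 : ℝ) →
      ∀ {J : ℂ → ℝ}, (∀ s, 0 ≤ J s) → ∀ {ν : Arr}, InC B D.Cν ν → ∀ mm : ℝ, 0 ≤ mm →
        Bf B D.ζ0 1 J ν (fun O => if D.S.H N O ≠ 0 then B.I O else 0) ≤ mm →
        ∃ (n' : ℕ), n ≤ n' ∧ (n' : ℝ) ≤ (1 + ε) * n ∧ n' + L ≤ N ∧
        Bf B D.ζ0 1 J ν (D.S.op^[n'] (am K (N - n' - L))) ≤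
          (n : ℝ) ^ (-(2 / 5) : ℝ) * (Real.sqrt (Bf B D.ζ0 1 J ν (D.S.H N)) *
            Real.sqrt (mm ^ (1 / 4 : ℝ) * (Bf B D.ζ0 1 J ν (D.S.H N)) ^ (3 / 4 : ℝ))) := by
  obtain ⟨CL, hCL, hk⟩ := kick_reg D
  refine ⟨CL, hCL, ?_⟩
  intro L r0 ε K hr0 hL hε hε1
  obtain ⟨C, hC, hreg⟩ := hk K hr0 hL
  have ht1 : 1 < D.t := lt_of_lt_of_le (by norm_num) D.t_big
  obtain ⟨n0, hn0⟩ := num_core D.t D.A C ε L ht1 (by linarith [D.two_le_A]) D.A_pow hC hε hε1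
  refine ⟨n0, ?_⟩
  intro n hn N hN hNn J hJ ν hν mm hmm0 hmm
  obtain ⟨hn1, S, g1, g2, g3, g4, g5⟩ := hn0 n hn N hN hNn
  obtain ⟨n', a1, a2, a3⟩ := energy_window D hJ ν N hmm0 hmm n (S + L + 1) ε hε (by omega) g2 g3 g4
  set cN := Bf B D.ζ0 1 J ν (D.S.H N) with hcN
  have hcN0 : 0 ≤ cN := Bf_H_nonneg D hJ ν N
  have hnL : n' + L ≤ N := by
    have h1 : ((n' + L : ℕ) : ℝ) ≤ N := by
      push_cast
      push_cast at g4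
      have : (0 : ℝ) ≤ S := Nat.cast_nonneg S
      linarith
    exact_mod_cast h1
  refine ⟨n', a1, a2, hnL, ?_⟩
  have hm : C * (1 + ((N - n' - L : ℕ) : ℝ) + L) ^ 2 < D.t ^ S := by
    refine lt_of_le_of_lt ?_ g1
    have h2 : ((N - n' - L : ℕ) : ℝ) + L ≤ N := by
      have : (N - n' - L) + L ≤ N := by omega
      exact_mod_cast this
    have h3 : (0 : ℝ) ≤ ((N - n' - L : ℕ) : ℝ) := Nat.cast_nonneg _
    have h4 : (0 : ℝ) ≤ L := Nat.cast_nonneg _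
    apply mul_le_mul_of_nonneg_left _ (by linarith)
    exact pow_le_pow_left₀ (by linarith) (by linarith) 2
  refine le_trans (hreg n' (N - n' - L) S hm (by omega) hJ hν) ?_
  set E0 : ℝ := 8 * Real.sqrt (8 * ((S + L + 1 : ℕ) : ℝ) / (ε * n) * cN) *
            Real.sqrt (2 * (mm ^ (1 / 4 : ℝ) * cN ^ (3 / 4 : ℝ))) with hE0
  have hA := D.two_le_A
  have hterm : ∀ s ∈ Finset.range (S + 1), C * D.A ^ s *
          (Bf B D.ζ0 1 J ν (D.S.op^[n' - s] (D.S.osc (N - n' - L) (s + L))) +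
            Bf B D.ζ0 1 J ν (D.S.op^[n' - s] (D.S.osc (N - n' - L + L) s))) ≤
        C * D.A ^ S * (2 * E0) := by
    intro s hs
    have hsS : s ≤ S := Nat.lt_succ_iff.mp (Finset.mem_range.mp hs)
    have b1 := a3 s L (by omega) (by omega)
    have b2 := a3 s 0 (by omega) (by omega)
    have e1 : N - n' - L + L = N - n' - 0 := by omega
    rw [e1]
    rw [add_zero] at b2
    have hE00 : 0 ≤ E0 := by rw [hE0]; positivity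
    have hAs : D.A ^ s ≤ D.A ^ S := pow_le_pow_right₀ (by linarith) hsS
    have hAs0 : 0 ≤ D.A ^ s := by positivity
    calc C * D.A ^ s * _ ≤ C * D.A ^ s * (2 * E0) := by
          apply mul_le_mul_of_nonneg_left _ (by positivity)
          linarith
      _ ≤ C * D.A ^ S * (2 * E0) := by
          apply mul_le_mul_of_nonneg_right _ (by positivity)
          exact mul_le_mul_of_nonneg_left hAs (by linarith)
  refine le_trans (Finset.sum_le_sum hterm) ?_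
  rw [Finset.sum_const, Finset.card_range, nsmul_eq_mul]
  have hE1 : E0 = (8 * (Real.sqrt (8 * ((S + L + 1 : ℕ) : ℝ) / (ε * n)) * Real.sqrt 2)) *
      (Real.sqrt cN * Real.sqrt (mm ^ (1 / 4 : ℝ) * cN ^ (3 / 4 : ℝ))) := by
    rw [hE0, Real.sqrt_mul (by positivity), Real.sqrt_mul (by norm_num)]
    ring
  rw [hE1]
  have hpos : 0 ≤ Real.sqrt cN * Real.sqrt (mm ^ (1 / 4 : ℝ) * cN ^ (3 / 4 : ℝ)) := by positivity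
  calc ((S + 1 : ℕ) : ℝ) * (C * D.A ^ S * (2 *
        ((8 * (Real.sqrt (8 * ((S + L + 1 : ℕ) : ℝ) / (ε * n)) * Real.sqrt 2)) *
      (Real.sqrt cN * Real.sqrt (mm ^ (1 / 4 : ℝ) * cN ^ (3 / 4 : ℝ)))))) =
      (((S : ℝ) + 1) * (C * D.A ^ S * (2 * (8 * (Real.sqrt (8 * ((S + L + 1 : ℕ) : ℝ) / (ε * n)) *
          Real.sqrt 2))))) * (Real.sqrt cN * Real.sqrt (mm ^ (1 / 4 : ℝ) * cN ^ (3 / 4 : ℝ))) := by
        push_cast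
        ring
    _ ≤ _ := mul_le_mul_of_nonneg_right g5 hpos

theorem mass_fun_le (D : Design B) (N : ℕ) (O : St) :
    0 ≤ (if D.S.H N O ≠ 0 then B.I O else 0) ∧ (if D.S.H N O ≠ 0 then B.I O else 0) ≤ B.I O := by
  have h := I_nonneg B O
  split_ifs
  · exact ⟨h, le_rfl⟩
  · exact ⟨le_rfl, h⟩

theorem mass_fun_supp (D : Design B) (N : ℕ) (O : St) (h : (if D.S.H N O ≠ 0 then B.I O else 0) ≠ 0) :
    ‖B.z O.2.2‖ ≤ 1 + 2 * D.Zt * N := by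
  have h1 : D.S.H N O ≠ 0 := by
    by_contra hc
    simp [hc] at h
  linarith [H_supp D N O h1]

theorem sqrt_exp (x mm : ℝ) (hx : 0 < x) (hm : 0 ≤ mm) :
    Real.sqrt x * Real.sqrt (mm ^ (1 / 4 : ℝ) * x ^ (3 / 4 : ℝ)) =
      mm ^ (1 / 8 : ℝ) * x ^ (-(1 / 8) : ℝ) * x := by
  rw [Real.sqrt_eq_rpow, Real.sqrt_eq_rpow, Real.mul_rpow (by positivity) (by positivity),
    ← Real.rpow_mul hm, ← Real.rpow_mul hx.le]
  have h1 : x ^ (-(1 / 8) : ℝ) * x = x ^ (7 / 8 : ℝ) := by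
    nth_rewrite 2 [← Real.rpow_one x]
    rw [← Real.rpow_add hx]; norm_num
  rw [mul_assoc (mm ^ (1 / 8 : ℝ)), h1]
  have h2 : x ^ (1 / 2 : ℝ) * x ^ (3 / 4 * (1 / 2) : ℝ) = x ^ (7 / 8 : ℝ) := by
    rw [← Real.rpow_add hx]; norm_num
  rw [← h2]
  norm_num
  ring

end Main3Aux

open Main3Aux

/-- the error term, flat -/
theorem err_flat (D : Design B) : ∃ CL : ℝ, 0 < CL ∧ ∀ {L : ℕ} {r0 ε : ℝ} (K : Kick D L r0 ε), 0 ≤ r0 →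
    CL + 4 * r0 ≤ L → 0 < ε → ε < 1 →
    ∃ n0 : ℕ, ∀ n : ℕ, n0 ≤ n → ∀ N : ℕ, 2 * n ≤ N → (N : ℝ) ≤ (n : ℝ) ^ (11 / 10 : ℝ) →
      ∀ {ν : Arr}, InC B D.Cν ν → ∃ (n' : ℕ), n ≤ n' ∧ (n' : ℝ) ≤ (1 + ε) * n ∧ n' + L ≤ N ∧
        Bf B D.ζ0 1 Jone ν (D.S.op^[n'] (am K (N - n' - L))) ≤
          (n : ℝ) ^ (-(1 / 10) : ℝ) * D.cn ν N := by
  obtain ⟨CL, hCL, hcore⟩ := err_core D
  obtain ⟨Cm, hCm, hmass⟩ := mass_flat D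
  obtain ⟨c, hc, hcn⟩ := cn_ge D
  refine ⟨CL, hCL, ?_⟩
  intro L r0 ε K hr0 hL hε hε1
  obtain ⟨n0, hn0⟩ := hcore K hr0 hL hε hε1
  set K5 : ℝ := (Cm * (1 + 2 * D.Zt) ^ 2) ^ (1 / 8 : ℝ) * c ^ (-(1 / 8) : ℝ) with hK5
  have e1 := eventually_rpow K5 (25 / 1000) (by norm_num)
  obtain ⟨n1, hn1⟩ := Filter.eventually_atTop.mp e1
  refine ⟨max n0 (max n1 1), ?_⟩
  intro n hn N hN hNn ν hν
  have hn0' : n0 ≤ n := le_trans (le_max_left _ _) hn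
  have hn1' : n1 ≤ n := le_trans (le_trans (le_max_left _ _) (le_max_right _ _)) hn
  have hn2' : 1 ≤ n := le_trans (le_trans (le_max_right _ _) (le_max_right _ _)) hn
  have hnr : (1 : ℝ) ≤ n := by exact_mod_cast hn2'
  have hnp : (0 : ℝ) < n := by linarith
  have hN1 : 1 ≤ N := by omega
  have hNr : (1 : ℝ) ≤ N := by exact_mod_cast hN1
  have hZ := D.Zt_nonneg
  have hW : (1 : ℝ) ≤ 1 + 2 * D.Zt * N := by
    have : 0 ≤ 2 * D.Zt * N := by positivity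
    linarith
  have hm1 := hmass ν hν (1 + 2 * D.Zt * N) hW (fun O => if D.S.H N O ≠ 0 then B.I O else 0)
    (mass_fun_le D N) (mass_fun_supp D N)
  have hm2 : Cm * (1 + 2 * D.Zt * N) ^ 2 ≤ (Cm * (1 + 2 * D.Zt) ^ 2) * (N : ℝ) ^ 2 := by
    have h1 : 1 + 2 * D.Zt * N ≤ (1 + 2 * D.Zt) * N := by nlinarith
    calc Cm * (1 + 2 * D.Zt * N) ^ 2 ≤ Cm * ((1 + 2 * D.Zt) * N) ^ 2 :=
          mul_le_mul_of_nonneg_left (pow_le_pow_left₀ (by linarith) h1 2) hCm.le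
      _ = _ := by ring
  obtain ⟨n', a1, a2, a3, a4⟩ := hn0 n hn0' N hN hNn (J := Jone) (fun _ => zero_le_one) hν
    ((Cm * (1 + 2 * D.Zt) ^ 2) * (N : ℝ) ^ 2) (by positivity) (le_trans hm1 hm2)
  refine ⟨n', a1, a2, a3, le_trans a4 ?_⟩
  have hx : c ≤ Bf B D.ζ0 1 Jone ν (D.S.H N) := hcn ν hν N
  have hx' : D.cn ν N = Bf B D.ζ0 1 Jone ν (D.S.H N) := rfl
  rw [hx']
  set x := Bf B D.ζ0 1 Jone ν (D.S.H N) with hxdef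
  have hx0 : 0 < x := lt_of_lt_of_le hc hx
  rw [sqrt_exp x _ hx0 (by positivity)]
  have hP : 0 ≤ Cm * (1 + 2 * D.Zt) ^ 2 := by positivity
  have h1 : ((Cm * (1 + 2 * D.Zt) ^ 2) * (N : ℝ) ^ 2) ^ (1 / 8 : ℝ) ≤
      (Cm * (1 + 2 * D.Zt) ^ 2) ^ (1 / 8 : ℝ) * (n : ℝ) ^ (275 / 1000 : ℝ) := by
    rw [Real.mul_rpow hP (by positivity)]
    apply mul_le_mul_of_nonneg_left _ (by positivity)
    have h2 : (N : ℝ) ^ 2 ≤ (n : ℝ) ^ (22 / 10 : ℝ) := by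
      calc (N : ℝ) ^ 2 ≤ ((n : ℝ) ^ (11 / 10 : ℝ)) ^ 2 := pow_le_pow_left₀ (by linarith) hNn 2
        _ = _ := by rw [← Real.rpow_natCast, ← Real.rpow_mul hnp.le]; norm_num
    calc ((N : ℝ) ^ 2) ^ (1 / 8 : ℝ) ≤ ((n : ℝ) ^ (22 / 10 : ℝ)) ^ (1 / 8 : ℝ) :=
          Real.rpow_le_rpow (by positivity) h2 (by norm_num)
      _ = _ := by rw [← Real.rpow_mul hnp.le]; norm_num
  have h3 : x ^ (-(1 / 8) : ℝ) ≤ c ^ (-(1 / 8) : ℝ) :=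
    Real.rpow_le_rpow_of_nonpos hc hx (by norm_num)
  have h4 : ((Cm * (1 + 2 * D.Zt) ^ 2) * (N : ℝ) ^ 2) ^ (1 / 8 : ℝ) * x ^ (-(1 / 8) : ℝ) ≤
      K5 * (n : ℝ) ^ (275 / 1000 : ℝ) := by
    calc _ ≤ ((Cm * (1 + 2 * D.Zt) ^ 2) ^ (1 / 8 : ℝ) * (n : ℝ) ^ (275 / 1000 : ℝ)) *
          c ^ (-(1 / 8) : ℝ) := mul_le_mul h1 h3 (by positivity) (by positivity)
      _ = _ := by rw [hK5]; ring
  have h5 : K5 ≤ (n : ℝ) ^ (25 / 1000 : ℝ) := hn1 n hn1'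
  have h6 : (n : ℝ) ^ (-(2 / 5) : ℝ) * (((Cm * (1 + 2 * D.Zt) ^ 2) * (N : ℝ) ^ 2) ^ (1 / 8 : ℝ) *
      x ^ (-(1 / 8) : ℝ)) ≤ (n : ℝ) ^ (-(1 / 10) : ℝ) := by
    calc _ ≤ (n : ℝ) ^ (-(2 / 5) : ℝ) * ((n : ℝ) ^ (25 / 1000 : ℝ) * (n : ℝ) ^ (275 / 1000 : ℝ)) := by
          apply mul_le_mul_of_nonneg_left _ (by positivity)
          exact le_trans h4 (mul_le_mul_of_nonneg_right h5 (by positivity))
      _ = _ := by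
          rw [← Real.rpow_add hnp, ← Real.rpow_add hnp]; norm_num
  calc _ = ((n : ℝ) ^ (-(2 / 5) : ℝ) * (((Cm * (1 + 2 * D.Zt) ^ 2) * (N : ℝ) ^ 2) ^ (1 / 8 : ℝ) *
      x ^ (-(1 / 8) : ℝ))) * x := by ring
    _ ≤ _ := mul_le_mul_of_nonneg_right h6 hx0.le

/-- the error term, localised -/
theorem err_loc (D : Design B) : ∃ CL : ℝ, 0 < CL ∧ ∀ {L : ℕ} {r0 ε : ℝ} (K : Kick D L r0 ε), 0 ≤ r0 →
    CL + 4 * r0 ≤ L → 0 < ε → ε < 1 →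
    ∃ n0 : ℕ, ∀ n : ℕ, n0 ≤ n → ∀ N : ℕ, 2 * n ≤ N → (N : ℝ) ≤ (n : ℝ) ^ (11 / 10 : ℝ) →
      ∀ {ν : Arr}, InC0 B D.Cν ν → ∀ r : ℝ, 1 ≤ r → ∃ (n' : ℕ), n ≤ n' ∧ (n' : ℝ) ≤ (1 + ε) * n ∧ n' + L ≤ N ∧
        Bf B D.ζ0 1 (Jr r) ν (D.S.op^[n'] (am K (N - n' - L))) ≤ (n : ℝ) ^ (-(1 / 10) : ℝ) := by
  obtain ⟨CL, hCL, hcore⟩ := err_core D
  obtain ⟨Cm, hCm, hmass⟩ := mass_loc D
  obtain ⟨Cq, hCq, hQ⟩ := Q_le D
  refine ⟨CL, hCL, ?_⟩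
  intro L r0 ε K hr0 hL hε hε1
  obtain ⟨n0, hn0⟩ := hcore K hr0 hL hε hε1
  set K5 : ℝ := Real.sqrt Cq * Real.sqrt (Cm ^ (1 / 4 : ℝ) * Cq ^ (3 / 4 : ℝ)) with hK5
  have e1 := eventually_rpow K5 (3 / 10) (by norm_num)
  obtain ⟨n1, hn1⟩ := Filter.eventually_atTop.mp e1
  refine ⟨max n0 (max n1 1), ?_⟩
  intro n hn N hN hNn ν hν r hr
  have hn0' : n0 ≤ n := le_trans (le_max_left _ _) hn
  have hn1' : n1 ≤ n := le_trans (le_trans (le_max_left _ _) (le_max_right _ _)) hn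
  have hn2' : 1 ≤ n := le_trans (le_trans (le_max_right _ _) (le_max_right _ _)) hn
  have hnr : (1 : ℝ) ≤ n := by exact_mod_cast hn2'
  have hnp : (0 : ℝ) < n := by linarith
  have hm1 := hmass ν hν r hr (1 + 2 * D.Zt * N) (fun O => if D.S.H N O ≠ 0 then B.I O else 0)
    (mass_fun_le D N) (mass_fun_supp D N)
  have hJ : ∀ s, 0 ≤ Jr r s := fun s => Jr_nonneg r s
  obtain ⟨n', a1, a2, a3, a4⟩ := hn0 n hn0' N hN hNn hJ hν.1 Cm hCm.le hm1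
  refine ⟨n', a1, a2, a3, le_trans a4 ?_⟩
  have hx : Bf B D.ζ0 1 (Jr r) ν (D.S.H N) ≤ Cq := hQ ν hν r hr N
  have hx0 := Bf_H_nonneg D hJ ν N
  set x := Bf B D.ζ0 1 (Jr r) ν (D.S.H N) with hxdef
  have h1 : Real.sqrt x * Real.sqrt (Cm ^ (1 / 4 : ℝ) * x ^ (3 / 4 : ℝ)) ≤ K5 := by
    rw [hK5]
    apply mul_le_mul (Real.sqrt_le_sqrt hx) _ (Real.sqrt_nonneg _) (Real.sqrt_nonneg _)
    apply Real.sqrt_le_sqrt
    exact mul_le_mul_of_nonneg_left (Real.rpow_le_rpow hx0 hx (by norm_num)) (by positivity)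
  have h5 : K5 ≤ (n : ℝ) ^ (3 / 10 : ℝ) := hn1 n hn1'
  calc _ ≤ (n : ℝ) ^ (-(2 / 5) : ℝ) * (n : ℝ) ^ (3 / 10 : ℝ) :=
        mul_le_mul_of_nonneg_left (le_trans h1 h5) (by positivity)
    _ = _ := by rw [← Real.rpow_add hnp]; norm_num

/-- FLAT -/
theorem flat_ineq (D : Design B) : ∃ CL : ℝ, 0 < CL ∧ ∀ {L : ℕ} {r0 ε : ℝ} (K : Kick D L r0 ε), 0 ≤ r0 →
    CL + 4 * r0 ≤ L → 0 < ε → ε < 1 →
    ∃ n0 : ℕ, ∀ n : ℕ, n0 ≤ n → ∀ N : ℕ, 2 * n ≤ N → (N : ℝ) ≤ (n : ℝ) ^ (11 / 10 : ℝ) →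
      ∀ {ν : Arr}, InC B D.Cν ν → ∃ (n' : ℕ) (ν' : Arr), n ≤ n' ∧ (n' : ℝ) ≤ (1 + ε) * n ∧ n' + L ≤ N ∧
        InC B D.Cν ν' ∧
        (1 - ε) * D.cn ν n' + D.cn ν' (N - n' - L) ≤ (1 + (n : ℝ) ^ (-(1 / 10) : ℝ)) * D.cn ν N := by
  obtain ⟨CL, hCL, herr⟩ := err_flat D
  refine ⟨CL, hCL, ?_⟩
  intro L r0 ε K hr0 hL hε hε1
  obtain ⟨n0, hn0⟩ := herr K hr0 hL hε hε1
  refine ⟨n0, ?_⟩
  intro n hn N hN hNn ν hν
  obtain ⟨n', a1, a2, a3, a4⟩ := hn0 n hn N hN hNn hν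
  refine ⟨n', push K.κ ((push D.S)^[n'] ν), a1, a2, a3, push_kick_InC D K (iter_push_InC D n' hν), ?_⟩
  have h1 := split_total K hε.le (J := Jone) (fun _ => zero_le_one) ν n' (N - n' - L)
  have h2 := total_flat K ν n' (N - n' - L)
  have e1 : n' + L + (N - n' - L) = N := by omega
  rw [e1] at h1
  have e2 : D.cn ν n' = Bf B D.ζ0 1 Jone ν (D.S.H n') := rfl
  have e3 : D.cn ν N = Bf B D.ζ0 1 Jone ν (D.S.H N) := rfl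
  rw [e3] at a4
  rw [e2, e3]
  linarith

/-- LOC -/
theorem loc_ineq (D : Design B) : ∃ C5 : ℝ, 1 ≤ C5 ∧ ∃ CL : ℝ, 0 < CL ∧ ∀ {L : ℕ} {r0 ε : ℝ}
    (K : Kick D L r0 ε), 0 ≤ r0 → CL + 4 * r0 ≤ L → 0 < ε → ε < 1 →
    ∃ n0 : ℕ, ∀ n : ℕ, n0 ≤ n → ∀ N : ℕ, 2 * n ≤ N → (N : ℝ) ≤ (n : ℝ) ^ (11 / 10 : ℝ) →
      ∀ {ν : Arr}, InC0 B D.Cν ν → ∀ r : ℝ, 1 ≤ r → r ≤ Real.sqrt n →
      ∃ (n' : ℕ) (ν' : Arr), n ≤ n' ∧ (n' : ℝ) ≤ (1 + ε) * n ∧ n' + L ≤ N ∧ InC0 B D.Cν ν' ∧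
        (1 - ε) * D.Qn ν n' r + (1 / 12) * D.Qn ν' (N - n' - L) (C5 * Real.sqrt n) ≤
          D.Qn ν N r + (n : ℝ) ^ (-(1 / 10) : ℝ) := by
  obtain ⟨CL, hCL, herr⟩ := err_loc D
  obtain ⟨C5, hC5, htot⟩ := total_loc D
  refine ⟨2 * C5, by linarith, CL, hCL, ?_⟩
  intro L r0 ε K hr0 hL hε hε1
  obtain ⟨n0, hn0⟩ := herr K hr0 hL hε hε1
  obtain ⟨n1, hn1⟩ := htot K
  refine ⟨max n0 (max n1 1), ?_⟩
  intro n hn N hN hNn ν hν r hr hrn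
  have hn0' : n0 ≤ n := le_trans (le_max_left _ _) hn
  have hn1' : n1 ≤ n := le_trans (le_trans (le_max_left _ _) (le_max_right _ _)) hn
  have hn2' : 1 ≤ n := le_trans (le_trans (le_max_right _ _) (le_max_right _ _)) hn
  have hnr : (1 : ℝ) ≤ n := by exact_mod_cast hn2'
  have hnp : (0 : ℝ) < n := by linarith
  obtain ⟨n', a1, a2, a3, a4⟩ := hn0 n hn0' N hN hNn hν r hr
  have hnn' : (n : ℝ) ≤ n' := by exact_mod_cast a1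
  have hr' : r ≤ Real.sqrt n' := le_trans hrn (Real.sqrt_le_sqrt hnn')
  obtain ⟨ν', b1, b2⟩ := hn1 n' (le_trans hn1' a1) (N - n' - L) hν r hr hr'
  refine ⟨n', ν', a1, a2, a3, b1, ?_⟩
  have h1 := split_total K hε.le (J := Jr r) (fun s => Jr_nonneg r s) ν n' (N - n' - L)
  have e1 : n' + L + (N - n' - L) = N := by omega
  rw [e1] at h1
  have e2 : D.Qn ν n' r = Bf B D.ζ0 1 (Jr r) ν (D.S.H n') := rfl
  have e3 : D.Qn ν N r = Bf B D.ζ0 1 (Jr r) ν (D.S.H N) := rfl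
  have h2 : Real.sqrt n' ≤ 2 * Real.sqrt n := by
    have h3 : (n' : ℝ) ≤ 4 * n := by nlinarith
    calc Real.sqrt n' ≤ Real.sqrt (4 * n) := Real.sqrt_le_sqrt h3
      _ = 2 * Real.sqrt n := by
          rw [Real.sqrt_mul (by norm_num)]
          congr 1
          rw [show (4 : ℝ) = 2 ^ 2 by norm_num, Real.sqrt_sq (by norm_num)]
  have h3 : D.Qn ν' (N - n' - L) (2 * C5 * Real.sqrt n) ≤ D.Qn ν' (N - n' - L) (C5 * Real.sqrt n') := by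
    apply Qn_anti
    · have : 0 < Real.sqrt n' := Real.sqrt_pos.mpr (by linarith)
      positivity
    · nlinarith
  rw [e2, e3]
  linarith

end Pool.Agent.RS69
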