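import Pool.Agent.RS69.Tr3

/-!
# RS69.Mom1 : the corrector (section 7)

There is a corrector `b : Ltr → ℂ` with `∑_{tiles (a',p) of σ(a)} (l_{a'} / (t l_a)) (z(p) + b(a')) = w b(a)`
(linear algebra: the positive stochastic matrix `p(a,a') = M_{a'a} l_{a'} / (t l_a)` has no eigenvalue `w ≠ 1`
of modulus one, so `w - p` is invertible).
-/

set_option autoImplicit false

namespace Pool.Agent.RS69

variable {B : Base} (D : Design B)

theorem w_ne_one : D.w ≠ 1 := B.w0_pow_ne D.N D.one_le_N

theorem mom1_norm_w : ‖D.w‖ = 1 := by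
  unfold Design.w
  rw [norm_pow, B.norm_w0, one_pow]

/-- a positive stochastic matrix has no unimodular eigenvalue other than 1
(equality case of the triangle inequality at a coordinate of maximal modulus) -/
theorem no_unimodular_eigenvalue (p : Matrix (Fin 4) (Fin 4) ℝ) (hp : ∀ a b, 0 < p a b)
    (hs : ∀ a, ∑ b, p a b = 1) {w : ℂ} (hw : ‖w‖ = 1) (hw1 : w ≠ 1) (x : Fin 4 → ℂ)
    (hx : ∀ a, ∑ b, (p a b : ℂ) * x b = w * x a) : x = 0 := by
  classical
  by_contra hne
  obtain ⟨a0, -, hmax⟩ := Finset.exists_max_image Finset.univ (fun a => ‖x a‖)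
    ⟨0, Finset.mem_univ _⟩
  have hpos : 0 < ‖x a0‖ := by
    by_contra hle
    have h0 : ‖x a0‖ = 0 := le_antisymm (not_lt.mp hle) (norm_nonneg _)
    apply hne
    funext b
    have := hmax b (Finset.mem_univ _)
    rw [h0] at this
    exact norm_le_zero_iff.mp this
  have hx0 : x a0 ≠ 0 := norm_pos_iff.mp hpos
  have hw0 : w ≠ 0 := by
    intro h
    rw [h, norm_zero] at hw
    exact zero_ne_one hw
  have hwx : w * x a0 ≠ 0 := mul_ne_zero hw0 hx0
  set u : Fin 4 → ℂ := fun b => x b / (w * x a0) with hu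
  have hu1 : ∀ b, ‖u b‖ ≤ 1 := by
    intro b
    simp only [hu, norm_div, norm_mul, hw, one_mul]
    rw [div_le_one hpos]
    exact hmax b (Finset.mem_univ _)
  have hsum : ∑ b, (p a0 b : ℂ) * u b = 1 := by
    have := hx a0
    have h2 : ∑ b, (p a0 b : ℂ) * u b = (∑ b, (p a0 b : ℂ) * x b) / (w * x a0) := by
      rw [Finset.sum_div]
      refine Finset.sum_congr rfl fun b _ => ?_
      simp only [hu]
      ring
    rw [h2, this, div_self hwx]
  have hre : ∑ b, p a0 b * (u b).re = 1 := by
    have := congrArg Complex.re hsum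
    simpa using this
  have hz : ∑ b, p a0 b * (1 - (u b).re) = 0 := by
    have : ∑ b, p a0 b * (1 - (u b).re) = ∑ b, p a0 b - ∑ b, p a0 b * (u b).re := by
      rw [← Finset.sum_sub_distrib]
      refine Finset.sum_congr rfl fun b _ => ?_
      ring
    rw [this, hs a0, hre, sub_self]
  have hnn : ∀ b ∈ Finset.univ, 0 ≤ p a0 b * (1 - (u b).re) := by
    intro b _
    refine mul_nonneg (hp a0 b).le ?_
    have := (Complex.re_le_norm (u b)).trans (hu1 b)
    linarith
  have hall := (Finset.sum_eq_zero_iff_of_nonneg hnn).mp hz a0 (Finset.mem_univ _)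
  have hre1 : (u a0).re = 1 := by
    rcases mul_eq_zero.mp hall with h | h
    · exact absurd h (hp a0 a0).ne'
    · linarith
  have hnorm : ‖u a0‖ = 1 := le_antisymm (hu1 a0) (by
    have := Complex.re_le_norm (u a0)
    linarith)
  have him : (u a0).im = 0 := by
    have h1 : ‖u a0‖ ^ 2 = (u a0).re ^ 2 + (u a0).im ^ 2 := by
      rw [← Complex.normSq_eq_norm_sq, Complex.normSq_apply]
      ring
    rw [hnorm, hre1] at h1
    have : (u a0).im ^ 2 = 0 := by linarith
    exact pow_eq_zero_iff (two_ne_zero) |>.mp this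
  have hu0 : u a0 = 1 := Complex.ext (by simpa using hre1) (by simpa using him)
  apply hw1
  have h3 : x a0 = w * x a0 := by
    have : x a0 / (w * x a0) = 1 := hu0
    exact (div_eq_one_iff_eq hwx).mp this
  have h4 : (w - 1) * x a0 = 0 := by
    linear_combination -h3
  rcases mul_eq_zero.mp h4 with h | h
  · linear_combination h
  · exact absurd h hx0

/-- sum over the tiles of a function of the letter -/
theorem mom1_sum_tiles (F : Ltr → ℂ) (w : List Ltr) (s : Vec) :
    ((tiles w s).map (fun x => F x.1)).sum = ∑ a, (w.count a : ℂ) * F a := by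
  induction w generalizing s with
  | nil => simp [tiles]
  | cons c w ih =>
    simp only [tiles, List.map_cons, List.sum_cons, ih]
    have : ∀ a : Ltr, (((c :: w).count a : ℕ) : ℂ) * F a =
        (w.count a : ℂ) * F a + (if c = a then F a else 0) := by
      intro a
      rw [List.count_cons]
      by_cases h : c = a
      · simp [h]
        ring
      · simp [h]
    simp only [this, Finset.sum_add_distrib]
    rw [Finset.sum_ite_eq]
    simp only [Finset.mem_univ, if_true]
    ring

theorem mom1_mulVec_ev (M : Matrix (Fin 4) (Fin 4) ℤ) (a b : Ltr) :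
    M.mulVec (ev a) b = M b a := by
  unfold ev
  rw [Matrix.mulVec_single_one]
  rfl

theorem mom1_l_pow (n : ℕ) (v : Vec) : B.l ((B.P ^ n).mulVec v) = B.t0 ^ n * B.l v := by
  induction n generalizing v with
  | zero => simp
  | succ n ih =>
    rw [pow_succ, ← Matrix.mulVec_mulVec, ih, B.l_P, pow_succ]
    ring

theorem mom1_l_sum (v : Vec) : B.l v = ∑ a, (v a : ℝ) * B.l (ev a) := by
  have hv : v = ∑ a, v a • ev a := by
    funext b
    simp [ev, Finset.sum_apply, Pi.single_apply]
  conv_lhs => rw [hv]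
  rw [map_sum]
  refine Finset.sum_congr rfl fun a _ => ?_
  rw [map_zsmul, zsmul_eq_mul]

/-- existence of the corrector -/
theorem exists_corrector : ∃ b : Ltr → ℂ, ∀ a,
    ((tiles (D.σ a) 0).map (fun x => (B.l (ev x.1) : ℂ) * (B.z x.2 + b x.1))).sum =
      (D.t : ℂ) * (B.l (ev a) : ℂ) * (D.w * b a) := by
  classical
  have hl : ∀ a, 0 < B.l (ev a) := fun a => lt_of_lt_of_le one_pos (B.l_ge a)
  have ht : 0 < D.t := pow_pos (lt_trans one_pos B.one_lt_t0) _
  set M : Matrix (Fin 4) (Fin 4) ℤ := B.P ^ D.N with hM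
  set p : Matrix (Fin 4) (Fin 4) ℝ :=
    Matrix.of (fun a b => (M b a : ℝ) * B.l (ev b) / (D.t * B.l (ev a))) with hpdef
  have hpab : ∀ a b, p a b = (M b a : ℝ) * B.l (ev b) / (D.t * B.l (ev a)) := fun a b => rfl
  have hp : ∀ a b, 0 < p a b := by
    intro a b
    rw [hpab]
    have : (0 : ℝ) < (M b a : ℝ) := by exact_mod_cast D.Mpos b a
    exact div_pos (mul_pos this (hl b)) (mul_pos ht (hl a))
  have hs : ∀ a, ∑ b, p a b = 1 := by
    intro a
    simp only [hpab]
    rw [← Finset.sum_div]
    rw [div_eq_one_iff_eq (mul_pos ht (hl a)).ne']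
    have h1 := mom1_l_pow (B := B) D.N (ev a)
    rw [mom1_l_sum] at h1
    simp only [mom1_mulVec_ev] at h1
    exact h1
  -- the linear map
  let T : (Fin 4 → ℂ) →ₗ[ℂ] (Fin 4 → ℂ) :=
    { toFun := fun x a => ∑ b, (p a b : ℂ) * x b - D.w * x a
      map_add' := by
        intro x y
        funext a
        simp only [Pi.add_apply, mul_add, Finset.sum_add_distrib]
        ring
      map_smul' := by
        intro r x
        funext a
        simp only [Pi.smul_apply, smul_eq_mul, RingHom.id_apply]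
        rw [mul_sub, Finset.mul_sum]
        congr 1
        · refine Finset.sum_congr rfl fun b _ => ?_
          ring
        · ring }
  have hinj : Function.Injective T := by
    rw [← LinearMap.ker_eq_bot, LinearMap.ker_eq_bot']
    intro x hx
    refine no_unimodular_eigenvalue p hp hs (mom1_norm_w D) (w_ne_one D) x ?_
    intro a
    have := congrFun hx a
    exact sub_eq_zero.mp this
  have hsurj : Function.Surjective T := LinearMap.injective_iff_surjective.mp hinj
  obtain ⟨b, hb⟩ := hsurj (fun a =>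
    -((tiles (D.σ a) 0).map (fun x => (B.l (ev x.1) : ℂ) * B.z x.2)).sum /
      ((D.t : ℂ) * (B.l (ev a) : ℂ)))
  refine ⟨b, fun a => ?_⟩
  have hba := congrFun hb a
  have hTa : T b a = ∑ c, (p a c : ℂ) * b c - D.w * b a := rfl
  rw [hTa] at hba
  have hne : ((D.t : ℂ) * (B.l (ev a) : ℂ)) ≠ 0 := by
    have := (mul_pos ht (hl a)).ne'
    exact_mod_cast this
  have hsplit : ((tiles (D.σ a) 0).map (fun x => (B.l (ev x.1) : ℂ) * (B.z x.2 + b x.1))).sum =
      ((tiles (D.σ a) 0).map (fun x => (B.l (ev x.1) : ℂ) * B.z x.2)).sum +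
      ((tiles (D.σ a) 0).map (fun x => (B.l (ev x.1) : ℂ) * b x.1)).sum := by
    rw [← List.sum_map_add]
    congr 1
    refine List.map_congr_left fun x _ => ?_
    ring
  have hcount : ∀ c, (((D.σ a).count c : ℕ) : ℂ) = ((M c a : ℤ) : ℂ) := by
    intro c
    have h1 := congrFun (D.ab a) c
    rw [mom1_mulVec_ev] at h1
    unfold abv at h1
    rw [← hM] at h1
    rw [← h1]
    push_cast
    rfl
  have hcp : ∀ c, (p a c : ℂ) * ((D.t : ℂ) * (B.l (ev a) : ℂ)) =
      ((M c a : ℤ) : ℂ) * (B.l (ev c) : ℂ) := by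
    intro c
    have hr : p a c * (D.t * B.l (ev a)) = (M c a : ℝ) * B.l (ev c) := by
      rw [hpab]
      exact div_mul_cancel₀ _ (mul_pos ht (hl a)).ne'
    have := congrArg (fun r : ℝ => (r : ℂ)) hr
    push_cast at this
    exact this
  have htiles := mom1_sum_tiles (fun c => (B.l (ev c) : ℂ) * b c) (D.σ a) 0
  rw [hsplit, htiles]
  have hsum2 : ∑ c, (((D.σ a).count c : ℕ) : ℂ) * ((B.l (ev c) : ℂ) * b c) =
      ((D.t : ℂ) * (B.l (ev a) : ℂ)) * ∑ c, (p a c : ℂ) * b c := by
    rw [Finset.mul_sum]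
    refine Finset.sum_congr rfl fun c _ => ?_
    rw [hcount c]
    have := hcp c
    linear_combination (-(b c)) * this
  rw [hsum2]
  rw [eq_div_iff hne] at hba
  linear_combination hba

end Pool.Agent.RS69
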