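import Pool.Agent.RS69.Tr2

/-!
# RS69.Words : iterated words, pairs of placed words
-/

set_option autoImplicit false

namespace Pool.Agent.RS69

variable {B : Base} (D : Design B)

/-- the substitution applied to words, iterated -/
def itw (k : ℕ) (w : List Ltr) : List Ltr := (fun w : List Ltr => w.flatMap D.σ)^[k] w

namespace WordsAux

theorem itw_zero (w : List Ltr) : itw D 0 w = w := rfl

theorem itw_succ' (k : ℕ) (w : List Ltr) : itw D (k + 1) w = (itw D k w).flatMap D.σ := by
  unfold itw
  rw [Function.iterate_succ_apply']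

theorem itw_succ (k : ℕ) (w : List Ltr) : itw D (k + 1) w = itw D k (w.flatMap D.σ) := by
  unfold itw
  rw [Function.iterate_succ_apply]

theorem abv_flatMap (w : List Ltr) : abv (w.flatMap D.σ) = (B.P ^ D.N).mulVec (abv w) := by
  induction w with
  | nil => simp [abv_nil]
  | cons a w ih =>
    rw [List.flatMap_cons, abv_append, D.ab, ih, abv_cons, Matrix.mulVec_add]

theorem sum_comm_list {α β : Type*} (L : List α) (K : List β) (F : α → β → ℝ) :
    (L.map (fun x => (K.map (fun y => F x y)).sum)).sum =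
      (K.map (fun y => (L.map (fun x => F x y)).sum)).sum := by
  induction L with
  | nil => simp
  | cons a L ih =>
    rw [List.map_cons, List.sum_cons, ih, ← List.sum_map_add]
    rfl

theorem sum_flatMap {α β : Type*} (L : List α) (g : α → List β) (F : β → ℝ) :
    ((L.flatMap g).map F).sum = (L.map (fun x => ((g x).map F).sum)).sum := by
  induction L with
  | nil => simp
  | cons a L ih =>
    rw [List.flatMap_cons, List.map_append, List.sum_append, ih, List.map_cons, List.sum_cons]

theorem mul_sum_list {α : Type*} (c : ℝ) (L : List α) (F : α → ℝ) :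
    c * (L.map F).sum = (L.map (fun x => c * F x)).sum := by
  induction L with
  | nil => simp
  | cons a L ih =>
    rw [List.map_cons, List.sum_cons, mul_add, ih, List.map_cons, List.sum_cons]

theorem t_ne (D : Design B) : D.t ≠ 0 :=
  (pow_pos (by linarith [B.one_lt_t0]) _ : 0 < B.t0 ^ D.N).ne'

theorem map_sum_congr {α : Type*} (L : List α) {F G : α → ℝ} (h : ∀ x, F x = G x) :
    (L.map F).sum = (L.map G).sum := by
  have : F = G := funext h
  rw [this]

end WordsAux

open WordsAux

theorem itw_append (k : ℕ) (w w' : List Ltr) : itw D k (w ++ w') = itw D k w ++ itw D k w' := by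
  induction k generalizing w w' with
  | zero => rfl
  | succ k ih => rw [itw_succ, itw_succ, itw_succ, List.flatMap_append, ih]

theorem itw_add (j k : ℕ) (w : List Ltr) : itw D (j + k) w = itw D j (itw D k w) := by
  unfold itw
  rw [Function.iterate_add_apply]

theorem abv_itw (k : ℕ) (w : List Ltr) : abv (itw D k w) = ((B.P ^ D.N) ^ k).mulVec (abv w) := by
  induction k with
  | zero => simp [itw_zero]
  | succ k ih =>
    rw [itw_succ', abv_flatMap, ih, Matrix.mulVec_mulVec, pow_succ' (B.P ^ D.N) k]

theorem l_abv_itw (k : ℕ) (w : List Ltr) : B.l (abv (itw D k w)) = D.t ^ k * B.l (abv w) := by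
  rw [abv_itw, ← pow_mul, l_Mpow, pow_mul]
  rfl

/-- length of a word and its real length -/
theorem length_le_l (w : List Ltr) : (w.length : ℝ) ≤ B.l (abv w) ∧ B.l (abv w) ≤ B.lmax * w.length := by
  induction w with
  | nil => simp [abv_nil]
  | cons a w ih =>
    rw [abv_cons, map_add, List.length_cons]
    have h1 := B.l_ge a
    have h2 := l_le_lmax B a
    push_cast
    constructor
    · linarith [ih.1]
    · linarith [ih.2]

theorem tiles_flatMap (w : List Ltr) (s : Vec) :
    tiles (w.flatMap D.σ) ((B.P ^ D.N).mulVec s) =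
      (tiles w s).flatMap (fun x => (tiles (D.σ x.1) 0).map (fun y => (y.1, (B.P ^ D.N).mulVec x.2 + y.2))) := by
  induction w generalizing s with
  | nil => rfl
  | cons a w ih =>
    rw [List.flatMap_cons, tiles_append, D.ab, ← Matrix.mulVec_add, ih]
    have h1 : tiles (D.σ a) ((B.P ^ D.N).mulVec s) =
        (tiles (D.σ a) 0).map (fun y => (y.1, (B.P ^ D.N).mulVec s + y.2)) := by
      have h2 := tiles_shift (D.σ a) 0 ((B.P ^ D.N).mulVec s)
      rw [zero_add] at h2
      rw [h2]
      apply List.map_congr_left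
      intro y _
      rw [add_comm]
    rw [h1]
    rfl

/-- sums over the pairs of tiles of two placed words -/
noncomputable def pairs (w w' : List Ltr) (s s' : Vec) (F : St → ℝ) : ℝ :=
  ((tiles w s).map (fun x => ((tiles w' s').map (fun y => F (x.1, y.1, y.2 - x.2))).sum)).sum

theorem pairs_step (w w' : List Ltr) (s s' : Vec) (F : St → ℝ) :
    D.t * pairs w w' s s' (D.S.op F) =
      pairs (w.flatMap D.σ) (w'.flatMap D.σ) ((B.P ^ D.N).mulVec s) ((B.P ^ D.N).mulVec s') F := by
  unfold pairs
  rw [tiles_flatMap, tiles_flatMap, sum_flatMap, mul_sum_list]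
  apply map_sum_congr
  intro x
  rw [List.map_map]
  have h1 : ((tiles (D.σ x.1) 0).map ((fun x => (((tiles w' s').flatMap fun x =>
        (tiles (D.σ x.1) 0).map fun y => (y.1, (B.P ^ D.N).mulVec x.2 + y.2)).map fun y =>
          F (x.1, y.1, y.2 - x.2)).sum) ∘ fun y => (y.1, (B.P ^ D.N).mulVec x.2 + y.2))).sum =
      ((tiles (D.σ x.1) 0).map (fun x' => ((tiles w' s').map (fun y =>
        ((tiles (D.σ y.1) 0).map (fun y' => F (x'.1, y'.1, (B.P ^ D.N).mulVec y.2 + y'.2 -
          ((B.P ^ D.N).mulVec x.2 + x'.2)))).sum)).sum)).sum := by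
    apply map_sum_congr
    intro x'
    simp only [Function.comp]
    rw [sum_flatMap]
    apply map_sum_congr
    intro y
    rw [List.map_map]
    rfl
  rw [h1, sum_comm_list, mul_sum_list]
  apply map_sum_congr
  intro y
  have h2 : D.S.op F (x.1, y.1, y.2 - x.2) = (D.t)⁻¹ * (((tiles (D.σ x.1) 0).map (fun x' =>
      ((tiles (D.σ y.1) 0).map (fun y' => F (child (B.P ^ D.N) (x.1, y.1, y.2 - x.2) x' y'))).sum)).sum) :=
    natLevel_op B D.N D.σ D.ab F (x.1, y.1, y.2 - x.2)
  rw [h2, ← mul_assoc, mul_inv_cancel₀ (t_ne D), one_mul]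
  apply map_sum_congr
  intro x'
  apply map_sum_congr
  intro y'
  unfold child
  simp only
  rw [Matrix.mulVec_sub]
  congr 3
  abel

theorem pairs_iter (k : ℕ) (w w' : List Ltr) (s s' : Vec) (F : St → ℝ) :
    D.t ^ k * pairs w w' s s' (D.S.op^[k] F) =
      pairs (itw D k w) (itw D k w') (((B.P ^ D.N) ^ k).mulVec s) (((B.P ^ D.N) ^ k).mulVec s') F := by
  induction k generalizing w w' s s' with
  | zero => simp [itw_zero]
  | succ k ih =>
    rw [Function.iterate_succ_apply', pow_succ, mul_assoc, pairs_step, ih, itw_succ, itw_succ,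
      Matrix.mulVec_mulVec, Matrix.mulVec_mulVec, ← pow_succ]

theorem iter_words (k : ℕ) (a b : Ltr) (v : Vec) (F : St → ℝ) :
    D.t ^ k * (D.S.op^[k] F) (a, b, v) =
      pairs (itw D k [a]) (itw D k [b]) 0 (((B.P ^ D.N) ^ k).mulVec v) F := by
  have h1 := pairs_iter D k [a] [b] 0 v F
  rw [Matrix.mulVec_zero] at h1
  rw [← h1]
  simp [pairs, tiles]

/-- sums over the iterated array of one point -/
theorem push_iter_sum (k : ℕ) (ν : Arr) (G : Ltr → ℂ → ℝ) :
    ∑ x, ((push D.S)^[k] ν).w x * G (((push D.S)^[k] ν).lt x) (((push D.S)^[k] ν).zp x) =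
      ∑ i, ν.w i * ((D.t ^ k)⁻¹ * ((tiles (itw D k [ν.lt i]) 0).map (fun y =>
        G y.1 (D.w ^ k * ν.zp i + B.z y.2))).sum) := by
  induction k generalizing G with
  | zero =>
    simp only [Function.iterate_zero, id, itw_zero, pow_zero, inv_one, one_mul, tiles, List.map_cons,
      List.map_nil, List.sum_cons, List.sum_nil, add_zero, map_zero]
    rfl
  | succ k ih =>
    rw [Function.iterate_succ_apply']
    have h1 := push_sum D.S ((push D.S)^[k] ν) (fun a _ z => G a z)
    rw [h1]
    have h2 : ∀ i, (D.S.t)⁻¹ * ∑ η, D.S.β η *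
        ((tiles (D.S.sub η (((push D.S)^[k] ν).lt i)) 0).map (fun y =>
          G y.1 (D.S.w * ((push D.S)^[k] ν).zp i + B.z y.2))).sum =
        (fun a z => (D.t)⁻¹ * ((tiles (D.σ a) 0).map (fun y => G y.1 (D.w * z + B.z y.2))).sum)
          (((push D.S)^[k] ν).lt i) (((push D.S)^[k] ν).zp i) := by
      intro i
      have h3 : ∑ η : D.S.E, D.S.β η *
        ((tiles (D.S.sub η (((push D.S)^[k] ν).lt i)) 0).map (fun y =>
          G y.1 (D.S.w * ((push D.S)^[k] ν).zp i + B.z y.2))).sum =
        ∑ η : Unit, (1 : ℝ) * ((tiles (D.σ (((push D.S)^[k] ν).lt i)) 0).map (fun y =>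
          G y.1 (D.w * ((push D.S)^[k] ν).zp i + B.z y.2))).sum := rfl
      rw [h3, Fintype.sum_unique, one_mul]
      rfl
    refine (Finset.sum_congr rfl fun i _ => congrArg _ (h2 i)).trans ?_
    refine (ih (fun a z => (D.t)⁻¹ * ((tiles (D.σ a) 0).map
      (fun y => G y.1 (D.w * z + B.z y.2))).sum)).trans ?_
    refine Finset.sum_congr rfl fun i _ => ?_
    congr 1
    rw [itw_succ']
    have h4 := tiles_flatMap D (itw D k [ν.lt i]) 0
    rw [Matrix.mulVec_zero] at h4
    rw [h4, sum_flatMap, pow_succ, mul_inv, mul_assoc]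
    congr 1
    rw [← mul_sum_list]
    congr 1
    apply map_sum_congr
    intro x
    rw [List.map_map]
    apply map_sum_congr
    intro y
    simp only [Function.comp]
    congr 1
    rw [map_add, z_Mpow]
    have h5 : B.w0 ^ D.N = D.w := rfl
    rw [h5]
    ring

end Pool.Agent.RS69
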