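import Pool.Agent.RS69.Mom2
import Pool.Agent.RS69.Words

/-!
# RS69.Mom3 : the quartic tail of `H_n` (section 7.1)

`t^n H_n(a,b,v)` is the total length of the common tiles of `S^n(a)` at `0` and `S^n(b)` at `M^n v`; a common
tile has prefix vectors `p, q` with `p = M^n v + q`, so `|z(p)|` or `|z(q)|` is `≥ |z(v)|/2`; the total length
of the tiles with this property in `S^n(a)` is `≤ t^n l_a C (n+1)^2 / |z(v)|^4` (moment4 for the array with one
index of letter `a`).
-/

set_option autoImplicit false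

namespace Pool.Agent.RS69

variable {B : Base} (D : Design B)

/-- one point array -/
noncomputable def pt (a : Ltr) : Arr where
  ι := Unit
  lt := fun _ => a
  pos := fun _ => 0
  zp := fun _ => 0
  w := fun _ => 1
  w_nonneg := fun _ => zero_le_one

namespace Mom3Aux

/-- the tiles of a word are pairwise distinct -/
theorem tiles_nodup (B : Base) (w : List Ltr) (s : Vec) : (tiles w s).Nodup := by
  induction w generalizing s with
  | nil => simp [tiles]
  | cons a w ih =>
    rw [tiles, List.nodup_cons]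
    refine ⟨?_, ih _⟩
    intro hmem
    rw [mem_tiles] at hmem
    obtain ⟨i, hi, h⟩ := hmem
    have h1 : s = s + ev a + abv (w.take i) := congrArg Prod.snd h
    have h2 := congrArg B.l h1
    rw [map_add, map_add] at h2
    have h3 := B.l_ge a
    have h4 := (length_le_l (B := B) (w.take i)).1
    have h5 : (0 : ℝ) ≤ ((w.take i).length : ℝ) := Nat.cast_nonneg _
    linarith

theorem sum_single_le {α : Type*} [DecidableEq α] (L : List α) (hL : L.Nodup) (z : α) (c : ℝ) (hc : 0 ≤ c) :
    (L.map (fun y => if y = z then c else 0)).sum ≤ c := by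
  induction L with
  | nil => simpa using hc
  | cons a L ih =>
    rw [List.nodup_cons] at hL
    rw [List.map_cons, List.sum_cons]
    by_cases h : a = z
    · rw [if_pos h]
      have h1 : (L.map (fun y => if y = z then c else 0)).sum = 0 := by
        apply List.sum_eq_zero
        intro x hx
        rw [List.mem_map] at hx
        obtain ⟨y, hy, rfl⟩ := hx
        rw [if_neg]
        rintro rfl
        exact hL.1 (h ▸ hy)
      rw [h1, add_zero]
    · rw [if_neg h, zero_add]
      exact ih hL.2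

theorem sum_le_list {α : Type*} (L : List α) (F G : α → ℝ) (h : ∀ y ∈ L, F y ≤ G y) :
    (L.map F).sum ≤ (L.map G).sum := List.sum_le_sum h

/-- far length weight of a tile -/
noncomputable def far (B : Base) (R : ℝ) (a : Ltr) (s : ℂ) : ℝ := if R ≤ ‖s‖ then B.l (ev a) else 0

theorem far_nonneg (B : Base) (R : ℝ) (a : Ltr) (s : ℂ) : 0 ≤ far B R a s := by
  unfold far
  split
  · exact le_trans zero_le_one (B.l_ge a)
  · exact le_rfl

theorem far_mul_le (B : Base) (R : ℝ) (hR : 0 ≤ R) (a : Ltr) (s : ℂ) :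
    far B R a s * R ^ 4 ≤ B.l (ev a) * ‖s‖ ^ 4 := by
  unfold far
  have h1 := B.l_ge a
  split
  · rename_i h
    exact mul_le_mul_of_nonneg_left (pow_le_pow_left₀ hR h 4) (by linarith)
  · rw [zero_mul]
    positivity

/-- the sum over the pairs of tiles which coincide -/
theorem pairs_coin_le (D : Design B) (w w' : List Ltr) (s' : Vec) (R : ℝ) (hR : 2 * R ≤ ‖B.z s'‖) :
    pairs w w' 0 s' (D.S.H 0) ≤
      ((tiles w 0).map (fun x => far B R x.1 (B.z x.2))).sum +
        ((tiles w' 0).map (fun y => far B R y.1 (B.z y.2))).sum := by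
  have h0 : tiles w' s' = (tiles w' 0).map (fun x => (x.1, x.2 + s')) := by
    have := tiles_shift w' 0 s'
    rwa [zero_add] at this
  have hpt : ∀ x y : Ltr × Vec, D.S.H 0 (x.1, y.1, (y.2 + s') - x.2) ≤
      (if ((y.1, y.2 + s') : Ltr × Vec) = x then far B R x.1 (B.z x.2) else 0) +
        (if x = ((y.1, y.2 + s') : Ltr × Vec) then far B R y.1 (B.z y.2) else 0) := by
    intro x y
    rw [CoinAux.H_zero_eq]
    by_cases h : x = ((y.1, y.2 + s') : Ltr × Vec)
    · have hx1 : x.1 = y.1 := (congrArg Prod.fst h : x.1 = ((y.1, y.2 + s') : Ltr × Vec).1)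
      have hx2 : x.2 = y.2 + s' := (congrArg Prod.snd h : x.2 = ((y.1, y.2 + s') : Ltr × Vec).2)
      have hC : Coin (x.1, y.1, (y.2 + s') - x.2) := ⟨hx1, by rw [hx2]; simp⟩
      have i1 : (if ((y.1, y.2 + s') : Ltr × Vec) = x then far B R x.1 (B.z x.2) else 0) =
          far B R x.1 (B.z x.2) := if_pos h.symm
      have i2 : (if x = ((y.1, y.2 + s') : Ltr × Vec) then far B R y.1 (B.z y.2) else 0) =
          far B R y.1 (B.z y.2) := if_pos h
      rw [i1, i2, if_pos hC]
      have hz : B.z x.2 = B.z y.2 + B.z s' := by rw [hx2, map_add]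
      by_cases hfx : R ≤ ‖B.z x.2‖
      · have h1 : far B R x.1 (B.z x.2) = B.l (ev x.1) := by unfold far; rw [if_pos hfx]
        rw [h1]
        have h2 := far_nonneg B R y.1 (B.z y.2)
        show B.l (ev x.1) ≤ _
        linarith
      · have hfy : R ≤ ‖B.z y.2‖ := by
          by_contra hcon
          have h3 : ‖B.z s'‖ ≤ ‖B.z x.2‖ + ‖B.z y.2‖ := by
            have : B.z s' = B.z x.2 - B.z y.2 := by rw [hz]; ring
            rw [this]
            exact norm_sub_le _ _
          push Not at hcon hfx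
          linarith
        have h1 : far B R y.1 (B.z y.2) = B.l (ev y.1) := by unfold far; rw [if_pos hfy]
        rw [h1]
        have h2 := far_nonneg B R x.1 (B.z x.2)
        show B.l (ev x.1) ≤ _
        rw [hx1] at h2 ⊢
        linarith
    · have hC : ¬ Coin (x.1, y.1, (y.2 + s') - x.2) := by
        rintro ⟨h1, h2⟩
        apply h
        have h3 : (y.2 + s') - x.2 = 0 := h2
        have h4 : x.1 = y.1 := h1
        exact Prod.ext h4 (sub_eq_zero.mp h3).symm
      have i1 : (if ((y.1, y.2 + s') : Ltr × Vec) = x then far B R x.1 (B.z x.2) else 0) = 0 :=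
        if_neg (fun e => h e.symm)
      have i2 : (if x = ((y.1, y.2 + s') : Ltr × Vec) then far B R y.1 (B.z y.2) else 0) = 0 := if_neg h
      rw [i1, i2, if_neg hC, add_zero]
  unfold pairs
  rw [h0]
  have e1 : ((tiles w 0).map (fun x => ((((tiles w' 0).map (fun x => (x.1, x.2 + s'))).map
      (fun y => D.S.H 0 (x.1, y.1, y.2 - x.2))).sum))).sum ≤
      ((tiles w 0).map (fun x => (far B R x.1 (B.z x.2)) +
        ((tiles w' 0).map (fun y => if x = ((y.1, y.2 + s') : Ltr × Vec) then far B R y.1 (B.z y.2) else 0)).sum)).sum := by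
    apply sum_le_list
    intro x _
    rw [List.map_map]
    have e2 : ((tiles w' 0).map ((fun y => D.S.H 0 (x.1, y.1, y.2 - x.2)) ∘ fun x => (x.1, x.2 + s'))).sum ≤
        ((tiles w' 0).map (fun y => (if ((y.1, y.2 + s') : Ltr × Vec) = x then far B R x.1 (B.z x.2) else 0) +
        (if x = ((y.1, y.2 + s') : Ltr × Vec) then far B R y.1 (B.z y.2) else 0))).sum := by
      apply sum_le_list
      intro y _
      exact hpt x y
    refine e2.trans ?_
    rw [List.sum_map_add]
    have e3 : ((tiles w' 0).map (fun y => (if ((y.1, y.2 + s') : Ltr × Vec) = x then far B R x.1 (B.z x.2) else 0))).sum ≤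
        far B R x.1 (B.z x.2) := by
      have e4 := sum_single_le (tiles w' s') (tiles_nodup B w' s') x (far B R x.1 (B.z x.2)) (far_nonneg _ _ _ _)
      rw [h0, List.map_map] at e4
      exact e4
    linarith
  refine e1.trans ?_
  rw [List.sum_map_add]
  have e5 := WordsAux.sum_comm_list (tiles w 0) (tiles w' 0)
    (fun x y => if x = ((y.1, y.2 + s') : Ltr × Vec) then far B R y.1 (B.z y.2) else 0)
  rw [e5]
  have e6 : ((tiles w' 0).map (fun y => ((tiles w 0).map (fun x =>
      if x = ((y.1, y.2 + s') : Ltr × Vec) then far B R y.1 (B.z y.2) else 0)).sum)).sum ≤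
      ((tiles w' 0).map (fun y => far B R y.1 (B.z y.2))).sum := by
    apply sum_le_list
    intro y _
    exact sum_single_le (tiles w 0) (tiles_nodup B w 0) _ _ (far_nonneg _ _ _ _)
  linarith

theorem far_sum_pt (D : Design B) (n : ℕ) (a : Ltr) (R : ℝ) :
    (∑ i, if R ≤ ‖((push D.S)^[n] (pt a)).zp i‖ then
        ((push D.S)^[n] (pt a)).w i * B.l (ev (((push D.S)^[n] (pt a)).lt i)) else 0) =
      (D.t ^ n)⁻¹ * ((tiles (itw D n [a]) 0).map (fun y => far B R y.1 (B.z y.2))).sum := by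
  have h1 := push_iter_sum D n (pt a) (far B R)
  have h2 : ∀ i, (if R ≤ ‖((push D.S)^[n] (pt a)).zp i‖ then
        ((push D.S)^[n] (pt a)).w i * B.l (ev (((push D.S)^[n] (pt a)).lt i)) else 0) =
      ((push D.S)^[n] (pt a)).w i * far B R (((push D.S)^[n] (pt a)).lt i) (((push D.S)^[n] (pt a)).zp i) := by
    intro i
    unfold far
    split
    · rfl
    · rw [mul_zero]
  refine (Finset.sum_congr rfl fun i _ => h2 i).trans (h1.trans ?_)
  have h3 : ∑ i : (pt a).ι, (pt a).w i * ((D.t ^ n)⁻¹ * ((tiles (itw D n [(pt a).lt i]) 0).map (fun y =>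
        far B R y.1 (D.w ^ n * (pt a).zp i + B.z y.2))).sum) =
      ∑ i : Unit, (1 : ℝ) * ((D.t ^ n)⁻¹ * ((tiles (itw D n [a]) 0).map (fun y =>
        far B R y.1 (D.w ^ n * 0 + B.z y.2))).sum) := rfl
  rw [h3, Fintype.sum_unique, one_mul, mul_zero]
  simp only [zero_add]

end Mom3Aux

open Mom3Aux

/-- `H_n` is bounded by the far mass of both words -/
theorem H_le_far (n : ℕ) (O : St) :
    D.S.H n O ≤ (∑ i, if ‖B.z O.2.2‖ / 2 ≤ ‖((push D.S)^[n] (pt O.1)).zp i‖ then
        ((push D.S)^[n] (pt O.1)).w i * B.l (ev (((push D.S)^[n] (pt O.1)).lt i)) else 0) +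
      (∑ i, if ‖B.z O.2.2‖ / 2 ≤ ‖((push D.S)^[n] (pt O.2.1)).zp i‖ then
        ((push D.S)^[n] (pt O.2.1)).w i * B.l (ev (((push D.S)^[n] (pt O.2.1)).lt i)) else 0) := by
  rw [far_sum_pt, far_sum_pt, ← mul_add]
  obtain ⟨a, b, v⟩ := O
  have h1 := iter_words D n a b v (D.S.H 0)
  have h2 : D.S.op^[n] (D.S.H 0) = D.S.H n := by
    have := op_iter_H D n 0
    rwa [zero_add] at this
  rw [h2] at h1
  have ht : 0 < D.t ^ n := pow_pos (CoinAux.t_pos' D) n
  have hz : ‖B.z (((B.P ^ D.N) ^ n).mulVec v)‖ = ‖B.z v‖ := by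
    rw [← pow_mul, z_Mpow, norm_mul, norm_pow, B.norm_w0, one_pow, one_mul]
  have h3 := pairs_coin_le D (itw D n [a]) (itw D n [b]) (((B.P ^ D.N) ^ n).mulVec v) (‖B.z v‖ / 2)
    (by rw [hz]; linarith)
  rw [← h1] at h3
  have h4 := mul_le_mul_of_nonneg_left h3 (inv_nonneg.mpr ht.le)
  rw [inv_mul_cancel_left₀ ht.ne'] at h4
  exact h4

/-- 7.1 : `H_n` has a quartic tail -/
theorem H_tail : ∃ C : ℝ, 0 < C ∧ ∀ (n : ℕ) (O : St),
    D.S.H n O * ‖B.z O.2.2‖ ^ 4 ≤ C * (n + 1) ^ 2 := by
  obtain ⟨C, hC, hm⟩ := moment4 D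
  have hl : 0 < B.lmax := lt_of_lt_of_le one_pos ((B.l_ge 0).trans (l_le_lmax B 0))
  have key : ∀ (n : ℕ) (a : Ltr) (R : ℝ), 0 ≤ R →
      (∑ i, if R ≤ ‖((push D.S)^[n] (pt a)).zp i‖ then
        ((push D.S)^[n] (pt a)).w i * B.l (ev (((push D.S)^[n] (pt a)).lt i)) else 0) * R ^ 4 ≤
        C * (n + 1) ^ 2 * B.lmax := by
    intro n a R hR
    have h1 := hm (pt a) (fun _ => rfl) n
    have h2 : lsum B (pt a) (fun _ => 1) = B.l (ev a) := by
      have : lsum B (pt a) (fun _ => 1) = ∑ i : Unit, (1 : ℝ) * B.l (ev a) * 1 := rfl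
      rw [this, Fintype.sum_unique, one_mul, mul_one]
    rw [h2] at h1
    have h3 : C * ((n : ℝ) + 1) ^ 2 * B.l (ev a) ≤ C * (n + 1) ^ 2 * B.lmax :=
      mul_le_mul_of_nonneg_left (l_le_lmax B a) (by positivity)
    refine le_trans ?_ (h1.trans h3)
    unfold lsum
    rw [Finset.sum_mul]
    apply Finset.sum_le_sum
    intro i _
    have h4 := far_mul_le B R hR (((push D.S)^[n] (pt a)).lt i) (((push D.S)^[n] (pt a)).zp i)
    have h5 := ((push D.S)^[n] (pt a)).w_nonneg i
    have h6 := mul_le_mul_of_nonneg_left h4 h5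
    unfold far at h6
    split
    · rename_i h
      rw [if_pos h] at h6
      linarith
    · rename_i h
      rw [if_neg h] at h6
      linarith
  refine ⟨32 * C * B.lmax, by positivity, ?_⟩
  intro n O
  have h1 := H_le_far D n O
  have h2 := key n O.1 (‖B.z O.2.2‖ / 2) (by positivity)
  have h3 := key n O.2.1 (‖B.z O.2.2‖ / 2) (by positivity)
  have h4 : ‖B.z O.2.2‖ ^ 4 = 16 * (‖B.z O.2.2‖ / 2) ^ 4 := by ring
  rw [h4]
  have h5 := mul_le_mul_of_nonneg_right h1 (show (0 : ℝ) ≤ (‖B.z O.2.2‖ / 2) ^ 4 by positivity)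
  rw [add_mul] at h5
  nlinarith

end Pool.Agent.RS69
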