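import Pool.Agent.RS69.Defs

/-!
# RS69.Op1 : words, tiles, overlap lengths (section 1.1 of the paper proof)

Proofs: lists, by induction on the word.
-/

set_option autoImplicit false

namespace Pool.Agent.RS69

variable {B : Base}

/-! ### words and tiles -/

theorem abv_nil : abv [] = 0 := by
  funext a
  simp [abv]

theorem abv_append (w1 w2 : List Ltr) : abv (w1 ++ w2) = abv w1 + abv w2 := by
  funext a
  simp [abv, List.count_append]

theorem abv_singleton (a : Ltr) : abv [a] = ev a := by
  funext b
  by_cases h : b = a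
  · subst h; simp [abv, ev]
  · have h' : a ≠ b := fun e => h e.symm
    simp [abv, ev, h, h']

theorem abv_cons (a : Ltr) (w : List Ltr) : abv (a :: w) = ev a + abv w := by
  rw [← abv_singleton a, ← abv_append]
  rfl

theorem abv_nonneg (w : List Ltr) (a : Ltr) : 0 ≤ abv w a := by
  exact Int.natCast_nonneg _

theorem abv_sum (w : List Ltr) : (∑ a, abv w a) = (w.length : ℤ) := by
  induction w with
  | nil => simp [abv_nil]
  | cons a w ih =>
    rw [abv_cons]
    simp only [Pi.add_apply, Finset.sum_add_distrib, ih, List.length_cons]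
    have h : ∑ b, ev a b = 1 := by simp [ev]
    rw [h]
    push_cast
    ring

theorem abv_replicate (n : ℕ) (a : Ltr) : abv (List.replicate n a) = (n : ℤ) • ev a := by
  induction n with
  | zero => simp [abv_nil]
  | succ n ih =>
    rw [List.replicate_succ, abv_cons, ih]
    push_cast
    rw [add_smul, one_smul, add_comm]

theorem tiles_append (w1 w2 : List Ltr) (s : Vec) :
    tiles (w1 ++ w2) s = tiles w1 s ++ tiles w2 (s + abv w1) := by
  induction w1 generalizing s with
  | nil => simp [tiles, abv_nil]
  | cons a w ih =>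
    simp only [List.cons_append, tiles, ih, abv_cons, add_assoc]

theorem tiles_length (w : List Ltr) (s : Vec) : (tiles w s).length = w.length := by
  induction w generalizing s with
  | nil => rfl
  | cons a w ih => simp [tiles, ih]

theorem tiles_shift (w : List Ltr) (s s' : Vec) :
    tiles w (s + s') = (tiles w s).map (fun x => (x.1, x.2 + s')) := by
  induction w generalizing s with
  | nil => rfl
  | cons a w ih =>
    simp only [tiles, List.map_cons]
    rw [add_right_comm, ih]

/-- the `i`-th tile -/
theorem tiles_get (w : List Ltr) (s : Vec) (i : ℕ) (hi : i < w.length) :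
    (tiles w s)[i]? = some (w[i], s + abv (w.take i)) := by
  induction w generalizing s i with
  | nil => simp at hi
  | cons a w ih =>
    cases i with
    | zero => simp [tiles, abv_nil]
    | succ i =>
      have hi' : i < w.length := by simpa using hi
      simp only [tiles, List.getElem?_cons_succ, List.getElem_cons_succ, List.take_succ_cons]
      rw [ih _ i hi', abv_cons, add_assoc]

theorem mem_tiles (w : List Ltr) (s : Vec) (x : Ltr × Vec) :
    x ∈ tiles w s ↔ ∃ i, ∃ hi : i < w.length, x = (w[i], s + abv (w.take i)) := by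
  rw [List.mem_iff_getElem?]
  constructor
  · rintro ⟨i, hi⟩
    have h1 : i < (tiles w s).length := by
      rw [List.getElem?_eq_some_iff] at hi
      exact hi.1
    rw [tiles_length] at h1
    refine ⟨i, h1, ?_⟩
    rw [tiles_get w s i h1] at hi
    exact (Option.some.inj hi).symm
  · rintro ⟨i, hi, rfl⟩
    exact ⟨i, tiles_get w s i hi⟩

/-- number of tiles of type `a` -/
theorem tiles_count (w : List Ltr) (s : Vec) (a : Ltr) :
    (((tiles w s).map (fun x => if x.1 = a then (1 : ℝ) else 0)).sum) = (abv w a : ℝ) := by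
  induction w generalizing s with
  | nil => simp [tiles, abv_nil]
  | cons b w ih =>
    simp only [tiles, List.map_cons, List.sum_cons, ih, abv_cons, Pi.add_apply]
    by_cases h : b = a
    · subst h; simp [ev]
    · have h' : a ≠ b := fun e => h e.symm
      simp [ev, h, h']

/-- sums over the tiles, as sums over indices -/
theorem tiles_sum (w : List Ltr) (s : Vec) (F : Ltr × Vec → ℝ) :
    (((tiles w s).map F).sum) = ∑ i : Fin w.length, F (w[i], s + abv (w.take i)) := by
  have h1 : (tiles w s).map F = List.ofFn (fun i : Fin w.length => F (w[i], s + abv (w.take i))) := by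
    apply List.ext_getElem?
    intro i
    rw [List.getElem?_map, List.getElem?_ofFn]
    by_cases hi : i < w.length
    · rw [tiles_get w s i hi, dif_pos hi]
      rfl
    · rw [dif_neg hi, List.getElem?_eq_none (by rw [tiles_length]; omega)]
      rfl
  rw [h1, List.sum_ofFn]

/-! ### overlaps -/

theorem I_nonneg (B : Base) (O : St) : 0 ≤ B.I O := by
  exact le_max_left _ _

theorem I_le_l (B : Base) (O : St) : B.I O ≤ B.l (ev O.1) ∧ B.I O ≤ B.l (ev O.2.1) := by
  have h1 : 0 ≤ B.l (ev O.1) := le_trans zero_le_one (B.l_ge _)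
  have h2 : 0 ≤ B.l (ev O.2.1) := le_trans zero_le_one (B.l_ge _)
  constructor
  · refine max_le h1 ?_
    have h3 := min_le_left (B.l (ev O.1)) (B.l O.2.2 + B.l (ev O.2.1))
    have h4 := le_max_left 0 (B.l O.2.2)
    linarith
  · refine max_le h2 ?_
    have h3 := min_le_right (B.l (ev O.1)) (B.l O.2.2 + B.l (ev O.2.1))
    have h4 := le_max_right 0 (B.l O.2.2)
    linarith

theorem l_le_lmax (B : Base) (a : Ltr) : B.l (ev a) ≤ B.lmax := by
  unfold Base.lmax
  exact Finset.single_le_sum (f := fun a => B.l (ev a))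
    (fun b _ => le_trans zero_le_one (B.l_ge b)) (Finset.mem_univ a)

theorem I_le_lmax (B : Base) (O : St) : B.I O ≤ B.lmax := by
  exact (I_le_l B O).1.trans (l_le_lmax B _)

theorem I_symm (B : Base) (a b : Ltr) (v : Vec) : B.I (a, b, v) = B.I (b, a, -v) := by
  unfold Base.I
  simp only [map_neg]
  congr 1
  set x := B.l (ev a)
  set y := B.l (ev b)
  set v' := B.l v
  rcases le_total 0 v' with h0 | h0
  · rw [max_eq_right h0, max_eq_left (by linarith : -v' ≤ 0)]
    rcases le_total x (v' + y) with h | h
    · rw [min_eq_left h, min_eq_right (by linarith : -v' + x ≤ y)]; ring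
    · rw [min_eq_right h, min_eq_left (by linarith : y ≤ -v' + x)]; ring
  · rw [max_eq_left h0, max_eq_right (by linarith : 0 ≤ -v')]
    rcases le_total x (v' + y) with h | h
    · rw [min_eq_left h, min_eq_right (by linarith : -v' + x ≤ y)]; ring
    · rw [min_eq_right h, min_eq_left (by linarith : y ≤ -v' + x)]; ring

/-- overlapping states have bounded real offset -/
theorem abs_l_le_of_I_pos (B : Base) (O : St) (h : 0 < B.I O) : |B.l O.2.2| ≤ B.lmax := by
  have h1 : 0 < B.l O.2.2 + B.l (ev O.2.1) ∧ B.l O.2.2 < B.l (ev O.1) := by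
    unfold Base.I at h
    rw [lt_max_iff] at h
    rcases h with h | h
    · exact absurd h (lt_irrefl _)
    · have h3 := min_le_left (B.l (ev O.1)) (B.l O.2.2 + B.l (ev O.2.1))
      have h4 := min_le_right (B.l (ev O.1)) (B.l O.2.2 + B.l (ev O.2.1))
      have h5 := le_max_left 0 (B.l O.2.2)
      have h6 := le_max_right 0 (B.l O.2.2)
      constructor <;> linarith
  have h2 := l_le_lmax B O.1
  have h3 := l_le_lmax B O.2.1
  rw [abs_le]
  constructor <;> linarith

theorem I_coin (B : Base) (a : Ltr) : B.I (a, a, 0) = B.l (ev a) := by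
  have h1 : 1 ≤ B.l (ev a) := B.l_ge _
  unfold Base.I
  simp only [map_zero, zero_add, min_self, max_self, sub_zero]
  exact max_eq_right (by linarith)

theorem I_pos_iff (B : Base) (O : St) :
    0 < B.I O ↔ B.l O.2.2 < B.l (ev O.1) ∧ 0 < B.l O.2.2 + B.l (ev O.2.1) := by
  have h1 : 1 ≤ B.l (ev O.1) := B.l_ge _
  have h2 : 1 ≤ B.l (ev O.2.1) := B.l_ge _
  unfold Base.I
  rw [lt_max_iff]
  constructor
  · rintro (h | h)
    · exact absurd h (lt_irrefl _)
    · have h3 := min_le_left (B.l (ev O.1)) (B.l O.2.2 + B.l (ev O.2.1))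
      have h4 := min_le_right (B.l (ev O.1)) (B.l O.2.2 + B.l (ev O.2.1))
      have h5 := le_max_left 0 (B.l O.2.2)
      have h6 := le_max_right 0 (B.l O.2.2)
      constructor <;> linarith
  · rintro ⟨h3, h4⟩
    right
    rw [sub_pos, max_lt_iff, lt_min_iff, lt_min_iff]
    refine ⟨⟨by linarith, h4⟩, h3, by linarith⟩

theorem l_Mpow (B : Base) (k : ℕ) (v : Vec) : B.l ((B.P ^ k).mulVec v) = B.t0 ^ k * B.l v := by
  induction k with
  | zero => simp
  | succ k ih =>
    rw [pow_succ', ← Matrix.mulVec_mulVec, B.l_P, ih]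
    ring

theorem c_Mpow (B : Base) (k : ℕ) (v : Vec) : B.c ((B.P ^ k).mulVec v) = (B.t0 ^ k)⁻¹ * B.c v := by
  induction k with
  | zero => simp
  | succ k ih =>
    rw [pow_succ', ← Matrix.mulVec_mulVec, B.c_P, ih, pow_succ, mul_inv]
    ring

theorem z_Mpow (B : Base) (k : ℕ) (v : Vec) : B.z ((B.P ^ k).mulVec v) = B.w0 ^ k * B.z v := by
  induction k with
  | zero => simp
  | succ k ih =>
    rw [pow_succ', ← Matrix.mulVec_mulVec, B.z_P, ih]
    ring

theorem M_mul_inv (B : Base) (k : ℕ) (v : Vec) : (B.P ^ k).mulVec ((B.Q ^ k).mulVec v) = v := by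
  have h : B.P ^ k * B.Q ^ k = 1 := by
    induction k with
    | zero => simp
    | succ k ih =>
      rw [pow_succ, pow_succ', Matrix.mul_assoc, ← Matrix.mul_assoc B.P B.Q, B.PQ, Matrix.one_mul, ih]
  rw [Matrix.mulVec_mulVec, h, Matrix.one_mulVec]

theorem M_inv_mul (B : Base) (k : ℕ) (v : Vec) : (B.Q ^ k).mulVec ((B.P ^ k).mulVec v) = v := by
  have h : B.Q ^ k * B.P ^ k = 1 := by
    induction k with
    | zero => simp
    | succ k ih =>
      rw [pow_succ, pow_succ', Matrix.mul_assoc, ← Matrix.mul_assoc B.Q B.P, B.QP, Matrix.one_mul, ih]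
  rw [Matrix.mulVec_mulVec, h, Matrix.one_mulVec]

/-- `l` does not vanish on nonzero vectors (norm form) -/
theorem l_ne_zero (B : Base) {v : Vec} (hv : v ≠ 0) : B.l v ≠ 0 := by
  intro h
  have h1 := B.norm_form v hv
  rw [h, abs_zero, zero_mul, zero_mul] at h1
  linarith

end Pool.Agent.RS69
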