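import Pool.Agent.RS69.Op1

/-!
# RS69.Op2 : positivity and linearity of the transfer operator and of its iterates
-/

set_option autoImplicit false

namespace Pool.Agent.RS69

variable {B : Base}

theorem t_pos (τ : Level B) : 0 < τ.t := by
  have := B.one_lt_t0
  exact pow_pos (by linarith) _

/-- `O'` is one of the child states of `O` -/
def IsChild (τ : Level B) (O O' : St) : Prop :=
  ∃ η η', ∃ x ∈ tiles (τ.sub η O.1) 0, ∃ y ∈ tiles (τ.sub η' O.2.1) 0, O' = child τ.M O x y

private theorem map_sum_eq {α : Type*} (l : List α) (F : α → ℝ) :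
    (l.map F).sum = ∑ i : Fin l.length, F (l.get i) := by
  rw [← List.sum_ofFn]
  congr 1
  exact (List.ofFn_get (l.map F)).symm.trans (by
    apply List.ext_get
    · simp
    · intro n h1 h2
      simp)

/-- `op` as a finite sum with nonnegative coefficients -/
theorem op_fin (τ : Level B) (O : St) :
    ∃ (ι : Type) (_ : Fintype ι) (c : ι → ℝ) (st : ι → St), (∀ i, 0 ≤ c i) ∧
      (∀ i, IsChild τ O (st i)) ∧ ∀ F : St → ℝ, τ.op F O = ∑ i, c i * F (st i) := by
  refine ⟨Σ η : τ.E, Σ η' : τ.E, Fin (tiles (τ.sub η O.1) 0).length ×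
    Fin (tiles (τ.sub η' O.2.1) 0).length, inferInstance,
    fun i => (τ.t)⁻¹ * (τ.β i.1 * τ.β i.2.1),
    fun i => child τ.M O ((tiles (τ.sub i.1 O.1) 0).get i.2.2.1)
      ((tiles (τ.sub i.2.1 O.2.1) 0).get i.2.2.2), ?_, ?_, ?_⟩
  · intro i
    exact mul_nonneg (inv_nonneg.2 (t_pos τ).le) (mul_nonneg (τ.β_nonneg _) (τ.β_nonneg _))
  · intro i
    exact ⟨i.1, i.2.1, _, List.get_mem _ _, _, List.get_mem _ _, rfl⟩
  · intro F
    unfold Level.op
    rw [Fintype.sum_sigma, Finset.mul_sum]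
    refine Finset.sum_congr rfl fun η _ => ?_
    rw [Fintype.sum_sigma, Finset.mul_sum]
    refine Finset.sum_congr rfl fun η' _ => ?_
    rw [Fintype.sum_prod_type, map_sum_eq, Finset.mul_sum, Finset.mul_sum]
    refine Finset.sum_congr rfl fun i _ => ?_
    rw [map_sum_eq, Finset.mul_sum, Finset.mul_sum]
    refine Finset.sum_congr rfl fun j _ => ?_
    ring

theorem op_nonneg (τ : Level B) {F : St → ℝ} (hF : ∀ O, 0 ≤ F O) (O : St) : 0 ≤ τ.op F O := by
  obtain ⟨ι, _, c, st, hc, -, h⟩ := op_fin τ O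
  rw [h]
  exact Finset.sum_nonneg fun i _ => mul_nonneg (hc i) (hF _)

theorem op_mono_child (τ : Level B) {F G : St → ℝ} (O : St) (h : ∀ O', IsChild τ O O' → F O' ≤ G O') :
    τ.op F O ≤ τ.op G O := by
  obtain ⟨ι, _, c, st, hc, hst, h'⟩ := op_fin τ O
  rw [h', h']
  exact Finset.sum_le_sum fun i _ => mul_le_mul_of_nonneg_left (h _ (hst i)) (hc i)

theorem op_congr_child (τ : Level B) {F G : St → ℝ} (O : St) (h : ∀ O', IsChild τ O O' → F O' = G O') :
    τ.op F O = τ.op G O :=
  le_antisymm (op_mono_child τ O fun O' ho => (h O' ho).le)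
    (op_mono_child τ O fun O' ho => (h O' ho).ge)

theorem op_mono (τ : Level B) {F G : St → ℝ} (h : ∀ O, F O ≤ G O) (O : St) :
    τ.op F O ≤ τ.op G O := op_mono_child τ O fun O' _ => h O'

theorem op_add (τ : Level B) (F G : St → ℝ) : τ.op (fun O => F O + G O) = fun O => τ.op F O + τ.op G O := by
  funext O
  obtain ⟨ι, _, c, st, hc, -, h⟩ := op_fin τ O
  simp only [h, mul_add, Finset.sum_add_distrib]

theorem op_sub (τ : Level B) (F G : St → ℝ) : τ.op (fun O => F O - G O) = fun O => τ.op F O - τ.op G O := by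
  funext O
  obtain ⟨ι, _, c, st, hc, -, h⟩ := op_fin τ O
  simp only [h, mul_sub, Finset.sum_sub_distrib]

theorem op_smul (τ : Level B) (r : ℝ) (F : St → ℝ) : τ.op (fun O => r * F O) = fun O => r * τ.op F O := by
  funext O
  obtain ⟨ι, _, c, st, hc, -, h⟩ := op_fin τ O
  simp only [h, Finset.mul_sum]
  exact Finset.sum_congr rfl fun i _ => by ring

theorem op_zero (τ : Level B) : τ.op (fun _ => 0) = fun _ => 0 := by
  funext O
  obtain ⟨ι, _, c, st, hc, -, h⟩ := op_fin τ O
  simp only [h, mul_zero, Finset.sum_const_zero]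

private theorem ind_sum {ι : Type} [Fintype ι] (c : ι → ℝ) (st : ι → St) (s : Finset St)
    (hs : ∀ i, st i ∈ s) (F : St → ℝ) :
    ∑ x ∈ s, (∑ i, c i * ind x (st i)) * F x = ∑ i, c i * F (st i) := by
  simp only [Finset.sum_mul]
  rw [Finset.sum_comm]
  refine Finset.sum_congr rfl fun i _ => ?_
  rw [Finset.sum_eq_single (st i)]
  · simp [ind]
  · intro x _ hx
    simp [ind, Ne.symm hx]
  · intro h
    exact absurd (hs i) h

/-- finite representation of `op` and of its iterates -/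
theorem op_rep (τ : Level B) (O : St) :
    ∃ s : Finset St, (∀ O' ∈ s, IsChild τ O O') ∧ ∀ F : St → ℝ, τ.op F O = ∑ x ∈ s, τ.op (ind x) O * F x := by
  classical
  obtain ⟨ι, _, c, st, hc, hst, h⟩ := op_fin τ O
  refine ⟨Finset.univ.image st, ?_, ?_⟩
  · intro O' hO'
    obtain ⟨i, -, rfl⟩ := Finset.mem_image.1 hO'
    exact hst i
  · intro F
    simp only [h]
    exact (ind_sum c st _ (fun i => Finset.mem_image_of_mem _ (Finset.mem_univ _)) F).symm

/-- iterates as finite sums with nonnegative coefficients -/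
theorem iter_fin (τ : Level B) (j : ℕ) (O : St) :
    ∃ (ι : Type) (_ : Fintype ι) (c : ι → ℝ) (st : ι → St), (∀ i, 0 ≤ c i) ∧
      ∀ F : St → ℝ, (τ.op^[j] F) O = ∑ i, c i * F (st i) := by
  induction j generalizing O with
  | zero =>
    refine ⟨Unit, inferInstance, fun _ => 1, fun _ => O, fun _ => zero_le_one, fun F => ?_⟩
    simp
  | succ j ih =>
    obtain ⟨ι, _, c, st, hc, -, h⟩ := op_fin τ O
    choose κ fκ d u hd hu using ih
    refine ⟨Σ i : ι, κ (st i), inferInstance, fun i => c i.1 * d (st i.1) i.2,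
      fun i => u (st i.1) i.2, fun i => mul_nonneg (hc _) (hd _ _), fun F => ?_⟩
    rw [Function.iterate_succ_apply', h, Fintype.sum_sigma]
    refine Finset.sum_congr rfl fun i _ => ?_
    rw [hu, Finset.mul_sum]
    exact Finset.sum_congr rfl fun k _ => by ring

theorem iter_rep (τ : Level B) (j : ℕ) (O : St) :
    ∃ s : Finset St, ∀ F : St → ℝ, (τ.op^[j] F) O = ∑ x ∈ s, (τ.op^[j] (ind x)) O * F x := by
  classical
  obtain ⟨ι, _, c, st, hc, h⟩ := iter_fin τ j O
  refine ⟨Finset.univ.image st, ?_⟩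
  intro F
  simp only [h]
  exact (ind_sum c st _ (fun i => Finset.mem_image_of_mem _ (Finset.mem_univ _)) F).symm

theorem iter_nonneg (τ : Level B) (j : ℕ) {F : St → ℝ} (hF : ∀ O, 0 ≤ F O) (O : St) :
    0 ≤ (τ.op^[j] F) O := by
  obtain ⟨ι, _, c, st, hc, h⟩ := iter_fin τ j O
  rw [h]
  exact Finset.sum_nonneg fun i _ => mul_nonneg (hc i) (hF _)

theorem iter_mono (τ : Level B) (j : ℕ) {F G : St → ℝ} (h : ∀ O, F O ≤ G O) (O : St) :
    (τ.op^[j] F) O ≤ (τ.op^[j] G) O := by
  obtain ⟨ι, _, c, st, hc, h'⟩ := iter_fin τ j O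
  rw [h', h']
  exact Finset.sum_le_sum fun i _ => mul_le_mul_of_nonneg_left (h _) (hc i)

theorem iter_add (τ : Level B) (j : ℕ) (F G : St → ℝ) (O : St) :
    (τ.op^[j] (fun O => F O + G O)) O = (τ.op^[j] F) O + (τ.op^[j] G) O := by
  obtain ⟨ι, _, c, st, hc, h⟩ := iter_fin τ j O
  simp only [h, mul_add, Finset.sum_add_distrib]

theorem iter_sub (τ : Level B) (j : ℕ) (F G : St → ℝ) (O : St) :
    (τ.op^[j] (fun O => F O - G O)) O = (τ.op^[j] F) O - (τ.op^[j] G) O := by
  obtain ⟨ι, _, c, st, hc, h⟩ := iter_fin τ j O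
  simp only [h, mul_sub, Finset.sum_sub_distrib]

theorem iter_smul (τ : Level B) (j : ℕ) (r : ℝ) (F : St → ℝ) (O : St) :
    (τ.op^[j] (fun O => r * F O)) O = r * (τ.op^[j] F) O := by
  obtain ⟨ι, _, c, st, hc, h⟩ := iter_fin τ j O
  simp only [h, Finset.mul_sum]
  exact Finset.sum_congr rfl fun i _ => by ring

private theorem ind_nonneg' (O' O : St) : 0 ≤ ind O' O := by
  unfold ind
  split_ifs
  · exact zero_le_one
  · exact le_rfl

/-- lower bound of an iterate by one descendant -/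
theorem iter_ge_ind (τ : Level B) (j : ℕ) {F : St → ℝ} (hF : ∀ O, 0 ≤ F O) (O O' : St) :
    (τ.op^[j] (ind O')) O * F O' ≤ (τ.op^[j] F) O := by
  rw [mul_comm, ← iter_smul]
  refine iter_mono τ j (fun X => ?_) O
  unfold ind
  split_ifs with hX
  · rw [hX, mul_one]
  · rw [mul_zero]; exact hF X

/-- Chapman-Kolmogorov lower bound -/
theorem iter_ind_ge (τ : Level B) (i j : ℕ) (O O' O'' : St) :
    (τ.op^[i] (ind O')) O * (τ.op^[j] (ind O'')) O' ≤ (τ.op^[i + j] (ind O'')) O := by
  rw [Function.iterate_add_apply]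
  exact iter_ge_ind τ i (fun X => iter_nonneg τ j (ind_nonneg' _) X) O O'

/-- general lower bound through an intermediate function: if `F ≤ (op^[j] G)` pointwise then
`op^[i] F ≤ op^[i+j] G` -/
theorem iter_le_iter (τ : Level B) (i j : ℕ) {F G : St → ℝ} (h : ∀ O, F O ≤ (τ.op^[j] G) O) (O : St) :
    (τ.op^[i] F) O ≤ (τ.op^[i + j] G) O := by
  rw [Function.iterate_add_apply]
  exact iter_mono τ i h O

/-! ### the natural level -/

theorem natLevel_op (B : Base) (N : ℕ) (σ : Ltr → List Ltr) (h : ∀ a, abv (σ a) = (B.P ^ N).mulVec (ev a))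
    (F : St → ℝ) (O : St) :
    (natLevel B N σ h).op F O = (B.t0 ^ N)⁻¹ * (((tiles (σ O.1) 0).map (fun x =>
      ((tiles (σ O.2.1) 0).map (fun y => F (child (B.P ^ N) O x y))).sum)).sum) := by
  unfold Level.op
  change (B.t0 ^ N)⁻¹ * ∑ η : Unit, ∑ η' : Unit, (1 : ℝ) * 1 * _ = _
  rw [Fintype.sum_unique, Fintype.sum_unique, one_mul, one_mul]
  rfl

private theorem single_le_sum {α : Type*} {l : List α} {F : α → ℝ} (hF : ∀ x, 0 ≤ F x) {x : α}
    (hx : x ∈ l) : F x ≤ (l.map F).sum := by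
  induction l with
  | nil => simp at hx
  | cons a l ih =>
    have hn : 0 ≤ (l.map F).sum := List.sum_nonneg (by
      intro y hy
      obtain ⟨z, -, rfl⟩ := List.mem_map.1 hy
      exact hF z)
    rw [List.map_cons, List.sum_cons]
    rcases List.mem_cons.1 hx with rfl | h
    · linarith
    · have := ih h
      have := hF a
      linarith

theorem natLevel_ind_ge (B : Base) (N : ℕ) (σ : Ltr → List Ltr) (h : ∀ a, abv (σ a) = (B.P ^ N).mulVec (ev a))
    (O : St) {x y : Ltr × Vec} (hx : x ∈ tiles (σ O.1) 0) (hy : y ∈ tiles (σ O.2.1) 0) :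
    (B.t0 ^ N)⁻¹ ≤ (natLevel B N σ h).op (ind (child (B.P ^ N) O x y)) O := by
  rw [natLevel_op]
  have ht : 0 < B.t0 ^ N := pow_pos (by linarith [B.one_lt_t0]) _
  refine le_mul_of_one_le_right (inv_nonneg.2 ht.le) ?_
  set G : St → ℝ := ind (child (B.P ^ N) O x y) with hG
  have hGn : ∀ X, 0 ≤ G X := fun X => ind_nonneg' _ X
  have h1 : (1 : ℝ) = G (child (B.P ^ N) O x y) := by simp [hG, ind]
  rw [h1]
  refine le_trans ?_ (single_le_sum (F := fun x => ((tiles (σ O.2.1) 0).map
    (fun y => G (child (B.P ^ N) O x y))).sum) ?_ hx)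
  · exact single_le_sum (F := fun y => G (child (B.P ^ N) O x y)) (fun _ => hGn _) hy
  · intro z
    exact List.sum_nonneg (by
      intro u hu
      obtain ⟨v, -, rfl⟩ := List.mem_map.1 hu
      exact hGn _)

theorem natLevel_ind_ne (B : Base) (N : ℕ) (σ : Ltr → List Ltr) (h : ∀ a, abv (σ a) = (B.P ^ N).mulVec (ev a))
    (O O' : St) (hne : (natLevel B N σ h).op (ind O') O ≠ 0) :
    ∃ x ∈ tiles (σ O.1) 0, ∃ y ∈ tiles (σ O.2.1) 0, O' = child (B.P ^ N) O x y := by
  by_contra hcon
  push Not at hcon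
  apply hne
  have := op_congr_child (natLevel B N σ h) (F := ind O') (G := fun _ => 0) O (by
    rintro X ⟨η, η', x, hx, y, hy, rfl⟩
    have := hcon x hx y hy
    unfold ind
    rw [if_neg]
    exact fun hh => this hh.symm)
  rw [this, op_zero]

/-- states which carry mass after `j` steps are `j`-fold children: an invariant of children is an invariant
of descendants.  (`Inv i` may depend on the time.) -/
theorem iter_congr_inv (τ : Level B) (Inv : ℕ → St → Prop)
    (hinv : ∀ i O O', Inv i O → IsChild τ O O' → Inv (i + 1) O') {F G : St → ℝ} (j : ℕ)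
    (h : ∀ O, Inv j O → F O = G O) (O : St) (hO : Inv 0 O) : (τ.op^[j] F) O = (τ.op^[j] G) O := by
  have key : ∀ k, k ≤ j → ∀ X, Inv (j - k) X → (τ.op^[k] F) X = (τ.op^[k] G) X := by
    intro k
    induction k with
    | zero => intro _ X hX; simpa using h X (by simpa using hX)
    | succ k ih =>
      intro hk X hX
      rw [Function.iterate_succ_apply', Function.iterate_succ_apply']
      refine op_congr_child τ X fun X' hX' => ih (by omega) X' ?_
      have := hinv _ _ _ hX hX'
      have e : j - (k + 1) + 1 = j - k := by omega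
      rwa [e] at this
  exact key j le_rfl O (by simpa using hO)

end Pool.Agent.RS69
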