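import Pool.Agent.RS69.Coin

/-!
# RS69.Reach1 : reach property (section 4.2 of the paper proof)
-/

set_option autoImplicit false

namespace Pool.Agent.RS69

open scoped Classical

variable {B : Base} (D : Design B)

namespace Reach1Aux

theorem norm_w (D : Design B) : ‖D.w‖ = 1 := by
  unfold Design.w
  rw [norm_pow, B.norm_w0, one_pow]

theorem t_pos' (D : Design B) : 0 < D.t := pow_pos (by linarith [B.one_lt_t0]) _

theorem A_pos (D : Design B) : 0 < D.A := by linarith [D.two_le_A]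

theorem g_le_Cc (B : Base) : B.g ≤ B.Cc := by
  have h1 : 0 ≤ ∑ a, ‖B.z (ev a)‖ := Finset.sum_nonneg (fun a _ => norm_nonneg _)
  have h2 : 0 ≤ max (∑ a, ‖B.z (ev a)‖) (∑ a, |B.c (ev a)|) := le_max_of_le_left h1
  have h3 := B.one_le_g
  unfold Base.Cc Base.kc Base.K0
  linarith

/-- a step from a good state to a good way point -/
theorem step_good (O : St) (h : D.Good O) (s : ℂ) (hs : ‖s - D.w * B.z O.2.2‖ ≤ B.g + 1) :
    ∃ O', D.Good O' ∧ ‖B.z O'.2.2 - s‖ ≤ B.g ∧ (D.t)⁻¹ ≤ D.S.op (ind O') O := by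
  obtain ⟨O', hg, hz, hc⟩ := D.dense s
  refine ⟨O', hg, hz, ?_⟩
  apply D.full O O' h
  · linarith [D.good_I O' hg]
  · have h1 : B.z O'.2.2 - B.w0 ^ D.N * B.z O.2.2 =
        (B.z O'.2.2 - s) + (s - D.w * B.z O.2.2) := by
      unfold Design.w; ring
    rw [h1]
    refine (norm_add_le _ _).trans ?_
    linarith
  · exact hc.trans (g_le_Cc B)

/-- walking from a good state near a virtual starting point -/
theorem walk' : ∀ (L : ℕ), 1 ≤ L → ∀ (G O2 : St), D.Good G → ∀ s0 : ℂ, ‖B.z G.2.2 - s0‖ ≤ B.g →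
    0 < B.I O2 → |B.c O2.2.2| ≤ B.Cc → ‖B.z O2.2.2 - D.w ^ L * s0‖ ≤ L →
    (D.t ^ L)⁻¹ ≤ (D.S.op^[L] (ind O2)) G := by
  intro L hL
  induction L, hL using Nat.le_induction with
  | base =>
    intro G O2 hG s0 hs0 hI hc hz
    simp only [Function.iterate_one, pow_one] at hz ⊢
    apply D.full G O2 hG hI _ hc
    have h1 : B.z O2.2.2 - B.w0 ^ D.N * B.z G.2.2 =
        (B.z O2.2.2 - D.w * s0) + D.w * (s0 - B.z G.2.2) := by
      unfold Design.w; ring
    rw [h1]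
    refine (norm_add_le _ _).trans ?_
    rw [norm_mul, norm_w, one_mul, norm_sub_rev s0]
    have := B.one_le_g
    push_cast at hz
    linarith
  | succ L hL ih =>
    intro G O2 hG s0 hs0 hI hc hz
    set Δ := B.z O2.2.2 - D.w ^ (L + 1) * s0 with hΔ
    have hL0 : (0 : ℝ) < L := by exact_mod_cast hL
    have hw : D.w ^ L ≠ 0 := by
      intro h0
      have : ‖D.w ^ L‖ = 1 := by rw [norm_pow, norm_w, one_pow]
      rw [h0, norm_zero] at this
      norm_num at this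
    have hwn : ‖D.w ^ L‖ = 1 := by rw [norm_pow, norm_w, one_pow]
    set s1 := D.w * s0 + (D.w ^ L)⁻¹ * (Δ / ((L : ℂ) + 1)) with hs1
    have hLn : ‖(L : ℂ) + 1‖ = (L : ℝ) + 1 := by
      have : ((L : ℂ) + 1) = (((L : ℝ) + 1 : ℝ) : ℂ) := by push_cast; ring
      rw [this, Complex.norm_real, Real.norm_of_nonneg (by positivity)]
    have hΔn : ‖Δ‖ ≤ (L : ℝ) + 1 := by
      push_cast at hz
      exact hz
    have h1 : ‖(D.w ^ L)⁻¹ * (Δ / ((L : ℂ) + 1))‖ ≤ 1 := by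
      rw [norm_mul, norm_inv, hwn, inv_one, one_mul, norm_div, hLn]
      rw [div_le_one (by positivity)]
      exact hΔn
    obtain ⟨O1, hg1, hz1, hop⟩ := step_good D G hG s1 (by
      have h2 : s1 - D.w * B.z G.2.2 =
          (D.w ^ L)⁻¹ * (Δ / ((L : ℂ) + 1)) + D.w * (s0 - B.z G.2.2) := by
        rw [hs1]; ring
      rw [h2]
      refine (norm_add_le _ _).trans ?_
      rw [norm_mul D.w, norm_w, one_mul, norm_sub_rev s0]
      linarith)
    have h3 : ‖B.z O2.2.2 - D.w ^ L * s1‖ ≤ L := by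
      have hne : (L : ℂ) + 1 ≠ 0 := by
        intro h0
        rw [h0, norm_zero] at hLn
        linarith
      have h4 : B.z O2.2.2 - D.w ^ L * s1 = Δ * ((L : ℂ) / ((L : ℂ) + 1)) := by
        have h5 : B.z O2.2.2 = Δ + D.w ^ (L + 1) * s0 := by rw [hΔ]; ring
        rw [h5, hs1]
        field_simp
        ring
      rw [h4, norm_mul, norm_div, hLn, Complex.norm_natCast]
      calc ‖Δ‖ * ((L : ℝ) / ((L : ℝ) + 1)) ≤ ((L : ℝ) + 1) * ((L : ℝ) / ((L : ℝ) + 1)) :=
            mul_le_mul_of_nonneg_right hΔn (by positivity)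
        _ = L := by field_simp
    have h6 := ih O1 O2 hg1 s1 hz1 hI hc h3
    have h7 := iter_ind_ge D.S 1 L G O1 O2
    rw [Function.iterate_one, Nat.add_comm 1 L] at h7
    refine le_trans ?_ h7
    rw [pow_succ', mul_inv]
    exact mul_le_mul hop h6 (inv_nonneg.2 (pow_nonneg (t_pos' D).le _))
      ((inv_nonneg.2 (t_pos' D).le).trans hop)

end Reach1Aux

open Reach1Aux

/-- a good state has a good child: (G) at `w z(G)` and (F) -/
theorem good_has_good_child (O : St) (h : D.Good O) :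
    ∃ O', D.Good O' ∧ (D.t)⁻¹ ≤ D.S.op (ind O') O := by
  obtain ⟨O', h1, _, h2⟩ := step_good D O h (D.w * B.z O.2.2) (by
    rw [sub_self, norm_zero]
    linarith [B.one_le_g])
  exact ⟨O', h1, h2⟩

/-- steering `s` times: mass at least `A^{-s} I(G)` sits at good states within `Z3` of the rotating centre
(induction with the function `1{Good, |z - w^s z(G)| ≤ Z3} I` and (S)) -/
theorem steer_iter (G : St) (hG : D.Good G) (s : ℕ) :
    B.I G / D.A ^ s ≤ (D.S.op^[s] (fun O' =>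
      if D.Good O' ∧ ‖B.z O'.2.2 - D.w ^ s * B.z G.2.2‖ ≤ D.Z3 then B.I O' else 0)) G := by
  induction s with
  | zero =>
    simp only [pow_zero, div_one, one_mul, Function.iterate_zero, id_eq, sub_self, norm_zero]
    rw [if_pos ⟨hG, D.Z3_nonneg⟩]
  | succ s ih =>
    set F : ℕ → St → ℝ := fun s O' =>
      if D.Good O' ∧ ‖B.z O'.2.2 - D.w ^ s * B.z G.2.2‖ ≤ D.Z3 then B.I O' else 0 with hF
    have hF0 : ∀ s O, 0 ≤ F s O := by
      intro s O
      simp only [hF]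
      split_ifs
      · exact I_nonneg B O
      · exact le_rfl
    have h1 : ∀ O, (D.A)⁻¹ * F s O ≤ D.S.op (F (s + 1)) O := by
      intro O
      by_cases hO : D.Good O ∧ ‖B.z O.2.2 - D.w ^ s * B.z G.2.2‖ ≤ D.Z3
      · have h2 : F s O = B.I O := by simp only [hF]; rw [if_pos hO]
        rw [h2, mul_comm, ← div_eq_mul_inv]
        apply D.steer O (D.w ^ (s + 1) * B.z G.2.2) hO.1
        · have h3 : B.w0 ^ D.N * B.z O.2.2 - D.w ^ (s + 1) * B.z G.2.2 =
              D.w * (B.z O.2.2 - D.w ^ s * B.z G.2.2) := by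
            rw [show B.w0 ^ D.N = D.w from rfl]; ring
          rw [h3, norm_mul, norm_w, one_mul]
          exact hO.2
        · exact hF0 _
        · intro O' hg hz
          simp only [hF]
          rw [if_pos ⟨hg, hz⟩]
      · have h2 : F s O = 0 := by simp only [hF]; rw [if_neg hO]
        rw [h2, mul_zero]
        exact op_nonneg _ (hF0 _) O
    have h2 : (D.S.op^[s] (fun O => (D.A)⁻¹ * F s O)) G ≤ (D.S.op^[s + 1] (F (s + 1))) G :=
      iter_le_iter D.S s 1 (by simpa using h1) G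
    rw [iter_smul] at h2
    refine le_trans ?_ h2
    have h3 : B.I G / D.A ^ (s + 1) = (D.A)⁻¹ * (B.I G / D.A ^ s) := by
      rw [pow_succ]; field_simp
    rw [h3]
    exact mul_le_mul_of_nonneg_left ih (inv_nonneg.2 (A_pos D).le)

/-- `L` steps along a rotating straight segment through good way points: from a good `G` every overlapping
`O2` with `|c| ≤ Cc` and `‖z(O2) - w^L z(G)‖ ≤ ρ ≤ L` is reached with probability `≥ t^{-L}`.
(steps `≤ ρ/L + 2 g ≤ 2 g + 1`) -/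
theorem walk (G O2 : St) (hG : D.Good G) (L : ℕ) (hL : 1 ≤ L) (ρ : ℝ) (hρ : ρ ≤ L)
    (hI : 0 < B.I O2) (hc : |B.c O2.2.2| ≤ B.Cc)
    (hz : ‖B.z O2.2.2 - D.w ^ L * B.z G.2.2‖ ≤ ρ) :
    (D.t ^ L)⁻¹ ≤ (D.S.op^[L] (ind O2)) G := by
  refine walk' D L hL G O2 hG (B.z G.2.2) ?_ hI hc (hz.trans hρ)
  rw [sub_self, norm_zero]
  linarith [B.one_le_g]

/-- 4.2 REACH -/
theorem reach (G O2 : St) (hG : D.Good G) (s L : ℕ) (r1 : ℝ) (hr1 : 0 ≤ r1) (hL : r1 + D.Z3 + 1 ≤ L)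
    (hI : 0 < B.I O2) (hc : |B.c O2.2.2| ≤ B.Cc)
    (hz : ‖B.z O2.2.2 - D.w ^ (s + L) * B.z G.2.2‖ ≤ r1) :
    (8 * B.lmax)⁻¹ * (D.t ^ L)⁻¹ * (D.A ^ s)⁻¹ ≤ (D.S.op^[s + L] (ind O2)) G := by
  have hZ := D.Z3_nonneg
  have hL1 : 1 ≤ L := by
    have : (1 : ℝ) ≤ L := by linarith
    exact_mod_cast this
  have hlmax : 0 < B.lmax := by
    have h1 := B.l_ge 0
    have h2 := l_le_lmax B 0
    linarith
  have htL : 0 < D.t ^ L := pow_pos (t_pos' D) _
  set F : St → ℝ := fun O' =>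
      if D.Good O' ∧ ‖B.z O'.2.2 - D.w ^ s * B.z G.2.2‖ ≤ D.Z3 then B.I O' else 0 with hF
  have h1 : ∀ O, (B.lmax)⁻¹ * (D.t ^ L)⁻¹ * F O ≤ (D.S.op^[L] (ind O2)) O := by
    intro O
    by_cases hO : D.Good O ∧ ‖B.z O.2.2 - D.w ^ s * B.z G.2.2‖ ≤ D.Z3
    · have h2 : F O = B.I O := by simp only [hF]; rw [if_pos hO]
      rw [h2]
      have h3 : (D.t ^ L)⁻¹ ≤ (D.S.op^[L] (ind O2)) O := by
        apply walk D O O2 hO.1 L hL1 (r1 + D.Z3) (by linarith) hI hc
        have h4 : B.z O2.2.2 - D.w ^ L * B.z O.2.2 =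
            (B.z O2.2.2 - D.w ^ (s + L) * B.z G.2.2) -
              D.w ^ L * (B.z O.2.2 - D.w ^ s * B.z G.2.2) := by
          rw [pow_add]; ring
        rw [h4]
        refine (norm_sub_le _ _).trans ?_
        rw [norm_mul, norm_pow, norm_w, one_pow, one_mul]
        linarith [hO.2]
      refine le_trans ?_ h3
      have h5 : (B.lmax)⁻¹ * B.I O ≤ 1 := by
        rw [inv_mul_le_iff₀ hlmax, mul_one]
        exact I_le_lmax B O
      calc (B.lmax)⁻¹ * (D.t ^ L)⁻¹ * B.I O = ((B.lmax)⁻¹ * B.I O) * (D.t ^ L)⁻¹ := by ring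
        _ ≤ 1 * (D.t ^ L)⁻¹ := mul_le_mul_of_nonneg_right h5 (inv_nonneg.2 htL.le)
        _ = (D.t ^ L)⁻¹ := one_mul _
    · have h2 : F O = 0 := by simp only [hF]; rw [if_neg hO]
      rw [h2, mul_zero]
      exact iter_nonneg D.S L (fun X => by unfold ind; split_ifs <;> norm_num) O
  have h2 := iter_le_iter D.S s L h1 G
  rw [iter_smul] at h2
  refine le_trans ?_ h2
  have h3 := steer_iter D G hG s
  have h4 := D.good_I G hG
  have hA : 0 < D.A ^ s := pow_pos (A_pos D) _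
  have h5 : (8 * B.lmax)⁻¹ * (D.t ^ L)⁻¹ * (D.A ^ s)⁻¹ =
      (B.lmax)⁻¹ * (D.t ^ L)⁻¹ * ((1 / 8) / D.A ^ s) := by
    rw [mul_inv]; ring
  rw [h5]
  apply mul_le_mul_of_nonneg_left _ (by positivity)
  refine le_trans ?_ h3
  gcongr

end Pool.Agent.RS69
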