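import Pool.Agent.RS69.Reach1
import Pool.Agent.RS69.Tr3

/-!
# RS69.Reach2 : NGC runs (section 4.1) and the telescoping over the last state with a good child
-/

set_option autoImplicit false

namespace Pool.Agent.RS69

open scoped Classical

variable {B : Base} (D : Design B)

/-- bad, not coincident, overlapping, in range -/
def BadNC (O : St) : Prop := 0 < B.I O ∧ ¬ Coin O ∧ ¬ D.Good O ∧ |B.c O.2.2| ≤ D.Cbig

/-- restricted operator: `T 0 a = a 1_{BadNC}`, `T (s+1) a = 1_{NGC, BadNC} P (T s a)` -/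
noncomputable def T (a : St → ℝ) : ℕ → St → ℝ
  | 0 => fun O => if BadNC D O then a O else 0
  | s + 1 => fun O => if BadNC D O ∧ D.NGC O then D.S.op (T a s) O else 0

namespace Reach2Aux

theorem T_zero (D : Design B) (a : St → ℝ) (O : St) :
    T D a 0 O = if BadNC D O then a O else 0 := rfl

theorem T_succ (D : Design B) (a : St → ℝ) (s : ℕ) (O : St) :
    T D a (s + 1) O = if BadNC D O ∧ D.NGC O then D.S.op (T D a s) O else 0 := rfl

theorem T_bad (D : Design B) (a : St → ℝ) (s : ℕ) (O : St) (h : T D a s O ≠ 0) : BadNC D O := by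
  cases s with
  | zero =>
    rw [T_zero] at h
    by_contra hc
    exact h (if_neg hc)
  | succ s =>
    rw [T_succ] at h
    by_contra hc
    exact h (if_neg fun h' => hc h'.1)

theorem gv_z (D : Design B) (s : ℕ) (v : Vec) :
    B.z (((B.P ^ D.N) ^ s).mulVec v) = D.w ^ s * B.z v := by
  rw [← pow_mul, z_Mpow, pow_mul]
  rfl

theorem gv_l (D : Design B) (s : ℕ) (v : Vec) :
    B.l (((B.P ^ D.N) ^ s).mulVec v) = D.t ^ s * B.l v := by
  rw [← pow_mul, l_Mpow, pow_mul]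
  rfl

/-- a good state has a good child -/
theorem good_not_NGC (D : Design B) (E : St) (h : D.Good E) : ¬ D.NGC E := by
  intro hN
  obtain ⟨O', hg, -, hop⟩ := Reach1Aux.step_good D E h (D.w * B.z E.2.2) (by
    rw [sub_self, norm_zero]
    linarith [B.one_le_g])
  have h1 := hN O' hg
  have h2 : 0 < (D.t)⁻¹ := inv_pos.2 (Reach1Aux.t_pos' D)
  rw [h1] at hop
  linarith

/-- if `I E = 0` all functions supported on overlapping states have `op F E = 0` -/
theorem op_eq_zero_of_I (D : Design B) {F : St → ℝ} (hF : ∀ O, F O ≠ 0 → 0 < B.I O) (E : St)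
    (hE : B.I E = 0) : D.S.op F E = 0 := by
  obtain ⟨ι, _, c, st, hc, -, h⟩ := op_fin D.S E
  have h1 : ∑ i, c i * B.I (st i) = 0 := by
    rw [← h, op_I, hE]
  rw [h]
  refine Finset.sum_eq_zero fun i _ => ?_
  have h2 := (Finset.sum_eq_zero_iff_of_nonneg
    (fun i _ => mul_nonneg (hc i) (I_nonneg B (st i)))).1 h1 i (Finset.mem_univ i)
  rcases mul_eq_zero.1 h2 with h3 | h3
  · rw [h3, zero_mul]
  · by_cases h4 : F (st i) = 0
    · rw [h4, mul_zero]
    · exact absurd h3 (hF _ h4).ne'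

end Reach2Aux

open Reach2Aux

theorem T_nonneg {a : St → ℝ} (ha : ∀ O, 0 ≤ a O) (s : ℕ) (O : St) : 0 ≤ T D a s O := by
  induction s generalizing O with
  | zero =>
    rw [T_zero]
    split_ifs
    · exact ha O
    · exact le_refl _
  | succ s ih =>
    rw [T_succ]
    split_ifs
    · exact op_nonneg _ ih O
    · exact le_refl _

theorem T_le_iter {a : St → ℝ} (ha : ∀ O, 0 ≤ a O) (s : ℕ) (O : St) : T D a s O ≤ (D.S.op^[s] a) O := by
  induction s generalizing O with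
  | zero =>
    rw [T_zero]
    split_ifs
    · exact le_refl _
    · exact ha O
  | succ s ih =>
    rw [T_succ, Function.iterate_succ_apply']
    split_ifs
    · exact op_mono _ ih O
    · exact op_nonneg _ (iter_nonneg _ s ha) O

theorem T_mono {a b : St → ℝ} (hab : ∀ O, a O ≤ b O) (s : ℕ) (O : St) :
    T D a s O ≤ T D b s O := by
  induction s generalizing O with
  | zero =>
    rw [T_zero, T_zero]
    split_ifs
    · exact hab O
    · exact le_refl _
  | succ s ih =>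
    rw [T_succ, T_succ]
    split_ifs
    · exact op_mono _ ih O
    · exact le_refl _

theorem T_add (a b : St → ℝ) (s : ℕ) : T D (fun O => a O + b O) s = fun O => T D a s O + T D b s O := by
  induction s with
  | zero =>
    funext O
    rw [T_zero, T_zero, T_zero]
    split_ifs
    · rfl
    · rw [add_zero]
  | succ s ih =>
    funext O
    rw [T_succ, T_succ, T_succ, ih, op_add]
    split_ifs
    · rfl
    · rw [add_zero]

theorem Bdd_T {R : ℝ} {a : St → ℝ} (ha : Bdd B R a) (s : ℕ) : ∃ R', Bdd B R' (T D a s) := by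
  induction s with
  | zero =>
    refine ⟨R, fun O hO => ha O fun h => hO ?_⟩
    rw [T_zero, h, ite_self]
  | succ s ih =>
    obtain ⟨R1, h1⟩ := ih
    obtain ⟨R2, h2⟩ := Bdd_op D.S h1
    refine ⟨R2, fun O hO => h2 O fun h => hO ?_⟩
    rw [T_succ, h, ite_self]

/-- chain structure: if `T a s E` does not vanish then there is `O` with `a O ≠ 0`, `BadNC O`,
`gv O = M^s gv E` -/
theorem T_chain (a : St → ℝ) (s : ℕ) (E : St) (h : T D a s E ≠ 0) :
    ∃ O, a O ≠ 0 ∧ BadNC D O ∧ D.gv O = ((B.P ^ D.N) ^ s).mulVec (D.gv E) ∧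
      (D.S.op^[s] (ind O)) E ≠ 0 := by
  induction s generalizing E with
  | zero =>
    have hb := T_bad D a 0 E h
    rw [T_zero, if_pos hb] at h
    refine ⟨E, h, hb, ?_, ?_⟩
    · rw [pow_zero, Matrix.one_mulVec]
    · simp [ind]
  | succ s ih =>
    have hb := T_bad D a (s + 1) E h
    rw [T_succ] at h
    have hN : BadNC D E ∧ D.NGC E := by
      by_contra hc
      exact h (if_neg hc)
    rw [if_pos hN] at h
    have h1 : ∃ E', IsChild D.S E E' ∧ T D a s E' ≠ 0 := by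
      by_contra hc
      push Not at hc
      apply h
      rw [op_congr_child D.S (F := T D a s) (G := fun _ => 0) E hc, op_zero]
    obtain ⟨E', hch, hne⟩ := h1
    have hb' := T_bad D a s E' hne
    obtain ⟨O, h2, h3, h4, h5⟩ := ih E' hne
    have h6 := (isChild_iff D E E').1 hch
    obtain ⟨-, h7⟩ := D.ngc E E' hb.1 hb.2.1 hb.2.2.2 hN.2 hb'.1 h6
    refine ⟨O, h2, h3, ?_, ?_⟩
    · rw [h4, h7, Matrix.mulVec_mulVec, ← pow_succ]
    · have h8 := iter_ind_ge D.S 1 s E E' O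
      rw [Function.iterate_one, Nat.add_comm 1 s] at h8
      have hn : ∀ O' : St, ∀ X : St, 0 ≤ ind O' X := fun O' X => by
        unfold ind
        split_ifs
        · exact zero_le_one
        · exact le_refl _
      have h9 : 0 < D.S.op (ind E') E := lt_of_le_of_ne (op_nonneg _ (hn E') E) (Ne.symm h6)
      have h10 : 0 < (D.S.op^[s] (ind O)) E' :=
        lt_of_le_of_ne (iter_nonneg _ _ (hn O) E') (Ne.symm h5)
      exact ne_of_gt (lt_of_lt_of_le (mul_pos h9 h10) h8)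

/-- 4.1, displacement -/
theorem T_disp : ∃ C : ℝ, 0 < C ∧ ∀ (a : St → ℝ) (s : ℕ) (E : St), T D a s E ≠ 0 →
    ∃ O, a O ≠ 0 ∧ BadNC D O ∧ ‖B.z O.2.2 - D.w ^ s * B.z E.2.2‖ ≤ C := by
  refine ⟨2 * |D.Cg| + 1, by positivity, fun a s E h => ?_⟩
  have hE := T_bad D a s E h
  obtain ⟨O, h1, h2, h3, -⟩ := T_chain D a s E h
  refine ⟨O, h1, h2, ?_⟩
  obtain ⟨-, -, e1, -⟩ := D.gv_prop E hE.1 hE.2.1 hE.2.2.1 hE.2.2.2
  obtain ⟨-, -, e2, -⟩ := D.gv_prop O h2.1 h2.2.1 h2.2.2.1 h2.2.2.2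
  have h4 : B.z (D.gv O) = D.w ^ s * B.z (D.gv E) := by rw [h3, gv_z]
  have h5 : B.z O.2.2 - D.w ^ s * B.z E.2.2 =
      (B.z O.2.2 - B.z (D.gv O)) + D.w ^ s * (B.z (D.gv E) - B.z E.2.2) := by
    rw [h4]; ring
  rw [h5]
  have hw : ‖D.w ^ s‖ = 1 := by rw [norm_pow, Reach1Aux.norm_w, one_pow]
  calc _ ≤ ‖B.z O.2.2 - B.z (D.gv O)‖ + ‖D.w ^ s * (B.z (D.gv E) - B.z E.2.2)‖ := norm_add_le _ _
    _ ≤ |D.Cg| + |D.Cg| := by
      rw [norm_mul, hw, one_mul, norm_sub_rev]
      exact add_le_add (e2.trans (le_abs_self _)) (e1.trans (le_abs_self _))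
    _ ≤ _ := by linarith

/-- 4.1, duration (norm form applied to `gv E`) -/
theorem T_run : ∃ C : ℝ, 1 ≤ C ∧ ∀ (a : St → ℝ) (W : ℝ), 0 ≤ W → (∀ O, a O ≠ 0 → ‖B.z O.2.2‖ ≤ W) →
    ∀ (s : ℕ), C * (1 + W) ^ 2 < D.t ^ s → ∀ E, T D a s E = 0 := by
  refine ⟨(|D.Cbig| + |D.Cg|) * (1 + |D.Cg|) ^ 2 + 1, by
    have h1 := abs_nonneg D.Cbig
    have h2 := abs_nonneg D.Cg
    have h3 : 0 ≤ (|D.Cbig| + |D.Cg|) * (1 + |D.Cg|) ^ 2 := by positivity
    linarith, fun a W hW ha s hs E => ?_⟩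
  by_contra h
  have hE := T_bad D a s E h
  obtain ⟨O, h1, h2, h3, -⟩ := T_chain D a s E h
  obtain ⟨hne, -, e1, e1'⟩ := D.gv_prop E hE.1 hE.2.1 hE.2.2.1 hE.2.2.2
  obtain ⟨-, e3, e2, -⟩ := D.gv_prop O h2.1 h2.2.1 h2.2.2.1 h2.2.2.2
  have hw : ‖D.w ^ s‖ = 1 := by rw [norm_pow, Reach1Aux.norm_w, one_pow]
  have h4 : ‖B.z (D.gv O)‖ = ‖B.z (D.gv E)‖ := by rw [h3, gv_z, norm_mul, hw, one_mul]
  have h5 : |B.l (D.gv O)| = D.t ^ s * |B.l (D.gv E)| := by
    rw [h3, gv_l, abs_mul, abs_of_pos (pow_pos (Reach1Aux.t_pos' D) s)]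
  have h6 : ‖B.z (D.gv E)‖ ≤ (1 + |D.Cg|) * (1 + W) := by
    rw [← h4]
    have h7 := norm_add_le (B.z O.2.2) (B.z (D.gv O) - B.z O.2.2)
    rw [add_sub_cancel] at h7
    have h8 := ha O h1
    have h9 := le_abs_self D.Cg
    have h10 := abs_nonneg D.Cg
    nlinarith
  have h7 : |B.c (D.gv E)| ≤ |D.Cbig| + |D.Cg| := by
    have h8 := abs_add_le (B.c E.2.2) (B.c (D.gv E) - B.c E.2.2)
    rw [add_sub_cancel] at h8
    have h9 := le_abs_self D.Cg
    have h10 := le_abs_self D.Cbig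
    linarith [hE.2.2.2]
  have h8 := B.norm_form (D.gv E) hne
  have ht : 0 < D.t ^ s := pow_pos (Reach1Aux.t_pos' D) s
  have h9 : D.t ^ s ≤ (D.t ^ s * |B.l (D.gv E)|) * (|B.c (D.gv E)| * ‖B.z (D.gv E)‖ ^ 2) := by
    calc D.t ^ s = D.t ^ s * 1 := (mul_one _).symm
      _ ≤ D.t ^ s * (|B.l (D.gv E)| * |B.c (D.gv E)| * ‖B.z (D.gv E)‖ ^ 2) :=
        mul_le_mul_of_nonneg_left h8 ht.le
      _ = _ := by ring
  rw [← h5] at h9
  have h10 : |B.c (D.gv E)| * ‖B.z (D.gv E)‖ ^ 2 ≤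
      (|D.Cbig| + |D.Cg|) * ((1 + |D.Cg|) * (1 + W)) ^ 2 := by
    apply mul_le_mul h7 (pow_le_pow_left₀ (norm_nonneg _) h6 2) (by positivity) (by positivity)
  have h11 : D.t ^ s ≤ 1 * ((|D.Cbig| + |D.Cg|) * ((1 + |D.Cg|) * (1 + W)) ^ 2) :=
    h9.trans (mul_le_mul e3 h10 (by positivity) zero_le_one)
  have h12 : ((|D.Cbig| + |D.Cg|) * (1 + |D.Cg|) ^ 2 + 1) * (1 + W) ^ 2 =
      (|D.Cbig| + |D.Cg|) * ((1 + |D.Cg|) * (1 + W)) ^ 2 + (1 + W) ^ 2 := by ring
  have h13 : 0 ≤ (1 + W) ^ 2 := sq_nonneg _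
  rw [h12] at hs
  linarith

/-- localisation of `T`: only the values of `a` near the rotated position matter -/
theorem T_local : ∃ C : ℝ, 0 < C ∧ ∀ (s : ℕ) (E : St) (a b : St → ℝ),
    (∀ O, BadNC D O → ‖B.z O.2.2 - D.w ^ s * B.z E.2.2‖ ≤ C → a O = b O) →
    T D a s E = T D b s E := by
  obtain ⟨C, hC, h⟩ := T_disp D
  refine ⟨C, hC, fun s E a b hab => ?_⟩
  have h1 : T D (fun O => (a O - b O) + b O) s E = T D (fun O => a O - b O) s E + T D b s E := by
    rw [T_add]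
  have h2 : (fun O => (a O - b O) + b O) = a := by
    funext O
    ring
  rw [h2] at h1
  have h3 : T D (fun O => a O - b O) s E = 0 := by
    by_contra hne
    obtain ⟨O, h4, h5, h6⟩ := h _ s E hne
    exact h4 (sub_eq_zero.2 (hab O h5 h6))
  rw [h1, h3, zero_add]

namespace Reach2Aux

theorem step_le (D : Design B) {a : St → ℝ} (ha0 : ∀ O, 0 ≤ a O) (s : ℕ) (E : St)
    (hc : |B.c E.2.2| ≤ D.Cbig) :
    D.S.op (T D a s) E ≤ (if |B.c E.2.2| ≤ D.Cbig ∧ ¬ D.NGC E ∧ ¬ Coin E ∧ 0 < B.I E then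
      D.S.op (T D a s) E else 0) + T D a (s + 1) E := by
  have hT := T_nonneg D ha0 (s + 1) E
  have hsupp : ∀ O, T D a s O ≠ 0 → BadNC D O := fun O hO => T_bad D a s O hO
  rcases eq_or_lt_of_le (I_nonneg B E) with h0 | h0
  · have h1 := op_eq_zero_of_I D (F := T D a s) (fun O hO => (hsupp O hO).1) E h0.symm
    rw [h1, ite_self, zero_add]
    exact hT
  · by_cases hco : Coin E
    · have h1 : D.S.op (T D a s) E = 0 := by
        rw [op_congr_child D.S (F := T D a s) (G := fun _ => 0) E, op_zero]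
        intro O' hO'
        by_contra hne
        have hb := hsupp O' hne
        exact hb.2.1 (child_coin D E O' hco hO' hb.1)
      rw [h1, ite_self, zero_add]
      exact hT
    · by_cases hN : D.NGC E
      · have hb : BadNC D E := ⟨h0, hco, fun hg => good_not_NGC D E hg hN, hc⟩
        rw [if_neg (fun h => h.2.1 hN), zero_add, T_succ, if_pos ⟨hb, hN⟩]
      · rw [if_pos ⟨hc, hN, hco, h0⟩]
        linarith

end Reach2Aux

/-- telescoping over the time of the last state with a good child -/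
theorem tele (n S : ℕ) (hS : S ≤ n) {J : ℂ → ℝ} (hJ : ∀ s, 0 ≤ J s) {ν : Arr} (hν : InC B D.Cν ν)
    {a : St → ℝ} {R : ℝ} (ha : Bdd B R a) (ha0 : ∀ O, 0 ≤ a O)
    (hcoin : ∀ O, Coin O → a O = 0) (hI : ∀ O, B.I O = 0 → a O = 0) :
    Bf B D.ζ0 1 J ν (D.S.op^[n] a) ≤
      Bf B D.ζ0 1 J ν (D.S.op^[n] (fun O => if D.Good O then a O else 0)) +
      (∑ s ∈ Finset.range S, Bf B D.ζ0 1 J ν (D.S.op^[n - (s + 1)] (fun E =>
        if |B.c E.2.2| ≤ D.Cbig ∧ ¬ D.NGC E ∧ ¬ Coin E ∧ 0 < B.I E then D.S.op (T D a s) E else 0))) +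
      Bf B D.ζ0 1 J ν (D.S.op^[n - S] (T D a S)) := by
  have hg : Bdd B R (fun O => if D.Good O then a O else 0) := fun O hO => ha O fun h => hO (by
    dsimp only
    rw [h, ite_self])
  induction S with
  | zero =>
    rw [Finset.range_zero, Finset.sum_empty, add_zero, Nat.sub_zero]
    have hT0 : Bdd B R (T D a 0) := fun O hO => ha O fun h => hO (by
      rw [T_zero, h, ite_self])
    rw [← Bf_iter_add D n J ν hg hT0]
    refine Bf_iter_mono D n hJ hν ha (G := fun O => (if D.Good O then a O else 0) + T D a 0 O)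
      (R := R) ?_ ?_
    · intro O hO
      apply ha
      intro h
      apply hO
      dsimp only
      rw [T_zero, h, ite_self, ite_self, add_zero]
    · intro O hO
      rw [T_zero]
      by_cases h1 : D.Good O
      · rw [if_pos h1]
        have : 0 ≤ if BadNC D O then a O else 0 := by
          split_ifs
          · exact ha0 O
          · exact le_refl _
        linarith
      · rw [if_neg h1, zero_add]
        by_cases h2 : BadNC D O
        · rw [if_pos h2]
        · rw [if_neg h2]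
          apply le_of_eq
          by_cases h3 : Coin O
          · exact hcoin O h3
          · apply hI
            by_contra h4
            exact h2 ⟨lt_of_le_of_ne (I_nonneg B O) (Ne.symm h4), h3, h1, hO⟩
  | succ S ih =>
    have h1 := ih (by omega)
    rw [Finset.sum_range_succ]
    obtain ⟨R1, hR1⟩ := Bdd_T D ha S
    obtain ⟨R2, hR2⟩ := Bdd_op D.S hR1
    obtain ⟨R3, hR3⟩ := Bdd_T D ha (S + 1)
    set F : St → ℝ := fun E =>
        if |B.c E.2.2| ≤ D.Cbig ∧ ¬ D.NGC E ∧ ¬ Coin E ∧ 0 < B.I E then D.S.op (T D a S) E else 0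
      with hF
    have hF2 : Bdd B R2 F := fun O hO => hR2 O fun h => hO (by
      simp only [hF, h, ite_self])
    have h2 : D.S.op^[n - S] (T D a S) = D.S.op^[n - (S + 1)] (D.S.op (T D a S)) := by
      rw [← Function.iterate_succ_apply]
      congr 1
      congr 1
      omega
    have hmax1 : Bdd B (max R2 R3) (D.S.op (T D a S)) := Bdd_mono (le_max_left _ _) hR2
    have hmax2 : Bdd B (max R2 R3) F := Bdd_mono (le_max_left _ _) hF2
    have hmax3 : Bdd B (max R2 R3) (T D a (S + 1)) := Bdd_mono (le_max_right _ _) hR3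
    have hmax4 : Bdd B (max R2 R3) (fun O => F O + T D a (S + 1) O) := by
      intro O hO
      by_cases h3 : F O = 0
      · apply hmax3
        intro h4
        apply hO
        dsimp only
        rw [h3, h4, add_zero]
      · exact hmax2 O h3
    have h3 : Bf B D.ζ0 1 J ν (D.S.op^[n - S] (T D a S)) ≤
        Bf B D.ζ0 1 J ν (D.S.op^[n - (S + 1)] F) +
          Bf B D.ζ0 1 J ν (D.S.op^[n - (S + 1)] (T D a (S + 1))) := by
      rw [h2, ← Bf_iter_add D _ J ν hmax2 hmax3]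
      exact Bf_iter_mono D _ hJ hν hmax1 hmax4 fun O hO => step_le D ha0 S O hO
    linarith

end Pool.Agent.RS69
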