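import Pool.Agent.RS69.Main3

/-!
# RS69.Rec1 : infima over the classes
-/

set_option autoImplicit false

namespace Pool.Agent.RS69

variable {B : Base} (D : Design B)

/-- infimum over the class of the flat totals -/
noncomputable def cinf (n : ℕ) : ℝ := sInf {x | ∃ ν : Arr, InC B D.Cν ν ∧ x = D.cn ν n}

/-- infimum over the class of the localised totals -/
noncomputable def qinf (n : ℕ) (r : ℝ) : ℝ := sInf {x | ∃ ν : Arr, InC0 B D.Cν ν ∧ x = D.Qn ν n r}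

private theorem cn_nonneg (ν : Arr) (n : ℕ) : 0 ≤ D.cn ν n :=
  Bf_nonneg B zero_le_one (fun _ => zero_le_one) ν (H_nonneg D n)

private theorem Qn_nonneg (ν : Arr) (n : ℕ) (r : ℝ) : 0 ≤ D.Qn ν n r :=
  Bf_nonneg B zero_le_one (fun s => Jr_nonneg r s) ν (H_nonneg D n)

private theorem cset_bdd (n : ℕ) : BddBelow {x | ∃ ν : Arr, InC B D.Cν ν ∧ x = D.cn ν n} :=
  ⟨0, by rintro _ ⟨ν, _, rfl⟩; exact cn_nonneg D ν n⟩

private theorem qset_bdd (n : ℕ) (r : ℝ) :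
    BddBelow {x | ∃ ν : Arr, InC0 B D.Cν ν ∧ x = D.Qn ν n r} :=
  ⟨0, by rintro _ ⟨ν, _, rfl⟩; exact Qn_nonneg D ν n r⟩

private theorem cset_ne (n : ℕ) : {x | ∃ ν : Arr, InC B D.Cν ν ∧ x = D.cn ν n}.Nonempty :=
  ⟨_, nu0 B, (nu0_InC0 D).1, rfl⟩

private theorem qset_ne (n : ℕ) (r : ℝ) :
    {x | ∃ ν : Arr, InC0 B D.Cν ν ∧ x = D.Qn ν n r}.Nonempty :=
  ⟨_, nu0 B, nu0_InC0 D, rfl⟩

theorem cinf_le {ν : Arr} (h : InC B D.Cν ν) (n : ℕ) : cinf D n ≤ D.cn ν n :=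
  csInf_le (cset_bdd D n) ⟨ν, h, rfl⟩

theorem le_cinf {n : ℕ} {x : ℝ} (h : ∀ ν : Arr, InC B D.Cν ν → x ≤ D.cn ν n) : x ≤ cinf D n := by
  refine le_csInf (cset_ne D n) ?_
  rintro _ ⟨ν, hν, rfl⟩
  exact h ν hν

theorem qinf_le {ν : Arr} (h : InC0 B D.Cν ν) (n : ℕ) (r : ℝ) : qinf D n r ≤ D.Qn ν n r :=
  csInf_le (qset_bdd D n r) ⟨ν, h, rfl⟩

theorem le_qinf {n : ℕ} {r x : ℝ} (h : ∀ ν : Arr, InC0 B D.Cν ν → x ≤ D.Qn ν n r) : x ≤ qinf D n r := by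
  refine le_csInf (qset_ne D n r) ?_
  rintro _ ⟨ν, hν, rfl⟩
  exact h ν hν

theorem cinf_mono : Monotone (cinf D) := fun _ _ h =>
  le_cinf D fun ν hν => (cinf_le D hν _).trans (cn_mono D ν h)

theorem qinf_mono (r : ℝ) : Monotone (fun n => qinf D n r) := fun _ _ h =>
  le_qinf D fun ν hν => (qinf_le D hν _ r).trans (Qn_mono D ν h r)

theorem qinf_anti (n : ℕ) {r ρ : ℝ} (hr : 0 < r) (h : r ≤ ρ) : qinf D n ρ ≤ qinf D n r :=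
  le_qinf D fun ν hν => (qinf_le D hν n ρ).trans (Qn_anti D ν n hr h)

theorem qinf_nonneg (n : ℕ) (r : ℝ) : 0 ≤ qinf D n r :=
  le_qinf D fun ν _ => Qn_nonneg D ν n r

private theorem exists_cn_lt (n : ℕ) {y : ℝ} (h : cinf D n < y) :
    ∃ ν : Arr, InC B D.Cν ν ∧ D.cn ν n < y := by
  obtain ⟨_, ⟨ν, hν, rfl⟩, hx⟩ := exists_lt_of_csInf_lt (cset_ne D n) h
  exact ⟨ν, hν, hx⟩

private theorem exists_Qn_lt (n : ℕ) (r : ℝ) {y : ℝ} (h : qinf D n r < y) :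
    ∃ ν : Arr, InC0 B D.Cν ν ∧ D.Qn ν n r < y := by
  obtain ⟨_, ⟨ν, hν, rfl⟩, hx⟩ := exists_lt_of_csInf_lt (qset_ne D n r) h
  exact ⟨ν, hν, hx⟩

/-- finitely many strict inequalities hold with a common positive gap -/
private theorem common_gap (S : Finset ℕ) (F : ℕ → ℝ) (x : ℝ) (h : ∀ m ∈ S, x < F m) :
    ∃ γ : ℝ, 0 < γ ∧ ∀ m ∈ S, x + γ ≤ F m := by
  classical
  induction S using Finset.induction_on with
  | empty => exact ⟨1, one_pos, by simp⟩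
  | insert a S ha ih =>
    obtain ⟨γ, hγ, hS⟩ := ih (fun m hm => h m (Finset.mem_insert_of_mem hm))
    have ha' := h a (Finset.mem_insert_self _ _)
    refine ⟨min γ (F a - x), lt_min hγ (by linarith), ?_⟩
    intro m hm
    rcases Finset.mem_insert.1 hm with rfl | hm
    · have := min_le_right γ (F m - x)
      linarith
    · have := min_le_left γ (F a - x)
      have := hS m hm
      linarith

/-- FLAT for the infimum (`n'` takes finitely many values: for each `ε' > 0` an almost optimal `ν` gives some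
`n'`; if every `n'` failed, it would fail by a common positive amount) -/
theorem cinf_ineq (L n0 : ℕ) (ε : ℝ) (hε : 0 ≤ ε) (hε1 : ε ≤ 1)
    (h : ∀ n : ℕ, n0 ≤ n → ∀ N : ℕ, 2 * n ≤ N → (N : ℝ) ≤ (n : ℝ) ^ (11 / 10 : ℝ) →
      ∀ ν : Arr, InC B D.Cν ν → ∃ (n' : ℕ) (ν' : Arr), n ≤ n' ∧ (n' : ℝ) ≤ (1 + ε) * n ∧ n' + L ≤ N ∧
        InC B D.Cν ν' ∧
        (1 - ε) * D.cn ν n' + D.cn ν' (N - n' - L) ≤ (1 + (n : ℝ) ^ (-(1 / 10) : ℝ)) * D.cn ν N) :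
    ∀ n : ℕ, n0 ≤ n → ∀ N : ℕ, 2 * n ≤ N → (N : ℝ) ≤ (n : ℝ) ^ (11 / 10 : ℝ) →
      ∃ n' : ℕ, n ≤ n' ∧ (n' : ℝ) ≤ (1 + ε) * n ∧ n' + L ≤ N ∧
        (1 - ε) * cinf D n' + cinf D (N - n' - L) ≤ (1 + (n : ℝ) ^ (-(1 / 10) : ℝ)) * cinf D N := by
  intro n hn N hN1 hN2
  by_contra hcon
  push Not at hcon
  set δ : ℝ := (n : ℝ) ^ (-(1 / 10) : ℝ) with hδ
  have hδ0 : 0 ≤ δ := Real.rpow_nonneg (Nat.cast_nonneg n) _
  classical
  obtain ⟨γ, hγ, hgap⟩ := common_gap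
    ((Finset.range (N + 1)).filter (fun m => n ≤ m ∧ (m : ℝ) ≤ (1 + ε) * n ∧ m + L ≤ N))
    (fun m => (1 - ε) * cinf D m + cinf D (N - m - L)) ((1 + δ) * cinf D N) (by
      intro m hm
      obtain ⟨h1, h2, h3⟩ := (Finset.mem_filter.1 hm).2
      exact hcon m h1 h2 h3)
  obtain ⟨ν, hν, hlt⟩ := exists_cn_lt D N (y := cinf D N + γ / (1 + δ))
    (by have : 0 < γ / (1 + δ) := div_pos hγ (by linarith)
        linarith)
  obtain ⟨n', ν', h1, h2, h3, hν', h4⟩ := h n hn N hN1 hN2 ν hν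
  have h5 := hgap n' (Finset.mem_filter.2 ⟨Finset.mem_range.2 (by omega), h1, h2, h3⟩)
  have h6 : (1 - ε) * cinf D n' ≤ (1 - ε) * D.cn ν n' :=
    mul_le_mul_of_nonneg_left (cinf_le D hν n') (by linarith)
  have h7 := cinf_le D hν' (N - n' - L)
  have h8 : (1 + δ) * D.cn ν N < (1 + δ) * (cinf D N + γ / (1 + δ)) :=
    mul_lt_mul_of_pos_left hlt (by linarith)
  have h9 : (1 + δ) * (cinf D N + γ / (1 + δ)) = (1 + δ) * cinf D N + γ := by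
    field_simp
  linarith

/-- LOC for the infimum -/
theorem qinf_ineq (L n0 : ℕ) (ε C5 : ℝ) (hε : 0 ≤ ε) (hε1 : ε ≤ 1)
    (h : ∀ n : ℕ, n0 ≤ n → ∀ N : ℕ, 2 * n ≤ N → (N : ℝ) ≤ (n : ℝ) ^ (11 / 10 : ℝ) →
      ∀ ν : Arr, InC0 B D.Cν ν → ∀ r : ℝ, 1 ≤ r → r ≤ Real.sqrt n →
      ∃ (n' : ℕ) (ν' : Arr), n ≤ n' ∧ (n' : ℝ) ≤ (1 + ε) * n ∧ n' + L ≤ N ∧ InC0 B D.Cν ν' ∧
        (1 - ε) * D.Qn ν n' r + (1 / 12) * D.Qn ν' (N - n' - L) (C5 * Real.sqrt n) ≤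
          D.Qn ν N r + (n : ℝ) ^ (-(1 / 10) : ℝ)) :
    ∀ n : ℕ, n0 ≤ n → ∀ N : ℕ, 2 * n ≤ N → (N : ℝ) ≤ (n : ℝ) ^ (11 / 10 : ℝ) →
      ∀ r : ℝ, 1 ≤ r → r ≤ Real.sqrt n →
      ∃ n' : ℕ, n ≤ n' ∧ (n' : ℝ) ≤ (1 + ε) * n ∧ n' + L ≤ N ∧
        (1 - ε) * qinf D n' r + (1 / 12) * qinf D (N - n' - L) (C5 * Real.sqrt n) ≤
          qinf D N r + (n : ℝ) ^ (-(1 / 10) : ℝ) := by
  intro n hn N hN1 hN2 r hr1 hr2
  by_contra hcon
  push Not at hcon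
  set δ : ℝ := (n : ℝ) ^ (-(1 / 10) : ℝ) with hδ
  classical
  obtain ⟨γ, hγ, hgap⟩ := common_gap
    ((Finset.range (N + 1)).filter (fun m => n ≤ m ∧ (m : ℝ) ≤ (1 + ε) * n ∧ m + L ≤ N))
    (fun m => (1 - ε) * qinf D m r + (1 / 12) * qinf D (N - m - L) (C5 * Real.sqrt n))
    (qinf D N r + δ) (by
      intro m hm
      obtain ⟨h1, h2, h3⟩ := (Finset.mem_filter.1 hm).2
      exact hcon m h1 h2 h3)
  obtain ⟨ν, hν, hlt⟩ := exists_Qn_lt D N r (y := qinf D N r + γ) (by linarith)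
  obtain ⟨n', ν', h1, h2, h3, hν', h4⟩ := h n hn N hN1 hN2 ν hν r hr1 hr2
  have h5 := hgap n' (Finset.mem_filter.2 ⟨Finset.mem_range.2 (by omega), h1, h2, h3⟩)
  have h6 : (1 - ε) * qinf D n' r ≤ (1 - ε) * D.Qn ν n' r :=
    mul_le_mul_of_nonneg_left (qinf_le D hν n' r) (by linarith)
  have h7 := qinf_le D hν' (N - n' - L) (C5 * Real.sqrt n)
  linarith

end Pool.Agent.RS69
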