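import Pool.Agent.RS69.Rec1
import Pool.Agent.RS69.Mom3
import Pool.Agent.RS69.Mass2

/-!
# RS69.Rec2 : 8.A2, lower bound of the localised totals at scale `sqrt n` from the flat totals

`F = c_n/n ≥ (log n)^{-1/50}/C`; by `cn_tail` with `ρ = A1 √n`, `A1² = C'/F ≥ 1`, half of `c_n` sits in
`|z| ≤ A1 √n`, where `Jr (A1 √n) ≥ e^{-1/2} / (A1² n)`; so `Q(n, A1 √n) ≥ c c_n/(A1² n) ≥ c' F²`; `Qn_anti`.
(For `ν ∈ C0` all `zp = 0`, so `Bf (Jr r)` has the weight `Jr r (z V)`.)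
-/

set_option autoImplicit false

namespace Pool.Agent.RS69

variable {B : Base} (D : Design B)

namespace Rec2Aux

theorem Bdd_smul {R r : ℝ} {F : St → ℝ} (hF : Bdd B R F) : Bdd B R (fun O => r * F O) := by
  intro O hO
  refine hF O ?_
  intro h
  apply hO
  simp [h]

theorem Bdd_Hn (n : ℕ) : Bdd B (B.lmax + 2 * D.Zt * n) (D.S.H n) := by
  have h := Mass2Aux.Bdd_trunc D n (fun _ => True)
  simpa using h

/-- the Gaussian kernel is bounded below on its ball -/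
theorem Jr_ge {ρ : ℝ} (hρ : 0 < ρ) {s : ℂ} (hs : ‖s‖ ≤ ρ) :
    Real.exp (-(1 / 2)) * (ρ ^ 2)⁻¹ ≤ Jr ρ s := by
  unfold Jr SRig.Jg
  rw [mul_comm]
  refine mul_le_mul_of_nonneg_left ?_ (by positivity)
  refine Real.exp_le_exp.2 ?_
  have h1 : ‖s‖ ^ 2 ≤ ρ ^ 2 := pow_le_pow_left₀ (norm_nonneg _) hs 2
  rw [neg_div, neg_le_neg_iff, div_le_iff₀ (by positivity)]
  linarith

/-- half of the flat total sits in a ball: lower bound of the localised total -/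
theorem loc_ge (ν : Arr) (hν : ∀ i, ν.zp i = 0) (n : ℕ) {ρ : ℝ} (hρ : 0 < ρ) :
    Real.exp (-(1 / 2)) * (ρ ^ 2)⁻¹ *
      Bf B D.ζ0 1 Jone ν (fun O => if ‖B.z O.2.2‖ ≤ ρ then D.S.H n O else 0) ≤ D.Qn ν n ρ := by
  classical
  have hζ := ζ0_pos D
  have hb := Mass2Aux.Bdd_trunc D n (fun O => ‖B.z O.2.2‖ ≤ ρ)
  rw [← Bf_smul]
  unfold Design.Qn Bf
  refine Finset.sum_le_sum fun i _ => Finset.sum_le_sum fun j _ => ?_
  refine mul_le_mul_of_nonneg_left ?_ (mul_nonneg (ν.w_nonneg i) (ν.w_nonneg j))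
  refine Summable.tsum_le_tsum ?_
    (Bf_summable B hζ one_pos Jone ν (Bdd_smul (r := Real.exp (-(1 / 2)) * (ρ ^ 2)⁻¹) hb) i j)
    (Bf_summable B hζ one_pos (Jr ρ) ν (Bdd_Hn D n) i j)
  intro V
  have hH := H_nonneg D n (ν.lt i, ν.lt j, V)
  have hK := KD_nonneg (ζ := D.ζ0) (D := 1) zero_le_one (B.c V + ν.pos i - ν.pos j)
  have hJ := Jr_nonneg ρ (B.z V + ν.zp i - ν.zp j)
  rw [hν i, hν j]
  simp only [add_zero, sub_zero]
  by_cases hz : ‖B.z V‖ ≤ ρ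
  · rw [if_pos hz]
    have h1 := Jr_ge hρ hz
    have h2 : KD D.ζ0 1 (B.c V + ν.pos i - ν.pos j) * (Real.exp (-(1 / 2)) * (ρ ^ 2)⁻¹) *
        D.S.H n (ν.lt i, ν.lt j, V) ≤
        KD D.ζ0 1 (B.c V + ν.pos i - ν.pos j) * Jr ρ (B.z V) * D.S.H n (ν.lt i, ν.lt j, V) :=
      mul_le_mul_of_nonneg_right (mul_le_mul_of_nonneg_left h1 hK) hH
    refine le_trans (le_of_eq ?_) h2
    unfold Jone
    ring
  · rw [if_neg hz, mul_zero, mul_zero]
    exact mul_nonneg (mul_nonneg hK (Jr_nonneg _ _)) hH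

end Rec2Aux

open Rec2Aux

theorem Q_base {C : ℝ} (hC : 0 < C)
    (h : ∀ n : ℕ, 2 ≤ n → (n : ℝ) * (Real.log n) ^ (-(1 / 50) : ℝ) / C ≤ cinf D n) :
    ∃ C' : ℝ, 0 < C' ∧ ∀ n : ℕ, 2 ≤ n → ∀ r : ℝ, 1 ≤ r → r ≤ Real.sqrt n → ∀ ν : Arr, InC0 B D.Cν ν →
      (Real.log n) ^ (-(1 / 25) : ℝ) / C' ≤ D.Qn ν n r := by
  classical
  obtain ⟨CH, hCH, hH⟩ := H_tail D
  obtain ⟨C1, hC1, htail⟩ := cn_tail D hH
  have hζ := ζ0_pos D
  set e : ℝ := Real.exp (-(1 / 2)) with he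
  have he0 : 0 < e := Real.exp_pos _
  have hlog2 : 0 < Real.log 2 := Real.log_pos (by norm_num)
  set K : ℝ := (Real.log 2) ^ (-(1 / 50) : ℝ) with hK
  have hK0 : 0 < K := Real.rpow_pos_of_pos hlog2 _
  refine ⟨2 * (2 * C1 * C ^ 2 + K * C) / e, by positivity, fun n hn r hr1 hr2 ν hν => ?_⟩
  have hn2 : (2 : ℝ) ≤ n := by exact_mod_cast hn
  have hn0 : (0 : ℝ) < n := by linarith
  have hlogn : Real.log 2 ≤ Real.log n := Real.log_le_log (by norm_num) hn2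
  have hlog0 : 0 < Real.log n := by linarith
  set x : ℝ := (Real.log n) ^ (-(1 / 50) : ℝ) with hx
  have hx0 : 0 < x := Real.rpow_pos_of_pos hlog0 _
  have hxK : x ≤ K := Real.rpow_le_rpow_of_nonpos hlog2 hlogn (by norm_num)
  have hx2 : (Real.log n) ^ (-(1 / 25) : ℝ) = x ^ 2 := by
    rw [hx, ← Real.rpow_natCast, ← Real.rpow_mul hlog0.le]
    norm_num
  -- the radius
  set q : ℝ := 2 * C1 * C / x + 1 with hq
  have hq1 : 1 ≤ q := by
    have : 0 ≤ 2 * C1 * C / x := by positivity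
    linarith
  set ρ : ℝ := Real.sqrt (q * n) with hρ
  have hρ2 : ρ ^ 2 = q * n := Real.sq_sqrt (by positivity)
  have hρn : Real.sqrt n ≤ ρ := Real.sqrt_le_sqrt (by nlinarith)
  have hρ1 : 1 ≤ ρ := by linarith
  have hρ0 : 0 < ρ := by linarith
  -- the flat total
  have hcn : (n : ℝ) * x / C ≤ D.cn ν n := (h n hn).trans (cinf_le D hν.1 n)
  have ht := htail ν hν.1 n (by omega) ρ hρ1
  have hsplit : D.cn ν n =
      Bf B D.ζ0 1 Jone ν (fun O => if ‖B.z O.2.2‖ ≤ ρ then D.S.H n O else 0) +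
      Bf B D.ζ0 1 Jone ν (fun O => if ρ < ‖B.z O.2.2‖ then D.S.H n O else 0) := by
    rw [← Bf_add B hζ one_pos Jone ν (Mass2Aux.Bdd_trunc D n (fun O => ‖B.z O.2.2‖ ≤ ρ))
      (Mass2Aux.Bdd_trunc D n (fun O => ρ < ‖B.z O.2.2‖))]
    unfold Design.cn
    congr 1
    funext O
    by_cases hz : ‖B.z O.2.2‖ ≤ ρ
    · rw [if_pos hz, if_neg (not_lt.2 hz), add_zero]
    · rw [if_neg hz, if_pos (not_le.1 hz), zero_add]
  have htl : C1 * (n : ℝ) ^ 2 / ρ ^ 2 ≤ (n : ℝ) * x / C / 2 := by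
    rw [hρ2, div_le_iff₀ (by positivity)]
    have h1 : 2 * C1 * C / x ≤ q := by linarith
    have h2 : 2 * C1 * C ≤ q * x := by rwa [div_le_iff₀ hx0] at h1
    have h3 : (n : ℝ) * x / C / 2 * (q * n) = (n : ℝ) ^ 2 * (q * x) / (2 * C) := by
      field_simp
    rw [h3, le_div_iff₀ (by positivity)]
    have h4 : 0 ≤ (n : ℝ) ^ 2 := by positivity
    nlinarith
  have hball : (n : ℝ) * x / C / 2 ≤
      Bf B D.ζ0 1 Jone ν (fun O => if ‖B.z O.2.2‖ ≤ ρ then D.S.H n O else 0) := by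
    linarith
  have hloc := loc_ge D ν hν.2 n hρ0
  have hanti := Qn_anti D ν n (by linarith : 0 < r) (hr2.trans hρn)
  refine le_trans ?_ (hloc.trans hanti)
  have h5 : e * (ρ ^ 2)⁻¹ * ((n : ℝ) * x / C / 2) ≤ e * (ρ ^ 2)⁻¹ *
      Bf B D.ζ0 1 Jone ν (fun O => if ‖B.z O.2.2‖ ≤ ρ then D.S.H n O else 0) :=
    mul_le_mul_of_nonneg_left hball (by positivity)
  refine le_trans ?_ h5
  rw [hx2, hρ2]
  have h6 : e * (q * (n : ℝ))⁻¹ * ((n : ℝ) * x / C / 2) = e * x / (2 * C * q) := by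
    field_simp
  rw [h6]
  have h7 : q * x = 2 * C1 * C + x := by
    rw [hq]
    field_simp
  have h8 : q * x ≤ 2 * C1 * C + K := by linarith
  rw [div_div_eq_mul_div, div_le_div_iff₀ (by positivity) (by positivity)]
  have h9 : x ^ 2 * e * (2 * C * q) = (2 * C * e * x) * (q * x) := by ring
  have h10 : e * x * (2 * (2 * C1 * C ^ 2 + K * C)) = (2 * C * e * x) * (2 * C1 * C + K) := by ring
  rw [h9, h10]
  exact mul_le_mul_of_nonneg_left h8 (by positivity)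

end Pool.Agent.RS69
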