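import Pool.Agent.SRig.Rec

/-!
# RS69.Scales : the two bootstrapping arguments in scales, abstract form (section 8.A)

Pure real analysis, from `SRig.growth` and `SRig.boot`.  `c` is the infimum over the class of the flat totals,
`q` of the localised totals.  For `loc_boot`: `q' i j = q (4^i) (2^j)`, `γ = 1/25`, `c2 = 1/12`,
`ε = 1/10000`, `d = 1/100` (absorb `n^{-1/10} ≤ d q`), `2^C6 ≥ C5`.
-/

set_option autoImplicit false

open Filter

namespace Pool.Agent.RS69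

/-- 8.A1.  A nondecreasing positive sequence with the (approximate) superadditivity of FLAT is
`≥ n (log n)^(-β)/C` with `β` small.  (`ε = 1/10000`.) -/
theorem flat_boot (c : ℕ → ℝ) (hmono : Monotone c) (hpos : ∃ c0 : ℝ, 0 < c0 ∧ ∀ n, c0 ≤ c n) (L : ℕ) (n0 : ℕ)
    (h : ∀ n : ℕ, n0 ≤ n → ∀ N : ℕ, 2 * n ≤ N → (N : ℝ) ≤ (n : ℝ) ^ (11 / 10 : ℝ) →
      ∃ n' : ℕ, n ≤ n' ∧ (n' : ℝ) ≤ (1 + 1 / 10000) * n ∧ n' + L ≤ N ∧
        (1 - 1 / 10000) * c n' + c (N - n' - L) ≤ (1 + (n : ℝ) ^ (-(1 / 10) : ℝ)) * c N) :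
    ∃ C : ℝ, 0 < C ∧ ∀ n : ℕ, 2 ≤ n → (n : ℝ) * (Real.log n) ^ (-(1 / 50) : ℝ) / C ≤ c n := by
  obtain ⟨c0, hc0, hc⟩ := hpos
  obtain ⟨a, ha, hh⟩ := SRig.growth (C := c) (c0 := c0) (ε := 1 / 10000) (L := L) (n0 := n0) hmono hc0 (hc 0)
    (by norm_num) (by norm_num) (by
      intro n N hn hN hN2
      obtain ⟨n', h1, h2, h3, h4⟩ := h n hn N hN hN2
      refine le_trans (add_le_add ?_ ?_) h4
      · exact mul_le_mul_of_nonneg_left (hmono h1) (by norm_num)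
      · apply hmono
        have h5 : n' ≤ ⌊(1 + 1 / 10000 : ℝ) * n⌋₊ := Nat.le_floor h2
        omega)
  refine ⟨1 / a, by positivity, fun n hn => ?_⟩
  have := hh n hn
  have e : (200 * (1 / 10000) : ℝ) = 1 / 50 := by norm_num
  rw [e] at this
  calc (n : ℝ) * (Real.log n) ^ (-(1 / 50) : ℝ) / (1 / a) = a * n * (Real.log n) ^ (-(1 / 50) : ℝ) := by
        field_simp
    _ ≤ c n := this

/-- 8.A3.  No bounded `q` satisfies LOC with a base bound `≥ (log n)^{-1/25}/C`. -/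
theorem loc_boot (q : ℕ → ℝ → ℝ) (hmono : ∀ r, Monotone (fun n => q n r))
    (hanti : ∀ n r ρ, 1 ≤ r → r ≤ ρ → q n ρ ≤ q n r) (hnonneg : ∀ n r, 0 ≤ q n r)
    (CQ : ℝ) (hQ : ∀ n r, 1 ≤ r → q n r ≤ CQ) (C5 : ℝ) (hC5 : 1 ≤ C5) (L n0 : ℕ)
    (h : ∀ n : ℕ, n0 ≤ n → ∀ N : ℕ, 2 * n ≤ N → (N : ℝ) ≤ (n : ℝ) ^ (11 / 10 : ℝ) →
      ∀ r : ℝ, 1 ≤ r → r ≤ Real.sqrt n →
      ∃ n' : ℕ, n ≤ n' ∧ (n' : ℝ) ≤ (1 + 1 / 10000) * n ∧ n' + L ≤ N ∧
        (1 - 1 / 10000) * q n' r + (1 / 12) * q (N - n' - L) (C5 * Real.sqrt n) ≤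
          q N r + (n : ℝ) ^ (-(1 / 10) : ℝ))
    (C : ℝ) (hC : 0 < C)
    (hbase : ∀ n : ℕ, 2 ≤ n → ∀ r : ℝ, 1 ≤ r → r ≤ Real.sqrt n →
      (Real.log n) ^ (-(1 / 25) : ℝ) / C ≤ q n r) : False := by
  have hsq : ∀ k : ℕ, Real.sqrt ((4 ^ k : ℕ) : ℝ) = 2 ^ k := by
    intro k
    have : (((4 ^ k : ℕ) : ℝ)) = (2 ^ k) ^ 2 := by
      push_cast
      rw [← pow_mul, mul_comm, pow_mul]; norm_num
    rw [this, Real.sqrt_sq (by positivity)]
  have hlog4 : 0 < Real.log 4 := Real.log_pos (by norm_num)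
  obtain ⟨C6, hC6⟩ := pow_unbounded_of_one_lt C5 (by norm_num : (1 : ℝ) < 2)
  set c : ℝ := (Real.log 4) ^ (-(1 / 25) : ℝ) / C with hcdef
  have hc : 0 < c := by positivity
  have hlow : ∀ i : ℕ, 1 ≤ i → ∀ j : ℕ, j ≤ i → c * (i : ℝ) ^ (-(1 / 25) : ℝ) ≤ q (4 ^ i) (2 ^ j) := by
    intro i hi j hj
    have h1 := hbase (4 ^ i) (by
      calc 2 ≤ 4 ^ 1 := by norm_num
        _ ≤ 4 ^ i := Nat.pow_le_pow_right (by norm_num) hi) (2 ^ j) (one_le_pow₀ (by norm_num)) (by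
        rw [hsq]; exact pow_le_pow_right₀ (by norm_num) hj)
    refine le_trans (le_of_eq ?_) h1
    have h2 : Real.log ((4 ^ i : ℕ) : ℝ) = i * Real.log 4 := by
      push_cast
      rw [Real.log_pow]
    rw [h2, Real.mul_rpow (by positivity) hlog4.le, hcdef]
    ring
  -- large `k`
  have hev1 : ∀ᶠ k : ℕ in atTop, (4 : ℝ) ^ (-(k : ℝ) / 10) ≤ 1 / 100 * (c * (2 * (k : ℝ)) ^ (-(1 / 25) : ℝ)) := by
    have t1 := (tendsto_rpow_mul_exp_neg_mul_atTop_nhds_zero (1 / 25) (Real.log 4 / 10) (by positivity)).comp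
      tendsto_natCast_atTop_atTop
    have hδ : (0 : ℝ) < 1 / 100 * (c * 2 ^ (-(1 / 25) : ℝ)) := by positivity
    filter_upwards [t1.eventually (ge_mem_nhds hδ), eventually_ge_atTop 1] with k hk hk1
    have hk0 : (0 : ℝ) < k := by exact_mod_cast hk1
    have e1 : (4 : ℝ) ^ (-(k : ℝ) / 10) = Real.exp (-(Real.log 4 / 10) * k) := by
      rw [Real.rpow_def_of_pos (by norm_num)]; congr 1; ring
    simp only [Function.comp_apply] at hk
    rw [e1, Real.mul_rpow (by norm_num) hk0.le]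
    have e2 : Real.exp (-(Real.log 4 / 10) * k) =
        ((k : ℝ) ^ (1 / 25 : ℝ) * Real.exp (-(Real.log 4 / 10) * k)) * (k : ℝ) ^ (-(1 / 25) : ℝ) := by
      rw [Real.rpow_neg hk0.le]
      field_simp
    rw [e2]
    calc _ ≤ 1 / 100 * (c * 2 ^ (-(1 / 25) : ℝ)) * (k : ℝ) ^ (-(1 / 25) : ℝ) :=
          mul_le_mul_of_nonneg_right hk (by positivity)
      _ = _ := by ring
  have hev2 : ∀ᶠ k : ℕ in atTop, L ≤ 4 ^ k := by
    filter_upwards [eventually_ge_atTop L] with k hk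
    exact hk.trans (Nat.lt_pow_self (by norm_num)).le
  have hev3 : ∀ᶠ k : ℕ in atTop, n0 ≤ 4 ^ k := by
    filter_upwards [eventually_ge_atTop n0] with k hk
    exact hk.trans (Nat.lt_pow_self (by norm_num)).le
  obtain ⟨i1, hi1⟩ := eventually_atTop.mp (hev1.and (hev2.and hev3))
  refine SRig.boot (q := fun i j => q (4 ^ i) (2 ^ j)) (c := c) (CQ := CQ) (c2 := 1 / 12) (γ := 1 / 25)
    (ε := 1 / 10000) (d := 1 / 100) (i0 := max i1 1) (C6 := C6) hc (by norm_num) (by norm_num) (by norm_num) ?_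
    (by norm_num) (by norm_num) (by norm_num) (fun i j => hQ _ _ (one_le_pow₀ (by norm_num))) ?_ ?_
  · have h1 : (2 : ℝ) < (1 + 1 / 12 / 2) ^ (25 : ℝ) := by
      rw [show (25 : ℝ) = ((25 : ℕ) : ℝ) by norm_num, Real.rpow_natCast]; norm_num
    have h2 := Real.rpow_lt_rpow (by norm_num) h1 (by norm_num : (0 : ℝ) < 1 / 25)
    rwa [← Real.rpow_mul (by norm_num), show (25 : ℝ) * (1 / 25) = 1 by norm_num, Real.rpow_one] at h2
  · intro i hi j hj
    exact hlow i (le_trans (le_max_right _ _) hi) j hj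
  · intro i j k hk hj hki hi
    obtain ⟨e1, e2, e3⟩ := hi1 k (le_trans (le_max_left _ _) hk)
    have hk1 : 1 ≤ k := le_trans (le_max_right _ _) hk
    have h4k : (4 ^ k) * 16 ≤ 4 ^ i := by
      calc (4 ^ k) * 16 = 4 ^ (k + 2) := by ring
        _ ≤ 4 ^ i := Nat.pow_le_pow_right (by norm_num) hki
    obtain ⟨n', g1, g2, g3, g4⟩ := h (4 ^ k) e3 (4 ^ i) (by omega) (by
      push_cast
      rw [← Real.rpow_natCast, ← Real.rpow_natCast, ← Real.rpow_mul (by norm_num)]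
      apply Real.rpow_le_rpow_of_exponent_le (by norm_num)
      have : (100 * i : ℝ) ≤ 105 * k := by exact_mod_cast hi
      have hk0 : (0 : ℝ) ≤ k := Nat.cast_nonneg k
      linarith) (2 ^ j) (one_le_pow₀ (by norm_num)) (by
        rw [hsq]; exact pow_le_pow_right₀ (by norm_num) hj)
    rw [hsq] at g4
    have hn' : n' ≤ 2 * 4 ^ k := by
      have : (n' : ℝ) ≤ 2 * 4 ^ k := by
        refine g2.trans ?_
        push_cast
        have : (0 : ℝ) ≤ 4 ^ k := by positivity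
        nlinarith
      exact_mod_cast this
    have hi1' : 4 ^ i = 4 * 4 ^ (i - 1) := by
      obtain ⟨m, rfl⟩ : ∃ m, i = m + 1 := ⟨i - 1, by omega⟩
      simp [pow_succ]; ring
    have f1 : q (4 ^ k) (2 ^ j) ≤ q n' (2 ^ j) := hmono _ g1
    have f2 : q (4 ^ (i - 1)) (2 ^ (k + C6)) ≤ q (4 ^ i - n' - L) (C5 * 2 ^ k) := by
      refine le_trans (hmono _ (?_ : 4 ^ (i - 1) ≤ 4 ^ i - n' - L)) (hanti _ _ _ ?_ ?_)
      · omega
      · have : (1 : ℝ) ≤ 2 ^ k := one_le_pow₀ (by norm_num)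
        nlinarith
      · rw [pow_add, mul_comm]
        exact mul_le_mul_of_nonneg_left hC6.le (by positivity)
    have f3 : ((4 ^ k : ℕ) : ℝ) ^ (-(1 / 10) : ℝ) ≤ 1 / 100 * q (4 ^ i) (2 ^ j) := by
      have a1 := hlow i (by omega) j (by omega)
      have a2 : ((4 ^ k : ℕ) : ℝ) ^ (-(1 / 10) : ℝ) = (4 : ℝ) ^ (-(k : ℝ) / 10) := by
        push_cast
        rw [← Real.rpow_natCast, ← Real.rpow_mul (by norm_num)]
        congr 1; ring
      rw [a2]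
      refine e1.trans ?_
      have a3 : (2 * (k : ℝ)) ^ (-(1 / 25) : ℝ) ≤ (i : ℝ) ^ (-(1 / 25) : ℝ) := by
        apply Real.rpow_le_rpow_of_nonpos
        · have : 0 < i := by omega
          exact_mod_cast this
        · have : i ≤ 2 * k := by omega
          exact_mod_cast this
        · norm_num
      have a4 : c * (2 * (k : ℝ)) ^ (-(1 / 25) : ℝ) ≤ c * (i : ℝ) ^ (-(1 / 25) : ℝ) :=
        mul_le_mul_of_nonneg_left a3 hc.le
      linarith
    have f4 : (0 : ℝ) ≤ q (4 ^ k) (2 ^ j) := hnonneg _ _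
    show (1 - 1 / 10000) * q (4 ^ k) (2 ^ j) + 1 / 12 * q (4 ^ (i - 1)) (2 ^ (k + C6)) ≤
      (1 + 1 / 100) * q (4 ^ i) (2 ^ j)
    linarith

end Pool.Agent.RS69
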