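import Pool.Agent.RS69.Rec2
import Pool.Agent.RS69.Scales
import Pool.Agent.RS69.Kick2

/-!
# RS69.Rec3 : Claim A (assembly of 8.A)

By contradiction: if for every `p > 0` there is `r` with `Q0(m,r) < p` for all `m`, choose `ε = 1/10000`, `r0`
large (`Qn_anti`), a kick (`exists_kick`), and apply `flat_ineq`, `cinf_ineq`, `flat_boot`, `Q_base`, `loc_ineq`,
`qinf_ineq`, `loc_boot`.
-/

set_option autoImplicit false

namespace Pool.Agent.RS69

variable {B : Base} (D : Design B)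

/-- Claim A -/
theorem p_pos : ∃ p : ℝ, 0 < p ∧ ∀ r : ℝ, 1 ≤ r → ∃ m : ℕ, p ≤ D.Qn (nu0 B) m r := by
  by_contra hcon
  push Not at hcon
  obtain ⟨C3, hC3, r1, hr1, hkick⟩ := exists_kick D
  obtain ⟨CL1, hCL1, hflat⟩ := flat_ineq D
  obtain ⟨C5, hC5, CL2, hCL2, hloc⟩ := loc_ineq D
  obtain ⟨c0, hc0, hcn⟩ := cn_ge D
  obtain ⟨CQ, hCQ, hQ⟩ := Q_le D
  set ε : ℝ := 1 / 10000 with hε
  have hε0 : 0 < ε := by norm_num [hε]
  have hε1 : ε < 1 := by norm_num [hε]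
  -- the radius
  obtain ⟨r, hr, hrQ⟩ := hcon (ε / (2 * C3)) (by positivity)
  set r0 : ℝ := max r r1 with hr0
  have hr01 : 1 ≤ r0 := hr.trans (le_max_left _ _)
  have hsmall : ∀ m, C3 * D.Qn (nu0 B) m r0 ≤ ε / 2 := by
    intro m
    have h1 : D.Qn (nu0 B) m r0 ≤ D.Qn (nu0 B) m r :=
      Qn_anti D (nu0 B) m (by linarith) (le_max_left _ _)
    have h2 := (hrQ m).le
    calc C3 * D.Qn (nu0 B) m r0 ≤ C3 * (ε / (2 * C3)) :=
          mul_le_mul_of_nonneg_left (h1.trans h2) hC3.le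
      _ = ε / 2 := by field_simp
  -- the kick
  obtain ⟨L0, hL0⟩ := hkick r0 (le_max_right _ _) ε hε0 hsmall
  obtain ⟨L, hL1, hL2⟩ : ∃ L : ℕ, L0 ≤ L ∧ max CL1 CL2 + 4 * r0 ≤ L :=
    ⟨max L0 ⌈max CL1 CL2 + 4 * r0⌉₊, le_max_left _ _,
      (Nat.le_ceil _).trans (by exact_mod_cast le_max_right _ _)⟩
  obtain ⟨K⟩ := hL0 L hL1
  have hLa : CL1 + 4 * r0 ≤ L := by linarith [le_max_left CL1 CL2]
  have hLb : CL2 + 4 * r0 ≤ L := by linarith [le_max_right CL1 CL2]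
  -- flat
  obtain ⟨n0, hn0⟩ := hflat K (by linarith) hLa hε0 hε1
  have hF := cinf_ineq D L n0 ε hε0.le hε1.le (fun n hn N hN hN' ν hν => hn0 n hn N hN hN' hν)
  obtain ⟨C, hC, hgrow⟩ := flat_boot (cinf D) (cinf_mono D)
    ⟨c0, hc0, fun n => le_cinf D fun ν hν => hcn ν hν n⟩ L n0 hF
  obtain ⟨C', hC', hbase⟩ := Q_base D hC hgrow
  -- localised
  obtain ⟨n1, hn1⟩ := hloc K (by linarith) hLb hε0 hε1
  have hQi := qinf_ineq D L n1 ε C5 hε0.le hε1.le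
    (fun n hn N hN hN' ν hν r hr hr' => hn1 n hn N hN hN' hν r hr hr')
  exact loc_boot (qinf D) (qinf_mono D) (fun n r ρ hr hρ => qinf_anti D n (by linarith) hρ)
    (qinf_nonneg D) CQ (fun n r hr => (qinf_le D (nu0_InC0 D) n r).trans (hQ _ (nu0_InC0 D) r hr n))
    C5 hC5 L n1 hQi C' hC'
    (fun n hn r hr hr' => le_qinf D fun ν hν => hbase n hn r hr hr' ν hν)

end Pool.Agent.RS69
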