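import Pool.Agent.RS69.Fin1

/-!
# RS69.Top : the negation of the problem (statement S06584), assembled
-/

set_option autoImplicit false

namespace Pool.Agent.RS69

open Filter Topology

theorem top :
    ¬ (∀ (d : ℕ) (σ : Fin d → List (Fin d)),
      (∃ n : ℕ, 1 ≤ n ∧ ∀ a b : Fin d,
          b ∈ (fun w : List (Fin d) => w.flatMap σ)^[n] [a]) →
      Set.Infinite {x : ℤ → Fin d | ∀ (i : ℤ) (k : ℕ), ∃ (n : ℕ) (a : Fin d),
          List.ofFn (fun j : Fin k => x (i + ((j : ℕ) : ℤ))) <:+: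
            (fun w : List (Fin d) => w.flatMap σ)^[n] [a]} →
      ∀ μ : MeasureTheory.Measure (ℤ → Fin d),
        MeasureTheory.IsProbabilityMeasure μ →
        μ ({x : ℤ → Fin d | ∀ (i : ℤ) (k : ℕ), ∃ (n : ℕ) (a : Fin d),
            List.ofFn (fun j : Fin k => x (i + ((j : ℕ) : ℤ))) <:+:
              (fun w : List (Fin d) => w.flatMap σ)^[n] [a]}ᶜ) = 0 →
        MeasureTheory.MeasurePreserving
          (fun x : ℤ → Fin d => fun i : ℤ => x (i + 1)) μ μ →
        (∃ n : ℕ → ℕ, Filter.Tendsto n Filter.atTop Filter.atTop ∧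
          ∀ A : Set (ℤ → Fin d), MeasurableSet A →
            Filter.Tendsto
              (fun k : ℕ => μ (symmDiff
                ((fun x : ℤ → Fin d => fun i : ℤ => x (i + 1))^[n k] ⁻¹' A) A))
              Filter.atTop (nhds 0)) →
        ∀ (r : ℝ) (v : Fin d → ℝ), (∀ i, 0 < v i) →
          (Matrix.of fun i j : Fin d => ((σ j).count i : ℝ)).mulVec v = r • v →
          1 < r ∧ IsIntegral ℤ r ∧
            ∀ z ∈ (minpoly ℚ r).aroots ℂ, z ≠ (r : ℂ) → ‖z‖ < 1) := by
  intro h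
  obtain ⟨B, -⟩ := exists_base
  obtain ⟨D⟩ := exists_design B
  obtain ⟨μ, h1, h2, h3, h4⟩ := SRig.exists_measure D.σ 0 (hlen D)
    (fun k => (itw D k [0]).length) (hlen D) (mismatch D (recurrence D))
  exact not_pisot B D.N D.one_le_N (h 4 D.σ (primitive B D) (infinite D) μ h1 h2 h3 h4
    (B.t0 ^ D.N) B.f B.f_pos (incidence B D))

end Pool.Agent.RS69
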