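import Pool.Agent.RS69.Tr1

/-!
# RS69.Tr2 : transport and Gram identities (sections 1.3, 1.4 of the paper proof)

`Bf_op`: for fixed `i, j` and tiles `(a',p)` of `τ_η(lt i)`, `(b',q)` of `τ_η'(lt j)` substitute
`V' = M V + q - p` (a bijection of `Z^4`, `Base.PQ`, `Base.QP`): `c(V) = t (c(V') - c(q) + c(p))`,
`z(V) = w⁻¹ (z(V') - z(q) + z(p))`, so that `c(V) + pos_i - pos_j = t (c(V') + pos'_i - pos'_j)` and
`KD ζ D (t x) / t² = KD ζ (D t) x / t³`; collect the powers of `t`.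
-/

set_option autoImplicit false

namespace Pool.Agent.RS69

variable {B : Base}

theorem norm_w (τ : Level B) : ‖τ.w‖ = 1 := by
  rw [Level.w, norm_pow, B.norm_w0, one_pow]

private theorem w_ne_zero (τ : Level B) : τ.w ≠ 0 := by
  intro h
  have := norm_w τ
  rw [h, norm_zero] at this
  exact zero_ne_one this

theorem Jr_rot {r : ℝ} {w : ℂ} (hw : ‖w‖ = 1) : (fun s => Jr r (w⁻¹ * s)) = Jr r := by
  funext s
  rw [Jr, Jr, SRig.Jg, SRig.Jg, norm_mul, norm_inv, hw, inv_one, one_mul]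

theorem Jone_rot (w : ℂ) : (fun s => Jone (w⁻¹ * s)) = Jone := rfl

private theorem list_sum_eq {α : Type*} (l : List α) (f : α → ℝ) :
    (l.map f).sum = ∑ k : Fin l.length, f (l.get k) := by
  rw [← Fin.sum_univ_fun_getElem l f]
  rfl

/-- sums over the index set of `push` -/
theorem push_sum (τ : Level B) (ν : Arr) (F : Ltr → ℝ → ℂ → ℝ) :
    ∑ x, (push τ ν).w x * F ((push τ ν).lt x) ((push τ ν).pos x) ((push τ ν).zp x) =
      ∑ i, ν.w i * ((τ.t)⁻¹ * ∑ η, τ.β η * ((tiles (τ.sub η (ν.lt i)) 0).map (fun y =>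
        F y.1 (ν.pos i / τ.t + B.c y.2) (τ.w * ν.zp i + B.z y.2))).sum) := by
  have h1 : ∑ x, (push τ ν).w x * F ((push τ ν).lt x) ((push τ ν).pos x) ((push τ ν).zp x) =
      ∑ i : ν.ι, ∑ η : τ.E, ∑ k : Fin (tiles (τ.sub η (ν.lt i)) 0).length,
        (ν.w i * τ.β η / τ.t) * F ((tiles (τ.sub η (ν.lt i)) 0).get k).1
          (ν.pos i / τ.t + B.c ((tiles (τ.sub η (ν.lt i)) 0).get k).2)
          (τ.w * ν.zp i + B.z ((tiles (τ.sub η (ν.lt i)) 0).get k).2) := by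
    have h2 := Fintype.sum_sigma (fun x : (Σ i : ν.ι, Σ η : τ.E,
      Fin (tiles (τ.sub η (ν.lt i)) 0).length) =>
        (ν.w x.1 * τ.β x.2.1 / τ.t) * F ((tiles (τ.sub x.2.1 (ν.lt x.1)) 0).get x.2.2).1
          (ν.pos x.1 / τ.t + B.c ((tiles (τ.sub x.2.1 (ν.lt x.1)) 0).get x.2.2).2)
          (τ.w * ν.zp x.1 + B.z ((tiles (τ.sub x.2.1 (ν.lt x.1)) 0).get x.2.2).2))
    refine h2.trans (Finset.sum_congr rfl fun i _ => ?_)
    exact Fintype.sum_sigma _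
  rw [h1]
  refine Finset.sum_congr rfl fun i _ => ?_
  rw [Finset.mul_sum, Finset.mul_sum]
  refine Finset.sum_congr rfl fun η _ => ?_
  rw [list_sum_eq, Finset.mul_sum, Finset.mul_sum, Finset.mul_sum]
  refine Finset.sum_congr rfl fun k _ => ?_
  ring

/-- the bijection `V ↦ M V + q - p` -/
private def shiftEquiv (B : Base) (k : ℕ) (u : Vec) : Vec ≃ Vec where
  toFun V := (B.P ^ k).mulVec V + u
  invFun V := (B.Q ^ k).mulVec (V - u)
  left_inv V := by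
    simp only [add_sub_cancel_right]
    exact M_inv_mul B k V
  right_inv V := by
    simp only [M_mul_inv B k (V - u), sub_add_cancel]

private theorem KD_scale {ζ D t x : ℝ} (ht : t ≠ 0) : KD ζ (D * t) (t⁻¹ * x) = t * KD ζ D x := by
  rw [KD, KD, SRig.Kd, SRig.Kd]
  have h1 : D * t * (ζ * (t⁻¹ * x)) = D * (ζ * x) := by field_simp
  rw [h1]
  ring

/-- change of variables -/
private theorem tsum_shift (τ : Level B) {ζ D : ℝ} (J : ℂ → ℝ) (F : St → ℝ) (x y : Ltr × Vec)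
    (p p' : ℝ) (s s' : ℂ) (O : Ltr × Ltr) (V : Vec) :
    KD ζ (D * τ.t) (B.c ((shiftEquiv B τ.k (y.2 - x.2)) V) + (p / τ.t + B.c x.2) -
        (p' / τ.t + B.c y.2)) *
      J (τ.w⁻¹ * (B.z ((shiftEquiv B τ.k (y.2 - x.2)) V) + (τ.w * s + B.z x.2) -
        (τ.w * s' + B.z y.2))) * F (x.1, y.1, (shiftEquiv B τ.k (y.2 - x.2)) V) =
    τ.t * (KD ζ D (B.c V + p - p') * J (B.z V + s - s') *
      F (child τ.M (O.1, O.2, V) x y)) := by
  have ht : τ.t ≠ 0 := (t_pos τ).ne'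
  have hw : τ.w ≠ 0 := w_ne_zero τ
  have hV : (shiftEquiv B τ.k (y.2 - x.2)) V = (B.P ^ τ.k).mulVec V + (y.2 - x.2) := rfl
  have h1 : B.c ((shiftEquiv B τ.k (y.2 - x.2)) V) + (p / τ.t + B.c x.2) -
        (p' / τ.t + B.c y.2) = (τ.t)⁻¹ * (B.c V + p - p') := by
    rw [hV, map_add, map_sub, c_Mpow]
    have : (B.t0 ^ τ.k)⁻¹ = (τ.t)⁻¹ := rfl
    rw [this]
    field_simp
    ring
  have h2 : τ.w⁻¹ * (B.z ((shiftEquiv B τ.k (y.2 - x.2)) V) + (τ.w * s + B.z x.2) -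
        (τ.w * s' + B.z y.2)) = B.z V + s - s' := by
    rw [hV, map_add, map_sub, z_Mpow]
    have : B.w0 ^ τ.k = τ.w := rfl
    rw [this]
    field_simp
    ring
  rw [h1, h2, KD_scale ht]
  have h3 : child τ.M (O.1, O.2, V) x y = (x.1, y.1, (shiftEquiv B τ.k (y.2 - x.2)) V) := by
    simp only [child, hV, Level.M]
    rw [add_sub_assoc]
  rw [h3]
  ring

/-- 1.3 transport identity -/
theorem Bf_op (τ : Level B) {ζ D R : ℝ} (hζ : 0 < ζ) (hD : 0 < D) (J : ℂ → ℝ) (ν : Arr)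
    {F : St → ℝ} (hF : Bdd B R F) :
    Bf B ζ D J ν (τ.op F) = Bf B ζ (D * τ.t) (fun s => J (τ.w⁻¹ * s)) (push τ ν) F := by
  have ht : 0 < τ.t := t_pos τ
  -- the inner sum on the right
  set T : Ltr → ℝ → ℂ → Ltr → ℝ → ℂ → ℝ := fun a p s b p' s' =>
    ∑' V : Vec, KD ζ (D * τ.t) (B.c V + p - p') * J (τ.w⁻¹ * (B.z V + s - s')) * F (a, b, V)
    with hT
  set S : ν.ι → ν.ι → Ltr × Vec → Ltr × Vec → ℝ := fun i j x y =>
    ∑' V : Vec, KD ζ D (B.c V + ν.pos i - ν.pos j) * J (B.z V + ν.zp i - ν.zp j) *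
      F (child τ.M (ν.lt i, ν.lt j, V) x y) with hS
  have hR : Bf B ζ (D * τ.t) (fun s => J (τ.w⁻¹ * s)) (push τ ν) F =
      ∑ i, ν.w i * ((τ.t)⁻¹ * ∑ η, τ.β η * ((tiles (τ.sub η (ν.lt i)) 0).map (fun x =>
        ∑ j, ν.w j * ((τ.t)⁻¹ * ∑ η', τ.β η' * ((tiles (τ.sub η' (ν.lt j)) 0).map (fun y =>
          T x.1 (ν.pos i / τ.t + B.c x.2) (τ.w * ν.zp i + B.z x.2)
            y.1 (ν.pos j / τ.t + B.c y.2) (τ.w * ν.zp j + B.z y.2))).sum))).sum) := by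
    rw [← push_sum τ ν (fun a p s => ∑ j, ν.w j * ((τ.t)⁻¹ * ∑ η', τ.β η' *
      ((tiles (τ.sub η' (ν.lt j)) 0).map (fun y =>
          T a p s y.1 (ν.pos j / τ.t + B.c y.2) (τ.w * ν.zp j + B.z y.2))).sum))]
    rw [Bf]
    refine Finset.sum_congr rfl fun X _ => ?_
    rw [← push_sum τ ν (fun b p' s' => T ((push τ ν).lt X) ((push τ ν).pos X)
      ((push τ ν).zp X) b p' s'), Finset.mul_sum]
    refine Finset.sum_congr rfl fun Y _ => ?_
    rw [mul_assoc]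
  -- transported inner sums
  have hTS : ∀ i j, ∀ x y : Ltr × Vec, (∃ X Y : (push τ ν).ι,
      (push τ ν).lt X = x.1 ∧ (push τ ν).pos X = ν.pos i / τ.t + B.c x.2 ∧
        (push τ ν).zp X = τ.w * ν.zp i + B.z x.2 ∧ (push τ ν).lt Y = y.1 ∧
        (push τ ν).pos Y = ν.pos j / τ.t + B.c y.2 ∧
        (push τ ν).zp Y = τ.w * ν.zp j + B.z y.2) →
      Summable (fun V : Vec => KD ζ D (B.c V + ν.pos i - ν.pos j) *
        J (B.z V + ν.zp i - ν.zp j) * F (child τ.M (ν.lt i, ν.lt j, V) x y)) ∧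
      T x.1 (ν.pos i / τ.t + B.c x.2) (τ.w * ν.zp i + B.z x.2)
            y.1 (ν.pos j / τ.t + B.c y.2) (τ.w * ν.zp j + B.z y.2) = τ.t * S i j x y := by
    rintro i j x y ⟨X, Y, h1, h2, h3, h4, h5, h6⟩
    have hsum := Bf_summable B hζ (mul_pos hD ht) (fun s => J (τ.w⁻¹ * s)) (push τ ν) hF X Y
    rw [h1, h2, h3, h4, h5, h6] at hsum
    have hfun : (fun V : Vec => KD ζ (D * τ.t) (B.c V + (ν.pos i / τ.t + B.c x.2) -
        (ν.pos j / τ.t + B.c y.2)) *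
      J (τ.w⁻¹ * (B.z V + (τ.w * ν.zp i + B.z x.2) -
        (τ.w * ν.zp j + B.z y.2))) * F (x.1, y.1, V)) ∘ (shiftEquiv B τ.k (y.2 - x.2)) =
        fun V : Vec => τ.t * (KD ζ D (B.c V + ν.pos i - ν.pos j) *
        J (B.z V + ν.zp i - ν.zp j) * F (child τ.M (ν.lt i, ν.lt j, V) x y)) := by
      funext V
      exact tsum_shift τ J F x y _ _ _ _ (ν.lt i, ν.lt j) V
    constructor
    · have h7 := (shiftEquiv B τ.k (y.2 - x.2)).summable_iff.2 hsum
      rw [hfun] at h7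
      exact (summable_mul_left_iff ht.ne').1 h7
    · rw [hT, hS]
      dsimp only
      rw [← (shiftEquiv B τ.k (y.2 - x.2)).tsum_eq, ← tsum_mul_left]
      exact tsum_congr fun V => congrFun hfun V
  have hTS' : ∀ i j, ∀ η η', ∀ (k : Fin (tiles (τ.sub η (ν.lt i)) 0).length)
      (k' : Fin (tiles (τ.sub η' (ν.lt j)) 0).length), _ := fun i j η η' k k' =>
    hTS i j ((tiles (τ.sub η (ν.lt i)) 0).get k) ((tiles (τ.sub η' (ν.lt j)) 0).get k')
      ⟨⟨i, η, k⟩, ⟨j, η', k'⟩, rfl, rfl, rfl, rfl, rfl, rfl⟩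
  -- the left hand side
  have hL : ∀ i j, ∑' V : Vec, KD ζ D (B.c V + ν.pos i - ν.pos j) *
      J (B.z V + ν.zp i - ν.zp j) * τ.op F (ν.lt i, ν.lt j, V) =
      ∑ η, ∑ η', ∑ k : Fin (tiles (τ.sub η (ν.lt i)) 0).length,
        ∑ k' : Fin (tiles (τ.sub η' (ν.lt j)) 0).length, ((τ.t)⁻¹ * (τ.β η * τ.β η')) *
          S i j ((tiles (τ.sub η (ν.lt i)) 0).get k) ((tiles (τ.sub η' (ν.lt j)) 0).get k') := by
    intro i j
    refine HasSum.tsum_eq ?_
    have h1 : HasSum (fun V : Vec => ∑ η, ∑ η', ∑ k : Fin (tiles (τ.sub η (ν.lt i)) 0).length,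
        ∑ k' : Fin (tiles (τ.sub η' (ν.lt j)) 0).length, ((τ.t)⁻¹ * (τ.β η * τ.β η')) *
          (KD ζ D (B.c V + ν.pos i - ν.pos j) *
            J (B.z V + ν.zp i - ν.zp j) * F (child τ.M (ν.lt i, ν.lt j, V)
              ((tiles (τ.sub η (ν.lt i)) 0).get k) ((tiles (τ.sub η' (ν.lt j)) 0).get k'))))
        (∑ η, ∑ η', ∑ k : Fin (tiles (τ.sub η (ν.lt i)) 0).length,
        ∑ k' : Fin (tiles (τ.sub η' (ν.lt j)) 0).length, ((τ.t)⁻¹ * (τ.β η * τ.β η')) *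
          S i j ((tiles (τ.sub η (ν.lt i)) 0).get k)
            ((tiles (τ.sub η' (ν.lt j)) 0).get k')) := by
      refine hasSum_sum fun η _ => hasSum_sum fun η' _ => hasSum_sum fun k _ =>
        hasSum_sum fun k' _ => HasSum.mul_left _ ?_
      exact (hTS' i j η η' k k').1.hasSum
    convert h1 using 1
    funext V
    rw [Level.op, Finset.mul_sum, Finset.mul_sum]
    refine Finset.sum_congr rfl fun η _ => ?_
    rw [Finset.mul_sum, Finset.mul_sum]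
    refine Finset.sum_congr rfl fun η' _ => ?_
    rw [list_sum_eq, Finset.mul_sum, Finset.mul_sum, Finset.mul_sum]
    refine Finset.sum_congr rfl fun k _ => ?_
    rw [list_sum_eq, Finset.mul_sum, Finset.mul_sum, Finset.mul_sum]
    refine Finset.sum_congr rfl fun k' _ => ?_
    ring
  rw [hR, Bf]
  refine Finset.sum_congr rfl fun i _ => ?_
  simp only [hL, Finset.mul_sum]
  rw [Finset.sum_comm]
  refine Finset.sum_congr rfl fun η _ => ?_
  rw [list_sum_eq, Finset.mul_sum, Finset.mul_sum, Finset.mul_sum]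
  have h2 : ∀ j, ∑ η', ∑ k : Fin (tiles (τ.sub η (ν.lt i)) 0).length,
        ∑ k' : Fin (tiles (τ.sub η' (ν.lt j)) 0).length,
          ν.w i * ν.w j * ((τ.t)⁻¹ * (τ.β η * τ.β η') *
          S i j ((tiles (τ.sub η (ν.lt i)) 0).get k) ((tiles (τ.sub η' (ν.lt j)) 0).get k')) =
      ∑ k : Fin (tiles (τ.sub η (ν.lt i)) 0).length, ∑ η',
        ∑ k' : Fin (tiles (τ.sub η' (ν.lt j)) 0).length,
          ν.w i * ν.w j * ((τ.t)⁻¹ * (τ.β η * τ.β η') *
          S i j ((tiles (τ.sub η (ν.lt i)) 0).get k)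
            ((tiles (τ.sub η' (ν.lt j)) 0).get k')) := fun j => Finset.sum_comm
  simp only [h2]
  rw [Finset.sum_comm]
  refine Finset.sum_congr rfl fun k _ => ?_
  simp only [Finset.mul_sum]
  refine Finset.sum_congr rfl fun j _ => Finset.sum_congr rfl fun η' _ => ?_
  rw [list_sum_eq, Finset.mul_sum, Finset.mul_sum, Finset.mul_sum, Finset.mul_sum,
    Finset.mul_sum, Finset.mul_sum]
  refine Finset.sum_congr rfl fun k' _ => ?_
  rw [(hTS' i j η η' k k').2]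
  field_simp

theorem Bf_iter (τ : Level B) (n : ℕ) {ζ D R : ℝ} (hζ : 0 < ζ) (hD : 0 < D) (J : ℂ → ℝ) (ν : Arr)
    {F : St → ℝ} (hF : Bdd B R F) :
    Bf B ζ D J ν (τ.op^[n] F) = Bf B ζ (D * τ.t ^ n) (fun s => J ((τ.w ^ n)⁻¹ * s)) ((push τ)^[n] ν) F := by
  induction n generalizing F R with
  | zero => simp
  | succ n ih =>
    obtain ⟨R', hR'⟩ := Bdd_op τ hF
    rw [Function.iterate_succ_apply, ih hR',
      Bf_op τ hζ (mul_pos hD (pow_pos (t_pos τ) n)) _ _ hF, Function.iterate_succ_apply']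
    have h1 : D * τ.t ^ n * τ.t = D * τ.t ^ (n + 1) := by ring
    have h2 : (fun s => J ((τ.w ^ n)⁻¹ * (τ.w⁻¹ * s))) =
        fun s => J ((τ.w ^ (n + 1))⁻¹ * s) := by
      funext s
      congr 1
      rw [pow_succ, mul_inv, mul_assoc]
    rw [h1, h2]

/-- pairing with `H_0` is the Gram form -/
theorem Bf_H0 (D : Design B) {ζ Λ : ℝ} (hζ : 0 < ζ) (hΛ : 0 < Λ) (J : ℂ → ℝ) (ν : Arr) :
    Bf B ζ Λ J ν (D.S.H 0) = QF B ζ Λ J ν := by
  rw [Bf, QF]
  refine Finset.sum_congr rfl fun i _ => Finset.sum_congr rfl fun j _ => ?_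
  by_cases h : ν.lt i = ν.lt j
  · rw [if_pos h, tsum_eq_single 0]
    · have h1 : D.S.H 0 (ν.lt i, ν.lt j, 0) = B.l (ev (ν.lt i)) := by
        simp only [Level.H]
        rw [if_pos]
        exact ⟨h, rfl⟩
      rw [h1, map_zero, map_zero, zero_add, zero_add]
      ring
    · intro V hV
      have h1 : D.S.H 0 (ν.lt i, ν.lt j, V) = 0 := by
        simp only [Level.H]
        rw [if_neg]
        exact fun h2 => hV h2.2
      rw [h1, mul_zero]
  · rw [if_neg h]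
    have h1 : ∀ V, D.S.H 0 (ν.lt i, ν.lt j, V) = 0 := by
      intro V
      simp only [Level.H]
      rw [if_neg]
      exact fun h2 => h h2.1
    simp [h1]

theorem Bdd_H0 (D : Design B) : Bdd B 0 (D.S.H 0) := by
  intro O hO
  have h1 : Coin O := by
    by_contra h
    apply hO
    simp only [Level.H]
    rw [if_neg h]
  rw [h1.2, map_zero, map_zero, abs_zero, norm_zero]
  exact ⟨le_rfl, le_rfl⟩

/-- 1.4 (general kernel) -/
theorem Bf_H (D : Design B) {ζ Λ : ℝ} (hζ : 0 < ζ) (hΛ : 0 < Λ) (J : ℂ → ℝ) (ν : Arr) (m : ℕ) :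
    Bf B ζ Λ J ν (D.S.H m) =
      QF B ζ (Λ * D.t ^ m) (fun s => J ((D.w ^ m)⁻¹ * s)) ((push D.S)^[m] ν) := by
  have h1 := op_iter_H D m 0
  rw [zero_add] at h1
  rw [← h1, Bf_iter D.S m hζ hΛ J ν (Bdd_H0 D)]
  have ht : 0 < D.S.t := t_pos D.S
  exact Bf_H0 D hζ (mul_pos hΛ (pow_pos ht m)) _ _

end Pool.Agent.RS69
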